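import Pool.Agent.S5.Z4.Tre

/-!
# Inner nodes with four half twists: certificates
-/

set_option autoImplicit false

namespace Pool.Agent.S5.Z4

theorem qAA1_38 : Cl ⟨0, false, true, false⟩ ⟨0, false, false, false⟩
    ⟨820, 874, 134, 174⟩ ⟨736, 958, 360, 539⟩ ⟨920, 1001, 0, 42⟩ := .mk
  (.L ⟨460, 37, false, false, 17219, 3446⟩ ⟨571, 20, true, false, 3285, 6449⟩
   ⟨240, 298, 433, 485⟩ ⟨268, 288, 513, 528⟩ ⟨455, 489, 487, 528⟩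
   ⟨0, 0, 0, 0⟩ ⟨0, 0, 0, 0⟩)
  (by decide +kernel)

theorem qAA1_39 : Cl ⟨0, false, true, false⟩ ⟨0, false, false, false⟩
    ⟨820, 874, 134, 174⟩ ⟨736, 958, 360, 539⟩ ⟨908, 1001, 0, 50⟩ := .mk
  (.L ⟨460, 37, false, false, 17219, 3446⟩ ⟨570, 19, true, false, 2961, 6449⟩
   ⟨240, 298, 433, 485⟩ ⟨267, 289, 511, 528⟩ ⟨454, 490, 487, 529⟩
   ⟨0, 0, 0, 0⟩ ⟨0, 0, 0, 0⟩)
  (by decide +kernel)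

theorem qAA1_40 : Cl ⟨0, false, true, false⟩ ⟨0, false, true, false⟩
    ⟨833, 874, 95, 160⟩ ⟨886, 964, 503, 582⟩ ⟨886, 964, 503, 582⟩ := .mk
  (.L ⟨447, 43, false, false, 15945, 7956⟩ ⟨447, 43, false, false, 15945, 7956⟩
   ⟨238, 273, 428, 462⟩ ⟨238, 273, 428, 462⟩ ⟨487, 513, 486, 514⟩
   ⟨0, 0, 0, 0⟩ ⟨0, 0, 0, 0⟩)
  (by decide +kernel)

theorem qAA1_41 : Cl ⟨0, false, true, false⟩ ⟨2, false, false, true⟩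
    ⟨833, 853, 105, 160⟩ ⟨886, 964, 503, 582⟩ ⟨605, 647, 291, 329⟩ := .mk
  (.L ⟨458, 41, false, false, 14997, 7956⟩ ⟨765, 35, false, false, 11120, 7232⟩
   ⟨240, 272, 432, 462⟩ ⟨306, 319, 464, 476⟩ ⟨487, 506, 513, 533⟩
   ⟨0, 0, 0, 0⟩ ⟨590, 646, 1109, 1169⟩)
  (by decide +kernel)

theorem qAA1_42 : Cl ⟨0, false, true, false⟩ ⟨0, false, true, true⟩
    ⟨833, 868, 109, 160⟩ ⟨886, 964, 503, 582⟩ ⟨761, 870, 218, 327⟩ := .mk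
  (.S 2 925
   (.L ⟨465, 47, false, false, 15279, 8950⟩ ⟨588, 21, false, false, 8822, 1419⟩
    ⟨246, 271, 430, 459⟩ ⟨272, 300, 467, 495⟩ ⟨474, 500, 500, 526⟩
    ⟨0, 0, 0, 0⟩ ⟨0, 0, 0, 0⟩)
   (.L ⟨450, 43, false, false, 14172, 7956⟩ ⟨588, 21, false, false, 8822, 1419⟩
    ⟨238, 265, 432, 462⟩ ⟨272, 300, 467, 495⟩ ⟨475, 502, 503, 529⟩
    ⟨0, 0, 0, 0⟩ ⟨0, 0, 0, 0⟩))
  (by decide +kernel)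

theorem qAA1_43 : Cl ⟨0, false, true, false⟩ ⟨0, false, true, true⟩
    ⟨833, 868, 102, 160⟩ ⟨886, 964, 503, 582⟩ ⟨771, 876, 304, 435⟩ := .mk
  (.S 4 823
   (.S 5 369
    (.S 2 925
     (.L ⟨465, 47, false, false, 15529, 8950⟩ ⟨602, 30, false, false, 10448, 4891⟩
      ⟨246, 272, 429, 459⟩ ⟨277, 296, 460, 481⟩ ⟨480, 503, 501, 522⟩
      ⟨0, 0, 0, 0⟩ ⟨0, 0, 0, 0⟩)
     (.L ⟨450, 43, false, false, 14435, 7956⟩ ⟨602, 30, false, false, 10448, 4891⟩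
      ⟨238, 266, 432, 462⟩ ⟨277, 296, 460, 481⟩ ⟨482, 504, 504, 525⟩
      ⟨0, 0, 0, 0⟩ ⟨0, 0, 0, 0⟩))
    (.S 2 925
     (.S 0 850
      (.S 1 131
       (.L ⟨487, 50, false, false, 15022, 10060⟩ ⟨599, 41, false, false, 12600, 8017⟩
        ⟨253, 272, 433, 455⟩ ⟨279, 294, 452, 469⟩ ⟨487, 504, 502, 517⟩
        ⟨0, 0, 0, 0⟩ ⟨0, 0, 0, 0⟩)
       (.L ⟨475, 45, false, false, 13964, 8950⟩ ⟨588, 37, false, false, 11724, 7067⟩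
        ⟨248, 268, 435, 459⟩ ⟨275, 292, 454, 472⟩ ⟨486, 504, 502, 519⟩
        ⟨0, 0, 0, 0⟩ ⟨0, 0, 0, 0⟩))
      (.S 1 131
       (.L ⟨477, 52, false, false, 15529, 10475⟩ ⟨589, 42, false, false, 12961, 8326⟩
        ⟨251, 270, 429, 452⟩ ⟨277, 293, 450, 467⟩ ⟨486, 503, 502, 517⟩
        ⟨0, 0, 0, 0⟩ ⟨0, 0, 0, 0⟩)
       (.S 1 145
        (.L ⟨471, 50, false, false, 14498, 9951⟩ ⟨584, 41, false, false, 12107, 7877⟩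
         ⟨249, 266, 432, 454⟩ ⟨275, 290, 452, 469⟩ ⟨486, 503, 503, 517⟩
         ⟨0, 0, 0, 0⟩ ⟨0, 0, 0, 0⟩)
        (.D ⟨465, 47, false, false, 14002, 9389⟩ ⟨578, 39, false, false, 11697, 7396⟩
         ⟨246, 264, 433, 456⟩ ⟨274, 289, 453, 471⟩ ⟨486, 503, 503, 518⟩))))
     (.S 1 131
      (.S 0 850
       (.L ⟨471, 45, false, false, 13935, 9119⟩ ⟨599, 41, false, false, 12600, 8017⟩
        ⟨247, 266, 435, 458⟩ ⟨279, 294, 452, 469⟩ ⟨488, 505, 504, 520⟩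
        ⟨0, 0, 0, 0⟩ ⟨0, 0, 0, 0⟩)
       (.L ⟨461, 47, false, false, 14435, 9527⟩ ⟨589, 42, false, false, 12961, 8326⟩
        ⟨244, 264, 432, 455⟩ ⟨277, 293, 450, 467⟩ ⟨487, 504, 504, 520⟩
        ⟨0, 0, 0, 0⟩ ⟨0, 0, 0, 0⟩))
      (.S 1 145
       (.S 0 850
        (.L ⟨466, 43, false, false, 12819, 8558⟩ ⟨594, 39, false, false, 11724, 7558⟩
         ⟨244, 262, 438, 460⟩ ⟨277, 292, 454, 471⟩ ⟨488, 505, 505, 520⟩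
         ⟨0, 0, 0, 0⟩ ⟨0, 0, 0, 0⟩)
        (.L ⟨456, 45, false, false, 13346, 8977⟩ ⟨584, 41, false, false, 12107, 7877⟩
         ⟨242, 260, 435, 457⟩ ⟨275, 290, 452, 469⟩ ⟨488, 504, 505, 520⟩
         ⟨0, 0, 0, 0⟩ ⟨0, 0, 0, 0⟩))
       (.D ⟨450, 43, false, false, 12821, 7956⟩ ⟨578, 39, false, false, 11697, 7067⟩
        ⟨238, 260, 436, 462⟩ ⟨274, 291, 453, 472⟩ ⟨487, 506, 504, 522⟩)))))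
   (.S 5 369
    (.L ⟨450, 43, false, false, 15529, 7956⟩ ⟨570, 26, false, false, 9566, 4019⟩
     ⟨238, 272, 429, 462⟩ ⟨269, 289, 462, 484⟩ ⟨478, 502, 498, 523⟩
     ⟨0, 0, 0, 0⟩ ⟨0, 0, 0, 0⟩)
    (.S 2 925
     (.S 1 131
      (.L ⟨477, 52, false, false, 15529, 10060⟩ ⟨558, 38, false, false, 11917, 7056⟩
       ⟨251, 272, 429, 455⟩ ⟨269, 287, 452, 471⟩ ⟨484, 503, 498, 516⟩
       ⟨0, 0, 0, 0⟩ ⟨0, 0, 0, 0⟩)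
      (.L ⟨465, 47, false, false, 14498, 8950⟩ ⟨547, 34, false, false, 10998, 6042⟩
       ⟨246, 268, 432, 459⟩ ⟨265, 284, 454, 475⟩ ⟨483, 504, 498, 517⟩
       ⟨0, 0, 0, 0⟩ ⟨0, 0, 0, 0⟩))
     (.S 0 850
      (.L ⟨459, 41, false, false, 13935, 7956⟩ ⟨557, 33, false, false, 11555, 6042⟩
       ⟨241, 266, 435, 462⟩ ⟨267, 287, 454, 475⟩ ⟨484, 505, 500, 520⟩
       ⟨0, 0, 0, 0⟩ ⟨0, 0, 0, 0⟩)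
      (.L ⟨450, 43, false, false, 14435, 8387⟩ ⟨547, 34, false, false, 11917, 6370⟩
       ⟨238, 264, 432, 459⟩ ⟨265, 285, 452, 473⟩ ⟨484, 505, 500, 520⟩
       ⟨0, 0, 0, 0⟩ ⟨0, 0, 0, 0⟩)))))
  (by decide +kernel)

theorem qAA1_44 : Cl ⟨0, false, true, false⟩ ⟨0, false, false, false⟩
    ⟨833, 859, 119, 160⟩ ⟨886, 964, 503, 582⟩ ⟨728, 756, 126, 152⟩ := .mk
  (.L ⟨455, 42, false, false, 14662, 7956⟩ ⟨720, 0, true, false, 2267, 373⟩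
   ⟨240, 270, 433, 462⟩ ⟨296, 306, 492, 502⟩ ⟨474, 492, 513, 532⟩
   ⟨0, 0, 0, 0⟩ ⟨0, 0, 0, 0⟩)
  (by decide +kernel)

theorem qAA1_45 : Cl ⟨0, false, true, false⟩ ⟨0, false, true, true⟩
    ⟨833, 868, 119, 160⟩ ⟨886, 964, 503, 582⟩ ⟨816, 868, 119, 196⟩ := .mk
  (.L ⟨450, 43, false, false, 14924, 7956⟩ ⟨624, 0, true, false, 3080, 1672⟩
   ⟨238, 270, 431, 462⟩ ⟨278, 295, 488, 507⟩ ⟨469, 492, 505, 529⟩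
   ⟨0, 0, 0, 0⟩ ⟨0, 0, 0, 0⟩)
  (by decide +kernel)

theorem qAA1_46 : Cl ⟨0, false, true, false⟩ ⟨0, false, true, true⟩
    ⟨833, 868, 109, 160⟩ ⟨886, 964, 503, 582⟩ ⟨795, 865, 177, 255⟩ := .mk
  (.L ⟨450, 43, false, false, 15279, 7956⟩ ⟨611, 12, false, false, 5707, 0⟩
   ⟨238, 271, 430, 462⟩ ⟨276, 296, 478, 500⟩ ⟨472, 497, 503, 528⟩
   ⟨0, 0, 0, 0⟩ ⟨0, 0, 0, 0⟩)
  (by decide +kernel)

theorem qAA1_47 : Cl ⟨0, false, true, false⟩ ⟨0, false, false, false⟩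
    ⟨833, 869, 124, 160⟩ ⟨886, 964, 503, 582⟩ ⟨812, 833, 57, 77⟩ := .mk
  (.L ⟨449, 43, false, false, 14775, 7956⟩ ⟨670, 9, true, false, 1160, 3378⟩
   ⟨238, 269, 431, 462⟩ ⟨288, 297, 504, 513⟩ ⟨467, 485, 511, 531⟩
   ⟨0, 0, 0, 0⟩ ⟨0, 0, 0, 0⟩)
  (by decide +kernel)

theorem qAA1_48 : Cl ⟨0, false, true, false⟩ ⟨0, false, false, false⟩
    ⟨833, 869, 124, 160⟩ ⟨886, 964, 503, 582⟩ ⟨854, 892, 65, 122⟩ := .mk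
  (.L ⟨449, 43, false, false, 14775, 7956⟩ ⟨624, 5, true, false, 207, 3558⟩
   ⟨238, 269, 431, 462⟩ ⟨278, 292, 499, 514⟩ ⟨465, 487, 506, 528⟩
   ⟨0, 0, 0, 0⟩ ⟨0, 0, 0, 0⟩)
  (by decide +kernel)

theorem qAA1_49 : Cl ⟨0, false, true, false⟩ ⟨0, false, false, false⟩
    ⟨833, 868, 119, 160⟩ ⟨886, 964, 503, 582⟩ ⟨835, 885, 103, 149⟩ := .mk
  (.L ⟨450, 43, false, false, 14924, 7956⟩ ⟨624, 2, true, false, 1280, 2327⟩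
   ⟨238, 270, 431, 462⟩ ⟨278, 293, 495, 510⟩ ⟨467, 489, 505, 528⟩
   ⟨0, 0, 0, 0⟩ ⟨0, 0, 0, 0⟩)
  (by decide +kernel)

theorem qAA1_50 : Cl ⟨0, false, true, false⟩ ⟨0, false, false, false⟩
    ⟨833, 870, 129, 160⟩ ⟨886, 964, 503, 582⟩ ⟨859, 886, 25, 50⟩ := .mk
  (.L ⟨449, 43, false, false, 14628, 7956⟩ ⟨639, 14, true, false, 2524, 4756⟩
   ⟨238, 269, 432, 462⟩ ⟨282, 292, 509, 519⟩ ⟨463, 482, 509, 529⟩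
   ⟨0, 0, 0, 0⟩ ⟨0, 0, 0, 0⟩)
  (by decide +kernel)

theorem qAA1_51 : Cl ⟨0, false, true, false⟩ ⟨0, false, false, false⟩
    ⟨833, 870, 129, 160⟩ ⟨886, 964, 503, 582⟩ ⟨877, 920, 36, 83⟩ := .mk
  (.L ⟨449, 43, false, false, 14628, 7956⟩ ⟨613, 11, true, false, 1556, 4635⟩
   ⟨238, 269, 432, 462⟩ ⟨276, 290, 506, 519⟩ ⟨462, 483, 506, 528⟩
   ⟨0, 0, 0, 0⟩ ⟨0, 0, 0, 0⟩)
  (by decide +kernel)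

theorem qAA1_52 : Cl ⟨0, false, true, false⟩ ⟨0, false, false, false⟩
    ⟨833, 869, 124, 160⟩ ⟨886, 964, 503, 582⟩ ⟨861, 913, 53, 102⟩ := .mk
  (.L ⟨449, 43, false, false, 14775, 7956⟩ ⟨615, 8, true, false, 660, 4077⟩
   ⟨238, 269, 431, 462⟩ ⟨277, 291, 502, 516⟩ ⟨464, 485, 506, 528⟩
   ⟨0, 0, 0, 0⟩ ⟨0, 0, 0, 0⟩)
  (by decide +kernel)

theorem qAA1_53 : Cl ⟨0, false, true, false⟩ ⟨0, false, false, false⟩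
    ⟨833, 870, 129, 160⟩ ⟨886, 964, 503, 582⟩ ⟨893, 917, 13, 36⟩ := .mk
  (.L ⟨449, 43, false, false, 14628, 7956⟩ ⟨622, 17, true, false, 3175, 5308⟩
   ⟨238, 269, 432, 462⟩ ⟨279, 289, 512, 521⟩ ⟨461, 480, 508, 528⟩
   ⟨0, 0, 0, 0⟩ ⟨0, 0, 0, 0⟩)
  (by decide +kernel)

theorem qAA1_54 : Cl ⟨0, false, true, false⟩ ⟨0, false, false, false⟩
    ⟨833, 870, 129, 160⟩ ⟨886, 964, 503, 582⟩ ⟨903, 940, 16, 55⟩ := .mk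
  (.L ⟨449, 43, false, false, 14628, 7956⟩ ⟨606, 15, true, false, 2627, 5351⟩
   ⟨238, 269, 432, 462⟩ ⟨275, 288, 510, 522⟩ ⟨460, 481, 505, 527⟩
   ⟨0, 0, 0, 0⟩ ⟨0, 0, 0, 0⟩)
  (by decide +kernel)

theorem qAA1_55 : Cl ⟨0, false, true, false⟩ ⟨0, false, false, false⟩
    ⟨833, 870, 129, 160⟩ ⟨886, 964, 503, 582⟩ ⟨891, 930, 25, 64⟩ := .mk
  (.L ⟨449, 43, false, false, 14628, 7956⟩ ⟨610, 14, true, false, 2265, 5026⟩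
   ⟨238, 269, 432, 462⟩ ⟨276, 289, 508, 520⟩ ⟨462, 482, 506, 528⟩
   ⟨0, 0, 0, 0⟩ ⟨0, 0, 0, 0⟩)
  (by decide +kernel)

theorem qAA1_56 : Cl ⟨0, false, true, false⟩ ⟨0, false, false, false⟩
    ⟨833, 874, 134, 160⟩ ⟨886, 964, 503, 582⟩ ⟨916, 1001, 0, 27⟩ := .mk
  (.L ⟨447, 43, false, false, 14571, 7956⟩ ⟨574, 20, true, false, 3733, 5926⟩
   ⟨238, 268, 431, 462⟩ ⟨268, 287, 515, 526⟩ ⟨457, 478, 502, 528⟩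
   ⟨0, 0, 0, 0⟩ ⟨0, 0, 0, 0⟩)
  (by decide +kernel)

theorem qAA1_57 : Cl ⟨0, false, true, false⟩ ⟨0, false, false, false⟩
    ⟨833, 874, 134, 160⟩ ⟨886, 964, 503, 582⟩ ⟨920, 1001, 0, 42⟩ := .mk
  (.L ⟨447, 43, false, false, 14571, 7956⟩ ⟨573, 18, true, false, 3285, 5926⟩
   ⟨238, 268, 431, 462⟩ ⟨268, 286, 513, 526⟩ ⟨457, 479, 502, 527⟩
   ⟨0, 0, 0, 0⟩ ⟨0, 0, 0, 0⟩)
  (by decide +kernel)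

theorem qAA1_58 : Cl ⟨0, false, true, false⟩ ⟨0, false, false, false⟩
    ⟨833, 874, 134, 160⟩ ⟨886, 964, 503, 582⟩ ⟨908, 1001, 0, 50⟩ := .mk
  (.L ⟨447, 43, false, false, 14571, 7956⟩ ⟨572, 17, true, false, 2961, 5926⟩
   ⟨238, 268, 431, 462⟩ ⟨267, 287, 511, 526⟩ ⟨457, 480, 502, 528⟩
   ⟨0, 0, 0, 0⟩ ⟨0, 0, 0, 0⟩)
  (by decide +kernel)

theorem qAA1_59 : Cl ⟨2, false, false, true⟩ ⟨2, false, false, true⟩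
    ⟨808, 853, 105, 179⟩ ⟨605, 647, 291, 329⟩ ⟨605, 647, 291, 329⟩ := .mk
  (.L ⟨758, 33, false, false, 11120, 6340⟩ ⟨758, 33, false, false, 11120, 6340⟩
   ⟨305, 321, 464, 480⟩ ⟨305, 321, 464, 480⟩ ⟨491, 509, 491, 509⟩
   ⟨581, 651, 1096, 1169⟩ ⟨581, 651, 1096, 1169⟩)
  (by decide +kernel)

theorem qAA1_60 : Cl ⟨2, false, false, true⟩ ⟨0, false, true, true⟩
    ⟨816, 853, 109, 179⟩ ⟨605, 647, 291, 329⟩ ⟨761, 870, 218, 327⟩ := .mk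
  (.S 4 815
   (.L ⟨758, 33, false, false, 11025, 6470⟩ ⟨624, 21, false, false, 8591, 1291⟩
    ⟨305, 320, 465, 479⟩ ⟨280, 301, 468, 496⟩ ⟨481, 504, 482, 503⟩
    ⟨585, 651, 1098, 1167⟩ ⟨0, 0, 0, 0⟩)
   (.S 0 834
    (.L ⟨768, 32, false, false, 10745, 6470⟩ ⟨602, 16, false, false, 7465, 536⟩
     ⟨306, 320, 466, 479⟩ ⟨274, 295, 471, 498⟩ ⟨480, 502, 480, 500⟩
     ⟨585, 644, 1098, 1163⟩ ⟨0, 0, 0, 0⟩)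
    (.L ⟨758, 33, false, false, 11025, 6761⟩ ⟨590, 17, false, false, 7759, 783⟩
     ⟨305, 319, 465, 478⟩ ⟨272, 292, 469, 497⟩ ⟨480, 502, 479, 499⟩
     ⟨591, 651, 1102, 1167⟩ ⟨0, 0, 0, 0⟩)))
  (by decide +kernel)

theorem qAA1_61 : Cl ⟨2, false, false, true⟩ ⟨0, false, true, true⟩
    ⟨819, 853, 105, 178⟩ ⟨605, 647, 291, 329⟩ ⟨771, 876, 304, 435⟩ := .mk
  (.S 4 823
   (.S 1 141
    (.L ⟨772, 37, false, false, 11120, 7515⟩ ⟨594, 40, false, false, 12570, 5290⟩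
     ⟨308, 320, 464, 476⟩ ⟨277, 298, 452, 480⟩ ⟨488, 508, 480, 499⟩
     ⟨585, 641, 1114, 1169⟩ ⟨0, 0, 0, 0⟩)
    (.S 0 836
     (.L ⟨768, 32, false, false, 9998, 6545⟩ ⟨589, 34, false, false, 11119, 4065⟩
      ⟨306, 318, 468, 479⟩ ⟨275, 295, 457, 485⟩ ⟨487, 508, 480, 498⟩
      ⟨593, 644, 1099, 1152⟩ ⟨0, 0, 0, 0⟩)
     (.S 1 159
      (.L ⟨765, 35, false, false, 10268, 7303⟩ ⟨587, 38, false, false, 11488, 4973⟩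
       ⟨306, 317, 466, 476⟩ ⟨275, 293, 455, 481⟩ ⟨488, 507, 481, 497⟩
       ⟨599, 646, 1110, 1156⟩ ⟨0, 0, 0, 0⟩)
      (.D ⟨758, 33, false, false, 9847, 6819⟩ ⟨579, 35, false, false, 10953, 4358⟩
       ⟨305, 316, 468, 478⟩ ⟨273, 292, 456, 483⟩ ⟨488, 507, 480, 497⟩))))
   (.S 1 141
    (.L ⟨772, 37, false, false, 11120, 7515⟩ ⟨563, 35, false, false, 11518, 4458⟩
     ⟨308, 320, 464, 476⟩ ⟨269, 291, 453, 483⟩ ⟨486, 507, 477, 496⟩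
     ⟨585, 641, 1114, 1169⟩ ⟨0, 0, 0, 0⟩)
    (.S 0 836
     (.L ⟨768, 32, false, false, 9998, 6545⟩ ⟨559, 29, false, false, 9986, 3155⟩
      ⟨306, 318, 468, 479⟩ ⟨266, 288, 459, 488⟩ ⟨485, 506, 477, 496⟩
      ⟨593, 644, 1099, 1152⟩ ⟨0, 0, 0, 0⟩)
     (.L ⟨758, 33, false, false, 10268, 6819⟩ ⟨549, 30, false, false, 10356, 3446⟩
      ⟨305, 317, 466, 478⟩ ⟨264, 286, 457, 486⟩ ⟨486, 507, 477, 495⟩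
      ⟨599, 651, 1103, 1156⟩ ⟨0, 0, 0, 0⟩))))
  (by decide +kernel)

theorem qAA1_62 : Cl ⟨2, false, false, true⟩ ⟨0, false, false, false⟩
    ⟨812, 853, 119, 179⟩ ⟨605, 647, 291, 329⟩ ⟨728, 756, 126, 152⟩ := .mk
  (.L ⟨758, 33, false, false, 10787, 6405⟩ ⟨719, 0, true, false, 2213, 1159⟩
   ⟨305, 320, 465, 479⟩ ⟨296, 308, 492, 505⟩ ⟨479, 495, 491, 508⟩
   ⟨585, 651, 1097, 1164⟩ ⟨0, 0, 0, 0⟩)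
  (by decide +kernel)

theorem qAA1_63 : Cl ⟨2, false, false, true⟩ ⟨0, false, true, true⟩
    ⟨816, 853, 119, 179⟩ ⟨605, 647, 291, 329⟩ ⟨816, 868, 119, 196⟩ := .mk
  (.L ⟨758, 33, false, false, 10787, 6470⟩ ⟨629, 0, true, false, 2919, 2490⟩
   ⟨305, 319, 465, 479⟩ ⟨279, 297, 488, 510⟩ ⟨474, 496, 483, 504⟩
   ⟨587, 651, 1098, 1164⟩ ⟨0, 0, 0, 0⟩)
  (by decide +kernel)

theorem qAA1_64 : Cl ⟨2, false, false, true⟩ ⟨0, false, true, true⟩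
    ⟨816, 853, 109, 179⟩ ⟨605, 647, 291, 329⟩ ⟨795, 865, 177, 255⟩ := .mk
  (.L ⟨758, 33, false, false, 11025, 6470⟩ ⟨615, 9, false, false, 5520, 662⟩
   ⟨305, 320, 465, 479⟩ ⟨277, 298, 479, 503⟩ ⟨477, 500, 481, 503⟩
   ⟨585, 651, 1098, 1167⟩ ⟨0, 0, 0, 0⟩)
  (by decide +kernel)

theorem qAA1_65 : Cl ⟨2, false, false, true⟩ ⟨0, false, false, false⟩
    ⟨814, 853, 124, 179⟩ ⟨605, 647, 291, 329⟩ ⟨812, 833, 57, 77⟩ := .mk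
  (.L ⟨758, 33, false, false, 10668, 6438⟩ ⟨678, 12, true, false, 1266, 4152⟩
   ⟨305, 319, 465, 479⟩ ⟨289, 299, 504, 516⟩ ⟨472, 488, 490, 506⟩
   ⟨587, 651, 1097, 1162⟩ ⟨0, 0, 0, 0⟩)
  (by decide +kernel)

theorem qAA1_66 : Cl ⟨2, false, false, true⟩ ⟨0, false, false, false⟩
    ⟨814, 853, 124, 179⟩ ⟨605, 647, 291, 329⟩ ⟨854, 892, 65, 122⟩ := .mk
  (.L ⟨758, 33, false, false, 10668, 6438⟩ ⟨631, 8, true, false, 0, 4376⟩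
   ⟨305, 319, 465, 479⟩ ⟨280, 294, 500, 517⟩ ⟨470, 490, 485, 503⟩
   ⟨587, 651, 1097, 1162⟩ ⟨0, 0, 0, 0⟩)
  (by decide +kernel)

theorem qAA1_67 : Cl ⟨2, false, false, true⟩ ⟨0, false, false, false⟩
    ⟨816, 853, 119, 179⟩ ⟨605, 647, 291, 329⟩ ⟨835, 885, 103, 149⟩ := .mk
  (.L ⟨758, 33, false, false, 10787, 6470⟩ ⟨630, 5, true, false, 1145, 3146⟩
   ⟨305, 319, 465, 479⟩ ⟨280, 295, 495, 513⟩ ⟨473, 492, 484, 503⟩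
   ⟨587, 651, 1098, 1164⟩ ⟨0, 0, 0, 0⟩)
  (by decide +kernel)

theorem qAA1_68 : Cl ⟨2, false, false, true⟩ ⟨0, false, false, false⟩
    ⟨817, 853, 129, 179⟩ ⟨605, 647, 291, 329⟩ ⟨859, 886, 25, 50⟩ := .mk
  (.L ⟨758, 33, false, false, 10550, 6486⟩ ⟨647, 17, true, false, 2625, 5526⟩
   ⟨305, 319, 466, 479⟩ ⟨284, 294, 509, 521⟩ ⟨469, 485, 488, 504⟩
   ⟨589, 651, 1098, 1160⟩ ⟨0, 0, 0, 0⟩)
  (by decide +kernel)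

theorem qAA1_69 : Cl ⟨2, false, false, true⟩ ⟨0, false, false, false⟩
    ⟨817, 853, 129, 179⟩ ⟨605, 647, 291, 329⟩ ⟨877, 920, 36, 83⟩ := .mk
  (.L ⟨758, 33, false, false, 10550, 6486⟩ ⟨622, 14, true, false, 1676, 5432⟩
   ⟨305, 319, 466, 479⟩ ⟨279, 292, 506, 521⟩ ⟨468, 486, 485, 502⟩
   ⟨589, 651, 1098, 1160⟩ ⟨0, 0, 0, 0⟩)
  (by decide +kernel)

theorem qAA1_70 : Cl ⟨2, false, false, true⟩ ⟨0, false, false, false⟩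
    ⟨814, 853, 124, 179⟩ ⟨605, 647, 291, 329⟩ ⟨861, 913, 53, 102⟩ := .mk
  (.L ⟨758, 33, false, false, 10668, 6438⟩ ⟨622, 12, true, false, 781, 4901⟩
   ⟨305, 319, 465, 479⟩ ⟨278, 294, 502, 519⟩ ⟨469, 489, 484, 503⟩
   ⟨587, 651, 1097, 1162⟩ ⟨0, 0, 0, 0⟩)
  (by decide +kernel)

theorem qAA1_71 : Cl ⟨2, false, false, true⟩ ⟨0, false, false, false⟩
    ⟨817, 853, 129, 179⟩ ⟨605, 647, 291, 329⟩ ⟨893, 917, 13, 36⟩ := .mk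
  (.L ⟨758, 33, false, false, 10550, 6486⟩ ⟨630, 20, true, false, 3268, 6091⟩
   ⟨305, 319, 466, 479⟩ ⟨281, 291, 512, 524⟩ ⟨467, 483, 487, 502⟩
   ⟨589, 651, 1098, 1160⟩ ⟨0, 0, 0, 0⟩)
  (by decide +kernel)

theorem qAA1_72 : Cl ⟨2, false, false, true⟩ ⟨0, false, false, false⟩
    ⟨817, 853, 129, 179⟩ ⟨605, 647, 291, 329⟩ ⟨903, 940, 16, 55⟩ := .mk
  (.L ⟨758, 33, false, false, 10550, 6486⟩ ⟨615, 18, true, false, 2731, 6151⟩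
   ⟨305, 319, 466, 479⟩ ⟨277, 290, 510, 524⟩ ⟨466, 484, 484, 502⟩
   ⟨589, 651, 1098, 1160⟩ ⟨0, 0, 0, 0⟩)
  (by decide +kernel)

theorem qAA1_73 : Cl ⟨2, false, false, true⟩ ⟨0, false, false, false⟩
    ⟨817, 853, 129, 179⟩ ⟨605, 647, 291, 329⟩ ⟨891, 930, 25, 64⟩ := .mk
  (.L ⟨758, 33, false, false, 10550, 6486⟩ ⟨619, 17, true, false, 2374, 5824⟩
   ⟨305, 319, 466, 479⟩ ⟨278, 291, 509, 523⟩ ⟨467, 485, 485, 502⟩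
   ⟨589, 651, 1098, 1160⟩ ⟨0, 0, 0, 0⟩)
  (by decide +kernel)

theorem qAA1_74 : Cl ⟨2, false, false, true⟩ ⟨0, false, false, false⟩
    ⟨820, 853, 134, 179⟩ ⟨605, 647, 291, 329⟩ ⟨916, 1001, 0, 27⟩ := .mk
  (.L ⟨758, 33, false, false, 10432, 6535⟩ ⟨586, 23, true, false, 3845, 6760⟩
   ⟨305, 318, 466, 479⟩ ⟨272, 288, 515, 529⟩ ⟨463, 481, 482, 501⟩
   ⟨591, 651, 1099, 1158⟩ ⟨0, 0, 0, 0⟩)
  (by decide +kernel)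

theorem qAA1_75 : Cl ⟨2, false, false, true⟩ ⟨0, false, false, false⟩
    ⟨820, 853, 134, 179⟩ ⟨605, 647, 291, 329⟩ ⟨920, 1001, 0, 42⟩ := .mk
  (.L ⟨758, 33, false, false, 10432, 6535⟩ ⟨584, 21, true, false, 3407, 6760⟩
   ⟨305, 318, 466, 479⟩ ⟨271, 288, 513, 529⟩ ⟨463, 482, 482, 501⟩
   ⟨591, 651, 1099, 1158⟩ ⟨0, 0, 0, 0⟩)
  (by decide +kernel)

theorem qAA1_76 : Cl ⟨2, false, false, true⟩ ⟨0, false, false, false⟩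
    ⟨820, 853, 134, 179⟩ ⟨605, 647, 291, 329⟩ ⟨908, 1001, 0, 50⟩ := .mk
  (.L ⟨758, 33, false, false, 10432, 6535⟩ ⟨583, 20, true, false, 3089, 6760⟩
   ⟨305, 318, 466, 479⟩ ⟨271, 289, 512, 529⟩ ⟨463, 483, 481, 502⟩
   ⟨591, 651, 1099, 1158⟩ ⟨0, 0, 0, 0⟩)
  (by decide +kernel)

theorem qAA1_77 : Cl ⟨0, false, true, true⟩ ⟨0, false, true, true⟩
    ⟨816, 868, 109, 188⟩ ⟨761, 870, 218, 327⟩ ⟨761, 870, 218, 327⟩ := .mk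
  (.S 1 148
   (.S 0 842
    (.L ⟨607, 21, false, false, 8422, 1616⟩ ⟨607, 21, false, false, 8422, 1616⟩
     ⟨276, 301, 469, 494⟩ ⟨276, 301, 469, 494⟩ ⟨486, 514, 486, 514⟩
     ⟨0, 0, 0, 0⟩ ⟨0, 0, 0, 0⟩)
    (.L ⟨591, 22, false, false, 8822, 1942⟩ ⟨591, 22, false, false, 8822, 1942⟩
     ⟨273, 299, 467, 493⟩ ⟨273, 299, 467, 493⟩ ⟨486, 514, 486, 514⟩
     ⟨0, 0, 0, 0⟩ ⟨0, 0, 0, 0⟩))
   (.S 0 842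
    (.L ⟨594, 15, false, false, 7256, 0⟩ ⟨594, 15, false, false, 7256, 0⟩
     ⟨273, 299, 472, 500⟩ ⟨273, 299, 472, 500⟩ ⟨484, 516, 485, 515⟩
     ⟨0, 0, 0, 0⟩ ⟨0, 0, 0, 0⟩)
    (.S 2 815
     (.L ⟨612, 21, false, false, 7695, 1363⟩ ⟨579, 17, false, false, 7695, 588⟩
      ⟨277, 297, 470, 495⟩ ⟨269, 297, 470, 498⟩ ⟨485, 513, 485, 512⟩
      ⟨0, 0, 0, 0⟩ ⟨0, 0, 0, 0⟩)
     (.L ⟨579, 17, false, false, 6781, 588⟩ ⟨579, 17, false, false, 7695, 588⟩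
      ⟨269, 289, 472, 498⟩ ⟨269, 297, 470, 498⟩ ⟨486, 515, 488, 515⟩
      ⟨0, 0, 0, 0⟩ ⟨0, 0, 0, 0⟩))))
  (by decide +kernel)

theorem qAA1_78 : Cl ⟨0, false, true, true⟩ ⟨0, false, true, true⟩
    ⟨819, 868, 109, 178⟩ ⟨761, 870, 218, 327⟩ ⟨771, 876, 304, 435⟩ := .mk
  (.S 4 823
   (.S 0 843
    (.S 5 369
     (.L ⟨597, 17, false, false, 8438, 612⟩ ⟨610, 26, false, false, 9811, 4065⟩
      ⟨273, 301, 469, 498⟩ ⟨278, 297, 463, 485⟩ ⟨490, 518, 486, 512⟩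
      ⟨0, 0, 0, 0⟩ ⟨0, 0, 0, 0⟩)
     (.S 1 143
      (.S 1 126
       (.D ⟨613, 24, false, false, 8438, 2417⟩ ⟨605, 41, false, false, 12245, 7930⟩
        ⟨278, 301, 469, 491⟩ ⟨280, 295, 453, 470⟩ ⟨497, 518, 487, 507⟩)
       (.S 2 815
        (.L ⟨642, 25, false, false, 7929, 2508⟩ ⟨599, 39, false, false, 11727, 7362⟩
         ⟨284, 300, 470, 491⟩ ⟨278, 294, 455, 472⟩ ⟨496, 516, 487, 505⟩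
         ⟨0, 0, 0, 0⟩ ⟨0, 0, 0, 0⟩)
        (.L ⟨608, 21, false, false, 7059, 1827⟩ ⟨599, 39, false, false, 11727, 7362⟩
         ⟨277, 293, 472, 493⟩ ⟨278, 294, 455, 472⟩ ⟨498, 518, 490, 507⟩
         ⟨0, 0, 0, 0⟩ ⟨0, 0, 0, 0⟩)))
      (.S 2 815
       (.S 3 272
        (.L ⟨649, 13, false, false, 5420, 1365⟩ ⟨585, 34, false, false, 11210, 6197⟩
         ⟨284, 299, 480, 495⟩ ⟨274, 292, 456, 476⟩ ⟨499, 518, 485, 503⟩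
         ⟨0, 0, 0, 0⟩ ⟨0, 0, 0, 0⟩)
        (.L ⟨631, 21, false, false, 7421, 3145⟩ ⟨585, 34, false, false, 11210, 6197⟩
         ⟨281, 297, 472, 488⟩ ⟨274, 292, 456, 476⟩ ⟨496, 515, 487, 505⟩
         ⟨0, 0, 0, 0⟩ ⟨0, 0, 0, 0⟩))
       (.S 0 831
        (.D ⟨604, 16, false, false, 6315, 612⟩ ⟨591, 33, false, false, 10948, 6197⟩
         ⟨275, 292, 475, 498⟩ ⟨275, 292, 457, 476⟩ ⟨498, 520, 488, 508⟩)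
        (.L ⟨597, 17, false, false, 6516, 776⟩ ⟨585, 34, false, false, 11210, 6438⟩
         ⟨273, 291, 474, 497⟩ ⟨274, 291, 456, 475⟩ ⟨498, 519, 489, 508⟩
         ⟨0, 0, 0, 0⟩ ⟨0, 0, 0, 0⟩)))))
    (.S 5 369
     (.S 2 815
      (.L ⟨616, 22, false, false, 8822, 1694⟩ ⟨596, 28, false, false, 10242, 4478⟩
       ⟨278, 299, 467, 494⟩ ⟨275, 295, 461, 483⟩ ⟨490, 516, 486, 509⟩
       ⟨0, 0, 0, 0⟩ ⟨0, 0, 0, 0⟩)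
      (.L ⟨582, 18, false, false, 7990, 940⟩ ⟨596, 28, false, false, 10242, 4478⟩
       ⟨270, 291, 468, 497⟩ ⟨275, 295, 461, 483⟩ ⟨492, 518, 489, 512⟩
       ⟨0, 0, 0, 0⟩ ⟨0, 0, 0, 0⟩))
     (.S 2 815
      (.S 1 143
       (.S 0 855
        (.L ⟨635, 26, false, false, 8622, 2805⟩ ⟨592, 40, false, false, 12489, 7810⟩
         ⟨283, 299, 468, 490⟩ ⟨277, 293, 452, 469⟩ ⟨497, 517, 487, 505⟩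
         ⟨0, 0, 0, 0⟩ ⟨0, 0, 0, 0⟩)
        (.D ⟨627, 27, false, false, 8822, 2954⟩ ⟨584, 41, false, false, 12754, 8034⟩
         ⟨281, 297, 467, 489⟩ ⟨276, 292, 451, 468⟩ ⟨497, 517, 487, 505⟩))
       (.S 1 160
        (.S 4 797
         (.L ⟨622, 25, false, false, 7838, 2265⟩ ⟨594, 41, false, false, 11756, 7764⟩
          ⟨280, 297, 470, 492⟩ ⟨278, 290, 453, 470⟩ ⟨498, 517, 488, 505⟩
          ⟨0, 0, 0, 0⟩ ⟨0, 0, 0, 0⟩)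
         (.L ⟨622, 25, false, false, 7838, 2265⟩ ⟨578, 39, false, false, 11189, 7261⟩
          ⟨280, 297, 470, 492⟩ ⟨274, 286, 454, 471⟩ ⟨497, 517, 486, 503⟩
          ⟨0, 0, 0, 0⟩ ⟨0, 0, 0, 0⟩))
        (.D ⟨616, 22, false, false, 7350, 1694⟩ ⟨571, 37, false, false, 11261, 6680⟩
         ⟨278, 296, 471, 494⟩ ⟨271, 288, 455, 473⟩ ⟨496, 518, 485, 505⟩)))
      (.S 1 143
       (.L ⟨593, 23, false, false, 7990, 2124⟩ ⟨584, 41, false, false, 12754, 7810⟩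
        ⟨273, 291, 468, 492⟩ ⟨276, 293, 451, 469⟩ ⟨498, 519, 490, 509⟩
        ⟨0, 0, 0, 0⟩ ⟨0, 0, 0, 0⟩)
       (.S 1 160
        (.S 4 797
         (.L ⟨588, 21, false, false, 6936, 1549⟩ ⟨594, 41, false, false, 11756, 7764⟩
          ⟨272, 290, 472, 494⟩ ⟨278, 290, 453, 470⟩ ⟨499, 519, 491, 508⟩
          ⟨0, 0, 0, 0⟩ ⟨0, 0, 0, 0⟩)
         (.L ⟨588, 21, false, false, 6936, 1549⟩ ⟨578, 39, false, false, 11189, 7261⟩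
          ⟨272, 290, 472, 494⟩ ⟨274, 286, 454, 471⟩ ⟨499, 518, 489, 506⟩
          ⟨0, 0, 0, 0⟩ ⟨0, 0, 0, 0⟩))
        (.D ⟨582, 18, false, false, 6411, 940⟩ ⟨571, 37, false, false, 11261, 6680⟩
         ⟨270, 289, 474, 497⟩ ⟨271, 288, 455, 473⟩ ⟨498, 520, 488, 508⟩))))))
   (.S 0 843
    (.S 2 815
     (.L ⟨631, 21, false, false, 8438, 1365⟩ ⟨555, 30, false, false, 11185, 3155⟩
      ⟨281, 301, 469, 495⟩ ⟨266, 290, 455, 488⟩ ⟨488, 518, 481, 506⟩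
      ⟨0, 0, 0, 0⟩ ⟨0, 0, 0, 0⟩)
     (.S 1 143
      (.L ⟨608, 21, false, false, 7604, 1827⟩ ⟨568, 34, false, false, 11185, 4388⟩
       ⟨277, 294, 470, 493⟩ ⟨270, 290, 455, 483⟩ ⟨492, 517, 486, 507⟩
       ⟨0, 0, 0, 0⟩ ⟨0, 0, 0, 0⟩)
      (.L ⟨597, 17, false, false, 6516, 612⟩ ⟨555, 30, false, false, 10073, 3155⟩
       ⟨273, 292, 474, 498⟩ ⟨266, 288, 458, 488⟩ ⟨491, 519, 485, 508⟩
       ⟨0, 0, 0, 0⟩ ⟨0, 0, 0, 0⟩)))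
    (.S 1 143
     (.S 2 815
      (.L ⟨627, 27, false, false, 8822, 2805⟩ ⟨553, 36, false, false, 11695, 4765⟩
       ⟨281, 299, 467, 490⟩ ⟨267, 288, 452, 481⟩ ⟨491, 517, 483, 505⟩
       ⟨0, 0, 0, 0⟩ ⟨0, 0, 0, 0⟩)
      (.L ⟨593, 23, false, false, 7990, 2124⟩ ⟨553, 36, false, false, 11695, 4765⟩
       ⟨273, 291, 468, 492⟩ ⟨267, 288, 452, 481⟩ ⟨492, 518, 486, 508⟩
       ⟨0, 0, 0, 0⟩ ⟨0, 0, 0, 0⟩))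
     (.S 2 815
      (.S 3 272
       (.L ⟨634, 15, false, false, 5779, 1694⟩ ⟨540, 32, false, false, 10620, 3566⟩
        ⟨281, 297, 478, 494⟩ ⟨262, 285, 455, 486⟩ ⟨493, 517, 482, 503⟩
        ⟨0, 0, 0, 0⟩ ⟨0, 0, 0, 0⟩)
       (.L ⟨616, 22, false, false, 7838, 3526⟩ ⟨540, 32, false, false, 10620, 3566⟩
        ⟨278, 295, 470, 487⟩ ⟨262, 285, 455, 486⟩ ⟨490, 514, 484, 505⟩
        ⟨0, 0, 0, 0⟩ ⟨0, 0, 0, 0⟩))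
      (.S 0 855
       (.L ⟨590, 18, false, false, 6718, 940⟩ ⟨548, 31, false, false, 10336, 3566⟩
        ⟨272, 290, 473, 497⟩ ⟨264, 285, 457, 486⟩ ⟨492, 519, 485, 507⟩
        ⟨0, 0, 0, 0⟩ ⟨0, 0, 0, 0⟩)
       (.L ⟨582, 18, false, false, 6936, 1105⟩ ⟨540, 32, false, false, 10620, 3772⟩
        ⟨270, 288, 472, 496⟩ ⟨262, 284, 455, 485⟩ ⟨492, 519, 486, 508⟩
        ⟨0, 0, 0, 0⟩ ⟨0, 0, 0, 0⟩))))))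
  (by decide +kernel)

theorem qAA1_79 : Cl ⟨0, false, true, true⟩ ⟨0, false, false, false⟩
    ⟨816, 859, 119, 188⟩ ⟨761, 870, 218, 327⟩ ⟨728, 756, 126, 152⟩ := .mk
  (.L ⟨584, 17, false, false, 8390, 0⟩ ⟨713, 0, true, false, 2267, 1394⟩
   ⟨270, 301, 468, 500⟩ ⟨295, 307, 492, 505⟩ ⟨482, 509, 496, 521⟩
   ⟨0, 0, 0, 0⟩ ⟨0, 0, 0, 0⟩)
  (by decide +kernel)

theorem qAA1_80 : Cl ⟨0, false, true, true⟩ ⟨0, false, true, true⟩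
    ⟨816, 868, 119, 188⟩ ⟨761, 870, 218, 327⟩ ⟨816, 868, 119, 196⟩ := .mk
  (.L ⟨579, 17, false, false, 8532, 0⟩ ⟨618, 0, true, false, 3080, 2802⟩
   ⟨269, 301, 468, 500⟩ ⟨277, 297, 488, 511⟩ ⟨477, 509, 487, 518⟩
   ⟨0, 0, 0, 0⟩ ⟨0, 0, 0, 0⟩)
  (by decide +kernel)

/-- The pairs of the file. -/
def rAA1 : List Pq := [
  ⟨0, 18, ⟨820, 874, 134, 174⟩, ⟨736, 958, 360, 539⟩, ⟨920, 1001, 0, 42⟩⟩,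
  ⟨0, 19, ⟨820, 874, 134, 174⟩, ⟨736, 958, 360, 539⟩, ⟨908, 1001, 0, 50⟩⟩,
  ⟨1, 1, ⟨833, 874, 95, 160⟩, ⟨886, 964, 503, 582⟩, ⟨886, 964, 503, 582⟩⟩,
  ⟨1, 5, ⟨833, 853, 105, 160⟩, ⟨886, 964, 503, 582⟩, ⟨605, 647, 291, 329⟩⟩,
  ⟨1, 3, ⟨833, 868, 109, 160⟩, ⟨886, 964, 503, 582⟩, ⟨761, 870, 218, 327⟩⟩,
  ⟨1, 4, ⟨833, 868, 102, 160⟩, ⟨886, 964, 503, 582⟩, ⟨771, 876, 304, 435⟩⟩,
  ⟨1, 8, ⟨833, 859, 119, 160⟩, ⟨886, 964, 503, 582⟩, ⟨728, 756, 126, 152⟩⟩,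
  ⟨1, 6, ⟨833, 868, 119, 160⟩, ⟨886, 964, 503, 582⟩, ⟨816, 868, 119, 196⟩⟩,
  ⟨1, 7, ⟨833, 868, 109, 160⟩, ⟨886, 964, 503, 582⟩, ⟨795, 865, 177, 255⟩⟩,
  ⟨1, 11, ⟨833, 869, 124, 160⟩, ⟨886, 964, 503, 582⟩, ⟨812, 833, 57, 77⟩⟩,
  ⟨1, 9, ⟨833, 869, 124, 160⟩, ⟨886, 964, 503, 582⟩, ⟨854, 892, 65, 122⟩⟩,
  ⟨1, 10, ⟨833, 868, 119, 160⟩, ⟨886, 964, 503, 582⟩, ⟨835, 885, 103, 149⟩⟩,
  ⟨1, 14, ⟨833, 870, 129, 160⟩, ⟨886, 964, 503, 582⟩, ⟨859, 886, 25, 50⟩⟩,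
  ⟨1, 12, ⟨833, 870, 129, 160⟩, ⟨886, 964, 503, 582⟩, ⟨877, 920, 36, 83⟩⟩,
  ⟨1, 13, ⟨833, 869, 124, 160⟩, ⟨886, 964, 503, 582⟩, ⟨861, 913, 53, 102⟩⟩,
  ⟨1, 17, ⟨833, 870, 129, 160⟩, ⟨886, 964, 503, 582⟩, ⟨893, 917, 13, 36⟩⟩,
  ⟨1, 15, ⟨833, 870, 129, 160⟩, ⟨886, 964, 503, 582⟩, ⟨903, 940, 16, 55⟩⟩,
  ⟨1, 16, ⟨833, 870, 129, 160⟩, ⟨886, 964, 503, 582⟩, ⟨891, 930, 25, 64⟩⟩,
  ⟨1, 20, ⟨833, 874, 134, 160⟩, ⟨886, 964, 503, 582⟩, ⟨916, 1001, 0, 27⟩⟩,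
  ⟨1, 18, ⟨833, 874, 134, 160⟩, ⟨886, 964, 503, 582⟩, ⟨920, 1001, 0, 42⟩⟩,
  ⟨1, 19, ⟨833, 874, 134, 160⟩, ⟨886, 964, 503, 582⟩, ⟨908, 1001, 0, 50⟩⟩,
  ⟨5, 5, ⟨808, 853, 105, 179⟩, ⟨605, 647, 291, 329⟩, ⟨605, 647, 291, 329⟩⟩,
  ⟨5, 3, ⟨816, 853, 109, 179⟩, ⟨605, 647, 291, 329⟩, ⟨761, 870, 218, 327⟩⟩,
  ⟨5, 4, ⟨819, 853, 105, 178⟩, ⟨605, 647, 291, 329⟩, ⟨771, 876, 304, 435⟩⟩,
  ⟨5, 8, ⟨812, 853, 119, 179⟩, ⟨605, 647, 291, 329⟩, ⟨728, 756, 126, 152⟩⟩,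
  ⟨5, 6, ⟨816, 853, 119, 179⟩, ⟨605, 647, 291, 329⟩, ⟨816, 868, 119, 196⟩⟩,
  ⟨5, 7, ⟨816, 853, 109, 179⟩, ⟨605, 647, 291, 329⟩, ⟨795, 865, 177, 255⟩⟩,
  ⟨5, 11, ⟨814, 853, 124, 179⟩, ⟨605, 647, 291, 329⟩, ⟨812, 833, 57, 77⟩⟩,
  ⟨5, 9, ⟨814, 853, 124, 179⟩, ⟨605, 647, 291, 329⟩, ⟨854, 892, 65, 122⟩⟩,
  ⟨5, 10, ⟨816, 853, 119, 179⟩, ⟨605, 647, 291, 329⟩, ⟨835, 885, 103, 149⟩⟩,
  ⟨5, 14, ⟨817, 853, 129, 179⟩, ⟨605, 647, 291, 329⟩, ⟨859, 886, 25, 50⟩⟩,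
  ⟨5, 12, ⟨817, 853, 129, 179⟩, ⟨605, 647, 291, 329⟩, ⟨877, 920, 36, 83⟩⟩,
  ⟨5, 13, ⟨814, 853, 124, 179⟩, ⟨605, 647, 291, 329⟩, ⟨861, 913, 53, 102⟩⟩,
  ⟨5, 17, ⟨817, 853, 129, 179⟩, ⟨605, 647, 291, 329⟩, ⟨893, 917, 13, 36⟩⟩,
  ⟨5, 15, ⟨817, 853, 129, 179⟩, ⟨605, 647, 291, 329⟩, ⟨903, 940, 16, 55⟩⟩,
  ⟨5, 16, ⟨817, 853, 129, 179⟩, ⟨605, 647, 291, 329⟩, ⟨891, 930, 25, 64⟩⟩,
  ⟨5, 20, ⟨820, 853, 134, 179⟩, ⟨605, 647, 291, 329⟩, ⟨916, 1001, 0, 27⟩⟩,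
  ⟨5, 18, ⟨820, 853, 134, 179⟩, ⟨605, 647, 291, 329⟩, ⟨920, 1001, 0, 42⟩⟩,
  ⟨5, 19, ⟨820, 853, 134, 179⟩, ⟨605, 647, 291, 329⟩, ⟨908, 1001, 0, 50⟩⟩,
  ⟨3, 3, ⟨816, 868, 109, 188⟩, ⟨761, 870, 218, 327⟩, ⟨761, 870, 218, 327⟩⟩,
  ⟨3, 4, ⟨819, 868, 109, 178⟩, ⟨761, 870, 218, 327⟩, ⟨771, 876, 304, 435⟩⟩,
  ⟨3, 8, ⟨816, 859, 119, 188⟩, ⟨761, 870, 218, 327⟩, ⟨728, 756, 126, 152⟩⟩,
  ⟨3, 6, ⟨816, 868, 119, 188⟩, ⟨761, 870, 218, 327⟩, ⟨816, 868, 119, 196⟩⟩]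

theorem rAA1_ok : ∀ p ∈ rAA1, Cr false false p :=
  List.forall_mem_cons.2 ⟨qAA1_38,
  List.forall_mem_cons.2 ⟨qAA1_39,
  List.forall_mem_cons.2 ⟨qAA1_40,
  List.forall_mem_cons.2 ⟨qAA1_41,
  List.forall_mem_cons.2 ⟨qAA1_42,
  List.forall_mem_cons.2 ⟨qAA1_43,
  List.forall_mem_cons.2 ⟨qAA1_44,
  List.forall_mem_cons.2 ⟨qAA1_45,
  List.forall_mem_cons.2 ⟨qAA1_46,
  List.forall_mem_cons.2 ⟨qAA1_47,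
  List.forall_mem_cons.2 ⟨qAA1_48,
  List.forall_mem_cons.2 ⟨qAA1_49,
  List.forall_mem_cons.2 ⟨qAA1_50,
  List.forall_mem_cons.2 ⟨qAA1_51,
  List.forall_mem_cons.2 ⟨qAA1_52,
  List.forall_mem_cons.2 ⟨qAA1_53,
  List.forall_mem_cons.2 ⟨qAA1_54,
  List.forall_mem_cons.2 ⟨qAA1_55,
  List.forall_mem_cons.2 ⟨qAA1_56,
  List.forall_mem_cons.2 ⟨qAA1_57,
  List.forall_mem_cons.2 ⟨qAA1_58,
  List.forall_mem_cons.2 ⟨qAA1_59,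
  List.forall_mem_cons.2 ⟨qAA1_60,
  List.forall_mem_cons.2 ⟨qAA1_61,
  List.forall_mem_cons.2 ⟨qAA1_62,
  List.forall_mem_cons.2 ⟨qAA1_63,
  List.forall_mem_cons.2 ⟨qAA1_64,
  List.forall_mem_cons.2 ⟨qAA1_65,
  List.forall_mem_cons.2 ⟨qAA1_66,
  List.forall_mem_cons.2 ⟨qAA1_67,
  List.forall_mem_cons.2 ⟨qAA1_68,
  List.forall_mem_cons.2 ⟨qAA1_69,
  List.forall_mem_cons.2 ⟨qAA1_70,
  List.forall_mem_cons.2 ⟨qAA1_71,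
  List.forall_mem_cons.2 ⟨qAA1_72,
  List.forall_mem_cons.2 ⟨qAA1_73,
  List.forall_mem_cons.2 ⟨qAA1_74,
  List.forall_mem_cons.2 ⟨qAA1_75,
  List.forall_mem_cons.2 ⟨qAA1_76,
  List.forall_mem_cons.2 ⟨qAA1_77,
  List.forall_mem_cons.2 ⟨qAA1_78,
  List.forall_mem_cons.2 ⟨qAA1_79,
  List.forall_mem_cons.2 ⟨qAA1_80,
  List.forall_mem_nil _⟩⟩⟩⟩⟩⟩⟩⟩⟩⟩⟩⟩⟩⟩⟩⟩⟩⟩⟩⟩⟩⟩⟩⟩⟩⟩⟩⟩⟩⟩⟩⟩⟩⟩⟩⟩⟩⟩⟩⟩⟩⟩⟩

end Pool.Agent.S5.Z4
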