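import Pool.Agent.S5.Z4.Tre

/-!
# Inner nodes with four half twists: certificates
-/

set_option autoImplicit false

namespace Pool.Agent.S5.Z4

theorem qAA2_81 : Cl ⟨0, false, true, true⟩ ⟨0, false, true, true⟩
    ⟨816, 868, 109, 188⟩ ⟨761, 870, 218, 327⟩ ⟨795, 865, 177, 255⟩ := .mk
  (.S 2 815
   (.L ⟨612, 21, false, false, 8822, 997⟩ ⟨604, 0, true, false, 5707, 973⟩
    ⟨277, 301, 467, 497⟩ ⟨274, 298, 478, 504⟩ ⟨480, 511, 485, 514⟩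
    ⟨0, 0, 0, 0⟩ ⟨0, 0, 0, 0⟩)
   (.L ⟨579, 17, false, false, 7990, 0⟩ ⟨604, 0, true, false, 5707, 973⟩
    ⟨269, 295, 468, 500⟩ ⟨274, 298, 478, 504⟩ ⟨481, 513, 488, 517⟩
    ⟨0, 0, 0, 0⟩ ⟨0, 0, 0, 0⟩))
  (by decide +kernel)

theorem qAA2_82 : Cl ⟨0, false, true, true⟩ ⟨0, false, false, false⟩
    ⟨816, 868, 124, 188⟩ ⟨761, 870, 218, 327⟩ ⟨812, 833, 57, 77⟩ := .mk
  (.L ⟨579, 17, false, false, 8387, 0⟩ ⟨666, 13, true, false, 1166, 4438⟩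
   ⟨269, 301, 468, 500⟩ ⟨287, 299, 504, 517⟩ ⟨475, 502, 493, 520⟩
   ⟨0, 0, 0, 0⟩ ⟨0, 0, 0, 0⟩)
  (by decide +kernel)

theorem qAA2_83 : Cl ⟨0, false, true, true⟩ ⟨0, false, false, false⟩
    ⟨816, 868, 124, 188⟩ ⟨761, 870, 218, 327⟩ ⟨854, 892, 65, 122⟩ := .mk
  (.L ⟨579, 17, false, false, 8387, 0⟩ ⟨620, 9, true, false, 199, 4680⟩
   ⟨269, 301, 468, 500⟩ ⟨278, 294, 499, 518⟩ ⟨473, 503, 488, 517⟩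
   ⟨0, 0, 0, 0⟩ ⟨0, 0, 0, 0⟩)
  (by decide +kernel)

theorem qAA2_84 : Cl ⟨0, false, true, true⟩ ⟨0, false, false, false⟩
    ⟨816, 868, 119, 188⟩ ⟨761, 870, 218, 327⟩ ⟨835, 885, 103, 149⟩ := .mk
  (.L ⟨579, 17, false, false, 8532, 0⟩ ⟨618, 5, true, false, 1280, 3464⟩
   ⟨269, 301, 468, 500⟩ ⟨277, 295, 495, 514⟩ ⟨476, 505, 487, 517⟩
   ⟨0, 0, 0, 0⟩ ⟨0, 0, 0, 0⟩)
  (by decide +kernel)

theorem qAA2_85 : Cl ⟨0, false, true, true⟩ ⟨0, false, false, false⟩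
    ⟨817, 868, 129, 188⟩ ⟨761, 870, 218, 327⟩ ⟨859, 886, 25, 50⟩ := .mk
  (.L ⟨579, 17, false, false, 8242, 0⟩ ⟨636, 18, true, false, 2536, 5844⟩
   ⟨269, 300, 469, 500⟩ ⟨282, 294, 509, 522⟩ ⟨472, 499, 492, 518⟩
   ⟨0, 0, 0, 0⟩ ⟨0, 0, 0, 0⟩)
  (by decide +kernel)

theorem qAA2_86 : Cl ⟨0, false, true, true⟩ ⟨0, false, false, false⟩
    ⟨817, 868, 129, 188⟩ ⟨761, 870, 218, 327⟩ ⟨877, 920, 36, 83⟩ := .mk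
  (.L ⟨579, 17, false, false, 8242, 0⟩ ⟨610, 15, true, false, 1571, 5761⟩
   ⟨269, 300, 469, 500⟩ ⟨276, 292, 506, 523⟩ ⟨471, 500, 488, 517⟩
   ⟨0, 0, 0, 0⟩ ⟨0, 0, 0, 0⟩)
  (by decide +kernel)

theorem qAA2_87 : Cl ⟨0, false, true, true⟩ ⟨0, false, false, false⟩
    ⟨816, 868, 124, 188⟩ ⟨761, 870, 218, 327⟩ ⟨861, 913, 53, 102⟩ := .mk
  (.L ⟨579, 17, false, false, 8387, 0⟩ ⟨611, 12, true, false, 668, 5213⟩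
   ⟨269, 301, 468, 500⟩ ⟨276, 294, 502, 521⟩ ⟨472, 502, 487, 518⟩
   ⟨0, 0, 0, 0⟩ ⟨0, 0, 0, 0⟩)
  (by decide +kernel)

theorem qAA2_88 : Cl ⟨0, false, true, true⟩ ⟨0, false, false, false⟩
    ⟨817, 868, 129, 188⟩ ⟨761, 870, 218, 327⟩ ⟨893, 917, 13, 36⟩ := .mk
  (.L ⟨579, 17, false, false, 8242, 0⟩ ⟨619, 20, true, false, 3186, 6420⟩
   ⟨269, 300, 469, 500⟩ ⟨279, 291, 512, 525⟩ ⟨470, 497, 490, 517⟩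
   ⟨0, 0, 0, 0⟩ ⟨0, 0, 0, 0⟩)
  (by decide +kernel)

theorem qAA2_89 : Cl ⟨0, false, true, true⟩ ⟨0, false, false, false⟩
    ⟨817, 868, 129, 188⟩ ⟨761, 870, 218, 327⟩ ⟨903, 940, 16, 55⟩ := .mk
  (.L ⟨579, 17, false, false, 8242, 0⟩ ⟨603, 19, true, false, 2639, 6486⟩
   ⟨269, 300, 469, 500⟩ ⟨275, 290, 510, 526⟩ ⟨469, 497, 488, 516⟩
   ⟨0, 0, 0, 0⟩ ⟨0, 0, 0, 0⟩)
  (by decide +kernel)

theorem qAA2_90 : Cl ⟨0, false, true, true⟩ ⟨0, false, false, false⟩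
    ⟨817, 868, 129, 188⟩ ⟨761, 870, 218, 327⟩ ⟨891, 930, 25, 64⟩ := .mk
  (.L ⟨579, 17, false, false, 8242, 0⟩ ⟨608, 17, true, false, 2278, 6156⟩
   ⟨269, 300, 469, 500⟩ ⟨276, 291, 509, 524⟩ ⟨470, 498, 488, 517⟩
   ⟨0, 0, 0, 0⟩ ⟨0, 0, 0, 0⟩)
  (by decide +kernel)

theorem qAA2_91 : Cl ⟨0, false, true, true⟩ ⟨0, false, false, false⟩
    ⟨820, 868, 134, 188⟩ ⟨761, 870, 218, 327⟩ ⟨916, 1001, 0, 27⟩ := .mk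
  (.L ⟨579, 17, false, false, 8098, 279⟩ ⟨575, 24, true, false, 3765, 7011⟩
   ⟨269, 300, 469, 499⟩ ⟨269, 288, 515, 530⟩ ⟨466, 494, 485, 516⟩
   ⟨0, 0, 0, 0⟩ ⟨0, 0, 0, 0⟩)
  (by decide +kernel)

theorem qAA2_92 : Cl ⟨0, false, true, true⟩ ⟨0, false, false, false⟩
    ⟨820, 868, 134, 188⟩ ⟨761, 870, 218, 327⟩ ⟨920, 1001, 0, 42⟩ := .mk
  (.L ⟨579, 17, false, false, 8098, 279⟩ ⟨573, 22, true, false, 3320, 7011⟩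
   ⟨269, 300, 469, 499⟩ ⟨269, 288, 513, 530⟩ ⟨466, 495, 485, 516⟩
   ⟨0, 0, 0, 0⟩ ⟨0, 0, 0, 0⟩)
  (by decide +kernel)

theorem qAA2_93 : Cl ⟨0, false, true, true⟩ ⟨0, false, false, false⟩
    ⟨820, 868, 134, 188⟩ ⟨761, 870, 218, 327⟩ ⟨908, 1001, 0, 50⟩ := .mk
  (.L ⟨579, 17, false, false, 8098, 279⟩ ⟨572, 21, true, false, 2998, 7011⟩
   ⟨269, 300, 469, 499⟩ ⟨268, 289, 512, 530⟩ ⟨466, 496, 484, 516⟩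
   ⟨0, 0, 0, 0⟩ ⟨0, 0, 0, 0⟩)
  (by decide +kernel)

theorem qAA2_94 : Cl ⟨0, false, true, true⟩ ⟨0, false, true, true⟩
    ⟨819, 868, 102, 178⟩ ⟨771, 876, 304, 435⟩ ⟨771, 876, 304, 435⟩ := .mk
  (.S 1 140
   (.S 0 843
    (.S 1 121
     (.D ⟨576, 37, false, false, 12460, 5162⟩ ⟨576, 37, false, false, 12460, 5162⟩
      ⟨273, 298, 453, 480⟩ ⟨273, 298, 453, 480⟩ ⟨487, 513, 487, 513⟩)
     (.S 2 823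
      (.S 4 823
       (.L ⟨600, 39, false, false, 11879, 5323⟩ ⟨600, 39, false, false, 11879, 5323⟩
        ⟨278, 296, 454, 480⟩ ⟨278, 296, 454, 480⟩ ⟨488, 512, 490, 510⟩
        ⟨0, 0, 0, 0⟩ ⟨0, 0, 0, 0⟩)
       (.L ⟨600, 39, false, false, 11879, 5323⟩ ⟨569, 35, false, false, 10792, 4493⟩
        ⟨278, 296, 454, 480⟩ ⟨270, 290, 456, 483⟩ ⟨486, 511, 487, 508⟩
        ⟨0, 0, 0, 0⟩ ⟨0, 0, 0, 0⟩))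
      (.S 4 823
       (.L ⟨569, 35, false, false, 10792, 4493⟩ ⟨600, 39, false, false, 11879, 5323⟩
        ⟨270, 290, 456, 483⟩ ⟨278, 296, 454, 480⟩ ⟨489, 514, 492, 513⟩
        ⟨0, 0, 0, 0⟩ ⟨0, 0, 0, 0⟩)
       (.L ⟨569, 35, false, false, 10792, 4493⟩ ⟨569, 35, false, false, 10792, 4493⟩
        ⟨270, 290, 456, 483⟩ ⟨270, 290, 456, 483⟩ ⟨487, 513, 489, 511⟩
        ⟨0, 0, 0, 0⟩ ⟨0, 0, 0, 0⟩))))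
    (.S 2 823
     (.S 4 823
      (.S 3 369
       (.L ⟨609, 32, false, false, 10448, 5699⟩ ⟨586, 41, false, false, 12961, 5699⟩
        ⟨279, 295, 460, 478⟩ ⟨276, 295, 450, 478⟩ ⟨491, 513, 490, 509⟩
        ⟨0, 0, 0, 0⟩ ⟨0, 0, 0, 0⟩)
       (.S 5 369
        (.L ⟨586, 41, false, false, 12961, 7907⟩ ⟨609, 32, false, false, 10448, 5699⟩
         ⟨276, 294, 450, 469⟩ ⟨279, 295, 460, 478⟩ ⟨487, 506, 493, 510⟩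
         ⟨0, 0, 0, 0⟩ ⟨0, 0, 0, 0⟩)
        (.S 1 121
         (.L ⟨593, 44, false, false, 12961, 8523⟩ ⟨593, 44, false, false, 12961, 8523⟩
          ⟨278, 294, 450, 467⟩ ⟨278, 294, 450, 467⟩ ⟨492, 508, 492, 508⟩
          ⟨0, 0, 0, 0⟩ ⟨0, 0, 0, 0⟩)
         (.L ⟨586, 41, false, false, 12400, 7907⟩ ⟨586, 41, false, false, 12400, 7907⟩
          ⟨276, 292, 452, 469⟩ ⟨276, 292, 452, 469⟩ ⟨492, 508, 492, 508⟩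
          ⟨0, 0, 0, 0⟩ ⟨0, 0, 0, 0⟩))))
      (.S 5 369
       (.L ⟨586, 41, false, false, 12961, 5699⟩ ⟨577, 28, false, false, 9566, 4868⟩
        ⟨276, 295, 450, 478⟩ ⟨271, 288, 462, 481⟩ ⟨485, 508, 488, 508⟩
        ⟨0, 0, 0, 0⟩ ⟨0, 0, 0, 0⟩)
       (.S 2 797
        (.L ⟨602, 44, false, false, 12961, 6107⟩ ⟨555, 37, false, false, 11917, 6926⟩
         ⟨280, 295, 450, 477⟩ ⟨267, 286, 452, 472⟩ ⟨489, 511, 487, 505⟩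
         ⟨0, 0, 0, 0⟩ ⟨0, 0, 0, 0⟩)
        (.L ⟨586, 41, false, false, 12439, 5699⟩ ⟨555, 37, false, false, 11917, 6926⟩
         ⟨276, 292, 451, 478⟩ ⟨267, 286, 452, 472⟩ ⟨490, 512, 488, 506⟩
         ⟨0, 0, 0, 0⟩ ⟨0, 0, 0, 0⟩))))
     (.S 4 823
      (.S 3 369
       (.L ⟨577, 28, false, false, 9566, 4868⟩ ⟨586, 41, false, false, 12961, 5699⟩
        ⟨271, 288, 462, 481⟩ ⟨276, 295, 450, 478⟩ ⟨492, 515, 492, 512⟩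
        ⟨0, 0, 0, 0⟩ ⟨0, 0, 0, 0⟩)
       (.S 4 797
        (.L ⟨555, 37, false, false, 11917, 6926⟩ ⟨602, 44, false, false, 12961, 6107⟩
         ⟨267, 286, 452, 472⟩ ⟨280, 295, 450, 477⟩ ⟨489, 511, 495, 513⟩
         ⟨0, 0, 0, 0⟩ ⟨0, 0, 0, 0⟩)
        (.L ⟨555, 37, false, false, 11917, 6926⟩ ⟨586, 41, false, false, 12439, 5699⟩
         ⟨267, 286, 452, 472⟩ ⟨276, 292, 451, 478⟩ ⟨488, 510, 494, 512⟩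
         ⟨0, 0, 0, 0⟩ ⟨0, 0, 0, 0⟩)))
      (.L ⟨555, 37, false, false, 11917, 4868⟩ ⟨555, 37, false, false, 11917, 4868⟩
       ⟨267, 288, 452, 481⟩ ⟨267, 288, 452, 481⟩ ⟨486, 514, 489, 511⟩
       ⟨0, 0, 0, 0⟩ ⟨0, 0, 0, 0⟩))))
   (.S 0 843
    (.S 2 823
     (.S 4 823
      (.S 0 831
       (.D ⟨591, 33, false, false, 11041, 4065⟩ ⟨591, 33, false, false, 11041, 4065⟩
        ⟨275, 295, 457, 485⟩ ⟨275, 295, 457, 485⟩ ⟨486, 514, 489, 511⟩)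
       (.S 1 159
        (.L ⟨592, 37, false, false, 11301, 4891⟩ ⟨592, 37, false, false, 11301, 4891⟩
         ⟨276, 294, 456, 481⟩ ⟨276, 294, 456, 481⟩ ⟨488, 512, 490, 510⟩
         ⟨0, 0, 0, 0⟩ ⟨0, 0, 0, 0⟩)
        (.S 0 837
         (.D ⟨588, 34, false, false, 10592, 4271⟩ ⟨588, 34, false, false, 10592, 4271⟩
          ⟨275, 292, 458, 484⟩ ⟨275, 292, 458, 484⟩ ⟨487, 513, 490, 510⟩)
         (.D ⟨585, 34, false, false, 10727, 4375⟩ ⟨585, 34, false, false, 10727, 4375⟩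
          ⟨274, 292, 458, 483⟩ ⟨274, 292, 458, 483⟩ ⟨488, 512, 490, 510⟩))))
      (.S 0 831
       (.D ⟨591, 33, false, false, 11041, 4065⟩ ⟨562, 28, false, false, 9910, 3155⟩
        ⟨275, 295, 457, 485⟩ ⟨267, 288, 460, 488⟩ ⟨484, 512, 486, 508⟩)
       (.S 1 159
        (.L ⟨592, 37, false, false, 11301, 4891⟩ ⟨562, 32, false, false, 10171, 4020⟩
         ⟨276, 294, 456, 481⟩ ⟨268, 287, 458, 484⟩ ⟨486, 511, 487, 507⟩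
         ⟨0, 0, 0, 0⟩ ⟨0, 0, 0, 0⟩)
        (.D ⟨585, 34, false, false, 10727, 4271⟩ ⟨555, 30, false, false, 9553, 3360⟩
         ⟨274, 292, 458, 484⟩ ⟨266, 285, 460, 487⟩ ⟨486, 511, 487, 507⟩))))
     (.S 0 831
      (.D ⟨562, 28, false, false, 9910, 3155⟩ ⟨562, 28, false, false, 11041, 3155⟩
       ⟨267, 288, 460, 488⟩ ⟨267, 295, 457, 488⟩ ⟨486, 516, 488, 515⟩)
      (.S 4 823
       (.S 1 159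
        (.L ⟨562, 32, false, false, 10171, 4020⟩ ⟨592, 37, false, false, 11301, 4891⟩
         ⟨268, 287, 458, 484⟩ ⟨276, 294, 456, 481⟩ ⟨489, 514, 493, 513⟩
         ⟨0, 0, 0, 0⟩ ⟨0, 0, 0, 0⟩)
        (.D ⟨555, 30, false, false, 9553, 3360⟩ ⟨585, 34, false, false, 10727, 4271⟩
         ⟨266, 285, 460, 487⟩ ⟨274, 292, 458, 484⟩ ⟨489, 514, 493, 513⟩))
       (.L ⟨555, 30, false, false, 10171, 3360⟩ ⟨555, 30, false, false, 10171, 3360⟩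
        ⟨266, 287, 458, 487⟩ ⟨266, 287, 458, 487⟩ ⟨486, 514, 489, 511⟩
        ⟨0, 0, 0, 0⟩ ⟨0, 0, 0, 0⟩))))
    (.S 2 823
     (.S 1 159
      (.S 4 823
       (.S 3 369
        (.L ⟨603, 30, false, false, 9332, 5088⟩ ⟨578, 39, false, false, 11843, 5088⟩
         ⟨277, 293, 464, 480⟩ ⟨274, 293, 453, 480⟩ ⟨491, 513, 490, 509⟩
         ⟨0, 0, 0, 0⟩ ⟨0, 0, 0, 0⟩)
        (.S 1 149
         (.S 5 369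
          (.L ⟨582, 40, false, false, 11843, 7616⟩ ⟨606, 31, false, false, 9332, 5410⟩
           ⟨275, 290, 453, 470⟩ ⟨278, 293, 464, 479⟩ ⟨488, 504, 494, 510⟩
           ⟨0, 0, 0, 0⟩ ⟨0, 0, 0, 0⟩)
          (.L ⟨582, 40, false, false, 11843, 7616⟩ ⟨582, 40, false, false, 11843, 7616⟩
           ⟨275, 290, 453, 470⟩ ⟨275, 290, 453, 470⟩ ⟨492, 508, 492, 508⟩
           ⟨0, 0, 0, 0⟩ ⟨0, 0, 0, 0⟩))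
         (.D ⟨578, 39, false, false, 11581, 7293⟩ ⟨578, 39, false, false, 11581, 5088⟩
          ⟨274, 289, 454, 471⟩ ⟨274, 292, 454, 480⟩ ⟨488, 509, 492, 510⟩)))
       (.S 5 369
        (.L ⟨578, 39, false, false, 11843, 5088⟩ ⟨571, 26, false, false, 8371, 4217⟩
         ⟨274, 293, 453, 480⟩ ⟨269, 285, 466, 483⟩ ⟨486, 507, 488, 507⟩
         ⟨0, 0, 0, 0⟩ ⟨0, 0, 0, 0⟩)
        (.S 2 797
         (.L ⟨595, 41, false, false, 11843, 5516⟩ ⟨548, 34, false, false, 10715, 6269⟩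
          ⟨278, 293, 453, 479⟩ ⟨265, 283, 455, 474⟩ ⟨489, 510, 487, 504⟩
          ⟨0, 0, 0, 0⟩ ⟨0, 0, 0, 0⟩)
         (.L ⟨578, 39, false, false, 11280, 5088⟩ ⟨548, 34, false, false, 10715, 6269⟩
          ⟨274, 289, 454, 480⟩ ⟨265, 283, 455, 474⟩ ⟨490, 511, 488, 505⟩
          ⟨0, 0, 0, 0⟩ ⟨0, 0, 0, 0⟩))))
      (.D ⟨571, 37, false, false, 11290, 4478⟩ ⟨540, 32, false, false, 11290, 3566⟩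
       ⟨271, 291, 455, 483⟩ ⟨262, 291, 455, 486⟩ ⟨485, 513, 486, 511⟩))
     (.S 4 823
      (.S 1 159
       (.S 3 369
        (.L ⟨571, 26, false, false, 8371, 4217⟩ ⟨578, 39, false, false, 11843, 5088⟩
         ⟨269, 285, 466, 483⟩ ⟨274, 293, 453, 480⟩ ⟨493, 514, 493, 512⟩
         ⟨0, 0, 0, 0⟩ ⟨0, 0, 0, 0⟩)
        (.S 4 797
         (.L ⟨548, 34, false, false, 10715, 6269⟩ ⟨595, 41, false, false, 11843, 5516⟩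
          ⟨265, 283, 455, 474⟩ ⟨278, 293, 453, 479⟩ ⟨490, 511, 496, 513⟩
          ⟨0, 0, 0, 0⟩ ⟨0, 0, 0, 0⟩)
         (.L ⟨548, 34, false, false, 10715, 6269⟩ ⟨578, 39, false, false, 11280, 5088⟩
          ⟨265, 283, 455, 474⟩ ⟨274, 289, 454, 480⟩ ⟨489, 510, 495, 512⟩
          ⟨0, 0, 0, 0⟩ ⟨0, 0, 0, 0⟩)))
       (.D ⟨540, 32, false, false, 10118, 3566⟩ ⟨571, 37, false, false, 11290, 4478⟩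
        ⟨262, 284, 457, 486⟩ ⟨271, 291, 455, 483⟩ ⟨488, 515, 492, 514⟩))
      (.S 1 159
       (.L ⟨548, 34, false, false, 10715, 4217⟩ ⟨548, 34, false, false, 10715, 4217⟩
        ⟨265, 285, 455, 483⟩ ⟨265, 285, 455, 483⟩ ⟨487, 513, 490, 510⟩
        ⟨0, 0, 0, 0⟩ ⟨0, 0, 0, 0⟩)
       (.S 1 168
        (.D ⟨544, 33, false, false, 10118, 3909⟩ ⟨544, 33, false, false, 10118, 3909⟩
         ⟨264, 284, 457, 484⟩ ⟨264, 284, 457, 484⟩ ⟨487, 513, 490, 510⟩)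
        (.D ⟨540, 32, false, false, 9836, 3566⟩ ⟨540, 32, false, false, 9836, 3566⟩
         ⟨262, 283, 458, 486⟩ ⟨262, 283, 458, 486⟩ ⟨487, 513, 489, 511⟩)))))))
  (by decide +kernel)

theorem qAA2_95 : Cl ⟨0, false, true, true⟩ ⟨0, false, false, false⟩
    ⟨819, 859, 119, 178⟩ ⟨771, 876, 304, 435⟩ ⟨728, 756, 126, 152⟩ := .mk
  (.S 2 823
   (.L ⟨576, 36, false, false, 12272, 4065⟩ ⟨716, 0, true, false, 2267, 1057⟩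
    ⟨272, 297, 452, 485⟩ ⟨295, 307, 492, 504⟩ ⟨477, 501, 500, 521⟩
    ⟨0, 0, 0, 0⟩ ⟨0, 0, 0, 0⟩)
   (.L ⟨545, 31, false, false, 11190, 3155⟩ ⟨716, 0, true, false, 2267, 1057⟩
    ⟨264, 290, 454, 488⟩ ⟨295, 307, 492, 504⟩ ⟨479, 503, 502, 524⟩
    ⟨0, 0, 0, 0⟩ ⟨0, 0, 0, 0⟩))
  (by decide +kernel)

theorem qAA2_96 : Cl ⟨0, false, true, true⟩ ⟨0, false, true, true⟩
    ⟨819, 868, 119, 178⟩ ⟨771, 876, 304, 435⟩ ⟨816, 868, 119, 196⟩ := .mk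
  (.S 0 843
   (.S 2 823
    (.S 1 148
     (.L ⟨597, 38, false, false, 11940, 5058⟩ ⟨643, 0, true, false, 2813, 1389⟩
      ⟨278, 297, 454, 481⟩ ⟨282, 297, 489, 506⟩ ⟨475, 499, 494, 514⟩
      ⟨0, 0, 0, 0⟩ ⟨0, 0, 0, 0⟩)
     (.L ⟨585, 34, false, false, 11059, 4065⟩ ⟨636, 0, true, false, 1890, 2425⟩
      ⟨274, 294, 457, 485⟩ ⟨281, 296, 492, 510⟩ ⟨475, 500, 494, 516⟩
      ⟨0, 0, 0, 0⟩ ⟨0, 0, 0, 0⟩))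
    (.L ⟨555, 30, false, false, 10857, 3155⟩ ⟨636, 0, true, false, 2813, 2425⟩
     ⟨266, 290, 456, 488⟩ ⟨281, 297, 489, 510⟩ ⟨475, 503, 495, 519⟩
     ⟨0, 0, 0, 0⟩ ⟨0, 0, 0, 0⟩))
   (.S 2 823
    (.S 1 148
     (.L ⟨583, 40, false, false, 12459, 5442⟩ ⟨627, 0, true, false, 3080, 1174⟩
      ⟨275, 294, 451, 479⟩ ⟨279, 294, 488, 505⟩ ⟨475, 498, 494, 514⟩
      ⟨0, 0, 0, 0⟩ ⟨0, 0, 0, 0⟩)
     (.L ⟨571, 37, false, false, 11610, 4478⟩ ⟨620, 2, false, false, 2183, 2184⟩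
      ⟨271, 292, 454, 483⟩ ⟨278, 293, 491, 509⟩ ⟨474, 499, 494, 515⟩
      ⟨0, 0, 0, 0⟩ ⟨0, 0, 0, 0⟩))
    (.L ⟨540, 32, false, false, 11378, 3566⟩ ⟨620, 2, false, false, 3080, 2184⟩
     ⟨262, 287, 453, 486⟩ ⟨278, 294, 488, 509⟩ ⟨474, 502, 496, 519⟩
     ⟨0, 0, 0, 0⟩ ⟨0, 0, 0, 0⟩)))
  (by decide +kernel)

theorem qAA2_97 : Cl ⟨0, false, true, true⟩ ⟨0, false, true, true⟩
    ⟨819, 868, 109, 178⟩ ⟨771, 876, 304, 435⟩ ⟨795, 865, 177, 255⟩ := .mk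
  (.S 2 823
   (.S 3 369
    (.S 0 843
     (.L ⟨610, 26, false, false, 9811, 4065⟩ ⟨622, 0, true, false, 5394, 591⟩
      ⟨278, 297, 463, 485⟩ ⟨278, 298, 479, 503⟩ ⟨480, 505, 491, 514⟩
      ⟨0, 0, 0, 0⟩ ⟨0, 0, 0, 0⟩)
     (.L ⟨596, 28, false, false, 10242, 4478⟩ ⟨606, 10, false, false, 5707, 299⟩
      ⟨275, 295, 461, 483⟩ ⟨275, 295, 478, 502⟩ ⟨480, 505, 490, 513⟩
      ⟨0, 0, 0, 0⟩ ⟨0, 0, 0, 0⟩))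
    (.S 1 143
     (.S 0 843
      (.L ⟨599, 39, false, false, 12245, 7362⟩ ⟨632, 13, false, false, 5394, 615⟩
       ⟨278, 295, 453, 472⟩ ⟨281, 298, 479, 498⟩ ⟨479, 500, 494, 514⟩
       ⟨0, 0, 0, 0⟩ ⟨0, 0, 0, 0⟩)
      (.L ⟨584, 41, false, false, 12754, 7810⟩ ⟨616, 14, false, false, 5707, 875⟩
       ⟨276, 293, 451, 469⟩ ⟨277, 295, 478, 497⟩ ⟨479, 499, 494, 513⟩
       ⟨0, 0, 0, 0⟩ ⟨0, 0, 0, 0⟩))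
     (.S 0 843
      (.S 4 830
       (.L ⟨585, 34, false, false, 11210, 6197⟩ ⟨644, 10, false, false, 4337, 166⟩
        ⟨274, 292, 456, 476⟩ ⟨283, 296, 483, 501⟩ ⟨479, 500, 496, 514⟩
        ⟨0, 0, 0, 0⟩ ⟨0, 0, 0, 0⟩)
       (.L ⟨585, 34, false, false, 11210, 6197⟩ ⟨622, 0, true, false, 3853, 591⟩
        ⟨274, 292, 456, 476⟩ ⟨278, 292, 485, 503⟩ ⟨478, 498, 494, 513⟩
        ⟨0, 0, 0, 0⟩ ⟨0, 0, 0, 0⟩))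
      (.S 2 797
       (.S 1 160
        (.L ⟨594, 41, false, false, 11756, 7764⟩ ⟨611, 12, false, false, 4681, 304⟩
         ⟨278, 290, 453, 470⟩ ⟨276, 294, 482, 499⟩ ⟨479, 497, 495, 512⟩
         ⟨0, 0, 0, 0⟩ ⟨0, 0, 0, 0⟩)
        (.D ⟨587, 39, false, false, 11261, 7204⟩ ⟨606, 10, false, false, 4170, 299⟩
         ⟨276, 288, 455, 472⟩ ⟨275, 293, 483, 502⟩ ⟨478, 497, 495, 512⟩))
       (.L ⟨571, 37, false, false, 11189, 6680⟩ ⟨606, 10, false, false, 4681, 299⟩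
        ⟨271, 286, 454, 473⟩ ⟨275, 294, 482, 502⟩ ⟨478, 499, 496, 515⟩
        ⟨0, 0, 0, 0⟩ ⟨0, 0, 0, 0⟩)))))
   (.S 3 369
    (.L ⟨564, 23, false, false, 9345, 3155⟩ ⟨606, 10, false, false, 5707, 591⟩
     ⟨267, 290, 462, 488⟩ ⟨275, 298, 478, 503⟩ ⟨480, 508, 492, 518⟩
     ⟨0, 0, 0, 0⟩ ⟨0, 0, 0, 0⟩)
    (.S 1 143
     (.L ⟨553, 36, false, false, 11695, 6377⟩ ⟨616, 14, false, false, 5707, 615⟩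
      ⟨267, 288, 452, 474⟩ ⟨277, 298, 478, 498⟩ ⟨479, 502, 495, 518⟩
      ⟨0, 0, 0, 0⟩ ⟨0, 0, 0, 0⟩)
     (.S 0 843
      (.L ⟨555, 30, false, false, 10073, 5133⟩ ⟨622, 0, true, false, 4337, 591⟩
       ⟨266, 285, 458, 479⟩ ⟨278, 296, 483, 503⟩ ⟨479, 501, 497, 518⟩
       ⟨0, 0, 0, 0⟩ ⟨0, 0, 0, 0⟩)
      (.L ⟨540, 32, false, false, 10620, 5614⟩ ⟨606, 10, false, false, 4681, 299⟩
       ⟨262, 282, 455, 476⟩ ⟨275, 294, 482, 502⟩ ⟨479, 500, 497, 518⟩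
       ⟨0, 0, 0, 0⟩ ⟨0, 0, 0, 0⟩)))))
  (by decide +kernel)

theorem qAA2_98 : Cl ⟨0, false, true, true⟩ ⟨0, false, false, false⟩
    ⟨819, 868, 124, 178⟩ ⟨771, 876, 304, 435⟩ ⟨812, 833, 57, 77⟩ := .mk
  (.S 0 843
   (.L ⟨555, 30, false, false, 11787, 3155⟩ ⟨685, 12, true, false, 1333, 4080⟩
    ⟨266, 296, 454, 488⟩ ⟨291, 299, 504, 515⟩ ⟨472, 496, 499, 521⟩
    ⟨0, 0, 0, 0⟩ ⟨0, 0, 0, 0⟩)
   (.L ⟨540, 32, false, false, 12312, 3566⟩ ⟨668, 11, true, false, 1166, 3891⟩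
    ⟨262, 294, 452, 486⟩ ⟨288, 296, 504, 515⟩ ⟨471, 495, 499, 521⟩
    ⟨0, 0, 0, 0⟩ ⟨0, 0, 0, 0⟩))
  (by decide +kernel)

theorem qAA2_99 : Cl ⟨0, false, true, true⟩ ⟨0, false, false, false⟩
    ⟨819, 868, 124, 178⟩ ⟨771, 876, 304, 435⟩ ⟨854, 892, 65, 122⟩ := .mk
  (.S 2 823
   (.S 0 843
    (.L ⟨585, 34, false, false, 11787, 4065⟩ ⟨638, 9, true, false, 0, 4300⟩
     ⟨274, 296, 454, 485⟩ ⟨281, 294, 500, 517⟩ ⟨470, 496, 494, 516⟩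
     ⟨0, 0, 0, 0⟩ ⟨0, 0, 0, 0⟩)
    (.L ⟨571, 37, false, false, 12312, 4478⟩ ⟨622, 8, true, false, 199, 4105⟩
     ⟨271, 294, 452, 483⟩ ⟨278, 291, 499, 517⟩ ⟨469, 495, 494, 516⟩
     ⟨0, 0, 0, 0⟩ ⟨0, 0, 0, 0⟩))
   (.L ⟨540, 32, false, false, 11220, 3155⟩ ⟨622, 8, true, false, 199, 4300⟩
    ⟨262, 289, 454, 488⟩ ⟨278, 294, 499, 517⟩ ⟨470, 498, 495, 520⟩
    ⟨0, 0, 0, 0⟩ ⟨0, 0, 0, 0⟩))
  (by decide +kernel)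

theorem qAA2_100 : Cl ⟨0, false, true, true⟩ ⟨0, false, false, false⟩
    ⟨819, 868, 119, 178⟩ ⟨771, 876, 304, 435⟩ ⟨835, 885, 103, 149⟩ := .mk
  (.S 2 823
   (.S 0 843
    (.L ⟨585, 34, false, false, 11940, 4065⟩ ⟨637, 5, true, false, 1055, 3083⟩
     ⟨274, 297, 454, 485⟩ ⟨281, 295, 496, 512⟩ ⟨472, 498, 493, 516⟩
     ⟨0, 0, 0, 0⟩ ⟨0, 0, 0, 0⟩)
    (.L ⟨571, 37, false, false, 12459, 4478⟩ ⟨620, 4, true, false, 1280, 2856⟩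
     ⟨271, 294, 451, 483⟩ ⟨278, 292, 495, 512⟩ ⟨471, 497, 493, 515⟩
     ⟨0, 0, 0, 0⟩ ⟨0, 0, 0, 0⟩))
   (.L ⟨540, 32, false, false, 11378, 3155⟩ ⟨620, 4, true, false, 1280, 3083⟩
    ⟨262, 290, 453, 488⟩ ⟨278, 295, 495, 512⟩ ⟨472, 500, 495, 520⟩
    ⟨0, 0, 0, 0⟩ ⟨0, 0, 0, 0⟩))
  (by decide +kernel)

theorem qAA2_101 : Cl ⟨0, false, true, true⟩ ⟨0, false, false, false⟩
    ⟨819, 868, 129, 178⟩ ⟨771, 876, 304, 435⟩ ⟨859, 886, 25, 50⟩ := .mk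
  (.S 0 843
   (.L ⟨555, 30, false, false, 11635, 3155⟩ ⟨654, 17, true, false, 2685, 5477⟩
    ⟨266, 296, 455, 488⟩ ⟨285, 294, 510, 521⟩ ⟨468, 492, 497, 520⟩
    ⟨0, 0, 0, 0⟩ ⟨0, 0, 0, 0⟩)
   (.L ⟨540, 32, false, false, 12165, 3566⟩ ⟨637, 16, true, false, 2536, 5314⟩
    ⟨262, 293, 452, 486⟩ ⟨282, 291, 509, 521⟩ ⟨467, 492, 497, 520⟩
    ⟨0, 0, 0, 0⟩ ⟨0, 0, 0, 0⟩))
  (by decide +kernel)

theorem qAA2_102 : Cl ⟨0, false, true, true⟩ ⟨0, false, false, false⟩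
    ⟨819, 868, 129, 178⟩ ⟨771, 876, 304, 435⟩ ⟨877, 920, 36, 83⟩ := .mk
  (.S 0 843
   (.L ⟨555, 30, false, false, 11635, 3155⟩ ⟨628, 14, true, false, 1747, 5381⟩
    ⟨266, 296, 455, 488⟩ ⟨280, 292, 506, 521⟩ ⟨468, 494, 494, 518⟩
    ⟨0, 0, 0, 0⟩ ⟨0, 0, 0, 0⟩)
   (.S 2 823
    (.L ⟨571, 37, false, false, 12165, 4478⟩ ⟨612, 13, true, false, 1571, 5211⟩
     ⟨271, 293, 452, 483⟩ ⟨276, 289, 506, 521⟩ ⟨466, 491, 494, 515⟩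
     ⟨0, 0, 0, 0⟩ ⟨0, 0, 0, 0⟩)
    (.L ⟨540, 32, false, false, 11062, 3566⟩ ⟨612, 13, true, false, 1571, 5211⟩
     ⟨262, 286, 454, 486⟩ ⟨276, 289, 506, 521⟩ ⟨468, 493, 497, 518⟩
     ⟨0, 0, 0, 0⟩ ⟨0, 0, 0, 0⟩)))
  (by decide +kernel)

theorem qAA2_103 : Cl ⟨0, false, true, true⟩ ⟨0, false, false, false⟩
    ⟨819, 868, 124, 178⟩ ⟨771, 876, 304, 435⟩ ⟨861, 913, 53, 102⟩ := .mk
  (.S 2 823
   (.S 0 843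
    (.L ⟨585, 34, false, false, 11787, 4065⟩ ⟨629, 12, true, false, 856, 4826⟩
     ⟨274, 296, 454, 485⟩ ⟨280, 293, 503, 519⟩ ⟨468, 494, 494, 516⟩
     ⟨0, 0, 0, 0⟩ ⟨0, 0, 0, 0⟩)
    (.L ⟨571, 37, false, false, 12312, 4478⟩ ⟨613, 11, true, false, 668, 4642⟩
     ⟨271, 294, 452, 483⟩ ⟨276, 290, 502, 519⟩ ⟨467, 493, 493, 515⟩
     ⟨0, 0, 0, 0⟩ ⟨0, 0, 0, 0⟩))
   (.L ⟨540, 32, false, false, 11220, 3155⟩ ⟨613, 11, true, false, 668, 4826⟩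
    ⟨262, 289, 454, 488⟩ ⟨276, 293, 502, 519⟩ ⟨469, 496, 495, 520⟩
    ⟨0, 0, 0, 0⟩ ⟨0, 0, 0, 0⟩))
  (by decide +kernel)

theorem qAA2_104 : Cl ⟨0, false, true, true⟩ ⟨0, false, false, false⟩
    ⟨819, 868, 129, 178⟩ ⟨771, 876, 304, 435⟩ ⟨893, 917, 13, 36⟩ := .mk
  (.S 0 843
   (.L ⟨555, 30, false, false, 11635, 3155⟩ ⟨637, 20, true, false, 3322, 6042⟩
    ⟨266, 296, 455, 488⟩ ⟨282, 291, 512, 524⟩ ⟨466, 491, 496, 518⟩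
    ⟨0, 0, 0, 0⟩ ⟨0, 0, 0, 0⟩)
   (.L ⟨540, 32, false, false, 12165, 3566⟩ ⟨621, 19, true, false, 3186, 5890⟩
    ⟨262, 293, 452, 486⟩ ⟨279, 287, 512, 524⟩ ⟨465, 490, 496, 518⟩
    ⟨0, 0, 0, 0⟩ ⟨0, 0, 0, 0⟩))
  (by decide +kernel)

theorem qAA2_105 : Cl ⟨0, false, true, true⟩ ⟨0, false, false, false⟩
    ⟨819, 868, 129, 178⟩ ⟨771, 876, 304, 435⟩ ⟨903, 940, 16, 55⟩ := .mk
  (.S 0 843
   (.L ⟨555, 30, false, false, 11635, 3155⟩ ⟨621, 18, true, false, 2791, 6101⟩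
    ⟨266, 296, 455, 488⟩ ⟨279, 289, 510, 524⟩ ⟨466, 492, 494, 517⟩
    ⟨0, 0, 0, 0⟩ ⟨0, 0, 0, 0⟩)
   (.L ⟨540, 32, false, false, 12165, 3566⟩ ⟨605, 17, true, false, 2639, 5947⟩
    ⟨262, 293, 452, 486⟩ ⟨275, 286, 510, 524⟩ ⟨465, 491, 493, 517⟩
    ⟨0, 0, 0, 0⟩ ⟨0, 0, 0, 0⟩))
  (by decide +kernel)

theorem qAA2_106 : Cl ⟨0, false, true, true⟩ ⟨0, false, false, false⟩
    ⟨819, 868, 129, 178⟩ ⟨771, 876, 304, 435⟩ ⟨891, 930, 25, 64⟩ := .mk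
  (.S 0 843
   (.L ⟨555, 30, false, false, 11635, 3155⟩ ⟨626, 17, true, false, 2438, 5773⟩
    ⟨266, 296, 455, 488⟩ ⟨280, 291, 509, 523⟩ ⟨466, 493, 494, 518⟩
    ⟨0, 0, 0, 0⟩ ⟨0, 0, 0, 0⟩)
   (.L ⟨540, 32, false, false, 12165, 3566⟩ ⟨609, 16, true, false, 2278, 5612⟩
    ⟨262, 293, 452, 486⟩ ⟨276, 287, 509, 523⟩ ⟨465, 491, 494, 518⟩
    ⟨0, 0, 0, 0⟩ ⟨0, 0, 0, 0⟩))
  (by decide +kernel)

theorem qAA2_107 : Cl ⟨0, false, true, true⟩ ⟨0, false, false, false⟩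
    ⟨820, 868, 134, 178⟩ ⟨771, 876, 304, 435⟩ ⟨916, 1001, 0, 27⟩ := .mk
  (.S 2 823
   (.S 0 844
    (.L ⟨584, 35, false, false, 11505, 4082⟩ ⟨592, 23, true, false, 3893, 6774⟩
     ⟨274, 295, 455, 485⟩ ⟨273, 288, 515, 529⟩ ⟨462, 487, 492, 514⟩
     ⟨0, 0, 0, 0⟩ ⟨0, 0, 0, 0⟩)
    (.L ⟨571, 37, false, false, 12019, 4495⟩ ⟨576, 22, true, false, 3765, 6634⟩
     ⟨271, 293, 453, 483⟩ ⟨269, 285, 515, 529⟩ ⟨461, 486, 491, 514⟩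
     ⟨0, 0, 0, 0⟩ ⟨0, 0, 0, 0⟩))
   (.L ⟨540, 32, false, false, 10904, 3172⟩ ⟨576, 22, true, false, 3765, 6634⟩
    ⟨262, 288, 455, 488⟩ ⟨269, 288, 515, 529⟩ ⟨463, 489, 492, 519⟩
    ⟨0, 0, 0, 0⟩ ⟨0, 0, 0, 0⟩))
  (by decide +kernel)

theorem qAA2_108 : Cl ⟨0, false, true, true⟩ ⟨0, false, false, false⟩
    ⟨820, 868, 134, 178⟩ ⟨771, 876, 304, 435⟩ ⟨920, 1001, 0, 42⟩ := .mk
  (.S 2 823
   (.S 0 844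
    (.L ⟨584, 35, false, false, 11505, 4082⟩ ⟨590, 21, true, false, 3459, 6774⟩
     ⟨274, 295, 455, 485⟩ ⟨273, 288, 513, 529⟩ ⟨462, 488, 492, 514⟩
     ⟨0, 0, 0, 0⟩ ⟨0, 0, 0, 0⟩)
    (.L ⟨571, 37, false, false, 12019, 4495⟩ ⟨574, 21, true, false, 3320, 6634⟩
     ⟨271, 293, 453, 483⟩ ⟨269, 285, 513, 529⟩ ⟨461, 487, 490, 514⟩
     ⟨0, 0, 0, 0⟩ ⟨0, 0, 0, 0⟩))
   (.L ⟨540, 32, false, false, 10904, 3172⟩ ⟨574, 21, true, false, 3320, 6634⟩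
    ⟨262, 288, 455, 488⟩ ⟨269, 288, 513, 529⟩ ⟨463, 490, 492, 519⟩
    ⟨0, 0, 0, 0⟩ ⟨0, 0, 0, 0⟩))
  (by decide +kernel)

/-- The pairs of the file. -/
def rAA2 : List Pq := [
  ⟨3, 7, ⟨816, 868, 109, 188⟩, ⟨761, 870, 218, 327⟩, ⟨795, 865, 177, 255⟩⟩,
  ⟨3, 11, ⟨816, 868, 124, 188⟩, ⟨761, 870, 218, 327⟩, ⟨812, 833, 57, 77⟩⟩,
  ⟨3, 9, ⟨816, 868, 124, 188⟩, ⟨761, 870, 218, 327⟩, ⟨854, 892, 65, 122⟩⟩,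
  ⟨3, 10, ⟨816, 868, 119, 188⟩, ⟨761, 870, 218, 327⟩, ⟨835, 885, 103, 149⟩⟩,
  ⟨3, 14, ⟨817, 868, 129, 188⟩, ⟨761, 870, 218, 327⟩, ⟨859, 886, 25, 50⟩⟩,
  ⟨3, 12, ⟨817, 868, 129, 188⟩, ⟨761, 870, 218, 327⟩, ⟨877, 920, 36, 83⟩⟩,
  ⟨3, 13, ⟨816, 868, 124, 188⟩, ⟨761, 870, 218, 327⟩, ⟨861, 913, 53, 102⟩⟩,
  ⟨3, 17, ⟨817, 868, 129, 188⟩, ⟨761, 870, 218, 327⟩, ⟨893, 917, 13, 36⟩⟩,
  ⟨3, 15, ⟨817, 868, 129, 188⟩, ⟨761, 870, 218, 327⟩, ⟨903, 940, 16, 55⟩⟩,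
  ⟨3, 16, ⟨817, 868, 129, 188⟩, ⟨761, 870, 218, 327⟩, ⟨891, 930, 25, 64⟩⟩,
  ⟨3, 20, ⟨820, 868, 134, 188⟩, ⟨761, 870, 218, 327⟩, ⟨916, 1001, 0, 27⟩⟩,
  ⟨3, 18, ⟨820, 868, 134, 188⟩, ⟨761, 870, 218, 327⟩, ⟨920, 1001, 0, 42⟩⟩,
  ⟨3, 19, ⟨820, 868, 134, 188⟩, ⟨761, 870, 218, 327⟩, ⟨908, 1001, 0, 50⟩⟩,
  ⟨4, 4, ⟨819, 868, 102, 178⟩, ⟨771, 876, 304, 435⟩, ⟨771, 876, 304, 435⟩⟩,
  ⟨4, 8, ⟨819, 859, 119, 178⟩, ⟨771, 876, 304, 435⟩, ⟨728, 756, 126, 152⟩⟩,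
  ⟨4, 6, ⟨819, 868, 119, 178⟩, ⟨771, 876, 304, 435⟩, ⟨816, 868, 119, 196⟩⟩,
  ⟨4, 7, ⟨819, 868, 109, 178⟩, ⟨771, 876, 304, 435⟩, ⟨795, 865, 177, 255⟩⟩,
  ⟨4, 11, ⟨819, 868, 124, 178⟩, ⟨771, 876, 304, 435⟩, ⟨812, 833, 57, 77⟩⟩,
  ⟨4, 9, ⟨819, 868, 124, 178⟩, ⟨771, 876, 304, 435⟩, ⟨854, 892, 65, 122⟩⟩,
  ⟨4, 10, ⟨819, 868, 119, 178⟩, ⟨771, 876, 304, 435⟩, ⟨835, 885, 103, 149⟩⟩,
  ⟨4, 14, ⟨819, 868, 129, 178⟩, ⟨771, 876, 304, 435⟩, ⟨859, 886, 25, 50⟩⟩,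
  ⟨4, 12, ⟨819, 868, 129, 178⟩, ⟨771, 876, 304, 435⟩, ⟨877, 920, 36, 83⟩⟩,
  ⟨4, 13, ⟨819, 868, 124, 178⟩, ⟨771, 876, 304, 435⟩, ⟨861, 913, 53, 102⟩⟩,
  ⟨4, 17, ⟨819, 868, 129, 178⟩, ⟨771, 876, 304, 435⟩, ⟨893, 917, 13, 36⟩⟩,
  ⟨4, 15, ⟨819, 868, 129, 178⟩, ⟨771, 876, 304, 435⟩, ⟨903, 940, 16, 55⟩⟩,
  ⟨4, 16, ⟨819, 868, 129, 178⟩, ⟨771, 876, 304, 435⟩, ⟨891, 930, 25, 64⟩⟩,
  ⟨4, 20, ⟨820, 868, 134, 178⟩, ⟨771, 876, 304, 435⟩, ⟨916, 1001, 0, 27⟩⟩,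
  ⟨4, 18, ⟨820, 868, 134, 178⟩, ⟨771, 876, 304, 435⟩, ⟨920, 1001, 0, 42⟩⟩]

theorem rAA2_ok : ∀ p ∈ rAA2, Cr false false p :=
  List.forall_mem_cons.2 ⟨qAA2_81,
  List.forall_mem_cons.2 ⟨qAA2_82,
  List.forall_mem_cons.2 ⟨qAA2_83,
  List.forall_mem_cons.2 ⟨qAA2_84,
  List.forall_mem_cons.2 ⟨qAA2_85,
  List.forall_mem_cons.2 ⟨qAA2_86,
  List.forall_mem_cons.2 ⟨qAA2_87,
  List.forall_mem_cons.2 ⟨qAA2_88,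
  List.forall_mem_cons.2 ⟨qAA2_89,
  List.forall_mem_cons.2 ⟨qAA2_90,
  List.forall_mem_cons.2 ⟨qAA2_91,
  List.forall_mem_cons.2 ⟨qAA2_92,
  List.forall_mem_cons.2 ⟨qAA2_93,
  List.forall_mem_cons.2 ⟨qAA2_94,
  List.forall_mem_cons.2 ⟨qAA2_95,
  List.forall_mem_cons.2 ⟨qAA2_96,
  List.forall_mem_cons.2 ⟨qAA2_97,
  List.forall_mem_cons.2 ⟨qAA2_98,
  List.forall_mem_cons.2 ⟨qAA2_99,
  List.forall_mem_cons.2 ⟨qAA2_100,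
  List.forall_mem_cons.2 ⟨qAA2_101,
  List.forall_mem_cons.2 ⟨qAA2_102,
  List.forall_mem_cons.2 ⟨qAA2_103,
  List.forall_mem_cons.2 ⟨qAA2_104,
  List.forall_mem_cons.2 ⟨qAA2_105,
  List.forall_mem_cons.2 ⟨qAA2_106,
  List.forall_mem_cons.2 ⟨qAA2_107,
  List.forall_mem_cons.2 ⟨qAA2_108,
  List.forall_mem_nil _⟩⟩⟩⟩⟩⟩⟩⟩⟩⟩⟩⟩⟩⟩⟩⟩⟩⟩⟩⟩⟩⟩⟩⟩⟩⟩⟩⟩

end Pool.Agent.S5.Z4
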