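import Pool.Agent.S5.Z4.Tre

/-!
# Inner nodes with four half twists: certificates
-/

set_option autoImplicit false

namespace Pool.Agent.S5.Z4

theorem qAA3_109 : Cl ⟨0, false, true, true⟩ ⟨0, false, false, false⟩
    ⟨820, 868, 134, 178⟩ ⟨771, 876, 304, 435⟩ ⟨908, 1001, 0, 50⟩ := .mk
  (.S 2 823
   (.S 0 844
    (.L ⟨584, 35, false, false, 11505, 4082⟩ ⟨589, 21, true, false, 3144, 6774⟩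
     ⟨274, 295, 455, 485⟩ ⟨272, 289, 512, 529⟩ ⟨462, 489, 491, 515⟩
     ⟨0, 0, 0, 0⟩ ⟨0, 0, 0, 0⟩)
    (.S 0 856
     (.L ⟨577, 36, false, false, 11762, 4495⟩ ⟨581, 20, true, false, 3071, 6704⟩
      ⟨273, 293, 454, 483⟩ ⟨270, 286, 512, 529⟩ ⟨462, 488, 491, 514⟩
      ⟨0, 0, 0, 0⟩ ⟨0, 0, 0, 0⟩)
     (.L ⟨571, 37, false, false, 12019, 4702⟩ ⟨573, 20, true, false, 2998, 6634⟩
      ⟨271, 292, 453, 482⟩ ⟨268, 284, 512, 529⟩ ⟨461, 487, 490, 513⟩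
      ⟨0, 0, 0, 0⟩ ⟨0, 0, 0, 0⟩)))
   (.S 0 844
    (.L ⟨554, 30, false, false, 10388, 3172⟩ ⟨589, 21, true, false, 3144, 6774⟩
     ⟨265, 288, 457, 488⟩ ⟨272, 289, 512, 529⟩ ⟨464, 491, 494, 518⟩
     ⟨0, 0, 0, 0⟩ ⟨0, 0, 0, 0⟩)
    (.L ⟨540, 32, false, false, 10904, 3584⟩ ⟨573, 20, true, false, 2998, 6634⟩
     ⟨262, 286, 455, 486⟩ ⟨268, 286, 512, 529⟩ ⟨463, 490, 493, 518⟩
     ⟨0, 0, 0, 0⟩ ⟨0, 0, 0, 0⟩)))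
  (by decide +kernel)

theorem qAA3_110 : Cl ⟨0, false, false, false⟩ ⟨0, false, false, false⟩
    ⟨812, 859, 119, 193⟩ ⟨728, 756, 126, 152⟩ ⟨728, 756, 126, 152⟩ := .mk
  (.L ⟨712, 0, true, false, 2267, 1590⟩ ⟨712, 0, true, false, 2267, 1590⟩
   ⟨295, 308, 492, 506⟩ ⟨295, 308, 492, 506⟩ ⟨491, 509, 491, 509⟩
   ⟨0, 0, 0, 0⟩ ⟨0, 0, 0, 0⟩)
  (by decide +kernel)

theorem qAA3_111 : Cl ⟨0, false, false, false⟩ ⟨0, false, true, true⟩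
    ⟨816, 859, 119, 193⟩ ⟨728, 756, 126, 152⟩ ⟨816, 868, 119, 196⟩ := .mk
  (.L ⟨712, 0, true, false, 2267, 1547⟩ ⟨622, 0, true, false, 2984, 2975⟩
   ⟨295, 307, 492, 506⟩ ⟨278, 297, 488, 512⟩ ⟨486, 509, 483, 504⟩
   ⟨0, 0, 0, 0⟩ ⟨0, 0, 0, 0⟩)
  (by decide +kernel)

theorem qAA3_112 : Cl ⟨0, false, false, false⟩ ⟨0, false, true, true⟩
    ⟨816, 859, 119, 188⟩ ⟨728, 756, 126, 152⟩ ⟨795, 865, 177, 255⟩ := .mk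
  (.L ⟨713, 0, true, false, 2267, 1394⟩ ⟨609, 0, true, false, 5289, 973⟩
   ⟨295, 307, 492, 505⟩ ⟨275, 298, 480, 504⟩ ⟨490, 512, 482, 504⟩
   ⟨0, 0, 0, 0⟩ ⟨0, 0, 0, 0⟩)
  (by decide +kernel)

theorem qAA3_113 : Cl ⟨0, false, false, false⟩ ⟨0, false, false, false⟩
    ⟨814, 859, 124, 193⟩ ⟨728, 756, 126, 152⟩ ⟨812, 833, 57, 77⟩ := .mk
  (.L ⟨712, 0, true, false, 2126, 1568⟩ ⟨671, 13, true, false, 1226, 4623⟩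
   ⟨295, 307, 492, 506⟩ ⟨288, 299, 504, 517⟩ ⟨484, 502, 490, 506⟩
   ⟨0, 0, 0, 0⟩ ⟨0, 0, 0, 0⟩)
  (by decide +kernel)

theorem qAA3_114 : Cl ⟨0, false, false, false⟩ ⟨0, false, false, false⟩
    ⟨814, 859, 124, 193⟩ ⟨728, 756, 126, 152⟩ ⟨854, 892, 65, 122⟩ := .mk
  (.L ⟨712, 0, true, false, 2126, 1568⟩ ⟨624, 10, true, false, 0, 4876⟩
   ⟨295, 307, 492, 506⟩ ⟨279, 294, 500, 519⟩ ⟨482, 503, 485, 504⟩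
   ⟨0, 0, 0, 0⟩ ⟨0, 0, 0, 0⟩)
  (by decide +kernel)

theorem qAA3_115 : Cl ⟨0, false, false, false⟩ ⟨0, false, false, false⟩
    ⟨816, 859, 119, 193⟩ ⟨728, 756, 126, 152⟩ ⟨835, 885, 103, 149⟩ := .mk
  (.L ⟨712, 0, true, false, 2267, 1547⟩ ⟨623, 6, true, false, 1199, 3641⟩
   ⟨295, 307, 492, 506⟩ ⟨278, 295, 495, 514⟩ ⟨485, 506, 484, 504⟩
   ⟨0, 0, 0, 0⟩ ⟨0, 0, 0, 0⟩)
  (by decide +kernel)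

theorem qAA3_116 : Cl ⟨0, false, false, false⟩ ⟨0, false, false, false⟩
    ⟨817, 859, 129, 193⟩ ⟨728, 756, 126, 152⟩ ⟨859, 886, 25, 50⟩ := .mk
  (.L ⟨712, 0, true, false, 1985, 1536⟩ ⟨641, 19, true, false, 2590, 6021⟩
   ⟨295, 307, 493, 506⟩ ⟨283, 294, 509, 523⟩ ⟨481, 499, 488, 504⟩
   ⟨0, 0, 0, 0⟩ ⟨0, 0, 0, 0⟩)
  (by decide +kernel)

theorem qAA3_117 : Cl ⟨0, false, false, false⟩ ⟨0, false, false, false⟩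
    ⟨817, 859, 129, 193⟩ ⟨728, 756, 126, 152⟩ ⟨877, 920, 36, 83⟩ := .mk
  (.L ⟨712, 0, true, false, 1985, 1536⟩ ⟨615, 16, true, false, 1634, 5944⟩
   ⟨295, 307, 493, 506⟩ ⟨277, 292, 506, 523⟩ ⟨480, 500, 484, 503⟩
   ⟨0, 0, 0, 0⟩ ⟨0, 0, 0, 0⟩)
  (by decide +kernel)

theorem qAA3_118 : Cl ⟨0, false, false, false⟩ ⟨0, false, false, false⟩
    ⟨814, 859, 124, 193⟩ ⟨728, 756, 126, 152⟩ ⟨861, 913, 53, 102⟩ := .mk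
  (.L ⟨712, 0, true, false, 2126, 1568⟩ ⟨616, 13, true, false, 735, 5411⟩
   ⟨295, 307, 492, 506⟩ ⟨277, 294, 502, 521⟩ ⟨481, 502, 484, 504⟩
   ⟨0, 0, 0, 0⟩ ⟨0, 0, 0, 0⟩)
  (by decide +kernel)

theorem qAA3_119 : Cl ⟨0, false, false, false⟩ ⟨0, false, false, false⟩
    ⟨817, 859, 129, 193⟩ ⟨728, 756, 126, 152⟩ ⟨893, 917, 13, 36⟩ := .mk
  (.L ⟨712, 0, true, false, 1985, 1536⟩ ⟨624, 21, true, false, 3235, 6602⟩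
   ⟨295, 307, 493, 506⟩ ⟨280, 291, 512, 526⟩ ⟨479, 497, 487, 503⟩
   ⟨0, 0, 0, 0⟩ ⟨0, 0, 0, 0⟩)
  (by decide +kernel)

theorem qAA3_120 : Cl ⟨0, false, false, false⟩ ⟨0, false, false, false⟩
    ⟨817, 859, 129, 193⟩ ⟨728, 756, 126, 152⟩ ⟨903, 940, 16, 55⟩ := .mk
  (.L ⟨712, 0, true, false, 1985, 1536⟩ ⟨608, 20, true, false, 2694, 6673⟩
   ⟨295, 307, 493, 506⟩ ⟨276, 290, 510, 527⟩ ⟨478, 498, 484, 503⟩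
   ⟨0, 0, 0, 0⟩ ⟨0, 0, 0, 0⟩)
  (by decide +kernel)

theorem qAA3_121 : Cl ⟨0, false, false, false⟩ ⟨0, false, false, false⟩
    ⟨817, 859, 129, 193⟩ ⟨728, 756, 126, 152⟩ ⟨891, 930, 25, 64⟩ := .mk
  (.L ⟨712, 0, true, false, 1985, 1536⟩ ⟨613, 18, true, false, 2335, 6341⟩
   ⟨295, 307, 493, 506⟩ ⟨277, 291, 509, 525⟩ ⟨479, 498, 485, 503⟩
   ⟨0, 0, 0, 0⟩ ⟨0, 0, 0, 0⟩)
  (by decide +kernel)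

theorem qAA3_122 : Cl ⟨0, false, false, false⟩ ⟨0, false, false, false⟩
    ⟨820, 859, 134, 193⟩ ⟨728, 756, 126, 152⟩ ⟨916, 1001, 0, 27⟩ := .mk
  (.L ⟨712, 0, true, false, 1844, 1504⟩ ⟨580, 24, true, false, 3813, 7256⟩
   ⟨295, 306, 493, 506⟩ ⟨271, 288, 515, 531⟩ ⟨475, 495, 482, 502⟩
   ⟨0, 0, 0, 0⟩ ⟨0, 0, 0, 0⟩)
  (by decide +kernel)

theorem qAA3_123 : Cl ⟨0, false, false, false⟩ ⟨0, false, false, false⟩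
    ⟨820, 859, 134, 193⟩ ⟨728, 756, 126, 152⟩ ⟨920, 1001, 0, 42⟩ := .mk
  (.L ⟨712, 0, true, false, 1844, 1504⟩ ⟨578, 23, true, false, 3372, 7256⟩
   ⟨295, 306, 493, 506⟩ ⟨270, 288, 513, 531⟩ ⟨475, 496, 482, 502⟩
   ⟨0, 0, 0, 0⟩ ⟨0, 0, 0, 0⟩)
  (by decide +kernel)

theorem qAA3_124 : Cl ⟨0, false, false, false⟩ ⟨0, false, false, false⟩
    ⟨820, 859, 134, 193⟩ ⟨728, 756, 126, 152⟩ ⟨908, 1001, 0, 50⟩ := .mk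
  (.L ⟨712, 0, true, false, 1844, 1504⟩ ⟨577, 22, true, false, 3053, 7256⟩
   ⟨295, 306, 493, 506⟩ ⟨270, 289, 512, 531⟩ ⟨475, 497, 482, 503⟩
   ⟨0, 0, 0, 0⟩ ⟨0, 0, 0, 0⟩)
  (by decide +kernel)

theorem qAA3_125 : Cl ⟨0, false, true, true⟩ ⟨0, false, true, true⟩
    ⟨816, 868, 119, 196⟩ ⟨816, 868, 119, 196⟩ ⟨816, 868, 119, 196⟩ := .mk
  (.L ⟨616, 0, true, false, 3080, 3080⟩ ⟨616, 0, true, false, 3080, 3080⟩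
   ⟨277, 297, 488, 512⟩ ⟨277, 297, 488, 512⟩ ⟨486, 514, 487, 513⟩
   ⟨0, 0, 0, 0⟩ ⟨0, 0, 0, 0⟩)
  (by decide +kernel)

theorem qAA3_126 : Cl ⟨0, false, true, true⟩ ⟨0, false, true, true⟩
    ⟨816, 868, 119, 188⟩ ⟨816, 868, 119, 196⟩ ⟨795, 865, 177, 255⟩ := .mk
  (.L ⟨618, 0, true, false, 3080, 2802⟩ ⟨604, 0, true, false, 5405, 973⟩
   ⟨277, 297, 488, 511⟩ ⟨274, 298, 479, 504⟩ ⟨489, 518, 485, 512⟩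
   ⟨0, 0, 0, 0⟩ ⟨0, 0, 0, 0⟩)
  (by decide +kernel)

theorem qAA3_127 : Cl ⟨0, false, true, true⟩ ⟨0, false, false, false⟩
    ⟨816, 868, 124, 196⟩ ⟨816, 868, 119, 196⟩ ⟨812, 833, 57, 77⟩ := .mk
  (.L ⟨616, 0, true, false, 2925, 3080⟩ ⟨665, 13, true, false, 1166, 4706⟩
   ⟨277, 297, 488, 512⟩ ⟨287, 299, 504, 518⟩ ⟨483, 507, 493, 515⟩
   ⟨0, 0, 0, 0⟩ ⟨0, 0, 0, 0⟩)
  (by decide +kernel)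

theorem qAA3_128 : Cl ⟨0, false, true, true⟩ ⟨0, false, false, false⟩
    ⟨816, 868, 124, 196⟩ ⟨816, 868, 119, 196⟩ ⟨854, 892, 65, 122⟩ := .mk
  (.L ⟨616, 0, true, false, 2925, 3080⟩ ⟨618, 10, true, false, 199, 4965⟩
   ⟨277, 297, 488, 512⟩ ⟨277, 294, 499, 519⟩ ⟨482, 509, 488, 513⟩
   ⟨0, 0, 0, 0⟩ ⟨0, 0, 0, 0⟩)
  (by decide +kernel)

theorem qAA3_129 : Cl ⟨0, false, true, true⟩ ⟨0, false, false, false⟩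
    ⟨816, 868, 119, 196⟩ ⟨816, 868, 119, 196⟩ ⟨835, 885, 103, 149⟩ := .mk
  (.L ⟨616, 0, true, false, 3080, 3080⟩ ⟨616, 6, true, false, 1280, 3747⟩
   ⟨277, 297, 488, 512⟩ ⟨277, 295, 495, 515⟩ ⟨484, 511, 488, 512⟩
   ⟨0, 0, 0, 0⟩ ⟨0, 0, 0, 0⟩)
  (by decide +kernel)

theorem qAA3_130 : Cl ⟨0, false, true, true⟩ ⟨0, false, false, false⟩
    ⟨817, 868, 129, 196⟩ ⟨816, 868, 119, 196⟩ ⟨859, 886, 25, 50⟩ := .mk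
  (.L ⟨616, 0, true, false, 2770, 3069⟩ ⟨635, 19, true, false, 2536, 6128⟩
   ⟨277, 297, 489, 512⟩ ⟨282, 294, 509, 524⟩ ⟨480, 504, 491, 513⟩
   ⟨0, 0, 0, 0⟩ ⟨0, 0, 0, 0⟩)
  (by decide +kernel)

theorem qAA3_131 : Cl ⟨0, false, true, true⟩ ⟨0, false, false, false⟩
    ⟨817, 868, 129, 196⟩ ⟨816, 868, 119, 196⟩ ⟨877, 920, 36, 83⟩ := .mk
  (.L ⟨616, 0, true, false, 2770, 3069⟩ ⟨609, 16, true, false, 1571, 6054⟩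
   ⟨277, 297, 489, 512⟩ ⟨276, 292, 506, 524⟩ ⟨479, 505, 488, 512⟩
   ⟨0, 0, 0, 0⟩ ⟨0, 0, 0, 0⟩)
  (by decide +kernel)

theorem qAA3_132 : Cl ⟨0, false, true, true⟩ ⟨0, false, false, false⟩
    ⟨816, 868, 124, 196⟩ ⟨816, 868, 119, 196⟩ ⟨861, 913, 53, 102⟩ := .mk
  (.L ⟨616, 0, true, false, 2925, 3080⟩ ⟨609, 13, true, false, 668, 5504⟩
   ⟨277, 297, 488, 512⟩ ⟨276, 294, 502, 522⟩ ⟨480, 508, 488, 513⟩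
   ⟨0, 0, 0, 0⟩ ⟨0, 0, 0, 0⟩)
  (by decide +kernel)

theorem qAA3_133 : Cl ⟨0, false, true, true⟩ ⟨0, false, false, false⟩
    ⟨817, 868, 129, 196⟩ ⟨816, 868, 119, 196⟩ ⟨893, 917, 13, 36⟩ := .mk
  (.L ⟨616, 0, true, false, 2770, 3069⟩ ⟨618, 22, true, false, 3186, 6712⟩
   ⟨277, 297, 489, 512⟩ ⟨279, 291, 512, 526⟩ ⟨478, 502, 490, 512⟩
   ⟨0, 0, 0, 0⟩ ⟨0, 0, 0, 0⟩)
  (by decide +kernel)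

theorem qAA3_134 : Cl ⟨0, false, true, true⟩ ⟨0, false, false, false⟩
    ⟨817, 868, 129, 196⟩ ⟨816, 868, 119, 196⟩ ⟨903, 940, 16, 55⟩ := .mk
  (.L ⟨616, 0, true, false, 2770, 3069⟩ ⟨602, 20, true, false, 2639, 6785⟩
   ⟨277, 297, 489, 512⟩ ⟨275, 290, 510, 527⟩ ⟨477, 503, 488, 512⟩
   ⟨0, 0, 0, 0⟩ ⟨0, 0, 0, 0⟩)
  (by decide +kernel)

theorem qAA3_135 : Cl ⟨0, false, true, true⟩ ⟨0, false, false, false⟩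
    ⟨817, 868, 129, 196⟩ ⟨816, 868, 119, 196⟩ ⟨891, 930, 25, 64⟩ := .mk
  (.L ⟨616, 0, true, false, 2770, 3069⟩ ⟨606, 19, true, false, 2278, 6452⟩
   ⟨277, 297, 489, 512⟩ ⟨276, 291, 509, 526⟩ ⟨478, 504, 488, 512⟩
   ⟨0, 0, 0, 0⟩ ⟨0, 0, 0, 0⟩)
  (by decide +kernel)

theorem qAA3_136 : Cl ⟨0, false, true, true⟩ ⟨0, false, false, false⟩
    ⟨820, 868, 134, 196⟩ ⟨816, 868, 119, 196⟩ ⟨916, 1001, 0, 27⟩ := .mk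
  (.L ⟨616, 0, true, false, 2616, 3037⟩ ⟨574, 25, true, false, 3765, 7312⟩
   ⟨277, 296, 489, 512⟩ ⟨269, 288, 515, 532⟩ ⟨474, 500, 485, 511⟩
   ⟨0, 0, 0, 0⟩ ⟨0, 0, 0, 0⟩)
  (by decide +kernel)

theorem qAA3_137 : Cl ⟨0, false, true, true⟩ ⟨0, false, false, false⟩
    ⟨820, 868, 134, 196⟩ ⟨816, 868, 119, 196⟩ ⟨920, 1001, 0, 42⟩ := .mk
  (.L ⟨616, 0, true, false, 2616, 3037⟩ ⟨572, 22, true, false, 3320, 7312⟩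
   ⟨277, 296, 489, 512⟩ ⟨269, 288, 513, 532⟩ ⟨474, 501, 485, 511⟩
   ⟨0, 0, 0, 0⟩ ⟨0, 0, 0, 0⟩)
  (by decide +kernel)

theorem qAA3_138 : Cl ⟨0, false, true, true⟩ ⟨0, false, false, false⟩
    ⟨820, 868, 134, 196⟩ ⟨816, 868, 119, 196⟩ ⟨908, 1001, 0, 50⟩ := .mk
  (.L ⟨616, 0, true, false, 2616, 3037⟩ ⟨571, 22, true, false, 2998, 7312⟩
   ⟨277, 296, 489, 512⟩ ⟨268, 289, 512, 532⟩ ⟨474, 502, 485, 512⟩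
   ⟨0, 0, 0, 0⟩ ⟨0, 0, 0, 0⟩)
  (by decide +kernel)

theorem qAA3_139 : Cl ⟨0, false, true, true⟩ ⟨0, false, true, true⟩
    ⟨816, 868, 109, 188⟩ ⟨795, 865, 177, 255⟩ ⟨795, 865, 177, 255⟩ := .mk
  (.L ⟨604, 0, true, false, 5707, 973⟩ ⟨604, 0, true, false, 5707, 973⟩
   ⟨274, 298, 478, 504⟩ ⟨274, 298, 478, 504⟩ ⟨485, 515, 486, 514⟩
   ⟨0, 0, 0, 0⟩ ⟨0, 0, 0, 0⟩)
  (by decide +kernel)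

theorem qAA3_140 : Cl ⟨0, false, true, true⟩ ⟨0, false, false, false⟩
    ⟨816, 868, 124, 188⟩ ⟨795, 865, 177, 255⟩ ⟨812, 833, 57, 77⟩ := .mk
  (.L ⟨604, 0, true, false, 5254, 973⟩ ⟨666, 13, true, false, 1166, 4438⟩
   ⟨274, 298, 480, 504⟩ ⟨287, 299, 504, 517⟩ ⟨480, 503, 494, 517⟩
   ⟨0, 0, 0, 0⟩ ⟨0, 0, 0, 0⟩)
  (by decide +kernel)

theorem qAA3_141 : Cl ⟨0, false, true, true⟩ ⟨0, false, false, false⟩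
    ⟨816, 868, 124, 188⟩ ⟨795, 865, 177, 255⟩ ⟨854, 892, 65, 122⟩ := .mk
  (.L ⟨604, 0, true, false, 5254, 973⟩ ⟨620, 9, true, false, 199, 4680⟩
   ⟨274, 298, 480, 504⟩ ⟨278, 294, 499, 518⟩ ⟨479, 505, 489, 514⟩
   ⟨0, 0, 0, 0⟩ ⟨0, 0, 0, 0⟩)
  (by decide +kernel)

theorem qAA3_142 : Cl ⟨0, false, true, true⟩ ⟨0, false, false, false⟩
    ⟨816, 868, 119, 188⟩ ⟨795, 865, 177, 255⟩ ⟨835, 885, 103, 149⟩ := .mk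
  (.L ⟨604, 0, true, false, 5405, 973⟩ ⟨618, 5, true, false, 1280, 3464⟩
   ⟨274, 298, 479, 504⟩ ⟨277, 295, 495, 514⟩ ⟨480, 507, 488, 514⟩
   ⟨0, 0, 0, 0⟩ ⟨0, 0, 0, 0⟩)
  (by decide +kernel)

theorem qAA3_143 : Cl ⟨0, false, true, true⟩ ⟨0, false, false, false⟩
    ⟨817, 868, 129, 188⟩ ⟨795, 865, 177, 255⟩ ⟨859, 886, 25, 50⟩ := .mk
  (.L ⟨604, 0, true, false, 5103, 961⟩ ⟨636, 18, true, false, 2536, 5844⟩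
   ⟨274, 297, 480, 504⟩ ⟨282, 294, 509, 522⟩ ⟨477, 500, 493, 515⟩
   ⟨0, 0, 0, 0⟩ ⟨0, 0, 0, 0⟩)
  (by decide +kernel)

theorem qAA3_144 : Cl ⟨0, false, true, true⟩ ⟨0, false, false, false⟩
    ⟨817, 868, 129, 188⟩ ⟨795, 865, 177, 255⟩ ⟨877, 920, 36, 83⟩ := .mk
  (.L ⟨604, 0, true, false, 5103, 961⟩ ⟨610, 15, true, false, 1571, 5761⟩
   ⟨274, 297, 480, 504⟩ ⟨276, 292, 506, 523⟩ ⟨476, 501, 489, 514⟩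
   ⟨0, 0, 0, 0⟩ ⟨0, 0, 0, 0⟩)
  (by decide +kernel)

theorem qAA3_145 : Cl ⟨0, false, true, true⟩ ⟨0, false, false, false⟩
    ⟨816, 868, 124, 188⟩ ⟨795, 865, 177, 255⟩ ⟨861, 913, 53, 102⟩ := .mk
  (.L ⟨604, 0, true, false, 5254, 973⟩ ⟨611, 12, true, false, 668, 5213⟩
   ⟨274, 298, 480, 504⟩ ⟨276, 294, 502, 521⟩ ⟨477, 504, 488, 515⟩
   ⟨0, 0, 0, 0⟩ ⟨0, 0, 0, 0⟩)
  (by decide +kernel)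

theorem qAA3_146 : Cl ⟨0, false, true, true⟩ ⟨0, false, false, false⟩
    ⟨817, 868, 129, 188⟩ ⟨795, 865, 177, 255⟩ ⟨893, 917, 13, 36⟩ := .mk
  (.L ⟨604, 0, true, false, 5103, 961⟩ ⟨619, 20, true, false, 3186, 6420⟩
   ⟨274, 297, 480, 504⟩ ⟨279, 291, 512, 525⟩ ⟨475, 498, 491, 514⟩
   ⟨0, 0, 0, 0⟩ ⟨0, 0, 0, 0⟩)
  (by decide +kernel)

theorem qAA3_147 : Cl ⟨0, false, true, true⟩ ⟨0, false, false, false⟩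
    ⟨817, 868, 129, 188⟩ ⟨795, 865, 177, 255⟩ ⟨903, 940, 16, 55⟩ := .mk
  (.L ⟨604, 0, true, false, 5103, 961⟩ ⟨603, 19, true, false, 2639, 6486⟩
   ⟨274, 297, 480, 504⟩ ⟨275, 290, 510, 526⟩ ⟨474, 499, 489, 513⟩
   ⟨0, 0, 0, 0⟩ ⟨0, 0, 0, 0⟩)
  (by decide +kernel)

theorem qAA3_148 : Cl ⟨0, false, true, true⟩ ⟨0, false, false, false⟩
    ⟨817, 868, 129, 188⟩ ⟨795, 865, 177, 255⟩ ⟨891, 930, 25, 64⟩ := .mk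
  (.L ⟨604, 0, true, false, 5103, 961⟩ ⟨608, 17, true, false, 2278, 6156⟩
   ⟨274, 297, 480, 504⟩ ⟨276, 291, 509, 524⟩ ⟨475, 500, 489, 514⟩
   ⟨0, 0, 0, 0⟩ ⟨0, 0, 0, 0⟩)
  (by decide +kernel)

theorem qAA3_149 : Cl ⟨0, false, true, true⟩ ⟨0, false, false, false⟩
    ⟨820, 868, 134, 188⟩ ⟨795, 865, 177, 255⟩ ⟨916, 1001, 0, 27⟩ := .mk
  (.L ⟨604, 0, true, false, 4952, 923⟩ ⟨575, 24, true, false, 3765, 7011⟩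
   ⟨274, 297, 481, 504⟩ ⟨269, 288, 515, 530⟩ ⟨472, 496, 486, 513⟩
   ⟨0, 0, 0, 0⟩ ⟨0, 0, 0, 0⟩)
  (by decide +kernel)

theorem qAA3_150 : Cl ⟨0, false, true, true⟩ ⟨0, false, false, false⟩
    ⟨820, 868, 134, 188⟩ ⟨795, 865, 177, 255⟩ ⟨920, 1001, 0, 42⟩ := .mk
  (.L ⟨604, 0, true, false, 4952, 923⟩ ⟨573, 22, true, false, 3320, 7011⟩
   ⟨274, 297, 481, 504⟩ ⟨269, 288, 513, 530⟩ ⟨472, 497, 486, 513⟩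
   ⟨0, 0, 0, 0⟩ ⟨0, 0, 0, 0⟩)
  (by decide +kernel)

theorem qAA3_151 : Cl ⟨0, false, true, true⟩ ⟨0, false, false, false⟩
    ⟨820, 868, 134, 188⟩ ⟨795, 865, 177, 255⟩ ⟨908, 1001, 0, 50⟩ := .mk
  (.L ⟨604, 0, true, false, 4952, 923⟩ ⟨572, 21, true, false, 2998, 7011⟩
   ⟨274, 297, 481, 504⟩ ⟨268, 289, 512, 530⟩ ⟨471, 498, 485, 513⟩
   ⟨0, 0, 0, 0⟩ ⟨0, 0, 0, 0⟩)
  (by decide +kernel)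

theorem qAA3_152 : Cl ⟨0, false, false, false⟩ ⟨0, false, false, false⟩
    ⟨814, 869, 124, 200⟩ ⟨812, 833, 57, 77⟩ ⟨812, 833, 57, 77⟩ := .mk
  (.L ⟨663, 14, true, false, 1160, 4858⟩ ⟨663, 14, true, false, 1160, 4858⟩
   ⟨287, 299, 504, 518⟩ ⟨287, 299, 504, 518⟩ ⟨491, 509, 491, 509⟩
   ⟨0, 0, 0, 0⟩ ⟨0, 0, 0, 0⟩)
  (by decide +kernel)

theorem qAA3_153 : Cl ⟨0, false, false, false⟩ ⟨0, false, false, false⟩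
    ⟨814, 869, 124, 200⟩ ⟨812, 833, 57, 77⟩ ⟨854, 892, 65, 122⟩ := .mk
  (.L ⟨663, 14, true, false, 1160, 4858⟩ ⟨616, 10, true, false, 207, 5126⟩
   ⟨287, 299, 504, 518⟩ ⟨277, 294, 499, 520⟩ ⟨488, 511, 486, 506⟩
   ⟨0, 0, 0, 0⟩ ⟨0, 0, 0, 0⟩)
  (by decide +kernel)

theorem qAA3_154 : Cl ⟨0, false, false, false⟩ ⟨0, false, false, false⟩
    ⟨816, 868, 124, 196⟩ ⟨812, 833, 57, 77⟩ ⟨835, 885, 103, 149⟩ := .mk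
  (.L ⟨665, 13, true, false, 1166, 4706⟩ ⟨616, 6, true, false, 1121, 3747⟩
   ⟨287, 299, 504, 518⟩ ⟨277, 295, 495, 515⟩ ⟨491, 513, 485, 506⟩
   ⟨0, 0, 0, 0⟩ ⟨0, 0, 0, 0⟩)
  (by decide +kernel)

theorem qAA3_155 : Cl ⟨0, false, false, false⟩ ⟨0, false, false, false⟩
    ⟨817, 869, 129, 200⟩ ⟨812, 833, 57, 77⟩ ⟨859, 886, 25, 50⟩ := .mk
  (.L ⟨663, 14, true, false, 1314, 4832⟩ ⟨633, 19, true, false, 2530, 6270⟩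
   ⟨287, 299, 504, 518⟩ ⟨282, 294, 509, 524⟩ ⟨487, 506, 489, 507⟩
   ⟨0, 0, 0, 0⟩ ⟨0, 0, 0, 0⟩)
  (by decide +kernel)

theorem qAA3_156 : Cl ⟨0, false, false, false⟩ ⟨0, false, false, false⟩
    ⟨817, 869, 129, 200⟩ ⟨812, 833, 57, 77⟩ ⟨877, 920, 36, 83⟩ := .mk
  (.L ⟨663, 14, true, false, 1314, 4832⟩ ⟨607, 16, true, false, 1564, 6200⟩
   ⟨287, 299, 504, 518⟩ ⟨276, 292, 506, 524⟩ ⟨486, 507, 486, 506⟩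
   ⟨0, 0, 0, 0⟩ ⟨0, 0, 0, 0⟩)
  (by decide +kernel)

theorem qAA3_157 : Cl ⟨0, false, false, false⟩ ⟨0, false, false, false⟩
    ⟨814, 869, 124, 200⟩ ⟨812, 833, 57, 77⟩ ⟨861, 913, 53, 102⟩ := .mk
  (.L ⟨663, 14, true, false, 1160, 4858⟩ ⟨608, 14, true, false, 660, 5666⟩
   ⟨287, 299, 504, 518⟩ ⟨276, 294, 502, 522⟩ ⟨487, 510, 486, 507⟩
   ⟨0, 0, 0, 0⟩ ⟨0, 0, 0, 0⟩)
  (by decide +kernel)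

theorem qAA3_158 : Cl ⟨0, false, false, false⟩ ⟨0, false, false, false⟩
    ⟨817, 869, 129, 200⟩ ⟨812, 833, 57, 77⟩ ⟨893, 917, 13, 36⟩ := .mk
  (.L ⟨663, 14, true, false, 1314, 4832⟩ ⟨617, 22, true, false, 3180, 6858⟩
   ⟨287, 299, 504, 518⟩ ⟨279, 291, 512, 527⟩ ⟨485, 504, 488, 506⟩
   ⟨0, 0, 0, 0⟩ ⟨0, 0, 0, 0⟩)
  (by decide +kernel)

theorem qAA3_159 : Cl ⟨0, false, false, false⟩ ⟨0, false, false, false⟩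
    ⟨817, 869, 129, 200⟩ ⟨812, 833, 57, 77⟩ ⟨903, 940, 16, 55⟩ := .mk
  (.L ⟨663, 14, true, false, 1314, 4832⟩ ⟨601, 20, true, false, 2633, 6934⟩
   ⟨287, 299, 504, 518⟩ ⟨275, 290, 510, 528⟩ ⟨484, 505, 486, 505⟩
   ⟨0, 0, 0, 0⟩ ⟨0, 0, 0, 0⟩)
  (by decide +kernel)

theorem qAA3_160 : Cl ⟨0, false, false, false⟩ ⟨0, false, false, false⟩
    ⟨817, 869, 129, 200⟩ ⟨812, 833, 57, 77⟩ ⟨891, 930, 25, 64⟩ := .mk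
  (.L ⟨663, 14, true, false, 1314, 4832⟩ ⟨605, 19, true, false, 2271, 6600⟩
   ⟨287, 299, 504, 518⟩ ⟨276, 291, 509, 526⟩ ⟨485, 506, 486, 506⟩
   ⟨0, 0, 0, 0⟩ ⟨0, 0, 0, 0⟩)
  (by decide +kernel)

theorem qAA3_161 : Cl ⟨0, false, false, false⟩ ⟨0, false, false, false⟩
    ⟨820, 869, 134, 200⟩ ⟨812, 833, 57, 77⟩ ⟨916, 1001, 0, 27⟩ := .mk
  (.L ⟨663, 14, true, false, 1468, 4806⟩ ⟨573, 26, true, false, 3760, 7457⟩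
   ⟨287, 298, 505, 518⟩ ⟨269, 288, 515, 532⟩ ⟨481, 502, 483, 505⟩
   ⟨0, 0, 0, 0⟩ ⟨0, 0, 0, 0⟩)
  (by decide +kernel)

theorem qAA3_162 : Cl ⟨0, false, false, false⟩ ⟨0, false, false, false⟩
    ⟨820, 869, 134, 200⟩ ⟨812, 833, 57, 77⟩ ⟨920, 1001, 0, 42⟩ := .mk
  (.L ⟨663, 14, true, false, 1468, 4806⟩ ⟨571, 24, true, false, 3314, 7457⟩
   ⟨287, 298, 505, 518⟩ ⟨268, 288, 513, 532⟩ ⟨481, 503, 483, 505⟩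
   ⟨0, 0, 0, 0⟩ ⟨0, 0, 0, 0⟩)
  (by decide +kernel)

theorem qAA3_163 : Cl ⟨0, false, false, false⟩ ⟨0, false, false, false⟩
    ⟨820, 869, 134, 200⟩ ⟨812, 833, 57, 77⟩ ⟨908, 1001, 0, 50⟩ := .mk
  (.L ⟨663, 14, true, false, 1468, 4806⟩ ⟨570, 23, true, false, 2992, 7457⟩
   ⟨287, 298, 505, 518⟩ ⟨268, 289, 511, 532⟩ ⟨481, 504, 483, 505⟩
   ⟨0, 0, 0, 0⟩ ⟨0, 0, 0, 0⟩)
  (by decide +kernel)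

theorem qAA3_164 : Cl ⟨0, false, false, false⟩ ⟨0, false, false, false⟩
    ⟨814, 869, 124, 200⟩ ⟨854, 892, 65, 122⟩ ⟨854, 892, 65, 122⟩ := .mk
  (.L ⟨616, 10, true, false, 207, 5126⟩ ⟨616, 10, true, false, 207, 5126⟩
   ⟨277, 294, 499, 520⟩ ⟨277, 294, 499, 520⟩ ⟨487, 513, 488, 512⟩
   ⟨0, 0, 0, 0⟩ ⟨0, 0, 0, 0⟩)
  (by decide +kernel)

theorem qAA3_165 : Cl ⟨0, false, false, false⟩ ⟨0, false, false, false⟩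
    ⟨816, 868, 124, 196⟩ ⟨854, 892, 65, 122⟩ ⟨835, 885, 103, 149⟩ := .mk
  (.L ⟨618, 10, true, false, 199, 4965⟩ ⟨616, 6, true, false, 1121, 3747⟩
   ⟨277, 294, 499, 519⟩ ⟨277, 295, 495, 515⟩ ⟨489, 515, 488, 512⟩
   ⟨0, 0, 0, 0⟩ ⟨0, 0, 0, 0⟩)
  (by decide +kernel)

theorem qAA3_166 : Cl ⟨0, false, false, false⟩ ⟨0, false, false, false⟩
    ⟨817, 869, 129, 200⟩ ⟨854, 892, 65, 122⟩ ⟨859, 886, 25, 50⟩ := .mk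
  (.L ⟨616, 10, true, false, 0, 5099⟩ ⟨633, 19, true, false, 2530, 6270⟩
   ⟨277, 294, 500, 520⟩ ⟨282, 294, 509, 524⟩ ⟨485, 508, 492, 512⟩
   ⟨0, 0, 0, 0⟩ ⟨0, 0, 0, 0⟩)
  (by decide +kernel)

theorem qAA3_167 : Cl ⟨0, false, false, false⟩ ⟨0, false, false, false⟩
    ⟨817, 869, 129, 200⟩ ⟨854, 892, 65, 122⟩ ⟨877, 920, 36, 83⟩ := .mk
  (.L ⟨616, 10, true, false, 0, 5099⟩ ⟨607, 16, true, false, 1564, 6200⟩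
   ⟨277, 294, 500, 520⟩ ⟨276, 292, 506, 524⟩ ⟨485, 510, 488, 511⟩
   ⟨0, 0, 0, 0⟩ ⟨0, 0, 0, 0⟩)
  (by decide +kernel)

theorem qAA3_168 : Cl ⟨0, false, false, false⟩ ⟨0, false, false, false⟩
    ⟨814, 869, 124, 200⟩ ⟨854, 892, 65, 122⟩ ⟨861, 913, 53, 102⟩ := .mk
  (.L ⟨616, 10, true, false, 207, 5126⟩ ⟨608, 14, true, false, 660, 5666⟩
   ⟨277, 294, 499, 520⟩ ⟨276, 294, 502, 522⟩ ⟨485, 512, 488, 512⟩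
   ⟨0, 0, 0, 0⟩ ⟨0, 0, 0, 0⟩)
  (by decide +kernel)

theorem qAA3_169 : Cl ⟨0, false, false, false⟩ ⟨0, false, false, false⟩
    ⟨817, 869, 129, 200⟩ ⟨854, 892, 65, 122⟩ ⟨893, 917, 13, 36⟩ := .mk
  (.L ⟨616, 10, true, false, 0, 5099⟩ ⟨617, 22, true, false, 3180, 6858⟩
   ⟨277, 294, 500, 520⟩ ⟨279, 291, 512, 527⟩ ⟨483, 506, 490, 511⟩
   ⟨0, 0, 0, 0⟩ ⟨0, 0, 0, 0⟩)
  (by decide +kernel)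

theorem qAA3_170 : Cl ⟨0, false, false, false⟩ ⟨0, false, false, false⟩
    ⟨817, 869, 129, 200⟩ ⟨854, 892, 65, 122⟩ ⟨903, 940, 16, 55⟩ := .mk
  (.L ⟨616, 10, true, false, 0, 5099⟩ ⟨601, 20, true, false, 2633, 6934⟩
   ⟨277, 294, 500, 520⟩ ⟨275, 290, 510, 528⟩ ⟨482, 507, 488, 511⟩
   ⟨0, 0, 0, 0⟩ ⟨0, 0, 0, 0⟩)
  (by decide +kernel)

theorem qAA3_171 : Cl ⟨0, false, false, false⟩ ⟨0, false, false, false⟩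
    ⟨817, 869, 129, 200⟩ ⟨854, 892, 65, 122⟩ ⟨891, 930, 25, 64⟩ := .mk
  (.L ⟨616, 10, true, false, 0, 5099⟩ ⟨605, 19, true, false, 2271, 6600⟩
   ⟨277, 294, 500, 520⟩ ⟨276, 291, 509, 526⟩ ⟨484, 508, 489, 511⟩
   ⟨0, 0, 0, 0⟩ ⟨0, 0, 0, 0⟩)
  (by decide +kernel)

theorem qAA3_172 : Cl ⟨0, false, false, false⟩ ⟨0, false, false, false⟩
    ⟨820, 869, 134, 200⟩ ⟨854, 892, 65, 122⟩ ⟨916, 1001, 0, 27⟩ := .mk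
  (.L ⟨616, 10, true, false, 0, 5072⟩ ⟨573, 26, true, false, 3760, 7457⟩
   ⟨277, 293, 500, 520⟩ ⟨269, 288, 515, 532⟩ ⟨480, 504, 486, 510⟩
   ⟨0, 0, 0, 0⟩ ⟨0, 0, 0, 0⟩)
  (by decide +kernel)

theorem qAA3_173 : Cl ⟨0, false, false, false⟩ ⟨0, false, false, false⟩
    ⟨820, 869, 134, 200⟩ ⟨854, 892, 65, 122⟩ ⟨920, 1001, 0, 42⟩ := .mk
  (.L ⟨616, 10, true, false, 0, 5072⟩ ⟨571, 24, true, false, 3314, 7457⟩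
   ⟨277, 293, 500, 520⟩ ⟨268, 288, 513, 532⟩ ⟨479, 506, 485, 510⟩
   ⟨0, 0, 0, 0⟩ ⟨0, 0, 0, 0⟩)
  (by decide +kernel)

theorem qAA3_174 : Cl ⟨0, false, false, false⟩ ⟨0, false, false, false⟩
    ⟨820, 869, 134, 200⟩ ⟨854, 892, 65, 122⟩ ⟨908, 1001, 0, 50⟩ := .mk
  (.L ⟨616, 10, true, false, 0, 5072⟩ ⟨570, 23, true, false, 2992, 7457⟩
   ⟨277, 293, 500, 520⟩ ⟨268, 289, 511, 532⟩ ⟨479, 507, 485, 511⟩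
   ⟨0, 0, 0, 0⟩ ⟨0, 0, 0, 0⟩)
  (by decide +kernel)

theorem qAA3_175 : Cl ⟨0, false, false, false⟩ ⟨0, false, false, false⟩
    ⟨816, 868, 119, 196⟩ ⟨835, 885, 103, 149⟩ ⟨835, 885, 103, 149⟩ := .mk
  (.L ⟨616, 6, true, false, 1280, 3747⟩ ⟨616, 6, true, false, 1280, 3747⟩
   ⟨277, 295, 495, 515⟩ ⟨277, 295, 495, 515⟩ ⟨487, 513, 488, 512⟩
   ⟨0, 0, 0, 0⟩ ⟨0, 0, 0, 0⟩)
  (by decide +kernel)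

theorem qAA3_176 : Cl ⟨0, false, false, false⟩ ⟨0, false, false, false⟩
    ⟨817, 868, 129, 196⟩ ⟨835, 885, 103, 149⟩ ⟨859, 886, 25, 50⟩ := .mk
  (.L ⟨616, 6, true, false, 963, 3737⟩ ⟨635, 19, true, false, 2536, 6128⟩
   ⟨277, 295, 496, 515⟩ ⟨282, 294, 509, 524⟩ ⟨483, 506, 492, 513⟩
   ⟨0, 0, 0, 0⟩ ⟨0, 0, 0, 0⟩)
  (by decide +kernel)

theorem qAA3_177 : Cl ⟨0, false, false, false⟩ ⟨0, false, false, false⟩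
    ⟨817, 868, 129, 196⟩ ⟨835, 885, 103, 149⟩ ⟨877, 920, 36, 83⟩ := .mk
  (.L ⟨616, 6, true, false, 963, 3737⟩ ⟨609, 16, true, false, 1571, 6054⟩
   ⟨277, 295, 496, 515⟩ ⟨276, 292, 506, 524⟩ ⟨483, 507, 488, 512⟩
   ⟨0, 0, 0, 0⟩ ⟨0, 0, 0, 0⟩)
  (by decide +kernel)

theorem qAA3_178 : Cl ⟨0, false, false, false⟩ ⟨0, false, false, false⟩
    ⟨816, 868, 124, 196⟩ ⟨835, 885, 103, 149⟩ ⟨861, 913, 53, 102⟩ := .mk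
  (.L ⟨616, 6, true, false, 1121, 3747⟩ ⟨609, 13, true, false, 668, 5504⟩
   ⟨277, 295, 495, 515⟩ ⟨276, 294, 502, 522⟩ ⟨483, 509, 488, 512⟩
   ⟨0, 0, 0, 0⟩ ⟨0, 0, 0, 0⟩)
  (by decide +kernel)

theorem qAA3_179 : Cl ⟨0, false, false, false⟩ ⟨0, false, false, false⟩
    ⟨817, 868, 129, 196⟩ ⟨835, 885, 103, 149⟩ ⟨893, 917, 13, 36⟩ := .mk
  (.L ⟨616, 6, true, false, 963, 3737⟩ ⟨618, 22, true, false, 3186, 6712⟩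
   ⟨277, 295, 496, 515⟩ ⟨279, 291, 512, 526⟩ ⟨482, 504, 491, 511⟩
   ⟨0, 0, 0, 0⟩ ⟨0, 0, 0, 0⟩)
  (by decide +kernel)

theorem qAA3_180 : Cl ⟨0, false, false, false⟩ ⟨0, false, false, false⟩
    ⟨817, 868, 129, 196⟩ ⟨835, 885, 103, 149⟩ ⟨903, 940, 16, 55⟩ := .mk
  (.L ⟨616, 6, true, false, 963, 3737⟩ ⟨602, 20, true, false, 2639, 6785⟩
   ⟨277, 295, 496, 515⟩ ⟨275, 290, 510, 527⟩ ⟨481, 505, 488, 511⟩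
   ⟨0, 0, 0, 0⟩ ⟨0, 0, 0, 0⟩)
  (by decide +kernel)

theorem qAA3_181 : Cl ⟨0, false, false, false⟩ ⟨0, false, false, false⟩
    ⟨817, 868, 129, 196⟩ ⟨835, 885, 103, 149⟩ ⟨891, 930, 25, 64⟩ := .mk
  (.L ⟨616, 6, true, false, 963, 3737⟩ ⟨606, 19, true, false, 2278, 6452⟩
   ⟨277, 295, 496, 515⟩ ⟨276, 291, 509, 526⟩ ⟨482, 505, 489, 511⟩
   ⟨0, 0, 0, 0⟩ ⟨0, 0, 0, 0⟩)
  (by decide +kernel)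

theorem qAA3_182 : Cl ⟨0, false, false, false⟩ ⟨0, false, false, false⟩
    ⟨820, 868, 134, 196⟩ ⟨835, 885, 103, 149⟩ ⟨916, 1001, 0, 27⟩ := .mk
  (.L ⟨616, 6, true, false, 805, 3706⟩ ⟨574, 25, true, false, 3765, 7312⟩
   ⟨277, 294, 496, 515⟩ ⟨269, 288, 515, 532⟩ ⟨477, 502, 486, 510⟩
   ⟨0, 0, 0, 0⟩ ⟨0, 0, 0, 0⟩)
  (by decide +kernel)

theorem qAA3_183 : Cl ⟨0, false, false, false⟩ ⟨0, false, false, false⟩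
    ⟨820, 868, 134, 196⟩ ⟨835, 885, 103, 149⟩ ⟨920, 1001, 0, 42⟩ := .mk
  (.L ⟨616, 6, true, false, 805, 3706⟩ ⟨572, 22, true, false, 3320, 7312⟩
   ⟨277, 294, 496, 515⟩ ⟨269, 288, 513, 532⟩ ⟨477, 503, 486, 510⟩
   ⟨0, 0, 0, 0⟩ ⟨0, 0, 0, 0⟩)
  (by decide +kernel)

theorem qAA3_184 : Cl ⟨0, false, false, false⟩ ⟨0, false, false, false⟩
    ⟨820, 868, 134, 196⟩ ⟨835, 885, 103, 149⟩ ⟨908, 1001, 0, 50⟩ := .mk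
  (.L ⟨616, 6, true, false, 805, 3706⟩ ⟨571, 22, true, false, 2998, 7312⟩
   ⟨277, 294, 496, 515⟩ ⟨268, 289, 512, 532⟩ ⟨477, 503, 485, 511⟩
   ⟨0, 0, 0, 0⟩ ⟨0, 0, 0, 0⟩)
  (by decide +kernel)

theorem qAA3_185 : Cl ⟨0, false, false, false⟩ ⟨0, false, false, false⟩
    ⟨817, 870, 129, 203⟩ ⟨859, 886, 25, 50⟩ ⟨859, 886, 25, 50⟩ := .mk
  (.L ⟨632, 20, true, false, 2524, 6376⟩ ⟨632, 20, true, false, 2524, 6376⟩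
   ⟨281, 294, 509, 525⟩ ⟨281, 294, 509, 525⟩ ⟨489, 511, 490, 510⟩
   ⟨0, 0, 0, 0⟩ ⟨0, 0, 0, 0⟩)
  (by decide +kernel)

theorem qAA3_186 : Cl ⟨0, false, false, false⟩ ⟨0, false, false, false⟩
    ⟨817, 870, 129, 203⟩ ⟨859, 886, 25, 50⟩ ⟨877, 920, 36, 83⟩ := .mk
  (.L ⟨632, 20, true, false, 2524, 6376⟩ ⟨606, 17, true, false, 1556, 6310⟩
   ⟨281, 294, 509, 525⟩ ⟨276, 292, 506, 525⟩ ⟨489, 512, 488, 509⟩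
   ⟨0, 0, 0, 0⟩ ⟨0, 0, 0, 0⟩)
  (by decide +kernel)

theorem qAA3_187 : Cl ⟨0, false, false, false⟩ ⟨0, false, false, false⟩
    ⟨817, 869, 129, 200⟩ ⟨859, 886, 25, 50⟩ ⟨861, 913, 53, 102⟩ := .mk
  (.L ⟨633, 19, true, false, 2530, 6270⟩ ⟨608, 14, true, false, 823, 5641⟩
   ⟨282, 294, 509, 524⟩ ⟨276, 293, 503, 522⟩ ⟨490, 513, 487, 508⟩
   ⟨0, 0, 0, 0⟩ ⟨0, 0, 0, 0⟩)
  (by decide +kernel)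

theorem qAA3_188 : Cl ⟨0, false, false, false⟩ ⟨0, false, false, false⟩
    ⟨817, 870, 129, 203⟩ ⟨859, 886, 25, 50⟩ ⟨893, 917, 13, 36⟩ := .mk
  (.L ⟨632, 20, true, false, 2524, 6376⟩ ⟨616, 22, true, false, 3175, 6968⟩
   ⟨281, 294, 509, 525⟩ ⟨278, 291, 512, 527⟩ ⟨488, 509, 489, 508⟩
   ⟨0, 0, 0, 0⟩ ⟨0, 0, 0, 0⟩)
  (by decide +kernel)

theorem qAA3_189 : Cl ⟨0, false, false, false⟩ ⟨0, false, false, false⟩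
    ⟨817, 870, 129, 203⟩ ⟨859, 886, 25, 50⟩ ⟨903, 940, 16, 55⟩ := .mk
  (.L ⟨632, 20, true, false, 2524, 6376⟩ ⟨600, 21, true, false, 2627, 7046⟩
   ⟨281, 294, 509, 525⟩ ⟨275, 290, 510, 528⟩ ⟨487, 510, 487, 508⟩
   ⟨0, 0, 0, 0⟩ ⟨0, 0, 0, 0⟩)
  (by decide +kernel)

theorem qAA3_190 : Cl ⟨0, false, false, false⟩ ⟨0, false, false, false⟩
    ⟨817, 870, 129, 203⟩ ⟨859, 886, 25, 50⟩ ⟨891, 930, 25, 64⟩ := .mk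
  (.L ⟨632, 20, true, false, 2524, 6376⟩ ⟨604, 19, true, false, 2265, 6711⟩
   ⟨281, 294, 509, 525⟩ ⟨275, 291, 508, 527⟩ ⟨487, 511, 487, 508⟩
   ⟨0, 0, 0, 0⟩ ⟨0, 0, 0, 0⟩)
  (by decide +kernel)

theorem qAA3_191 : Cl ⟨0, false, false, false⟩ ⟨0, false, false, false⟩
    ⟨820, 870, 134, 203⟩ ⟨859, 886, 25, 50⟩ ⟨916, 1001, 0, 27⟩ := .mk
  (.L ⟨632, 20, true, false, 2686, 6353⟩ ⟨575, 26, true, false, 3754, 7563⟩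
   ⟨281, 294, 510, 524⟩ ⟨269, 288, 515, 533⟩ ⟨484, 506, 485, 507⟩
   ⟨0, 0, 0, 0⟩ ⟨0, 0, 0, 0⟩)
  (by decide +kernel)

/-- The pairs of the file. -/
def rAA3 : List Pq := [
  ⟨4, 19, ⟨820, 868, 134, 178⟩, ⟨771, 876, 304, 435⟩, ⟨908, 1001, 0, 50⟩⟩,
  ⟨8, 8, ⟨812, 859, 119, 193⟩, ⟨728, 756, 126, 152⟩, ⟨728, 756, 126, 152⟩⟩,
  ⟨8, 6, ⟨816, 859, 119, 193⟩, ⟨728, 756, 126, 152⟩, ⟨816, 868, 119, 196⟩⟩,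
  ⟨8, 7, ⟨816, 859, 119, 188⟩, ⟨728, 756, 126, 152⟩, ⟨795, 865, 177, 255⟩⟩,
  ⟨8, 11, ⟨814, 859, 124, 193⟩, ⟨728, 756, 126, 152⟩, ⟨812, 833, 57, 77⟩⟩,
  ⟨8, 9, ⟨814, 859, 124, 193⟩, ⟨728, 756, 126, 152⟩, ⟨854, 892, 65, 122⟩⟩,
  ⟨8, 10, ⟨816, 859, 119, 193⟩, ⟨728, 756, 126, 152⟩, ⟨835, 885, 103, 149⟩⟩,
  ⟨8, 14, ⟨817, 859, 129, 193⟩, ⟨728, 756, 126, 152⟩, ⟨859, 886, 25, 50⟩⟩,
  ⟨8, 12, ⟨817, 859, 129, 193⟩, ⟨728, 756, 126, 152⟩, ⟨877, 920, 36, 83⟩⟩,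
  ⟨8, 13, ⟨814, 859, 124, 193⟩, ⟨728, 756, 126, 152⟩, ⟨861, 913, 53, 102⟩⟩,
  ⟨8, 17, ⟨817, 859, 129, 193⟩, ⟨728, 756, 126, 152⟩, ⟨893, 917, 13, 36⟩⟩,
  ⟨8, 15, ⟨817, 859, 129, 193⟩, ⟨728, 756, 126, 152⟩, ⟨903, 940, 16, 55⟩⟩,
  ⟨8, 16, ⟨817, 859, 129, 193⟩, ⟨728, 756, 126, 152⟩, ⟨891, 930, 25, 64⟩⟩,
  ⟨8, 20, ⟨820, 859, 134, 193⟩, ⟨728, 756, 126, 152⟩, ⟨916, 1001, 0, 27⟩⟩,
  ⟨8, 18, ⟨820, 859, 134, 193⟩, ⟨728, 756, 126, 152⟩, ⟨920, 1001, 0, 42⟩⟩,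
  ⟨8, 19, ⟨820, 859, 134, 193⟩, ⟨728, 756, 126, 152⟩, ⟨908, 1001, 0, 50⟩⟩,
  ⟨6, 6, ⟨816, 868, 119, 196⟩, ⟨816, 868, 119, 196⟩, ⟨816, 868, 119, 196⟩⟩,
  ⟨6, 7, ⟨816, 868, 119, 188⟩, ⟨816, 868, 119, 196⟩, ⟨795, 865, 177, 255⟩⟩,
  ⟨6, 11, ⟨816, 868, 124, 196⟩, ⟨816, 868, 119, 196⟩, ⟨812, 833, 57, 77⟩⟩,
  ⟨6, 9, ⟨816, 868, 124, 196⟩, ⟨816, 868, 119, 196⟩, ⟨854, 892, 65, 122⟩⟩,
  ⟨6, 10, ⟨816, 868, 119, 196⟩, ⟨816, 868, 119, 196⟩, ⟨835, 885, 103, 149⟩⟩,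
  ⟨6, 14, ⟨817, 868, 129, 196⟩, ⟨816, 868, 119, 196⟩, ⟨859, 886, 25, 50⟩⟩,
  ⟨6, 12, ⟨817, 868, 129, 196⟩, ⟨816, 868, 119, 196⟩, ⟨877, 920, 36, 83⟩⟩,
  ⟨6, 13, ⟨816, 868, 124, 196⟩, ⟨816, 868, 119, 196⟩, ⟨861, 913, 53, 102⟩⟩,
  ⟨6, 17, ⟨817, 868, 129, 196⟩, ⟨816, 868, 119, 196⟩, ⟨893, 917, 13, 36⟩⟩,
  ⟨6, 15, ⟨817, 868, 129, 196⟩, ⟨816, 868, 119, 196⟩, ⟨903, 940, 16, 55⟩⟩,
  ⟨6, 16, ⟨817, 868, 129, 196⟩, ⟨816, 868, 119, 196⟩, ⟨891, 930, 25, 64⟩⟩,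
  ⟨6, 20, ⟨820, 868, 134, 196⟩, ⟨816, 868, 119, 196⟩, ⟨916, 1001, 0, 27⟩⟩,
  ⟨6, 18, ⟨820, 868, 134, 196⟩, ⟨816, 868, 119, 196⟩, ⟨920, 1001, 0, 42⟩⟩,
  ⟨6, 19, ⟨820, 868, 134, 196⟩, ⟨816, 868, 119, 196⟩, ⟨908, 1001, 0, 50⟩⟩,
  ⟨7, 7, ⟨816, 868, 109, 188⟩, ⟨795, 865, 177, 255⟩, ⟨795, 865, 177, 255⟩⟩,
  ⟨7, 11, ⟨816, 868, 124, 188⟩, ⟨795, 865, 177, 255⟩, ⟨812, 833, 57, 77⟩⟩,
  ⟨7, 9, ⟨816, 868, 124, 188⟩, ⟨795, 865, 177, 255⟩, ⟨854, 892, 65, 122⟩⟩,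
  ⟨7, 10, ⟨816, 868, 119, 188⟩, ⟨795, 865, 177, 255⟩, ⟨835, 885, 103, 149⟩⟩,
  ⟨7, 14, ⟨817, 868, 129, 188⟩, ⟨795, 865, 177, 255⟩, ⟨859, 886, 25, 50⟩⟩,
  ⟨7, 12, ⟨817, 868, 129, 188⟩, ⟨795, 865, 177, 255⟩, ⟨877, 920, 36, 83⟩⟩,
  ⟨7, 13, ⟨816, 868, 124, 188⟩, ⟨795, 865, 177, 255⟩, ⟨861, 913, 53, 102⟩⟩,
  ⟨7, 17, ⟨817, 868, 129, 188⟩, ⟨795, 865, 177, 255⟩, ⟨893, 917, 13, 36⟩⟩,
  ⟨7, 15, ⟨817, 868, 129, 188⟩, ⟨795, 865, 177, 255⟩, ⟨903, 940, 16, 55⟩⟩,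
  ⟨7, 16, ⟨817, 868, 129, 188⟩, ⟨795, 865, 177, 255⟩, ⟨891, 930, 25, 64⟩⟩,
  ⟨7, 20, ⟨820, 868, 134, 188⟩, ⟨795, 865, 177, 255⟩, ⟨916, 1001, 0, 27⟩⟩,
  ⟨7, 18, ⟨820, 868, 134, 188⟩, ⟨795, 865, 177, 255⟩, ⟨920, 1001, 0, 42⟩⟩,
  ⟨7, 19, ⟨820, 868, 134, 188⟩, ⟨795, 865, 177, 255⟩, ⟨908, 1001, 0, 50⟩⟩,
  ⟨11, 11, ⟨814, 869, 124, 200⟩, ⟨812, 833, 57, 77⟩, ⟨812, 833, 57, 77⟩⟩,
  ⟨11, 9, ⟨814, 869, 124, 200⟩, ⟨812, 833, 57, 77⟩, ⟨854, 892, 65, 122⟩⟩,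
  ⟨11, 10, ⟨816, 868, 124, 196⟩, ⟨812, 833, 57, 77⟩, ⟨835, 885, 103, 149⟩⟩,
  ⟨11, 14, ⟨817, 869, 129, 200⟩, ⟨812, 833, 57, 77⟩, ⟨859, 886, 25, 50⟩⟩,
  ⟨11, 12, ⟨817, 869, 129, 200⟩, ⟨812, 833, 57, 77⟩, ⟨877, 920, 36, 83⟩⟩,
  ⟨11, 13, ⟨814, 869, 124, 200⟩, ⟨812, 833, 57, 77⟩, ⟨861, 913, 53, 102⟩⟩,
  ⟨11, 17, ⟨817, 869, 129, 200⟩, ⟨812, 833, 57, 77⟩, ⟨893, 917, 13, 36⟩⟩,
  ⟨11, 15, ⟨817, 869, 129, 200⟩, ⟨812, 833, 57, 77⟩, ⟨903, 940, 16, 55⟩⟩,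
  ⟨11, 16, ⟨817, 869, 129, 200⟩, ⟨812, 833, 57, 77⟩, ⟨891, 930, 25, 64⟩⟩,
  ⟨11, 20, ⟨820, 869, 134, 200⟩, ⟨812, 833, 57, 77⟩, ⟨916, 1001, 0, 27⟩⟩,
  ⟨11, 18, ⟨820, 869, 134, 200⟩, ⟨812, 833, 57, 77⟩, ⟨920, 1001, 0, 42⟩⟩,
  ⟨11, 19, ⟨820, 869, 134, 200⟩, ⟨812, 833, 57, 77⟩, ⟨908, 1001, 0, 50⟩⟩,
  ⟨9, 9, ⟨814, 869, 124, 200⟩, ⟨854, 892, 65, 122⟩, ⟨854, 892, 65, 122⟩⟩,
  ⟨9, 10, ⟨816, 868, 124, 196⟩, ⟨854, 892, 65, 122⟩, ⟨835, 885, 103, 149⟩⟩,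
  ⟨9, 14, ⟨817, 869, 129, 200⟩, ⟨854, 892, 65, 122⟩, ⟨859, 886, 25, 50⟩⟩,
  ⟨9, 12, ⟨817, 869, 129, 200⟩, ⟨854, 892, 65, 122⟩, ⟨877, 920, 36, 83⟩⟩,
  ⟨9, 13, ⟨814, 869, 124, 200⟩, ⟨854, 892, 65, 122⟩, ⟨861, 913, 53, 102⟩⟩,
  ⟨9, 17, ⟨817, 869, 129, 200⟩, ⟨854, 892, 65, 122⟩, ⟨893, 917, 13, 36⟩⟩,
  ⟨9, 15, ⟨817, 869, 129, 200⟩, ⟨854, 892, 65, 122⟩, ⟨903, 940, 16, 55⟩⟩,
  ⟨9, 16, ⟨817, 869, 129, 200⟩, ⟨854, 892, 65, 122⟩, ⟨891, 930, 25, 64⟩⟩,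
  ⟨9, 20, ⟨820, 869, 134, 200⟩, ⟨854, 892, 65, 122⟩, ⟨916, 1001, 0, 27⟩⟩,
  ⟨9, 18, ⟨820, 869, 134, 200⟩, ⟨854, 892, 65, 122⟩, ⟨920, 1001, 0, 42⟩⟩,
  ⟨9, 19, ⟨820, 869, 134, 200⟩, ⟨854, 892, 65, 122⟩, ⟨908, 1001, 0, 50⟩⟩,
  ⟨10, 10, ⟨816, 868, 119, 196⟩, ⟨835, 885, 103, 149⟩, ⟨835, 885, 103, 149⟩⟩,
  ⟨10, 14, ⟨817, 868, 129, 196⟩, ⟨835, 885, 103, 149⟩, ⟨859, 886, 25, 50⟩⟩,
  ⟨10, 12, ⟨817, 868, 129, 196⟩, ⟨835, 885, 103, 149⟩, ⟨877, 920, 36, 83⟩⟩,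
  ⟨10, 13, ⟨816, 868, 124, 196⟩, ⟨835, 885, 103, 149⟩, ⟨861, 913, 53, 102⟩⟩,
  ⟨10, 17, ⟨817, 868, 129, 196⟩, ⟨835, 885, 103, 149⟩, ⟨893, 917, 13, 36⟩⟩,
  ⟨10, 15, ⟨817, 868, 129, 196⟩, ⟨835, 885, 103, 149⟩, ⟨903, 940, 16, 55⟩⟩,
  ⟨10, 16, ⟨817, 868, 129, 196⟩, ⟨835, 885, 103, 149⟩, ⟨891, 930, 25, 64⟩⟩,
  ⟨10, 20, ⟨820, 868, 134, 196⟩, ⟨835, 885, 103, 149⟩, ⟨916, 1001, 0, 27⟩⟩,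
  ⟨10, 18, ⟨820, 868, 134, 196⟩, ⟨835, 885, 103, 149⟩, ⟨920, 1001, 0, 42⟩⟩,
  ⟨10, 19, ⟨820, 868, 134, 196⟩, ⟨835, 885, 103, 149⟩, ⟨908, 1001, 0, 50⟩⟩,
  ⟨14, 14, ⟨817, 870, 129, 203⟩, ⟨859, 886, 25, 50⟩, ⟨859, 886, 25, 50⟩⟩,
  ⟨14, 12, ⟨817, 870, 129, 203⟩, ⟨859, 886, 25, 50⟩, ⟨877, 920, 36, 83⟩⟩,
  ⟨14, 13, ⟨817, 869, 129, 200⟩, ⟨859, 886, 25, 50⟩, ⟨861, 913, 53, 102⟩⟩,
  ⟨14, 17, ⟨817, 870, 129, 203⟩, ⟨859, 886, 25, 50⟩, ⟨893, 917, 13, 36⟩⟩,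
  ⟨14, 15, ⟨817, 870, 129, 203⟩, ⟨859, 886, 25, 50⟩, ⟨903, 940, 16, 55⟩⟩,
  ⟨14, 16, ⟨817, 870, 129, 203⟩, ⟨859, 886, 25, 50⟩, ⟨891, 930, 25, 64⟩⟩,
  ⟨14, 20, ⟨820, 870, 134, 203⟩, ⟨859, 886, 25, 50⟩, ⟨916, 1001, 0, 27⟩⟩]

theorem rAA3_ok : ∀ p ∈ rAA3, Cr false false p :=
  List.forall_mem_cons.2 ⟨qAA3_109,
  List.forall_mem_cons.2 ⟨qAA3_110,
  List.forall_mem_cons.2 ⟨qAA3_111,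
  List.forall_mem_cons.2 ⟨qAA3_112,
  List.forall_mem_cons.2 ⟨qAA3_113,
  List.forall_mem_cons.2 ⟨qAA3_114,
  List.forall_mem_cons.2 ⟨qAA3_115,
  List.forall_mem_cons.2 ⟨qAA3_116,
  List.forall_mem_cons.2 ⟨qAA3_117,
  List.forall_mem_cons.2 ⟨qAA3_118,
  List.forall_mem_cons.2 ⟨qAA3_119,
  List.forall_mem_cons.2 ⟨qAA3_120,
  List.forall_mem_cons.2 ⟨qAA3_121,
  List.forall_mem_cons.2 ⟨qAA3_122,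
  List.forall_mem_cons.2 ⟨qAA3_123,
  List.forall_mem_cons.2 ⟨qAA3_124,
  List.forall_mem_cons.2 ⟨qAA3_125,
  List.forall_mem_cons.2 ⟨qAA3_126,
  List.forall_mem_cons.2 ⟨qAA3_127,
  List.forall_mem_cons.2 ⟨qAA3_128,
  List.forall_mem_cons.2 ⟨qAA3_129,
  List.forall_mem_cons.2 ⟨qAA3_130,
  List.forall_mem_cons.2 ⟨qAA3_131,
  List.forall_mem_cons.2 ⟨qAA3_132,
  List.forall_mem_cons.2 ⟨qAA3_133,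
  List.forall_mem_cons.2 ⟨qAA3_134,
  List.forall_mem_cons.2 ⟨qAA3_135,
  List.forall_mem_cons.2 ⟨qAA3_136,
  List.forall_mem_cons.2 ⟨qAA3_137,
  List.forall_mem_cons.2 ⟨qAA3_138,
  List.forall_mem_cons.2 ⟨qAA3_139,
  List.forall_mem_cons.2 ⟨qAA3_140,
  List.forall_mem_cons.2 ⟨qAA3_141,
  List.forall_mem_cons.2 ⟨qAA3_142,
  List.forall_mem_cons.2 ⟨qAA3_143,
  List.forall_mem_cons.2 ⟨qAA3_144,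
  List.forall_mem_cons.2 ⟨qAA3_145,
  List.forall_mem_cons.2 ⟨qAA3_146,
  List.forall_mem_cons.2 ⟨qAA3_147,
  List.forall_mem_cons.2 ⟨qAA3_148,
  List.forall_mem_cons.2 ⟨qAA3_149,
  List.forall_mem_cons.2 ⟨qAA3_150,
  List.forall_mem_cons.2 ⟨qAA3_151,
  List.forall_mem_cons.2 ⟨qAA3_152,
  List.forall_mem_cons.2 ⟨qAA3_153,
  List.forall_mem_cons.2 ⟨qAA3_154,
  List.forall_mem_cons.2 ⟨qAA3_155,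
  List.forall_mem_cons.2 ⟨qAA3_156,
  List.forall_mem_cons.2 ⟨qAA3_157,
  List.forall_mem_cons.2 ⟨qAA3_158,
  List.forall_mem_cons.2 ⟨qAA3_159,
  List.forall_mem_cons.2 ⟨qAA3_160,
  List.forall_mem_cons.2 ⟨qAA3_161,
  List.forall_mem_cons.2 ⟨qAA3_162,
  List.forall_mem_cons.2 ⟨qAA3_163,
  List.forall_mem_cons.2 ⟨qAA3_164,
  List.forall_mem_cons.2 ⟨qAA3_165,
  List.forall_mem_cons.2 ⟨qAA3_166,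
  List.forall_mem_cons.2 ⟨qAA3_167,
  List.forall_mem_cons.2 ⟨qAA3_168,
  List.forall_mem_cons.2 ⟨qAA3_169,
  List.forall_mem_cons.2 ⟨qAA3_170,
  List.forall_mem_cons.2 ⟨qAA3_171,
  List.forall_mem_cons.2 ⟨qAA3_172,
  List.forall_mem_cons.2 ⟨qAA3_173,
  List.forall_mem_cons.2 ⟨qAA3_174,
  List.forall_mem_cons.2 ⟨qAA3_175,
  List.forall_mem_cons.2 ⟨qAA3_176,
  List.forall_mem_cons.2 ⟨qAA3_177,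
  List.forall_mem_cons.2 ⟨qAA3_178,
  List.forall_mem_cons.2 ⟨qAA3_179,
  List.forall_mem_cons.2 ⟨qAA3_180,
  List.forall_mem_cons.2 ⟨qAA3_181,
  List.forall_mem_cons.2 ⟨qAA3_182,
  List.forall_mem_cons.2 ⟨qAA3_183,
  List.forall_mem_cons.2 ⟨qAA3_184,
  List.forall_mem_cons.2 ⟨qAA3_185,
  List.forall_mem_cons.2 ⟨qAA3_186,
  List.forall_mem_cons.2 ⟨qAA3_187,
  List.forall_mem_cons.2 ⟨qAA3_188,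
  List.forall_mem_cons.2 ⟨qAA3_189,
  List.forall_mem_cons.2 ⟨qAA3_190,
  List.forall_mem_cons.2 ⟨qAA3_191,
  List.forall_mem_nil _⟩⟩⟩⟩⟩⟩⟩⟩⟩⟩⟩⟩⟩⟩⟩⟩⟩⟩⟩⟩⟩⟩⟩⟩⟩⟩⟩⟩⟩⟩⟩⟩⟩⟩⟩⟩⟩⟩⟩⟩⟩⟩⟩⟩⟩⟩⟩⟩⟩⟩⟩⟩⟩⟩⟩⟩⟩⟩⟩⟩⟩⟩⟩⟩⟩⟩⟩⟩⟩⟩⟩⟩⟩⟩⟩⟩⟩⟩⟩⟩⟩⟩⟩

end Pool.Agent.S5.Z4
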