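import Pool.Agent.S5.Z4.Tre

/-!
# Inner nodes with four half twists: certificates
-/

set_option autoImplicit false

namespace Pool.Agent.S5.Z4

theorem qAA4_192 : Cl ⟨0, false, false, false⟩ ⟨0, false, false, false⟩
    ⟨820, 870, 134, 203⟩ ⟨859, 886, 25, 50⟩ ⟨920, 1001, 0, 42⟩ := .mk
  (.L ⟨632, 20, true, false, 2686, 6353⟩ ⟨570, 24, true, false, 3308, 7563⟩
   ⟨281, 294, 510, 524⟩ ⟨268, 288, 513, 533⟩ ⟨484, 507, 484, 507⟩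
   ⟨0, 0, 0, 0⟩ ⟨0, 0, 0, 0⟩)
  (by decide +kernel)

theorem qAA4_193 : Cl ⟨0, false, false, false⟩ ⟨0, false, false, false⟩
    ⟨820, 870, 134, 203⟩ ⟨859, 886, 25, 50⟩ ⟨908, 1001, 0, 50⟩ := .mk
  (.L ⟨632, 20, true, false, 2686, 6353⟩ ⟨569, 23, true, false, 2986, 7563⟩
   ⟨281, 294, 510, 524⟩ ⟨268, 289, 511, 533⟩ ⟨484, 509, 484, 508⟩
   ⟨0, 0, 0, 0⟩ ⟨0, 0, 0, 0⟩)
  (by decide +kernel)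

theorem qAA4_194 : Cl ⟨0, false, false, false⟩ ⟨0, false, false, false⟩
    ⟨817, 870, 129, 203⟩ ⟨877, 920, 36, 83⟩ ⟨877, 920, 36, 83⟩ := .mk
  (.L ⟨606, 17, true, false, 1556, 6310⟩ ⟨606, 17, true, false, 1556, 6310⟩
   ⟨276, 292, 506, 525⟩ ⟨276, 292, 506, 525⟩ ⟨487, 513, 489, 511⟩
   ⟨0, 0, 0, 0⟩ ⟨0, 0, 0, 0⟩)
  (by decide +kernel)

theorem qAA4_195 : Cl ⟨0, false, false, false⟩ ⟨0, false, false, false⟩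
    ⟨817, 869, 129, 200⟩ ⟨877, 920, 36, 83⟩ ⟨861, 913, 53, 102⟩ := .mk
  (.L ⟨607, 16, true, false, 1564, 6200⟩ ⟨608, 14, true, false, 823, 5641⟩
   ⟨276, 292, 506, 524⟩ ⟨276, 293, 503, 522⟩ ⟨489, 514, 489, 511⟩
   ⟨0, 0, 0, 0⟩ ⟨0, 0, 0, 0⟩)
  (by decide +kernel)

theorem qAA4_196 : Cl ⟨0, false, false, false⟩ ⟨0, false, false, false⟩
    ⟨817, 870, 129, 203⟩ ⟨877, 920, 36, 83⟩ ⟨893, 917, 13, 36⟩ := .mk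
  (.L ⟨606, 17, true, false, 1556, 6310⟩ ⟨616, 22, true, false, 3175, 6968⟩
   ⟨276, 292, 506, 525⟩ ⟨278, 291, 512, 527⟩ ⟨486, 509, 490, 511⟩
   ⟨0, 0, 0, 0⟩ ⟨0, 0, 0, 0⟩)
  (by decide +kernel)

theorem qAA4_197 : Cl ⟨0, false, false, false⟩ ⟨0, false, false, false⟩
    ⟨817, 870, 129, 203⟩ ⟨877, 920, 36, 83⟩ ⟨903, 940, 16, 55⟩ := .mk
  (.L ⟨606, 17, true, false, 1556, 6310⟩ ⟨600, 21, true, false, 2627, 7046⟩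
   ⟨276, 292, 506, 525⟩ ⟨275, 290, 510, 528⟩ ⟨486, 510, 488, 511⟩
   ⟨0, 0, 0, 0⟩ ⟨0, 0, 0, 0⟩)
  (by decide +kernel)

theorem qAA4_198 : Cl ⟨0, false, false, false⟩ ⟨0, false, false, false⟩
    ⟨817, 870, 129, 203⟩ ⟨877, 920, 36, 83⟩ ⟨891, 930, 25, 64⟩ := .mk
  (.L ⟨606, 17, true, false, 1556, 6310⟩ ⟨604, 19, true, false, 2265, 6711⟩
   ⟨276, 292, 506, 525⟩ ⟨275, 291, 508, 527⟩ ⟨486, 511, 488, 511⟩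
   ⟨0, 0, 0, 0⟩ ⟨0, 0, 0, 0⟩)
  (by decide +kernel)

theorem qAA4_199 : Cl ⟨0, false, false, false⟩ ⟨0, false, false, false⟩
    ⟨820, 870, 134, 203⟩ ⟨877, 920, 36, 83⟩ ⟨916, 1001, 0, 27⟩ := .mk
  (.L ⟨606, 17, true, false, 1722, 6287⟩ ⟨575, 26, true, false, 3754, 7563⟩
   ⟨276, 292, 506, 525⟩ ⟨269, 288, 515, 533⟩ ⟨482, 507, 486, 510⟩
   ⟨0, 0, 0, 0⟩ ⟨0, 0, 0, 0⟩)
  (by decide +kernel)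

theorem qAA4_200 : Cl ⟨0, false, false, false⟩ ⟨0, false, false, false⟩
    ⟨820, 870, 134, 203⟩ ⟨877, 920, 36, 83⟩ ⟨920, 1001, 0, 42⟩ := .mk
  (.L ⟨606, 17, true, false, 1722, 6287⟩ ⟨570, 24, true, false, 3308, 7563⟩
   ⟨276, 292, 506, 525⟩ ⟨268, 288, 513, 533⟩ ⟨482, 508, 485, 510⟩
   ⟨0, 0, 0, 0⟩ ⟨0, 0, 0, 0⟩)
  (by decide +kernel)

theorem qAA4_201 : Cl ⟨0, false, false, false⟩ ⟨0, false, false, false⟩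
    ⟨820, 870, 134, 203⟩ ⟨877, 920, 36, 83⟩ ⟨908, 1001, 0, 50⟩ := .mk
  (.L ⟨606, 17, true, false, 1722, 6287⟩ ⟨569, 23, true, false, 2986, 7563⟩
   ⟨276, 292, 506, 525⟩ ⟨268, 289, 511, 533⟩ ⟨482, 510, 485, 511⟩
   ⟨0, 0, 0, 0⟩ ⟨0, 0, 0, 0⟩)
  (by decide +kernel)

theorem qAA4_202 : Cl ⟨0, false, false, false⟩ ⟨0, false, false, false⟩
    ⟨814, 869, 124, 200⟩ ⟨861, 913, 53, 102⟩ ⟨861, 913, 53, 102⟩ := .mk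
  (.L ⟨608, 14, true, false, 660, 5666⟩ ⟨608, 14, true, false, 660, 5666⟩
   ⟨276, 294, 502, 522⟩ ⟨276, 294, 502, 522⟩ ⟨487, 513, 488, 512⟩
   ⟨0, 0, 0, 0⟩ ⟨0, 0, 0, 0⟩)
  (by decide +kernel)

theorem qAA4_203 : Cl ⟨0, false, false, false⟩ ⟨0, false, false, false⟩
    ⟨817, 869, 129, 200⟩ ⟨861, 913, 53, 102⟩ ⟨893, 917, 13, 36⟩ := .mk
  (.L ⟨608, 14, true, false, 823, 5641⟩ ⟨617, 22, true, false, 3180, 6858⟩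
   ⟨276, 293, 503, 522⟩ ⟨279, 291, 512, 527⟩ ⟨485, 508, 491, 511⟩
   ⟨0, 0, 0, 0⟩ ⟨0, 0, 0, 0⟩)
  (by decide +kernel)

theorem qAA4_204 : Cl ⟨0, false, false, false⟩ ⟨0, false, false, false⟩
    ⟨817, 869, 129, 200⟩ ⟨861, 913, 53, 102⟩ ⟨903, 940, 16, 55⟩ := .mk
  (.L ⟨608, 14, true, false, 823, 5641⟩ ⟨601, 20, true, false, 2633, 6934⟩
   ⟨276, 293, 503, 522⟩ ⟨275, 290, 510, 528⟩ ⟨484, 509, 488, 511⟩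
   ⟨0, 0, 0, 0⟩ ⟨0, 0, 0, 0⟩)
  (by decide +kernel)

theorem qAA4_205 : Cl ⟨0, false, false, false⟩ ⟨0, false, false, false⟩
    ⟨817, 869, 129, 200⟩ ⟨861, 913, 53, 102⟩ ⟨891, 930, 25, 64⟩ := .mk
  (.L ⟨608, 14, true, false, 823, 5641⟩ ⟨605, 19, true, false, 2271, 6600⟩
   ⟨276, 293, 503, 522⟩ ⟨276, 291, 509, 526⟩ ⟨485, 509, 489, 511⟩
   ⟨0, 0, 0, 0⟩ ⟨0, 0, 0, 0⟩)
  (by decide +kernel)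

theorem qAA4_206 : Cl ⟨0, false, false, false⟩ ⟨0, false, false, false⟩
    ⟨820, 869, 134, 200⟩ ⟨861, 913, 53, 102⟩ ⟨916, 1001, 0, 27⟩ := .mk
  (.L ⟨608, 14, true, false, 985, 5616⟩ ⟨573, 26, true, false, 3760, 7457⟩
   ⟨276, 293, 503, 522⟩ ⟨269, 288, 515, 532⟩ ⟨481, 506, 485, 510⟩
   ⟨0, 0, 0, 0⟩ ⟨0, 0, 0, 0⟩)
  (by decide +kernel)

theorem qAA4_207 : Cl ⟨0, false, false, false⟩ ⟨0, false, false, false⟩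
    ⟨820, 869, 134, 200⟩ ⟨861, 913, 53, 102⟩ ⟨920, 1001, 0, 42⟩ := .mk
  (.L ⟨608, 14, true, false, 985, 5616⟩ ⟨571, 24, true, false, 3314, 7457⟩
   ⟨276, 293, 503, 522⟩ ⟨268, 288, 513, 532⟩ ⟨481, 507, 485, 510⟩
   ⟨0, 0, 0, 0⟩ ⟨0, 0, 0, 0⟩)
  (by decide +kernel)

theorem qAA4_208 : Cl ⟨0, false, false, false⟩ ⟨0, false, false, false⟩
    ⟨820, 869, 134, 200⟩ ⟨861, 913, 53, 102⟩ ⟨908, 1001, 0, 50⟩ := .mk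
  (.L ⟨608, 14, true, false, 985, 5616⟩ ⟨570, 23, true, false, 2992, 7457⟩
   ⟨276, 293, 503, 522⟩ ⟨268, 289, 511, 532⟩ ⟨481, 508, 485, 511⟩
   ⟨0, 0, 0, 0⟩ ⟨0, 0, 0, 0⟩)
  (by decide +kernel)

theorem qAA4_209 : Cl ⟨0, false, false, false⟩ ⟨0, false, false, false⟩
    ⟨817, 870, 129, 203⟩ ⟨893, 917, 13, 36⟩ ⟨893, 917, 13, 36⟩ := .mk
  (.L ⟨616, 22, true, false, 3175, 6968⟩ ⟨616, 22, true, false, 3175, 6968⟩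
   ⟨278, 291, 512, 527⟩ ⟨278, 291, 512, 527⟩ ⟨490, 510, 490, 510⟩
   ⟨0, 0, 0, 0⟩ ⟨0, 0, 0, 0⟩)
  (by decide +kernel)

theorem qAA4_210 : Cl ⟨0, false, false, false⟩ ⟨0, false, false, false⟩
    ⟨817, 870, 129, 203⟩ ⟨893, 917, 13, 36⟩ ⟨903, 940, 16, 55⟩ := .mk
  (.L ⟨616, 22, true, false, 3175, 6968⟩ ⟨600, 21, true, false, 2627, 7046⟩
   ⟨278, 291, 512, 527⟩ ⟨275, 290, 510, 528⟩ ⟨489, 511, 489, 509⟩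
   ⟨0, 0, 0, 0⟩ ⟨0, 0, 0, 0⟩)
  (by decide +kernel)

theorem qAA4_211 : Cl ⟨0, false, false, false⟩ ⟨0, false, false, false⟩
    ⟨817, 870, 129, 203⟩ ⟨893, 917, 13, 36⟩ ⟨891, 930, 25, 64⟩ := .mk
  (.L ⟨616, 22, true, false, 3175, 6968⟩ ⟨604, 19, true, false, 2265, 6711⟩
   ⟨278, 291, 512, 527⟩ ⟨275, 291, 508, 527⟩ ⟨489, 512, 489, 510⟩
   ⟨0, 0, 0, 0⟩ ⟨0, 0, 0, 0⟩)
  (by decide +kernel)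

theorem qAA4_212 : Cl ⟨0, false, false, false⟩ ⟨0, false, false, false⟩
    ⟨820, 870, 134, 203⟩ ⟨893, 917, 13, 36⟩ ⟨916, 1001, 0, 27⟩ := .mk
  (.L ⟨616, 22, true, false, 3343, 6946⟩ ⟨575, 26, true, false, 3754, 7563⟩
   ⟨278, 291, 513, 527⟩ ⟨269, 288, 515, 533⟩ ⟨486, 508, 486, 509⟩
   ⟨0, 0, 0, 0⟩ ⟨0, 0, 0, 0⟩)
  (by decide +kernel)

theorem qAA4_213 : Cl ⟨0, false, false, false⟩ ⟨0, false, false, false⟩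
    ⟨820, 870, 134, 203⟩ ⟨893, 917, 13, 36⟩ ⟨920, 1001, 0, 42⟩ := .mk
  (.L ⟨616, 22, true, false, 3343, 6946⟩ ⟨570, 24, true, false, 3308, 7563⟩
   ⟨278, 291, 513, 527⟩ ⟨268, 288, 513, 533⟩ ⟨486, 509, 485, 509⟩
   ⟨0, 0, 0, 0⟩ ⟨0, 0, 0, 0⟩)
  (by decide +kernel)

theorem qAA4_214 : Cl ⟨0, false, false, false⟩ ⟨0, false, false, false⟩
    ⟨820, 870, 134, 203⟩ ⟨893, 917, 13, 36⟩ ⟨908, 1001, 0, 50⟩ := .mk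
  (.L ⟨616, 22, true, false, 3343, 6946⟩ ⟨569, 23, true, false, 2986, 7563⟩
   ⟨278, 291, 513, 527⟩ ⟨268, 289, 511, 533⟩ ⟨486, 511, 485, 509⟩
   ⟨0, 0, 0, 0⟩ ⟨0, 0, 0, 0⟩)
  (by decide +kernel)

theorem qAA4_215 : Cl ⟨0, false, false, false⟩ ⟨0, false, false, false⟩
    ⟨817, 870, 129, 203⟩ ⟨903, 940, 16, 55⟩ ⟨903, 940, 16, 55⟩ := .mk
  (.L ⟨600, 21, true, false, 2627, 7046⟩ ⟨600, 21, true, false, 2627, 7046⟩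
   ⟨275, 290, 510, 528⟩ ⟨275, 290, 510, 528⟩ ⟨488, 512, 489, 511⟩
   ⟨0, 0, 0, 0⟩ ⟨0, 0, 0, 0⟩)
  (by decide +kernel)

theorem qAA4_216 : Cl ⟨0, false, false, false⟩ ⟨0, false, false, false⟩
    ⟨817, 870, 129, 203⟩ ⟨903, 940, 16, 55⟩ ⟨891, 930, 25, 64⟩ := .mk
  (.L ⟨600, 21, true, false, 2627, 7046⟩ ⟨604, 19, true, false, 2265, 6711⟩
   ⟨275, 290, 510, 528⟩ ⟨275, 291, 508, 527⟩ ⟨488, 513, 489, 511⟩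
   ⟨0, 0, 0, 0⟩ ⟨0, 0, 0, 0⟩)
  (by decide +kernel)

theorem qAA4_217 : Cl ⟨0, false, false, false⟩ ⟨0, false, false, false⟩
    ⟨820, 870, 134, 203⟩ ⟨903, 940, 16, 55⟩ ⟨916, 1001, 0, 27⟩ := .mk
  (.L ⟨600, 21, true, false, 2797, 7025⟩ ⟨575, 26, true, false, 3754, 7563⟩
   ⟨275, 289, 511, 528⟩ ⟨269, 288, 515, 533⟩ ⟨485, 509, 487, 510⟩
   ⟨0, 0, 0, 0⟩ ⟨0, 0, 0, 0⟩)
  (by decide +kernel)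

theorem qAA4_218 : Cl ⟨0, false, false, false⟩ ⟨0, false, false, false⟩
    ⟨820, 870, 134, 203⟩ ⟨903, 940, 16, 55⟩ ⟨920, 1001, 0, 42⟩ := .mk
  (.L ⟨600, 21, true, false, 2797, 7025⟩ ⟨570, 24, true, false, 3308, 7563⟩
   ⟨275, 289, 511, 528⟩ ⟨268, 288, 513, 533⟩ ⟨485, 510, 486, 510⟩
   ⟨0, 0, 0, 0⟩ ⟨0, 0, 0, 0⟩)
  (by decide +kernel)

theorem qAA4_219 : Cl ⟨0, false, false, false⟩ ⟨0, false, false, false⟩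
    ⟨820, 870, 134, 203⟩ ⟨903, 940, 16, 55⟩ ⟨908, 1001, 0, 50⟩ := .mk
  (.L ⟨600, 21, true, false, 2797, 7025⟩ ⟨569, 23, true, false, 2986, 7563⟩
   ⟨275, 289, 511, 528⟩ ⟨268, 289, 511, 533⟩ ⟨485, 512, 486, 511⟩
   ⟨0, 0, 0, 0⟩ ⟨0, 0, 0, 0⟩)
  (by decide +kernel)

theorem qAA4_220 : Cl ⟨0, false, false, false⟩ ⟨0, false, false, false⟩
    ⟨817, 870, 129, 203⟩ ⟨891, 930, 25, 64⟩ ⟨891, 930, 25, 64⟩ := .mk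
  (.L ⟨604, 19, true, false, 2265, 6711⟩ ⟨604, 19, true, false, 2265, 6711⟩
   ⟨275, 291, 508, 527⟩ ⟨275, 291, 508, 527⟩ ⟨487, 513, 489, 511⟩
   ⟨0, 0, 0, 0⟩ ⟨0, 0, 0, 0⟩)
  (by decide +kernel)

theorem qAA4_221 : Cl ⟨0, false, false, false⟩ ⟨0, false, false, false⟩
    ⟨820, 870, 134, 203⟩ ⟨891, 930, 25, 64⟩ ⟨916, 1001, 0, 27⟩ := .mk
  (.L ⟨604, 19, true, false, 2432, 6688⟩ ⟨575, 26, true, false, 3754, 7563⟩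
   ⟨275, 290, 509, 527⟩ ⟨269, 288, 515, 533⟩ ⟨484, 509, 486, 511⟩
   ⟨0, 0, 0, 0⟩ ⟨0, 0, 0, 0⟩)
  (by decide +kernel)

theorem qAA4_222 : Cl ⟨0, false, false, false⟩ ⟨0, false, false, false⟩
    ⟨820, 870, 134, 203⟩ ⟨891, 930, 25, 64⟩ ⟨920, 1001, 0, 42⟩ := .mk
  (.L ⟨604, 19, true, false, 2432, 6688⟩ ⟨570, 24, true, false, 3308, 7563⟩
   ⟨275, 290, 509, 527⟩ ⟨268, 288, 513, 533⟩ ⟨484, 510, 486, 511⟩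
   ⟨0, 0, 0, 0⟩ ⟨0, 0, 0, 0⟩)
  (by decide +kernel)

theorem qAA4_223 : Cl ⟨0, false, false, false⟩ ⟨0, false, false, false⟩
    ⟨820, 870, 134, 203⟩ ⟨891, 930, 25, 64⟩ ⟨908, 1001, 0, 50⟩ := .mk
  (.L ⟨604, 19, true, false, 2432, 6688⟩ ⟨569, 23, true, false, 2986, 7563⟩
   ⟨275, 290, 509, 527⟩ ⟨268, 289, 511, 533⟩ ⟨484, 511, 486, 511⟩
   ⟨0, 0, 0, 0⟩ ⟨0, 0, 0, 0⟩)
  (by decide +kernel)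

theorem qAA4_224 : Cl ⟨0, false, false, false⟩ ⟨0, false, false, false⟩
    ⟨820, 875, 134, 205⟩ ⟨916, 1001, 0, 27⟩ ⟨916, 1001, 0, 27⟩ := .mk
  (.L ⟨568, 26, true, false, 3728, 7605⟩ ⟨568, 26, true, false, 3728, 7605⟩
   ⟨268, 288, 515, 533⟩ ⟨268, 288, 515, 533⟩ ⟨487, 513, 486, 514⟩
   ⟨0, 0, 0, 0⟩ ⟨0, 0, 0, 0⟩)
  (by decide +kernel)

theorem qAA4_225 : Cl ⟨0, false, false, false⟩ ⟨0, false, false, false⟩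
    ⟨820, 875, 134, 205⟩ ⟨916, 1001, 0, 27⟩ ⟨920, 1001, 0, 42⟩ := .mk
  (.L ⟨568, 26, true, false, 3728, 7605⟩ ⟨566, 24, true, false, 3279, 7605⟩
   ⟨268, 288, 515, 533⟩ ⟨267, 288, 513, 533⟩ ⟨487, 514, 486, 514⟩
   ⟨0, 0, 0, 0⟩ ⟨0, 0, 0, 0⟩)
  (by decide +kernel)

theorem qAA4_226 : Cl ⟨0, false, false, false⟩ ⟨0, false, false, false⟩
    ⟨820, 875, 134, 205⟩ ⟨916, 1001, 0, 27⟩ ⟨908, 1001, 0, 50⟩ := .mk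
  (.L ⟨568, 26, true, false, 3728, 7605⟩ ⟨565, 24, true, false, 2955, 7605⟩
   ⟨268, 288, 515, 533⟩ ⟨267, 289, 511, 533⟩ ⟨487, 515, 485, 514⟩
   ⟨0, 0, 0, 0⟩ ⟨0, 0, 0, 0⟩)
  (by decide +kernel)

theorem qAA4_227 : Cl ⟨0, false, false, false⟩ ⟨0, false, false, false⟩
    ⟨820, 875, 134, 205⟩ ⟨920, 1001, 0, 42⟩ ⟨920, 1001, 0, 42⟩ := .mk
  (.L ⟨566, 24, true, false, 3279, 7605⟩ ⟨566, 24, true, false, 3279, 7605⟩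
   ⟨267, 288, 513, 533⟩ ⟨267, 288, 513, 533⟩ ⟨486, 514, 486, 514⟩
   ⟨0, 0, 0, 0⟩ ⟨0, 0, 0, 0⟩)
  (by decide +kernel)

theorem qAA4_228 : Cl ⟨0, false, false, false⟩ ⟨0, false, false, false⟩
    ⟨820, 875, 134, 205⟩ ⟨920, 1001, 0, 42⟩ ⟨908, 1001, 0, 50⟩ := .mk
  (.L ⟨566, 24, true, false, 3279, 7605⟩ ⟨565, 24, true, false, 2955, 7605⟩
   ⟨267, 288, 513, 533⟩ ⟨267, 289, 511, 533⟩ ⟨486, 515, 485, 515⟩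
   ⟨0, 0, 0, 0⟩ ⟨0, 0, 0, 0⟩)
  (by decide +kernel)

theorem qAA4_229 : Cl ⟨0, false, false, false⟩ ⟨0, false, false, false⟩
    ⟨820, 875, 134, 205⟩ ⟨908, 1001, 0, 50⟩ ⟨908, 1001, 0, 50⟩ := .mk
  (.L ⟨565, 24, true, false, 2955, 7605⟩ ⟨565, 24, true, false, 2955, 7605⟩
   ⟨267, 289, 511, 533⟩ ⟨267, 289, 511, 533⟩ ⟨485, 515, 485, 515⟩
   ⟨0, 0, 0, 0⟩ ⟨0, 0, 0, 0⟩)
  (by decide +kernel)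

/-- The pairs of the file. -/
def rAA4 : List Pq := [
  ⟨14, 18, ⟨820, 870, 134, 203⟩, ⟨859, 886, 25, 50⟩, ⟨920, 1001, 0, 42⟩⟩,
  ⟨14, 19, ⟨820, 870, 134, 203⟩, ⟨859, 886, 25, 50⟩, ⟨908, 1001, 0, 50⟩⟩,
  ⟨12, 12, ⟨817, 870, 129, 203⟩, ⟨877, 920, 36, 83⟩, ⟨877, 920, 36, 83⟩⟩,
  ⟨12, 13, ⟨817, 869, 129, 200⟩, ⟨877, 920, 36, 83⟩, ⟨861, 913, 53, 102⟩⟩,
  ⟨12, 17, ⟨817, 870, 129, 203⟩, ⟨877, 920, 36, 83⟩, ⟨893, 917, 13, 36⟩⟩,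
  ⟨12, 15, ⟨817, 870, 129, 203⟩, ⟨877, 920, 36, 83⟩, ⟨903, 940, 16, 55⟩⟩,
  ⟨12, 16, ⟨817, 870, 129, 203⟩, ⟨877, 920, 36, 83⟩, ⟨891, 930, 25, 64⟩⟩,
  ⟨12, 20, ⟨820, 870, 134, 203⟩, ⟨877, 920, 36, 83⟩, ⟨916, 1001, 0, 27⟩⟩,
  ⟨12, 18, ⟨820, 870, 134, 203⟩, ⟨877, 920, 36, 83⟩, ⟨920, 1001, 0, 42⟩⟩,
  ⟨12, 19, ⟨820, 870, 134, 203⟩, ⟨877, 920, 36, 83⟩, ⟨908, 1001, 0, 50⟩⟩,
  ⟨13, 13, ⟨814, 869, 124, 200⟩, ⟨861, 913, 53, 102⟩, ⟨861, 913, 53, 102⟩⟩,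
  ⟨13, 17, ⟨817, 869, 129, 200⟩, ⟨861, 913, 53, 102⟩, ⟨893, 917, 13, 36⟩⟩,
  ⟨13, 15, ⟨817, 869, 129, 200⟩, ⟨861, 913, 53, 102⟩, ⟨903, 940, 16, 55⟩⟩,
  ⟨13, 16, ⟨817, 869, 129, 200⟩, ⟨861, 913, 53, 102⟩, ⟨891, 930, 25, 64⟩⟩,
  ⟨13, 20, ⟨820, 869, 134, 200⟩, ⟨861, 913, 53, 102⟩, ⟨916, 1001, 0, 27⟩⟩,
  ⟨13, 18, ⟨820, 869, 134, 200⟩, ⟨861, 913, 53, 102⟩, ⟨920, 1001, 0, 42⟩⟩,
  ⟨13, 19, ⟨820, 869, 134, 200⟩, ⟨861, 913, 53, 102⟩, ⟨908, 1001, 0, 50⟩⟩,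
  ⟨17, 17, ⟨817, 870, 129, 203⟩, ⟨893, 917, 13, 36⟩, ⟨893, 917, 13, 36⟩⟩,
  ⟨17, 15, ⟨817, 870, 129, 203⟩, ⟨893, 917, 13, 36⟩, ⟨903, 940, 16, 55⟩⟩,
  ⟨17, 16, ⟨817, 870, 129, 203⟩, ⟨893, 917, 13, 36⟩, ⟨891, 930, 25, 64⟩⟩,
  ⟨17, 20, ⟨820, 870, 134, 203⟩, ⟨893, 917, 13, 36⟩, ⟨916, 1001, 0, 27⟩⟩,
  ⟨17, 18, ⟨820, 870, 134, 203⟩, ⟨893, 917, 13, 36⟩, ⟨920, 1001, 0, 42⟩⟩,
  ⟨17, 19, ⟨820, 870, 134, 203⟩, ⟨893, 917, 13, 36⟩, ⟨908, 1001, 0, 50⟩⟩,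
  ⟨15, 15, ⟨817, 870, 129, 203⟩, ⟨903, 940, 16, 55⟩, ⟨903, 940, 16, 55⟩⟩,
  ⟨15, 16, ⟨817, 870, 129, 203⟩, ⟨903, 940, 16, 55⟩, ⟨891, 930, 25, 64⟩⟩,
  ⟨15, 20, ⟨820, 870, 134, 203⟩, ⟨903, 940, 16, 55⟩, ⟨916, 1001, 0, 27⟩⟩,
  ⟨15, 18, ⟨820, 870, 134, 203⟩, ⟨903, 940, 16, 55⟩, ⟨920, 1001, 0, 42⟩⟩,
  ⟨15, 19, ⟨820, 870, 134, 203⟩, ⟨903, 940, 16, 55⟩, ⟨908, 1001, 0, 50⟩⟩,
  ⟨16, 16, ⟨817, 870, 129, 203⟩, ⟨891, 930, 25, 64⟩, ⟨891, 930, 25, 64⟩⟩,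
  ⟨16, 20, ⟨820, 870, 134, 203⟩, ⟨891, 930, 25, 64⟩, ⟨916, 1001, 0, 27⟩⟩,
  ⟨16, 18, ⟨820, 870, 134, 203⟩, ⟨891, 930, 25, 64⟩, ⟨920, 1001, 0, 42⟩⟩,
  ⟨16, 19, ⟨820, 870, 134, 203⟩, ⟨891, 930, 25, 64⟩, ⟨908, 1001, 0, 50⟩⟩,
  ⟨20, 20, ⟨820, 875, 134, 205⟩, ⟨916, 1001, 0, 27⟩, ⟨916, 1001, 0, 27⟩⟩,
  ⟨20, 18, ⟨820, 875, 134, 205⟩, ⟨916, 1001, 0, 27⟩, ⟨920, 1001, 0, 42⟩⟩,
  ⟨20, 19, ⟨820, 875, 134, 205⟩, ⟨916, 1001, 0, 27⟩, ⟨908, 1001, 0, 50⟩⟩,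
  ⟨18, 18, ⟨820, 875, 134, 205⟩, ⟨920, 1001, 0, 42⟩, ⟨920, 1001, 0, 42⟩⟩,
  ⟨18, 19, ⟨820, 875, 134, 205⟩, ⟨920, 1001, 0, 42⟩, ⟨908, 1001, 0, 50⟩⟩,
  ⟨19, 19, ⟨820, 875, 134, 205⟩, ⟨908, 1001, 0, 50⟩, ⟨908, 1001, 0, 50⟩⟩]

theorem rAA4_ok : ∀ p ∈ rAA4, Cr false false p :=
  List.forall_mem_cons.2 ⟨qAA4_192,
  List.forall_mem_cons.2 ⟨qAA4_193,
  List.forall_mem_cons.2 ⟨qAA4_194,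
  List.forall_mem_cons.2 ⟨qAA4_195,
  List.forall_mem_cons.2 ⟨qAA4_196,
  List.forall_mem_cons.2 ⟨qAA4_197,
  List.forall_mem_cons.2 ⟨qAA4_198,
  List.forall_mem_cons.2 ⟨qAA4_199,
  List.forall_mem_cons.2 ⟨qAA4_200,
  List.forall_mem_cons.2 ⟨qAA4_201,
  List.forall_mem_cons.2 ⟨qAA4_202,
  List.forall_mem_cons.2 ⟨qAA4_203,
  List.forall_mem_cons.2 ⟨qAA4_204,
  List.forall_mem_cons.2 ⟨qAA4_205,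
  List.forall_mem_cons.2 ⟨qAA4_206,
  List.forall_mem_cons.2 ⟨qAA4_207,
  List.forall_mem_cons.2 ⟨qAA4_208,
  List.forall_mem_cons.2 ⟨qAA4_209,
  List.forall_mem_cons.2 ⟨qAA4_210,
  List.forall_mem_cons.2 ⟨qAA4_211,
  List.forall_mem_cons.2 ⟨qAA4_212,
  List.forall_mem_cons.2 ⟨qAA4_213,
  List.forall_mem_cons.2 ⟨qAA4_214,
  List.forall_mem_cons.2 ⟨qAA4_215,
  List.forall_mem_cons.2 ⟨qAA4_216,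
  List.forall_mem_cons.2 ⟨qAA4_217,
  List.forall_mem_cons.2 ⟨qAA4_218,
  List.forall_mem_cons.2 ⟨qAA4_219,
  List.forall_mem_cons.2 ⟨qAA4_220,
  List.forall_mem_cons.2 ⟨qAA4_221,
  List.forall_mem_cons.2 ⟨qAA4_222,
  List.forall_mem_cons.2 ⟨qAA4_223,
  List.forall_mem_cons.2 ⟨qAA4_224,
  List.forall_mem_cons.2 ⟨qAA4_225,
  List.forall_mem_cons.2 ⟨qAA4_226,
  List.forall_mem_cons.2 ⟨qAA4_227,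
  List.forall_mem_cons.2 ⟨qAA4_228,
  List.forall_mem_cons.2 ⟨qAA4_229,
  List.forall_mem_nil _⟩⟩⟩⟩⟩⟩⟩⟩⟩⟩⟩⟩⟩⟩⟩⟩⟩⟩⟩⟩⟩⟩⟩⟩⟩⟩⟩⟩⟩⟩⟩⟩⟩⟩⟩⟩⟩⟩

end Pool.Agent.S5.Z4
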