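import Pool.Agent.S5.Z4.R.AAb0a

/-!
# Inner nodes with four half twists: certificates
-/

set_option autoImplicit false

namespace Pool.Agent.S5.Z4

theorem qAAb0 : Cl ⟨0, false, true, false⟩ ⟨0, false, true, true⟩
    ⟨820, 868, 102, 174⟩ ⟨736, 958, 360, 539⟩ ⟨771, 876, 304, 435⟩ :=
  (Cl.s2
   (Cl.s4
    qAAb0_0
    qAAb0_1)
   qAAb0_2)

/-- The pair of the file. -/
def rAAb0 : List Pq := [⟨0, 4, ⟨820, 868, 102, 174⟩, ⟨736, 958, 360, 539⟩, ⟨771, 876, 304, 435⟩⟩]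

theorem rAAb0_ok : ∀ p ∈ rAAb0, Cr false false p :=
  List.forall_mem_cons.2 ⟨qAAb0, List.forall_mem_nil _⟩

end Pool.Agent.S5.Z4
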