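import Pool.Agent.S5.Z4.Tre

/-!
# Inner nodes with four half twists: certificates
-/

set_option autoImplicit false

namespace Pool.Agent.S5.Z4

theorem qAS0_230 : Cl ⟨1, false, false, false⟩ ⟨2, true, false, true⟩
    ⟨775, 836, 141, 194⟩ ⟨537, 573, 688, 719⟩ ⟨558, 607, 363, 411⟩ := .mk
  (.S 0 805
   (.L ⟨633, 104, false, true, 28952, 26219⟩ ⟨917, 71, true, false, 18568, 22011⟩
    ⟨308, 324, 404, 416⟩ ⟨332, 344, 549, 562⟩ ⟨436, 456, 533, 553⟩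
    ⟨668, 748, 1365, 1437⟩ ⟨508, 561, 670, 730⟩)
   (.S 0 820
    (.L ⟨624, 110, false, true, 28822, 28688⟩ ⟨906, 72, true, false, 18795, 22127⟩
     ⟨309, 325, 402, 412⟩ ⟨331, 342, 551, 562⟩ ⟨435, 453, 533, 552⟩
     ⟨676, 751, 1382, 1444⟩ ⟨519, 567, 669, 726⟩)
    (.D ⟨620, 112, false, true, 29512, 29235⟩ ⟨895, 72, true, false, 18907, 22249⟩
     ⟨310, 325, 400, 410⟩ ⟨330, 342, 551, 563⟩ ⟨433, 453, 533, 553⟩)))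
  (by decide +kernel)

theorem qAS0_231 : Cl ⟨1, false, false, false⟩ ⟨0, true, true, true⟩
    ⟨788, 837, 144, 194⟩ ⟨537, 573, 688, 719⟩ ⟨741, 878, 246, 380⟩ := .mk
  (.S 4 809
   (.L ⟨629, 107, false, true, 29555, 26648⟩ ⟨725, 50, true, false, 13107, 19530⟩
    ⟨309, 325, 399, 414⟩ ⟨304, 323, 541, 566⟩ ⟨421, 452, 513, 543⟩
    ⟨673, 754, 1372, 1452⟩ ⟨0, 0, 0, 0⟩)
   (.L ⟨629, 107, false, true, 29555, 26648⟩ ⟨677, 50, true, false, 12870, 19068⟩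
    ⟨309, 325, 399, 414⟩ ⟨296, 315, 542, 568⟩ ⟨417, 449, 508, 538⟩
    ⟨673, 754, 1372, 1452⟩ ⟨0, 0, 0, 0⟩))
  (by decide +kernel)

theorem qAS0_232 : Cl ⟨1, false, false, false⟩ ⟨0, true, true, true⟩
    ⟨780, 837, 151, 194⟩ ⟨537, 573, 688, 719⟩ ⟨765, 881, 353, 499⟩ := .mk
  (.S 0 808
   (.S 4 823
    (.S 0 794
     (.L ⟨631, 105, false, true, 29254, 26192⟩ ⟨735, 65, true, false, 16981, 23325⟩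
      ⟨309, 323, 405, 415⟩ ⟨309, 323, 553, 576⟩ ⟨416, 446, 520, 547⟩
      ⟨675, 745, 1368, 1429⟩ ⟨0, 0, 0, 0⟩)
     (.L ⟨627, 108, false, true, 29082, 26730⟩ ⟨725, 65, true, false, 17081, 23488⟩
      ⟨309, 323, 403, 413⟩ ⟨308, 322, 554, 577⟩ ⟨414, 444, 520, 547⟩
      ⟨678, 749, 1376, 1436⟩ ⟨0, 0, 0, 0⟩))
    (.S 4 852
     (.S 0 794
      (.L ⟨631, 105, false, true, 29254, 26192⟩ ⟨715, 64, true, false, 16566, 22989⟩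
       ⟨309, 323, 405, 415⟩ ⟨306, 317, 554, 577⟩ ⟨414, 443, 519, 543⟩
       ⟨675, 745, 1368, 1429⟩ ⟨0, 0, 0, 0⟩)
      (.L ⟨627, 108, false, true, 29082, 26730⟩ ⟨705, 64, true, false, 16666, 23151⟩
       ⟨309, 323, 403, 413⟩ ⟨305, 316, 555, 578⟩ ⟨412, 441, 519, 543⟩
       ⟨678, 749, 1376, 1436⟩ ⟨0, 0, 0, 0⟩))
     (.S 0 794
      (.L ⟨631, 105, false, true, 29254, 26192⟩ ⟨696, 63, true, false, 16360, 22656⟩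
       ⟨309, 323, 405, 415⟩ ⟨303, 314, 555, 577⟩ ⟨413, 441, 517, 540⟩
       ⟨675, 745, 1368, 1429⟩ ⟨0, 0, 0, 0⟩)
      (.L ⟨627, 108, false, true, 29082, 26730⟩ ⟨686, 63, true, false, 16459, 22816⟩
       ⟨309, 323, 403, 413⟩ ⟨301, 313, 556, 578⟩ ⟨411, 439, 516, 540⟩
       ⟨678, 749, 1376, 1436⟩ ⟨0, 0, 0, 0⟩))))
   (.S 5 426
    (.S 0 822
     (.L ⟨623, 110, false, true, 28909, 28618⟩ ⟨676, 64, true, false, 17181, 20491⟩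
      ⟨309, 324, 401, 412⟩ ⟨300, 320, 555, 572⟩ ⟨415, 442, 515, 543⟩
      ⟨681, 751, 1383, 1443⟩ ⟨0, 0, 0, 0⟩)
     (.L ⟨630, 109, false, true, 29555, 29136⟩ ⟨665, 64, true, false, 17281, 20618⟩
      ⟨310, 324, 399, 410⟩ ⟨298, 319, 556, 573⟩ ⟨413, 441, 514, 543⟩
      ⟨684, 754, 1391, 1451⟩ ⟨0, 0, 0, 0⟩))
    (.S 4 823
     (.S 5 462
      (.L ⟨623, 110, false, true, 29555, 28618⟩ ⟨692, 76, true, false, 19882, 22442⟩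
       ⟨309, 324, 399, 412⟩ ⟨306, 321, 563, 575⟩ ⟨414, 437, 521, 546⟩
       ⟨681, 754, 1383, 1451⟩ ⟨0, 0, 0, 0⟩)
      (.S 0 822
       (.L ⟨623, 110, false, true, 28909, 28618⟩ ⟨695, 80, true, false, 21239, 23651⟩
        ⟨309, 324, 401, 412⟩ ⟨308, 321, 567, 578⟩ ⟨413, 435, 524, 547⟩
        ⟨681, 751, 1383, 1443⟩ ⟨0, 0, 0, 0⟩)
       (.D ⟨630, 109, false, true, 29555, 29136⟩ ⟨684, 81, true, false, 21401, 23826⟩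
        ⟨310, 324, 399, 410⟩ ⟨307, 320, 568, 580⟩ ⟨410, 433, 524, 547⟩)))
     (.S 4 852
      (.L ⟨623, 110, false, true, 29555, 28618⟩ ⟨672, 75, true, false, 19298, 23488⟩
       ⟨309, 324, 399, 412⟩ ⟨303, 315, 564, 580⟩ ⟨409, 434, 520, 543⟩
       ⟨681, 754, 1383, 1451⟩ ⟨0, 0, 0, 0⟩)
      (.S 0 822
       (.L ⟨623, 110, false, true, 28909, 28618⟩ ⟨664, 73, true, false, 19008, 22978⟩
        ⟨309, 324, 401, 412⟩ ⟨301, 312, 565, 580⟩ ⟨409, 433, 518, 541⟩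
        ⟨681, 751, 1383, 1443⟩ ⟨0, 0, 0, 0⟩)
       (.L ⟨630, 109, false, true, 29555, 29136⟩ ⟨653, 74, true, false, 19148, 23151⟩
        ⟨310, 324, 399, 410⟩ ⟨300, 310, 566, 581⟩ ⟨407, 430, 518, 539⟩
        ⟨684, 754, 1391, 1451⟩ ⟨0, 0, 0, 0⟩))))))
  (by decide +kernel)

theorem qAS0_233 : Cl ⟨1, false, false, false⟩ ⟨0, true, false, false⟩
    ⟨795, 837, 138, 194⟩ ⟨537, 573, 688, 719⟩ ⟨694, 729, 150, 183⟩ := .mk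
  (.L ⟨627, 108, false, true, 29555, 27039⟩ ⟨794, 37, true, false, 9543, 12461⟩
   ⟨309, 326, 399, 413⟩ ⟨311, 322, 529, 541⟩ ⟨440, 458, 515, 532⟩
   ⟨672, 754, 1376, 1453⟩ ⟨0, 0, 0, 0⟩)
  (by decide +kernel)

theorem qAS0_234 : Cl ⟨1, false, false, false⟩ ⟨0, true, true, true⟩
    ⟨799, 837, 140, 194⟩ ⟨537, 573, 688, 719⟩ ⟨799, 862, 140, 225⟩ := .mk
  (.L ⟨625, 109, false, true, 29555, 27148⟩ ⟨692, 36, true, false, 9235, 13907⟩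
   ⟨309, 325, 399, 413⟩ ⟨295, 311, 531, 550⟩ ⟨430, 454, 506, 528⟩
   ⟨674, 754, 1378, 1453⟩ ⟨0, 0, 0, 0⟩)
  (by decide +kernel)

theorem qAS0_235 : Cl ⟨1, false, false, false⟩ ⟨0, true, true, true⟩
    ⟨792, 837, 143, 194⟩ ⟨537, 573, 688, 719⟩ ⟨778, 861, 202, 294⟩ := .mk
  (.L ⟨628, 107, false, true, 29555, 26821⟩ ⟨691, 44, true, false, 11446, 16232⟩
   ⟨309, 325, 399, 414⟩ ⟨297, 316, 537, 558⟩ ⟨425, 452, 508, 535⟩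
   ⟨674, 754, 1375, 1452⟩ ⟨0, 0, 0, 0⟩)
  (by decide +kernel)

theorem qAS0_236 : Cl ⟨1, false, false, false⟩ ⟨0, true, false, false⟩
    ⟨805, 837, 137, 194⟩ ⟨537, 573, 688, 719⟩ ⟨794, 814, 73, 92⟩ := .mk
  (.L ⟨624, 110, false, true, 29555, 28761⟩ ⟨724, 26, true, false, 6883, 9357⟩
   ⟨309, 326, 399, 412⟩ ⟨299, 307, 523, 534⟩ ⟨442, 457, 507, 521⟩
   ⟨674, 754, 1382, 1453⟩ ⟨0, 0, 0, 0⟩)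
  (by decide +kernel)

theorem qAS0_237 : Cl ⟨1, false, false, false⟩ ⟨0, true, false, false⟩
    ⟨805, 837, 137, 194⟩ ⟨537, 573, 688, 719⟩ ⟨843, 885, 77, 140⟩ := .mk
  (.L ⟨624, 110, false, true, 29555, 28761⟩ ⟨675, 27, true, false, 7114, 11134⟩
   ⟨309, 326, 399, 412⟩ ⟨291, 303, 525, 541⟩ ⟨436, 455, 502, 520⟩
   ⟨674, 754, 1382, 1453⟩ ⟨0, 0, 0, 0⟩)
  (by decide +kernel)

theorem qAS0_238 : Cl ⟨1, false, false, false⟩ ⟨0, true, false, false⟩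
    ⟨799, 837, 140, 194⟩ ⟨537, 573, 688, 719⟩ ⟨816, 877, 117, 176⟩ := .mk
  (.L ⟨625, 109, false, true, 29555, 27148⟩ ⟨681, 33, true, false, 8481, 12288⟩
   ⟨309, 325, 399, 413⟩ ⟨293, 308, 529, 545⟩ ⟨433, 454, 504, 525⟩
   ⟨674, 754, 1378, 1453⟩ ⟨0, 0, 0, 0⟩)
  (by decide +kernel)

theorem qAS0_239 : Cl ⟨1, false, false, false⟩ ⟨0, true, false, false⟩
    ⟨811, 837, 137, 194⟩ ⟨537, 573, 688, 719⟩ ⟨846, 873, 29, 56⟩ := .mk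
  (.L ⟨622, 111, false, true, 29555, 28980⟩ ⟨680, 21, true, false, 5577, 8401⟩
   ⟨309, 326, 399, 412⟩ ⟨291, 299, 520, 532⟩ ⟨442, 457, 502, 516⟩
   ⟨675, 754, 1385, 1453⟩ ⟨0, 0, 0, 0⟩)
  (by decide +kernel)

theorem qAS0_240 : Cl ⟨1, false, false, false⟩ ⟨0, true, false, false⟩
    ⟨811, 837, 137, 194⟩ ⟨537, 573, 688, 719⟩ ⟨867, 914, 38, 90⟩ := .mk
  (.L ⟨622, 111, false, true, 29555, 28980⟩ ⟨655, 23, true, false, 5932, 9637⟩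
   ⟨309, 326, 399, 412⟩ ⟨286, 298, 521, 537⟩ ⟨438, 456, 499, 516⟩
   ⟨675, 754, 1385, 1453⟩ ⟨0, 0, 0, 0⟩)
  (by decide +kernel)

theorem qAS0_241 : Cl ⟨1, false, false, false⟩ ⟨0, true, false, false⟩
    ⟨805, 837, 137, 194⟩ ⟨537, 573, 688, 719⟩ ⟨849, 904, 57, 112⟩ := .mk
  (.L ⟨624, 110, false, true, 29555, 28761⟩ ⟨662, 25, true, false, 6493, 10290⟩
   ⟨309, 326, 399, 412⟩ ⟨288, 302, 523, 539⟩ ⟨437, 456, 500, 519⟩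
   ⟨674, 754, 1382, 1453⟩ ⟨0, 0, 0, 0⟩)
  (by decide +kernel)

theorem qAS0_242 : Cl ⟨1, false, false, false⟩ ⟨0, true, false, false⟩
    ⟨811, 837, 137, 194⟩ ⟨537, 573, 688, 719⟩ ⟨886, 909, 14, 39⟩ := .mk
  (.L ⟨622, 111, false, true, 29555, 28980⟩ ⟨656, 20, true, false, 5262, 8042⟩
   ⟨309, 326, 399, 412⟩ ⟨286, 294, 519, 531⟩ ⟨441, 456, 499, 512⟩
   ⟨675, 754, 1385, 1453⟩ ⟨0, 0, 0, 0⟩)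
  (by decide +kernel)

theorem qAS0_243 : Cl ⟨1, false, false, false⟩ ⟨0, true, false, false⟩
    ⟨811, 837, 137, 194⟩ ⟨537, 573, 688, 719⟩ ⟨897, 934, 22, 62⟩ := .mk
  (.L ⟨622, 111, false, true, 29555, 28980⟩ ⟨642, 23, true, false, 5548, 8862⟩
   ⟨309, 326, 399, 412⟩ ⟨284, 294, 520, 535⟩ ⟨439, 456, 497, 513⟩
   ⟨675, 754, 1385, 1453⟩ ⟨0, 0, 0, 0⟩)
  (by decide +kernel)

theorem qAS0_244 : Cl ⟨1, false, false, false⟩ ⟨0, true, false, false⟩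
    ⟨811, 837, 137, 194⟩ ⟨537, 573, 688, 719⟩ ⟨882, 927, 32, 77⟩ := .mk
  (.L ⟨622, 111, false, true, 29555, 28980⟩ ⟨647, 22, true, false, 5797, 9287⟩
   ⟨309, 326, 399, 412⟩ ⟨285, 296, 521, 536⟩ ⟨438, 456, 498, 515⟩
   ⟨675, 754, 1385, 1453⟩ ⟨0, 0, 0, 0⟩)
  (by decide +kernel)

theorem qAS0_245 : Cl ⟨1, false, false, false⟩ ⟨0, true, false, false⟩
    ⟨816, 837, 138, 194⟩ ⟨537, 573, 688, 719⟩ ⟨900, 1001, 0, 29⟩ := .mk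
  (.L ⟨621, 111, false, true, 29555, 29143⟩ ⟨604, 20, true, false, 4816, 8236⟩
   ⟨310, 326, 399, 411⟩ ⟨275, 292, 518, 534⟩ ⟨438, 456, 492, 511⟩
   ⟨677, 754, 1387, 1453⟩ ⟨0, 0, 0, 0⟩)
  (by decide +kernel)

theorem qAS0_246 : Cl ⟨1, false, false, false⟩ ⟨0, true, false, false⟩
    ⟨816, 837, 138, 194⟩ ⟨537, 573, 688, 719⟩ ⟨908, 1001, 0, 50⟩ := .mk
  (.L ⟨621, 111, false, true, 29555, 29143⟩ ⟨604, 20, true, false, 4853, 8820⟩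
   ⟨310, 326, 399, 411⟩ ⟨275, 292, 518, 536⟩ ⟨437, 456, 492, 512⟩
   ⟨677, 754, 1387, 1453⟩ ⟨0, 0, 0, 0⟩)
  (by decide +kernel)

theorem qAS0_247 : Cl ⟨1, false, false, false⟩ ⟨0, true, false, false⟩
    ⟨816, 837, 138, 194⟩ ⟨537, 573, 688, 719⟩ ⟨895, 1001, 0, 61⟩ := .mk
  (.L ⟨621, 111, false, true, 29555, 29143⟩ ⟨604, 20, true, false, 4794, 9126⟩
   ⟨310, 326, 399, 411⟩ ⟨275, 294, 518, 538⟩ ⟨435, 457, 492, 514⟩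
   ⟨677, 754, 1387, 1453⟩ ⟨0, 0, 0, 0⟩)
  (by decide +kernel)

theorem qAS0_248 : Cl ⟨0, false, true, false⟩ ⟨2, true, false, true⟩
    ⟨792, 836, 146, 225⟩ ⟨729, 948, 353, 531⟩ ⟨558, 607, 363, 411⟩ := .mk
  (.S 2 838
   (.L ⟨516, 39, false, false, 15706, 3214⟩ ⟨896, 73, true, false, 18831, 23120⟩
    ⟨258, 301, 440, 487⟩ ⟨331, 345, 550, 565⟩ ⟨447, 485, 529, 566⟩
    ⟨0, 0, 0, 0⟩ ⟨512, 572, 656, 726⟩)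
   (.L ⟨467, 25, false, false, 12719, 897⟩ ⟨896, 73, true, false, 18831, 23120⟩
    ⟨238, 287, 445, 497⟩ ⟨331, 345, 550, 565⟩ ⟨450, 490, 534, 574⟩
    ⟨0, 0, 0, 0⟩ ⟨512, 572, 656, 726⟩))
  (by decide +kernel)

theorem qAS0_249 : Cl ⟨0, false, true, false⟩ ⟨0, true, true, true⟩
    ⟨792, 860, 146, 225⟩ ⟨729, 948, 353, 531⟩ ⟨741, 878, 246, 380⟩ := .mk
  (.S 2 838
   (.L ⟨504, 42, false, false, 16361, 3214⟩ ⟨662, 50, true, false, 13186, 20351⟩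
    ⟨255, 301, 437, 487⟩ ⟨293, 324, 541, 572⟩ ⟨427, 483, 504, 559⟩
    ⟨0, 0, 0, 0⟩ ⟨0, 0, 0, 0⟩)
   (.L ⟨454, 28, false, false, 13376, 897⟩ ⟨662, 50, true, false, 13186, 20351⟩
    ⟨234, 287, 441, 497⟩ ⟨293, 324, 541, 572⟩ ⟨430, 488, 509, 568⟩
    ⟨0, 0, 0, 0⟩ ⟨0, 0, 0, 0⟩))
  (by decide +kernel)

theorem qAS0_250 : Cl ⟨0, false, true, false⟩ ⟨0, true, true, true⟩
    ⟨792, 858, 151, 225⟩ ⟨729, 948, 353, 531⟩ ⟨765, 881, 353, 499⟩ := .mk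
  (.S 5 426
   (.S 2 838
    (.L ⟨505, 41, false, false, 16169, 3214⟩ ⟨651, 65, true, false, 17067, 21947⟩
     ⟨255, 301, 437, 487⟩ ⟨296, 323, 554, 577⟩ ⟨424, 475, 508, 560⟩
     ⟨0, 0, 0, 0⟩ ⟨0, 0, 0, 0⟩)
    (.L ⟨455, 28, false, false, 13156, 897⟩ ⟨651, 65, true, false, 17067, 21947⟩
     ⟨235, 286, 442, 497⟩ ⟨296, 323, 554, 577⟩ ⟨427, 480, 514, 569⟩
     ⟨0, 0, 0, 0⟩ ⟨0, 0, 0, 0⟩))
   (.S 0 825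
    (.S 2 838
     (.L ⟨521, 37, false, false, 15260, 3214⟩ ⟨662, 73, true, false, 19721, 24230⟩
      ⟨259, 301, 441, 487⟩ ⟨301, 325, 562, 583⟩ ⟨422, 471, 514, 563⟩
      ⟨0, 0, 0, 0⟩ ⟨0, 0, 0, 0⟩)
     (.L ⟨474, 24, false, false, 12245, 897⟩ ⟨662, 73, true, false, 19721, 24230⟩
      ⟨240, 286, 447, 497⟩ ⟨301, 325, 562, 583⟩ ⟨426, 476, 519, 570⟩
      ⟨0, 0, 0, 0⟩ ⟨0, 0, 0, 0⟩))
    (.S 4 823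
     (.S 2 838
      (.S 4 794
       (.S 4 779
        (.L ⟨505, 41, false, false, 16169, 3921⟩ ⟨710, 79, true, false, 20054, 25651⟩
         ⟨255, 298, 437, 484⟩ ⟨310, 323, 564, 582⟩ ⟨425, 468, 522, 562⟩
         ⟨0, 0, 0, 0⟩ ⟨0, 0, 0, 0⟩)
        (.L ⟨505, 41, false, false, 16169, 3921⟩ ⟨699, 78, true, false, 19913, 25492⟩
         ⟨255, 298, 437, 484⟩ ⟨308, 321, 565, 583⟩ ⟨423, 467, 521, 561⟩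
         ⟨0, 0, 0, 0⟩ ⟨0, 0, 0, 0⟩))
       (.L ⟨505, 41, false, false, 16169, 3921⟩ ⟨678, 77, true, false, 19761, 25186⟩
        ⟨255, 298, 437, 484⟩ ⟨305, 319, 565, 584⟩ ⟨421, 466, 519, 560⟩
        ⟨0, 0, 0, 0⟩ ⟨0, 0, 0, 0⟩))
      (.S 1 188
       (.L ⟨471, 34, false, false, 13156, 3003⟩ ⟨678, 77, true, false, 20054, 23857⟩
        ⟨242, 282, 442, 487⟩ ⟨305, 320, 564, 581⟩ ⟨428, 469, 526, 565⟩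
        ⟨0, 0, 0, 0⟩ ⟨0, 0, 0, 0⟩)
       (.S 4 794
        (.S 2 893
         (.L ⟨478, 35, false, false, 11942, 2745⟩ ⟨706, 83, true, false, 21301, 25492⟩
          ⟨245, 279, 445, 489⟩ ⟨311, 323, 567, 583⟩ ⟨430, 469, 532, 566⟩
          ⟨0, 0, 0, 0⟩ ⟨0, 0, 0, 0⟩)
         (.L ⟨455, 28, false, false, 10320, 1584⟩ ⟨706, 83, true, false, 21301, 25492⟩
          ⟨235, 271, 450, 493⟩ ⟨311, 323, 567, 583⟩ ⟨432, 471, 535, 570⟩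
          ⟨0, 0, 0, 0⟩ ⟨0, 0, 0, 0⟩))
        (.L ⟨455, 28, false, false, 11942, 1584⟩ ⟨684, 82, true, false, 21047, 25186⟩
         ⟨235, 279, 445, 493⟩ ⟨307, 319, 568, 584⟩ ⟨427, 469, 529, 568⟩
         ⟨0, 0, 0, 0⟩ ⟨0, 0, 0, 0⟩))))
     (.S 2 838
      (.L ⟨505, 41, false, false, 16169, 3921⟩ ⟨639, 75, true, false, 19469, 24575⟩
       ⟨255, 298, 437, 484⟩ ⟨298, 316, 566, 586⟩ ⟨417, 464, 514, 559⟩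
       ⟨0, 0, 0, 0⟩ ⟨0, 0, 0, 0⟩)
      (.S 1 188
       (.L ⟨471, 34, false, false, 13156, 3003⟩ ⟨639, 75, true, false, 19469, 23168⟩
        ⟨242, 282, 442, 487⟩ ⟨298, 313, 566, 582⟩ ⟨424, 465, 521, 560⟩
        ⟨0, 0, 0, 0⟩ ⟨0, 0, 0, 0⟩)
       (.L ⟨455, 28, false, false, 11942, 1584⟩ ⟨646, 80, true, false, 20793, 24575⟩
        ⟨235, 279, 445, 493⟩ ⟨301, 316, 569, 586⟩ ⟨423, 467, 525, 567⟩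
        ⟨0, 0, 0, 0⟩ ⟨0, 0, 0, 0⟩))))))
  (by decide +kernel)

theorem qAS0_251 : Cl ⟨0, false, true, false⟩ ⟨0, true, false, false⟩
    ⟨795, 850, 146, 218⟩ ⟨729, 948, 353, 531⟩ ⟨694, 729, 150, 183⟩ := .mk
  (.L ⟨463, 28, false, false, 16089, 1238⟩ ⟨785, 38, true, false, 9784, 13175⟩
   ⟨237, 301, 438, 495⟩ ⟨310, 322, 530, 543⟩ ⟨453, 492, 511, 553⟩
   ⟨0, 0, 0, 0⟩ ⟨0, 0, 0, 0⟩)
  (by decide +kernel)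

theorem qAS0_252 : Cl ⟨0, false, true, false⟩ ⟨0, true, true, true⟩
    ⟨799, 862, 146, 225⟩ ⟨729, 948, 353, 531⟩ ⟨799, 862, 140, 225⟩ := .mk
  (.L ⟨453, 28, false, false, 16415, 1042⟩ ⟨674, 36, true, false, 9436, 14999⟩
   ⟨234, 300, 436, 496⟩ ⟨292, 312, 531, 555⟩ ⟨440, 489, 501, 553⟩
   ⟨0, 0, 0, 0⟩ ⟨0, 0, 0, 0⟩)
  (by decide +kernel)

theorem qAS0_253 : Cl ⟨0, false, true, false⟩ ⟨0, true, true, true⟩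
    ⟨792, 859, 146, 225⟩ ⟨729, 948, 353, 531⟩ ⟨778, 861, 202, 294⟩ := .mk
  (.L ⟨455, 28, false, false, 16334, 897⟩ ⟨676, 44, true, false, 11546, 17394⟩
   ⟨234, 301, 437, 497⟩ ⟨294, 318, 537, 562⟩ ⟨436, 488, 502, 560⟩
   ⟨0, 0, 0, 0⟩ ⟨0, 0, 0, 0⟩)
  (by decide +kernel)

theorem qAS0_254 : Cl ⟨0, false, true, false⟩ ⟨0, true, false, false⟩
    ⟨805, 865, 146, 217⟩ ⟨729, 948, 353, 531⟩ ⟨794, 814, 73, 92⟩ := .mk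
  (.L ⟨455, 30, false, false, 16497, 1481⟩ ⟨704, 27, true, false, 7178, 9991⟩
   ⟨235, 300, 436, 494⟩ ⟨296, 307, 524, 536⟩ ⟨454, 491, 502, 544⟩
   ⟨0, 0, 0, 0⟩ ⟨0, 0, 0, 0⟩)
  (by decide +kernel)

theorem qAS0_255 : Cl ⟨0, false, true, false⟩ ⟨0, true, false, false⟩
    ⟨805, 865, 146, 217⟩ ⟨729, 948, 353, 531⟩ ⟨843, 885, 77, 140⟩ := .mk
  (.L ⟨455, 30, false, false, 16497, 1481⟩ ⟨655, 28, true, false, 7424, 11876⟩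
   ⟨235, 300, 436, 494⟩ ⟨287, 304, 526, 545⟩ ⟨446, 489, 497, 545⟩
   ⟨0, 0, 0, 0⟩ ⟨0, 0, 0, 0⟩)
  (by decide +kernel)

theorem qAS0_256 : Cl ⟨0, false, true, false⟩ ⟨0, true, false, false⟩
    ⟨799, 862, 146, 225⟩ ⟨729, 948, 353, 531⟩ ⟨816, 877, 117, 176⟩ := .mk
  (.L ⟨453, 28, false, false, 16415, 1042⟩ ⟨664, 33, true, false, 8684, 13344⟩
   ⟨234, 300, 436, 496⟩ ⟨290, 309, 529, 550⟩ ⟨443, 490, 499, 550⟩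
   ⟨0, 0, 0, 0⟩ ⟨0, 0, 0, 0⟩)
  (by decide +kernel)

theorem qAS0_257 : Cl ⟨0, false, true, false⟩ ⟨0, true, false, false⟩
    ⟨811, 868, 146, 212⟩ ⟨729, 948, 353, 531⟩ ⟨846, 873, 29, 56⟩ := .mk
  (.L ⟨455, 31, false, false, 16578, 1799⟩ ⟨658, 23, true, false, 5884, 8861⟩
   ⟨236, 299, 435, 492⟩ ⟨287, 299, 521, 534⟩ ⟨453, 490, 497, 538⟩
   ⟨0, 0, 0, 0⟩ ⟨0, 0, 0, 0⟩)
  (by decide +kernel)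

theorem qAS0_258 : Cl ⟨0, false, true, false⟩ ⟨0, true, false, false⟩
    ⟨811, 868, 146, 212⟩ ⟨729, 948, 353, 531⟩ ⟨867, 914, 38, 90⟩ := .mk
  (.L ⟨455, 31, false, false, 16578, 1799⟩ ⟨633, 24, true, false, 6246, 10160⟩
   ⟨236, 299, 435, 492⟩ ⟨282, 299, 522, 540⟩ ⟨449, 489, 495, 540⟩
   ⟨0, 0, 0, 0⟩ ⟨0, 0, 0, 0⟩)
  (by decide +kernel)

theorem qAS0_259 : Cl ⟨0, false, true, false⟩ ⟨0, true, false, false⟩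
    ⟨805, 865, 146, 217⟩ ⟨729, 948, 353, 531⟩ ⟨849, 904, 57, 112⟩ := .mk
  (.L ⟨455, 30, false, false, 16497, 1481⟩ ⟨642, 26, true, false, 6804, 11017⟩
   ⟨235, 300, 436, 494⟩ ⟨284, 302, 524, 543⟩ ⟨447, 490, 495, 543⟩
   ⟨0, 0, 0, 0⟩ ⟨0, 0, 0, 0⟩)
  (by decide +kernel)

theorem qAS0_260 : Cl ⟨0, false, true, false⟩ ⟨0, true, false, false⟩
    ⟨811, 868, 146, 212⟩ ⟨729, 948, 353, 531⟩ ⟨886, 909, 14, 39⟩ := .mk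
  (.L ⟨455, 31, false, false, 16578, 1799⟩ ⟨634, 22, true, false, 5581, 8506⟩
   ⟨236, 299, 435, 492⟩ ⟨282, 294, 520, 534⟩ ⟨453, 490, 494, 535⟩
   ⟨0, 0, 0, 0⟩ ⟨0, 0, 0, 0⟩)
  (by decide +kernel)

theorem qAS0_261 : Cl ⟨0, false, true, false⟩ ⟨0, true, false, false⟩
    ⟨811, 868, 146, 212⟩ ⟨729, 948, 353, 531⟩ ⟨897, 934, 22, 62⟩ := .mk
  (.L ⟨455, 31, false, false, 16578, 1799⟩ ⟨620, 22, true, false, 5871, 9367⟩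
   ⟨236, 299, 435, 492⟩ ⟨279, 294, 521, 538⟩ ⟨450, 489, 493, 536⟩
   ⟨0, 0, 0, 0⟩ ⟨0, 0, 0, 0⟩)
  (by decide +kernel)

theorem qAS0_262 : Cl ⟨0, false, true, false⟩ ⟨0, true, false, false⟩
    ⟨811, 868, 146, 212⟩ ⟨729, 948, 353, 531⟩ ⟨882, 927, 32, 77⟩ := .mk
  (.L ⟨455, 31, false, false, 16578, 1799⟩ ⟨625, 23, true, false, 6116, 9804⟩
   ⟨236, 299, 435, 492⟩ ⟨280, 296, 522, 539⟩ ⟨449, 489, 493, 538⟩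
   ⟨0, 0, 0, 0⟩ ⟨0, 0, 0, 0⟩)
  (by decide +kernel)

theorem qAS0_263 : Cl ⟨0, false, true, false⟩ ⟨0, true, false, false⟩
    ⟨816, 869, 146, 210⟩ ⟨729, 948, 353, 531⟩ ⟨900, 1001, 0, 29⟩ := .mk
  (.L ⟨456, 32, false, false, 16605, 1978⟩ ⟨582, 21, true, false, 4942, 8668⟩
   ⟨236, 299, 435, 492⟩ ⟨270, 292, 519, 537⟩ ⟨449, 490, 487, 535⟩
   ⟨0, 0, 0, 0⟩ ⟨0, 0, 0, 0⟩)
  (by decide +kernel)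

theorem qAS0_264 : Cl ⟨0, false, true, false⟩ ⟨0, true, false, false⟩
    ⟨816, 869, 146, 210⟩ ⟨729, 948, 353, 531⟩ ⟨908, 1001, 0, 50⟩ := .mk
  (.L ⟨456, 32, false, false, 16605, 1978⟩ ⟨582, 21, true, false, 4981, 9274⟩
   ⟨236, 299, 435, 492⟩ ⟨270, 292, 519, 539⟩ ⟨448, 490, 487, 535⟩
   ⟨0, 0, 0, 0⟩ ⟨0, 0, 0, 0⟩)
  (by decide +kernel)

theorem qAS0_265 : Cl ⟨0, false, true, false⟩ ⟨0, true, false, false⟩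
    ⟨816, 869, 146, 210⟩ ⟨729, 948, 353, 531⟩ ⟨895, 1001, 0, 61⟩ := .mk
  (.L ⟨456, 32, false, false, 16605, 1978⟩ ⟨582, 21, true, false, 4918, 9593⟩
   ⟨236, 299, 435, 492⟩ ⟨270, 294, 519, 541⟩ ⟨447, 490, 487, 537⟩
   ⟨0, 0, 0, 0⟩ ⟨0, 0, 0, 0⟩)
  (by decide +kernel)

theorem qAS0_266 : Cl ⟨0, false, true, false⟩ ⟨2, true, false, true⟩
    ⟨806, 836, 141, 207⟩ ⟨851, 956, 493, 604⟩ ⟨558, 607, 363, 411⟩ := .mk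
  (.L ⟨440, 35, false, false, 14970, 5295⟩ ⟨895, 72, true, false, 18802, 22613⟩
   ⟨231, 276, 432, 475⟩ ⟨330, 343, 551, 564⟩ ⟨447, 479, 541, 575⟩
   ⟨0, 0, 0, 0⟩ ⟨519, 573, 662, 726⟩)
  (by decide +kernel)

theorem qAS0_267 : Cl ⟨0, false, true, false⟩ ⟨0, true, true, true⟩
    ⟨806, 860, 144, 207⟩ ⟨851, 956, 493, 604⟩ ⟨741, 878, 246, 380⟩ := .mk
  (.L ⟨428, 38, false, false, 15633, 5295⟩ ⟨662, 50, true, false, 13170, 19694⟩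
   ⟨228, 275, 428, 475⟩ ⟨293, 322, 542, 570⟩ ⟨428, 477, 517, 568⟩
   ⟨0, 0, 0, 0⟩ ⟨0, 0, 0, 0⟩)
  (by decide +kernel)

theorem qAS0_268 : Cl ⟨0, false, true, false⟩ ⟨0, true, true, true⟩
    ⟨806, 858, 151, 207⟩ ⟨851, 956, 493, 604⟩ ⟨765, 881, 353, 499⟩ := .mk
  (.S 5 426
   (.L ⟨429, 37, false, false, 15330, 5295⟩ ⟨651, 65, true, false, 17167, 21278⟩
    ⟨228, 275, 429, 475⟩ ⟨296, 321, 555, 576⟩ ⟨425, 470, 521, 570⟩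
    ⟨0, 0, 0, 0⟩ ⟨0, 0, 0, 0⟩)
   (.S 4 823
    (.S 0 832
     (.L ⟨442, 34, false, false, 14487, 5295⟩ ⟨695, 76, true, false, 19862, 24246⟩
      ⟨232, 275, 434, 475⟩ ⟨307, 323, 563, 580⟩ ⟨427, 466, 531, 570⟩
      ⟨0, 0, 0, 0⟩ ⟨0, 0, 0, 0⟩)
     (.S 5 462
      (.L ⟨429, 37, false, false, 15330, 5995⟩ ⟨678, 77, true, false, 20124, 23113⟩
       ⟨228, 272, 429, 471⟩ ⟨305, 320, 565, 578⟩ ⟨427, 462, 532, 569⟩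
       ⟨0, 0, 0, 0⟩ ⟨0, 0, 0, 0⟩)
      (.S 0 845
       (.L ⟨435, 36, false, false, 14908, 5995⟩ ⟨679, 82, true, false, 21518, 24391⟩
        ⟨230, 272, 432, 471⟩ ⟨306, 321, 569, 581⟩ ⟨426, 460, 534, 570⟩
        ⟨0, 0, 0, 0⟩ ⟨0, 0, 0, 0⟩)
       (.S 1 179
        (.L ⟨441, 42, false, false, 15330, 7446⟩ ⟨671, 82, true, false, 21669, 23536⟩
         ⟨235, 270, 429, 464⟩ ⟨305, 318, 570, 580⟩ ⟨425, 455, 535, 565⟩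
         ⟨0, 0, 0, 0⟩ ⟨0, 0, 0, 0⟩)
        (.S 2 903
         (.L ⟨448, 45, false, false, 14378, 7810⟩ ⟨676, 86, true, false, 22601, 24537⟩
          ⟨239, 266, 431, 463⟩ ⟨308, 320, 572, 582⟩ ⟨426, 454, 539, 566⟩
          ⟨0, 0, 0, 0⟩ ⟨0, 0, 0, 0⟩)
         (.S 2 929
          (.L ⟨438, 41, false, false, 12613, 7089⟩ ⟨676, 86, true, false, 22601, 24537⟩
           ⟨234, 257, 436, 465⟩ ⟨308, 320, 572, 582⟩ ⟨428, 455, 543, 568⟩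
           ⟨0, 0, 0, 0⟩ ⟨0, 0, 0, 0⟩)
          (.L ⟨429, 37, false, false, 11741, 6349⟩ ⟨676, 86, true, false, 22601, 24537⟩
           ⟨228, 253, 438, 468⟩ ⟨308, 320, 572, 582⟩ ⟨429, 456, 544, 570⟩
           ⟨0, 0, 0, 0⟩ ⟨0, 0, 0, 0⟩)))))))
    (.S 0 832
     (.L ⟨442, 34, false, false, 14487, 5295⟩ ⟨657, 74, true, false, 19278, 23599⟩
      ⟨232, 275, 434, 475⟩ ⟨300, 316, 564, 582⟩ ⟨423, 463, 526, 567⟩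
      ⟨0, 0, 0, 0⟩ ⟨0, 0, 0, 0⟩)
     (.S 2 903
      (.L ⟨448, 45, false, false, 15330, 7449⟩ ⟨639, 75, true, false, 19540, 23888⟩
       ⟨239, 272, 429, 465⟩ ⟨298, 314, 566, 584⟩ ⟨419, 456, 528, 563⟩
       ⟨0, 0, 0, 0⟩ ⟨0, 0, 0, 0⟩)
      (.L ⟨429, 37, false, false, 13650, 5995⟩ ⟨639, 75, true, false, 19540, 23888⟩
       ⟨228, 263, 433, 471⟩ ⟨298, 314, 566, 584⟩ ⟨421, 459, 531, 568⟩
       ⟨0, 0, 0, 0⟩ ⟨0, 0, 0, 0⟩)))))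
  (by decide +kernel)

theorem qAS0_269 : Cl ⟨0, false, true, false⟩ ⟨0, true, false, false⟩
    ⟨806, 850, 140, 207⟩ ⟨851, 956, 493, 604⟩ ⟨694, 729, 150, 183⟩ := .mk
  (.L ⟨433, 36, false, false, 15451, 5295⟩ ⟨785, 37, true, false, 9607, 12845⟩
   ⟨229, 276, 430, 475⟩ ⟨310, 321, 530, 542⟩ ⟨454, 483, 524, 555⟩
   ⟨0, 0, 0, 0⟩ ⟨0, 0, 0, 0⟩)
  (by decide +kernel)

theorem qAS0_270 : Cl ⟨0, false, true, false⟩ ⟨0, true, true, true⟩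
    ⟨806, 862, 140, 207⟩ ⟨851, 956, 493, 604⟩ ⟨799, 862, 140, 225⟩ := .mk
  (.L ⟨426, 38, false, false, 15833, 5295⟩ ⟨674, 36, true, false, 9235, 14380⟩
   ⟨228, 276, 428, 475⟩ ⟨292, 311, 531, 552⟩ ⟨442, 480, 514, 553⟩
   ⟨0, 0, 0, 0⟩ ⟨0, 0, 0, 0⟩)
  (by decide +kernel)

theorem qAS0_271 : Cl ⟨0, false, true, false⟩ ⟨0, true, true, true⟩
    ⟨806, 859, 143, 207⟩ ⟨851, 956, 493, 604⟩ ⟨778, 861, 202, 294⟩ := .mk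
  (.L ⟨428, 38, false, false, 15635, 5295⟩ ⟨676, 44, true, false, 11474, 16762⟩
   ⟨228, 276, 428, 475⟩ ⟨294, 315, 538, 560⟩ ⟨437, 477, 516, 559⟩
   ⟨0, 0, 0, 0⟩ ⟨0, 0, 0, 0⟩)
  (by decide +kernel)

theorem qAS0_272 : Cl ⟨0, false, true, false⟩ ⟨0, true, false, false⟩
    ⟨806, 865, 140, 207⟩ ⟨851, 956, 493, 604⟩ ⟨794, 814, 73, 92⟩ := .mk
  (.L ⟨425, 38, false, false, 15929, 5295⟩ ⟨705, 26, true, false, 6979, 9674⟩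
   ⟨227, 276, 427, 475⟩ ⟨296, 307, 523, 535⟩ ⟨454, 483, 515, 546⟩
   ⟨0, 0, 0, 0⟩ ⟨0, 0, 0, 0⟩)
  (by decide +kernel)

theorem qAS0_273 : Cl ⟨0, false, true, false⟩ ⟨0, true, false, false⟩
    ⟨806, 865, 140, 207⟩ ⟨851, 956, 493, 604⟩ ⟨843, 885, 77, 140⟩ := .mk
  (.L ⟨425, 38, false, false, 15929, 5295⟩ ⟨656, 28, true, false, 7216, 11531⟩
   ⟨227, 276, 427, 475⟩ ⟨287, 304, 525, 544⟩ ⟨446, 481, 510, 547⟩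
   ⟨0, 0, 0, 0⟩ ⟨0, 0, 0, 0⟩)
  (by decide +kernel)

theorem qAS0_274 : Cl ⟨0, false, true, false⟩ ⟨0, true, false, false⟩
    ⟨806, 862, 140, 207⟩ ⟨851, 956, 493, 604⟩ ⟨816, 877, 117, 176⟩ := .mk
  (.L ⟨426, 38, false, false, 15833, 5295⟩ ⟨664, 33, true, false, 8475, 12721⟩
   ⟨228, 276, 428, 475⟩ ⟨290, 308, 529, 548⟩ ⟨444, 480, 512, 550⟩
   ⟨0, 0, 0, 0⟩ ⟨0, 0, 0, 0⟩)
  (by decide +kernel)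

theorem qAS0_275 : Cl ⟨0, false, true, false⟩ ⟨0, true, false, false⟩
    ⟨811, 868, 140, 207⟩ ⟨851, 956, 493, 604⟩ ⟨846, 873, 29, 56⟩ := .mk
  (.L ⟨423, 39, false, false, 16025, 5429⟩ ⟨659, 22, true, false, 5679, 8693⟩
   ⟨227, 275, 426, 474⟩ ⟨287, 299, 520, 534⟩ ⟨452, 483, 510, 541⟩
   ⟨0, 0, 0, 0⟩ ⟨0, 0, 0, 0⟩)
  (by decide +kernel)

theorem qAS0_276 : Cl ⟨0, false, true, false⟩ ⟨0, true, false, false⟩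
    ⟨811, 868, 140, 207⟩ ⟨851, 956, 493, 604⟩ ⟨867, 914, 38, 90⟩ := .mk
  (.L ⟨423, 39, false, false, 16025, 5429⟩ ⟨634, 23, true, false, 6037, 9985⟩
   ⟨227, 275, 426, 474⟩ ⟨282, 299, 521, 539⟩ ⟨448, 482, 507, 543⟩
   ⟨0, 0, 0, 0⟩ ⟨0, 0, 0, 0⟩)
  (by decide +kernel)

theorem qAS0_277 : Cl ⟨0, false, true, false⟩ ⟨0, true, false, false⟩
    ⟨806, 865, 140, 207⟩ ⟨851, 956, 493, 604⟩ ⟨849, 904, 57, 112⟩ := .mk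
  (.L ⟨425, 38, false, false, 15929, 5295⟩ ⟨643, 25, true, false, 6594, 10667⟩
   ⟨227, 276, 427, 475⟩ ⟨284, 302, 523, 541⟩ ⟨448, 482, 508, 545⟩
   ⟨0, 0, 0, 0⟩ ⟨0, 0, 0, 0⟩)
  (by decide +kernel)

theorem qAS0_278 : Cl ⟨0, false, true, false⟩ ⟨0, true, false, false⟩
    ⟨811, 868, 140, 207⟩ ⟨851, 956, 493, 604⟩ ⟨886, 909, 14, 39⟩ := .mk
  (.L ⟨423, 39, false, false, 16025, 5429⟩ ⟨635, 21, true, false, 5368, 8333⟩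
   ⟨227, 275, 426, 474⟩ ⟨282, 294, 519, 533⟩ ⟨452, 482, 507, 538⟩
   ⟨0, 0, 0, 0⟩ ⟨0, 0, 0, 0⟩)
  (by decide +kernel)

theorem qAS0_279 : Cl ⟨0, false, true, false⟩ ⟨0, true, false, false⟩
    ⟨811, 868, 140, 207⟩ ⟨851, 956, 493, 604⟩ ⟨897, 934, 22, 62⟩ := .mk
  (.L ⟨423, 39, false, false, 16025, 5429⟩ ⟨621, 21, true, false, 5655, 9189⟩
   ⟨227, 275, 426, 474⟩ ⟨279, 294, 521, 537⟩ ⟨449, 481, 505, 539⟩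
   ⟨0, 0, 0, 0⟩ ⟨0, 0, 0, 0⟩)
  (by decide +kernel)

theorem qAS0_280 : Cl ⟨0, false, true, false⟩ ⟨0, true, false, false⟩
    ⟨811, 868, 140, 207⟩ ⟨851, 956, 493, 604⟩ ⟨882, 927, 32, 77⟩ := .mk
  (.L ⟨423, 39, false, false, 16025, 5429⟩ ⟨625, 22, true, false, 5903, 9626⟩
   ⟨227, 275, 426, 474⟩ ⟨280, 296, 521, 539⟩ ⟨448, 482, 506, 541⟩
   ⟨0, 0, 0, 0⟩ ⟨0, 0, 0, 0⟩)
  (by decide +kernel)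

theorem qAS0_281 : Cl ⟨0, false, true, false⟩ ⟨0, true, false, false⟩
    ⟨816, 869, 140, 207⟩ ⟨851, 956, 493, 604⟩ ⟨900, 1001, 0, 29⟩ := .mk
  (.L ⟨423, 39, false, false, 16057, 5563⟩ ⟨582, 20, true, false, 4738, 8554⟩
   ⟨227, 275, 426, 473⟩ ⟨270, 292, 518, 537⟩ ⟨448, 482, 500, 538⟩
   ⟨0, 0, 0, 0⟩ ⟨0, 0, 0, 0⟩)
  (by decide +kernel)

/-- The pairs of the file. -/
def rAS0 : List Pq := [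
  ⟨2, 5, ⟨775, 836, 141, 194⟩, ⟨537, 573, 688, 719⟩, ⟨558, 607, 363, 411⟩⟩,
  ⟨2, 3, ⟨788, 837, 144, 194⟩, ⟨537, 573, 688, 719⟩, ⟨741, 878, 246, 380⟩⟩,
  ⟨2, 4, ⟨780, 837, 151, 194⟩, ⟨537, 573, 688, 719⟩, ⟨765, 881, 353, 499⟩⟩,
  ⟨2, 8, ⟨795, 837, 138, 194⟩, ⟨537, 573, 688, 719⟩, ⟨694, 729, 150, 183⟩⟩,
  ⟨2, 6, ⟨799, 837, 140, 194⟩, ⟨537, 573, 688, 719⟩, ⟨799, 862, 140, 225⟩⟩,
  ⟨2, 7, ⟨792, 837, 143, 194⟩, ⟨537, 573, 688, 719⟩, ⟨778, 861, 202, 294⟩⟩,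
  ⟨2, 11, ⟨805, 837, 137, 194⟩, ⟨537, 573, 688, 719⟩, ⟨794, 814, 73, 92⟩⟩,
  ⟨2, 9, ⟨805, 837, 137, 194⟩, ⟨537, 573, 688, 719⟩, ⟨843, 885, 77, 140⟩⟩,
  ⟨2, 10, ⟨799, 837, 140, 194⟩, ⟨537, 573, 688, 719⟩, ⟨816, 877, 117, 176⟩⟩,
  ⟨2, 14, ⟨811, 837, 137, 194⟩, ⟨537, 573, 688, 719⟩, ⟨846, 873, 29, 56⟩⟩,
  ⟨2, 12, ⟨811, 837, 137, 194⟩, ⟨537, 573, 688, 719⟩, ⟨867, 914, 38, 90⟩⟩,
  ⟨2, 13, ⟨805, 837, 137, 194⟩, ⟨537, 573, 688, 719⟩, ⟨849, 904, 57, 112⟩⟩,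
  ⟨2, 17, ⟨811, 837, 137, 194⟩, ⟨537, 573, 688, 719⟩, ⟨886, 909, 14, 39⟩⟩,
  ⟨2, 15, ⟨811, 837, 137, 194⟩, ⟨537, 573, 688, 719⟩, ⟨897, 934, 22, 62⟩⟩,
  ⟨2, 16, ⟨811, 837, 137, 194⟩, ⟨537, 573, 688, 719⟩, ⟨882, 927, 32, 77⟩⟩,
  ⟨2, 20, ⟨816, 837, 138, 194⟩, ⟨537, 573, 688, 719⟩, ⟨900, 1001, 0, 29⟩⟩,
  ⟨2, 18, ⟨816, 837, 138, 194⟩, ⟨537, 573, 688, 719⟩, ⟨908, 1001, 0, 50⟩⟩,
  ⟨2, 19, ⟨816, 837, 138, 194⟩, ⟨537, 573, 688, 719⟩, ⟨895, 1001, 0, 61⟩⟩,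
  ⟨0, 5, ⟨792, 836, 146, 225⟩, ⟨729, 948, 353, 531⟩, ⟨558, 607, 363, 411⟩⟩,
  ⟨0, 3, ⟨792, 860, 146, 225⟩, ⟨729, 948, 353, 531⟩, ⟨741, 878, 246, 380⟩⟩,
  ⟨0, 4, ⟨792, 858, 151, 225⟩, ⟨729, 948, 353, 531⟩, ⟨765, 881, 353, 499⟩⟩,
  ⟨0, 8, ⟨795, 850, 146, 218⟩, ⟨729, 948, 353, 531⟩, ⟨694, 729, 150, 183⟩⟩,
  ⟨0, 6, ⟨799, 862, 146, 225⟩, ⟨729, 948, 353, 531⟩, ⟨799, 862, 140, 225⟩⟩,
  ⟨0, 7, ⟨792, 859, 146, 225⟩, ⟨729, 948, 353, 531⟩, ⟨778, 861, 202, 294⟩⟩,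
  ⟨0, 11, ⟨805, 865, 146, 217⟩, ⟨729, 948, 353, 531⟩, ⟨794, 814, 73, 92⟩⟩,
  ⟨0, 9, ⟨805, 865, 146, 217⟩, ⟨729, 948, 353, 531⟩, ⟨843, 885, 77, 140⟩⟩,
  ⟨0, 10, ⟨799, 862, 146, 225⟩, ⟨729, 948, 353, 531⟩, ⟨816, 877, 117, 176⟩⟩,
  ⟨0, 14, ⟨811, 868, 146, 212⟩, ⟨729, 948, 353, 531⟩, ⟨846, 873, 29, 56⟩⟩,
  ⟨0, 12, ⟨811, 868, 146, 212⟩, ⟨729, 948, 353, 531⟩, ⟨867, 914, 38, 90⟩⟩,
  ⟨0, 13, ⟨805, 865, 146, 217⟩, ⟨729, 948, 353, 531⟩, ⟨849, 904, 57, 112⟩⟩,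
  ⟨0, 17, ⟨811, 868, 146, 212⟩, ⟨729, 948, 353, 531⟩, ⟨886, 909, 14, 39⟩⟩,
  ⟨0, 15, ⟨811, 868, 146, 212⟩, ⟨729, 948, 353, 531⟩, ⟨897, 934, 22, 62⟩⟩,
  ⟨0, 16, ⟨811, 868, 146, 212⟩, ⟨729, 948, 353, 531⟩, ⟨882, 927, 32, 77⟩⟩,
  ⟨0, 20, ⟨816, 869, 146, 210⟩, ⟨729, 948, 353, 531⟩, ⟨900, 1001, 0, 29⟩⟩,
  ⟨0, 18, ⟨816, 869, 146, 210⟩, ⟨729, 948, 353, 531⟩, ⟨908, 1001, 0, 50⟩⟩,
  ⟨0, 19, ⟨816, 869, 146, 210⟩, ⟨729, 948, 353, 531⟩, ⟨895, 1001, 0, 61⟩⟩,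
  ⟨1, 5, ⟨806, 836, 141, 207⟩, ⟨851, 956, 493, 604⟩, ⟨558, 607, 363, 411⟩⟩,
  ⟨1, 3, ⟨806, 860, 144, 207⟩, ⟨851, 956, 493, 604⟩, ⟨741, 878, 246, 380⟩⟩,
  ⟨1, 4, ⟨806, 858, 151, 207⟩, ⟨851, 956, 493, 604⟩, ⟨765, 881, 353, 499⟩⟩,
  ⟨1, 8, ⟨806, 850, 140, 207⟩, ⟨851, 956, 493, 604⟩, ⟨694, 729, 150, 183⟩⟩,
  ⟨1, 6, ⟨806, 862, 140, 207⟩, ⟨851, 956, 493, 604⟩, ⟨799, 862, 140, 225⟩⟩,
  ⟨1, 7, ⟨806, 859, 143, 207⟩, ⟨851, 956, 493, 604⟩, ⟨778, 861, 202, 294⟩⟩,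
  ⟨1, 11, ⟨806, 865, 140, 207⟩, ⟨851, 956, 493, 604⟩, ⟨794, 814, 73, 92⟩⟩,
  ⟨1, 9, ⟨806, 865, 140, 207⟩, ⟨851, 956, 493, 604⟩, ⟨843, 885, 77, 140⟩⟩,
  ⟨1, 10, ⟨806, 862, 140, 207⟩, ⟨851, 956, 493, 604⟩, ⟨816, 877, 117, 176⟩⟩,
  ⟨1, 14, ⟨811, 868, 140, 207⟩, ⟨851, 956, 493, 604⟩, ⟨846, 873, 29, 56⟩⟩,
  ⟨1, 12, ⟨811, 868, 140, 207⟩, ⟨851, 956, 493, 604⟩, ⟨867, 914, 38, 90⟩⟩,
  ⟨1, 13, ⟨806, 865, 140, 207⟩, ⟨851, 956, 493, 604⟩, ⟨849, 904, 57, 112⟩⟩,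
  ⟨1, 17, ⟨811, 868, 140, 207⟩, ⟨851, 956, 493, 604⟩, ⟨886, 909, 14, 39⟩⟩,
  ⟨1, 15, ⟨811, 868, 140, 207⟩, ⟨851, 956, 493, 604⟩, ⟨897, 934, 22, 62⟩⟩,
  ⟨1, 16, ⟨811, 868, 140, 207⟩, ⟨851, 956, 493, 604⟩, ⟨882, 927, 32, 77⟩⟩,
  ⟨1, 20, ⟨816, 869, 140, 207⟩, ⟨851, 956, 493, 604⟩, ⟨900, 1001, 0, 29⟩⟩]

theorem rAS0_ok : ∀ p ∈ rAS0, Cr false true p :=
  List.forall_mem_cons.2 ⟨qAS0_230,
  List.forall_mem_cons.2 ⟨qAS0_231,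
  List.forall_mem_cons.2 ⟨qAS0_232,
  List.forall_mem_cons.2 ⟨qAS0_233,
  List.forall_mem_cons.2 ⟨qAS0_234,
  List.forall_mem_cons.2 ⟨qAS0_235,
  List.forall_mem_cons.2 ⟨qAS0_236,
  List.forall_mem_cons.2 ⟨qAS0_237,
  List.forall_mem_cons.2 ⟨qAS0_238,
  List.forall_mem_cons.2 ⟨qAS0_239,
  List.forall_mem_cons.2 ⟨qAS0_240,
  List.forall_mem_cons.2 ⟨qAS0_241,
  List.forall_mem_cons.2 ⟨qAS0_242,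
  List.forall_mem_cons.2 ⟨qAS0_243,
  List.forall_mem_cons.2 ⟨qAS0_244,
  List.forall_mem_cons.2 ⟨qAS0_245,
  List.forall_mem_cons.2 ⟨qAS0_246,
  List.forall_mem_cons.2 ⟨qAS0_247,
  List.forall_mem_cons.2 ⟨qAS0_248,
  List.forall_mem_cons.2 ⟨qAS0_249,
  List.forall_mem_cons.2 ⟨qAS0_250,
  List.forall_mem_cons.2 ⟨qAS0_251,
  List.forall_mem_cons.2 ⟨qAS0_252,
  List.forall_mem_cons.2 ⟨qAS0_253,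
  List.forall_mem_cons.2 ⟨qAS0_254,
  List.forall_mem_cons.2 ⟨qAS0_255,
  List.forall_mem_cons.2 ⟨qAS0_256,
  List.forall_mem_cons.2 ⟨qAS0_257,
  List.forall_mem_cons.2 ⟨qAS0_258,
  List.forall_mem_cons.2 ⟨qAS0_259,
  List.forall_mem_cons.2 ⟨qAS0_260,
  List.forall_mem_cons.2 ⟨qAS0_261,
  List.forall_mem_cons.2 ⟨qAS0_262,
  List.forall_mem_cons.2 ⟨qAS0_263,
  List.forall_mem_cons.2 ⟨qAS0_264,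
  List.forall_mem_cons.2 ⟨qAS0_265,
  List.forall_mem_cons.2 ⟨qAS0_266,
  List.forall_mem_cons.2 ⟨qAS0_267,
  List.forall_mem_cons.2 ⟨qAS0_268,
  List.forall_mem_cons.2 ⟨qAS0_269,
  List.forall_mem_cons.2 ⟨qAS0_270,
  List.forall_mem_cons.2 ⟨qAS0_271,
  List.forall_mem_cons.2 ⟨qAS0_272,
  List.forall_mem_cons.2 ⟨qAS0_273,
  List.forall_mem_cons.2 ⟨qAS0_274,
  List.forall_mem_cons.2 ⟨qAS0_275,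
  List.forall_mem_cons.2 ⟨qAS0_276,
  List.forall_mem_cons.2 ⟨qAS0_277,
  List.forall_mem_cons.2 ⟨qAS0_278,
  List.forall_mem_cons.2 ⟨qAS0_279,
  List.forall_mem_cons.2 ⟨qAS0_280,
  List.forall_mem_cons.2 ⟨qAS0_281,
  List.forall_mem_nil _⟩⟩⟩⟩⟩⟩⟩⟩⟩⟩⟩⟩⟩⟩⟩⟩⟩⟩⟩⟩⟩⟩⟩⟩⟩⟩⟩⟩⟩⟩⟩⟩⟩⟩⟩⟩⟩⟩⟩⟩⟩⟩⟩⟩⟩⟩⟩⟩⟩⟩⟩⟩

end Pool.Agent.S5.Z4
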