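import Pool.Agent.S5.Z4.Tre

/-!
# Inner nodes with four half twists: certificates
-/

set_option autoImplicit false

namespace Pool.Agent.S5.Z4

theorem qAS1_282 : Cl ⟨0, false, true, false⟩ ⟨0, true, false, false⟩
    ⟨816, 869, 140, 207⟩ ⟨851, 956, 493, 604⟩ ⟨908, 1001, 0, 50⟩ := .mk
  (.L ⟨423, 39, false, false, 16057, 5563⟩ ⟨582, 20, true, false, 4775, 9161⟩
   ⟨227, 275, 426, 473⟩ ⟨270, 292, 518, 539⟩ ⟨447, 482, 500, 538⟩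
   ⟨0, 0, 0, 0⟩ ⟨0, 0, 0, 0⟩)
  (by decide +kernel)

theorem qAS1_283 : Cl ⟨0, false, true, false⟩ ⟨0, true, false, false⟩
    ⟨816, 869, 140, 207⟩ ⟨851, 956, 493, 604⟩ ⟨895, 1001, 0, 61⟩ := .mk
  (.L ⟨423, 39, false, false, 16057, 5563⟩ ⟨582, 20, true, false, 4715, 9479⟩
   ⟨227, 275, 426, 473⟩ ⟨270, 294, 518, 540⟩ ⟨446, 482, 500, 540⟩
   ⟨0, 0, 0, 0⟩ ⟨0, 0, 0, 0⟩)
  (by decide +kernel)

theorem qAS1_284 : Cl ⟨2, false, false, true⟩ ⟨0, true, true, false⟩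
    ⟨779, 846, 165, 234⟩ ⟨603, 645, 276, 314⟩ ⟨733, 940, 400, 615⟩ := .mk
  (.S 5 507
   (.S 4 836
    (.S 0 812
     (.S 4 784
      (.L ⟨766, 23, false, false, 8420, 3817⟩ ⟨746, 75, true, false, 19414, 25752⟩
       ⟨305, 320, 473, 488⟩ ⟨314, 330, 559, 581⟩ ⟨437, 470, 513, 544⟩
       ⟨578, 645, 1058, 1128⟩ ⟨0, 0, 0, 0⟩)
      (.L ⟨766, 23, false, false, 8420, 3817⟩ ⟨708, 73, true, false, 18980, 25203⟩
       ⟨305, 320, 473, 488⟩ ⟨308, 325, 560, 582⟩ ⟨434, 467, 510, 541⟩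
       ⟨578, 645, 1058, 1128⟩ ⟨0, 0, 0, 0⟩))
     (.S 5 453
      (.L ⟨747, 25, false, false, 8973, 4407⟩ ⟨684, 74, true, false, 19695, 23523⟩
       ⟨302, 318, 471, 486⟩ ⟨305, 326, 561, 579⟩ ⟨435, 467, 509, 542⟩
       ⟨591, 658, 1067, 1137⟩ ⟨0, 0, 0, 0⟩)
      (.L ⟨747, 25, false, false, 8973, 4407⟩ ⟨674, 82, true, false, 21767, 25562⟩
       ⟨302, 318, 471, 486⟩ ⟨306, 328, 567, 585⟩ ⟨430, 464, 511, 546⟩
       ⟨591, 658, 1067, 1137⟩ ⟨0, 0, 0, 0⟩)))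
    (.S 0 812
     (.S 4 888
      (.L ⟨766, 23, false, false, 8420, 3817⟩ ⟨674, 71, true, false, 18539, 24659⟩
       ⟨305, 320, 473, 488⟩ ⟨302, 319, 561, 583⟩ ⟨431, 465, 506, 537⟩
       ⟨578, 645, 1058, 1128⟩ ⟨0, 0, 0, 0⟩)
      (.S 5 453
       (.L ⟨766, 23, false, false, 8420, 3817⟩ ⟨643, 70, true, false, 18102, 22399⟩
        ⟨305, 320, 473, 488⟩ ⟨296, 313, 562, 579⟩ ⟨433, 462, 502, 530⟩
        ⟨578, 645, 1058, 1128⟩ ⟨0, 0, 0, 0⟩)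
       (.L ⟨766, 23, false, false, 8420, 3817⟩ ⟨634, 76, true, false, 19765, 24122⟩
        ⟨305, 320, 473, 488⟩ ⟨297, 314, 567, 585⟩ ⟨428, 459, 504, 534⟩
        ⟨578, 645, 1058, 1128⟩ ⟨0, 0, 0, 0⟩)))
     (.S 4 888
      (.L ⟨747, 25, false, false, 8973, 4407⟩ ⟨650, 72, true, false, 18818, 25014⟩
       ⟨302, 318, 471, 486⟩ ⟨299, 317, 563, 586⟩ ⟨427, 462, 505, 538⟩
       ⟨591, 658, 1067, 1137⟩ ⟨0, 0, 0, 0⟩)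
      (.L ⟨747, 25, false, false, 8973, 4407⟩ ⟨619, 71, true, false, 18379, 24472⟩
       ⟨302, 318, 471, 486⟩ ⟨293, 311, 564, 588⟩ ⟨424, 460, 501, 534⟩
       ⟨591, 658, 1067, 1137⟩ ⟨0, 0, 0, 0⟩))))
   (.S 4 836
    (.S 5 561
     (.S 4 784
      (.S 1 199
       (.L ⟨761, 29, false, false, 8973, 4772⟩ ⟨699, 92, true, false, 23491, 27070⟩
        ⟨305, 320, 471, 485⟩ ⟨313, 329, 571, 587⟩ ⟨431, 461, 517, 547⟩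
        ⟨578, 648, 1072, 1137⟩ ⟨0, 0, 0, 0⟩)
       (.S 1 216
        (.L ⟨754, 27, false, false, 8183, 4307⟩ ⟨707, 97, true, false, 24691, 27679⟩
         ⟨304, 318, 473, 486⟩ ⟨316, 330, 573, 588⟩ ⟨433, 460, 521, 548⟩
         ⟨586, 653, 1065, 1125⟩ ⟨0, 0, 0, 0⟩)
        (.S 5 534
         (.L ⟨747, 25, false, false, 7794, 3817⟩ ⟨711, 99, true, false, 25297, 27213⟩
          ⟨302, 317, 474, 488⟩ ⟨317, 331, 574, 586⟩ ⟨435, 461, 522, 548⟩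
          ⟨590, 658, 1058, 1119⟩ ⟨0, 0, 0, 0⟩)
         (.S 5 547
          (.L ⟨747, 25, false, false, 7794, 3817⟩ ⟨705, 103, true, false, 26371, 27748⟩
           ⟨302, 317, 474, 488⟩ ⟨318, 331, 577, 588⟩ ⟨434, 459, 524, 549⟩
           ⟨590, 658, 1058, 1119⟩ ⟨0, 0, 0, 0⟩)
          (.S 0 812
           (.L ⟨766, 23, false, false, 7175, 3817⟩ ⟨725, 104, true, false, 26892, 27881⟩
            ⟨305, 317, 476, 488⟩ ⟨321, 332, 579, 586⟩ ⟨438, 458, 527, 547⟩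
            ⟨590, 645, 1058, 1110⟩ ⟨0, 0, 0, 0⟩)
           (.S 0 829
            (.L ⟨756, 24, false, false, 7486, 4407⟩ ⟨713, 104, true, false, 27325, 28105⟩
             ⟨303, 315, 475, 486⟩ ⟨320, 330, 581, 588⟩ ⟨436, 455, 528, 548⟩
             ⟨603, 652, 1067, 1114⟩ ⟨0, 0, 0, 0⟩)
            (.D ⟨747, 25, false, false, 7794, 4707⟩ ⟨702, 105, true, false, 27549, 28328⟩
             ⟨302, 313, 474, 484⟩ ⟨319, 329, 583, 589⟩ ⟨435, 452, 529, 548⟩)))))))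
      (.L ⟨747, 25, false, false, 8973, 3817⟩ ⟨662, 89, true, false, 22822, 27646⟩
       ⟨302, 320, 471, 488⟩ ⟨307, 326, 572, 591⟩ ⟨425, 461, 512, 548⟩
       ⟨578, 658, 1058, 1137⟩ ⟨0, 0, 0, 0⟩))
     (.S 0 812
      (.S 4 784
       (.S 4 758
        (.L ⟨766, 23, false, false, 8420, 3817⟩ ⟨727, 100, true, false, 25615, 30477⟩
         ⟨305, 320, 473, 488⟩ ⟨320, 333, 577, 592⟩ ⟨431, 460, 524, 552⟩
         ⟨578, 645, 1058, 1128⟩ ⟨0, 0, 0, 0⟩)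
        (.L ⟨766, 23, false, false, 8420, 3817⟩ ⟨707, 98, true, false, 25222, 30064⟩
         ⟨305, 320, 473, 488⟩ ⟨317, 330, 577, 593⟩ ⟨428, 458, 522, 550⟩
         ⟨578, 645, 1058, 1128⟩ ⟨0, 0, 0, 0⟩))
       (.L ⟨766, 23, false, false, 8420, 3817⟩ ⟨671, 95, true, false, 24814, 29242⟩
        ⟨305, 320, 473, 488⟩ ⟨311, 327, 578, 594⟩ ⟨425, 456, 517, 549⟩
        ⟨578, 645, 1058, 1128⟩ ⟨0, 0, 0, 0⟩))
      (.S 4 784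
       (.S 0 829
        (.S 1 199
         (.D ⟨771, 27, false, false, 8698, 5316⟩ ⟨696, 100, true, false, 26135, 29025⟩
          ⟨306, 318, 472, 483⟩ ⟨316, 328, 580, 592⟩ ⟨429, 453, 524, 548⟩)
         (.S 5 588
          (.S 4 758
           (.L ⟨756, 24, false, false, 7886, 4407⟩ ⟨725, 106, true, false, 27316, 29589⟩
            ⟨303, 316, 474, 486⟩ ⟨322, 330, 582, 590⟩ ⟨435, 454, 530, 549⟩
            ⟨599, 652, 1067, 1120⟩ ⟨0, 0, 0, 0⟩)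
           (.L ⟨756, 24, false, false, 7886, 4407⟩ ⟨705, 104, true, false, 26955, 29212⟩
            ⟨303, 316, 474, 486⟩ ⟨319, 328, 583, 591⟩ ⟨432, 453, 528, 548⟩
            ⟨599, 652, 1067, 1120⟩ ⟨0, 0, 0, 0⟩))
          (.S 4 758
           (.S 0 820
            (.S 1 216
             (.D ⟨769, 25, false, false, 7728, 4873⟩ ⟨724, 110, true, false, 28456, 29941⟩
              ⟨306, 316, 474, 484⟩ ⟨323, 330, 585, 592⟩ ⟨434, 451, 532, 549⟩)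
             (.S 1 225
              (.D ⟨765, 24, false, false, 7322, 4639⟩ ⟨729, 112, true, false, 29060, 30272⟩
               ⟨305, 315, 476, 485⟩ ⟨325, 330, 586, 592⟩ ⟨436, 450, 534, 549⟩)
              (.D ⟨761, 23, false, false, 7108, 4407⟩ ⟨731, 113, true, false, 29382, 30605⟩
               ⟨304, 314, 476, 486⟩ ⟨325, 331, 587, 593⟩ ⟨435, 451, 535, 550⟩)))
            (.D ⟨756, 24, false, false, 7886, 4548⟩ ⟨718, 110, true, false, 28583, 30748⟩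
             ⟨303, 315, 474, 485⟩ ⟨322, 331, 586, 593⟩ ⟨432, 451, 532, 551⟩))
           (.S 1 216
            (.D ⟨764, 26, false, false, 7886, 4873⟩ ⟨698, 109, true, false, 28060, 29658⟩
             ⟨305, 316, 474, 484⟩ ⟨319, 327, 586, 593⟩ ⟨431, 449, 529, 547⟩)
            (.S 0 820
             (.L ⟨761, 23, false, false, 7322, 4407⟩ ⟨709, 110, true, false, 28680, 30191⟩
              ⟨304, 315, 476, 486⟩ ⟨321, 328, 587, 593⟩ ⟨433, 449, 531, 548⟩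
              ⟨603, 648, 1067, 1112⟩ ⟨0, 0, 0, 0⟩)
             (.D ⟨756, 24, false, false, 7486, 4548⟩ ⟨703, 111, true, false, 28802, 30334⟩
              ⟨303, 314, 475, 485⟩ ⟨321, 328, 587, 594⟩ ⟨432, 449, 532, 549⟩))))))
        (.S 1 199
         (.D ⟨761, 29, false, false, 8973, 5593⟩ ⟨685, 101, true, false, 26403, 29319⟩
          ⟨305, 316, 471, 482⟩ ⟨315, 327, 581, 594⟩ ⟨427, 452, 525, 549⟩)
         (.D ⟨747, 25, false, false, 8183, 4707⟩ ⟨694, 105, true, false, 27562, 30605⟩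
          ⟨302, 314, 473, 484⟩ ⟨318, 330, 583, 596⟩ ⟨428, 453, 528, 553⟩)))
       (.S 5 588
        (.S 4 810
         (.S 1 199
          (.D ⟨761, 29, false, false, 8973, 5316⟩ ⟨666, 99, true, false, 25332, 27775⟩
           ⟨305, 318, 471, 483⟩ ⟨311, 321, 581, 591⟩ ⟨427, 449, 520, 542⟩)
          (.S 0 829
           (.L ⟨756, 24, false, false, 7886, 4407⟩ ⟨687, 103, true, false, 26579, 28836⟩
            ⟨303, 316, 474, 486⟩ ⟨316, 325, 583, 592⟩ ⟨430, 451, 525, 546⟩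
            ⟨599, 652, 1067, 1120⟩ ⟨0, 0, 0, 0⟩)
           (.D ⟨747, 25, false, false, 8183, 4707⟩ ⟨675, 104, true, false, 26825, 29081⟩
            ⟨302, 314, 473, 484⟩ ⟨314, 324, 585, 593⟩ ⟨429, 449, 526, 547⟩)))
         (.L ⟨747, 25, false, false, 8973, 4407⟩ ⟨649, 97, true, false, 24924, 28706⟩
          ⟨302, 318, 471, 486⟩ ⟨308, 322, 581, 594⟩ ⟨423, 452, 517, 546⟩
          ⟨591, 658, 1067, 1137⟩ ⟨0, 0, 0, 0⟩))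
        (.S 0 829
         (.S 1 199
          (.D ⟨771, 27, false, false, 8698, 5316⟩ ⟨652, 100, true, false, 26388, 28130⟩
           ⟨306, 318, 472, 483⟩ ⟨310, 322, 584, 593⟩ ⟨426, 447, 521, 544⟩)
          (.S 4 810
           (.S 1 216
            (.L ⟨764, 26, false, false, 7886, 4873⟩ ⟨679, 107, true, false, 27649, 29227⟩
             ⟨305, 316, 474, 484⟩ ⟨316, 324, 586, 594⟩ ⟨429, 447, 527, 546⟩
             ⟨599, 647, 1074, 1120⟩ ⟨0, 0, 0, 0⟩)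
            (.L ⟨756, 24, false, false, 7486, 4407⟩ ⟨684, 109, true, false, 28286, 29921⟩
             ⟨303, 315, 475, 486⟩ ⟨318, 325, 587, 595⟩ ⟨429, 448, 529, 548⟩
             ⟨603, 652, 1067, 1114⟩ ⟨0, 0, 0, 0⟩))
           (.L ⟨756, 24, false, false, 7886, 4407⟩ ⟨662, 105, true, false, 27238, 29510⟩
            ⟨303, 316, 474, 486⟩ ⟨313, 322, 587, 596⟩ ⟨425, 447, 525, 546⟩
            ⟨599, 652, 1067, 1120⟩ ⟨0, 0, 0, 0⟩)))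
         (.S 1 199
          (.D ⟨761, 29, false, false, 8973, 5593⟩ ⟨641, 101, true, false, 26680, 28422⟩
           ⟨305, 316, 471, 482⟩ ⟨308, 321, 586, 595⟩ ⟨423, 445, 521, 545⟩)
          (.D ⟨747, 25, false, false, 8183, 4707⟩ ⟨651, 106, true, false, 27918, 29779⟩
           ⟨302, 314, 473, 484⟩ ⟨312, 324, 588, 597⟩ ⟨424, 447, 525, 549⟩)))))))
    (.S 4 888
     (.S 1 199
      (.S 5 561
       (.L ⟨761, 29, false, false, 8973, 4772⟩ ⟨629, 87, true, false, 22145, 25573⟩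
        ⟨305, 320, 471, 485⟩ ⟨301, 317, 572, 590⟩ ⟨424, 455, 508, 539⟩
        ⟨578, 648, 1072, 1137⟩ ⟨0, 0, 0, 0⟩)
       (.L ⟨761, 29, false, false, 8973, 4772⟩ ⟨616, 94, true, false, 24004, 27532⟩
        ⟨305, 320, 471, 485⟩ ⟨302, 318, 578, 596⟩ ⟨418, 451, 511, 543⟩
        ⟨578, 648, 1072, 1137⟩ ⟨0, 0, 0, 0⟩))
      (.S 5 561
       (.S 0 812
        (.L ⟨766, 23, false, false, 7587, 3817⟩ ⟨660, 90, true, false, 23473, 26529⟩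
         ⟨305, 318, 475, 488⟩ ⟨307, 321, 575, 589⟩ ⟨429, 456, 514, 541⟩
         ⟨586, 645, 1058, 1116⟩ ⟨0, 0, 0, 0⟩)
        (.L ⟨747, 25, false, false, 8183, 4407⟩ ⟨637, 92, true, false, 23861, 26968⟩
         ⟨302, 316, 473, 486⟩ ⟨304, 318, 578, 592⟩ ⟨425, 452, 514, 541⟩
         ⟨599, 658, 1067, 1125⟩ ⟨0, 0, 0, 0⟩))
       (.S 4 862
        (.S 5 588
         (.L ⟨747, 25, false, false, 8183, 3817⟩ ⟨641, 101, true, false, 25360, 28331⟩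
          ⟨302, 318, 473, 488⟩ ⟨308, 321, 581, 595⟩ ⟨423, 452, 517, 546⟩
          ⟨586, 658, 1058, 1125⟩ ⟨0, 0, 0, 0⟩)
         (.S 5 601
          (.L ⟨747, 25, false, false, 8183, 3817⟩ ⟨634, 105, true, false, 26315, 28829⟩
           ⟨302, 318, 473, 488⟩ ⟨309, 321, 584, 596⟩ ⟨423, 450, 519, 546⟩
           ⟨586, 658, 1058, 1125⟩ ⟨0, 0, 0, 0⟩)
          (.S 0 812
           (.L ⟨766, 23, false, false, 7587, 3817⟩ ⟨653, 105, true, false, 26778, 28834⟩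
            ⟨305, 318, 475, 488⟩ ⟨312, 322, 586, 594⟩ ⟨427, 448, 522, 544⟩
            ⟨586, 645, 1058, 1116⟩ ⟨0, 0, 0, 0⟩)
           (.S 0 829
            (.L ⟨756, 24, false, false, 7886, 4407⟩ ⟨642, 106, true, false, 27314, 29101⟩
             ⟨303, 316, 474, 486⟩ ⟨310, 319, 589, 596⟩ ⟨424, 444, 523, 544⟩
             ⟨599, 652, 1067, 1120⟩ ⟨0, 0, 0, 0⟩)
            (.D ⟨747, 25, false, false, 8183, 4707⟩ ⟨631, 107, true, false, 27593, 29368⟩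
             ⟨302, 314, 473, 484⟩ ⟨309, 318, 591, 598⟩ ⟨422, 441, 524, 544⟩)))))
        (.S 4 875
         (.L ⟨747, 25, false, false, 8183, 3817⟩ ⟨633, 100, true, false, 24992, 29163⟩
          ⟨302, 318, 473, 488⟩ ⟨307, 319, 582, 598⟩ ⟨420, 451, 516, 545⟩
          ⟨586, 658, 1058, 1125⟩ ⟨0, 0, 0, 0⟩)
         (.L ⟨747, 25, false, false, 8183, 3817⟩ ⟨625, 99, true, false, 24809, 28960⟩
          ⟨302, 318, 473, 488⟩ ⟨305, 318, 582, 599⟩ ⟨418, 450, 515, 545⟩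
          ⟨586, 658, 1058, 1125⟩ ⟨0, 0, 0, 0⟩)))))
     (.S 0 812
      (.S 5 561
       (.L ⟨766, 23, false, false, 8420, 3817⟩ ⟨623, 82, true, false, 21477, 25866⟩
        ⟨305, 320, 473, 488⟩ ⟨298, 315, 573, 590⟩ ⟨424, 455, 506, 537⟩
        ⟨578, 645, 1058, 1128⟩ ⟨0, 0, 0, 0⟩)
       (.L ⟨766, 23, false, false, 8420, 3817⟩ ⟨611, 89, true, false, 23206, 27632⟩
        ⟨305, 320, 473, 488⟩ ⟨298, 316, 579, 596⟩ ⟨418, 451, 507, 541⟩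
        ⟨578, 645, 1058, 1128⟩ ⟨0, 0, 0, 0⟩))
      (.S 1 199
       (.L ⟨761, 29, false, false, 8973, 5316⟩ ⟨600, 84, true, false, 21900, 26656⟩
        ⟨305, 318, 471, 483⟩ ⟨294, 310, 576, 597⟩ ⟨415, 449, 505, 536⟩
        ⟨591, 648, 1080, 1137⟩ ⟨0, 0, 0, 0⟩)
       (.L ⟨747, 25, false, false, 8183, 4407⟩ ⟨607, 90, true, false, 23251, 28152⟩
        ⟨302, 316, 473, 486⟩ ⟨298, 314, 579, 600⟩ ⟨415, 450, 509, 542⟩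
        ⟨599, 658, 1067, 1125⟩ ⟨0, 0, 0, 0⟩))))))
  (by decide +kernel)

theorem qAS1_285 : Cl ⟨2, false, false, true⟩ ⟨2, true, false, true⟩
    ⟨779, 836, 165, 234⟩ ⟨603, 645, 276, 314⟩ ⟨558, 607, 363, 411⟩ := .mk
  (.L ⟨752, 24, false, false, 8811, 3817⟩ ⟨900, 75, true, false, 19257, 23375⟩
   ⟨303, 320, 471, 488⟩ ⟨331, 346, 551, 565⟩ ⟨455, 481, 522, 548⟩
   ⟨578, 654, 1058, 1134⟩ ⟨506, 570, 653, 719⟩)
  (by decide +kernel)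

theorem qAS1_286 : Cl ⟨2, false, false, true⟩ ⟨0, true, true, true⟩
    ⟨788, 846, 165, 234⟩ ⟨603, 645, 276, 314⟩ ⟨741, 878, 246, 380⟩ := .mk
  (.S 4 809
   (.S 5 313
    (.S 0 817
     (.L ⟨763, 23, false, false, 8502, 3979⟩ ⟨741, 53, true, false, 13790, 18407⟩
      ⟨304, 319, 472, 487⟩ ⟨307, 323, 543, 561⟩ ⟨450, 477, 505, 531⟩
      ⟨581, 647, 1060, 1130⟩ ⟨0, 0, 0, 0⟩)
     (.L ⟨747, 25, false, false, 8973, 4495⟩ ⟨721, 53, true, false, 13871, 18488⟩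
      ⟨302, 317, 471, 485⟩ ⟨304, 320, 544, 562⟩ ⟨448, 475, 505, 531⟩
      ⟨593, 658, 1068, 1137⟩ ⟨0, 0, 0, 0⟩))
    (.S 0 817
     (.L ⟨763, 23, false, false, 8502, 3979⟩ ⟨736, 62, true, false, 16211, 20818⟩
      ⟨304, 319, 472, 487⟩ ⟨308, 325, 550, 568⟩ ⟨445, 473, 508, 535⟩
      ⟨581, 647, 1060, 1130⟩ ⟨0, 0, 0, 0⟩)
     (.L ⟨747, 25, false, false, 8973, 4495⟩ ⟨715, 63, true, false, 16361, 20972⟩
      ⟨302, 317, 471, 485⟩ ⟨306, 323, 552, 570⟩ ⟨443, 471, 508, 536⟩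
      ⟨593, 658, 1068, 1137⟩ ⟨0, 0, 0, 0⟩)))
   (.S 0 817
    (.S 5 313
     (.L ⟨763, 23, false, false, 8502, 3979⟩ ⟨693, 52, true, false, 13602, 18214⟩
      ⟨304, 319, 472, 487⟩ ⟨299, 316, 545, 563⟩ ⟨446, 473, 501, 527⟩
      ⟨581, 647, 1060, 1130⟩ ⟨0, 0, 0, 0⟩)
     (.L ⟨763, 23, false, false, 8502, 3979⟩ ⟨688, 61, true, false, 15859, 20453⟩
      ⟨304, 319, 472, 487⟩ ⟨301, 318, 552, 570⟩ ⟨442, 470, 504, 531⟩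
      ⟨581, 647, 1060, 1130⟩ ⟨0, 0, 0, 0⟩))
    (.S 1 199
     (.L ⟨761, 29, false, false, 8973, 5398⟩ ⟨672, 53, true, false, 13682, 19312⟩
      ⟨305, 317, 471, 483⟩ ⟨296, 313, 546, 569⟩ ⟨441, 470, 501, 527⟩
      ⟨593, 648, 1082, 1137⟩ ⟨0, 0, 0, 0⟩)
     (.L ⟨747, 25, false, false, 8183, 4495⟩ ⟨674, 57, true, false, 14840, 20606⟩
      ⟨302, 315, 473, 485⟩ ⟨298, 315, 549, 572⟩ ⟨440, 470, 503, 530⟩
      ⟨600, 658, 1068, 1125⟩ ⟨0, 0, 0, 0⟩))))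
  (by decide +kernel)

theorem qAS1_287 : Cl ⟨2, false, false, true⟩ ⟨0, true, true, true⟩
    ⟨780, 846, 165, 234⟩ ⟨603, 645, 276, 314⟩ ⟨765, 881, 353, 499⟩ := .mk
  (.S 4 823
   (.S 5 426
    (.S 0 813
     (.L ⟨765, 23, false, false, 8437, 3835⟩ ⟨723, 67, true, false, 17463, 22376⟩
      ⟨305, 320, 473, 488⟩ ⟨308, 324, 555, 573⟩ ⟨441, 470, 508, 536⟩
      ⟨578, 646, 1058, 1129⟩ ⟨0, 0, 0, 0⟩)
     (.L ⟨747, 25, false, false, 8973, 4424⟩ ⟨700, 68, true, false, 17684, 22611⟩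
      ⟨302, 318, 471, 486⟩ ⟨305, 322, 556, 575⟩ ⟨439, 468, 508, 537⟩
      ⟨591, 658, 1067, 1137⟩ ⟨0, 0, 0, 0⟩))
    (.S 0 813
     (.L ⟨765, 23, false, false, 8437, 3835⟩ ⟨711, 77, true, false, 20093, 25053⟩
      ⟨305, 320, 473, 488⟩ ⟨310, 326, 562, 581⟩ ⟨436, 466, 512, 541⟩
      ⟨578, 646, 1058, 1129⟩ ⟨0, 0, 0, 0⟩)
     (.L ⟨747, 25, false, false, 8973, 4424⟩ ⟨688, 78, true, false, 20409, 25390⟩
      ⟨302, 318, 471, 486⟩ ⟨307, 324, 565, 584⟩ ⟨432, 464, 512, 543⟩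
      ⟨591, 658, 1067, 1137⟩ ⟨0, 0, 0, 0⟩)))
   (.S 0 813
    (.S 5 426
     (.L ⟨765, 23, false, false, 8437, 3835⟩ ⟨684, 66, true, false, 17077, 21965⟩
      ⟨305, 320, 473, 488⟩ ⟨302, 319, 556, 575⟩ ⟨438, 468, 504, 533⟩
      ⟨578, 646, 1058, 1129⟩ ⟨0, 0, 0, 0⟩)
     (.L ⟨765, 23, false, false, 8437, 3835⟩ ⟨673, 75, true, false, 19539, 24465⟩
      ⟨305, 320, 473, 488⟩ ⟨303, 320, 563, 582⟩ ⟨432, 464, 507, 537⟩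
      ⟨578, 646, 1058, 1129⟩ ⟨0, 0, 0, 0⟩))
    (.S 5 426
     (.L ⟨747, 25, false, false, 8973, 4424⟩ ⟨661, 66, true, false, 17297, 22198⟩
      ⟨302, 318, 471, 486⟩ ⟨298, 316, 558, 577⟩ ⟨435, 465, 503, 534⟩
      ⟨591, 658, 1067, 1137⟩ ⟨0, 0, 0, 0⟩)
     (.L ⟨747, 25, false, false, 8973, 4424⟩ ⟨650, 76, true, false, 19854, 24799⟩
      ⟨302, 318, 471, 486⟩ ⟨300, 318, 566, 585⟩ ⟨428, 461, 507, 539⟩
      ⟨591, 658, 1067, 1137⟩ ⟨0, 0, 0, 0⟩))))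
  (by decide +kernel)

theorem qAS1_288 : Cl ⟨2, false, false, true⟩ ⟨0, true, false, false⟩
    ⟨795, 846, 165, 218⟩ ⟨603, 645, 276, 314⟩ ⟨694, 729, 150, 183⟩ := .mk
  (.L ⟨754, 27, false, false, 8973, 4529⟩ ⟨788, 40, true, false, 10357, 13179⟩
   ⟨303, 319, 471, 485⟩ ⟨310, 322, 532, 543⟩ ⟨462, 482, 505, 525⟩
   ⟨584, 654, 1069, 1137⟩ ⟨0, 0, 0, 0⟩)
  (by decide +kernel)

theorem qAS1_289 : Cl ⟨2, false, false, true⟩ ⟨0, true, true, true⟩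
    ⟨799, 846, 165, 225⟩ ⟨603, 645, 276, 314⟩ ⟨799, 862, 140, 225⟩ := .mk
  (.L ⟨751, 26, false, false, 8973, 4413⟩ ⟨685, 39, true, false, 10072, 14999⟩
   ⟨303, 319, 471, 486⟩ ⟨295, 312, 533, 554⟩ ⟨452, 479, 496, 522⟩
   ⟨586, 655, 1067, 1137⟩ ⟨0, 0, 0, 0⟩)
  (by decide +kernel)

theorem qAS1_290 : Cl ⟨2, false, false, true⟩ ⟨0, true, true, true⟩
    ⟨792, 846, 165, 231⟩ ⟨603, 645, 276, 314⟩ ⟨778, 861, 202, 294⟩ := .mk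
  (.S 0 819
   (.S 1 198
    (.L ⟨778, 27, false, false, 8535, 5014⟩ ⟨705, 47, true, false, 12180, 16314⟩
     ⟨307, 319, 472, 484⟩ ⟨300, 316, 539, 557⟩ ⟨451, 475, 501, 524⟩
     ⟨583, 638, 1076, 1130⟩ ⟨0, 0, 0, 0⟩)
    (.L ⟨763, 24, false, false, 7735, 4130⟩ ⟨705, 51, true, false, 13286, 17516⟩
     ⟨304, 317, 475, 487⟩ ⟨301, 318, 543, 561⟩ ⟨450, 475, 502, 527⟩
     ⟨591, 647, 1062, 1118⟩ ⟨0, 0, 0, 0⟩))
   (.L ⟨748, 26, false, false, 8973, 4607⟩ ⟨685, 47, true, false, 12214, 17576⟩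
    ⟨302, 317, 471, 485⟩ ⟨297, 315, 540, 562⟩ ⟨447, 475, 500, 527⟩
    ⟨593, 657, 1070, 1137⟩ ⟨0, 0, 0, 0⟩))
  (by decide +kernel)

theorem qAS1_291 : Cl ⟨2, false, false, true⟩ ⟨0, true, false, false⟩
    ⟨805, 846, 165, 217⟩ ⟨603, 645, 276, 314⟩ ⟨794, 814, 73, 92⟩ := .mk
  (.L ⟨754, 27, false, false, 8973, 4727⟩ ⟨716, 30, true, false, 7802, 10071⟩
   ⟨304, 318, 471, 485⟩ ⟨298, 307, 526, 536⟩ ⟨464, 481, 497, 514⟩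
   ⟨588, 653, 1072, 1137⟩ ⟨0, 0, 0, 0⟩)
  (by decide +kernel)

theorem qAS1_292 : Cl ⟨2, false, false, true⟩ ⟨0, true, false, false⟩
    ⟨805, 846, 165, 217⟩ ⟨603, 645, 276, 314⟩ ⟨843, 885, 77, 140⟩ := .mk
  (.L ⟨754, 27, false, false, 8973, 4727⟩ ⟨667, 31, true, false, 8080, 11925⟩
   ⟨304, 318, 471, 485⟩ ⟨290, 304, 528, 545⟩ ⟨457, 479, 493, 514⟩
   ⟨588, 653, 1072, 1137⟩ ⟨0, 0, 0, 0⟩)
  (by decide +kernel)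

theorem qAS1_293 : Cl ⟨2, false, false, true⟩ ⟨0, true, false, false⟩
    ⟨799, 846, 165, 225⟩ ⟨603, 645, 276, 314⟩ ⟨816, 877, 117, 176⟩ := .mk
  (.L ⟨751, 26, false, false, 8973, 4413⟩ ⟨674, 36, true, false, 9329, 13370⟩
   ⟨303, 319, 471, 486⟩ ⟨292, 309, 531, 549⟩ ⟨455, 479, 494, 519⟩
   ⟨586, 655, 1067, 1137⟩ ⟨0, 0, 0, 0⟩)
  (by decide +kernel)

theorem qAS1_294 : Cl ⟨2, false, false, true⟩ ⟨0, true, false, false⟩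
    ⟨811, 846, 165, 212⟩ ⟨603, 645, 276, 314⟩ ⟨846, 873, 29, 56⟩ := .mk
  (.L ⟨756, 27, false, false, 8973, 4960⟩ ⟨672, 25, true, false, 6535, 8976⟩
   ⟨304, 318, 471, 484⟩ ⟨290, 299, 523, 534⟩ ⟨464, 481, 492, 508⟩
   ⟨590, 652, 1075, 1137⟩ ⟨0, 0, 0, 0⟩)
  (by decide +kernel)

theorem qAS1_295 : Cl ⟨2, false, false, true⟩ ⟨0, true, false, false⟩
    ⟨811, 846, 165, 212⟩ ⟨603, 645, 276, 314⟩ ⟨867, 914, 38, 90⟩ := .mk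
  (.L ⟨756, 27, false, false, 8973, 4960⟩ ⟨647, 27, true, false, 6911, 10251⟩
   ⟨304, 318, 471, 484⟩ ⟨285, 299, 525, 540⟩ ⟨460, 480, 490, 510⟩
   ⟨590, 652, 1075, 1137⟩ ⟨0, 0, 0, 0⟩)
  (by decide +kernel)

theorem qAS1_296 : Cl ⟨2, false, false, true⟩ ⟨0, true, false, false⟩
    ⟨805, 846, 165, 217⟩ ⟨603, 645, 276, 314⟩ ⟨849, 904, 57, 112⟩ := .mk
  (.L ⟨754, 27, false, false, 8973, 4727⟩ ⟨654, 29, true, false, 7462, 11084⟩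
   ⟨304, 318, 471, 485⟩ ⟨287, 302, 526, 542⟩ ⟨459, 480, 491, 512⟩
   ⟨588, 653, 1072, 1137⟩ ⟨0, 0, 0, 0⟩)
  (by decide +kernel)

theorem qAS1_297 : Cl ⟨2, false, false, true⟩ ⟨0, true, false, false⟩
    ⟨811, 846, 165, 212⟩ ⟨603, 645, 276, 314⟩ ⟨886, 909, 14, 39⟩ := .mk
  (.L ⟨756, 27, false, false, 8973, 4960⟩ ⟨648, 24, true, false, 6257, 8634⟩
   ⟨304, 318, 471, 484⟩ ⟨285, 294, 523, 534⟩ ⟨463, 480, 489, 505⟩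
   ⟨590, 652, 1075, 1137⟩ ⟨0, 0, 0, 0⟩)
  (by decide +kernel)

theorem qAS1_298 : Cl ⟨2, false, false, true⟩ ⟨0, true, false, false⟩
    ⟨811, 846, 165, 212⟩ ⟨603, 645, 276, 314⟩ ⟨897, 934, 22, 62⟩ := .mk
  (.L ⟨756, 27, false, false, 8973, 4960⟩ ⟨633, 25, true, false, 6554, 9478⟩
   ⟨304, 318, 471, 484⟩ ⟨282, 294, 524, 538⟩ ⟨460, 479, 488, 506⟩
   ⟨590, 652, 1075, 1137⟩ ⟨0, 0, 0, 0⟩)
  (by decide +kernel)

theorem qAS1_299 : Cl ⟨2, false, false, true⟩ ⟨0, true, false, false⟩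
    ⟨811, 846, 165, 212⟩ ⟨603, 645, 276, 314⟩ ⟨882, 927, 32, 77⟩ := .mk
  (.L ⟨756, 27, false, false, 8973, 4960⟩ ⟨638, 26, true, false, 6790, 9904⟩
   ⟨304, 318, 471, 484⟩ ⟨284, 296, 524, 539⟩ ⟨460, 480, 489, 508⟩
   ⟨590, 652, 1075, 1137⟩ ⟨0, 0, 0, 0⟩)
  (by decide +kernel)

theorem qAS1_300 : Cl ⟨2, false, false, true⟩ ⟨0, true, false, false⟩
    ⟨816, 846, 165, 210⟩ ⟨603, 645, 276, 314⟩ ⟨900, 1001, 0, 29⟩ := .mk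
  (.L ⟨757, 28, false, false, 8973, 5096⟩ ⟨595, 24, true, false, 5715, 8805⟩
   ⟨304, 317, 471, 483⟩ ⟨274, 292, 522, 537⟩ ⟨460, 480, 484, 505⟩
   ⟨592, 651, 1077, 1137⟩ ⟨0, 0, 0, 0⟩)
  (by decide +kernel)

theorem qAS1_301 : Cl ⟨2, false, false, true⟩ ⟨0, true, false, false⟩
    ⟨816, 846, 165, 210⟩ ⟨603, 645, 276, 314⟩ ⟨908, 1001, 0, 50⟩ := .mk
  (.L ⟨757, 28, false, false, 8973, 5096⟩ ⟨595, 24, true, false, 5759, 9396⟩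
   ⟨304, 317, 471, 483⟩ ⟨274, 292, 522, 539⟩ ⟨459, 480, 484, 505⟩
   ⟨592, 651, 1077, 1137⟩ ⟨0, 0, 0, 0⟩)
  (by decide +kernel)

theorem qAS1_302 : Cl ⟨2, false, false, true⟩ ⟨0, true, false, false⟩
    ⟨816, 846, 165, 210⟩ ⟨603, 645, 276, 314⟩ ⟨895, 1001, 0, 61⟩ := .mk
  (.L ⟨757, 28, false, false, 8973, 5096⟩ ⟨595, 24, true, false, 5688, 9706⟩
   ⟨304, 317, 471, 483⟩ ⟨274, 294, 521, 540⟩ ⟨458, 481, 483, 507⟩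
   ⟨592, 651, 1077, 1137⟩ ⟨0, 0, 0, 0⟩)
  (by decide +kernel)

theorem qAS1_304 : Cl ⟨0, false, true, true⟩ ⟨2, true, false, true⟩
    ⟨794, 836, 165, 234⟩ ⟨761, 868, 212, 319⟩ ⟨558, 607, 363, 411⟩ := .mk
  (.L ⟨586, 8, false, false, 6354, 1878⟩ ⟨900, 75, true, false, 19359, 23375⟩
   ⟨270, 301, 476, 508⟩ ⟨331, 345, 552, 565⟩ ⟨460, 493, 527, 560⟩
   ⟨0, 0, 0, 0⟩ ⟨512, 570, 653, 718⟩)
  (by decide +kernel)

theorem qAS1_305 : Cl ⟨0, false, true, true⟩ ⟨0, true, true, true⟩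
    ⟨794, 860, 165, 240⟩ ⟨761, 868, 212, 319⟩ ⟨741, 878, 246, 380⟩ := .mk
  (.S 4 809
   (.S 0 827
    (.S 0 810
     (.L ⟨600, 0, true, false, 5905, 2092⟩ ⟨746, 53, true, false, 13807, 20998⟩
      ⟨273, 301, 478, 509⟩ ⟨308, 325, 543, 568⟩ ⟨451, 491, 510, 547⟩
      ⟨0, 0, 0, 0⟩ ⟨0, 0, 0, 0⟩)
     (.L ⟨589, 6, false, false, 6199, 1839⟩ ⟨734, 53, true, false, 13851, 21084⟩
      ⟨271, 299, 476, 508⟩ ⟨306, 323, 544, 569⟩ ⟨449, 490, 510, 547⟩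
      ⟨0, 0, 0, 0⟩ ⟨0, 0, 0, 0⟩))
    (.S 2 814
     (.L ⟨602, 13, false, false, 6768, 710⟩ ⟨711, 53, true, false, 13898, 21252⟩
      ⟨274, 297, 474, 503⟩ ⟨302, 322, 544, 571⟩ ⟨445, 487, 510, 546⟩
      ⟨0, 0, 0, 0⟩ ⟨0, 0, 0, 0⟩)
     (.L ⟨569, 9, false, false, 5853, 1569⟩ ⟨711, 53, true, false, 13898, 21252⟩
      ⟨266, 291, 476, 507⟩ ⟨302, 322, 544, 571⟩ ⟨447, 489, 512, 550⟩
      ⟨0, 0, 0, 0⟩ ⟨0, 0, 0, 0⟩)))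
   (.S 0 827
    (.S 5 313
     (.L ⟨589, 6, false, false, 6199, 2092⟩ ⟨686, 52, true, false, 13618, 18465⟩
      ⟨271, 301, 476, 509⟩ ⟨298, 316, 545, 565⟩ ⟨449, 488, 504, 541⟩
      ⟨0, 0, 0, 0⟩ ⟨0, 0, 0, 0⟩)
     (.L ⟨589, 6, false, false, 6199, 2092⟩ ⟨681, 61, true, false, 15890, 20733⟩
      ⟨271, 301, 476, 509⟩ ⟨300, 318, 552, 572⟩ ⟨444, 484, 507, 545⟩
      ⟨0, 0, 0, 0⟩ ⟨0, 0, 0, 0⟩))
    (.S 5 313
     (.L ⟨569, 9, false, false, 6768, 1569⟩ ⟨663, 53, true, false, 13710, 18550⟩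
      ⟨266, 297, 474, 507⟩ ⟨294, 312, 546, 566⟩ ⟨447, 485, 504, 541⟩
      ⟨0, 0, 0, 0⟩ ⟨0, 0, 0, 0⟩)
     (.L ⟨569, 9, false, false, 6768, 1569⟩ ⟨658, 62, true, false, 16061, 20901⟩
      ⟨266, 297, 474, 507⟩ ⟨296, 315, 554, 574⟩ ⟨442, 481, 507, 546⟩
      ⟨0, 0, 0, 0⟩ ⟨0, 0, 0, 0⟩))))
  (by decide +kernel)

/-- The pairs of the file. -/
def rAS1 : List Pq := [
  ⟨1, 18, ⟨816, 869, 140, 207⟩, ⟨851, 956, 493, 604⟩, ⟨908, 1001, 0, 50⟩⟩,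
  ⟨1, 19, ⟨816, 869, 140, 207⟩, ⟨851, 956, 493, 604⟩, ⟨895, 1001, 0, 61⟩⟩,
  ⟨5, 0, ⟨779, 846, 165, 234⟩, ⟨603, 645, 276, 314⟩, ⟨733, 940, 400, 615⟩⟩,
  ⟨5, 5, ⟨779, 836, 165, 234⟩, ⟨603, 645, 276, 314⟩, ⟨558, 607, 363, 411⟩⟩,
  ⟨5, 3, ⟨788, 846, 165, 234⟩, ⟨603, 645, 276, 314⟩, ⟨741, 878, 246, 380⟩⟩,
  ⟨5, 4, ⟨780, 846, 165, 234⟩, ⟨603, 645, 276, 314⟩, ⟨765, 881, 353, 499⟩⟩,
  ⟨5, 8, ⟨795, 846, 165, 218⟩, ⟨603, 645, 276, 314⟩, ⟨694, 729, 150, 183⟩⟩,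
  ⟨5, 6, ⟨799, 846, 165, 225⟩, ⟨603, 645, 276, 314⟩, ⟨799, 862, 140, 225⟩⟩,
  ⟨5, 7, ⟨792, 846, 165, 231⟩, ⟨603, 645, 276, 314⟩, ⟨778, 861, 202, 294⟩⟩,
  ⟨5, 11, ⟨805, 846, 165, 217⟩, ⟨603, 645, 276, 314⟩, ⟨794, 814, 73, 92⟩⟩,
  ⟨5, 9, ⟨805, 846, 165, 217⟩, ⟨603, 645, 276, 314⟩, ⟨843, 885, 77, 140⟩⟩,
  ⟨5, 10, ⟨799, 846, 165, 225⟩, ⟨603, 645, 276, 314⟩, ⟨816, 877, 117, 176⟩⟩,
  ⟨5, 14, ⟨811, 846, 165, 212⟩, ⟨603, 645, 276, 314⟩, ⟨846, 873, 29, 56⟩⟩,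
  ⟨5, 12, ⟨811, 846, 165, 212⟩, ⟨603, 645, 276, 314⟩, ⟨867, 914, 38, 90⟩⟩,
  ⟨5, 13, ⟨805, 846, 165, 217⟩, ⟨603, 645, 276, 314⟩, ⟨849, 904, 57, 112⟩⟩,
  ⟨5, 17, ⟨811, 846, 165, 212⟩, ⟨603, 645, 276, 314⟩, ⟨886, 909, 14, 39⟩⟩,
  ⟨5, 15, ⟨811, 846, 165, 212⟩, ⟨603, 645, 276, 314⟩, ⟨897, 934, 22, 62⟩⟩,
  ⟨5, 16, ⟨811, 846, 165, 212⟩, ⟨603, 645, 276, 314⟩, ⟨882, 927, 32, 77⟩⟩,
  ⟨5, 20, ⟨816, 846, 165, 210⟩, ⟨603, 645, 276, 314⟩, ⟨900, 1001, 0, 29⟩⟩,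
  ⟨5, 18, ⟨816, 846, 165, 210⟩, ⟨603, 645, 276, 314⟩, ⟨908, 1001, 0, 50⟩⟩,
  ⟨5, 19, ⟨816, 846, 165, 210⟩, ⟨603, 645, 276, 314⟩, ⟨895, 1001, 0, 61⟩⟩,
  ⟨3, 5, ⟨794, 836, 165, 234⟩, ⟨761, 868, 212, 319⟩, ⟨558, 607, 363, 411⟩⟩,
  ⟨3, 3, ⟨794, 860, 165, 240⟩, ⟨761, 868, 212, 319⟩, ⟨741, 878, 246, 380⟩⟩]

theorem rAS1_ok : ∀ p ∈ rAS1, Cr false true p :=
  List.forall_mem_cons.2 ⟨qAS1_282,
  List.forall_mem_cons.2 ⟨qAS1_283,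
  List.forall_mem_cons.2 ⟨qAS1_284,
  List.forall_mem_cons.2 ⟨qAS1_285,
  List.forall_mem_cons.2 ⟨qAS1_286,
  List.forall_mem_cons.2 ⟨qAS1_287,
  List.forall_mem_cons.2 ⟨qAS1_288,
  List.forall_mem_cons.2 ⟨qAS1_289,
  List.forall_mem_cons.2 ⟨qAS1_290,
  List.forall_mem_cons.2 ⟨qAS1_291,
  List.forall_mem_cons.2 ⟨qAS1_292,
  List.forall_mem_cons.2 ⟨qAS1_293,
  List.forall_mem_cons.2 ⟨qAS1_294,
  List.forall_mem_cons.2 ⟨qAS1_295,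
  List.forall_mem_cons.2 ⟨qAS1_296,
  List.forall_mem_cons.2 ⟨qAS1_297,
  List.forall_mem_cons.2 ⟨qAS1_298,
  List.forall_mem_cons.2 ⟨qAS1_299,
  List.forall_mem_cons.2 ⟨qAS1_300,
  List.forall_mem_cons.2 ⟨qAS1_301,
  List.forall_mem_cons.2 ⟨qAS1_302,
  List.forall_mem_cons.2 ⟨qAS1_304,
  List.forall_mem_cons.2 ⟨qAS1_305,
  List.forall_mem_nil _⟩⟩⟩⟩⟩⟩⟩⟩⟩⟩⟩⟩⟩⟩⟩⟩⟩⟩⟩⟩⟩⟩⟩

end Pool.Agent.S5.Z4
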