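import Pool.Agent.S5.Z4.Tre

/-!
# Inner nodes with four half twists: certificates
-/

set_option autoImplicit false

namespace Pool.Agent.S5.Z4

theorem qAS2_306 : Cl ⟨0, false, true, true⟩ ⟨0, true, true, true⟩
    ⟨794, 858, 165, 241⟩ ⟨761, 868, 212, 319⟩ ⟨765, 881, 353, 499⟩ := .mk
  (.S 4 823
   (.S 0 826
    (.S 0 810
     (.L ⟨599, 0, true, false, 5905, 2128⟩ ⟨726, 67, true, false, 17557, 25289⟩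
      ⟨273, 301, 478, 509⟩ ⟨308, 326, 555, 581⟩ ⟨440, 485, 513, 554⟩
      ⟨0, 0, 0, 0⟩ ⟨0, 0, 0, 0⟩)
     (.L ⟨589, 6, false, false, 6182, 1874⟩ ⟨714, 67, true, false, 17664, 25448⟩
      ⟨271, 299, 477, 508⟩ ⟨307, 325, 556, 582⟩ ⟨439, 484, 514, 554⟩
      ⟨0, 0, 0, 0⟩ ⟨0, 0, 0, 0⟩))
    (.S 2 814
     (.L ⟨603, 13, false, false, 6734, 758⟩ ⟨692, 68, true, false, 17770, 25767⟩
      ⟨274, 298, 474, 503⟩ ⟨304, 324, 557, 585⟩ ⟨434, 480, 513, 554⟩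
      ⟨0, 0, 0, 0⟩ ⟨0, 0, 0, 0⟩)
     (.L ⟨570, 9, false, false, 5818, 1620⟩ ⟨692, 68, true, false, 17770, 25767⟩
      ⟨266, 291, 476, 507⟩ ⟨304, 324, 557, 585⟩ ⟨436, 483, 516, 557⟩
      ⟨0, 0, 0, 0⟩ ⟨0, 0, 0, 0⟩)))
   (.S 0 826
    (.S 5 426
     (.L ⟨589, 6, false, false, 6182, 2128⟩ ⟨675, 66, true, false, 17170, 22327⟩
      ⟨271, 301, 477, 509⟩ ⟨300, 318, 557, 576⟩ ⟨442, 481, 508, 547⟩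
      ⟨0, 0, 0, 0⟩ ⟨0, 0, 0, 0⟩)
     (.L ⟨589, 6, false, false, 6182, 2128⟩ ⟨664, 75, true, false, 19673, 24873⟩
      ⟨271, 301, 477, 509⟩ ⟨302, 320, 564, 584⟩ ⟨436, 477, 511, 552⟩
      ⟨0, 0, 0, 0⟩ ⟨0, 0, 0, 0⟩))
    (.S 5 426
     (.L ⟨570, 9, false, false, 6734, 1620⟩ ⟨653, 67, true, false, 17383, 22546⟩
      ⟨266, 298, 474, 507⟩ ⟨297, 315, 559, 579⟩ ⟨437, 478, 508, 548⟩
      ⟨0, 0, 0, 0⟩ ⟨0, 0, 0, 0⟩)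
     (.L ⟨570, 9, false, false, 6734, 1620⟩ ⟨642, 77, true, false, 19978, 25190⟩
      ⟨266, 298, 474, 507⟩ ⟨299, 317, 567, 587⟩ ⟨431, 474, 512, 553⟩
      ⟨0, 0, 0, 0⟩ ⟨0, 0, 0, 0⟩))))
  (by decide +kernel)

theorem qAS2_307 : Cl ⟨0, false, true, true⟩ ⟨0, true, false, false⟩
    ⟨795, 850, 165, 218⟩ ⟨761, 868, 212, 319⟩ ⟨694, 729, 150, 183⟩ := .mk
  (.L ⟨583, 11, false, false, 6596, 1291⟩ ⟨785, 40, true, false, 10357, 13175⟩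
   ⟨270, 301, 475, 506⟩ ⟨310, 322, 532, 543⟩ ⟨467, 495, 509, 538⟩
   ⟨0, 0, 0, 0⟩ ⟨0, 0, 0, 0⟩)
  (by decide +kernel)

theorem qAS2_308 : Cl ⟨0, false, true, true⟩ ⟨0, true, true, true⟩
    ⟨799, 862, 165, 225⟩ ⟨761, 868, 212, 319⟩ ⟨799, 862, 140, 225⟩ := .mk
  (.S 0 830
   (.L ⟨593, 9, false, false, 6251, 1480⟩ ⟨696, 39, true, false, 10072, 14999⟩
    ⟨272, 300, 476, 506⟩ ⟨297, 312, 533, 553⟩ ⟨458, 492, 502, 534⟩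
    ⟨0, 0, 0, 0⟩ ⟨0, 0, 0, 0⟩)
   (.L ⟨573, 11, false, false, 6802, 1007⟩ ⟨674, 39, true, false, 10046, 14999⟩
    ⟨267, 297, 474, 505⟩ ⟨293, 309, 534, 555⟩ ⟨455, 491, 502, 535⟩
    ⟨0, 0, 0, 0⟩ ⟨0, 0, 0, 0⟩))
  (by decide +kernel)

theorem qAS2_309 : Cl ⟨0, false, true, true⟩ ⟨0, true, true, true⟩
    ⟨794, 859, 165, 231⟩ ⟨761, 868, 212, 319⟩ ⟨778, 861, 202, 294⟩ := .mk
  (.S 0 826
   (.L ⟨593, 7, false, false, 6182, 1770⟩ ⟨700, 47, true, false, 12182, 17532⟩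
    ⟨272, 301, 477, 507⟩ ⟨299, 318, 539, 561⟩ ⟨453, 491, 504, 541⟩
    ⟨0, 0, 0, 0⟩ ⟨0, 0, 0, 0⟩)
   (.L ⟨573, 10, false, false, 6751, 1275⟩ ⟨676, 47, true, false, 12222, 17605⟩
    ⟨267, 298, 474, 506⟩ ⟨295, 315, 540, 563⟩ ⟨450, 489, 504, 542⟩
    ⟨0, 0, 0, 0⟩ ⟨0, 0, 0, 0⟩))
  (by decide +kernel)

theorem qAS2_310 : Cl ⟨0, false, true, true⟩ ⟨0, true, false, false⟩
    ⟨805, 864, 165, 217⟩ ⟨761, 868, 212, 319⟩ ⟨794, 814, 73, 92⟩ := .mk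
  (.L ⟨575, 12, false, false, 6837, 1106⟩ ⟨704, 30, true, false, 7802, 9996⟩
   ⟨268, 300, 474, 505⟩ ⟨296, 307, 526, 536⟩ ⟨468, 494, 501, 528⟩
   ⟨0, 0, 0, 0⟩ ⟨0, 0, 0, 0⟩)
  (by decide +kernel)

theorem qAS2_311 : Cl ⟨0, false, true, true⟩ ⟨0, true, false, false⟩
    ⟨805, 864, 165, 217⟩ ⟨761, 868, 212, 319⟩ ⟨843, 885, 77, 140⟩ := .mk
  (.L ⟨575, 12, false, false, 6837, 1106⟩ ⟨655, 31, true, false, 8080, 11878⟩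
   ⟨268, 300, 474, 505⟩ ⟨288, 304, 528, 545⟩ ⟨461, 493, 496, 529⟩
   ⟨0, 0, 0, 0⟩ ⟨0, 0, 0, 0⟩)
  (by decide +kernel)

theorem qAS2_312 : Cl ⟨0, false, true, true⟩ ⟨0, true, false, false⟩
    ⟨799, 862, 165, 225⟩ ⟨761, 868, 212, 319⟩ ⟨816, 877, 117, 176⟩ := .mk
  (.S 0 830
   (.L ⟨593, 9, false, false, 6251, 1480⟩ ⟨686, 36, true, false, 9329, 13397⟩
    ⟨272, 300, 476, 506⟩ ⟨294, 309, 531, 549⟩ ⟨460, 492, 500, 531⟩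
    ⟨0, 0, 0, 0⟩ ⟨0, 0, 0, 0⟩)
   (.L ⟨573, 11, false, false, 6802, 1007⟩ ⟨664, 36, true, false, 9279, 13344⟩
    ⟨267, 297, 474, 505⟩ ⟨290, 306, 532, 550⟩ ⟨458, 491, 500, 532⟩
    ⟨0, 0, 0, 0⟩ ⟨0, 0, 0, 0⟩))
  (by decide +kernel)

theorem qAS2_313 : Cl ⟨0, false, true, true⟩ ⟨0, true, false, false⟩
    ⟨811, 864, 165, 212⟩ ⟨761, 868, 212, 319⟩ ⟨846, 873, 29, 56⟩ := .mk
  (.L ⟨577, 13, false, false, 6837, 842⟩ ⟨659, 25, true, false, 6535, 8881⟩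
   ⟨268, 299, 474, 504⟩ ⟨287, 299, 523, 534⟩ ⟨468, 494, 496, 523⟩
   ⟨0, 0, 0, 0⟩ ⟨0, 0, 0, 0⟩)
  (by decide +kernel)

theorem qAS2_314 : Cl ⟨0, false, true, true⟩ ⟨0, true, false, false⟩
    ⟨811, 864, 165, 212⟩ ⟨761, 868, 212, 319⟩ ⟨867, 914, 38, 90⟩ := .mk
  (.L ⟨577, 13, false, false, 6837, 842⟩ ⟨634, 26, true, false, 6911, 10177⟩
   ⟨268, 299, 474, 504⟩ ⟨283, 299, 525, 540⟩ ⟨463, 493, 494, 524⟩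
   ⟨0, 0, 0, 0⟩ ⟨0, 0, 0, 0⟩)
  (by decide +kernel)

theorem qAS2_315 : Cl ⟨0, false, true, true⟩ ⟨0, true, false, false⟩
    ⟨805, 864, 165, 217⟩ ⟨761, 868, 212, 319⟩ ⟨849, 904, 57, 112⟩ := .mk
  (.L ⟨575, 12, false, false, 6837, 1106⟩ ⟨642, 29, true, false, 7462, 11020⟩
   ⟨268, 300, 474, 505⟩ ⟨285, 302, 526, 543⟩ ⟨462, 493, 494, 527⟩
   ⟨0, 0, 0, 0⟩ ⟨0, 0, 0, 0⟩)
  (by decide +kernel)

theorem qAS2_316 : Cl ⟨0, false, true, true⟩ ⟨0, true, false, false⟩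
    ⟨811, 864, 165, 212⟩ ⟨761, 868, 212, 319⟩ ⟨886, 909, 14, 39⟩ := .mk
  (.L ⟨577, 13, false, false, 6837, 842⟩ ⟨635, 23, true, false, 6257, 8529⟩
   ⟨268, 299, 474, 504⟩ ⟨282, 294, 523, 534⟩ ⟨467, 493, 493, 520⟩
   ⟨0, 0, 0, 0⟩ ⟨0, 0, 0, 0⟩)
  (by decide +kernel)

theorem qAS2_317 : Cl ⟨0, false, true, true⟩ ⟨0, true, false, false⟩
    ⟨811, 864, 165, 212⟩ ⟨761, 868, 212, 319⟩ ⟨897, 934, 22, 62⟩ := .mk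
  (.L ⟨577, 13, false, false, 6837, 842⟩ ⟨621, 25, true, false, 6554, 9387⟩
   ⟨268, 299, 474, 504⟩ ⟨280, 294, 524, 538⟩ ⟨464, 493, 492, 521⟩
   ⟨0, 0, 0, 0⟩ ⟨0, 0, 0, 0⟩)
  (by decide +kernel)

theorem qAS2_318 : Cl ⟨0, false, true, true⟩ ⟨0, true, false, false⟩
    ⟨811, 864, 165, 212⟩ ⟨761, 868, 212, 319⟩ ⟨882, 927, 32, 77⟩ := .mk
  (.L ⟨577, 13, false, false, 6837, 842⟩ ⟨626, 26, true, false, 6790, 9822⟩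
   ⟨268, 299, 474, 504⟩ ⟨281, 296, 524, 539⟩ ⟨464, 493, 493, 522⟩
   ⟨0, 0, 0, 0⟩ ⟨0, 0, 0, 0⟩)
  (by decide +kernel)

theorem qAS2_319 : Cl ⟨0, false, true, true⟩ ⟨0, true, false, false⟩
    ⟨816, 864, 165, 210⟩ ⟨761, 868, 212, 319⟩ ⟨900, 1001, 0, 29⟩ := .mk
  (.L ⟨577, 13, false, false, 6837, 698⟩ ⟨583, 24, true, false, 5616, 8698⟩
   ⟨268, 299, 474, 503⟩ ⟨271, 292, 522, 537⟩ ⟨464, 493, 487, 519⟩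
   ⟨0, 0, 0, 0⟩ ⟨0, 0, 0, 0⟩)
  (by decide +kernel)

theorem qAS2_320 : Cl ⟨0, false, true, true⟩ ⟨0, true, false, false⟩
    ⟨816, 864, 165, 210⟩ ⟨761, 868, 212, 319⟩ ⟨908, 1001, 0, 50⟩ := .mk
  (.L ⟨577, 13, false, false, 6837, 698⟩ ⟨583, 24, true, false, 5660, 9301⟩
   ⟨268, 299, 474, 503⟩ ⟨271, 292, 522, 539⟩ ⟨463, 493, 487, 520⟩
   ⟨0, 0, 0, 0⟩ ⟨0, 0, 0, 0⟩)
  (by decide +kernel)

theorem qAS2_321 : Cl ⟨0, false, true, true⟩ ⟨0, true, false, false⟩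
    ⟨816, 864, 165, 210⟩ ⟨761, 868, 212, 319⟩ ⟨895, 1001, 0, 61⟩ := .mk
  (.S 0 840
   (.L ⟨592, 11, false, false, 6424, 698⟩ ⟨599, 24, true, false, 5720, 9735⟩
    ⟨272, 299, 475, 503⟩ ⟨275, 294, 521, 540⟩ ⟨463, 494, 489, 520⟩
    ⟨0, 0, 0, 0⟩ ⟨0, 0, 0, 0⟩)
   (.L ⟨577, 13, false, false, 6837, 346⟩ ⟨583, 24, true, false, 5589, 9617⟩
    ⟨268, 296, 474, 502⟩ ⟨271, 291, 521, 541⟩ ⟨462, 493, 488, 520⟩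
    ⟨0, 0, 0, 0⟩ ⟨0, 0, 0, 0⟩))
  (by decide +kernel)

theorem qAS2_323 : Cl ⟨0, false, true, true⟩ ⟨2, true, false, true⟩
    ⟨792, 836, 155, 232⟩ ⟨763, 870, 296, 424⟩ ⟨558, 607, 363, 411⟩ := .mk
  (.S 2 816
   (.S 1 193
    (.L ⟨591, 31, false, false, 10461, 2958⟩ ⟨898, 74, true, false, 19074, 22221⟩
     ⟨275, 298, 459, 489⟩ ⟨331, 343, 551, 563⟩ ⟨455, 483, 531, 557⟩
     ⟨0, 0, 0, 0⟩ ⟨514, 571, 668, 722⟩)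
    (.S 0 814
     (.L ⟨587, 24, false, false, 8805, 1638⟩ ⟨920, 77, true, false, 20108, 23179⟩
      ⟨272, 295, 465, 494⟩ ⟨334, 345, 553, 564⟩ ⟨459, 486, 534, 559⟩
      ⟨0, 0, 0, 0⟩ ⟨512, 558, 655, 707⟩)
     (.L ⟨574, 26, false, false, 9323, 2059⟩ ⟨904, 78, true, false, 20236, 23319⟩
      ⟨270, 293, 463, 492⟩ ⟨333, 344, 554, 565⟩ ⟨457, 484, 535, 560⟩
      ⟨0, 0, 0, 0⟩ ⟨520, 567, 653, 705⟩)))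
   (.S 0 814
    (.L ⟨557, 19, false, false, 8824, 610⟩ ⟨913, 73, true, false, 19074, 23179⟩
     ⟨264, 291, 464, 498⟩ ⟨332, 345, 551, 564⟩ ⟨458, 489, 533, 562⟩
     ⟨0, 0, 0, 0⟩ ⟨512, 563, 655, 722⟩)
    (.L ⟨544, 21, false, false, 9304, 1028⟩ ⟨898, 74, true, false, 19229, 23319⟩
     ⟨261, 289, 462, 496⟩ ⟨331, 344, 552, 565⟩ ⟨456, 487, 534, 563⟩
     ⟨0, 0, 0, 0⟩ ⟨520, 571, 653, 720⟩)))
  (by decide +kernel)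

theorem qAS2_324 : Cl ⟨0, false, true, true⟩ ⟨0, true, true, true⟩
    ⟨792, 860, 155, 232⟩ ⟨763, 870, 296, 424⟩ ⟨741, 878, 246, 380⟩ := .mk
  (.S 4 809
   (.S 0 826
    (.S 1 193
     (.S 5 313
      (.L ⟨566, 25, false, false, 10243, 2019⟩ ⟨734, 52, true, false, 13477, 17015⟩
       ⟨267, 298, 460, 492⟩ ⟨305, 321, 542, 557⟩ ⟨451, 483, 512, 544⟩
       ⟨0, 0, 0, 0⟩ ⟨0, 0, 0, 0⟩)
      (.L ⟨566, 25, false, false, 10243, 2019⟩ ⟨728, 61, true, false, 15903, 19421⟩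
       ⟨267, 298, 460, 492⟩ ⟨307, 322, 550, 565⟩ ⟨446, 479, 515, 548⟩
       ⟨0, 0, 0, 0⟩ ⟨0, 0, 0, 0⟩))
     (.S 2 816
      (.S 5 313
       (.S 0 809
        (.L ⟨590, 23, false, false, 8687, 1638⟩ ⟨749, 57, true, false, 14713, 18314⟩
         ⟨273, 295, 466, 494⟩ ⟨309, 322, 546, 560⟩ ⟨453, 481, 517, 543⟩
         ⟨0, 0, 0, 0⟩ ⟨0, 0, 0, 0⟩)
        (.L ⟨580, 25, false, false, 9088, 1963⟩ ⟨736, 57, true, false, 14744, 18362⟩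
         ⟨271, 294, 464, 493⟩ ⟨307, 321, 546, 561⟩ ⟨451, 481, 516, 544⟩
         ⟨0, 0, 0, 0⟩ ⟨0, 0, 0, 0⟩))
       (.L ⟨580, 25, false, false, 9088, 1638⟩ ⟨732, 66, true, false, 17158, 20795⟩
        ⟨271, 295, 464, 494⟩ ⟨309, 324, 553, 568⟩ ⟨446, 478, 518, 549⟩
        ⟨0, 0, 0, 0⟩ ⟨0, 0, 0, 0⟩))
      (.S 0 809
       (.L ⟨560, 18, false, false, 7438, 610⟩ ⟨749, 57, true, false, 14713, 20704⟩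
        ⟨265, 289, 469, 498⟩ ⟨309, 324, 546, 567⟩ ⟨450, 485, 519, 550⟩
        ⟨0, 0, 0, 0⟩ ⟨0, 0, 0, 0⟩)
       (.L ⟨550, 20, false, false, 7838, 933⟩ ⟨736, 57, true, false, 14744, 20795⟩
        ⟨262, 287, 467, 497⟩ ⟨307, 323, 546, 568⟩ ⟨448, 484, 519, 551⟩
        ⟨0, 0, 0, 0⟩ ⟨0, 0, 0, 0⟩))))
    (.S 2 816
     (.S 1 193
      (.S 5 313
       (.L ⟨578, 33, false, false, 10984, 3552⟩ ⟨710, 52, true, false, 13583, 17158⟩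
        ⟨272, 295, 457, 487⟩ ⟨302, 318, 544, 559⟩ ⟨448, 478, 513, 541⟩
        ⟨0, 0, 0, 0⟩ ⟨0, 0, 0, 0⟩)
       (.L ⟨578, 33, false, false, 10984, 3552⟩ ⟨704, 62, true, false, 16090, 19651⟩
        ⟨272, 295, 457, 487⟩ ⟨304, 320, 551, 567⟩ ⟨443, 475, 516, 546⟩
        ⟨0, 0, 0, 0⟩ ⟨0, 0, 0, 0⟩))
      (.S 5 313
       (.S 1 212
        (.L ⟨570, 31, false, false, 9887, 2936⟩ ⟨712, 57, true, false, 14775, 17791⟩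
         ⟨270, 292, 460, 489⟩ ⟨304, 318, 547, 561⟩ ⟨449, 478, 516, 543⟩
         ⟨0, 0, 0, 0⟩ ⟨0, 0, 0, 0⟩)
        (.D ⟨561, 29, false, false, 9344, 2289⟩ ⟨713, 59, true, false, 15375, 18460⟩
         ⟨267, 290, 462, 491⟩ ⟨304, 319, 549, 563⟩ ⟨448, 478, 517, 545⟩))
       (.S 3 360
        (.L ⟨588, 20, false, false, 7457, 2289⟩ ⟨708, 67, true, false, 17301, 20978⟩
         ⟨272, 292, 470, 491⟩ ⟨306, 322, 554, 570⟩ ⟨447, 475, 519, 547⟩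
         ⟨0, 0, 0, 0⟩ ⟨0, 0, 0, 0⟩)
        (.S 1 212
         (.L ⟨570, 31, false, false, 9887, 5070⟩ ⟨708, 67, true, false, 17301, 20295⟩
          ⟨270, 288, 460, 480⟩ ⟨306, 321, 554, 569⟩ ⟨444, 471, 522, 548⟩
          ⟨0, 0, 0, 0⟩ ⟨0, 0, 0, 0⟩)
         (.D ⟨561, 29, false, false, 9344, 4421⟩ ⟨710, 69, true, false, 17911, 20978⟩
          ⟨267, 287, 462, 482⟩ ⟨307, 322, 556, 570⟩ ⟨444, 471, 523, 550⟩)))))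
     (.S 5 313
      (.S 2 843
       (.L ⟨546, 26, false, false, 9828, 1772⟩ ⟨710, 52, true, false, 13583, 18460⟩
        ⟨262, 287, 459, 493⟩ ⟨302, 319, 544, 563⟩ ⟨447, 482, 516, 547⟩
        ⟨0, 0, 0, 0⟩ ⟨0, 0, 0, 0⟩)
       (.L ⟨531, 23, false, false, 9239, 1257⟩ ⟨710, 52, true, false, 13583, 18460⟩
        ⟨258, 284, 460, 495⟩ ⟨302, 319, 544, 563⟩ ⟨447, 483, 517, 549⟩
        ⟨0, 0, 0, 0⟩ ⟨0, 0, 0, 0⟩))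
      (.S 0 843
       (.L ⟨540, 21, false, false, 9457, 1257⟩ ⟨716, 61, true, false, 16090, 20887⟩
        ⟨260, 287, 461, 495⟩ ⟨305, 322, 551, 569⟩ ⟨444, 480, 519, 552⟩
        ⟨0, 0, 0, 0⟩ ⟨0, 0, 0, 0⟩)
       (.L ⟨531, 23, false, false, 9828, 1581⟩ ⟨704, 62, true, false, 16183, 20978⟩
        ⟨258, 285, 459, 494⟩ ⟨304, 320, 552, 570⟩ ⟨442, 478, 520, 552⟩
        ⟨0, 0, 0, 0⟩ ⟨0, 0, 0, 0⟩)))))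
   (.S 0 826
    (.S 1 193
     (.S 2 816
      (.S 5 313
       (.L ⟨597, 30, false, false, 10243, 2958⟩ ⟨686, 51, true, false, 13266, 16724⟩
        ⟨276, 298, 460, 489⟩ ⟨298, 313, 544, 559⟩ ⟨448, 477, 509, 536⟩
        ⟨0, 0, 0, 0⟩ ⟨0, 0, 0, 0⟩)
       (.L ⟨597, 30, false, false, 10243, 2958⟩ ⟨680, 59, true, false, 15527, 18957⟩
        ⟨276, 298, 460, 489⟩ ⟨299, 315, 551, 567⟩ ⟨442, 474, 511, 541⟩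
        ⟨0, 0, 0, 0⟩ ⟨0, 0, 0, 0⟩))
      (.L ⟨566, 25, false, false, 9086, 2019⟩ ⟨686, 51, true, false, 13266, 18957⟩
       ⟨267, 291, 463, 492⟩ ⟨298, 315, 544, 567⟩ ⟨444, 480, 511, 544⟩
       ⟨0, 0, 0, 0⟩ ⟨0, 0, 0, 0⟩))
     (.S 2 816
      (.S 4 843
       (.S 5 313
        (.L ⟨580, 25, false, false, 9088, 1638⟩ ⟨711, 56, true, false, 14589, 18265⟩
         ⟨271, 295, 464, 494⟩ ⟨303, 315, 548, 562⟩ ⟨449, 478, 513, 540⟩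
         ⟨0, 0, 0, 0⟩ ⟨0, 0, 0, 0⟩)
        (.L ⟨580, 25, false, false, 9088, 1638⟩ ⟨707, 65, true, false, 16872, 20613⟩
         ⟨271, 295, 464, 494⟩ ⟨305, 317, 555, 569⟩ ⟨444, 475, 516, 544⟩
         ⟨0, 0, 0, 0⟩ ⟨0, 0, 0, 0⟩))
       (.S 5 313
        (.L ⟨580, 25, false, false, 9088, 1638⟩ ⟨688, 56, true, false, 14527, 18165⟩
         ⟨271, 295, 464, 494⟩ ⟨300, 312, 549, 564⟩ ⟨446, 477, 512, 539⟩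
         ⟨0, 0, 0, 0⟩ ⟨0, 0, 0, 0⟩)
        (.S 0 809
         (.L ⟨590, 23, false, false, 8687, 1638⟩ ⟨696, 65, true, false, 16729, 20334⟩
          ⟨273, 295, 466, 494⟩ ⟨303, 314, 556, 569⟩ ⟨444, 473, 515, 541⟩
          ⟨0, 0, 0, 0⟩ ⟨0, 0, 0, 0⟩)
         (.L ⟨580, 25, false, false, 9088, 1963⟩ ⟨684, 65, true, false, 16800, 20425⟩
          ⟨271, 294, 464, 493⟩ ⟨302, 312, 556, 571⟩ ⟨442, 472, 515, 541⟩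
          ⟨0, 0, 0, 0⟩ ⟨0, 0, 0, 0⟩))))
      (.S 5 313
       (.L ⟨550, 20, false, false, 7838, 610⟩ ⟨688, 56, true, false, 14589, 18165⟩
        ⟨262, 289, 467, 498⟩ ⟨300, 315, 548, 564⟩ ⟨448, 481, 514, 544⟩
        ⟨0, 0, 0, 0⟩ ⟨0, 0, 0, 0⟩)
       (.L ⟨550, 20, false, false, 7838, 610⟩ ⟨684, 65, true, false, 16872, 20425⟩
        ⟨262, 289, 467, 498⟩ ⟨302, 317, 555, 571⟩ ⟨444, 477, 517, 548⟩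
        ⟨0, 0, 0, 0⟩ ⟨0, 0, 0, 0⟩))))
    (.S 1 193
     (.S 2 816
      (.S 5 313
       (.L ⟨578, 33, false, false, 10984, 3552⟩ ⟨662, 51, true, false, 13371, 16867⟩
        ⟨272, 295, 457, 487⟩ ⟨294, 310, 545, 561⟩ ⟨444, 476, 508, 537⟩
        ⟨0, 0, 0, 0⟩ ⟨0, 0, 0, 0⟩)
       (.L ⟨578, 33, false, false, 10984, 3552⟩ ⟨657, 60, true, false, 15715, 19186⟩
        ⟨272, 295, 457, 487⟩ ⟨296, 312, 553, 569⟩ ⟨439, 471, 511, 541⟩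
        ⟨0, 0, 0, 0⟩ ⟨0, 0, 0, 0⟩))
      (.L ⟨547, 28, false, false, 9828, 2609⟩ ⟨662, 51, true, false, 13371, 19186⟩
       ⟨263, 287, 459, 490⟩ ⟨294, 312, 545, 569⟩ ⟨440, 478, 511, 544⟩
       ⟨0, 0, 0, 0⟩ ⟨0, 0, 0, 0⟩))
     (.S 2 816
      (.S 3 360
       (.L ⟨588, 20, false, false, 7457, 2289⟩ ⟨664, 56, true, false, 14651, 20607⟩
        ⟨272, 292, 470, 491⟩ ⟨296, 314, 549, 573⟩ ⟨441, 476, 511, 543⟩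
        ⟨0, 0, 0, 0⟩ ⟨0, 0, 0, 0⟩)
       (.S 4 843
        (.S 5 313
         (.L ⟨561, 29, false, false, 9887, 4421⟩ ⟨688, 57, true, false, 14651, 18362⟩
          ⟨267, 288, 460, 482⟩ ⟨300, 312, 549, 564⟩ ⟨446, 472, 516, 541⟩
          ⟨0, 0, 0, 0⟩ ⟨0, 0, 0, 0⟩)
         (.L ⟨561, 29, false, false, 9887, 4421⟩ ⟨684, 66, true, false, 17015, 20795⟩
          ⟨267, 288, 460, 482⟩ ⟨302, 314, 556, 572⟩ ⟨440, 468, 519, 545⟩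
          ⟨0, 0, 0, 0⟩ ⟨0, 0, 0, 0⟩))
        (.S 5 313
         (.L ⟨561, 29, false, false, 9887, 4421⟩ ⟨664, 56, true, false, 14589, 18262⟩
          ⟨267, 288, 460, 482⟩ ⟨296, 308, 550, 566⟩ ⟨443, 470, 514, 539⟩
          ⟨0, 0, 0, 0⟩ ⟨0, 0, 0, 0⟩)
         (.L ⟨561, 29, false, false, 9887, 4421⟩ ⟨660, 65, true, false, 16872, 20607⟩
          ⟨267, 288, 460, 482⟩ ⟨298, 311, 557, 573⟩ ⟨438, 467, 517, 543⟩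
          ⟨0, 0, 0, 0⟩ ⟨0, 0, 0, 0⟩))))
      (.S 5 313
       (.S 0 843
        (.L ⟨540, 21, false, false, 8239, 1257⟩ ⟨676, 56, true, false, 14651, 18213⟩
         ⟨260, 284, 465, 495⟩ ⟨298, 312, 549, 565⟩ ⟨447, 478, 515, 544⟩
         ⟨0, 0, 0, 0⟩ ⟨0, 0, 0, 0⟩)
        (.L ⟨531, 23, false, false, 8640, 1581⟩ ⟨664, 56, true, false, 14682, 18262⟩
         ⟨258, 282, 463, 494⟩ ⟨296, 310, 550, 566⟩ ⟨445, 477, 515, 544⟩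
         ⟨0, 0, 0, 0⟩ ⟨0, 0, 0, 0⟩))
       (.L ⟨531, 23, false, false, 8640, 1257⟩ ⟨660, 65, true, false, 17015, 20607⟩
        ⟨258, 284, 463, 495⟩ ⟨298, 314, 556, 573⟩ ⟨440, 475, 517, 549⟩
        ⟨0, 0, 0, 0⟩ ⟨0, 0, 0, 0⟩))))))
  (by decide +kernel)

/-- The pairs of the file. -/
def rAS2 : List Pq := [
  ⟨3, 4, ⟨794, 858, 165, 241⟩, ⟨761, 868, 212, 319⟩, ⟨765, 881, 353, 499⟩⟩,
  ⟨3, 8, ⟨795, 850, 165, 218⟩, ⟨761, 868, 212, 319⟩, ⟨694, 729, 150, 183⟩⟩,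
  ⟨3, 6, ⟨799, 862, 165, 225⟩, ⟨761, 868, 212, 319⟩, ⟨799, 862, 140, 225⟩⟩,
  ⟨3, 7, ⟨794, 859, 165, 231⟩, ⟨761, 868, 212, 319⟩, ⟨778, 861, 202, 294⟩⟩,
  ⟨3, 11, ⟨805, 864, 165, 217⟩, ⟨761, 868, 212, 319⟩, ⟨794, 814, 73, 92⟩⟩,
  ⟨3, 9, ⟨805, 864, 165, 217⟩, ⟨761, 868, 212, 319⟩, ⟨843, 885, 77, 140⟩⟩,
  ⟨3, 10, ⟨799, 862, 165, 225⟩, ⟨761, 868, 212, 319⟩, ⟨816, 877, 117, 176⟩⟩,
  ⟨3, 14, ⟨811, 864, 165, 212⟩, ⟨761, 868, 212, 319⟩, ⟨846, 873, 29, 56⟩⟩,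
  ⟨3, 12, ⟨811, 864, 165, 212⟩, ⟨761, 868, 212, 319⟩, ⟨867, 914, 38, 90⟩⟩,
  ⟨3, 13, ⟨805, 864, 165, 217⟩, ⟨761, 868, 212, 319⟩, ⟨849, 904, 57, 112⟩⟩,
  ⟨3, 17, ⟨811, 864, 165, 212⟩, ⟨761, 868, 212, 319⟩, ⟨886, 909, 14, 39⟩⟩,
  ⟨3, 15, ⟨811, 864, 165, 212⟩, ⟨761, 868, 212, 319⟩, ⟨897, 934, 22, 62⟩⟩,
  ⟨3, 16, ⟨811, 864, 165, 212⟩, ⟨761, 868, 212, 319⟩, ⟨882, 927, 32, 77⟩⟩,
  ⟨3, 20, ⟨816, 864, 165, 210⟩, ⟨761, 868, 212, 319⟩, ⟨900, 1001, 0, 29⟩⟩,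
  ⟨3, 18, ⟨816, 864, 165, 210⟩, ⟨761, 868, 212, 319⟩, ⟨908, 1001, 0, 50⟩⟩,
  ⟨3, 19, ⟨816, 864, 165, 210⟩, ⟨761, 868, 212, 319⟩, ⟨895, 1001, 0, 61⟩⟩,
  ⟨4, 5, ⟨792, 836, 155, 232⟩, ⟨763, 870, 296, 424⟩, ⟨558, 607, 363, 411⟩⟩,
  ⟨4, 3, ⟨792, 860, 155, 232⟩, ⟨763, 870, 296, 424⟩, ⟨741, 878, 246, 380⟩⟩]

theorem rAS2_ok : ∀ p ∈ rAS2, Cr false true p :=
  List.forall_mem_cons.2 ⟨qAS2_306,
  List.forall_mem_cons.2 ⟨qAS2_307,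
  List.forall_mem_cons.2 ⟨qAS2_308,
  List.forall_mem_cons.2 ⟨qAS2_309,
  List.forall_mem_cons.2 ⟨qAS2_310,
  List.forall_mem_cons.2 ⟨qAS2_311,
  List.forall_mem_cons.2 ⟨qAS2_312,
  List.forall_mem_cons.2 ⟨qAS2_313,
  List.forall_mem_cons.2 ⟨qAS2_314,
  List.forall_mem_cons.2 ⟨qAS2_315,
  List.forall_mem_cons.2 ⟨qAS2_316,
  List.forall_mem_cons.2 ⟨qAS2_317,
  List.forall_mem_cons.2 ⟨qAS2_318,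
  List.forall_mem_cons.2 ⟨qAS2_319,
  List.forall_mem_cons.2 ⟨qAS2_320,
  List.forall_mem_cons.2 ⟨qAS2_321,
  List.forall_mem_cons.2 ⟨qAS2_323,
  List.forall_mem_cons.2 ⟨qAS2_324,
  List.forall_mem_nil _⟩⟩⟩⟩⟩⟩⟩⟩⟩⟩⟩⟩⟩⟩⟩⟩⟩⟩

end Pool.Agent.S5.Z4
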