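import Pool.Agent.S5.Z4.Tre

/-!
# Inner nodes with four half twists: certificates
-/

set_option autoImplicit false

namespace Pool.Agent.S5.Z4

theorem qAS3_325 : Cl ⟨0, false, true, true⟩ ⟨0, true, true, true⟩
    ⟨792, 858, 155, 232⟩ ⟨763, 870, 296, 424⟩ ⟨765, 881, 353, 499⟩ := .mk
  (.S 0 825
   (.S 4 823
    (.S 1 193
     (.S 5 426
      (.L ⟨567, 25, false, false, 10222, 2019⟩ ⟨713, 66, true, false, 17203, 20974⟩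
       ⟨268, 298, 460, 492⟩ ⟨306, 321, 554, 570⟩ ⟨442, 476, 516, 549⟩
       ⟨0, 0, 0, 0⟩ ⟨0, 0, 0, 0⟩)
      (.L ⟨567, 25, false, false, 10222, 2019⟩ ⟨701, 76, true, false, 19860, 23649⟩
       ⟨268, 298, 460, 492⟩ ⟨308, 323, 562, 579⟩ ⟨435, 472, 519, 554⟩
       ⟨0, 0, 0, 0⟩ ⟨0, 0, 0, 0⟩))
     (.S 2 816
      (.S 5 426
       (.L ⟨580, 25, false, false, 9065, 1638⟩ ⟨718, 71, true, false, 18503, 22388⟩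
        ⟨271, 295, 464, 494⟩ ⟨309, 323, 558, 574⟩ ⟨442, 475, 520, 550⟩
        ⟨0, 0, 0, 0⟩ ⟨0, 0, 0, 0⟩)
       (.S 0 808
        (.L ⟨590, 23, false, false, 8664, 1638⟩ ⟨720, 81, true, false, 21188, 24926⟩
         ⟨273, 295, 466, 494⟩ ⟨312, 325, 566, 580⟩ ⟨439, 471, 524, 554⟩
         ⟨0, 0, 0, 0⟩ ⟨0, 0, 0, 0⟩)
        (.L ⟨580, 25, false, false, 9065, 1944⟩ ⟨708, 81, true, false, 21325, 25100⟩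
         ⟨271, 294, 464, 493⟩ ⟨311, 324, 567, 582⟩ ⟨436, 469, 524, 555⟩
         ⟨0, 0, 0, 0⟩ ⟨0, 0, 0, 0⟩)))
      (.S 0 808
       (.L ⟨561, 18, false, false, 7414, 610⟩ ⟨731, 71, true, false, 18503, 24926⟩
        ⟨265, 289, 469, 498⟩ ⟨310, 325, 558, 580⟩ ⟨440, 478, 523, 556⟩
        ⟨0, 0, 0, 0⟩ ⟨0, 0, 0, 0⟩)
       (.L ⟨551, 20, false, false, 7815, 914⟩ ⟨718, 71, true, false, 18594, 25100⟩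
        ⟨263, 287, 467, 497⟩ ⟨309, 324, 559, 582⟩ ⟨437, 477, 523, 558⟩
        ⟨0, 0, 0, 0⟩ ⟨0, 0, 0, 0⟩))))
    (.S 1 193
     (.S 5 426
      (.S 0 808
       (.L ⟨577, 24, false, false, 9850, 2019⟩ ⟨687, 64, true, false, 16796, 20334⟩
        ⟨270, 298, 462, 492⟩ ⟨302, 315, 555, 570⟩ ⟨441, 473, 513, 544⟩
        ⟨0, 0, 0, 0⟩ ⟨0, 0, 0, 0⟩)
       (.L ⟨567, 25, false, false, 10222, 2296⟩ ⟨674, 64, true, false, 16908, 20478⟩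
        ⟨268, 296, 460, 491⟩ ⟨300, 313, 556, 572⟩ ⟨439, 472, 513, 544⟩
        ⟨0, 0, 0, 0⟩ ⟨0, 0, 0, 0⟩))
      (.L ⟨567, 25, false, false, 10222, 2019⟩ ⟨663, 74, true, false, 19285, 22973⟩
       ⟨268, 298, 460, 492⟩ ⟨301, 316, 563, 580⟩ ⟨432, 469, 515, 550⟩
       ⟨0, 0, 0, 0⟩ ⟨0, 0, 0, 0⟩))
     (.S 5 426
      (.S 2 816
       (.S 0 808
        (.L ⟨590, 23, false, false, 8664, 1638⟩ ⟨691, 70, true, false, 18172, 21851⟩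
         ⟨273, 295, 466, 494⟩ ⟨304, 317, 559, 574⟩ ⟨441, 472, 517, 545⟩
         ⟨0, 0, 0, 0⟩ ⟨0, 0, 0, 0⟩)
        (.L ⟨580, 25, false, false, 9065, 1944⟩ ⟨679, 70, true, false, 18263, 21973⟩
         ⟨271, 294, 464, 493⟩ ⟨302, 316, 560, 576⟩ ⟨438, 471, 516, 546⟩
         ⟨0, 0, 0, 0⟩ ⟨0, 0, 0, 0⟩))
       (.L ⟨551, 20, false, false, 7815, 610⟩ ⟨679, 70, true, false, 18172, 21973⟩
        ⟨263, 289, 467, 498⟩ ⟨302, 317, 559, 576⟩ ⟨440, 475, 518, 550⟩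
        ⟨0, 0, 0, 0⟩ ⟨0, 0, 0, 0⟩))
      (.S 2 816
       (.S 0 808
        (.L ⟨590, 23, false, false, 8664, 1638⟩ ⟨681, 79, true, false, 20691, 24334⟩
         ⟨273, 295, 466, 494⟩ ⟨306, 319, 567, 582⟩ ⟨435, 468, 520, 550⟩
         ⟨0, 0, 0, 0⟩ ⟨0, 0, 0, 0⟩)
        (.L ⟨580, 25, false, false, 9065, 1944⟩ ⟨669, 79, true, false, 20828, 24507⟩
         ⟨271, 294, 464, 493⟩ ⟨304, 318, 568, 583⟩ ⟨433, 466, 520, 551⟩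
         ⟨0, 0, 0, 0⟩ ⟨0, 0, 0, 0⟩))
       (.L ⟨551, 20, false, false, 7815, 610⟩ ⟨669, 79, true, false, 20691, 24507⟩
        ⟨263, 289, 467, 498⟩ ⟨304, 319, 567, 583⟩ ⟨435, 470, 521, 555⟩
        ⟨0, 0, 0, 0⟩ ⟨0, 0, 0, 0⟩)))))
   (.S 4 823
    (.S 1 193
     (.S 5 426
      (.L ⟨548, 28, false, false, 10940, 2592⟩ ⟨691, 67, true, false, 17434, 21257⟩
       ⟨263, 295, 457, 490⟩ ⟨303, 318, 556, 573⟩ ⟨438, 473, 516, 550⟩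
       ⟨0, 0, 0, 0⟩ ⟨0, 0, 0, 0⟩)
      (.L ⟨548, 28, false, false, 10940, 2592⟩ ⟨679, 77, true, false, 20188, 24035⟩
       ⟨263, 295, 457, 490⟩ ⟨305, 320, 565, 581⟩ ⟨432, 468, 520, 555⟩
       ⟨0, 0, 0, 0⟩ ⟨0, 0, 0, 0⟩))
     (.S 2 816
      (.S 5 426
       (.S 0 841
        (.L ⟨572, 27, false, false, 9441, 2270⟩ ⟨707, 72, true, false, 18691, 22503⟩
         ⟨269, 292, 462, 491⟩ ⟨307, 321, 560, 575⟩ ⟨440, 472, 521, 550⟩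
         ⟨0, 0, 0, 0⟩ ⟨0, 0, 0, 0⟩)
        (.S 1 212
         (.L ⟨571, 31, false, false, 9840, 3211⟩ ⟨695, 72, true, false, 18782, 21921⟩
          ⟨270, 290, 460, 488⟩ ⟨306, 318, 560, 574⟩ ⟨440, 469, 522, 548⟩
          ⟨0, 0, 0, 0⟩ ⟨0, 0, 0, 0⟩)
         (.D ⟨562, 28, false, false, 9296, 2576⟩ ⟨697, 74, true, false, 19405, 22626⟩
          ⟨267, 289, 462, 490⟩ ⟨307, 319, 562, 576⟩ ⟨439, 470, 523, 550⟩)))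
       (.S 2 789
        (.S 5 462
         (.L ⟨579, 31, false, false, 9840, 2786⟩ ⟨685, 83, true, false, 21471, 24003⟩
          ⟨272, 292, 460, 490⟩ ⟨308, 322, 568, 580⟩ ⟨435, 466, 524, 552⟩
          ⟨0, 0, 0, 0⟩ ⟨0, 0, 0, 0⟩)
         (.L ⟨579, 31, false, false, 9840, 2786⟩ ⟨679, 88, true, false, 22870, 25440⟩
          ⟨272, 292, 460, 490⟩ ⟨309, 323, 572, 584⟩ ⟨432, 464, 526, 555⟩
          ⟨0, 0, 0, 0⟩ ⟨0, 0, 0, 0⟩))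
        (.L ⟨562, 28, false, false, 9229, 2270⟩ ⟨685, 83, true, false, 21471, 25440⟩
         ⟨267, 288, 462, 491⟩ ⟨308, 323, 568, 584⟩ ⟨433, 468, 526, 557⟩
         ⟨0, 0, 0, 0⟩ ⟨0, 0, 0, 0⟩)))
      (.S 5 426
       (.L ⟨532, 23, false, false, 8593, 1238⟩ ⟨695, 72, true, false, 18691, 22626⟩
        ⟨258, 285, 463, 495⟩ ⟨306, 321, 560, 576⟩ ⟨440, 474, 523, 555⟩
        ⟨0, 0, 0, 0⟩ ⟨0, 0, 0, 0⟩)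
       (.L ⟨532, 23, false, false, 8593, 1238⟩ ⟨685, 83, true, false, 21471, 25440⟩
        ⟨258, 285, 463, 495⟩ ⟨308, 323, 568, 584⟩ ⟨434, 470, 527, 560⟩
        ⟨0, 0, 0, 0⟩ ⟨0, 0, 0, 0⟩))))
    (.S 2 816
     (.S 1 193
      (.S 0 841
       (.L ⟨588, 32, false, false, 10570, 3535⟩ ⟨663, 65, true, false, 17027, 23159⟩
        ⟨274, 295, 459, 487⟩ ⟨298, 313, 558, 581⟩ ⟨430, 468, 513, 546⟩
        ⟨0, 0, 0, 0⟩ ⟨0, 0, 0, 0⟩)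
       (.L ⟨579, 33, false, false, 10940, 3815⟩ ⟨651, 65, true, false, 17139, 23357⟩
        ⟨272, 293, 457, 485⟩ ⟨296, 312, 559, 583⟩ ⟨427, 467, 513, 547⟩
        ⟨0, 0, 0, 0⟩ ⟨0, 0, 0, 0⟩))
      (.S 5 426
       (.S 0 841
        (.L ⟨572, 27, false, false, 9441, 2270⟩ ⟨668, 70, true, false, 18360, 22087⟩
         ⟨269, 292, 462, 491⟩ ⟨301, 314, 561, 577⟩ ⟨436, 469, 517, 546⟩
         ⟨0, 0, 0, 0⟩ ⟨0, 0, 0, 0⟩)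
        (.L ⟨562, 28, false, false, 9840, 2576⟩ ⟨656, 71, true, false, 18452, 22209⟩
         ⟨267, 290, 460, 490⟩ ⟨299, 313, 562, 578⟩ ⟨434, 468, 517, 547⟩
         ⟨0, 0, 0, 0⟩ ⟨0, 0, 0, 0⟩))
       (.S 0 841
        (.L ⟨572, 27, false, false, 9441, 2270⟩ ⟨658, 80, true, false, 20974, 24670⟩
         ⟨269, 292, 462, 491⟩ ⟨303, 317, 569, 585⟩ ⟨430, 465, 521, 552⟩
         ⟨0, 0, 0, 0⟩ ⟨0, 0, 0, 0⟩)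
        (.L ⟨562, 28, false, false, 9840, 2576⟩ ⟨646, 81, true, false, 21111, 24844⟩
         ⟨267, 290, 460, 490⟩ ⟨301, 315, 570, 586⟩ ⟨428, 463, 520, 552⟩
         ⟨0, 0, 0, 0⟩ ⟨0, 0, 0, 0⟩))))
     (.S 5 426
      (.S 5 389
       (.L ⟨532, 23, false, false, 9785, 1238⟩ ⟨651, 65, true, false, 17027, 20897⟩
        ⟨258, 288, 459, 495⟩ ⟨296, 313, 558, 574⟩ ⟨436, 473, 514, 549⟩
        ⟨0, 0, 0, 0⟩ ⟨0, 0, 0, 0⟩)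
       (.L ⟨532, 23, false, false, 9785, 1238⟩ ⟨646, 70, true, false, 18295, 22209⟩
        ⟨258, 288, 459, 495⟩ ⟨297, 314, 562, 578⟩ ⟨433, 471, 516, 551⟩
        ⟨0, 0, 0, 0⟩ ⟨0, 0, 0, 0⟩))
      (.S 0 841
       (.L ⟨542, 21, false, false, 9413, 1238⟩ ⟨651, 74, true, false, 19612, 24670⟩
        ⟨260, 288, 461, 495⟩ ⟨300, 317, 566, 585⟩ ⟨429, 469, 519, 556⟩
        ⟨0, 0, 0, 0⟩ ⟨0, 0, 0, 0⟩)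
       (.L ⟨532, 23, false, false, 9785, 1543⟩ ⟨640, 75, true, false, 19771, 24844⟩
        ⟨258, 286, 459, 494⟩ ⟨298, 315, 567, 586⟩ ⟨427, 468, 519, 556⟩
        ⟨0, 0, 0, 0⟩ ⟨0, 0, 0, 0⟩))))))
  (by decide +kernel)

theorem qAS3_326 : Cl ⟨0, false, true, true⟩ ⟨0, true, false, false⟩
    ⟨795, 850, 155, 218⟩ ⟨763, 870, 296, 424⟩ ⟨694, 729, 150, 183⟩ := .mk
  (.S 2 816
   (.S 0 822
    (.L ⟨588, 27, false, false, 10156, 2168⟩ ⟨805, 39, true, false, 10055, 13208⟩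
     ⟨273, 298, 461, 492⟩ ⟨312, 322, 531, 543⟩ ⟨462, 489, 514, 538⟩
     ⟨0, 0, 0, 0⟩ ⟨0, 0, 0, 0⟩)
    (.L ⟨573, 29, false, false, 10766, 2668⟩ ⟨785, 39, true, false, 10051, 13175⟩
     ⟨270, 295, 458, 490⟩ ⟨310, 320, 531, 543⟩ ⟨461, 488, 514, 538⟩
     ⟨0, 0, 0, 0⟩ ⟨0, 0, 0, 0⟩))
   (.L ⟨542, 24, false, false, 9610, 1171⟩ ⟨785, 39, true, false, 10055, 13175⟩
    ⟨261, 291, 460, 496⟩ ⟨310, 322, 531, 543⟩ ⟨462, 491, 515, 542⟩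
    ⟨0, 0, 0, 0⟩ ⟨0, 0, 0, 0⟩))
  (by decide +kernel)

theorem qAS3_327 : Cl ⟨0, false, true, true⟩ ⟨0, true, true, true⟩
    ⟨799, 862, 155, 225⟩ ⟨763, 870, 296, 424⟩ ⟨799, 862, 140, 225⟩ := .mk
  (.S 0 830
   (.S 2 816
    (.S 1 190
     (.L ⟨596, 31, false, false, 10331, 3181⟩ ⟨696, 38, true, false, 9737, 13758⟩
      ⟨276, 297, 460, 488⟩ ⟨296, 311, 532, 549⟩ ⟨454, 483, 506, 532⟩
      ⟨0, 0, 0, 0⟩ ⟨0, 0, 0, 0⟩)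
     (.S 0 814
      (.D ⟨590, 25, false, false, 8898, 2007⟩ ⟨707, 42, true, false, 10912, 14999⟩
       ⟨273, 295, 465, 493⟩ ⟨299, 312, 536, 553⟩ ⟨455, 484, 509, 535⟩)
      (.L ⟨581, 26, false, false, 9272, 2289⟩ ⟨696, 42, true, false, 10887, 14999⟩
       ⟨271, 293, 463, 491⟩ ⟨297, 311, 536, 553⟩ ⟨453, 483, 509, 535⟩
       ⟨0, 0, 0, 0⟩ ⟨0, 0, 0, 0⟩)))
    (.S 0 814
     (.L ⟨560, 20, false, false, 8824, 994⟩ ⟨708, 38, true, false, 9737, 14999⟩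
      ⟨265, 291, 464, 496⟩ ⟨298, 312, 532, 553⟩ ⟨454, 488, 509, 538⟩
      ⟨0, 0, 0, 0⟩ ⟨0, 0, 0, 0⟩)
     (.L ⟨551, 21, false, false, 9173, 1275⟩ ⟨696, 38, true, false, 9729, 14999⟩
      ⟨263, 289, 463, 495⟩ ⟨296, 311, 533, 553⟩ ⟨454, 487, 509, 538⟩
      ⟨0, 0, 0, 0⟩ ⟨0, 0, 0, 0⟩)))
   (.S 2 816
    (.S 1 190
     (.L ⟨578, 34, false, false, 11027, 3719⟩ ⟨674, 38, true, false, 9721, 13797⟩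
      ⟨272, 294, 456, 486⟩ ⟨293, 308, 533, 551⟩ ⟨451, 482, 506, 532⟩
      ⟨0, 0, 0, 0⟩ ⟨0, 0, 0, 0⟩)
     (.S 1 207
      (.L ⟨571, 32, false, false, 10020, 3171⟩ ⟨673, 42, true, false, 10860, 14380⟩
       ⟨270, 292, 459, 488⟩ ⟨293, 309, 537, 552⟩ ⟨452, 481, 507, 534⟩
       ⟨0, 0, 0, 0⟩ ⟨0, 0, 0, 0⟩)
      (.D ⟨563, 30, false, false, 9535, 2591⟩ ⟨673, 44, true, false, 11415, 14999⟩
       ⟨268, 290, 461, 490⟩ ⟨294, 309, 539, 555⟩ ⟨451, 480, 509, 535⟩)))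
    (.S 5 182
     (.L ⟨533, 24, false, false, 9872, 1575⟩ ⟨674, 38, true, false, 9721, 13523⟩
      ⟨259, 287, 459, 494⟩ ⟨293, 308, 533, 550⟩ ⟨454, 486, 508, 537⟩
      ⟨0, 0, 0, 0⟩ ⟨0, 0, 0, 0⟩)
     (.L ⟨533, 24, false, false, 9872, 1575⟩ ⟨674, 43, true, false, 11176, 14999⟩
      ⟨259, 287, 459, 494⟩ ⟨294, 309, 538, 555⟩ ⟨450, 483, 509, 539⟩
      ⟨0, 0, 0, 0⟩ ⟨0, 0, 0, 0⟩))))
  (by decide +kernel)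

theorem qAS3_328 : Cl ⟨0, false, true, true⟩ ⟨0, true, true, true⟩
    ⟨792, 859, 155, 231⟩ ⟨763, 870, 296, 424⟩ ⟨778, 861, 202, 294⟩ := .mk
  (.S 0 825
   (.S 1 193
    (.S 4 819
     (.L ⟨567, 25, false, false, 10222, 2019⟩ ⟨730, 46, true, false, 11846, 16302⟩
      ⟨268, 298, 460, 492⟩ ⟨303, 316, 538, 556⟩ ⟨451, 484, 510, 540⟩
      ⟨0, 0, 0, 0⟩ ⟨0, 0, 0, 0⟩)
     (.L ⟨567, 25, false, false, 10222, 2019⟩ ⟨700, 45, true, false, 11781, 16154⟩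
      ⟨268, 298, 460, 492⟩ ⟨299, 312, 539, 557⟩ ⟨449, 482, 508, 538⟩
      ⟨0, 0, 0, 0⟩ ⟨0, 0, 0, 0⟩))
    (.S 2 816
     (.S 4 819
      (.L ⟨581, 25, false, false, 9065, 1672⟩ ⟨730, 51, true, false, 13118, 17622⟩
       ⟨271, 295, 464, 494⟩ ⟨305, 318, 542, 559⟩ ⟨451, 483, 513, 541⟩
       ⟨0, 0, 0, 0⟩ ⟨0, 0, 0, 0⟩)
      (.S 0 808
       (.D ⟨591, 23, false, false, 8664, 1672⟩ ⟨713, 51, true, false, 13106, 17492⟩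
        ⟨273, 295, 466, 494⟩ ⟨302, 314, 543, 560⟩ ⟨451, 481, 512, 538⟩)
       (.L ⟨581, 25, false, false, 9065, 1977⟩ ⟨701, 51, true, false, 13110, 17529⟩
        ⟨271, 294, 464, 493⟩ ⟨300, 312, 544, 561⟩ ⟨449, 479, 511, 538⟩
        ⟨0, 0, 0, 0⟩ ⟨0, 0, 0, 0⟩)))
     (.S 0 808
      (.D ⟨562, 18, false, false, 7414, 646⟩ ⟨713, 51, true, false, 13118, 17492⟩
       ⟨265, 289, 469, 498⟩ ⟨302, 318, 542, 560⟩ ⟨453, 485, 514, 544⟩)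
      (.L ⟨551, 20, false, false, 7815, 949⟩ ⟨701, 51, true, false, 13123, 17529⟩
       ⟨263, 287, 467, 497⟩ ⟨300, 316, 543, 561⟩ ⟨451, 484, 514, 544⟩
       ⟨0, 0, 0, 0⟩ ⟨0, 0, 0, 0⟩))))
   (.S 2 816
    (.S 1 193
     (.S 0 842
      (.L ⟨588, 32, false, false, 10592, 3535⟩ ⟨688, 46, true, false, 11898, 16214⟩
       ⟨274, 295, 459, 487⟩ ⟨297, 313, 539, 558⟩ ⟨448, 480, 509, 537⟩
       ⟨0, 0, 0, 0⟩ ⟨0, 0, 0, 0⟩)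
      (.L ⟨578, 33, false, false, 10962, 3832⟩ ⟨676, 46, true, false, 11925, 16274⟩
       ⟨272, 293, 457, 485⟩ ⟨295, 311, 540, 559⟩ ⟨446, 478, 509, 537⟩
       ⟨0, 0, 0, 0⟩ ⟨0, 0, 0, 0⟩))
     (.S 4 819
      (.S 1 212
       (.L ⟨570, 31, false, false, 9864, 2918⟩ ⟨707, 51, true, false, 13128, 17058⟩
        ⟨270, 292, 460, 489⟩ ⟨301, 314, 543, 559⟩ ⟨449, 479, 513, 539⟩
        ⟨0, 0, 0, 0⟩ ⟨0, 0, 0, 0⟩)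
       (.D ⟨562, 29, false, false, 9320, 2302⟩ ⟨707, 53, true, false, 13747, 17698⟩
        ⟨267, 290, 462, 491⟩ ⟨302, 315, 545, 561⟩ ⟨449, 479, 515, 542⟩))
      (.S 0 842
       (.L ⟨571, 27, false, false, 9465, 2302⟩ ⟨689, 51, true, false, 13116, 17567⟩
        ⟨269, 292, 462, 491⟩ ⟨298, 310, 545, 562⟩ ⟨447, 478, 511, 538⟩
        ⟨0, 0, 0, 0⟩ ⟨0, 0, 0, 0⟩)
       (.L ⟨562, 29, false, false, 9864, 2626⟩ ⟨677, 51, true, false, 13121, 17605⟩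
        ⟨267, 290, 460, 490⟩ ⟨296, 309, 545, 563⟩ ⟨445, 477, 511, 538⟩
        ⟨0, 0, 0, 0⟩ ⟨0, 0, 0, 0⟩))))
    (.S 1 193
     (.L ⟨547, 28, false, false, 9807, 2592⟩ ⟨676, 46, true, false, 11898, 16274⟩
      ⟨263, 288, 459, 490⟩ ⟨295, 313, 539, 559⟩ ⟨448, 482, 510, 542⟩
      ⟨0, 0, 0, 0⟩ ⟨0, 0, 0, 0⟩)
     (.S 4 819
      (.L ⟨532, 23, false, false, 8617, 1272⟩ ⟨707, 51, true, false, 13128, 17698⟩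
       ⟨258, 285, 463, 495⟩ ⟨301, 315, 543, 561⟩ ⟨450, 483, 516, 545⟩
       ⟨0, 0, 0, 0⟩ ⟨0, 0, 0, 0⟩)
      (.L ⟨532, 23, false, false, 8617, 1272⟩ ⟨677, 51, true, false, 13116, 17605⟩
       ⟨258, 285, 463, 495⟩ ⟨296, 310, 545, 563⟩ ⟨447, 480, 513, 543⟩
       ⟨0, 0, 0, 0⟩ ⟨0, 0, 0, 0⟩)))))
  (by decide +kernel)

theorem qAS3_329 : Cl ⟨0, false, true, true⟩ ⟨0, true, false, false⟩
    ⟨805, 864, 155, 217⟩ ⟨763, 870, 296, 424⟩ ⟨794, 814, 73, 92⟩ := .mk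
  (.S 2 816
   (.L ⟨566, 31, false, false, 11071, 2386⟩ ⟨705, 28, true, false, 7473, 9996⟩
    ⟨269, 297, 456, 491⟩ ⟨296, 307, 525, 536⟩ ⟨461, 488, 504, 529⟩
    ⟨0, 0, 0, 0⟩ ⟨0, 0, 0, 0⟩)
   (.L ⟨535, 26, false, false, 9916, 1391⟩ ⟨705, 28, true, false, 7473, 9996⟩
    ⟨259, 290, 459, 495⟩ ⟨296, 307, 525, 536⟩ ⟨463, 490, 507, 533⟩
    ⟨0, 0, 0, 0⟩ ⟨0, 0, 0, 0⟩))
  (by decide +kernel)

theorem qAS3_330 : Cl ⟨0, false, true, true⟩ ⟨0, true, false, false⟩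
    ⟨805, 864, 155, 217⟩ ⟨763, 870, 296, 424⟩ ⟨843, 885, 77, 140⟩ := .mk
  (.S 2 816
   (.S 0 834
    (.S 0 819
     (.L ⟨591, 26, false, false, 10091, 2386⟩ ⟨687, 30, true, false, 7735, 11996⟩
      ⟨274, 297, 461, 491⟩ ⟨293, 304, 527, 544⟩ ⟨457, 486, 503, 527⟩
      ⟨0, 0, 0, 0⟩ ⟨0, 0, 0, 0⟩)
     (.L ⟨582, 28, false, false, 10418, 2645⟩ ⟨676, 30, true, false, 7698, 11957⟩
      ⟨272, 295, 460, 490⟩ ⟨291, 302, 527, 544⟩ ⟨457, 485, 503, 526⟩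
      ⟨0, 0, 0, 0⟩ ⟨0, 0, 0, 0⟩))
    (.S 1 186
     (.L ⟨578, 34, false, false, 11071, 3917⟩ ⟨656, 30, true, false, 7659, 10810⟩
      ⟨272, 294, 456, 485⟩ ⟨288, 300, 527, 541⟩ ⟨457, 483, 502, 525⟩
      ⟨0, 0, 0, 0⟩ ⟨0, 0, 0, 0⟩)
     (.L ⟨566, 31, false, false, 10181, 2922⟩ ⟨654, 34, true, false, 8700, 11878⟩
      ⟨269, 291, 459, 489⟩ ⟨288, 301, 531, 545⟩ ⟨456, 483, 503, 527⟩
      ⟨0, 0, 0, 0⟩ ⟨0, 0, 0, 0⟩)))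
   (.S 0 834
    (.L ⟨552, 23, false, false, 9261, 1391⟩ ⟨676, 30, true, false, 7735, 11957⟩
     ⟨263, 290, 462, 495⟩ ⟨291, 304, 527, 544⟩ ⟨458, 489, 504, 531⟩
     ⟨0, 0, 0, 0⟩ ⟨0, 0, 0, 0⟩)
    (.L ⟨535, 26, false, false, 9916, 1925⟩ ⟨656, 30, true, false, 7659, 11878⟩
     ⟨259, 287, 459, 492⟩ ⟨288, 301, 527, 545⟩ ⟨456, 487, 504, 531⟩
     ⟨0, 0, 0, 0⟩ ⟨0, 0, 0, 0⟩)))
  (by decide +kernel)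

theorem qAS3_331 : Cl ⟨0, false, true, true⟩ ⟨0, true, false, false⟩
    ⟨799, 862, 155, 225⟩ ⟨763, 870, 296, 424⟩ ⟨816, 877, 117, 176⟩ := .mk
  (.S 0 830
   (.S 2 816
    (.S 1 190
     (.L ⟨596, 31, false, false, 10331, 3181⟩ ⟨686, 35, true, false, 8989, 12151⟩
      ⟨276, 297, 460, 488⟩ ⟨294, 308, 530, 544⟩ ⟨457, 484, 504, 529⟩
      ⟨0, 0, 0, 0⟩ ⟨0, 0, 0, 0⟩)
     (.L ⟨581, 26, false, false, 9272, 2007⟩ ⟨685, 40, true, false, 10181, 13397⟩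
      ⟨271, 295, 463, 493⟩ ⟨295, 309, 534, 549⟩ ⟨456, 484, 506, 532⟩
      ⟨0, 0, 0, 0⟩ ⟨0, 0, 0, 0⟩))
    (.L ⟨551, 21, false, false, 9173, 994⟩ ⟨686, 35, true, false, 8989, 13397⟩
     ⟨263, 291, 463, 496⟩ ⟨294, 309, 530, 549⟩ ⟨456, 489, 506, 536⟩
     ⟨0, 0, 0, 0⟩ ⟨0, 0, 0, 0⟩))
   (.S 2 816
    (.S 1 190
     (.L ⟨578, 34, false, false, 11027, 3719⟩ ⟨664, 35, true, false, 8950, 12135⟩
      ⟨272, 294, 456, 486⟩ ⟨290, 305, 531, 545⟩ ⟨455, 482, 504, 529⟩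
      ⟨0, 0, 0, 0⟩ ⟨0, 0, 0, 0⟩)
     (.S 1 207
      (.L ⟨571, 32, false, false, 10020, 3171⟩ ⟨662, 39, true, false, 10105, 12721⟩
       ⟨270, 292, 459, 488⟩ ⟨291, 305, 535, 548⟩ ⟨454, 481, 506, 530⟩
       ⟨0, 0, 0, 0⟩ ⟨0, 0, 0, 0⟩)
      (.D ⟨563, 30, false, false, 9535, 2591⟩ ⟨662, 42, true, false, 10668, 13344⟩
       ⟨268, 290, 461, 490⟩ ⟨291, 306, 537, 550⟩ ⟨454, 481, 507, 532⟩)))
    (.L ⟨533, 24, false, false, 9872, 1575⟩ ⟨664, 35, true, false, 8950, 13344⟩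
     ⟨259, 287, 459, 494⟩ ⟨290, 306, 531, 550⟩ ⟨453, 487, 506, 536⟩
     ⟨0, 0, 0, 0⟩ ⟨0, 0, 0, 0⟩)))
  (by decide +kernel)

theorem qAS3_332 : Cl ⟨0, false, true, true⟩ ⟨0, true, false, false⟩
    ⟨811, 864, 155, 212⟩ ⟨763, 870, 296, 424⟩ ⟨846, 873, 29, 56⟩ := .mk
  (.S 0 837
   (.L ⟨552, 24, false, false, 10483, 1678⟩ ⟨679, 24, true, false, 6192, 9023⟩
    ⟨264, 296, 459, 494⟩ ⟨291, 299, 522, 534⟩ ⟨463, 490, 501, 525⟩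
    ⟨0, 0, 0, 0⟩ ⟨0, 0, 0, 0⟩)
   (.S 2 816
    (.L ⟨568, 31, false, false, 11071, 3137⟩ ⟨660, 23, true, false, 6084, 8881⟩
     ⟨269, 293, 456, 488⟩ ⟨287, 296, 522, 534⟩ ⟨461, 486, 501, 522⟩
     ⟨0, 0, 0, 0⟩ ⟨0, 0, 0, 0⟩)
    (.L ⟨537, 26, false, false, 9916, 2151⟩ ⟨660, 23, true, false, 6084, 8881⟩
     ⟨260, 286, 459, 492⟩ ⟨287, 296, 522, 534⟩ ⟨463, 489, 504, 525⟩
     ⟨0, 0, 0, 0⟩ ⟨0, 0, 0, 0⟩)))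
  (by decide +kernel)

theorem qAS3_333 : Cl ⟨0, false, true, true⟩ ⟨0, true, false, false⟩
    ⟨811, 864, 155, 212⟩ ⟨763, 870, 296, 424⟩ ⟨867, 914, 38, 90⟩ := .mk
  (.S 2 816
   (.S 0 837
    (.S 0 824
     (.L ⟨590, 28, false, false, 10200, 2662⟩ ⟨663, 26, true, false, 6561, 10341⟩
      ⟨274, 296, 461, 490⟩ ⟨288, 299, 523, 539⟩ ⟨460, 487, 500, 523⟩
      ⟨0, 0, 0, 0⟩ ⟨0, 0, 0, 0⟩)
     (.L ⟨582, 29, false, false, 10483, 2900⟩ ⟨654, 25, true, false, 6511, 10287⟩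
      ⟨272, 295, 459, 489⟩ ⟨286, 297, 523, 540⟩ ⟨458, 486, 499, 522⟩
      ⟨0, 0, 0, 0⟩ ⟨0, 0, 0, 0⟩))
    (.L ⟨568, 31, false, false, 11071, 3137⟩ ⟨635, 25, true, false, 6460, 10177⟩
     ⟨269, 293, 456, 488⟩ ⟨283, 295, 524, 540⟩ ⟨457, 485, 499, 523⟩
     ⟨0, 0, 0, 0⟩ ⟨0, 0, 0, 0⟩))
   (.L ⟨537, 26, false, false, 9916, 1678⟩ ⟨635, 25, true, false, 6561, 10177⟩
    ⟨260, 289, 459, 494⟩ ⟨283, 299, 523, 540⟩ ⟨459, 490, 500, 528⟩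
    ⟨0, 0, 0, 0⟩ ⟨0, 0, 0, 0⟩))
  (by decide +kernel)

theorem qAS3_334 : Cl ⟨0, false, true, true⟩ ⟨0, true, false, false⟩
    ⟨805, 864, 155, 217⟩ ⟨763, 870, 296, 424⟩ ⟨849, 904, 57, 112⟩ := .mk
  (.S 2 816
   (.S 0 834
    (.S 1 186
     (.L ⟨595, 32, false, false, 10418, 3419⟩ ⟨663, 28, true, false, 7116, 10011⟩
      ⟨276, 297, 460, 487⟩ ⟨289, 302, 525, 538⟩ ⟨460, 485, 501, 523⟩
      ⟨0, 0, 0, 0⟩ ⟨0, 0, 0, 0⟩)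
     (.L ⟨582, 28, false, false, 9486, 2386⟩ ⟨661, 32, true, false, 8191, 11127⟩
      ⟨272, 295, 462, 491⟩ ⟨289, 302, 529, 542⟩ ⟨459, 485, 502, 526⟩
      ⟨0, 0, 0, 0⟩ ⟨0, 0, 0, 0⟩))
    (.S 1 186
     (.L ⟨578, 34, false, false, 11071, 3917⟩ ⟨643, 27, true, false, 7021, 9937⟩
      ⟨272, 294, 456, 485⟩ ⟨285, 298, 525, 539⟩ ⟨458, 483, 500, 523⟩
      ⟨0, 0, 0, 0⟩ ⟨0, 0, 0, 0⟩)
     (.L ⟨566, 31, false, false, 10181, 2922⟩ ⟨640, 31, true, false, 8066, 11020⟩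
      ⟨269, 291, 459, 489⟩ ⟨285, 299, 529, 543⟩ ⟨457, 483, 501, 526⟩
      ⟨0, 0, 0, 0⟩ ⟨0, 0, 0, 0⟩)))
   (.S 0 834
    (.L ⟨552, 23, false, false, 9261, 1391⟩ ⟨663, 28, true, false, 7116, 11127⟩
     ⟨263, 290, 462, 495⟩ ⟨289, 302, 525, 542⟩ ⟨459, 489, 503, 529⟩
     ⟨0, 0, 0, 0⟩ ⟨0, 0, 0, 0⟩)
    (.L ⟨535, 26, false, false, 9916, 1925⟩ ⟨643, 27, true, false, 7021, 11020⟩
     ⟨259, 287, 459, 492⟩ ⟨285, 299, 525, 543⟩ ⟨457, 488, 502, 529⟩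
     ⟨0, 0, 0, 0⟩ ⟨0, 0, 0, 0⟩)))
  (by decide +kernel)

theorem qAS3_335 : Cl ⟨0, false, true, true⟩ ⟨0, true, false, false⟩
    ⟨811, 864, 155, 212⟩ ⟨763, 870, 296, 424⟩ ⟨886, 909, 14, 39⟩ := .mk
  (.S 2 816
   (.S 0 837
    (.L ⟨582, 29, false, false, 10483, 2662⟩ ⟨655, 22, true, false, 5901, 8686⟩
     ⟨272, 296, 459, 490⟩ ⟨286, 294, 521, 534⟩ ⟨462, 487, 499, 519⟩
     ⟨0, 0, 0, 0⟩ ⟨0, 0, 0, 0⟩)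
    (.L ⟨568, 31, false, false, 11071, 3137⟩ ⟨636, 22, true, false, 5780, 8529⟩
     ⟨269, 293, 456, 488⟩ ⟨282, 291, 521, 534⟩ ⟨461, 486, 498, 519⟩
     ⟨0, 0, 0, 0⟩ ⟨0, 0, 0, 0⟩))
   (.L ⟨537, 26, false, false, 9916, 1678⟩ ⟨636, 22, true, false, 5901, 8529⟩
    ⟨260, 289, 459, 494⟩ ⟨282, 294, 521, 534⟩ ⟨462, 490, 499, 524⟩
    ⟨0, 0, 0, 0⟩ ⟨0, 0, 0, 0⟩))
  (by decide +kernel)

theorem qAS3_336 : Cl ⟨0, false, true, true⟩ ⟨0, true, false, false⟩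
    ⟨811, 864, 155, 212⟩ ⟨763, 870, 296, 424⟩ ⟨897, 934, 22, 62⟩ := .mk
  (.S 2 816
   (.S 0 837
    (.L ⟨582, 29, false, false, 10483, 2662⟩ ⟨638, 24, true, false, 6194, 9523⟩
     ⟨272, 296, 459, 490⟩ ⟨284, 294, 523, 537⟩ ⟨460, 486, 498, 520⟩
     ⟨0, 0, 0, 0⟩ ⟨0, 0, 0, 0⟩)
    (.L ⟨568, 31, false, false, 11071, 3137⟩ ⟨622, 23, true, false, 6080, 9387⟩
     ⟨269, 293, 456, 488⟩ ⟨280, 291, 523, 538⟩ ⟨458, 485, 497, 520⟩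
     ⟨0, 0, 0, 0⟩ ⟨0, 0, 0, 0⟩))
   (.L ⟨537, 26, false, false, 9916, 1678⟩ ⟨622, 23, true, false, 6194, 9387⟩
    ⟨260, 289, 459, 494⟩ ⟨280, 294, 523, 538⟩ ⟨460, 489, 498, 525⟩
    ⟨0, 0, 0, 0⟩ ⟨0, 0, 0, 0⟩))
  (by decide +kernel)

theorem qAS3_337 : Cl ⟨0, false, true, true⟩ ⟨0, true, false, false⟩
    ⟨811, 864, 155, 212⟩ ⟨763, 870, 296, 424⟩ ⟨882, 927, 32, 77⟩ := .mk
  (.S 2 816
   (.S 0 837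
    (.L ⟨582, 29, false, false, 10483, 2662⟩ ⟨646, 25, true, false, 6435, 9944⟩
     ⟨272, 296, 459, 490⟩ ⟨285, 296, 523, 539⟩ ⟨459, 486, 498, 522⟩
     ⟨0, 0, 0, 0⟩ ⟨0, 0, 0, 0⟩)
    (.L ⟨568, 31, false, false, 11071, 3137⟩ ⟨627, 25, true, false, 6329, 9822⟩
     ⟨269, 293, 456, 488⟩ ⟨281, 293, 523, 539⟩ ⟨457, 485, 498, 521⟩
     ⟨0, 0, 0, 0⟩ ⟨0, 0, 0, 0⟩))
   (.L ⟨537, 26, false, false, 9916, 1678⟩ ⟨627, 25, true, false, 6435, 9822⟩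
    ⟨260, 289, 459, 494⟩ ⟨281, 296, 523, 539⟩ ⟨459, 489, 499, 526⟩
    ⟨0, 0, 0, 0⟩ ⟨0, 0, 0, 0⟩))
  (by decide +kernel)

/-- The pairs of the file. -/
def rAS3 : List Pq := [
  ⟨4, 4, ⟨792, 858, 155, 232⟩, ⟨763, 870, 296, 424⟩, ⟨765, 881, 353, 499⟩⟩,
  ⟨4, 8, ⟨795, 850, 155, 218⟩, ⟨763, 870, 296, 424⟩, ⟨694, 729, 150, 183⟩⟩,
  ⟨4, 6, ⟨799, 862, 155, 225⟩, ⟨763, 870, 296, 424⟩, ⟨799, 862, 140, 225⟩⟩,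
  ⟨4, 7, ⟨792, 859, 155, 231⟩, ⟨763, 870, 296, 424⟩, ⟨778, 861, 202, 294⟩⟩,
  ⟨4, 11, ⟨805, 864, 155, 217⟩, ⟨763, 870, 296, 424⟩, ⟨794, 814, 73, 92⟩⟩,
  ⟨4, 9, ⟨805, 864, 155, 217⟩, ⟨763, 870, 296, 424⟩, ⟨843, 885, 77, 140⟩⟩,
  ⟨4, 10, ⟨799, 862, 155, 225⟩, ⟨763, 870, 296, 424⟩, ⟨816, 877, 117, 176⟩⟩,
  ⟨4, 14, ⟨811, 864, 155, 212⟩, ⟨763, 870, 296, 424⟩, ⟨846, 873, 29, 56⟩⟩,
  ⟨4, 12, ⟨811, 864, 155, 212⟩, ⟨763, 870, 296, 424⟩, ⟨867, 914, 38, 90⟩⟩,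
  ⟨4, 13, ⟨805, 864, 155, 217⟩, ⟨763, 870, 296, 424⟩, ⟨849, 904, 57, 112⟩⟩,
  ⟨4, 17, ⟨811, 864, 155, 212⟩, ⟨763, 870, 296, 424⟩, ⟨886, 909, 14, 39⟩⟩,
  ⟨4, 15, ⟨811, 864, 155, 212⟩, ⟨763, 870, 296, 424⟩, ⟨897, 934, 22, 62⟩⟩,
  ⟨4, 16, ⟨811, 864, 155, 212⟩, ⟨763, 870, 296, 424⟩, ⟨882, 927, 32, 77⟩⟩]

theorem rAS3_ok : ∀ p ∈ rAS3, Cr false true p :=
  List.forall_mem_cons.2 ⟨qAS3_325,
  List.forall_mem_cons.2 ⟨qAS3_326,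
  List.forall_mem_cons.2 ⟨qAS3_327,
  List.forall_mem_cons.2 ⟨qAS3_328,
  List.forall_mem_cons.2 ⟨qAS3_329,
  List.forall_mem_cons.2 ⟨qAS3_330,
  List.forall_mem_cons.2 ⟨qAS3_331,
  List.forall_mem_cons.2 ⟨qAS3_332,
  List.forall_mem_cons.2 ⟨qAS3_333,
  List.forall_mem_cons.2 ⟨qAS3_334,
  List.forall_mem_cons.2 ⟨qAS3_335,
  List.forall_mem_cons.2 ⟨qAS3_336,
  List.forall_mem_cons.2 ⟨qAS3_337,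
  List.forall_mem_nil _⟩⟩⟩⟩⟩⟩⟩⟩⟩⟩⟩⟩⟩

end Pool.Agent.S5.Z4
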