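import Pool.Agent.S5.Z4.Tre

/-!
# Inner nodes with four half twists: certificates
-/

set_option autoImplicit false

namespace Pool.Agent.S5.Z4

theorem qAS4_338 : Cl ⟨0, false, true, true⟩ ⟨0, true, false, false⟩
    ⟨816, 864, 155, 210⟩ ⟨763, 870, 296, 424⟩ ⟨900, 1001, 0, 29⟩ := .mk
  (.S 2 816
   (.S 3 360
    (.L ⟨594, 23, false, false, 8631, 2819⟩ ⟨584, 22, true, false, 5274, 8698⟩
     ⟨274, 296, 466, 489⟩ ⟨271, 292, 520, 537⟩ ⟨461, 487, 490, 517⟩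
     ⟨0, 0, 0, 0⟩ ⟨0, 0, 0, 0⟩)
    (.S 1 182
     (.S 0 840
      (.L ⟨593, 33, false, false, 10549, 5848⟩ ⟨600, 23, true, false, 5398, 7756⟩
       ⟨275, 293, 459, 477⟩ ⟨275, 292, 520, 532⟩ ⟨462, 481, 495, 517⟩
       ⟨0, 0, 0, 0⟩ ⟨0, 0, 0, 0⟩)
      (.L ⟨580, 35, false, false, 11071, 6325⟩ ⟨584, 22, true, false, 5274, 7636⟩
       ⟨273, 291, 456, 475⟩ ⟨271, 288, 520, 533⟩ ⟨460, 480, 494, 515⟩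
       ⟨0, 0, 0, 0⟩ ⟨0, 0, 0, 0⟩))
     (.S 0 840
      (.L ⟨582, 29, false, false, 9744, 4924⟩ ⟨598, 27, true, false, 6344, 8841⟩
       ⟨272, 291, 461, 481⟩ ⟨275, 292, 524, 537⟩ ⟨460, 481, 496, 519⟩
       ⟨0, 0, 0, 0⟩ ⟨0, 0, 0, 0⟩)
      (.S 1 196
       (.L ⟨574, 33, false, false, 10295, 5878⟩ ⟨581, 26, true, false, 6199, 8166⟩
        ⟨271, 288, 459, 477⟩ ⟨271, 289, 524, 535⟩ ⟨461, 479, 495, 517⟩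
        ⟨0, 0, 0, 0⟩ ⟨0, 0, 0, 0⟩)
       (.D ⟨569, 32, false, false, 9895, 5431⟩ ⟨580, 28, true, false, 6679, 8698⟩
        ⟨269, 287, 460, 478⟩ ⟨271, 289, 526, 537⟩ ⟨460, 478, 496, 518⟩)))))
   (.S 4 950
    (.L ⟨538, 26, false, false, 9916, 1839⟩ ⟨611, 21, true, false, 5274, 8391⟩
     ⟨260, 289, 459, 493⟩ ⟨277, 292, 520, 535⟩ ⟨461, 490, 496, 523⟩
     ⟨0, 0, 0, 0⟩ ⟨0, 0, 0, 0⟩)
    (.L ⟨538, 26, false, false, 9916, 1839⟩ ⟨584, 22, true, false, 5775, 8698⟩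
     ⟨260, 289, 459, 493⟩ ⟨271, 287, 522, 537⟩ ⟨459, 488, 493, 520⟩
     ⟨0, 0, 0, 0⟩ ⟨0, 0, 0, 0⟩)))
  (by decide +kernel)

theorem qAS4_339 : Cl ⟨0, false, true, true⟩ ⟨0, true, false, false⟩
    ⟨816, 864, 155, 210⟩ ⟨763, 870, 296, 424⟩ ⟨908, 1001, 0, 50⟩ := .mk
  (.S 2 816
   (.S 3 360
    (.L ⟨594, 23, false, false, 8631, 2819⟩ ⟨584, 22, true, false, 5315, 9301⟩
     ⟨274, 296, 466, 489⟩ ⟨271, 292, 521, 539⟩ ⟨460, 486, 490, 518⟩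
     ⟨0, 0, 0, 0⟩ ⟨0, 0, 0, 0⟩)
    (.S 1 182
     (.S 0 840
      (.L ⟨593, 33, false, false, 10549, 5848⟩ ⟨600, 23, true, false, 5439, 8341⟩
       ⟨275, 293, 459, 477⟩ ⟨275, 292, 521, 535⟩ ⟨460, 481, 495, 517⟩
       ⟨0, 0, 0, 0⟩ ⟨0, 0, 0, 0⟩)
      (.L ⟨580, 35, false, false, 11071, 6325⟩ ⟨584, 22, true, false, 5315, 8237⟩
       ⟨273, 291, 456, 475⟩ ⟨271, 288, 521, 535⟩ ⟨459, 480, 494, 516⟩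
       ⟨0, 0, 0, 0⟩ ⟨0, 0, 0, 0⟩))
     (.S 0 840
      (.L ⟨582, 29, false, false, 9744, 4924⟩ ⟨598, 27, true, false, 6393, 9427⟩
       ⟨272, 291, 461, 481⟩ ⟨275, 292, 524, 539⟩ ⟨459, 481, 496, 519⟩
       ⟨0, 0, 0, 0⟩ ⟨0, 0, 0, 0⟩)
      (.S 1 196
       (.L ⟨574, 33, false, false, 10295, 5878⟩ ⟨581, 26, true, false, 6247, 8768⟩
        ⟨271, 288, 459, 477⟩ ⟨271, 289, 524, 537⟩ ⟨459, 479, 495, 517⟩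
        ⟨0, 0, 0, 0⟩ ⟨0, 0, 0, 0⟩)
       (.D ⟨569, 32, false, false, 9895, 5431⟩ ⟨580, 28, true, false, 6732, 9301⟩
        ⟨269, 287, 460, 478⟩ ⟨271, 289, 526, 539⟩ ⟨458, 478, 496, 518⟩)))))
   (.S 4 954
    (.L ⟨538, 26, false, false, 9916, 1839⟩ ⟨606, 24, true, false, 5315, 9051⟩
     ⟨260, 289, 459, 493⟩ ⟨277, 292, 521, 537⟩ ⟨460, 489, 496, 523⟩
     ⟨0, 0, 0, 0⟩ ⟨0, 0, 0, 0⟩)
    (.L ⟨538, 26, false, false, 9916, 1839⟩ ⟨584, 22, true, false, 5796, 9301⟩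
     ⟨260, 289, 459, 493⟩ ⟨271, 287, 522, 539⟩ ⟨458, 488, 493, 521⟩
     ⟨0, 0, 0, 0⟩ ⟨0, 0, 0, 0⟩)))
  (by decide +kernel)

theorem qAS4_340 : Cl ⟨0, false, true, true⟩ ⟨0, true, false, false⟩
    ⟨816, 864, 155, 210⟩ ⟨763, 870, 296, 424⟩ ⟨895, 1001, 0, 61⟩ := .mk
  (.S 4 948
   (.S 2 816
    (.S 1 182
     (.L ⟨580, 35, false, false, 11071, 3739⟩ ⟨612, 21, true, false, 5248, 8341⟩
      ⟨273, 296, 456, 486⟩ ⟨277, 293, 520, 534⟩ ⟨460, 486, 494, 519⟩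
      ⟨0, 0, 0, 0⟩ ⟨0, 0, 0, 0⟩)
     (.S 0 840
      (.L ⟨582, 29, false, false, 9744, 2819⟩ ⟨626, 25, true, false, 6314, 9474⟩
       ⟨272, 294, 461, 489⟩ ⟨281, 294, 524, 538⟩ ⟨460, 485, 497, 520⟩
       ⟨0, 0, 0, 0⟩ ⟨0, 0, 0, 0⟩)
      (.L ⟨569, 32, false, false, 10295, 3256⟩ ⟨609, 25, true, false, 6168, 9355⟩
       ⟨269, 291, 459, 487⟩ ⟨277, 291, 524, 538⟩ ⟨459, 484, 496, 519⟩
       ⟨0, 0, 0, 0⟩ ⟨0, 0, 0, 0⟩)))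
    (.L ⟨538, 26, false, false, 9916, 1839⟩ ⟨612, 21, true, false, 5248, 9355⟩
     ⟨260, 289, 459, 493⟩ ⟨277, 294, 520, 538⟩ ⟨459, 490, 496, 525⟩
     ⟨0, 0, 0, 0⟩ ⟨0, 0, 0, 0⟩))
   (.S 2 816
    (.S 0 840
     (.L ⟨582, 29, false, false, 10549, 2819⟩ ⟨600, 23, true, false, 5765, 9735⟩
      ⟨272, 296, 459, 489⟩ ⟨275, 288, 522, 540⟩ ⟨457, 485, 492, 517⟩
      ⟨0, 0, 0, 0⟩ ⟨0, 0, 0, 0⟩)
     (.L ⟨569, 32, false, false, 11071, 3256⟩ ⟨584, 22, true, false, 5643, 9617⟩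
      ⟨269, 293, 456, 487⟩ ⟨271, 285, 522, 541⟩ ⟨455, 484, 492, 516⟩
      ⟨0, 0, 0, 0⟩ ⟨0, 0, 0, 0⟩))
    (.L ⟨538, 26, false, false, 9916, 1839⟩ ⟨584, 22, true, false, 5765, 9617⟩
     ⟨260, 289, 459, 493⟩ ⟨271, 288, 522, 541⟩ ⟨457, 488, 493, 522⟩
     ⟨0, 0, 0, 0⟩ ⟨0, 0, 0, 0⟩)))
  (by decide +kernel)

theorem qAS4_341 : Cl ⟨0, false, false, false⟩ ⟨0, true, true, false⟩
    ⟨789, 854, 180, 251⟩ ⟨730, 758, 118, 143⟩ ⟨733, 940, 400, 615⟩ := .mk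
  (.S 5 507
   (.S 4 836
    (.L ⟨700, 8, true, false, 139, 3970⟩ ⟨681, 76, true, false, 20004, 26278⟩
     ⟨293, 308, 499, 514⟩ ⟨305, 331, 561, 587⟩ ⟨443, 483, 508, 548⟩
     ⟨0, 0, 0, 0⟩ ⟨0, 0, 0, 0⟩)
    (.L ⟨700, 8, true, false, 139, 3970⟩ ⟨616, 73, true, false, 19182, 25251⟩
     ⟨293, 308, 499, 514⟩ ⟨293, 320, 563, 590⟩ ⟨437, 478, 500, 542⟩
     ⟨0, 0, 0, 0⟩ ⟨0, 0, 0, 0⟩))
   (.S 4 836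
    (.S 4 784
     (.S 5 561
      (.L ⟨700, 8, true, false, 139, 3970⟩ ⟨698, 95, true, false, 24144, 29046⟩
       ⟨293, 308, 499, 514⟩ ⟨314, 332, 573, 591⟩ ⟨443, 476, 518, 551⟩
       ⟨0, 0, 0, 0⟩ ⟨0, 0, 0, 0⟩)
      (.S 1 215
       (.L ⟨710, 4, true, false, 139, 2829⟩ ⟨684, 103, true, false, 26305, 30037⟩
        ⟨295, 308, 499, 510⟩ ⟨315, 331, 579, 595⟩ ⟨440, 469, 522, 551⟩
        ⟨0, 0, 0, 0⟩ ⟨0, 0, 0, 0⟩)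
       (.S 4 758
        (.S 5 588
         (.L ⟨700, 8, true, false, 848, 3970⟩ ⟨713, 109, true, false, 27560, 30554⟩
          ⟨293, 307, 503, 514⟩ ⟨322, 333, 581, 593⟩ ⟨447, 471, 527, 552⟩
          ⟨0, 0, 0, 0⟩ ⟨0, 0, 0, 0⟩)
         (.L ⟨700, 8, true, false, 848, 3970⟩ ⟨706, 114, true, false, 28674, 31756⟩
          ⟨293, 307, 503, 514⟩ ⟨322, 334, 584, 596⟩ ⟨444, 469, 528, 554⟩
          ⟨0, 0, 0, 0⟩ ⟨0, 0, 0, 0⟩))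
        (.L ⟨700, 8, true, false, 848, 3970⟩ ⟨693, 108, true, false, 27214, 31359⟩
         ⟨293, 307, 503, 514⟩ ⟨318, 331, 582, 597⟩ ⟨442, 469, 525, 552⟩
         ⟨0, 0, 0, 0⟩ ⟨0, 0, 0, 0⟩))))
     (.S 4 810
      (.L ⟨700, 8, true, false, 139, 3970⟩ ⟨679, 93, true, false, 23503, 30963⟩
       ⟨293, 308, 499, 514⟩ ⟨311, 328, 574, 598⟩ ⟨435, 474, 516, 552⟩
       ⟨0, 0, 0, 0⟩ ⟨0, 0, 0, 0⟩)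
      (.L ⟨700, 8, true, false, 139, 3970⟩ ⟨661, 92, true, false, 23178, 30567⟩
       ⟨293, 308, 499, 514⟩ ⟨308, 326, 574, 599⟩ ⟨433, 473, 514, 551⟩
       ⟨0, 0, 0, 0⟩ ⟨0, 0, 0, 0⟩)))
    (.S 1 215
     (.L ⟨710, 4, true, false, 139, 2829⟩ ⟨598, 87, true, false, 22853, 27466⟩
      ⟨295, 308, 499, 510⟩ ⟨295, 319, 575, 599⟩ ⟨429, 467, 505, 544⟩
      ⟨0, 0, 0, 0⟩ ⟨0, 0, 0, 0⟩)
     (.L ⟨700, 8, true, false, 848, 3970⟩ ⟨604, 92, true, false, 24215, 29004⟩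
      ⟨293, 307, 503, 514⟩ ⟨299, 323, 577, 602⟩ ⟨429, 470, 508, 549⟩
      ⟨0, 0, 0, 0⟩ ⟨0, 0, 0, 0⟩))))
  (by decide +kernel)

theorem qAS4_342 : Cl ⟨0, false, false, false⟩ ⟨2, true, false, true⟩
    ⟨789, 836, 180, 234⟩ ⟨730, 758, 118, 143⟩ ⟨558, 607, 363, 411⟩ := .mk
  (.L ⟨716, 7, true, false, 0, 3431⟩ ⟨902, 77, true, false, 19734, 23375⟩
   ⟨296, 308, 500, 512⟩ ⟨332, 345, 552, 565⟩ ⟨470, 492, 523, 545⟩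
   ⟨0, 0, 0, 0⟩ ⟨510, 568, 653, 712⟩)
  (by decide +kernel)

theorem qAS4_343 : Cl ⟨0, false, false, false⟩ ⟨0, true, true, true⟩
    ⟨789, 854, 180, 240⟩ ⟨730, 758, 118, 143⟩ ⟨741, 878, 246, 380⟩ := .mk
  (.L ⟨703, 7, true, false, 139, 3621⟩ ⟨668, 55, true, false, 14282, 20870⟩
   ⟨294, 308, 499, 513⟩ ⟨296, 325, 544, 573⟩ ⟨452, 490, 499, 537⟩
   ⟨0, 0, 0, 0⟩ ⟨0, 0, 0, 0⟩)
  (by decide +kernel)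

theorem qAS4_344 : Cl ⟨0, false, false, false⟩ ⟨0, true, true, true⟩
    ⟨789, 854, 180, 251⟩ ⟨730, 758, 118, 143⟩ ⟨765, 881, 353, 499⟩ := .mk
  (.L ⟨700, 8, true, false, 139, 3970⟩ ⟨657, 69, true, false, 18038, 25538⟩
   ⟨293, 308, 499, 514⟩ ⟨298, 327, 556, 587⟩ ⟨441, 485, 502, 546⟩
   ⟨0, 0, 0, 0⟩ ⟨0, 0, 0, 0⟩)
  (by decide +kernel)

theorem qAS4_345 : Cl ⟨0, false, false, false⟩ ⟨0, true, false, false⟩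
    ⟨795, 850, 180, 218⟩ ⟨730, 758, 118, 143⟩ ⟨694, 729, 150, 183⟩ := .mk
  (.L ⟨712, 5, true, false, 246, 2855⟩ ⟨785, 42, true, false, 10810, 13175⟩
   ⟨295, 308, 499, 510⟩ ⟨310, 322, 533, 543⟩ ⟨476, 494, 505, 524⟩
   ⟨0, 0, 0, 0⟩ ⟨0, 0, 0, 0⟩)
  (by decide +kernel)

theorem qAS4_346 : Cl ⟨0, false, false, false⟩ ⟨0, true, true, true⟩
    ⟨799, 854, 180, 225⟩ ⟨730, 758, 118, 143⟩ ⟨799, 862, 140, 225⟩ := .mk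
  (.L ⟨707, 5, true, false, 139, 3028⟩ ⟨679, 41, true, false, 10576, 14999⟩
   ⟨294, 307, 499, 511⟩ ⟨294, 312, 535, 554⟩ ⟨466, 491, 497, 522⟩
   ⟨0, 0, 0, 0⟩ ⟨0, 0, 0, 0⟩)
  (by decide +kernel)

theorem qAS4_347 : Cl ⟨0, false, false, false⟩ ⟨0, true, true, true⟩
    ⟨792, 854, 180, 231⟩ ⟨730, 758, 118, 143⟩ ⟨778, 861, 202, 294⟩ := .mk
  (.L ⟨706, 6, true, false, 139, 3300⟩ ⟨680, 49, true, false, 12682, 17594⟩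
   ⟨294, 308, 499, 512⟩ ⟨296, 318, 541, 562⟩ ⟨460, 490, 498, 528⟩
   ⟨0, 0, 0, 0⟩ ⟨0, 0, 0, 0⟩)
  (by decide +kernel)

theorem qAS4_348 : Cl ⟨0, false, false, false⟩ ⟨0, true, false, false⟩
    ⟨805, 854, 180, 217⟩ ⟨730, 758, 118, 143⟩ ⟨794, 814, 73, 92⟩ := .mk
  (.L ⟨710, 4, true, false, 139, 2709⟩ ⟨710, 31, true, false, 8295, 10038⟩
   ⟨295, 307, 499, 510⟩ ⟨297, 307, 528, 536⟩ ⟨478, 493, 497, 514⟩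
   ⟨0, 0, 0, 0⟩ ⟨0, 0, 0, 0⟩)
  (by decide +kernel)

theorem qAS4_349 : Cl ⟨0, false, false, false⟩ ⟨0, true, false, false⟩
    ⟨805, 854, 180, 217⟩ ⟨730, 758, 118, 143⟩ ⟨843, 885, 77, 140⟩ := .mk
  (.L ⟨710, 4, true, false, 139, 2709⟩ ⟨661, 33, true, false, 8598, 11904⟩
   ⟨295, 307, 499, 510⟩ ⟨289, 304, 530, 545⟩ ⟨471, 491, 493, 514⟩
   ⟨0, 0, 0, 0⟩ ⟨0, 0, 0, 0⟩)
  (by decide +kernel)

theorem qAS4_350 : Cl ⟨0, false, false, false⟩ ⟨0, true, false, false⟩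
    ⟨799, 854, 180, 225⟩ ⟨730, 758, 118, 143⟩ ⟨816, 877, 117, 176⟩ := .mk
  (.L ⟨707, 5, true, false, 139, 3028⟩ ⟨668, 38, true, false, 9840, 13357⟩
   ⟨294, 307, 499, 511⟩ ⟨292, 309, 533, 549⟩ ⟨469, 491, 495, 518⟩
   ⟨0, 0, 0, 0⟩ ⟨0, 0, 0, 0⟩)
  (by decide +kernel)

theorem qAS4_351 : Cl ⟨0, false, false, false⟩ ⟨0, true, false, false⟩
    ⟨811, 854, 180, 212⟩ ⟨730, 758, 118, 143⟩ ⟨846, 873, 29, 56⟩ := .mk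
  (.L ⟨711, 4, true, false, 139, 2487⟩ ⟨665, 27, true, false, 7049, 8934⟩
   ⟨295, 306, 499, 509⟩ ⟨289, 299, 525, 534⟩ ⟨478, 493, 493, 508⟩
   ⟨0, 0, 0, 0⟩ ⟨0, 0, 0, 0⟩)
  (by decide +kernel)

theorem qAS4_352 : Cl ⟨0, false, false, false⟩ ⟨0, true, false, false⟩
    ⟨811, 854, 180, 212⟩ ⟨730, 758, 118, 143⟩ ⟨867, 914, 38, 90⟩ := .mk
  (.L ⟨711, 4, true, false, 139, 2487⟩ ⟨640, 29, true, false, 7437, 10218⟩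
   ⟨295, 306, 499, 509⟩ ⟨284, 299, 527, 540⟩ ⟨474, 492, 490, 510⟩
   ⟨0, 0, 0, 0⟩ ⟨0, 0, 0, 0⟩)
  (by decide +kernel)

theorem qAS4_353 : Cl ⟨0, false, false, false⟩ ⟨0, true, false, false⟩
    ⟨805, 854, 180, 217⟩ ⟨730, 758, 118, 143⟩ ⟨849, 904, 57, 112⟩ := .mk
  (.L ⟨710, 4, true, false, 139, 2709⟩ ⟨648, 31, true, false, 7983, 11056⟩
   ⟨295, 307, 499, 510⟩ ⟨286, 302, 528, 542⟩ ⟨472, 492, 491, 512⟩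
   ⟨0, 0, 0, 0⟩ ⟨0, 0, 0, 0⟩)
  (by decide +kernel)

theorem qAS4_354 : Cl ⟨0, false, false, false⟩ ⟨0, true, false, false⟩
    ⟨811, 854, 180, 212⟩ ⟨730, 758, 118, 143⟩ ⟨886, 909, 14, 39⟩ := .mk
  (.L ⟨711, 4, true, false, 139, 2487⟩ ⟨641, 26, true, false, 6792, 8588⟩
   ⟨295, 306, 499, 509⟩ ⟨284, 294, 525, 534⟩ ⟨477, 492, 490, 505⟩
   ⟨0, 0, 0, 0⟩ ⟨0, 0, 0, 0⟩)
  (by decide +kernel)

theorem qAS4_355 : Cl ⟨0, false, false, false⟩ ⟨0, true, false, false⟩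
    ⟨811, 854, 180, 212⟩ ⟨730, 758, 118, 143⟩ ⟨897, 934, 22, 62⟩ := .mk
  (.L ⟨711, 4, true, false, 139, 2487⟩ ⟨627, 27, true, false, 7094, 9438⟩
   ⟨295, 306, 499, 509⟩ ⟨281, 294, 526, 538⟩ ⟨475, 491, 488, 506⟩
   ⟨0, 0, 0, 0⟩ ⟨0, 0, 0, 0⟩)
  (by decide +kernel)

theorem qAS4_356 : Cl ⟨0, false, false, false⟩ ⟨0, true, false, false⟩
    ⟨811, 854, 180, 212⟩ ⟨730, 758, 118, 143⟩ ⟨882, 927, 32, 77⟩ := .mk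
  (.L ⟨711, 4, true, false, 139, 2487⟩ ⟨632, 28, true, false, 7323, 9867⟩
   ⟨295, 306, 499, 509⟩ ⟨283, 296, 526, 539⟩ ⟨474, 492, 490, 508⟩
   ⟨0, 0, 0, 0⟩ ⟨0, 0, 0, 0⟩)
  (by decide +kernel)

theorem qAS4_357 : Cl ⟨0, false, false, false⟩ ⟨0, true, false, false⟩
    ⟨816, 854, 180, 210⟩ ⟨730, 758, 118, 143⟩ ⟨900, 1001, 0, 29⟩ := .mk
  (.L ⟨711, 4, true, false, 139, 2369⟩ ⟨588, 26, true, false, 6190, 8758⟩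
   ⟨295, 305, 499, 509⟩ ⟨273, 292, 524, 537⟩ ⟨474, 492, 484, 505⟩
   ⟨0, 0, 0, 0⟩ ⟨0, 0, 0, 0⟩)
  (by decide +kernel)

theorem qAS4_358 : Cl ⟨0, false, false, false⟩ ⟨0, true, false, false⟩
    ⟨816, 854, 180, 210⟩ ⟨730, 758, 118, 143⟩ ⟨908, 1001, 0, 50⟩ := .mk
  (.L ⟨711, 4, true, false, 139, 2369⟩ ⟨588, 26, true, false, 6238, 9354⟩
   ⟨295, 305, 499, 509⟩ ⟨273, 292, 524, 539⟩ ⟨473, 492, 484, 505⟩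
   ⟨0, 0, 0, 0⟩ ⟨0, 0, 0, 0⟩)
  (by decide +kernel)

theorem qAS4_359 : Cl ⟨0, false, false, false⟩ ⟨0, true, false, false⟩
    ⟨816, 854, 180, 210⟩ ⟨730, 758, 118, 143⟩ ⟨895, 1001, 0, 61⟩ := .mk
  (.L ⟨711, 4, true, false, 139, 2369⟩ ⟨588, 26, true, false, 6160, 9667⟩
   ⟨295, 305, 499, 509⟩ ⟨273, 294, 523, 540⟩ ⟨473, 493, 484, 506⟩
   ⟨0, 0, 0, 0⟩ ⟨0, 0, 0, 0⟩)
  (by decide +kernel)

theorem qAS4_360 : Cl ⟨0, false, true, true⟩ ⟨0, true, true, false⟩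
    ⟨795, 861, 177, 255⟩ ⟨816, 868, 109, 188⟩ ⟨733, 940, 400, 615⟩ := .mk
  (.S 4 836
   (.S 5 507
    (.L ⟨606, 9, true, false, 923, 5707⟩ ⟨676, 76, true, false, 19951, 26496⟩
     ⟨275, 298, 496, 522⟩ ⟨304, 331, 561, 588⟩ ⟨442, 490, 511, 558⟩
     ⟨0, 0, 0, 0⟩ ⟨0, 0, 0, 0⟩)
    (.S 5 561
     (.S 4 784
      (.L ⟨606, 9, true, false, 923, 5707⟩ ⟨693, 94, true, false, 24116, 29277⟩
       ⟨275, 298, 496, 522⟩ ⟨313, 332, 573, 592⟩ ⟨442, 482, 521, 560⟩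
       ⟨0, 0, 0, 0⟩ ⟨0, 0, 0, 0⟩)
      (.L ⟨606, 9, true, false, 923, 5707⟩ ⟨656, 92, true, false, 23469, 28635⟩
       ⟨275, 298, 496, 522⟩ ⟨307, 327, 574, 594⟩ ⟨438, 480, 517, 558⟩
       ⟨0, 0, 0, 0⟩ ⟨0, 0, 0, 0⟩))
     (.S 0 828
      (.S 4 784
       (.L ⟨627, 11, true, false, 510, 5707⟩ ⟨700, 101, true, false, 26290, 31115⟩
        ⟨279, 298, 498, 522⟩ ⟨317, 334, 579, 595⟩ ⟨442, 479, 526, 561⟩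
        ⟨0, 0, 0, 0⟩ ⟨0, 0, 0, 0⟩)
       (.L ⟨627, 11, true, false, 510, 5707⟩ ⟨664, 98, true, false, 25511, 30333⟩
        ⟨279, 298, 498, 522⟩ ⟨311, 328, 580, 597⟩ ⟨438, 476, 522, 558⟩
        ⟨0, 0, 0, 0⟩ ⟨0, 0, 0, 0⟩))
      (.S 4 784
       (.S 1 216
        (.S 0 844
         (.L ⟨628, 4, true, false, 710, 3952⟩ ⟨690, 102, true, false, 26795, 29908⟩
          ⟨279, 294, 497, 516⟩ ⟨316, 329, 582, 595⟩ ⟨442, 472, 530, 557⟩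
          ⟨0, 0, 0, 0⟩ ⟨0, 0, 0, 0⟩)
         (.D ⟨617, 3, true, false, 923, 3775⟩ ⟨679, 103, true, false, 27039, 30190⟩
          ⟨277, 292, 496, 515⟩ ⟨315, 328, 583, 596⟩ ⟨441, 470, 530, 558⟩))
        (.S 5 588
         (.S 4 758
          (.L ⟨606, 9, true, false, 287, 5294⟩ ⟨709, 110, true, false, 28135, 30792⟩
           ⟨275, 293, 501, 521⟩ ⟨321, 331, 584, 594⟩ ⟨447, 474, 534, 560⟩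
           ⟨0, 0, 0, 0⟩ ⟨0, 0, 0, 0⟩)
          (.L ⟨606, 9, true, false, 287, 5294⟩ ⟨689, 108, true, false, 27789, 30436⟩
           ⟨275, 293, 501, 521⟩ ⟨318, 328, 585, 595⟩ ⟨445, 472, 532, 558⟩
           ⟨0, 0, 0, 0⟩ ⟨0, 0, 0, 0⟩))
         (.S 4 758
          (.S 0 844
           (.L ⟨617, 10, true, false, 525, 5294⟩ ⟨713, 113, true, false, 29303, 31749⟩
            ⟨277, 293, 501, 521⟩ ⟨323, 332, 587, 596⟩ ⟨447, 472, 536, 560⟩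
            ⟨0, 0, 0, 0⟩ ⟨0, 0, 0, 0⟩)
           (.S 0 852
            (.S 1 235
             (.D ⟨617, 6, true, false, 413, 4417⟩ ⟨708, 114, true, false, 29546, 31150⟩
              ⟨277, 291, 501, 518⟩ ⟨323, 330, 589, 595⟩ ⟨448, 468, 539, 558⟩)
             (.S 1 245
              (.D ⟨615, 8, true, false, 1009, 4755⟩ ⟨713, 117, true, false, 30203, 31509⟩
               ⟨277, 290, 503, 519⟩ ⟨324, 330, 590, 596⟩ ⟨449, 468, 540, 558⟩)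
              (.D ⟨612, 9, true, false, 1322, 5093⟩ ⟨715, 118, true, false, 30551, 31870⟩
               ⟨276, 290, 505, 521⟩ ⟨325, 331, 590, 597⟩ ⟨449, 470, 541, 560⟩)))
            (.D ⟨606, 9, true, false, 287, 4993⟩ ⟨702, 114, true, false, 29667, 32006⟩
             ⟨275, 290, 501, 520⟩ ⟨322, 331, 589, 597⟩ ⟨446, 470, 538, 561⟩)))
          (.S 0 844
           (.L ⟨617, 10, true, false, 525, 5294⟩ ⟨693, 112, true, false, 28923, 31357⟩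
            ⟨277, 293, 501, 521⟩ ⟨320, 329, 588, 597⟩ ⟨444, 470, 535, 559⟩
            ⟨0, 0, 0, 0⟩ ⟨0, 0, 0, 0⟩)
           (.S 1 235
            (.D ⟨612, 6, true, false, 287, 4417⟩ ⟨682, 113, true, false, 29166, 30880⟩
             ⟨276, 291, 501, 518⟩ ⟨319, 327, 589, 597⟩ ⟨444, 467, 536, 558⟩)
            (.S 0 852
             (.L ⟨612, 9, true, false, 1009, 5093⟩ ⟨693, 115, true, false, 29842, 31477⟩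
              ⟨276, 290, 503, 521⟩ ⟨321, 328, 591, 597⟩ ⟨447, 468, 538, 558⟩
              ⟨0, 0, 0, 0⟩ ⟨0, 0, 0, 0⟩)
             (.D ⟨606, 9, true, false, 876, 4993⟩ ⟨687, 116, true, false, 29957, 31613⟩
              ⟨275, 289, 503, 520⟩ ⟨321, 328, 591, 598⟩ ⟨446, 467, 539, 559⟩)))))))
       (.S 1 216
        (.S 0 844
         (.L ⟨628, 4, true, false, 710, 3952⟩ ⟨653, 99, true, false, 26015, 29045⟩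
          ⟨279, 294, 497, 516⟩ ⟨309, 323, 583, 596⟩ ⟨438, 468, 524, 553⟩
          ⟨0, 0, 0, 0⟩ ⟨0, 0, 0, 0⟩)
         (.D ⟨617, 3, true, false, 923, 3775⟩ ⟨642, 100, true, false, 26259, 29327⟩
          ⟨277, 292, 496, 515⟩ ⟨308, 322, 585, 598⟩ ⟨436, 466, 526, 555⟩))
        (.S 4 810
         (.S 1 235
          (.L ⟨612, 6, true, false, 287, 4605⟩ ⟨670, 107, true, false, 27430, 30467⟩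
           ⟨276, 293, 501, 518⟩ ⟨315, 324, 586, 598⟩ ⟨441, 468, 530, 556⟩
           ⟨0, 0, 0, 0⟩ ⟨0, 0, 0, 0⟩)
          (.L ⟨606, 9, true, false, 876, 5294⟩ ⟨674, 110, true, false, 28128, 31221⟩
           ⟨275, 292, 503, 521⟩ ⟨317, 326, 587, 599⟩ ⟨442, 470, 532, 558⟩
           ⟨0, 0, 0, 0⟩ ⟨0, 0, 0, 0⟩))
         (.L ⟨606, 9, true, false, 287, 5294⟩ ⟨652, 106, true, false, 27071, 30829⟩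
          ⟨275, 293, 501, 521⟩ ⟨312, 323, 586, 600⟩ ⟨438, 470, 528, 557⟩
          ⟨0, 0, 0, 0⟩ ⟨0, 0, 0, 0⟩)))))))
   (.S 5 507
    (.S 0 828
     (.L ⟨627, 11, true, false, 510, 5707⟩ ⟨633, 72, true, false, 19118, 25166⟩
      ⟨279, 298, 498, 522⟩ ⟨296, 320, 563, 588⟩ ⟨441, 484, 506, 547⟩
      ⟨0, 0, 0, 0⟩ ⟨0, 0, 0, 0⟩)
     (.L ⟨606, 9, true, false, 923, 5294⟩ ⟨611, 73, true, false, 19385, 25483⟩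
      ⟨275, 294, 496, 521⟩ ⟨292, 317, 565, 591⟩ ⟨436, 482, 506, 549⟩
      ⟨0, 0, 0, 0⟩ ⟨0, 0, 0, 0⟩))
    (.S 0 828
     (.S 4 888
      (.L ⟨627, 11, true, false, 510, 5707⟩ ⟨644, 88, true, false, 22813, 29559⟩
       ⟨279, 298, 498, 522⟩ ⟨303, 323, 575, 598⟩ ⟨434, 477, 514, 555⟩
       ⟨0, 0, 0, 0⟩ ⟨0, 0, 0, 0⟩)
      (.L ⟨627, 11, true, false, 510, 5707⟩ ⟨615, 85, true, false, 22164, 28797⟩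
       ⟨279, 298, 498, 522⟩ ⟨297, 317, 576, 600⟩ ⟨430, 475, 510, 551⟩
       ⟨0, 0, 0, 0⟩ ⟨0, 0, 0, 0⟩))
     (.S 1 216
      (.L ⟨617, 3, true, false, 923, 3952⟩ ⟨593, 87, true, false, 23228, 27622⟩
       ⟨277, 294, 496, 516⟩ ⟨294, 317, 578, 600⟩ ⟨428, 470, 511, 552⟩
       ⟨0, 0, 0, 0⟩ ⟨0, 0, 0, 0⟩)
      (.S 4 888
       (.S 1 235
        (.L ⟨612, 6, true, false, 287, 4605⟩ ⟨630, 95, true, false, 24690, 29235⟩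
         ⟨276, 293, 501, 518⟩ ⟨304, 318, 581, 600⟩ ⟨435, 469, 520, 552⟩
         ⟨0, 0, 0, 0⟩ ⟨0, 0, 0, 0⟩)
        (.L ⟨606, 9, true, false, 876, 5294⟩ ⟨634, 98, true, false, 25410, 30049⟩
         ⟨275, 292, 503, 521⟩ ⟨306, 320, 582, 602⟩ ⟨435, 471, 522, 555⟩
         ⟨0, 0, 0, 0⟩ ⟨0, 0, 0, 0⟩))
       (.L ⟨606, 9, true, false, 287, 5294⟩ ⟨600, 93, true, false, 24110, 29279⟩
        ⟨275, 293, 501, 521⟩ ⟨298, 315, 582, 603⟩ ⟨430, 469, 515, 552⟩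
        ⟨0, 0, 0, 0⟩ ⟨0, 0, 0, 0⟩))))))
  (by decide +kernel)

theorem qAS4_361 : Cl ⟨0, false, true, true⟩ ⟨2, true, false, true⟩
    ⟨795, 836, 177, 234⟩ ⟨816, 868, 109, 188⟩ ⟨558, 607, 363, 411⟩ := .mk
  (.L ⟨628, 7, true, false, 610, 4957⟩ ⟨902, 76, true, false, 19690, 23375⟩
   ⟨279, 298, 497, 519⟩ ⟨332, 345, 552, 565⟩ ⟨470, 498, 527, 554⟩
   ⟨0, 0, 0, 0⟩ ⟨513, 569, 653, 713⟩)
  (by decide +kernel)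

theorem qAS4_362 : Cl ⟨0, false, true, true⟩ ⟨0, true, true, true⟩
    ⟨795, 860, 177, 240⟩ ⟨816, 868, 109, 188⟩ ⟨741, 878, 246, 380⟩ := .mk
  (.S 0 827
   (.L ⟨632, 9, true, false, 498, 5172⟩ ⟨686, 54, true, false, 14199, 20733⟩
    ⟨280, 298, 498, 520⟩ ⟨299, 325, 544, 572⟩ ⟨455, 496, 504, 544⟩
    ⟨0, 0, 0, 0⟩ ⟨0, 0, 0, 0⟩)
   (.L ⟨611, 7, true, false, 911, 4789⟩ ⟨663, 54, true, false, 14274, 20901⟩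
    ⟨276, 294, 496, 519⟩ ⟨295, 322, 546, 574⟩ ⟨452, 494, 505, 545⟩
    ⟨0, 0, 0, 0⟩ ⟨0, 0, 0, 0⟩))
  (by decide +kernel)

theorem qAS4_363 : Cl ⟨0, false, true, true⟩ ⟨0, true, true, true⟩
    ⟨795, 858, 177, 251⟩ ⟨816, 868, 109, 188⟩ ⟨765, 881, 353, 499⟩ := .mk
  (.S 0 826
   (.L ⟨630, 10, true, false, 485, 5564⟩ ⟨676, 68, true, false, 17973, 25271⟩
    ⟨280, 298, 498, 522⟩ ⟨301, 327, 557, 585⟩ ⟨445, 490, 508, 551⟩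
    ⟨0, 0, 0, 0⟩ ⟨0, 0, 0, 0⟩)
   (.L ⟨609, 8, true, false, 886, 5181⟩ ⟨654, 68, true, false, 18167, 25576⟩
    ⟨275, 294, 496, 521⟩ ⟨298, 324, 558, 588⟩ ⟨441, 488, 509, 553⟩
    ⟨0, 0, 0, 0⟩ ⟨0, 0, 0, 0⟩))
  (by decide +kernel)

theorem qAS4_364 : Cl ⟨0, false, true, true⟩ ⟨0, true, false, false⟩
    ⟨795, 850, 177, 218⟩ ⟨816, 868, 109, 188⟩ ⟨694, 729, 150, 183⟩ := .mk
  (.L ⟨623, 4, true, false, 786, 4387⟩ ⟨785, 41, true, false, 10720, 13175⟩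
   ⟨278, 298, 496, 517⟩ ⟨310, 322, 533, 543⟩ ⟨477, 500, 509, 533⟩
   ⟨0, 0, 0, 0⟩ ⟨0, 0, 0, 0⟩)
  (by decide +kernel)

theorem qAS4_365 : Cl ⟨0, false, true, true⟩ ⟨0, true, true, true⟩
    ⟨799, 862, 177, 225⟩ ⟨816, 868, 109, 188⟩ ⟨799, 862, 140, 225⟩ := .mk
  (.L ⟨614, 5, true, false, 936, 4591⟩ ⟨674, 40, true, false, 10475, 14999⟩
   ⟨276, 298, 496, 518⟩ ⟨293, 312, 535, 555⟩ ⟨465, 497, 499, 531⟩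
   ⟨0, 0, 0, 0⟩ ⟨0, 0, 0, 0⟩)
  (by decide +kernel)

theorem qAS4_366 : Cl ⟨0, false, true, true⟩ ⟨0, true, true, true⟩
    ⟨795, 859, 177, 231⟩ ⟨816, 868, 109, 188⟩ ⟨778, 861, 202, 294⟩ := .mk
  (.L ⟨614, 6, true, false, 898, 4851⟩ ⟨677, 49, true, false, 12584, 17605⟩
   ⟨276, 298, 496, 519⟩ ⟨296, 318, 541, 563⟩ ⟨460, 495, 502, 538⟩
   ⟨0, 0, 0, 0⟩ ⟨0, 0, 0, 0⟩)
  (by decide +kernel)

theorem qAS4_367 : Cl ⟨0, false, true, true⟩ ⟨0, true, false, false⟩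
    ⟨805, 865, 177, 217⟩ ⟨816, 868, 109, 188⟩ ⟨794, 814, 73, 92⟩ := .mk
  (.L ⟨614, 3, true, false, 973, 4241⟩ ⟨702, 31, true, false, 8196, 9991⟩
   ⟨276, 297, 496, 517⟩ ⟨296, 307, 527, 536⟩ ⟨478, 500, 501, 523⟩
   ⟨0, 0, 0, 0⟩ ⟨0, 0, 0, 0⟩)
  (by decide +kernel)

theorem qAS4_368 : Cl ⟨0, false, true, true⟩ ⟨0, true, false, false⟩
    ⟨805, 865, 177, 217⟩ ⟨816, 868, 109, 188⟩ ⟨843, 885, 77, 140⟩ := .mk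
  (.L ⟨614, 3, true, false, 973, 4241⟩ ⟨654, 32, true, false, 8495, 11876⟩
   ⟨276, 297, 496, 517⟩ ⟨288, 304, 529, 545⟩ ⟨471, 498, 496, 523⟩
   ⟨0, 0, 0, 0⟩ ⟨0, 0, 0, 0⟩)
  (by decide +kernel)

theorem qAS4_369 : Cl ⟨0, false, true, true⟩ ⟨0, true, false, false⟩
    ⟨799, 862, 177, 225⟩ ⟨816, 868, 109, 188⟩ ⟨816, 877, 117, 176⟩ := .mk
  (.L ⟨614, 5, true, false, 936, 4591⟩ ⟨663, 38, true, false, 9737, 13344⟩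
   ⟨276, 298, 496, 518⟩ ⟨291, 309, 533, 550⟩ ⟨468, 497, 498, 528⟩
   ⟨0, 0, 0, 0⟩ ⟨0, 0, 0, 0⟩)
  (by decide +kernel)

theorem qAS4_370 : Cl ⟨0, false, true, true⟩ ⟨0, true, false, false⟩
    ⟨811, 865, 177, 212⟩ ⟨816, 868, 109, 188⟩ ⟨846, 873, 29, 56⟩ := .mk
  (.L ⟨615, 3, true, false, 973, 4000⟩ ⟨658, 26, true, false, 6946, 8876⟩
   ⟨277, 296, 496, 516⟩ ⟨287, 299, 524, 534⟩ ⟨478, 499, 496, 517⟩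
   ⟨0, 0, 0, 0⟩ ⟨0, 0, 0, 0⟩)
  (by decide +kernel)

theorem qAS4_371 : Cl ⟨0, false, true, true⟩ ⟨0, true, false, false⟩
    ⟨811, 865, 177, 212⟩ ⟨816, 868, 109, 188⟩ ⟨867, 914, 38, 90⟩ := .mk
  (.L ⟨615, 3, true, false, 973, 4000⟩ ⟨633, 28, true, false, 7331, 10173⟩
   ⟨277, 296, 496, 516⟩ ⟨283, 299, 526, 540⟩ ⟨474, 498, 494, 519⟩
   ⟨0, 0, 0, 0⟩ ⟨0, 0, 0, 0⟩)
  (by decide +kernel)

theorem qAS4_372 : Cl ⟨0, false, true, true⟩ ⟨0, true, false, false⟩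
    ⟨805, 865, 177, 217⟩ ⟨816, 868, 109, 188⟩ ⟨849, 904, 57, 112⟩ := .mk
  (.L ⟨614, 3, true, false, 973, 4241⟩ ⟨640, 30, true, false, 7879, 11017⟩
   ⟨276, 297, 496, 517⟩ ⟨285, 302, 528, 543⟩ ⟨472, 498, 494, 522⟩
   ⟨0, 0, 0, 0⟩ ⟨0, 0, 0, 0⟩)
  (by decide +kernel)

theorem qAS4_373 : Cl ⟨0, false, true, true⟩ ⟨0, true, false, false⟩
    ⟨811, 865, 177, 212⟩ ⟨816, 868, 109, 188⟩ ⟨886, 909, 14, 39⟩ := .mk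
  (.L ⟨615, 3, true, false, 973, 4000⟩ ⟨633, 25, true, false, 6685, 8524⟩
   ⟨277, 296, 496, 516⟩ ⟨282, 294, 524, 534⟩ ⟨477, 498, 493, 514⟩
   ⟨0, 0, 0, 0⟩ ⟨0, 0, 0, 0⟩)
  (by decide +kernel)

theorem qAS4_374 : Cl ⟨0, false, true, true⟩ ⟨0, true, false, false⟩
    ⟨811, 865, 177, 212⟩ ⟨816, 868, 109, 188⟩ ⟨897, 934, 22, 62⟩ := .mk
  (.L ⟨615, 3, true, false, 973, 4000⟩ ⟨619, 26, true, false, 6986, 9382⟩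
   ⟨277, 296, 496, 516⟩ ⟨280, 294, 526, 538⟩ ⟨475, 497, 492, 515⟩
   ⟨0, 0, 0, 0⟩ ⟨0, 0, 0, 0⟩)
  (by decide +kernel)

theorem qAS4_375 : Cl ⟨0, false, true, true⟩ ⟨0, true, false, false⟩
    ⟨811, 865, 177, 212⟩ ⟨816, 868, 109, 188⟩ ⟨882, 927, 32, 77⟩ := .mk
  (.L ⟨615, 3, true, false, 973, 4000⟩ ⟨624, 28, true, false, 7216, 9818⟩
   ⟨277, 296, 496, 516⟩ ⟨281, 296, 526, 539⟩ ⟨474, 497, 492, 517⟩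
   ⟨0, 0, 0, 0⟩ ⟨0, 0, 0, 0⟩)
  (by decide +kernel)

theorem qAS4_376 : Cl ⟨0, false, true, true⟩ ⟨0, true, false, false⟩
    ⟨816, 865, 177, 210⟩ ⟨816, 868, 109, 188⟩ ⟨900, 1001, 0, 29⟩ := .mk
  (.L ⟨616, 2, true, false, 973, 3876⟩ ⟨581, 25, true, false, 6021, 8692⟩
   ⟨277, 296, 496, 515⟩ ⟨271, 292, 523, 537⟩ ⟨474, 498, 487, 514⟩
   ⟨0, 0, 0, 0⟩ ⟨0, 0, 0, 0⟩)
  (by decide +kernel)

/-- The pairs of the file. -/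
def rAS4 : List Pq := [
  ⟨4, 20, ⟨816, 864, 155, 210⟩, ⟨763, 870, 296, 424⟩, ⟨900, 1001, 0, 29⟩⟩,
  ⟨4, 18, ⟨816, 864, 155, 210⟩, ⟨763, 870, 296, 424⟩, ⟨908, 1001, 0, 50⟩⟩,
  ⟨4, 19, ⟨816, 864, 155, 210⟩, ⟨763, 870, 296, 424⟩, ⟨895, 1001, 0, 61⟩⟩,
  ⟨8, 0, ⟨789, 854, 180, 251⟩, ⟨730, 758, 118, 143⟩, ⟨733, 940, 400, 615⟩⟩,
  ⟨8, 5, ⟨789, 836, 180, 234⟩, ⟨730, 758, 118, 143⟩, ⟨558, 607, 363, 411⟩⟩,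
  ⟨8, 3, ⟨789, 854, 180, 240⟩, ⟨730, 758, 118, 143⟩, ⟨741, 878, 246, 380⟩⟩,
  ⟨8, 4, ⟨789, 854, 180, 251⟩, ⟨730, 758, 118, 143⟩, ⟨765, 881, 353, 499⟩⟩,
  ⟨8, 8, ⟨795, 850, 180, 218⟩, ⟨730, 758, 118, 143⟩, ⟨694, 729, 150, 183⟩⟩,
  ⟨8, 6, ⟨799, 854, 180, 225⟩, ⟨730, 758, 118, 143⟩, ⟨799, 862, 140, 225⟩⟩,
  ⟨8, 7, ⟨792, 854, 180, 231⟩, ⟨730, 758, 118, 143⟩, ⟨778, 861, 202, 294⟩⟩,
  ⟨8, 11, ⟨805, 854, 180, 217⟩, ⟨730, 758, 118, 143⟩, ⟨794, 814, 73, 92⟩⟩,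
  ⟨8, 9, ⟨805, 854, 180, 217⟩, ⟨730, 758, 118, 143⟩, ⟨843, 885, 77, 140⟩⟩,
  ⟨8, 10, ⟨799, 854, 180, 225⟩, ⟨730, 758, 118, 143⟩, ⟨816, 877, 117, 176⟩⟩,
  ⟨8, 14, ⟨811, 854, 180, 212⟩, ⟨730, 758, 118, 143⟩, ⟨846, 873, 29, 56⟩⟩,
  ⟨8, 12, ⟨811, 854, 180, 212⟩, ⟨730, 758, 118, 143⟩, ⟨867, 914, 38, 90⟩⟩,
  ⟨8, 13, ⟨805, 854, 180, 217⟩, ⟨730, 758, 118, 143⟩, ⟨849, 904, 57, 112⟩⟩,
  ⟨8, 17, ⟨811, 854, 180, 212⟩, ⟨730, 758, 118, 143⟩, ⟨886, 909, 14, 39⟩⟩,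
  ⟨8, 15, ⟨811, 854, 180, 212⟩, ⟨730, 758, 118, 143⟩, ⟨897, 934, 22, 62⟩⟩,
  ⟨8, 16, ⟨811, 854, 180, 212⟩, ⟨730, 758, 118, 143⟩, ⟨882, 927, 32, 77⟩⟩,
  ⟨8, 20, ⟨816, 854, 180, 210⟩, ⟨730, 758, 118, 143⟩, ⟨900, 1001, 0, 29⟩⟩,
  ⟨8, 18, ⟨816, 854, 180, 210⟩, ⟨730, 758, 118, 143⟩, ⟨908, 1001, 0, 50⟩⟩,
  ⟨8, 19, ⟨816, 854, 180, 210⟩, ⟨730, 758, 118, 143⟩, ⟨895, 1001, 0, 61⟩⟩,
  ⟨6, 0, ⟨795, 861, 177, 255⟩, ⟨816, 868, 109, 188⟩, ⟨733, 940, 400, 615⟩⟩,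
  ⟨6, 5, ⟨795, 836, 177, 234⟩, ⟨816, 868, 109, 188⟩, ⟨558, 607, 363, 411⟩⟩,
  ⟨6, 3, ⟨795, 860, 177, 240⟩, ⟨816, 868, 109, 188⟩, ⟨741, 878, 246, 380⟩⟩,
  ⟨6, 4, ⟨795, 858, 177, 251⟩, ⟨816, 868, 109, 188⟩, ⟨765, 881, 353, 499⟩⟩,
  ⟨6, 8, ⟨795, 850, 177, 218⟩, ⟨816, 868, 109, 188⟩, ⟨694, 729, 150, 183⟩⟩,
  ⟨6, 6, ⟨799, 862, 177, 225⟩, ⟨816, 868, 109, 188⟩, ⟨799, 862, 140, 225⟩⟩,
  ⟨6, 7, ⟨795, 859, 177, 231⟩, ⟨816, 868, 109, 188⟩, ⟨778, 861, 202, 294⟩⟩,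
  ⟨6, 11, ⟨805, 865, 177, 217⟩, ⟨816, 868, 109, 188⟩, ⟨794, 814, 73, 92⟩⟩,
  ⟨6, 9, ⟨805, 865, 177, 217⟩, ⟨816, 868, 109, 188⟩, ⟨843, 885, 77, 140⟩⟩,
  ⟨6, 10, ⟨799, 862, 177, 225⟩, ⟨816, 868, 109, 188⟩, ⟨816, 877, 117, 176⟩⟩,
  ⟨6, 14, ⟨811, 865, 177, 212⟩, ⟨816, 868, 109, 188⟩, ⟨846, 873, 29, 56⟩⟩,
  ⟨6, 12, ⟨811, 865, 177, 212⟩, ⟨816, 868, 109, 188⟩, ⟨867, 914, 38, 90⟩⟩,
  ⟨6, 13, ⟨805, 865, 177, 217⟩, ⟨816, 868, 109, 188⟩, ⟨849, 904, 57, 112⟩⟩,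
  ⟨6, 17, ⟨811, 865, 177, 212⟩, ⟨816, 868, 109, 188⟩, ⟨886, 909, 14, 39⟩⟩,
  ⟨6, 15, ⟨811, 865, 177, 212⟩, ⟨816, 868, 109, 188⟩, ⟨897, 934, 22, 62⟩⟩,
  ⟨6, 16, ⟨811, 865, 177, 212⟩, ⟨816, 868, 109, 188⟩, ⟨882, 927, 32, 77⟩⟩,
  ⟨6, 20, ⟨816, 865, 177, 210⟩, ⟨816, 868, 109, 188⟩, ⟨900, 1001, 0, 29⟩⟩]

theorem rAS4_ok : ∀ p ∈ rAS4, Cr false true p :=
  List.forall_mem_cons.2 ⟨qAS4_338,
  List.forall_mem_cons.2 ⟨qAS4_339,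
  List.forall_mem_cons.2 ⟨qAS4_340,
  List.forall_mem_cons.2 ⟨qAS4_341,
  List.forall_mem_cons.2 ⟨qAS4_342,
  List.forall_mem_cons.2 ⟨qAS4_343,
  List.forall_mem_cons.2 ⟨qAS4_344,
  List.forall_mem_cons.2 ⟨qAS4_345,
  List.forall_mem_cons.2 ⟨qAS4_346,
  List.forall_mem_cons.2 ⟨qAS4_347,
  List.forall_mem_cons.2 ⟨qAS4_348,
  List.forall_mem_cons.2 ⟨qAS4_349,
  List.forall_mem_cons.2 ⟨qAS4_350,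
  List.forall_mem_cons.2 ⟨qAS4_351,
  List.forall_mem_cons.2 ⟨qAS4_352,
  List.forall_mem_cons.2 ⟨qAS4_353,
  List.forall_mem_cons.2 ⟨qAS4_354,
  List.forall_mem_cons.2 ⟨qAS4_355,
  List.forall_mem_cons.2 ⟨qAS4_356,
  List.forall_mem_cons.2 ⟨qAS4_357,
  List.forall_mem_cons.2 ⟨qAS4_358,
  List.forall_mem_cons.2 ⟨qAS4_359,
  List.forall_mem_cons.2 ⟨qAS4_360,
  List.forall_mem_cons.2 ⟨qAS4_361,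
  List.forall_mem_cons.2 ⟨qAS4_362,
  List.forall_mem_cons.2 ⟨qAS4_363,
  List.forall_mem_cons.2 ⟨qAS4_364,
  List.forall_mem_cons.2 ⟨qAS4_365,
  List.forall_mem_cons.2 ⟨qAS4_366,
  List.forall_mem_cons.2 ⟨qAS4_367,
  List.forall_mem_cons.2 ⟨qAS4_368,
  List.forall_mem_cons.2 ⟨qAS4_369,
  List.forall_mem_cons.2 ⟨qAS4_370,
  List.forall_mem_cons.2 ⟨qAS4_371,
  List.forall_mem_cons.2 ⟨qAS4_372,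
  List.forall_mem_cons.2 ⟨qAS4_373,
  List.forall_mem_cons.2 ⟨qAS4_374,
  List.forall_mem_cons.2 ⟨qAS4_375,
  List.forall_mem_cons.2 ⟨qAS4_376,
  List.forall_mem_nil _⟩⟩⟩⟩⟩⟩⟩⟩⟩⟩⟩⟩⟩⟩⟩⟩⟩⟩⟩⟩⟩⟩⟩⟩⟩⟩⟩⟩⟩⟩⟩⟩⟩⟩⟩⟩⟩⟩⟩

end Pool.Agent.S5.Z4
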