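import Pool.Agent.S5.Z4.Tre

/-!
# Inner nodes with four half twists: certificates
-/

set_option autoImplicit false

namespace Pool.Agent.S5.Z4

theorem qAS5_377 : Cl ⟨0, false, true, true⟩ ⟨0, true, false, false⟩
    ⟨816, 865, 177, 210⟩ ⟨816, 868, 109, 188⟩ ⟨908, 1001, 0, 50⟩ := .mk
  (.L ⟨616, 2, true, false, 973, 3876⟩ ⟨581, 25, true, false, 6069, 9295⟩
   ⟨277, 296, 496, 515⟩ ⟨271, 292, 524, 539⟩ ⟨473, 497, 487, 514⟩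
   ⟨0, 0, 0, 0⟩ ⟨0, 0, 0, 0⟩)
  (by decide +kernel)

theorem qAS5_378 : Cl ⟨0, false, true, true⟩ ⟨0, true, false, false⟩
    ⟨816, 865, 177, 210⟩ ⟨816, 868, 109, 188⟩ ⟨895, 1001, 0, 61⟩ := .mk
  (.L ⟨616, 2, true, false, 973, 3876⟩ ⟨581, 25, true, false, 5992, 9612⟩
   ⟨277, 296, 496, 515⟩ ⟨271, 294, 523, 541⟩ ⟨472, 498, 486, 516⟩
   ⟨0, 0, 0, 0⟩ ⟨0, 0, 0, 0⟩)
  (by decide +kernel)

theorem qAS5_379 : Cl ⟨0, false, true, true⟩ ⟨0, true, true, false⟩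
    ⟨795, 861, 172, 245⟩ ⟨795, 864, 172, 245⟩ ⟨733, 940, 400, 615⟩ := .mk
  (.S 4 836
   (.S 5 507
    (.S 0 828
     (.L ⟨615, 2, true, false, 2872, 3394⟩ ⟨697, 75, true, false, 19784, 25791⟩
      ⟨276, 298, 489, 514⟩ ⟨307, 330, 561, 584⟩ ⟨443, 485, 515, 555⟩
      ⟨0, 0, 0, 0⟩ ⟨0, 0, 0, 0⟩)
     (.L ⟨594, 0, true, false, 3351, 2916⟩ ⟨675, 76, true, false, 20056, 26126⟩
      ⟨272, 294, 487, 512⟩ ⟨304, 328, 563, 587⟩ ⟨439, 482, 516, 558⟩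
      ⟨0, 0, 0, 0⟩ ⟨0, 0, 0, 0⟩))
    (.S 0 828
     (.S 4 784
      (.S 1 208
       (.L ⟨626, 0, true, false, 2872, 2081⟩ ⟨713, 92, true, false, 23943, 29343⟩
        ⟨279, 298, 489, 508⟩ ⟨315, 330, 573, 593⟩ ⟨439, 474, 525, 558⟩
        ⟨0, 0, 0, 0⟩ ⟨0, 0, 0, 0⟩)
       (.S 4 758
        (.L ⟨615, 2, true, false, 1738, 3394⟩ ⟨742, 98, true, false, 25196, 31137⟩
         ⟨276, 297, 493, 514⟩ ⟨321, 333, 575, 594⟩ ⟨442, 477, 529, 562⟩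
         ⟨0, 0, 0, 0⟩ ⟨0, 0, 0, 0⟩)
        (.L ⟨615, 2, true, false, 1738, 3394⟩ ⟨721, 97, true, false, 24907, 30735⟩
         ⟨276, 297, 493, 514⟩ ⟨318, 330, 576, 595⟩ ⟨440, 476, 528, 560⟩
         ⟨0, 0, 0, 0⟩ ⟨0, 0, 0, 0⟩)))
      (.L ⟨615, 2, true, false, 2872, 3394⟩ ⟨676, 90, true, false, 23286, 29933⟩
       ⟨276, 298, 489, 514⟩ ⟨309, 327, 574, 596⟩ ⟨433, 476, 520, 559⟩
       ⟨0, 0, 0, 0⟩ ⟨0, 0, 0, 0⟩))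
     (.S 5 561
      (.S 4 784
       (.S 1 208
        (.L ⟨606, 0, true, false, 3351, 1650⟩ ⟨691, 94, true, false, 24367, 27604⟩
         ⟨274, 294, 487, 507⟩ ⟨313, 327, 575, 589⟩ ⟨441, 472, 526, 557⟩
         ⟨0, 0, 0, 0⟩ ⟨0, 0, 0, 0⟩)
        (.L ⟨594, 0, true, false, 2264, 2916⟩ ⟨700, 99, true, false, 25576, 28918⟩
         ⟨272, 293, 491, 512⟩ ⟨316, 329, 577, 591⟩ ⟨443, 474, 529, 559⟩
         ⟨0, 0, 0, 0⟩ ⟨0, 0, 0, 0⟩))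
       (.L ⟨594, 0, true, false, 3351, 2916⟩ ⟨654, 91, true, false, 23711, 28257⟩
        ⟨272, 294, 487, 512⟩ ⟨306, 324, 576, 593⟩ ⟨435, 472, 521, 557⟩
        ⟨0, 0, 0, 0⟩ ⟨0, 0, 0, 0⟩))
      (.S 4 784
       (.S 0 844
        (.S 5 588
         (.S 1 208
          (.L ⟨616, 0, true, false, 3104, 1650⟩ ⟨688, 101, true, false, 26625, 28481⟩
           ⟨277, 294, 488, 507⟩ ⟨315, 327, 582, 591⟩ ⟨441, 466, 530, 556⟩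
           ⟨0, 0, 0, 0⟩ ⟨0, 0, 0, 0⟩)
          (.L ⟨605, 1, true, false, 1993, 2916⟩ ⟨698, 106, true, false, 27858, 29834⟩
           ⟨274, 293, 492, 512⟩ ⟨319, 330, 584, 593⟩ ⟨443, 469, 534, 560⟩
           ⟨0, 0, 0, 0⟩ ⟨0, 0, 0, 0⟩))
         (.S 1 208
          (.S 0 836
           (.L ⟨621, 0, true, false, 2988, 1650⟩ ⟨685, 105, true, false, 27778, 29478⟩
            ⟨278, 294, 488, 507⟩ ⟨316, 328, 585, 593⟩ ⟨440, 465, 532, 557⟩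
            ⟨0, 0, 0, 0⟩ ⟨0, 0, 0, 0⟩)
           (.D ⟨616, 0, true, false, 3104, 1546⟩ ⟨680, 106, true, false, 27913, 29614⟩
            ⟨277, 293, 488, 507⟩ ⟨316, 328, 586, 594⟩ ⟨439, 464, 533, 558⟩))
          (.S 4 758
           (.S 1 226
            (.L ⟨611, 0, true, false, 1993, 2266⟩ ⟨710, 112, true, false, 29023, 30699⟩
             ⟨275, 293, 492, 509⟩ ⟨322, 330, 587, 594⟩ ⟨444, 465, 538, 560⟩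
             ⟨0, 0, 0, 0⟩ ⟨0, 0, 0, 0⟩)
            (.S 3 208
             (.L ⟨616, 5, true, false, 153, 2916⟩ ⟨715, 115, true, false, 29654, 31385⟩
              ⟨277, 292, 499, 512⟩ ⟨324, 331, 588, 595⟩ ⟨447, 466, 540, 559⟩
              ⟨0, 0, 0, 0⟩ ⟨0, 0, 0, 0⟩)
             (.S 1 235
              (.S 4 745
               (.L ⟨608, 0, true, false, 1439, 1444⟩ ⟨726, 116, true, false, 29654, 31229⟩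
                ⟨275, 290, 494, 506⟩ ⟨326, 330, 588, 594⟩ ⟨447, 463, 543, 559⟩
                ⟨0, 0, 0, 0⟩ ⟨0, 0, 0, 0⟩)
               (.L ⟨608, 0, true, false, 1439, 1444⟩ ⟨715, 115, true, false, 29477, 31023⟩
                ⟨275, 290, 494, 506⟩ ⟨324, 329, 588, 595⟩ ⟨445, 463, 542, 559⟩
                ⟨0, 0, 0, 0⟩ ⟨0, 0, 0, 0⟩))
              (.D ⟨605, 1, true, false, 1162, 1786⟩ ⟨718, 116, true, false, 29972, 31385⟩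
               ⟨274, 289, 495, 508⟩ ⟨325, 331, 588, 595⟩ ⟨446, 465, 543, 561⟩))))
           (.S 1 226
            (.L ⟨611, 0, true, false, 1993, 2266⟩ ⟨691, 111, true, false, 28636, 30276⟩
             ⟨275, 293, 492, 509⟩ ⟨319, 327, 588, 595⟩ ⟨441, 463, 536, 558⟩
             ⟨0, 0, 0, 0⟩ ⟨0, 0, 0, 0⟩)
            (.L ⟨605, 1, true, false, 1439, 2916⟩ ⟨696, 113, true, false, 29284, 30982⟩
             ⟨274, 292, 494, 512⟩ ⟨321, 328, 589, 596⟩ ⟨443, 465, 538, 560⟩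
             ⟨0, 0, 0, 0⟩ ⟨0, 0, 0, 0⟩)))))
        (.S 1 208
         (.D ⟨606, 0, true, false, 3351, 1441⟩ ⟨677, 102, true, false, 26873, 29902⟩
          ⟨274, 292, 487, 506⟩ ⟨314, 327, 583, 596⟩ ⟨436, 466, 531, 560⟩)
         (.S 5 588
          (.S 1 226
           (.D ⟨600, 0, true, false, 2264, 2045⟩ ⟨687, 107, true, false, 28083, 29388⟩
            ⟨273, 291, 491, 509⟩ ⟨317, 328, 585, 593⟩ ⟨442, 466, 534, 559⟩)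
           (.S 0 852
            (.S 1 235
             (.D ⟨603, 0, true, false, 1572, 2347⟩ ⟨697, 109, true, false, 28697, 29581⟩
              ⟨274, 290, 493, 510⟩ ⟨320, 329, 586, 593⟩ ⟨444, 466, 537, 559⟩)
             (.D ⟨600, 0, true, false, 1298, 2683⟩ ⟨699, 111, true, false, 29005, 29946⟩
              ⟨273, 290, 494, 511⟩ ⟨320, 330, 587, 594⟩ ⟨444, 467, 537, 561⟩))
            (.D ⟨594, 0, true, false, 1722, 2567⟩ ⟨691, 110, true, false, 28804, 30073⟩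
             ⟨272, 289, 493, 511⟩ ⟨319, 329, 587, 595⟩ ⟨443, 466, 537, 561⟩)))
          (.S 1 226
           (.D ⟨600, 0, true, false, 2264, 2045⟩ ⟨680, 112, true, false, 29271, 30552⟩
            ⟨273, 291, 491, 509⟩ ⟨318, 329, 588, 597⟩ ⟨439, 465, 536, 562⟩)
           (.S 0 852
            (.S 1 235
             (.D ⟨603, 0, true, false, 1572, 2347⟩ ⟨690, 114, true, false, 29891, 30737⟩
              ⟨274, 290, 493, 510⟩ ⟨320, 330, 589, 596⟩ ⟨442, 465, 538, 561⟩)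
             (.D ⟨600, 0, true, false, 1298, 2683⟩ ⟨693, 115, true, false, 30203, 31106⟩
              ⟨273, 290, 494, 511⟩ ⟨321, 330, 590, 597⟩ ⟨442, 465, 539, 562⟩))
            (.D ⟨594, 0, true, false, 1722, 2567⟩ ⟨685, 114, true, false, 30009, 31246⟩
             ⟨272, 289, 493, 511⟩ ⟨320, 330, 590, 598⟩ ⟨440, 465, 539, 563⟩))))))
       (.S 1 208
        (.S 0 844
         (.L ⟨616, 0, true, false, 3104, 1650⟩ ⟨652, 98, true, false, 25835, 28735⟩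
          ⟨277, 294, 488, 507⟩ ⟨309, 322, 583, 595⟩ ⟨435, 464, 526, 554⟩
          ⟨0, 0, 0, 0⟩ ⟨0, 0, 0, 0⟩)
         (.D ⟨606, 0, true, false, 3351, 1441⟩ ⟨641, 99, true, false, 26083, 29022⟩
          ⟨274, 292, 487, 506⟩ ⟨308, 321, 584, 597⟩ ⟨433, 462, 527, 556⟩))
        (.S 5 588
         (.L ⟨594, 0, true, false, 2264, 2916⟩ ⟨650, 104, true, false, 27138, 29342⟩
          ⟨272, 293, 491, 512⟩ ⟨311, 325, 585, 596⟩ ⟨436, 467, 528, 559⟩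
          ⟨0, 0, 0, 0⟩ ⟨0, 0, 0, 0⟩)
         (.S 0 844
          (.S 4 810
           (.L ⟨605, 1, true, false, 1993, 2916⟩ ⟨672, 109, true, false, 28233, 30580⟩
            ⟨274, 293, 492, 512⟩ ⟨316, 325, 588, 597⟩ ⟨438, 464, 533, 558⟩
            ⟨0, 0, 0, 0⟩ ⟨0, 0, 0, 0⟩)
           (.L ⟨605, 1, true, false, 1993, 2916⟩ ⟨654, 108, true, false, 27831, 30179⟩
            ⟨274, 293, 492, 512⟩ ⟨313, 322, 589, 598⟩ ⟨436, 462, 531, 556⟩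
            ⟨0, 0, 0, 0⟩ ⟨0, 0, 0, 0⟩))
          (.S 1 226
           (.D ⟨600, 0, true, false, 2264, 2045⟩ ⟨643, 109, true, false, 28481, 29709⟩
            ⟨273, 291, 491, 509⟩ ⟨312, 323, 590, 598⟩ ⟨436, 460, 532, 558⟩)
           (.S 0 852
            (.S 4 810
             (.S 1 235
              (.D ⟨603, 0, true, false, 1572, 2347⟩ ⟨672, 112, true, false, 29136, 30324⟩
               ⟨274, 290, 493, 510⟩ ⟨317, 324, 591, 597⟩ ⟨440, 460, 537, 557⟩)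
              (.D ⟨600, 0, true, false, 1298, 2683⟩ ⟨674, 114, true, false, 29466, 30704⟩
               ⟨273, 290, 494, 511⟩ ⟨318, 324, 591, 598⟩ ⟨440, 461, 538, 558⟩))
             (.L ⟨600, 0, true, false, 1572, 2683⟩ ⟨654, 111, true, false, 28752, 30302⟩
              ⟨273, 290, 493, 511⟩ ⟨314, 321, 592, 599⟩ ⟨437, 459, 535, 556⟩
              ⟨0, 0, 0, 0⟩ ⟨0, 0, 0, 0⟩))
            (.D ⟨594, 0, true, false, 1722, 2567⟩ ⟨648, 111, true, false, 29255, 30441⟩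
             ⟨272, 289, 493, 511⟩ ⟨314, 324, 592, 599⟩ ⟨437, 460, 535, 559⟩))))))))))
   (.S 5 507
    (.S 0 828
     (.L ⟨615, 2, true, false, 2872, 3394⟩ ⟨633, 71, true, false, 18933, 24746⟩
      ⟨276, 298, 489, 514⟩ ⟨295, 319, 563, 587⟩ ⟨437, 480, 507, 549⟩
      ⟨0, 0, 0, 0⟩ ⟨0, 0, 0, 0⟩)
     (.L ⟨594, 0, true, false, 3351, 2916⟩ ⟨610, 72, true, false, 19205, 25075⟩
      ⟨272, 294, 487, 512⟩ ⟨291, 316, 565, 590⟩ ⟨433, 477, 507, 550⟩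
      ⟨0, 0, 0, 0⟩ ⟨0, 0, 0, 0⟩))
    (.S 1 208
     (.S 4 888
      (.L ⟨606, 0, true, false, 3351, 2081⟩ ⟨621, 89, true, false, 22621, 28148⟩
       ⟨274, 298, 487, 508⟩ ⟨300, 318, 574, 598⟩ ⟨427, 470, 514, 554⟩
       ⟨0, 0, 0, 0⟩ ⟨0, 0, 0, 0⟩)
      (.L ⟨606, 0, true, false, 3351, 2081⟩ ⟨592, 86, true, false, 21962, 27285⟩
       ⟨274, 298, 487, 508⟩ ⟨294, 312, 575, 600⟩ ⟨423, 467, 510, 550⟩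
       ⟨0, 0, 0, 0⟩ ⟨0, 0, 0, 0⟩))
     (.S 4 888
      (.S 5 561
       (.L ⟨594, 0, true, false, 2264, 3394⟩ ⟨629, 94, true, false, 24010, 27599⟩
        ⟨272, 297, 491, 514⟩ ⟨303, 320, 577, 595⟩ ⟨433, 471, 517, 555⟩
        ⟨0, 0, 0, 0⟩ ⟨0, 0, 0, 0⟩)
       (.S 4 862
        (.S 0 828
         (.L ⟨615, 2, true, false, 1738, 3394⟩ ⟨655, 101, true, false, 25944, 29534⟩
          ⟨276, 297, 493, 514⟩ ⟨310, 322, 583, 597⟩ ⟨435, 467, 524, 555⟩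
          ⟨0, 0, 0, 0⟩ ⟨0, 0, 0, 0⟩)
         (.L ⟨594, 0, true, false, 2264, 2916⟩ ⟨633, 103, true, false, 26406, 30040⟩
          ⟨272, 293, 491, 512⟩ ⟨308, 319, 586, 600⟩ ⟨431, 463, 526, 556⟩
          ⟨0, 0, 0, 0⟩ ⟨0, 0, 0, 0⟩))
        (.L ⟨594, 0, true, false, 2264, 3394⟩ ⟨617, 102, true, false, 25583, 29641⟩
         ⟨272, 297, 491, 514⟩ ⟨305, 319, 584, 601⟩ ⟨428, 466, 520, 557⟩
         ⟨0, 0, 0, 0⟩ ⟨0, 0, 0, 0⟩)))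
      (.S 0 828
       (.L ⟨615, 2, true, false, 1738, 3394⟩ ⟨621, 90, true, false, 23419, 28358⟩
        ⟨276, 297, 493, 514⟩ ⟨301, 316, 578, 599⟩ ⟨430, 469, 515, 551⟩
        ⟨0, 0, 0, 0⟩ ⟨0, 0, 0, 0⟩)
       (.L ⟨594, 0, true, false, 2264, 2916⟩ ⟨599, 92, true, false, 23793, 28852⟩
        ⟨272, 293, 491, 512⟩ ⟨297, 314, 581, 603⟩ ⟨424, 465, 516, 554⟩
        ⟨0, 0, 0, 0⟩ ⟨0, 0, 0, 0⟩))))))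
  (by decide +kernel)

theorem qAS5_380 : Cl ⟨0, false, true, true⟩ ⟨2, true, false, true⟩
    ⟨795, 836, 172, 234⟩ ⟨795, 864, 172, 245⟩ ⟨558, 607, 363, 411⟩ := .mk
  (.L ⟨613, 0, true, false, 2988, 3003⟩ ⟨901, 76, true, false, 19555, 23375⟩
   ⟨276, 298, 488, 512⟩ ⟨332, 345, 552, 565⟩ ⟨466, 494, 528, 556⟩
   ⟨0, 0, 0, 0⟩ ⟨513, 569, 653, 715⟩)
  (by decide +kernel)

theorem qAS5_381 : Cl ⟨0, false, true, true⟩ ⟨0, true, true, true⟩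
    ⟨795, 860, 172, 240⟩ ⟨795, 864, 172, 245⟩ ⟨741, 878, 246, 380⟩ := .mk
  (.S 0 827
   (.L ⟨617, 1, true, false, 2858, 3217⟩ ⟨686, 53, true, false, 14037, 20733⟩
    ⟨277, 298, 489, 513⟩ ⟨298, 325, 544, 572⟩ ⟨450, 492, 505, 546⟩
    ⟨0, 0, 0, 0⟩ ⟨0, 0, 0, 0⟩)
   (.L ⟨596, 0, true, false, 3336, 2759⟩ ⟨663, 54, true, false, 14117, 20901⟩
    ⟨272, 294, 487, 511⟩ ⟨295, 322, 545, 574⟩ ⟨448, 490, 506, 547⟩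
    ⟨0, 0, 0, 0⟩ ⟨0, 0, 0, 0⟩))
  (by decide +kernel)

theorem qAS5_382 : Cl ⟨0, false, true, true⟩ ⟨0, true, true, true⟩
    ⟨795, 858, 172, 245⟩ ⟨795, 864, 172, 245⟩ ⟨765, 881, 353, 499⟩ := .mk
  (.S 0 826
   (.L ⟨616, 2, true, false, 2843, 3394⟩ ⟨676, 67, true, false, 17802, 25032⟩
    ⟨277, 298, 489, 514⟩ ⟨301, 326, 556, 585⟩ ⟨440, 486, 509, 553⟩
    ⟨0, 0, 0, 0⟩ ⟨0, 0, 0, 0⟩)
   (.L ⟨596, 0, true, false, 3307, 2945⟩ ⟨654, 68, true, false, 18001, 25344⟩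
    ⟨272, 295, 487, 512⟩ ⟨298, 324, 558, 587⟩ ⟨437, 484, 510, 555⟩
    ⟨0, 0, 0, 0⟩ ⟨0, 0, 0, 0⟩))
  (by decide +kernel)

theorem qAS5_383 : Cl ⟨0, false, true, true⟩ ⟨0, true, false, false⟩
    ⟨795, 850, 172, 218⟩ ⟨795, 864, 172, 245⟩ ⟨694, 729, 150, 183⟩ := .mk
  (.L ⟨609, 0, true, false, 3191, 2436⟩ ⟨785, 41, true, false, 10568, 13175⟩
   ⟨275, 298, 487, 510⟩ ⟨310, 322, 532, 543⟩ ⟨473, 497, 510, 535⟩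
   ⟨0, 0, 0, 0⟩ ⟨0, 0, 0, 0⟩)
  (by decide +kernel)

theorem qAS5_384 : Cl ⟨0, false, true, true⟩ ⟨0, true, true, true⟩
    ⟨799, 862, 172, 225⟩ ⟨795, 864, 172, 245⟩ ⟨799, 862, 140, 225⟩ := .mk
  (.L ⟨600, 0, true, false, 3365, 2629⟩ ⟨674, 40, true, false, 10307, 14999⟩
   ⟨273, 298, 487, 511⟩ ⟨293, 312, 534, 555⟩ ⟨461, 494, 500, 533⟩
   ⟨0, 0, 0, 0⟩ ⟨0, 0, 0, 0⟩)
  (by decide +kernel)

theorem qAS5_385 : Cl ⟨0, false, true, true⟩ ⟨0, true, true, true⟩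
    ⟨795, 859, 172, 231⟩ ⟨795, 864, 172, 245⟩ ⟨778, 861, 202, 294⟩ := .mk
  (.L ⟨600, 0, true, false, 3322, 2897⟩ ⟨677, 48, true, false, 12417, 17605⟩
   ⟨273, 298, 487, 512⟩ ⟨295, 318, 540, 563⟩ ⟨455, 493, 503, 540⟩
   ⟨0, 0, 0, 0⟩ ⟨0, 0, 0, 0⟩)
  (by decide +kernel)

theorem qAS5_386 : Cl ⟨0, false, true, true⟩ ⟨0, true, false, false⟩
    ⟨805, 864, 172, 217⟩ ⟨795, 864, 172, 245⟩ ⟨794, 814, 73, 92⟩ := .mk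
  (.L ⟨601, 0, true, false, 3394, 2266⟩ ⟨703, 30, true, false, 8032, 9996⟩
   ⟨273, 297, 486, 509⟩ ⟨296, 307, 527, 536⟩ ⟨473, 496, 502, 525⟩
   ⟨0, 0, 0, 0⟩ ⟨0, 0, 0, 0⟩)
  (by decide +kernel)

theorem qAS5_387 : Cl ⟨0, false, true, true⟩ ⟨0, true, false, false⟩
    ⟨805, 864, 172, 217⟩ ⟨795, 864, 172, 245⟩ ⟨843, 885, 77, 140⟩ := .mk
  (.L ⟨601, 0, true, false, 3394, 2266⟩ ⟨655, 32, true, false, 8322, 11878⟩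
   ⟨273, 297, 486, 509⟩ ⟨288, 304, 529, 545⟩ ⟨466, 494, 498, 526⟩
   ⟨0, 0, 0, 0⟩ ⟨0, 0, 0, 0⟩)
  (by decide +kernel)

theorem qAS5_388 : Cl ⟨0, false, true, true⟩ ⟨0, true, false, false⟩
    ⟨799, 862, 172, 225⟩ ⟨795, 864, 172, 245⟩ ⟨816, 877, 117, 176⟩ := .mk
  (.L ⟨600, 0, true, false, 3365, 2629⟩ ⟨663, 37, true, false, 9567, 13344⟩
   ⟨273, 298, 487, 511⟩ ⟨290, 309, 532, 550⟩ ⟨464, 494, 498, 530⟩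
   ⟨0, 0, 0, 0⟩ ⟨0, 0, 0, 0⟩)
  (by decide +kernel)

theorem qAS5_389 : Cl ⟨0, false, true, true⟩ ⟨0, true, false, false⟩
    ⟨811, 864, 172, 212⟩ ⟨795, 864, 172, 245⟩ ⟨846, 873, 29, 56⟩ := .mk
  (.L ⟨603, 0, true, false, 3394, 2012⟩ ⟨659, 25, true, false, 6775, 8881⟩
   ⟨274, 296, 486, 508⟩ ⟨287, 299, 524, 534⟩ ⟨473, 495, 497, 520⟩
   ⟨0, 0, 0, 0⟩ ⟨0, 0, 0, 0⟩)
  (by decide +kernel)

theorem qAS5_390 : Cl ⟨0, false, true, true⟩ ⟨0, true, false, false⟩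
    ⟨811, 864, 172, 212⟩ ⟨795, 864, 172, 245⟩ ⟨867, 914, 38, 90⟩ := .mk
  (.L ⟨603, 0, true, false, 3394, 2012⟩ ⟨634, 27, true, false, 7156, 10177⟩
   ⟨274, 296, 486, 508⟩ ⟨283, 299, 526, 540⟩ ⟨469, 494, 495, 521⟩
   ⟨0, 0, 0, 0⟩ ⟨0, 0, 0, 0⟩)
  (by decide +kernel)

theorem qAS5_391 : Cl ⟨0, false, true, true⟩ ⟨0, true, false, false⟩
    ⟨805, 864, 172, 217⟩ ⟨795, 864, 172, 245⟩ ⟨849, 904, 57, 112⟩ := .mk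
  (.L ⟨601, 0, true, false, 3394, 2266⟩ ⟨641, 30, true, false, 7705, 11020⟩
   ⟨273, 297, 486, 509⟩ ⟨285, 302, 527, 543⟩ ⟨467, 495, 495, 524⟩
   ⟨0, 0, 0, 0⟩ ⟨0, 0, 0, 0⟩)
  (by decide +kernel)

theorem qAS5_392 : Cl ⟨0, false, true, true⟩ ⟨0, true, false, false⟩
    ⟨811, 864, 172, 212⟩ ⟨795, 864, 172, 245⟩ ⟨886, 909, 14, 39⟩ := .mk
  (.L ⟨603, 0, true, false, 3394, 2012⟩ ⟨635, 27, true, false, 6506, 8529⟩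
   ⟨274, 296, 486, 508⟩ ⟨283, 294, 524, 534⟩ ⟨473, 494, 495, 517⟩
   ⟨0, 0, 0, 0⟩ ⟨0, 0, 0, 0⟩)
  (by decide +kernel)

theorem qAS5_393 : Cl ⟨0, false, true, true⟩ ⟨0, true, false, false⟩
    ⟨811, 864, 172, 212⟩ ⟨795, 864, 172, 245⟩ ⟨897, 934, 22, 62⟩ := .mk
  (.L ⟨603, 0, true, false, 3394, 2012⟩ ⟨621, 26, true, false, 6806, 9387⟩
   ⟨274, 296, 486, 508⟩ ⟨280, 294, 525, 538⟩ ⟨470, 494, 493, 517⟩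
   ⟨0, 0, 0, 0⟩ ⟨0, 0, 0, 0⟩)
  (by decide +kernel)

theorem qAS5_394 : Cl ⟨0, false, true, true⟩ ⟨0, true, false, false⟩
    ⟨811, 864, 172, 212⟩ ⟨795, 864, 172, 245⟩ ⟨882, 927, 32, 77⟩ := .mk
  (.L ⟨603, 0, true, false, 3394, 2012⟩ ⟨626, 27, true, false, 7038, 9822⟩
   ⟨274, 296, 486, 508⟩ ⟨281, 296, 525, 539⟩ ⟨469, 494, 494, 519⟩
   ⟨0, 0, 0, 0⟩ ⟨0, 0, 0, 0⟩)
  (by decide +kernel)

theorem qAS5_395 : Cl ⟨0, false, true, true⟩ ⟨0, true, false, false⟩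
    ⟨816, 864, 172, 210⟩ ⟨795, 864, 172, 245⟩ ⟨900, 1001, 0, 29⟩ := .mk
  (.L ⟨603, 0, true, false, 3394, 1877⟩ ⟨582, 25, true, false, 5856, 8698⟩
   ⟨274, 296, 486, 508⟩ ⟨271, 292, 523, 537⟩ ⟨470, 494, 488, 516⟩
   ⟨0, 0, 0, 0⟩ ⟨0, 0, 0, 0⟩)
  (by decide +kernel)

theorem qAS5_396 : Cl ⟨0, false, true, true⟩ ⟨0, true, false, false⟩
    ⟨816, 864, 172, 210⟩ ⟨795, 864, 172, 245⟩ ⟨908, 1001, 0, 50⟩ := .mk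
  (.L ⟨603, 0, true, false, 3394, 1877⟩ ⟨582, 25, true, false, 5902, 9301⟩
   ⟨274, 296, 486, 508⟩ ⟨271, 292, 523, 539⟩ ⟨468, 494, 488, 516⟩
   ⟨0, 0, 0, 0⟩ ⟨0, 0, 0, 0⟩)
  (by decide +kernel)

theorem qAS5_397 : Cl ⟨0, false, true, true⟩ ⟨0, true, false, false⟩
    ⟨816, 864, 172, 210⟩ ⟨795, 864, 172, 245⟩ ⟨895, 1001, 0, 61⟩ := .mk
  (.L ⟨603, 0, true, false, 3394, 1877⟩ ⟨582, 25, true, false, 5827, 9617⟩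
   ⟨274, 296, 486, 508⟩ ⟨271, 294, 522, 541⟩ ⟨467, 495, 487, 518⟩
   ⟨0, 0, 0, 0⟩ ⟨0, 0, 0, 0⟩)
  (by decide +kernel)

theorem qAS5_398 : Cl ⟨0, false, false, false⟩ ⟨0, true, true, false⟩
    ⟨796, 861, 183, 258⟩ ⟨812, 833, 57, 77⟩ ⟨733, 940, 400, 615⟩ := .mk
  (.S 4 836
   (.S 5 507
    (.L ⟨656, 21, true, false, 3048, 7007⟩ ⟨677, 77, true, false, 20160, 26608⟩
     ⟨286, 300, 511, 526⟩ ⟨305, 331, 561, 588⟩ ⟨450, 490, 510, 550⟩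
     ⟨0, 0, 0, 0⟩ ⟨0, 0, 0, 0⟩)
    (.S 4 784
     (.S 1 220
      (.L ⟨665, 17, true, false, 3048, 5700⟩ ⟨694, 95, true, false, 24336, 30335⟩
       ⟨287, 300, 511, 521⟩ ⟨314, 331, 573, 596⟩ ⟨446, 480, 521, 553⟩
       ⟨0, 0, 0, 0⟩ ⟨0, 0, 0, 0⟩)
      (.S 4 758
       (.L ⟨656, 21, true, false, 4200, 7007⟩ ⟨722, 101, true, false, 25629, 32113⟩
        ⟨286, 300, 515, 526⟩ ⟨320, 334, 576, 597⟩ ⟨450, 482, 525, 556⟩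
        ⟨0, 0, 0, 0⟩ ⟨0, 0, 0, 0⟩)
       (.L ⟨656, 21, true, false, 4200, 7007⟩ ⟨702, 100, true, false, 25351, 31724⟩
        ⟨286, 300, 515, 526⟩ ⟨317, 331, 577, 598⟩ ⟨448, 480, 523, 554⟩
        ⟨0, 0, 0, 0⟩ ⟨0, 0, 0, 0⟩)))
     (.L ⟨656, 21, true, false, 3048, 7007⟩ ⟨657, 93, true, false, 23701, 30946⟩
      ⟨286, 300, 511, 526⟩ ⟨307, 329, 574, 600⟩ ⟨440, 482, 515, 555⟩
      ⟨0, 0, 0, 0⟩ ⟨0, 0, 0, 0⟩)))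
   (.S 5 507
    (.L ⟨656, 21, true, false, 3048, 7007⟩ ⟨612, 74, true, false, 19349, 25606⟩
     ⟨286, 300, 511, 526⟩ ⟨292, 320, 564, 592⟩ ⟨442, 485, 502, 544⟩
     ⟨0, 0, 0, 0⟩ ⟨0, 0, 0, 0⟩)
    (.S 4 888
     (.L ⟨656, 21, true, false, 3048, 7007⟩ ⟨624, 90, true, false, 23056, 30172⟩
      ⟨286, 300, 511, 526⟩ ⟨301, 323, 575, 602⟩ ⟨436, 479, 511, 551⟩
      ⟨0, 0, 0, 0⟩ ⟨0, 0, 0, 0⟩)
     (.L ⟨656, 21, true, false, 3048, 7007⟩ ⟨594, 88, true, false, 22418, 29408⟩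
      ⟨286, 300, 511, 526⟩ ⟨295, 317, 576, 604⟩ ⟨432, 476, 506, 547⟩
      ⟨0, 0, 0, 0⟩ ⟨0, 0, 0, 0⟩))))
  (by decide +kernel)

theorem qAS5_399 : Cl ⟨0, false, false, false⟩ ⟨2, true, false, true⟩
    ⟨796, 836, 183, 234⟩ ⟨812, 833, 57, 77⟩ ⟨558, 607, 363, 411⟩ := .mk
  (.L ⟨678, 20, true, false, 3266, 6181⟩ ⟨903, 77, true, false, 19859, 23375⟩
   ⟨290, 300, 511, 523⟩ ⟨332, 345, 553, 565⟩ ⟨477, 498, 526, 546⟩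
   ⟨0, 0, 0, 0⟩ ⟨513, 568, 653, 711⟩)
  (by decide +kernel)

theorem qAS5_400 : Cl ⟨0, false, false, false⟩ ⟨0, true, true, true⟩
    ⟨796, 860, 183, 240⟩ ⟨812, 833, 57, 77⟩ ⟨741, 878, 246, 380⟩ := .mk
  (.L ⟨661, 19, true, false, 3057, 6387⟩ ⟨664, 55, true, false, 14396, 20901⟩
   ⟨287, 300, 511, 524⟩ ⟨295, 325, 545, 574⟩ ⟨458, 497, 500, 539⟩
   ⟨0, 0, 0, 0⟩ ⟨0, 0, 0, 0⟩)
  (by decide +kernel)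

theorem qAS5_401 : Cl ⟨0, false, false, false⟩ ⟨0, true, true, true⟩
    ⟨796, 858, 183, 251⟩ ⟨812, 833, 57, 77⟩ ⟨765, 881, 353, 499⟩ := .mk
  (.L ⟨660, 21, true, false, 3074, 6766⟩ ⟨655, 69, true, false, 18184, 25576⟩
   ⟨287, 300, 511, 525⟩ ⟨298, 327, 557, 588⟩ ⟨448, 491, 505, 547⟩
   ⟨0, 0, 0, 0⟩ ⟨0, 0, 0, 0⟩)
  (by decide +kernel)

theorem qAS5_402 : Cl ⟨0, false, false, false⟩ ⟨0, true, false, false⟩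
    ⟨796, 850, 183, 218⟩ ⟨812, 833, 57, 77⟩ ⟨694, 729, 150, 183⟩ := .mk
  (.L ⟨672, 17, true, false, 3144, 5631⟩ ⟨785, 42, true, false, 10900, 13175⟩
   ⟨289, 300, 511, 521⟩ ⟨310, 322, 533, 543⟩ ⟨484, 501, 507, 525⟩
   ⟨0, 0, 0, 0⟩ ⟨0, 0, 0, 0⟩)
  (by decide +kernel)

theorem qAS5_403 : Cl ⟨0, false, false, false⟩ ⟨0, true, true, true⟩
    ⟨799, 862, 183, 225⟩ ⟨812, 833, 57, 77⟩ ⟨799, 862, 140, 225⟩ := .mk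
  (.L ⟨663, 17, true, false, 3040, 5843⟩ ⟨674, 41, true, false, 10677, 14999⟩
   ⟨287, 300, 511, 522⟩ ⟨293, 312, 535, 555⟩ ⟨472, 498, 498, 524⟩
   ⟨0, 0, 0, 0⟩ ⟨0, 0, 0, 0⟩)
  (by decide +kernel)

theorem qAS5_404 : Cl ⟨0, false, false, false⟩ ⟨0, true, true, true⟩
    ⟨796, 859, 183, 231⟩ ⟨812, 833, 57, 77⟩ ⟨778, 861, 202, 294⟩ := .mk
  (.L ⟨664, 18, true, false, 3066, 6077⟩ ⟨677, 49, true, false, 12785, 17605⟩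
   ⟨287, 300, 511, 522⟩ ⟨296, 317, 541, 563⟩ ⟨467, 496, 501, 530⟩
   ⟨0, 0, 0, 0⟩ ⟨0, 0, 0, 0⟩)
  (by decide +kernel)

theorem qAS5_405 : Cl ⟨0, false, false, false⟩ ⟨0, true, false, false⟩
    ⟨805, 865, 183, 217⟩ ⟨812, 833, 57, 77⟩ ⟨794, 814, 73, 92⟩ := .mk
  (.L ⟨663, 16, true, false, 3013, 5513⟩ ⟨702, 32, true, false, 8394, 9991⟩
   ⟨287, 299, 511, 521⟩ ⟨296, 307, 528, 536⟩ ⟨485, 500, 499, 516⟩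
   ⟨0, 0, 0, 0⟩ ⟨0, 0, 0, 0⟩)
  (by decide +kernel)

theorem qAS5_406 : Cl ⟨0, false, false, false⟩ ⟨0, true, false, false⟩
    ⟨805, 865, 183, 217⟩ ⟨812, 833, 57, 77⟩ ⟨843, 885, 77, 140⟩ := .mk
  (.L ⟨663, 16, true, false, 3013, 5513⟩ ⟨653, 33, true, false, 8702, 11876⟩
   ⟨287, 299, 511, 521⟩ ⟨288, 304, 530, 545⟩ ⟨478, 498, 495, 516⟩
   ⟨0, 0, 0, 0⟩ ⟨0, 0, 0, 0⟩)
  (by decide +kernel)

theorem qAS5_407 : Cl ⟨0, false, false, false⟩ ⟨0, true, false, false⟩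
    ⟨799, 862, 183, 225⟩ ⟨812, 833, 57, 77⟩ ⟨816, 877, 117, 176⟩ := .mk
  (.L ⟨663, 17, true, false, 3040, 5843⟩ ⟨663, 38, true, false, 9942, 13344⟩
   ⟨287, 300, 511, 522⟩ ⟨291, 309, 533, 550⟩ ⟨475, 498, 496, 521⟩
   ⟨0, 0, 0, 0⟩ ⟨0, 0, 0, 0⟩)
  (by decide +kernel)

theorem qAS5_408 : Cl ⟨0, false, false, false⟩ ⟨0, true, false, false⟩
    ⟨811, 867, 183, 212⟩ ⟨812, 833, 57, 77⟩ ⟨846, 873, 29, 56⟩ := .mk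
  (.L ⟨662, 16, true, false, 2996, 5289⟩ ⟨656, 27, true, false, 7152, 8866⟩
   ⟨287, 299, 511, 520⟩ ⟨287, 299, 525, 534⟩ ⟨485, 500, 494, 511⟩
   ⟨0, 0, 0, 0⟩ ⟨0, 0, 0, 0⟩)
  (by decide +kernel)

theorem qAS5_409 : Cl ⟨0, false, false, false⟩ ⟨0, true, false, false⟩
    ⟨811, 867, 183, 212⟩ ⟨812, 833, 57, 77⟩ ⟨867, 914, 38, 90⟩ := .mk
  (.L ⟨662, 16, true, false, 2996, 5289⟩ ⟨631, 29, true, false, 7542, 10164⟩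
   ⟨287, 299, 511, 520⟩ ⟨283, 299, 527, 540⟩ ⟨481, 498, 492, 512⟩
   ⟨0, 0, 0, 0⟩ ⟨0, 0, 0, 0⟩)
  (by decide +kernel)

theorem qAS5_410 : Cl ⟨0, false, false, false⟩ ⟨0, true, false, false⟩
    ⟨805, 865, 183, 217⟩ ⟨812, 833, 57, 77⟩ ⟨849, 904, 57, 112⟩ := .mk
  (.L ⟨663, 16, true, false, 3013, 5513⟩ ⟨640, 31, true, false, 8087, 11017⟩
   ⟨287, 299, 511, 521⟩ ⟨285, 302, 528, 543⟩ ⟨479, 499, 493, 514⟩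
   ⟨0, 0, 0, 0⟩ ⟨0, 0, 0, 0⟩)
  (by decide +kernel)

theorem qAS5_411 : Cl ⟨0, false, false, false⟩ ⟨0, true, false, false⟩
    ⟨811, 867, 183, 212⟩ ⟨812, 833, 57, 77⟩ ⟨886, 909, 14, 39⟩ := .mk
  (.L ⟨662, 16, true, false, 2996, 5289⟩ ⟨631, 26, true, false, 6899, 8512⟩
   ⟨287, 299, 511, 520⟩ ⟨282, 294, 525, 534⟩ ⟨484, 499, 491, 508⟩
   ⟨0, 0, 0, 0⟩ ⟨0, 0, 0, 0⟩)
  (by decide +kernel)

theorem qAS5_412 : Cl ⟨0, false, false, false⟩ ⟨0, true, false, false⟩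
    ⟨811, 867, 183, 212⟩ ⟨812, 833, 57, 77⟩ ⟨897, 934, 22, 62⟩ := .mk
  (.L ⟨662, 16, true, false, 2996, 5289⟩ ⟨618, 27, true, false, 7202, 9372⟩
   ⟨287, 299, 511, 520⟩ ⟨280, 294, 526, 538⟩ ⟨481, 498, 490, 508⟩
   ⟨0, 0, 0, 0⟩ ⟨0, 0, 0, 0⟩)
  (by decide +kernel)

theorem qAS5_413 : Cl ⟨0, false, false, false⟩ ⟨0, true, false, false⟩
    ⟨811, 867, 183, 212⟩ ⟨812, 833, 57, 77⟩ ⟨882, 927, 32, 77⟩ := .mk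
  (.L ⟨662, 16, true, false, 2996, 5289⟩ ⟨623, 28, true, false, 7430, 9808⟩
   ⟨287, 299, 511, 520⟩ ⟨281, 296, 527, 539⟩ ⟨481, 498, 490, 510⟩
   ⟨0, 0, 0, 0⟩ ⟨0, 0, 0, 0⟩)
  (by decide +kernel)

theorem qAS5_414 : Cl ⟨0, false, false, false⟩ ⟨0, true, false, false⟩
    ⟨816, 867, 183, 210⟩ ⟨812, 833, 57, 77⟩ ⟨900, 1001, 0, 29⟩ := .mk
  (.L ⟨663, 15, true, false, 2996, 5176⟩ ⟨579, 26, true, false, 6215, 8680⟩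
   ⟨287, 298, 511, 519⟩ ⟨271, 292, 524, 537⟩ ⟨481, 498, 485, 507⟩
   ⟨0, 0, 0, 0⟩ ⟨0, 0, 0, 0⟩)
  (by decide +kernel)

theorem qAS5_415 : Cl ⟨0, false, false, false⟩ ⟨0, true, false, false⟩
    ⟨816, 867, 183, 210⟩ ⟨812, 833, 57, 77⟩ ⟨908, 1001, 0, 50⟩ := .mk
  (.L ⟨663, 15, true, false, 2996, 5176⟩ ⟨579, 26, true, false, 6264, 9285⟩
   ⟨287, 298, 511, 519⟩ ⟨271, 292, 524, 539⟩ ⟨480, 498, 485, 507⟩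
   ⟨0, 0, 0, 0⟩ ⟨0, 0, 0, 0⟩)
  (by decide +kernel)

theorem qAS5_416 : Cl ⟨0, false, false, false⟩ ⟨0, true, false, false⟩
    ⟨816, 867, 183, 210⟩ ⟨812, 833, 57, 77⟩ ⟨895, 1001, 0, 61⟩ := .mk
  (.L ⟨663, 15, true, false, 2996, 5176⟩ ⟨579, 26, true, false, 6184, 9603⟩
   ⟨287, 298, 511, 519⟩ ⟨271, 294, 524, 541⟩ ⟨479, 499, 485, 509⟩
   ⟨0, 0, 0, 0⟩ ⟨0, 0, 0, 0⟩)
  (by decide +kernel)

/-- The pairs of the file. -/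
def rAS5 : List Pq := [
  ⟨6, 18, ⟨816, 865, 177, 210⟩, ⟨816, 868, 109, 188⟩, ⟨908, 1001, 0, 50⟩⟩,
  ⟨6, 19, ⟨816, 865, 177, 210⟩, ⟨816, 868, 109, 188⟩, ⟨895, 1001, 0, 61⟩⟩,
  ⟨7, 0, ⟨795, 861, 172, 245⟩, ⟨795, 864, 172, 245⟩, ⟨733, 940, 400, 615⟩⟩,
  ⟨7, 5, ⟨795, 836, 172, 234⟩, ⟨795, 864, 172, 245⟩, ⟨558, 607, 363, 411⟩⟩,
  ⟨7, 3, ⟨795, 860, 172, 240⟩, ⟨795, 864, 172, 245⟩, ⟨741, 878, 246, 380⟩⟩,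
  ⟨7, 4, ⟨795, 858, 172, 245⟩, ⟨795, 864, 172, 245⟩, ⟨765, 881, 353, 499⟩⟩,
  ⟨7, 8, ⟨795, 850, 172, 218⟩, ⟨795, 864, 172, 245⟩, ⟨694, 729, 150, 183⟩⟩,
  ⟨7, 6, ⟨799, 862, 172, 225⟩, ⟨795, 864, 172, 245⟩, ⟨799, 862, 140, 225⟩⟩,
  ⟨7, 7, ⟨795, 859, 172, 231⟩, ⟨795, 864, 172, 245⟩, ⟨778, 861, 202, 294⟩⟩,
  ⟨7, 11, ⟨805, 864, 172, 217⟩, ⟨795, 864, 172, 245⟩, ⟨794, 814, 73, 92⟩⟩,
  ⟨7, 9, ⟨805, 864, 172, 217⟩, ⟨795, 864, 172, 245⟩, ⟨843, 885, 77, 140⟩⟩,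
  ⟨7, 10, ⟨799, 862, 172, 225⟩, ⟨795, 864, 172, 245⟩, ⟨816, 877, 117, 176⟩⟩,
  ⟨7, 14, ⟨811, 864, 172, 212⟩, ⟨795, 864, 172, 245⟩, ⟨846, 873, 29, 56⟩⟩,
  ⟨7, 12, ⟨811, 864, 172, 212⟩, ⟨795, 864, 172, 245⟩, ⟨867, 914, 38, 90⟩⟩,
  ⟨7, 13, ⟨805, 864, 172, 217⟩, ⟨795, 864, 172, 245⟩, ⟨849, 904, 57, 112⟩⟩,
  ⟨7, 17, ⟨811, 864, 172, 212⟩, ⟨795, 864, 172, 245⟩, ⟨886, 909, 14, 39⟩⟩,
  ⟨7, 15, ⟨811, 864, 172, 212⟩, ⟨795, 864, 172, 245⟩, ⟨897, 934, 22, 62⟩⟩,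
  ⟨7, 16, ⟨811, 864, 172, 212⟩, ⟨795, 864, 172, 245⟩, ⟨882, 927, 32, 77⟩⟩,
  ⟨7, 20, ⟨816, 864, 172, 210⟩, ⟨795, 864, 172, 245⟩, ⟨900, 1001, 0, 29⟩⟩,
  ⟨7, 18, ⟨816, 864, 172, 210⟩, ⟨795, 864, 172, 245⟩, ⟨908, 1001, 0, 50⟩⟩,
  ⟨7, 19, ⟨816, 864, 172, 210⟩, ⟨795, 864, 172, 245⟩, ⟨895, 1001, 0, 61⟩⟩,
  ⟨11, 0, ⟨796, 861, 183, 258⟩, ⟨812, 833, 57, 77⟩, ⟨733, 940, 400, 615⟩⟩,
  ⟨11, 5, ⟨796, 836, 183, 234⟩, ⟨812, 833, 57, 77⟩, ⟨558, 607, 363, 411⟩⟩,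
  ⟨11, 3, ⟨796, 860, 183, 240⟩, ⟨812, 833, 57, 77⟩, ⟨741, 878, 246, 380⟩⟩,
  ⟨11, 4, ⟨796, 858, 183, 251⟩, ⟨812, 833, 57, 77⟩, ⟨765, 881, 353, 499⟩⟩,
  ⟨11, 8, ⟨796, 850, 183, 218⟩, ⟨812, 833, 57, 77⟩, ⟨694, 729, 150, 183⟩⟩,
  ⟨11, 6, ⟨799, 862, 183, 225⟩, ⟨812, 833, 57, 77⟩, ⟨799, 862, 140, 225⟩⟩,
  ⟨11, 7, ⟨796, 859, 183, 231⟩, ⟨812, 833, 57, 77⟩, ⟨778, 861, 202, 294⟩⟩,
  ⟨11, 11, ⟨805, 865, 183, 217⟩, ⟨812, 833, 57, 77⟩, ⟨794, 814, 73, 92⟩⟩,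
  ⟨11, 9, ⟨805, 865, 183, 217⟩, ⟨812, 833, 57, 77⟩, ⟨843, 885, 77, 140⟩⟩,
  ⟨11, 10, ⟨799, 862, 183, 225⟩, ⟨812, 833, 57, 77⟩, ⟨816, 877, 117, 176⟩⟩,
  ⟨11, 14, ⟨811, 867, 183, 212⟩, ⟨812, 833, 57, 77⟩, ⟨846, 873, 29, 56⟩⟩,
  ⟨11, 12, ⟨811, 867, 183, 212⟩, ⟨812, 833, 57, 77⟩, ⟨867, 914, 38, 90⟩⟩,
  ⟨11, 13, ⟨805, 865, 183, 217⟩, ⟨812, 833, 57, 77⟩, ⟨849, 904, 57, 112⟩⟩,
  ⟨11, 17, ⟨811, 867, 183, 212⟩, ⟨812, 833, 57, 77⟩, ⟨886, 909, 14, 39⟩⟩,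
  ⟨11, 15, ⟨811, 867, 183, 212⟩, ⟨812, 833, 57, 77⟩, ⟨897, 934, 22, 62⟩⟩,
  ⟨11, 16, ⟨811, 867, 183, 212⟩, ⟨812, 833, 57, 77⟩, ⟨882, 927, 32, 77⟩⟩,
  ⟨11, 20, ⟨816, 867, 183, 210⟩, ⟨812, 833, 57, 77⟩, ⟨900, 1001, 0, 29⟩⟩,
  ⟨11, 18, ⟨816, 867, 183, 210⟩, ⟨812, 833, 57, 77⟩, ⟨908, 1001, 0, 50⟩⟩,
  ⟨11, 19, ⟨816, 867, 183, 210⟩, ⟨812, 833, 57, 77⟩, ⟨895, 1001, 0, 61⟩⟩]

theorem rAS5_ok : ∀ p ∈ rAS5, Cr false true p :=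
  List.forall_mem_cons.2 ⟨qAS5_377,
  List.forall_mem_cons.2 ⟨qAS5_378,
  List.forall_mem_cons.2 ⟨qAS5_379,
  List.forall_mem_cons.2 ⟨qAS5_380,
  List.forall_mem_cons.2 ⟨qAS5_381,
  List.forall_mem_cons.2 ⟨qAS5_382,
  List.forall_mem_cons.2 ⟨qAS5_383,
  List.forall_mem_cons.2 ⟨qAS5_384,
  List.forall_mem_cons.2 ⟨qAS5_385,
  List.forall_mem_cons.2 ⟨qAS5_386,
  List.forall_mem_cons.2 ⟨qAS5_387,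
  List.forall_mem_cons.2 ⟨qAS5_388,
  List.forall_mem_cons.2 ⟨qAS5_389,
  List.forall_mem_cons.2 ⟨qAS5_390,
  List.forall_mem_cons.2 ⟨qAS5_391,
  List.forall_mem_cons.2 ⟨qAS5_392,
  List.forall_mem_cons.2 ⟨qAS5_393,
  List.forall_mem_cons.2 ⟨qAS5_394,
  List.forall_mem_cons.2 ⟨qAS5_395,
  List.forall_mem_cons.2 ⟨qAS5_396,
  List.forall_mem_cons.2 ⟨qAS5_397,
  List.forall_mem_cons.2 ⟨qAS5_398,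
  List.forall_mem_cons.2 ⟨qAS5_399,
  List.forall_mem_cons.2 ⟨qAS5_400,
  List.forall_mem_cons.2 ⟨qAS5_401,
  List.forall_mem_cons.2 ⟨qAS5_402,
  List.forall_mem_cons.2 ⟨qAS5_403,
  List.forall_mem_cons.2 ⟨qAS5_404,
  List.forall_mem_cons.2 ⟨qAS5_405,
  List.forall_mem_cons.2 ⟨qAS5_406,
  List.forall_mem_cons.2 ⟨qAS5_407,
  List.forall_mem_cons.2 ⟨qAS5_408,
  List.forall_mem_cons.2 ⟨qAS5_409,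
  List.forall_mem_cons.2 ⟨qAS5_410,
  List.forall_mem_cons.2 ⟨qAS5_411,
  List.forall_mem_cons.2 ⟨qAS5_412,
  List.forall_mem_cons.2 ⟨qAS5_413,
  List.forall_mem_cons.2 ⟨qAS5_414,
  List.forall_mem_cons.2 ⟨qAS5_415,
  List.forall_mem_cons.2 ⟨qAS5_416,
  List.forall_mem_nil _⟩⟩⟩⟩⟩⟩⟩⟩⟩⟩⟩⟩⟩⟩⟩⟩⟩⟩⟩⟩⟩⟩⟩⟩⟩⟩⟩⟩⟩⟩⟩⟩⟩⟩⟩⟩⟩⟩⟩⟩

end Pool.Agent.S5.Z4
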