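import Pool.Agent.S5.Z4.Tre

/-!
# Inner nodes with four half twists: certificates
-/

set_option autoImplicit false

namespace Pool.Agent.S5.Z4

theorem qAS6_417 : Cl ⟨0, false, false, false⟩ ⟨0, true, true, false⟩
    ⟨796, 861, 183, 258⟩ ⟨858, 894, 61, 116⟩ ⟨733, 940, 400, 615⟩ := .mk
  (.S 4 836
   (.S 5 507
    (.L ⟨609, 19, true, false, 2165, 7545⟩ ⟨677, 77, true, false, 20160, 26608⟩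
     ⟨276, 295, 508, 529⟩ ⟨305, 331, 561, 588⟩ ⟨449, 493, 512, 556⟩
     ⟨0, 0, 0, 0⟩ ⟨0, 0, 0, 0⟩)
    (.S 5 561
     (.L ⟨609, 19, true, false, 2165, 7545⟩ ⟨657, 93, true, false, 24336, 28749⟩
      ⟨276, 295, 508, 529⟩ ⟨307, 332, 573, 594⟩ ⟨445, 486, 517, 559⟩
      ⟨0, 0, 0, 0⟩ ⟨0, 0, 0, 0⟩)
     (.S 4 784
      (.S 1 220
       (.S 4 758
        (.L ⟨617, 14, true, false, 2165, 6151⟩ ⟨700, 105, true, false, 26517, 30763⟩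
         ⟨278, 295, 508, 524⟩ ⟨318, 331, 580, 595⟩ ⟨448, 478, 528, 558⟩
         ⟨0, 0, 0, 0⟩ ⟨0, 0, 0, 0⟩)
        (.L ⟨617, 14, true, false, 2165, 6151⟩ ⟨680, 104, true, false, 26141, 30335⟩
         ⟨278, 295, 508, 524⟩ ⟨315, 328, 580, 596⟩ ⟨446, 477, 526, 556⟩
         ⟨0, 0, 0, 0⟩ ⟨0, 0, 0, 0⟩))
       (.S 4 758
        (.S 1 239
         (.L ⟨613, 17, true, false, 3376, 6847⟩ ⟨710, 110, true, false, 27836, 31435⟩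
          ⟨277, 295, 513, 526⟩ ⟨322, 332, 582, 596⟩ ⟨452, 478, 532, 559⟩
          ⟨0, 0, 0, 0⟩ ⟨0, 0, 0, 0⟩)
         (.L ⟨609, 19, true, false, 3998, 7545⟩ ⟨715, 113, true, false, 28522, 32113⟩
          ⟨276, 294, 515, 529⟩ ⟨323, 334, 583, 597⟩ ⟨453, 480, 533, 561⟩
          ⟨0, 0, 0, 0⟩ ⟨0, 0, 0, 0⟩))
        (.L ⟨609, 19, true, false, 3376, 7545⟩ ⟨690, 109, true, false, 27495, 31724⟩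
         ⟨276, 295, 513, 529⟩ ⟨318, 331, 583, 598⟩ ⟨448, 479, 529, 560⟩
         ⟨0, 0, 0, 0⟩ ⟨0, 0, 0, 0⟩)))
      (.S 1 220
       (.L ⟨617, 14, true, false, 2165, 6151⟩ ⟨644, 101, true, false, 25749, 29479⟩
        ⟨278, 295, 508, 524⟩ ⟨309, 325, 581, 598⟩ ⟨442, 475, 522, 555⟩
        ⟨0, 0, 0, 0⟩ ⟨0, 0, 0, 0⟩)
       (.L ⟨609, 19, true, false, 3376, 7545⟩ ⟨653, 106, true, false, 27140, 30946⟩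
        ⟨276, 295, 513, 529⟩ ⟨312, 329, 583, 600⟩ ⟨444, 478, 524, 559⟩
        ⟨0, 0, 0, 0⟩ ⟨0, 0, 0, 0⟩)))))
   (.S 0 828
    (.S 0 812
     (.L ⟨641, 22, true, false, 2661, 7545⟩ ⟨619, 72, true, false, 19349, 28700⟩
      ⟨284, 295, 510, 529⟩ ⟨298, 323, 564, 598⟩ ⟨439, 488, 508, 550⟩
      ⟨0, 0, 0, 0⟩ ⟨0, 0, 0, 0⟩)
     (.L ⟨630, 21, true, false, 2499, 7371⟩ ⟨631, 73, true, false, 19475, 28930⟩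
      ⟨281, 293, 509, 529⟩ ⟨296, 322, 565, 600⟩ ⟨436, 487, 508, 552⟩
      ⟨0, 0, 0, 0⟩ ⟨0, 0, 0, 0⟩))
    (.S 4 888
     (.S 1 220
      (.L ⟨617, 14, true, false, 2165, 5848⟩ ⟨642, 75, true, false, 19600, 28630⟩
       ⟨278, 291, 508, 523⟩ ⟨298, 317, 566, 599⟩ ⟨437, 482, 512, 549⟩
       ⟨0, 0, 0, 0⟩ ⟨0, 0, 0, 0⟩)
      (.L ⟨609, 19, true, false, 3376, 7197⟩ ⟨647, 81, true, false, 20940, 30172⟩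
       ⟨276, 290, 513, 529⟩ ⟨301, 321, 569, 602⟩ ⟨439, 485, 514, 554⟩
       ⟨0, 0, 0, 0⟩ ⟨0, 0, 0, 0⟩))
     (.L ⟨609, 19, true, false, 2165, 7197⟩ ⟨612, 74, true, false, 19192, 29408⟩
      ⟨276, 291, 508, 529⟩ ⟨292, 315, 567, 604⟩ ⟨431, 484, 507, 551⟩
      ⟨0, 0, 0, 0⟩ ⟨0, 0, 0, 0⟩))))
  (by decide +kernel)

theorem qAS6_418 : Cl ⟨0, false, false, false⟩ ⟨2, true, false, true⟩
    ⟨796, 836, 183, 234⟩ ⟨858, 894, 61, 116⟩ ⟨558, 607, 363, 411⟩ := .mk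
  (.L ⟨631, 17, true, false, 2418, 6664⟩ ⟨903, 77, true, false, 19859, 23375⟩
   ⟨281, 295, 509, 526⟩ ⟨332, 345, 553, 565⟩ ⟨476, 501, 528, 551⟩
   ⟨0, 0, 0, 0⟩ ⟨513, 568, 653, 711⟩)
  (by decide +kernel)

theorem qAS6_419 : Cl ⟨0, false, false, false⟩ ⟨0, true, true, true⟩
    ⟨796, 860, 183, 240⟩ ⟨858, 894, 61, 116⟩ ⟨741, 878, 246, 380⟩ := .mk
  (.L ⟨614, 17, true, false, 2176, 6884⟩ ⟨664, 55, true, false, 14396, 20901⟩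
   ⟨277, 295, 508, 526⟩ ⟨295, 325, 545, 574⟩ ⟨458, 499, 503, 545⟩
   ⟨0, 0, 0, 0⟩ ⟨0, 0, 0, 0⟩)
  (by decide +kernel)

theorem qAS6_420 : Cl ⟨0, false, false, false⟩ ⟨0, true, true, true⟩
    ⟨796, 858, 183, 251⟩ ⟨858, 894, 61, 116⟩ ⟨765, 881, 353, 499⟩ := .mk
  (.L ⟨612, 19, true, false, 2196, 7287⟩ ⟨655, 69, true, false, 18184, 25576⟩
   ⟨277, 295, 508, 528⟩ ⟨298, 327, 557, 588⟩ ⟨447, 494, 507, 552⟩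
   ⟨0, 0, 0, 0⟩ ⟨0, 0, 0, 0⟩)
  (by decide +kernel)

theorem qAS6_421 : Cl ⟨0, false, false, false⟩ ⟨0, true, false, false⟩
    ⟨796, 850, 183, 218⟩ ⟨858, 894, 61, 116⟩ ⟨694, 729, 150, 183⟩ := .mk
  (.L ⟨625, 15, true, false, 2277, 6078⟩ ⟨785, 42, true, false, 10900, 13175⟩
   ⟨279, 295, 508, 523⟩ ⟨310, 322, 533, 543⟩ ⟨483, 503, 510, 531⟩
   ⟨0, 0, 0, 0⟩ ⟨0, 0, 0, 0⟩)
  (by decide +kernel)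

theorem qAS6_422 : Cl ⟨0, false, false, false⟩ ⟨0, true, true, true⟩
    ⟨799, 862, 183, 225⟩ ⟨858, 894, 61, 116⟩ ⟨799, 862, 140, 225⟩ := .mk
  (.L ⟨616, 15, true, false, 2155, 6305⟩ ⟨674, 41, true, false, 10677, 14999⟩
   ⟨277, 295, 508, 524⟩ ⟨293, 312, 535, 555⟩ ⟨471, 500, 500, 529⟩
   ⟨0, 0, 0, 0⟩ ⟨0, 0, 0, 0⟩)
  (by decide +kernel)

theorem qAS6_423 : Cl ⟨0, false, false, false⟩ ⟨0, true, true, true⟩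
    ⟨796, 859, 183, 231⟩ ⟨858, 894, 61, 116⟩ ⟨778, 861, 202, 294⟩ := .mk
  (.L ⟨616, 16, true, false, 2186, 6554⟩ ⟨677, 49, true, false, 12785, 17605⟩
   ⟨278, 295, 508, 525⟩ ⟨296, 317, 541, 563⟩ ⟨466, 498, 503, 535⟩
   ⟨0, 0, 0, 0⟩ ⟨0, 0, 0, 0⟩)
  (by decide +kernel)

theorem qAS6_424 : Cl ⟨0, false, false, false⟩ ⟨0, true, false, false⟩
    ⟨805, 865, 183, 217⟩ ⟨858, 894, 61, 116⟩ ⟨794, 814, 73, 92⟩ := .mk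
  (.L ⟨616, 14, true, false, 2125, 5958⟩ ⟨702, 32, true, false, 8394, 9991⟩
   ⟨277, 294, 508, 523⟩ ⟨296, 307, 528, 536⟩ ⟨484, 502, 501, 521⟩
   ⟨0, 0, 0, 0⟩ ⟨0, 0, 0, 0⟩)
  (by decide +kernel)

theorem qAS6_425 : Cl ⟨0, false, false, false⟩ ⟨0, true, false, false⟩
    ⟨805, 865, 183, 217⟩ ⟨858, 894, 61, 116⟩ ⟨843, 885, 77, 140⟩ := .mk
  (.L ⟨616, 14, true, false, 2125, 5958⟩ ⟨653, 33, true, false, 8702, 11876⟩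
   ⟨277, 294, 508, 523⟩ ⟨288, 304, 530, 545⟩ ⟨477, 501, 497, 522⟩
   ⟨0, 0, 0, 0⟩ ⟨0, 0, 0, 0⟩)
  (by decide +kernel)

theorem qAS6_426 : Cl ⟨0, false, false, false⟩ ⟨0, true, false, false⟩
    ⟨799, 862, 183, 225⟩ ⟨858, 894, 61, 116⟩ ⟨816, 877, 117, 176⟩ := .mk
  (.L ⟨616, 15, true, false, 2155, 6305⟩ ⟨663, 38, true, false, 9942, 13344⟩
   ⟨277, 295, 508, 524⟩ ⟨291, 309, 533, 550⟩ ⟨474, 500, 499, 526⟩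
   ⟨0, 0, 0, 0⟩ ⟨0, 0, 0, 0⟩)
  (by decide +kernel)

theorem qAS6_427 : Cl ⟨0, false, false, false⟩ ⟨0, true, false, false⟩
    ⟨811, 867, 183, 212⟩ ⟨858, 894, 61, 116⟩ ⟨846, 873, 29, 56⟩ := .mk
  (.L ⟨615, 13, true, false, 2105, 5722⟩ ⟨656, 27, true, false, 7152, 8866⟩
   ⟨277, 293, 508, 522⟩ ⟨287, 299, 525, 534⟩ ⟨484, 502, 497, 516⟩
   ⟨0, 0, 0, 0⟩ ⟨0, 0, 0, 0⟩)
  (by decide +kernel)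

theorem qAS6_428 : Cl ⟨0, false, false, false⟩ ⟨0, true, false, false⟩
    ⟨811, 867, 183, 212⟩ ⟨858, 894, 61, 116⟩ ⟨867, 914, 38, 90⟩ := .mk
  (.L ⟨615, 13, true, false, 2105, 5722⟩ ⟨631, 29, true, false, 7542, 10164⟩
   ⟨277, 293, 508, 522⟩ ⟨283, 299, 527, 540⟩ ⟨480, 501, 494, 517⟩
   ⟨0, 0, 0, 0⟩ ⟨0, 0, 0, 0⟩)
  (by decide +kernel)

theorem qAS6_429 : Cl ⟨0, false, false, false⟩ ⟨0, true, false, false⟩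
    ⟨805, 865, 183, 217⟩ ⟨858, 894, 61, 116⟩ ⟨849, 904, 57, 112⟩ := .mk
  (.L ⟨616, 14, true, false, 2125, 5958⟩ ⟨640, 31, true, false, 8087, 11017⟩
   ⟨277, 294, 508, 523⟩ ⟨285, 302, 528, 543⟩ ⟨478, 501, 495, 520⟩
   ⟨0, 0, 0, 0⟩ ⟨0, 0, 0, 0⟩)
  (by decide +kernel)

theorem qAS6_430 : Cl ⟨0, false, false, false⟩ ⟨0, true, false, false⟩
    ⟨811, 867, 183, 212⟩ ⟨858, 894, 61, 116⟩ ⟨886, 909, 14, 39⟩ := .mk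
  (.L ⟨615, 13, true, false, 2105, 5722⟩ ⟨631, 26, true, false, 6899, 8512⟩
   ⟨277, 293, 508, 522⟩ ⟨282, 294, 525, 534⟩ ⟨484, 501, 494, 513⟩
   ⟨0, 0, 0, 0⟩ ⟨0, 0, 0, 0⟩)
  (by decide +kernel)

theorem qAS6_431 : Cl ⟨0, false, false, false⟩ ⟨0, true, false, false⟩
    ⟨811, 867, 183, 212⟩ ⟨858, 894, 61, 116⟩ ⟨897, 934, 22, 62⟩ := .mk
  (.L ⟨615, 13, true, false, 2105, 5722⟩ ⟨618, 27, true, false, 7202, 9372⟩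
   ⟨277, 293, 508, 522⟩ ⟨280, 294, 526, 538⟩ ⟨481, 500, 493, 514⟩
   ⟨0, 0, 0, 0⟩ ⟨0, 0, 0, 0⟩)
  (by decide +kernel)

theorem qAS6_432 : Cl ⟨0, false, false, false⟩ ⟨0, true, false, false⟩
    ⟨811, 867, 183, 212⟩ ⟨858, 894, 61, 116⟩ ⟨882, 927, 32, 77⟩ := .mk
  (.L ⟨615, 13, true, false, 2105, 5722⟩ ⟨623, 28, true, false, 7430, 9808⟩
   ⟨277, 293, 508, 522⟩ ⟨281, 296, 527, 539⟩ ⟨480, 500, 493, 515⟩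
   ⟨0, 0, 0, 0⟩ ⟨0, 0, 0, 0⟩)
  (by decide +kernel)

theorem qAS6_433 : Cl ⟨0, false, false, false⟩ ⟨0, true, false, false⟩
    ⟨816, 867, 183, 210⟩ ⟨858, 894, 61, 116⟩ ⟨900, 1001, 0, 29⟩ := .mk
  (.L ⟨616, 13, true, false, 2105, 5604⟩ ⟨579, 26, true, false, 6215, 8680⟩
   ⟨277, 293, 508, 522⟩ ⟨271, 292, 524, 537⟩ ⟨481, 501, 487, 513⟩
   ⟨0, 0, 0, 0⟩ ⟨0, 0, 0, 0⟩)
  (by decide +kernel)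

theorem qAS6_434 : Cl ⟨0, false, false, false⟩ ⟨0, true, false, false⟩
    ⟨816, 867, 183, 210⟩ ⟨858, 894, 61, 116⟩ ⟨908, 1001, 0, 50⟩ := .mk
  (.L ⟨616, 13, true, false, 2105, 5604⟩ ⟨579, 26, true, false, 6264, 9285⟩
   ⟨277, 293, 508, 522⟩ ⟨271, 292, 524, 539⟩ ⟨479, 501, 487, 513⟩
   ⟨0, 0, 0, 0⟩ ⟨0, 0, 0, 0⟩)
  (by decide +kernel)

theorem qAS6_435 : Cl ⟨0, false, false, false⟩ ⟨0, true, false, false⟩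
    ⟨816, 867, 183, 210⟩ ⟨858, 894, 61, 116⟩ ⟨895, 1001, 0, 61⟩ := .mk
  (.L ⟨616, 13, true, false, 2105, 5604⟩ ⟨579, 26, true, false, 6184, 9603⟩
   ⟨277, 293, 508, 522⟩ ⟨271, 294, 524, 541⟩ ⟨478, 502, 487, 515⟩
   ⟨0, 0, 0, 0⟩ ⟨0, 0, 0, 0⟩)
  (by decide +kernel)

theorem qAS6_436 : Cl ⟨0, false, false, false⟩ ⟨0, true, true, false⟩
    ⟨795, 861, 177, 255⟩ ⟨833, 885, 96, 144⟩ ⟨733, 940, 400, 615⟩ := .mk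
  (.S 4 836
   (.S 5 507
    (.L ⟨608, 15, true, false, 776, 6306⟩ ⟨676, 76, true, false, 19951, 26496⟩
     ⟨276, 297, 502, 524⟩ ⟨304, 331, 561, 588⟩ ⟨445, 490, 511, 557⟩
     ⟨0, 0, 0, 0⟩ ⟨0, 0, 0, 0⟩)
    (.S 5 561
     (.S 1 216
      (.L ⟨617, 10, true, false, 776, 4889⟩ ⟨656, 92, true, false, 24116, 27168⟩
       ⟨277, 297, 502, 519⟩ ⟨307, 329, 573, 591⟩ ⟨444, 479, 518, 556⟩
       ⟨0, 0, 0, 0⟩ ⟨0, 0, 0, 0⟩)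
      (.L ⟨608, 15, true, false, 2014, 6306⟩ ⟨664, 97, true, false, 25477, 28635⟩
       ⟨276, 296, 507, 524⟩ ⟨310, 332, 576, 594⟩ ⟨445, 481, 520, 559⟩
       ⟨0, 0, 0, 0⟩ ⟨0, 0, 0, 0⟩))
     (.S 0 828
      (.S 1 216
       (.L ⟨639, 11, true, false, 1135, 4889⟩ ⟨664, 98, true, false, 26290, 28781⟩
        ⟨282, 297, 504, 519⟩ ⟨311, 331, 579, 594⟩ ⟨444, 476, 523, 556⟩
        ⟨0, 0, 0, 0⟩ ⟨0, 0, 0, 0⟩)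
       (.L ⟨629, 17, true, false, 2422, 6306⟩ ⟨674, 104, true, false, 27679, 30333⟩
        ⟨280, 296, 509, 524⟩ ⟨314, 334, 582, 597⟩ ⟨445, 478, 525, 560⟩
        ⟨0, 0, 0, 0⟩ ⟨0, 0, 0, 0⟩))
      (.S 4 784
       (.S 1 216
        (.S 0 844
         (.L ⟨628, 11, true, false, 961, 4541⟩ ⟨690, 102, true, false, 26795, 29908⟩
          ⟨280, 293, 503, 518⟩ ⟨316, 329, 582, 595⟩ ⟨445, 472, 530, 556⟩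
          ⟨0, 0, 0, 0⟩ ⟨0, 0, 0, 0⟩)
         (.D ⟨617, 10, true, false, 776, 4371⟩ ⟨679, 103, true, false, 27039, 30190⟩
          ⟨277, 291, 502, 518⟩ ⟨315, 328, 583, 596⟩ ⟨444, 472, 530, 557⟩))
        (.S 4 758
         (.S 1 235
          (.L ⟨613, 12, true, false, 2014, 5206⟩ ⟨709, 110, true, false, 28135, 31293⟩
           ⟨277, 292, 507, 521⟩ ⟨321, 330, 584, 596⟩ ⟨449, 473, 534, 558⟩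
           ⟨0, 0, 0, 0⟩ ⟨0, 0, 0, 0⟩)
          (.S 5 588
           (.L ⟨608, 15, true, false, 2617, 5909⟩ ⟨714, 112, true, false, 28796, 30792⟩
            ⟨276, 291, 510, 524⟩ ⟨323, 331, 585, 594⟩ ⟨453, 475, 536, 558⟩
            ⟨0, 0, 0, 0⟩ ⟨0, 0, 0, 0⟩)
           (.L ⟨608, 15, true, false, 2617, 5909⟩ ⟨707, 117, true, false, 29972, 32006⟩
            ⟨276, 291, 510, 524⟩ ⟨324, 332, 588, 597⟩ ⟨451, 473, 538, 560⟩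
            ⟨0, 0, 0, 0⟩ ⟨0, 0, 0, 0⟩)))
         (.S 1 235
          (.L ⟨613, 12, true, false, 2014, 5206⟩ ⟨689, 108, true, false, 27789, 30880⟩
           ⟨277, 292, 507, 521⟩ ⟨318, 328, 585, 597⟩ ⟨447, 472, 532, 557⟩
           ⟨0, 0, 0, 0⟩ ⟨0, 0, 0, 0⟩)
          (.L ⟨608, 15, true, false, 2617, 5909⟩ ⟨694, 111, true, false, 28469, 31613⟩
           ⟨276, 291, 510, 524⟩ ⟨320, 329, 586, 598⟩ ⟨448, 473, 534, 558⟩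
           ⟨0, 0, 0, 0⟩ ⟨0, 0, 0, 0⟩))))
       (.S 1 216
        (.L ⟨617, 10, true, false, 776, 4541⟩ ⟨642, 100, true, false, 26015, 29327⟩
         ⟨277, 293, 502, 518⟩ ⟨308, 323, 583, 598⟩ ⟨439, 470, 524, 555⟩
         ⟨0, 0, 0, 0⟩ ⟨0, 0, 0, 0⟩)
        (.S 1 235
         (.L ⟨613, 12, true, false, 2014, 5206⟩ ⟨652, 106, true, false, 27430, 30055⟩
          ⟨277, 292, 507, 521⟩ ⟨312, 324, 586, 599⟩ ⟨442, 470, 528, 555⟩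
          ⟨0, 0, 0, 0⟩ ⟨0, 0, 0, 0⟩)
         (.L ⟨608, 15, true, false, 2617, 5909⟩ ⟨656, 108, true, false, 28128, 30829⟩
          ⟨276, 291, 510, 524⟩ ⟨314, 326, 587, 600⟩ ⟨444, 471, 530, 557⟩
          ⟨0, 0, 0, 0⟩ ⟨0, 0, 0, 0⟩)))))))
   (.S 4 888
    (.S 5 507
     (.L ⟨608, 15, true, false, 776, 6306⟩ ⟨642, 75, true, false, 19118, 25988⟩
      ⟨276, 297, 502, 524⟩ ⟨298, 320, 563, 590⟩ ⟨442, 486, 508, 549⟩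
      ⟨0, 0, 0, 0⟩ ⟨0, 0, 0, 0⟩)
     (.S 1 216
      (.L ⟨617, 10, true, false, 776, 4889⟩ ⟨622, 89, true, false, 22813, 28469⟩
       ⟨277, 297, 502, 519⟩ ⟨300, 319, 575, 599⟩ ⟨434, 474, 513, 552⟩
       ⟨0, 0, 0, 0⟩ ⟨0, 0, 0, 0⟩)
      (.L ⟨608, 15, true, false, 2014, 6306⟩ ⟨630, 95, true, false, 24321, 30049⟩
       ⟨276, 296, 507, 524⟩ ⟨304, 323, 578, 602⟩ ⟨435, 477, 517, 557⟩
       ⟨0, 0, 0, 0⟩ ⟨0, 0, 0, 0⟩)))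
    (.S 0 828
     (.L ⟨629, 17, true, false, 1135, 6306⟩ ⟨621, 74, true, false, 18702, 28797⟩
      ⟨280, 297, 504, 524⟩ ⟨296, 317, 564, 600⟩ ⟨433, 484, 507, 549⟩
      ⟨0, 0, 0, 0⟩ ⟨0, 0, 0, 0⟩)
     (.L ⟨608, 15, true, false, 776, 5909⟩ ⟨608, 73, true, false, 18966, 29279⟩
      ⟨276, 293, 502, 524⟩ ⟨292, 315, 567, 603⟩ ⟨428, 482, 506, 552⟩
      ⟨0, 0, 0, 0⟩ ⟨0, 0, 0, 0⟩))))
  (by decide +kernel)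

theorem qAS6_437 : Cl ⟨0, false, false, false⟩ ⟨2, true, false, true⟩
    ⟨795, 836, 177, 234⟩ ⟨833, 885, 96, 144⟩ ⟨558, 607, 363, 411⟩ := .mk
  (.L ⟨629, 14, true, false, 1048, 5542⟩ ⟨902, 76, true, false, 19690, 23375⟩
   ⟨280, 297, 503, 522⟩ ⟨332, 345, 552, 565⟩ ⟨473, 499, 527, 552⟩
   ⟨0, 0, 0, 0⟩ ⟨513, 569, 653, 713⟩)
  (by decide +kernel)

theorem qAS6_438 : Cl ⟨0, false, false, false⟩ ⟨0, true, true, true⟩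
    ⟨795, 860, 177, 240⟩ ⟨833, 885, 96, 144⟩ ⟨741, 878, 246, 380⟩ := .mk
  (.L ⟨612, 13, true, false, 787, 5760⟩ ⟨663, 54, true, false, 14199, 20901⟩
   ⟨276, 297, 503, 522⟩ ⟨295, 325, 544, 574⟩ ⟨455, 497, 502, 546⟩
   ⟨0, 0, 0, 0⟩ ⟨0, 0, 0, 0⟩)
  (by decide +kernel)

theorem qAS6_439 : Cl ⟨0, false, false, false⟩ ⟨0, true, true, true⟩
    ⟨795, 858, 177, 251⟩ ⟨833, 885, 96, 144⟩ ⟨765, 881, 353, 499⟩ := .mk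
  (.L ⟨611, 15, true, false, 809, 6160⟩ ⟨654, 68, true, false, 17973, 25576⟩
   ⟨276, 297, 503, 524⟩ ⟨298, 327, 557, 588⟩ ⟨444, 492, 506, 554⟩
   ⟨0, 0, 0, 0⟩ ⟨0, 0, 0, 0⟩)
  (by decide +kernel)

theorem qAS6_440 : Cl ⟨0, false, false, false⟩ ⟨0, true, false, false⟩
    ⟨795, 850, 177, 218⟩ ⟨833, 885, 96, 144⟩ ⟨694, 729, 150, 183⟩ := .mk
  (.L ⟨624, 11, true, false, 896, 4962⟩ ⟨785, 41, true, false, 10720, 13175⟩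
   ⟨279, 297, 503, 519⟩ ⟨310, 322, 533, 543⟩ ⟨480, 501, 509, 531⟩
   ⟨0, 0, 0, 0⟩ ⟨0, 0, 0, 0⟩)
  (by decide +kernel)

theorem qAS6_441 : Cl ⟨0, false, false, false⟩ ⟨0, true, true, true⟩
    ⟨799, 862, 177, 225⟩ ⟨833, 885, 96, 144⟩ ⟨799, 862, 140, 225⟩ := .mk
  (.L ⟨615, 11, true, false, 765, 5172⟩ ⟨674, 40, true, false, 10475, 14999⟩
   ⟨277, 296, 502, 520⟩ ⟨293, 312, 535, 555⟩ ⟨468, 498, 500, 530⟩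
   ⟨0, 0, 0, 0⟩ ⟨0, 0, 0, 0⟩)
  (by decide +kernel)

theorem qAS6_442 : Cl ⟨0, false, false, false⟩ ⟨0, true, true, true⟩
    ⟨795, 859, 177, 231⟩ ⟨833, 885, 96, 144⟩ ⟨778, 861, 202, 294⟩ := .mk
  (.L ⟨615, 12, true, false, 798, 5433⟩ ⟨677, 49, true, false, 12584, 17605⟩
   ⟨277, 297, 503, 521⟩ ⟨296, 318, 541, 563⟩ ⟨463, 496, 502, 536⟩
   ⟨0, 0, 0, 0⟩ ⟨0, 0, 0, 0⟩)
  (by decide +kernel)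

theorem qAS6_443 : Cl ⟨0, false, false, false⟩ ⟨0, true, false, false⟩
    ⟨805, 865, 177, 217⟩ ⟨833, 885, 96, 144⟩ ⟨794, 814, 73, 92⟩ := .mk
  (.L ⟨615, 10, true, false, 732, 4819⟩ ⟨702, 31, true, false, 8196, 9991⟩
   ⟨277, 296, 502, 519⟩ ⟨296, 307, 527, 536⟩ ⟨481, 501, 501, 522⟩
   ⟨0, 0, 0, 0⟩ ⟨0, 0, 0, 0⟩)
  (by decide +kernel)

theorem qAS6_444 : Cl ⟨0, false, false, false⟩ ⟨0, true, false, false⟩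
    ⟨805, 865, 177, 217⟩ ⟨833, 885, 96, 144⟩ ⟨843, 885, 77, 140⟩ := .mk
  (.L ⟨615, 10, true, false, 732, 4819⟩ ⟨654, 32, true, false, 8495, 11876⟩
   ⟨277, 296, 502, 519⟩ ⟨288, 304, 529, 545⟩ ⟨474, 499, 496, 522⟩
   ⟨0, 0, 0, 0⟩ ⟨0, 0, 0, 0⟩)
  (by decide +kernel)

theorem qAS6_445 : Cl ⟨0, false, false, false⟩ ⟨0, true, false, false⟩
    ⟨799, 862, 177, 225⟩ ⟨833, 885, 96, 144⟩ ⟨816, 877, 117, 176⟩ := .mk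
  (.L ⟨615, 11, true, false, 765, 5172⟩ ⟨663, 38, true, false, 9737, 13344⟩
   ⟨277, 296, 502, 520⟩ ⟨291, 309, 533, 550⟩ ⟨471, 498, 499, 527⟩
   ⟨0, 0, 0, 0⟩ ⟨0, 0, 0, 0⟩)
  (by decide +kernel)

theorem qAS6_446 : Cl ⟨0, false, false, false⟩ ⟨0, true, false, false⟩
    ⟨811, 865, 177, 212⟩ ⟨833, 885, 96, 144⟩ ⟨846, 873, 29, 56⟩ := .mk
  (.L ⟨616, 9, true, false, 732, 4578⟩ ⟨658, 26, true, false, 6946, 8876⟩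
   ⟨277, 295, 502, 518⟩ ⟨287, 299, 524, 534⟩ ⟨481, 500, 496, 517⟩
   ⟨0, 0, 0, 0⟩ ⟨0, 0, 0, 0⟩)
  (by decide +kernel)

theorem qAS6_447 : Cl ⟨0, false, false, false⟩ ⟨0, true, false, false⟩
    ⟨811, 865, 177, 212⟩ ⟨833, 885, 96, 144⟩ ⟨867, 914, 38, 90⟩ := .mk
  (.L ⟨616, 9, true, false, 732, 4578⟩ ⟨633, 28, true, false, 7331, 10173⟩
   ⟨277, 295, 502, 518⟩ ⟨283, 299, 526, 540⟩ ⟨477, 499, 494, 518⟩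
   ⟨0, 0, 0, 0⟩ ⟨0, 0, 0, 0⟩)
  (by decide +kernel)

theorem qAS6_448 : Cl ⟨0, false, false, false⟩ ⟨0, true, false, false⟩
    ⟨805, 865, 177, 217⟩ ⟨833, 885, 96, 144⟩ ⟨849, 904, 57, 112⟩ := .mk
  (.L ⟨615, 10, true, false, 732, 4819⟩ ⟨640, 30, true, false, 7879, 11017⟩
   ⟨277, 296, 502, 519⟩ ⟨285, 302, 528, 543⟩ ⟨475, 499, 495, 521⟩
   ⟨0, 0, 0, 0⟩ ⟨0, 0, 0, 0⟩)
  (by decide +kernel)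

theorem qAS6_449 : Cl ⟨0, false, false, false⟩ ⟨0, true, false, false⟩
    ⟨811, 865, 177, 212⟩ ⟨833, 885, 96, 144⟩ ⟨886, 909, 14, 39⟩ := .mk
  (.L ⟨616, 9, true, false, 732, 4578⟩ ⟨633, 25, true, false, 6685, 8524⟩
   ⟨277, 295, 502, 518⟩ ⟨282, 294, 524, 534⟩ ⟨480, 499, 493, 514⟩
   ⟨0, 0, 0, 0⟩ ⟨0, 0, 0, 0⟩)
  (by decide +kernel)

theorem qAS6_450 : Cl ⟨0, false, false, false⟩ ⟨0, true, false, false⟩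
    ⟨811, 865, 177, 212⟩ ⟨833, 885, 96, 144⟩ ⟨897, 934, 22, 62⟩ := .mk
  (.L ⟨616, 9, true, false, 732, 4578⟩ ⟨619, 26, true, false, 6986, 9382⟩
   ⟨277, 295, 502, 518⟩ ⟨280, 294, 526, 538⟩ ⟨478, 498, 492, 515⟩
   ⟨0, 0, 0, 0⟩ ⟨0, 0, 0, 0⟩)
  (by decide +kernel)

theorem qAS6_451 : Cl ⟨0, false, false, false⟩ ⟨0, true, false, false⟩
    ⟨811, 865, 177, 212⟩ ⟨833, 885, 96, 144⟩ ⟨882, 927, 32, 77⟩ := .mk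
  (.L ⟨616, 9, true, false, 732, 4578⟩ ⟨624, 28, true, false, 7216, 9818⟩
   ⟨277, 295, 502, 518⟩ ⟨281, 296, 526, 539⟩ ⟨477, 499, 493, 516⟩
   ⟨0, 0, 0, 0⟩ ⟨0, 0, 0, 0⟩)
  (by decide +kernel)

theorem qAS6_452 : Cl ⟨0, false, false, false⟩ ⟨0, true, false, false⟩
    ⟨816, 865, 177, 210⟩ ⟨833, 885, 96, 144⟩ ⟨900, 1001, 0, 29⟩ := .mk
  (.L ⟨616, 9, true, false, 732, 4455⟩ ⟨581, 25, true, false, 6021, 8692⟩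
   ⟨277, 294, 502, 518⟩ ⟨271, 292, 523, 537⟩ ⟨477, 500, 487, 513⟩
   ⟨0, 0, 0, 0⟩ ⟨0, 0, 0, 0⟩)
  (by decide +kernel)

theorem qAS6_453 : Cl ⟨0, false, false, false⟩ ⟨0, true, false, false⟩
    ⟨816, 865, 177, 210⟩ ⟨833, 885, 96, 144⟩ ⟨908, 1001, 0, 50⟩ := .mk
  (.L ⟨616, 9, true, false, 732, 4455⟩ ⟨581, 25, true, false, 6069, 9295⟩
   ⟨277, 294, 502, 518⟩ ⟨271, 292, 524, 539⟩ ⟨476, 499, 487, 514⟩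
   ⟨0, 0, 0, 0⟩ ⟨0, 0, 0, 0⟩)
  (by decide +kernel)

theorem qAS6_454 : Cl ⟨0, false, false, false⟩ ⟨0, true, false, false⟩
    ⟨816, 865, 177, 210⟩ ⟨833, 885, 96, 144⟩ ⟨895, 1001, 0, 61⟩ := .mk
  (.L ⟨616, 9, true, false, 732, 4455⟩ ⟨581, 25, true, false, 5992, 9612⟩
   ⟨277, 294, 502, 518⟩ ⟨271, 294, 523, 541⟩ ⟨475, 500, 487, 515⟩
   ⟨0, 0, 0, 0⟩ ⟨0, 0, 0, 0⟩)
  (by decide +kernel)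

theorem qAS6_455 : Cl ⟨0, false, false, false⟩ ⟨0, true, true, false⟩
    ⟨802, 861, 188, 262⟩ ⟨859, 886, 25, 50⟩ ⟨733, 940, 400, 615⟩ := .mk
  (.S 4 836
   (.S 5 507
    (.L ⟨627, 28, true, false, 4513, 8625⟩ ⟨677, 78, true, false, 20374, 26757⟩
     ⟨282, 296, 517, 533⟩ ⟨305, 331, 562, 588⟩ ⟨454, 494, 511, 551⟩
     ⟨0, 0, 0, 0⟩ ⟨0, 0, 0, 0⟩)
    (.S 4 784
     (.S 1 225
      (.L ⟨634, 23, true, false, 4513, 7284⟩ ⟨695, 96, true, false, 24583, 30516⟩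
       ⟨282, 296, 517, 528⟩ ⟨314, 331, 574, 597⟩ ⟨449, 484, 522, 556⟩
       ⟨0, 0, 0, 0⟩ ⟨0, 0, 0, 0⟩)
      (.S 1 243
       (.L ⟨631, 25, true, false, 5730, 7935⟩ ⟨703, 101, true, false, 25870, 31172⟩
        ⟨282, 296, 522, 530⟩ ⟨317, 333, 577, 598⟩ ⟨453, 484, 525, 557⟩
        ⟨0, 0, 0, 0⟩ ⟨0, 0, 0, 0⟩)
       (.L ⟨627, 28, true, false, 6323, 8625⟩ ⟨707, 103, true, false, 26503, 31872⟩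
        ⟨282, 295, 524, 533⟩ ⟨318, 334, 578, 599⟩ ⟨453, 485, 526, 558⟩
        ⟨0, 0, 0, 0⟩ ⟨0, 0, 0, 0⟩)))
     (.L ⟨627, 28, true, false, 4513, 8625⟩ ⟨658, 93, true, false, 23957, 31101⟩
      ⟨282, 296, 517, 533⟩ ⟨308, 329, 575, 601⟩ ⟨443, 485, 517, 556⟩
      ⟨0, 0, 0, 0⟩ ⟨0, 0, 0, 0⟩)))
   (.S 4 888
    (.S 0 831
     (.L ⟨647, 29, true, false, 4752, 8625⟩ ⟨664, 75, true, false, 19581, 29898⟩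
      ⟨286, 296, 517, 533⟩ ⟨302, 323, 565, 599⟩ ⟨443, 489, 510, 548⟩
      ⟨0, 0, 0, 0⟩ ⟨0, 0, 0, 0⟩)
     (.L ⟨627, 28, true, false, 4513, 8341⟩ ⟨643, 76, true, false, 19804, 30336⟩
      ⟨282, 292, 517, 532⟩ ⟨299, 321, 567, 602⟩ ⟨440, 487, 511, 550⟩
      ⟨0, 0, 0, 0⟩ ⟨0, 0, 0, 0⟩))
    (.L ⟨627, 28, true, false, 4513, 8625⟩ ⟨612, 75, true, false, 19183, 29580⟩
     ⟨282, 296, 517, 533⟩ ⟨293, 317, 566, 604⟩ ⟨435, 487, 504, 548⟩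
     ⟨0, 0, 0, 0⟩ ⟨0, 0, 0, 0⟩)))
  (by decide +kernel)

theorem qAS6_456 : Cl ⟨0, false, false, false⟩ ⟨2, true, false, true⟩
    ⟨802, 836, 188, 234⟩ ⟨859, 886, 25, 50⟩ ⟨558, 607, 363, 411⟩ := .mk
  (.L ⟨649, 25, true, false, 4712, 7609⟩ ⟨903, 77, true, false, 20031, 23375⟩
   ⟨286, 296, 517, 529⟩ ⟨332, 344, 553, 565⟩ ⟨480, 501, 527, 547⟩
   ⟨0, 0, 0, 0⟩ ⟨515, 567, 653, 708⟩)
  (by decide +kernel)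

theorem qAS6_457 : Cl ⟨0, false, false, false⟩ ⟨0, true, true, true⟩
    ⟨802, 860, 188, 240⟩ ⟨859, 886, 25, 50⟩ ⟨741, 878, 246, 380⟩ := .mk
  (.L ⟨632, 25, true, false, 4521, 7827⟩ ⟨664, 56, true, false, 14570, 20901⟩
   ⟨282, 296, 517, 530⟩ ⟨295, 324, 546, 574⟩ ⟨462, 500, 502, 540⟩
   ⟨0, 0, 0, 0⟩ ⟨0, 0, 0, 0⟩)
  (by decide +kernel)

theorem qAS6_458 : Cl ⟨0, false, false, false⟩ ⟨0, true, true, true⟩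
    ⟨802, 858, 188, 251⟩ ⟨859, 886, 25, 50⟩ ⟨765, 881, 353, 499⟩ := .mk
  (.L ⟨631, 26, true, false, 4537, 8225⟩ ⟨655, 70, true, false, 18390, 25576⟩
   ⟨282, 296, 517, 531⟩ ⟨299, 326, 558, 588⟩ ⟨452, 494, 507, 548⟩
   ⟨0, 0, 0, 0⟩ ⟨0, 0, 0, 0⟩)
  (by decide +kernel)

theorem qAS6_459 : Cl ⟨0, false, false, false⟩ ⟨0, true, false, false⟩
    ⟨802, 850, 188, 218⟩ ⟨859, 886, 25, 50⟩ ⟨694, 729, 150, 183⟩ := .mk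
  (.L ⟨643, 22, true, false, 4601, 7031⟩ ⟨785, 43, true, false, 11044, 13175⟩
   ⟨284, 296, 517, 527⟩ ⟨311, 322, 534, 543⟩ ⟨488, 504, 509, 527⟩
   ⟨0, 0, 0, 0⟩ ⟨0, 0, 0, 0⟩)
  (by decide +kernel)

theorem qAS6_460 : Cl ⟨0, false, false, false⟩ ⟨0, true, true, true⟩
    ⟨802, 862, 188, 225⟩ ⟨859, 886, 25, 50⟩ ⟨799, 862, 140, 225⟩ := .mk
  (.L ⟨634, 23, true, false, 4505, 7284⟩ ⟨673, 42, true, false, 10840, 14999⟩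
   ⟨282, 296, 517, 528⟩ ⟨293, 312, 536, 555⟩ ⟨476, 501, 499, 526⟩
   ⟨0, 0, 0, 0⟩ ⟨0, 0, 0, 0⟩)
  (by decide +kernel)

theorem qAS6_461 : Cl ⟨0, false, false, false⟩ ⟨0, true, true, true⟩
    ⟨802, 859, 188, 231⟩ ⟨859, 886, 25, 50⟩ ⟨778, 861, 202, 294⟩ := .mk
  (.L ⟨635, 24, true, false, 4529, 7501⟩ ⟨677, 50, true, false, 12955, 17605⟩
   ⟨282, 296, 517, 528⟩ ⟨296, 317, 542, 563⟩ ⟨471, 499, 502, 531⟩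
   ⟨0, 0, 0, 0⟩ ⟨0, 0, 0, 0⟩)
  (by decide +kernel)

theorem qAS6_462 : Cl ⟨0, false, false, false⟩ ⟨0, true, false, false⟩
    ⟨805, 865, 188, 217⟩ ⟨859, 886, 25, 50⟩ ⟨794, 814, 73, 92⟩ := .mk
  (.L ⟨633, 22, true, false, 4481, 6971⟩ ⟨702, 32, true, false, 8558, 9991⟩
   ⟨282, 295, 517, 527⟩ ⟨296, 307, 529, 536⟩ ⟨489, 503, 500, 518⟩
   ⟨0, 0, 0, 0⟩ ⟨0, 0, 0, 0⟩)
  (by decide +kernel)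

theorem qAS6_463 : Cl ⟨0, false, false, false⟩ ⟨0, true, false, false⟩
    ⟨805, 865, 188, 217⟩ ⟨859, 886, 25, 50⟩ ⟨843, 885, 77, 140⟩ := .mk
  (.L ⟨633, 22, true, false, 4481, 6971⟩ ⟨653, 34, true, false, 8875, 11876⟩
   ⟨282, 295, 517, 527⟩ ⟨288, 304, 531, 545⟩ ⟨482, 502, 496, 518⟩
   ⟨0, 0, 0, 0⟩ ⟨0, 0, 0, 0⟩)
  (by decide +kernel)

theorem qAS6_464 : Cl ⟨0, false, false, false⟩ ⟨0, true, false, false⟩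
    ⟨802, 862, 188, 225⟩ ⟨859, 886, 25, 50⟩ ⟨816, 877, 117, 176⟩ := .mk
  (.L ⟨634, 23, true, false, 4505, 7284⟩ ⟨663, 39, true, false, 10105, 13344⟩
   ⟨282, 296, 517, 528⟩ ⟨291, 309, 534, 550⟩ ⟨479, 502, 498, 522⟩
   ⟨0, 0, 0, 0⟩ ⟨0, 0, 0, 0⟩)
  (by decide +kernel)

theorem qAS6_465 : Cl ⟨0, false, false, false⟩ ⟨0, true, false, false⟩
    ⟨811, 868, 188, 212⟩ ⟨859, 886, 25, 50⟩ ⟨846, 873, 29, 56⟩ := .mk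
  (.L ⟨632, 21, true, false, 4457, 6743⟩ ⟨655, 27, true, false, 7324, 8861⟩
   ⟨282, 295, 517, 526⟩ ⟨287, 299, 526, 534⟩ ⟨489, 503, 495, 513⟩
   ⟨0, 0, 0, 0⟩ ⟨0, 0, 0, 0⟩)
  (by decide +kernel)

theorem qAS6_466 : Cl ⟨0, false, false, false⟩ ⟨0, true, false, false⟩
    ⟨811, 868, 188, 212⟩ ⟨859, 886, 25, 50⟩ ⟨867, 914, 38, 90⟩ := .mk
  (.L ⟨632, 21, true, false, 4457, 6743⟩ ⟨630, 29, true, false, 7717, 10160⟩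
   ⟨282, 295, 517, 526⟩ ⟨282, 299, 528, 540⟩ ⟨484, 502, 492, 514⟩
   ⟨0, 0, 0, 0⟩ ⟨0, 0, 0, 0⟩)
  (by decide +kernel)

theorem qAS6_467 : Cl ⟨0, false, false, false⟩ ⟨0, true, false, false⟩
    ⟨805, 865, 188, 217⟩ ⟨859, 886, 25, 50⟩ ⟨849, 904, 57, 112⟩ := .mk
  (.L ⟨633, 22, true, false, 4481, 6971⟩ ⟨640, 32, true, false, 8261, 11017⟩
   ⟨282, 295, 517, 527⟩ ⟨285, 302, 529, 543⟩ ⟨483, 502, 494, 516⟩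
   ⟨0, 0, 0, 0⟩ ⟨0, 0, 0, 0⟩)
  (by decide +kernel)

theorem qAS6_468 : Cl ⟨0, false, false, false⟩ ⟨0, true, false, false⟩
    ⟨811, 868, 188, 212⟩ ⟨859, 886, 25, 50⟩ ⟨886, 909, 14, 39⟩ := .mk
  (.L ⟨632, 21, true, false, 4457, 6743⟩ ⟨630, 26, true, false, 7077, 8506⟩
   ⟨282, 295, 517, 526⟩ ⟨282, 294, 526, 534⟩ ⟨488, 502, 492, 510⟩
   ⟨0, 0, 0, 0⟩ ⟨0, 0, 0, 0⟩)
  (by decide +kernel)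

theorem qAS6_469 : Cl ⟨0, false, false, false⟩ ⟨0, true, false, false⟩
    ⟨811, 868, 188, 212⟩ ⟨859, 886, 25, 50⟩ ⟨897, 934, 22, 62⟩ := .mk
  (.L ⟨632, 21, true, false, 4457, 6743⟩ ⟨616, 28, true, false, 7383, 9367⟩
   ⟨282, 295, 517, 526⟩ ⟨279, 294, 527, 538⟩ ⟨485, 502, 490, 510⟩
   ⟨0, 0, 0, 0⟩ ⟨0, 0, 0, 0⟩)
  (by decide +kernel)

/-- The pairs of the file. -/
def rAS6 : List Pq := [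
  ⟨9, 0, ⟨796, 861, 183, 258⟩, ⟨858, 894, 61, 116⟩, ⟨733, 940, 400, 615⟩⟩,
  ⟨9, 5, ⟨796, 836, 183, 234⟩, ⟨858, 894, 61, 116⟩, ⟨558, 607, 363, 411⟩⟩,
  ⟨9, 3, ⟨796, 860, 183, 240⟩, ⟨858, 894, 61, 116⟩, ⟨741, 878, 246, 380⟩⟩,
  ⟨9, 4, ⟨796, 858, 183, 251⟩, ⟨858, 894, 61, 116⟩, ⟨765, 881, 353, 499⟩⟩,
  ⟨9, 8, ⟨796, 850, 183, 218⟩, ⟨858, 894, 61, 116⟩, ⟨694, 729, 150, 183⟩⟩,
  ⟨9, 6, ⟨799, 862, 183, 225⟩, ⟨858, 894, 61, 116⟩, ⟨799, 862, 140, 225⟩⟩,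
  ⟨9, 7, ⟨796, 859, 183, 231⟩, ⟨858, 894, 61, 116⟩, ⟨778, 861, 202, 294⟩⟩,
  ⟨9, 11, ⟨805, 865, 183, 217⟩, ⟨858, 894, 61, 116⟩, ⟨794, 814, 73, 92⟩⟩,
  ⟨9, 9, ⟨805, 865, 183, 217⟩, ⟨858, 894, 61, 116⟩, ⟨843, 885, 77, 140⟩⟩,
  ⟨9, 10, ⟨799, 862, 183, 225⟩, ⟨858, 894, 61, 116⟩, ⟨816, 877, 117, 176⟩⟩,
  ⟨9, 14, ⟨811, 867, 183, 212⟩, ⟨858, 894, 61, 116⟩, ⟨846, 873, 29, 56⟩⟩,
  ⟨9, 12, ⟨811, 867, 183, 212⟩, ⟨858, 894, 61, 116⟩, ⟨867, 914, 38, 90⟩⟩,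
  ⟨9, 13, ⟨805, 865, 183, 217⟩, ⟨858, 894, 61, 116⟩, ⟨849, 904, 57, 112⟩⟩,
  ⟨9, 17, ⟨811, 867, 183, 212⟩, ⟨858, 894, 61, 116⟩, ⟨886, 909, 14, 39⟩⟩,
  ⟨9, 15, ⟨811, 867, 183, 212⟩, ⟨858, 894, 61, 116⟩, ⟨897, 934, 22, 62⟩⟩,
  ⟨9, 16, ⟨811, 867, 183, 212⟩, ⟨858, 894, 61, 116⟩, ⟨882, 927, 32, 77⟩⟩,
  ⟨9, 20, ⟨816, 867, 183, 210⟩, ⟨858, 894, 61, 116⟩, ⟨900, 1001, 0, 29⟩⟩,
  ⟨9, 18, ⟨816, 867, 183, 210⟩, ⟨858, 894, 61, 116⟩, ⟨908, 1001, 0, 50⟩⟩,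
  ⟨9, 19, ⟨816, 867, 183, 210⟩, ⟨858, 894, 61, 116⟩, ⟨895, 1001, 0, 61⟩⟩,
  ⟨10, 0, ⟨795, 861, 177, 255⟩, ⟨833, 885, 96, 144⟩, ⟨733, 940, 400, 615⟩⟩,
  ⟨10, 5, ⟨795, 836, 177, 234⟩, ⟨833, 885, 96, 144⟩, ⟨558, 607, 363, 411⟩⟩,
  ⟨10, 3, ⟨795, 860, 177, 240⟩, ⟨833, 885, 96, 144⟩, ⟨741, 878, 246, 380⟩⟩,
  ⟨10, 4, ⟨795, 858, 177, 251⟩, ⟨833, 885, 96, 144⟩, ⟨765, 881, 353, 499⟩⟩,
  ⟨10, 8, ⟨795, 850, 177, 218⟩, ⟨833, 885, 96, 144⟩, ⟨694, 729, 150, 183⟩⟩,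
  ⟨10, 6, ⟨799, 862, 177, 225⟩, ⟨833, 885, 96, 144⟩, ⟨799, 862, 140, 225⟩⟩,
  ⟨10, 7, ⟨795, 859, 177, 231⟩, ⟨833, 885, 96, 144⟩, ⟨778, 861, 202, 294⟩⟩,
  ⟨10, 11, ⟨805, 865, 177, 217⟩, ⟨833, 885, 96, 144⟩, ⟨794, 814, 73, 92⟩⟩,
  ⟨10, 9, ⟨805, 865, 177, 217⟩, ⟨833, 885, 96, 144⟩, ⟨843, 885, 77, 140⟩⟩,
  ⟨10, 10, ⟨799, 862, 177, 225⟩, ⟨833, 885, 96, 144⟩, ⟨816, 877, 117, 176⟩⟩,
  ⟨10, 14, ⟨811, 865, 177, 212⟩, ⟨833, 885, 96, 144⟩, ⟨846, 873, 29, 56⟩⟩,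
  ⟨10, 12, ⟨811, 865, 177, 212⟩, ⟨833, 885, 96, 144⟩, ⟨867, 914, 38, 90⟩⟩,
  ⟨10, 13, ⟨805, 865, 177, 217⟩, ⟨833, 885, 96, 144⟩, ⟨849, 904, 57, 112⟩⟩,
  ⟨10, 17, ⟨811, 865, 177, 212⟩, ⟨833, 885, 96, 144⟩, ⟨886, 909, 14, 39⟩⟩,
  ⟨10, 15, ⟨811, 865, 177, 212⟩, ⟨833, 885, 96, 144⟩, ⟨897, 934, 22, 62⟩⟩,
  ⟨10, 16, ⟨811, 865, 177, 212⟩, ⟨833, 885, 96, 144⟩, ⟨882, 927, 32, 77⟩⟩,
  ⟨10, 20, ⟨816, 865, 177, 210⟩, ⟨833, 885, 96, 144⟩, ⟨900, 1001, 0, 29⟩⟩,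
  ⟨10, 18, ⟨816, 865, 177, 210⟩, ⟨833, 885, 96, 144⟩, ⟨908, 1001, 0, 50⟩⟩,
  ⟨10, 19, ⟨816, 865, 177, 210⟩, ⟨833, 885, 96, 144⟩, ⟨895, 1001, 0, 61⟩⟩,
  ⟨14, 0, ⟨802, 861, 188, 262⟩, ⟨859, 886, 25, 50⟩, ⟨733, 940, 400, 615⟩⟩,
  ⟨14, 5, ⟨802, 836, 188, 234⟩, ⟨859, 886, 25, 50⟩, ⟨558, 607, 363, 411⟩⟩,
  ⟨14, 3, ⟨802, 860, 188, 240⟩, ⟨859, 886, 25, 50⟩, ⟨741, 878, 246, 380⟩⟩,
  ⟨14, 4, ⟨802, 858, 188, 251⟩, ⟨859, 886, 25, 50⟩, ⟨765, 881, 353, 499⟩⟩,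
  ⟨14, 8, ⟨802, 850, 188, 218⟩, ⟨859, 886, 25, 50⟩, ⟨694, 729, 150, 183⟩⟩,
  ⟨14, 6, ⟨802, 862, 188, 225⟩, ⟨859, 886, 25, 50⟩, ⟨799, 862, 140, 225⟩⟩,
  ⟨14, 7, ⟨802, 859, 188, 231⟩, ⟨859, 886, 25, 50⟩, ⟨778, 861, 202, 294⟩⟩,
  ⟨14, 11, ⟨805, 865, 188, 217⟩, ⟨859, 886, 25, 50⟩, ⟨794, 814, 73, 92⟩⟩,
  ⟨14, 9, ⟨805, 865, 188, 217⟩, ⟨859, 886, 25, 50⟩, ⟨843, 885, 77, 140⟩⟩,
  ⟨14, 10, ⟨802, 862, 188, 225⟩, ⟨859, 886, 25, 50⟩, ⟨816, 877, 117, 176⟩⟩,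
  ⟨14, 14, ⟨811, 868, 188, 212⟩, ⟨859, 886, 25, 50⟩, ⟨846, 873, 29, 56⟩⟩,
  ⟨14, 12, ⟨811, 868, 188, 212⟩, ⟨859, 886, 25, 50⟩, ⟨867, 914, 38, 90⟩⟩,
  ⟨14, 13, ⟨805, 865, 188, 217⟩, ⟨859, 886, 25, 50⟩, ⟨849, 904, 57, 112⟩⟩,
  ⟨14, 17, ⟨811, 868, 188, 212⟩, ⟨859, 886, 25, 50⟩, ⟨886, 909, 14, 39⟩⟩,
  ⟨14, 15, ⟨811, 868, 188, 212⟩, ⟨859, 886, 25, 50⟩, ⟨897, 934, 22, 62⟩⟩]

theorem rAS6_ok : ∀ p ∈ rAS6, Cr false true p :=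
  List.forall_mem_cons.2 ⟨qAS6_417,
  List.forall_mem_cons.2 ⟨qAS6_418,
  List.forall_mem_cons.2 ⟨qAS6_419,
  List.forall_mem_cons.2 ⟨qAS6_420,
  List.forall_mem_cons.2 ⟨qAS6_421,
  List.forall_mem_cons.2 ⟨qAS6_422,
  List.forall_mem_cons.2 ⟨qAS6_423,
  List.forall_mem_cons.2 ⟨qAS6_424,
  List.forall_mem_cons.2 ⟨qAS6_425,
  List.forall_mem_cons.2 ⟨qAS6_426,
  List.forall_mem_cons.2 ⟨qAS6_427,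
  List.forall_mem_cons.2 ⟨qAS6_428,
  List.forall_mem_cons.2 ⟨qAS6_429,
  List.forall_mem_cons.2 ⟨qAS6_430,
  List.forall_mem_cons.2 ⟨qAS6_431,
  List.forall_mem_cons.2 ⟨qAS6_432,
  List.forall_mem_cons.2 ⟨qAS6_433,
  List.forall_mem_cons.2 ⟨qAS6_434,
  List.forall_mem_cons.2 ⟨qAS6_435,
  List.forall_mem_cons.2 ⟨qAS6_436,
  List.forall_mem_cons.2 ⟨qAS6_437,
  List.forall_mem_cons.2 ⟨qAS6_438,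
  List.forall_mem_cons.2 ⟨qAS6_439,
  List.forall_mem_cons.2 ⟨qAS6_440,
  List.forall_mem_cons.2 ⟨qAS6_441,
  List.forall_mem_cons.2 ⟨qAS6_442,
  List.forall_mem_cons.2 ⟨qAS6_443,
  List.forall_mem_cons.2 ⟨qAS6_444,
  List.forall_mem_cons.2 ⟨qAS6_445,
  List.forall_mem_cons.2 ⟨qAS6_446,
  List.forall_mem_cons.2 ⟨qAS6_447,
  List.forall_mem_cons.2 ⟨qAS6_448,
  List.forall_mem_cons.2 ⟨qAS6_449,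
  List.forall_mem_cons.2 ⟨qAS6_450,
  List.forall_mem_cons.2 ⟨qAS6_451,
  List.forall_mem_cons.2 ⟨qAS6_452,
  List.forall_mem_cons.2 ⟨qAS6_453,
  List.forall_mem_cons.2 ⟨qAS6_454,
  List.forall_mem_cons.2 ⟨qAS6_455,
  List.forall_mem_cons.2 ⟨qAS6_456,
  List.forall_mem_cons.2 ⟨qAS6_457,
  List.forall_mem_cons.2 ⟨qAS6_458,
  List.forall_mem_cons.2 ⟨qAS6_459,
  List.forall_mem_cons.2 ⟨qAS6_460,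
  List.forall_mem_cons.2 ⟨qAS6_461,
  List.forall_mem_cons.2 ⟨qAS6_462,
  List.forall_mem_cons.2 ⟨qAS6_463,
  List.forall_mem_cons.2 ⟨qAS6_464,
  List.forall_mem_cons.2 ⟨qAS6_465,
  List.forall_mem_cons.2 ⟨qAS6_466,
  List.forall_mem_cons.2 ⟨qAS6_467,
  List.forall_mem_cons.2 ⟨qAS6_468,
  List.forall_mem_cons.2 ⟨qAS6_469,
  List.forall_mem_nil _⟩⟩⟩⟩⟩⟩⟩⟩⟩⟩⟩⟩⟩⟩⟩⟩⟩⟩⟩⟩⟩⟩⟩⟩⟩⟩⟩⟩⟩⟩⟩⟩⟩⟩⟩⟩⟩⟩⟩⟩⟩⟩⟩⟩⟩⟩⟩⟩⟩⟩⟩⟩⟩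

end Pool.Agent.S5.Z4
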