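import Pool.Agent.S5.Z4.Tre

/-!
# Inner nodes with four half twists: certificates
-/

set_option autoImplicit false

namespace Pool.Agent.S5.Z4

theorem qAS8_531 : Cl ⟨0, false, false, false⟩ ⟨0, true, true, false⟩
    ⟨802, 861, 188, 262⟩ ⟨903, 940, 16, 55⟩ ⟨733, 940, 400, 615⟩ := .mk
  (.S 4 836
   (.S 5 507
    (.L ⟨595, 29, true, false, 4707, 9406⟩ ⟨677, 78, true, false, 20374, 26757⟩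
     ⟨275, 292, 518, 537⟩ ⟨305, 331, 562, 588⟩ ⟨455, 497, 513, 555⟩
     ⟨0, 0, 0, 0⟩ ⟨0, 0, 0, 0⟩)
    (.S 4 784
     (.S 1 225
      (.L ⟨602, 24, true, false, 4707, 7991⟩ ⟨695, 96, true, false, 24583, 30516⟩
       ⟨276, 292, 518, 531⟩ ⟨314, 331, 574, 597⟩ ⟨451, 486, 524, 559⟩
       ⟨0, 0, 0, 0⟩ ⟨0, 0, 0, 0⟩)
      (.S 4 758
       (.L ⟨595, 29, true, false, 5982, 9406⟩ ⟨723, 102, true, false, 25870, 32257⟩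
        ⟨275, 291, 524, 537⟩ ⟨320, 334, 577, 598⟩ ⟨456, 489, 529, 561⟩
        ⟨0, 0, 0, 0⟩ ⟨0, 0, 0, 0⟩)
       (.L ⟨595, 29, true, false, 5982, 9406⟩ ⟨703, 101, true, false, 25597, 31872⟩
        ⟨275, 291, 524, 537⟩ ⟨317, 331, 577, 599⟩ ⟨454, 488, 527, 559⟩
        ⟨0, 0, 0, 0⟩ ⟨0, 0, 0, 0⟩)))
     (.S 1 225
      (.L ⟨602, 24, true, false, 4707, 7991⟩ ⟨658, 93, true, false, 23957, 29671⟩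
       ⟨276, 292, 518, 531⟩ ⟨308, 325, 575, 598⟩ ⟨447, 483, 520, 554⟩
       ⟨0, 0, 0, 0⟩ ⟨0, 0, 0, 0⟩)
      (.L ⟨595, 29, true, false, 5982, 9406⟩ ⟨666, 99, true, false, 25314, 31101⟩
       ⟨275, 291, 524, 537⟩ ⟨311, 329, 578, 601⟩ ⟨449, 486, 523, 559⟩
       ⟨0, 0, 0, 0⟩ ⟨0, 0, 0, 0⟩))))
   (.S 4 888
    (.S 0 831
     (.L ⟨615, 31, true, false, 4951, 9406⟩ ⟨664, 75, true, false, 19581, 29898⟩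
      ⟨280, 292, 519, 537⟩ ⟨302, 323, 565, 599⟩ ⟨445, 492, 512, 551⟩
      ⟨0, 0, 0, 0⟩ ⟨0, 0, 0, 0⟩)
     (.L ⟨595, 29, true, false, 4707, 9134⟩ ⟨643, 76, true, false, 19804, 30336⟩
      ⟨275, 288, 518, 537⟩ ⟨299, 321, 567, 602⟩ ⟨441, 491, 513, 554⟩
      ⟨0, 0, 0, 0⟩ ⟨0, 0, 0, 0⟩))
    (.S 0 831
     (.L ⟨615, 31, true, false, 4951, 9406⟩ ⟨633, 74, true, false, 19183, 29149⟩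
      ⟨280, 292, 519, 537⟩ ⟨296, 317, 566, 601⟩ ⟨441, 490, 508, 547⟩
      ⟨0, 0, 0, 0⟩ ⟨0, 0, 0, 0⟩)
     (.L ⟨595, 29, true, false, 4707, 9134⟩ ⟨612, 75, true, false, 19405, 29580⟩
      ⟨275, 288, 518, 537⟩ ⟨293, 315, 568, 604⟩ ⟨437, 488, 508, 550⟩
      ⟨0, 0, 0, 0⟩ ⟨0, 0, 0, 0⟩))))
  (by decide +kernel)

theorem qAS8_532 : Cl ⟨0, false, false, false⟩ ⟨2, true, false, true⟩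
    ⟨802, 836, 188, 234⟩ ⟨903, 940, 16, 55⟩ ⟨558, 607, 363, 411⟩ := .mk
  (.L ⟨617, 26, true, false, 4910, 8334⟩ ⟨903, 77, true, false, 20031, 23375⟩
   ⟨279, 292, 519, 533⟩ ⟨332, 344, 553, 565⟩ ⟨482, 505, 529, 550⟩
   ⟨0, 0, 0, 0⟩ ⟨515, 567, 653, 708⟩)
  (by decide +kernel)

theorem qAS8_533 : Cl ⟨0, false, false, false⟩ ⟨0, true, true, true⟩
    ⟨802, 860, 188, 240⟩ ⟨903, 940, 16, 55⟩ ⟨741, 878, 246, 380⟩ := .mk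
  (.L ⟨600, 26, true, false, 4715, 8563⟩ ⟨664, 56, true, false, 14570, 20901⟩
   ⟨276, 292, 518, 533⟩ ⟨295, 324, 546, 574⟩ ⟨464, 502, 504, 543⟩
   ⟨0, 0, 0, 0⟩ ⟨0, 0, 0, 0⟩)
  (by decide +kernel)

theorem qAS8_534 : Cl ⟨0, false, false, false⟩ ⟨0, true, true, true⟩
    ⟨802, 858, 188, 251⟩ ⟨903, 940, 16, 55⟩ ⟨765, 881, 353, 499⟩ := .mk
  (.L ⟨599, 28, true, false, 4731, 8984⟩ ⟨655, 70, true, false, 18390, 25576⟩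
   ⟨276, 292, 518, 535⟩ ⟨299, 326, 558, 588⟩ ⟨453, 497, 508, 551⟩
   ⟨0, 0, 0, 0⟩ ⟨0, 0, 0, 0⟩)
  (by decide +kernel)

theorem qAS8_535 : Cl ⟨0, false, false, false⟩ ⟨0, true, false, false⟩
    ⟨802, 850, 188, 218⟩ ⟨903, 940, 16, 55⟩ ⟨694, 729, 150, 183⟩ := .mk
  (.L ⟨610, 24, true, false, 4796, 7725⟩ ⟨785, 43, true, false, 11044, 13175⟩
   ⟨277, 292, 518, 530⟩ ⟨311, 322, 534, 543⟩ ⟨489, 507, 511, 531⟩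
   ⟨0, 0, 0, 0⟩ ⟨0, 0, 0, 0⟩)
  (by decide +kernel)

theorem qAS8_536 : Cl ⟨0, false, false, false⟩ ⟨0, true, true, true⟩
    ⟨802, 862, 188, 225⟩ ⟨903, 940, 16, 55⟩ ⟨799, 862, 140, 225⟩ := .mk
  (.L ⟨601, 24, true, false, 4699, 7991⟩ ⟨673, 42, true, false, 10840, 14999⟩
   ⟨276, 292, 518, 531⟩ ⟨293, 312, 536, 555⟩ ⟨477, 504, 501, 529⟩
   ⟨0, 0, 0, 0⟩ ⟨0, 0, 0, 0⟩)
  (by decide +kernel)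

theorem qAS8_537 : Cl ⟨0, false, false, false⟩ ⟨0, true, true, true⟩
    ⟨802, 859, 188, 231⟩ ⟨903, 940, 16, 55⟩ ⟨778, 861, 202, 294⟩ := .mk
  (.L ⟨602, 25, true, false, 4723, 8220⟩ ⟨677, 50, true, false, 12955, 17605⟩
   ⟨276, 292, 518, 532⟩ ⟨296, 317, 542, 563⟩ ⟨472, 502, 504, 535⟩
   ⟨0, 0, 0, 0⟩ ⟨0, 0, 0, 0⟩)
  (by decide +kernel)

theorem qAS8_538 : Cl ⟨0, false, false, false⟩ ⟨0, true, false, false⟩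
    ⟨805, 865, 188, 217⟩ ⟨903, 940, 16, 55⟩ ⟨794, 814, 73, 92⟩ := .mk
  (.L ⟨601, 23, true, false, 4674, 7664⟩ ⟨702, 32, true, false, 8558, 9991⟩
   ⟨275, 291, 518, 530⟩ ⟨296, 307, 529, 536⟩ ⟨490, 506, 502, 522⟩
   ⟨0, 0, 0, 0⟩ ⟨0, 0, 0, 0⟩)
  (by decide +kernel)

theorem qAS8_539 : Cl ⟨0, false, false, false⟩ ⟨0, true, false, false⟩
    ⟨805, 865, 188, 217⟩ ⟨903, 940, 16, 55⟩ ⟨843, 885, 77, 140⟩ := .mk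
  (.L ⟨601, 23, true, false, 4674, 7664⟩ ⟨653, 34, true, false, 8875, 11876⟩
   ⟨275, 291, 518, 530⟩ ⟨288, 304, 531, 545⟩ ⟨483, 504, 498, 522⟩
   ⟨0, 0, 0, 0⟩ ⟨0, 0, 0, 0⟩)
  (by decide +kernel)

theorem qAS8_540 : Cl ⟨0, false, false, false⟩ ⟨0, true, false, false⟩
    ⟨802, 862, 188, 225⟩ ⟨903, 940, 16, 55⟩ ⟨816, 877, 117, 176⟩ := .mk
  (.L ⟨601, 24, true, false, 4699, 7991⟩ ⟨663, 39, true, false, 10105, 13344⟩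
   ⟨276, 292, 518, 531⟩ ⟨291, 309, 534, 550⟩ ⟨480, 504, 499, 526⟩
   ⟨0, 0, 0, 0⟩ ⟨0, 0, 0, 0⟩)
  (by decide +kernel)

theorem qAS8_541 : Cl ⟨0, false, false, false⟩ ⟨0, true, false, false⟩
    ⟨811, 868, 188, 212⟩ ⟨903, 940, 16, 55⟩ ⟨846, 873, 29, 56⟩ := .mk
  (.L ⟨600, 22, true, false, 4650, 7429⟩ ⟨655, 27, true, false, 7324, 8861⟩
   ⟨275, 290, 518, 529⟩ ⟨287, 299, 526, 534⟩ ⟨490, 506, 497, 516⟩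
   ⟨0, 0, 0, 0⟩ ⟨0, 0, 0, 0⟩)
  (by decide +kernel)

theorem qAS8_542 : Cl ⟨0, false, false, false⟩ ⟨0, true, false, false⟩
    ⟨811, 868, 188, 212⟩ ⟨903, 940, 16, 55⟩ ⟨867, 914, 38, 90⟩ := .mk
  (.L ⟨600, 22, true, false, 4650, 7429⟩ ⟨630, 29, true, false, 7717, 10160⟩
   ⟨275, 290, 518, 529⟩ ⟨282, 299, 528, 540⟩ ⟨486, 504, 495, 518⟩
   ⟨0, 0, 0, 0⟩ ⟨0, 0, 0, 0⟩)
  (by decide +kernel)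

theorem qAS8_543 : Cl ⟨0, false, false, false⟩ ⟨0, true, false, false⟩
    ⟨805, 865, 188, 217⟩ ⟨903, 940, 16, 55⟩ ⟨849, 904, 57, 112⟩ := .mk
  (.L ⟨601, 23, true, false, 4674, 7664⟩ ⟨640, 32, true, false, 8261, 11017⟩
   ⟨275, 291, 518, 530⟩ ⟨285, 302, 529, 543⟩ ⟨484, 505, 496, 520⟩
   ⟨0, 0, 0, 0⟩ ⟨0, 0, 0, 0⟩)
  (by decide +kernel)

theorem qAS8_544 : Cl ⟨0, false, false, false⟩ ⟨0, true, false, false⟩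
    ⟨811, 868, 188, 212⟩ ⟨903, 940, 16, 55⟩ ⟨886, 909, 14, 39⟩ := .mk
  (.L ⟨600, 22, true, false, 4650, 7429⟩ ⟨630, 26, true, false, 7077, 8506⟩
   ⟨275, 290, 518, 529⟩ ⟨282, 294, 526, 534⟩ ⟨489, 505, 494, 513⟩
   ⟨0, 0, 0, 0⟩ ⟨0, 0, 0, 0⟩)
  (by decide +kernel)

theorem qAS8_545 : Cl ⟨0, false, false, false⟩ ⟨0, true, false, false⟩
    ⟨811, 868, 188, 212⟩ ⟨903, 940, 16, 55⟩ ⟨897, 934, 22, 62⟩ := .mk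
  (.L ⟨600, 22, true, false, 4650, 7429⟩ ⟨616, 28, true, false, 7383, 9367⟩
   ⟨275, 290, 518, 529⟩ ⟨279, 294, 527, 538⟩ ⟨486, 504, 493, 514⟩
   ⟨0, 0, 0, 0⟩ ⟨0, 0, 0, 0⟩)
  (by decide +kernel)

theorem qAS8_546 : Cl ⟨0, false, false, false⟩ ⟨0, true, false, false⟩
    ⟨811, 868, 188, 212⟩ ⟨903, 940, 16, 55⟩ ⟨882, 927, 32, 77⟩ := .mk
  (.L ⟨600, 22, true, false, 4650, 7429⟩ ⟨621, 29, true, false, 7608, 9804⟩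
   ⟨275, 290, 518, 529⟩ ⟨281, 296, 528, 539⟩ ⟨486, 504, 494, 516⟩
   ⟨0, 0, 0, 0⟩ ⟨0, 0, 0, 0⟩)
  (by decide +kernel)

theorem qAS8_547 : Cl ⟨0, false, false, false⟩ ⟨0, true, false, false⟩
    ⟨816, 869, 188, 210⟩ ⟨903, 940, 16, 55⟩ ⟨900, 1001, 0, 29⟩ := .mk
  (.L ⟨599, 22, true, false, 4641, 7316⟩ ⟨577, 27, true, false, 6373, 8668⟩
   ⟨275, 290, 518, 529⟩ ⟨271, 292, 525, 537⟩ ⟨486, 505, 488, 513⟩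
   ⟨0, 0, 0, 0⟩ ⟨0, 0, 0, 0⟩)
  (by decide +kernel)

theorem qAS8_548 : Cl ⟨0, false, false, false⟩ ⟨0, true, false, false⟩
    ⟨816, 869, 188, 210⟩ ⟨903, 940, 16, 55⟩ ⟨908, 1001, 0, 50⟩ := .mk
  (.L ⟨599, 22, true, false, 4641, 7316⟩ ⟨577, 27, true, false, 6423, 9274⟩
   ⟨275, 290, 518, 529⟩ ⟨271, 292, 525, 539⟩ ⟨485, 505, 488, 513⟩
   ⟨0, 0, 0, 0⟩ ⟨0, 0, 0, 0⟩)
  (by decide +kernel)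

theorem qAS8_549 : Cl ⟨0, false, false, false⟩ ⟨0, true, false, false⟩
    ⟨816, 869, 188, 210⟩ ⟨903, 940, 16, 55⟩ ⟨895, 1001, 0, 61⟩ := .mk
  (.L ⟨599, 22, true, false, 4641, 7316⟩ ⟨577, 27, true, false, 6342, 9593⟩
   ⟨275, 290, 518, 529⟩ ⟨271, 294, 524, 541⟩ ⟨484, 506, 488, 515⟩
   ⟨0, 0, 0, 0⟩ ⟨0, 0, 0, 0⟩)
  (by decide +kernel)

theorem qAS8_550 : Cl ⟨0, false, false, false⟩ ⟨0, true, true, false⟩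
    ⟨802, 861, 188, 262⟩ ⟨891, 930, 25, 64⟩ ⟨733, 940, 400, 615⟩ := .mk
  (.S 4 836
   (.S 5 507
    (.L ⟨599, 28, true, false, 4322, 9053⟩ ⟨677, 78, true, false, 20374, 26757⟩
     ⟨276, 292, 517, 535⟩ ⟨305, 331, 562, 588⟩ ⟨454, 496, 513, 554⟩
     ⟨0, 0, 0, 0⟩ ⟨0, 0, 0, 0⟩)
    (.S 4 784
     (.S 1 225
      (.L ⟨606, 23, true, false, 4322, 7652⟩ ⟨695, 96, true, false, 24583, 30516⟩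
       ⟨276, 292, 517, 530⟩ ⟨314, 331, 574, 597⟩ ⟨450, 486, 524, 559⟩
       ⟨0, 0, 0, 0⟩ ⟨0, 0, 0, 0⟩)
      (.S 4 758
       (.L ⟨599, 28, true, false, 5581, 9053⟩ ⟨723, 102, true, false, 25870, 32257⟩
        ⟨276, 292, 522, 535⟩ ⟨320, 334, 577, 598⟩ ⟨455, 488, 529, 561⟩
        ⟨0, 0, 0, 0⟩ ⟨0, 0, 0, 0⟩)
       (.L ⟨599, 28, true, false, 5581, 9053⟩ ⟨703, 101, true, false, 25597, 31872⟩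
        ⟨276, 292, 522, 535⟩ ⟨317, 331, 577, 599⟩ ⟨452, 487, 526, 559⟩
        ⟨0, 0, 0, 0⟩ ⟨0, 0, 0, 0⟩)))
     (.S 1 225
      (.L ⟨606, 23, true, false, 4322, 7652⟩ ⟨658, 93, true, false, 23957, 29671⟩
       ⟨276, 292, 517, 530⟩ ⟨308, 325, 575, 598⟩ ⟨447, 483, 520, 555⟩
       ⟨0, 0, 0, 0⟩ ⟨0, 0, 0, 0⟩)
      (.L ⟨599, 28, true, false, 5581, 9053⟩ ⟨666, 99, true, false, 25314, 31101⟩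
       ⟨276, 292, 522, 535⟩ ⟨311, 329, 578, 601⟩ ⟨448, 485, 522, 559⟩
       ⟨0, 0, 0, 0⟩ ⟨0, 0, 0, 0⟩))))
   (.S 4 888
    (.L ⟨599, 28, true, false, 4322, 9053⟩ ⟨643, 76, true, false, 19581, 30336⟩
     ⟨276, 292, 517, 535⟩ ⟨299, 323, 565, 602⟩ ⟨440, 492, 510, 555⟩
     ⟨0, 0, 0, 0⟩ ⟨0, 0, 0, 0⟩)
    (.S 0 831
     (.L ⟨619, 29, true, false, 4576, 9053⟩ ⟨633, 74, true, false, 19183, 29149⟩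
      ⟨280, 292, 517, 535⟩ ⟨296, 317, 566, 601⟩ ⟨440, 488, 508, 548⟩
      ⟨0, 0, 0, 0⟩ ⟨0, 0, 0, 0⟩)
     (.L ⟨599, 28, true, false, 4322, 8771⟩ ⟨612, 75, true, false, 19405, 29580⟩
      ⟨276, 288, 517, 535⟩ ⟨293, 315, 568, 604⟩ ⟨437, 487, 509, 550⟩
      ⟨0, 0, 0, 0⟩ ⟨0, 0, 0, 0⟩))))
  (by decide +kernel)

theorem qAS8_551 : Cl ⟨0, false, false, false⟩ ⟨2, true, false, true⟩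
    ⟨802, 836, 188, 234⟩ ⟨891, 930, 25, 64⟩ ⟨558, 607, 363, 411⟩ := .mk
  (.L ⟨621, 25, true, false, 4533, 7992⟩ ⟨903, 77, true, false, 20031, 23375⟩
   ⟨280, 292, 517, 531⟩ ⟨332, 344, 553, 565⟩ ⟨481, 503, 529, 550⟩
   ⟨0, 0, 0, 0⟩ ⟨515, 567, 653, 708⟩)
  (by decide +kernel)

theorem qAS8_552 : Cl ⟨0, false, false, false⟩ ⟨0, true, true, true⟩
    ⟨802, 860, 188, 240⟩ ⟨891, 930, 25, 64⟩ ⟨741, 878, 246, 380⟩ := .mk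
  (.L ⟨604, 25, true, false, 4330, 8219⟩ ⟨664, 56, true, false, 14570, 20901⟩
   ⟨276, 292, 517, 532⟩ ⟨295, 324, 546, 574⟩ ⟨463, 502, 504, 543⟩
   ⟨0, 0, 0, 0⟩ ⟨0, 0, 0, 0⟩)
  (by decide +kernel)

theorem qAS8_553 : Cl ⟨0, false, false, false⟩ ⟨0, true, true, true⟩
    ⟨802, 858, 188, 251⟩ ⟨891, 930, 25, 64⟩ ⟨765, 881, 353, 499⟩ := .mk
  (.L ⟨603, 27, true, false, 4347, 8636⟩ ⟨655, 70, true, false, 18390, 25576⟩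
   ⟨276, 292, 517, 534⟩ ⟨299, 326, 558, 588⟩ ⟨453, 496, 509, 551⟩
   ⟨0, 0, 0, 0⟩ ⟨0, 0, 0, 0⟩)
  (by decide +kernel)

theorem qAS8_554 : Cl ⟨0, false, false, false⟩ ⟨0, true, false, false⟩
    ⟨802, 850, 188, 218⟩ ⟨891, 930, 25, 64⟩ ⟨694, 729, 150, 183⟩ := .mk
  (.L ⟨614, 22, true, false, 4415, 7389⟩ ⟨785, 43, true, false, 11044, 13175⟩
   ⟨278, 292, 517, 529⟩ ⟨311, 322, 534, 543⟩ ⟨488, 506, 511, 530⟩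
   ⟨0, 0, 0, 0⟩ ⟨0, 0, 0, 0⟩)
  (by decide +kernel)

theorem qAS8_555 : Cl ⟨0, false, false, false⟩ ⟨0, true, true, true⟩
    ⟨802, 862, 188, 225⟩ ⟨891, 930, 25, 64⟩ ⟨799, 862, 140, 225⟩ := .mk
  (.L ⟨605, 23, true, false, 4314, 7652⟩ ⟨673, 42, true, false, 10840, 14999⟩
   ⟨276, 292, 517, 530⟩ ⟨293, 312, 536, 555⟩ ⟨477, 503, 501, 529⟩
   ⟨0, 0, 0, 0⟩ ⟨0, 0, 0, 0⟩)
  (by decide +kernel)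

theorem qAS8_556 : Cl ⟨0, false, false, false⟩ ⟨0, true, true, true⟩
    ⟨802, 859, 188, 231⟩ ⟨891, 930, 25, 64⟩ ⟨778, 861, 202, 294⟩ := .mk
  (.L ⟨606, 24, true, false, 4339, 7879⟩ ⟨677, 50, true, false, 12955, 17605⟩
   ⟨276, 292, 517, 531⟩ ⟨296, 317, 542, 563⟩ ⟨472, 501, 504, 535⟩
   ⟨0, 0, 0, 0⟩ ⟨0, 0, 0, 0⟩)
  (by decide +kernel)

theorem qAS8_557 : Cl ⟨0, false, false, false⟩ ⟨0, true, false, false⟩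
    ⟨805, 865, 188, 217⟩ ⟨891, 930, 25, 64⟩ ⟨794, 814, 73, 92⟩ := .mk
  (.L ⟨605, 22, true, false, 4288, 7327⟩ ⟨702, 32, true, false, 8558, 9991⟩
   ⟨276, 292, 517, 529⟩ ⟨296, 307, 529, 536⟩ ⟨489, 505, 502, 521⟩
   ⟨0, 0, 0, 0⟩ ⟨0, 0, 0, 0⟩)
  (by decide +kernel)

theorem qAS8_558 : Cl ⟨0, false, false, false⟩ ⟨0, true, false, false⟩
    ⟨805, 865, 188, 217⟩ ⟨891, 930, 25, 64⟩ ⟨843, 885, 77, 140⟩ := .mk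
  (.L ⟨605, 22, true, false, 4288, 7327⟩ ⟨653, 34, true, false, 8875, 11876⟩
   ⟨276, 292, 517, 529⟩ ⟨288, 304, 531, 545⟩ ⟨482, 504, 497, 521⟩
   ⟨0, 0, 0, 0⟩ ⟨0, 0, 0, 0⟩)
  (by decide +kernel)

theorem qAS8_559 : Cl ⟨0, false, false, false⟩ ⟨0, true, false, false⟩
    ⟨802, 862, 188, 225⟩ ⟨891, 930, 25, 64⟩ ⟨816, 877, 117, 176⟩ := .mk
  (.L ⟨605, 23, true, false, 4314, 7652⟩ ⟨663, 39, true, false, 10105, 13344⟩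
   ⟨276, 292, 517, 530⟩ ⟨291, 309, 534, 550⟩ ⟨480, 503, 500, 526⟩
   ⟨0, 0, 0, 0⟩ ⟨0, 0, 0, 0⟩)
  (by decide +kernel)

theorem qAS8_560 : Cl ⟨0, false, false, false⟩ ⟨0, true, false, false⟩
    ⟨811, 868, 188, 212⟩ ⟨891, 930, 25, 64⟩ ⟨846, 873, 29, 56⟩ := .mk
  (.L ⟨604, 21, true, false, 4263, 7092⟩ ⟨655, 27, true, false, 7324, 8861⟩
   ⟨275, 291, 517, 528⟩ ⟨287, 299, 526, 534⟩ ⟨489, 505, 497, 517⟩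
   ⟨0, 0, 0, 0⟩ ⟨0, 0, 0, 0⟩)
  (by decide +kernel)

theorem qAS8_561 : Cl ⟨0, false, false, false⟩ ⟨0, true, false, false⟩
    ⟨811, 868, 188, 212⟩ ⟨891, 930, 25, 64⟩ ⟨867, 914, 38, 90⟩ := .mk
  (.L ⟨604, 21, true, false, 4263, 7092⟩ ⟨630, 29, true, false, 7717, 10160⟩
   ⟨275, 291, 517, 528⟩ ⟨282, 299, 528, 540⟩ ⟨485, 504, 494, 518⟩
   ⟨0, 0, 0, 0⟩ ⟨0, 0, 0, 0⟩)
  (by decide +kernel)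

theorem qAS8_562 : Cl ⟨0, false, false, false⟩ ⟨0, true, false, false⟩
    ⟨805, 865, 188, 217⟩ ⟨891, 930, 25, 64⟩ ⟨849, 904, 57, 112⟩ := .mk
  (.L ⟨605, 22, true, false, 4288, 7327⟩ ⟨640, 32, true, false, 8261, 11017⟩
   ⟨276, 292, 517, 529⟩ ⟨285, 302, 529, 543⟩ ⟨483, 504, 495, 520⟩
   ⟨0, 0, 0, 0⟩ ⟨0, 0, 0, 0⟩)
  (by decide +kernel)

theorem qAS8_563 : Cl ⟨0, false, false, false⟩ ⟨0, true, false, false⟩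
    ⟨811, 868, 188, 212⟩ ⟨891, 930, 25, 64⟩ ⟨886, 909, 14, 39⟩ := .mk
  (.L ⟨604, 21, true, false, 4263, 7092⟩ ⟨630, 26, true, false, 7077, 8506⟩
   ⟨275, 291, 517, 528⟩ ⟨282, 294, 526, 534⟩ ⟨489, 504, 494, 514⟩
   ⟨0, 0, 0, 0⟩ ⟨0, 0, 0, 0⟩)
  (by decide +kernel)

theorem qAS8_564 : Cl ⟨0, false, false, false⟩ ⟨0, true, false, false⟩
    ⟨811, 868, 188, 212⟩ ⟨891, 930, 25, 64⟩ ⟨897, 934, 22, 62⟩ := .mk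
  (.L ⟨604, 21, true, false, 4263, 7092⟩ ⟨616, 28, true, false, 7383, 9367⟩
   ⟨275, 291, 517, 528⟩ ⟨279, 294, 527, 538⟩ ⟨486, 504, 492, 514⟩
   ⟨0, 0, 0, 0⟩ ⟨0, 0, 0, 0⟩)
  (by decide +kernel)

theorem qAS8_565 : Cl ⟨0, false, false, false⟩ ⟨0, true, false, false⟩
    ⟨811, 868, 188, 212⟩ ⟨891, 930, 25, 64⟩ ⟨882, 927, 32, 77⟩ := .mk
  (.L ⟨604, 21, true, false, 4263, 7092⟩ ⟨621, 29, true, false, 7608, 9804⟩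
   ⟨275, 291, 517, 528⟩ ⟨281, 296, 528, 539⟩ ⟨485, 503, 494, 516⟩
   ⟨0, 0, 0, 0⟩ ⟨0, 0, 0, 0⟩)
  (by decide +kernel)

theorem qAS8_566 : Cl ⟨0, false, false, false⟩ ⟨0, true, false, false⟩
    ⟨816, 869, 188, 210⟩ ⟨891, 930, 25, 64⟩ ⟨900, 1001, 0, 29⟩ := .mk
  (.L ⟨603, 20, true, false, 4254, 6978⟩ ⟨577, 27, true, false, 6373, 8668⟩
   ⟨275, 291, 516, 528⟩ ⟨271, 292, 525, 537⟩ ⟨485, 504, 488, 513⟩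
   ⟨0, 0, 0, 0⟩ ⟨0, 0, 0, 0⟩)
  (by decide +kernel)

theorem qAS8_567 : Cl ⟨0, false, false, false⟩ ⟨0, true, false, false⟩
    ⟨816, 869, 188, 210⟩ ⟨891, 930, 25, 64⟩ ⟨908, 1001, 0, 50⟩ := .mk
  (.L ⟨603, 20, true, false, 4254, 6978⟩ ⟨577, 27, true, false, 6423, 9274⟩
   ⟨275, 291, 516, 528⟩ ⟨271, 292, 525, 539⟩ ⟨484, 504, 488, 513⟩
   ⟨0, 0, 0, 0⟩ ⟨0, 0, 0, 0⟩)
  (by decide +kernel)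

theorem qAS8_568 : Cl ⟨0, false, false, false⟩ ⟨0, true, false, false⟩
    ⟨816, 869, 188, 210⟩ ⟨891, 930, 25, 64⟩ ⟨895, 1001, 0, 61⟩ := .mk
  (.L ⟨603, 20, true, false, 4254, 6978⟩ ⟨577, 27, true, false, 6342, 9593⟩
   ⟨275, 291, 516, 528⟩ ⟨271, 294, 524, 541⟩ ⟨482, 505, 487, 515⟩
   ⟨0, 0, 0, 0⟩ ⟨0, 0, 0, 0⟩)
  (by decide +kernel)

theorem qAS8_569 : Cl ⟨0, false, false, false⟩ ⟨0, true, true, false⟩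
    ⟨807, 861, 191, 264⟩ ⟨916, 1001, 0, 27⟩ ⟨733, 940, 400, 615⟩ := .mk
  (.S 4 836
   (.S 5 507
    (.L ⟨569, 35, true, false, 5787, 9957⟩ ⟨678, 78, true, false, 20512, 26831⟩
     ⟨270, 290, 523, 543⟩ ⟨305, 330, 563, 588⟩ ⟨458, 500, 514, 556⟩
     ⟨0, 0, 0, 0⟩ ⟨0, 0, 0, 0⟩)
    (.S 4 784
     (.S 1 227
      (.L ⟨574, 30, true, false, 5787, 8538⟩ ⟨696, 96, true, false, 24748, 30589⟩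
       ⟨270, 290, 523, 537⟩ ⟨314, 331, 575, 597⟩ ⟨454, 490, 524, 561⟩
       ⟨0, 0, 0, 0⟩ ⟨0, 0, 0, 0⟩)
      (.S 0 834
       (.L ⟨593, 31, true, false, 7279, 10196⟩ ⟨721, 100, true, false, 25995, 31548⟩
        ⟨275, 290, 528, 542⟩ ⟨319, 334, 577, 596⟩ ⟨460, 492, 528, 559⟩
        ⟨0, 0, 0, 0⟩ ⟨0, 0, 0, 0⟩)
       (.L ⟨569, 35, true, false, 7047, 9957⟩ ⟨704, 101, true, false, 26287, 31946⟩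
        ⟨270, 286, 528, 543⟩ ⟨317, 333, 579, 599⟩ ⟨457, 491, 529, 563⟩
        ⟨0, 0, 0, 0⟩ ⟨0, 0, 0, 0⟩)))
     (.S 0 834
      (.L ⟨593, 31, true, false, 5984, 10196⟩ ⟨676, 93, true, false, 24127, 30783⟩
       ⟨275, 290, 523, 542⟩ ⟨310, 328, 576, 598⟩ ⟨451, 490, 521, 557⟩
       ⟨0, 0, 0, 0⟩ ⟨0, 0, 0, 0⟩)
      (.L ⟨569, 35, true, false, 5787, 9957⟩ ⟨659, 94, true, false, 24456, 31180⟩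
       ⟨270, 286, 523, 543⟩ ⟨308, 327, 578, 601⟩ ⟨448, 490, 522, 560⟩
       ⟨0, 0, 0, 0⟩ ⟨0, 0, 0, 0⟩))))
   (.S 4 888
    (.S 0 834
     (.L ⟨593, 31, true, false, 5984, 10196⟩ ⟨662, 76, true, false, 19730, 30026⟩
      ⟨275, 290, 523, 542⟩ ⟨302, 323, 565, 600⟩ ⟨446, 496, 512, 554⟩
      ⟨0, 0, 0, 0⟩ ⟨0, 0, 0, 0⟩)
     (.L ⟨569, 35, true, false, 5787, 9957⟩ ⟨644, 77, true, false, 19934, 30418⟩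
      ⟨270, 286, 523, 543⟩ ⟨299, 321, 567, 602⟩ ⟨444, 495, 513, 556⟩
      ⟨0, 0, 0, 0⟩ ⟨0, 0, 0, 0⟩))
    (.S 0 834
     (.L ⟨593, 31, true, false, 5984, 10196⟩ ⟨631, 74, true, false, 19337, 29280⟩
      ⟨275, 290, 523, 542⟩ ⟨296, 317, 566, 601⟩ ⟨444, 493, 508, 549⟩
      ⟨0, 0, 0, 0⟩ ⟨0, 0, 0, 0⟩)
     (.L ⟨569, 35, true, false, 5787, 9957⟩ ⟨613, 75, true, false, 19541, 29666⟩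
      ⟨270, 286, 523, 543⟩ ⟨293, 315, 568, 604⟩ ⟨440, 492, 509, 552⟩
      ⟨0, 0, 0, 0⟩ ⟨0, 0, 0, 0⟩))))
  (by decide +kernel)

theorem qAS8_570 : Cl ⟨0, false, false, false⟩ ⟨2, true, false, true⟩
    ⟨807, 836, 191, 234⟩ ⟨916, 1001, 0, 27⟩ ⟨558, 607, 363, 411⟩ := .mk
  (.L ⟨590, 32, true, false, 5969, 9000⟩ ⟨904, 78, true, false, 20141, 23375⟩
   ⟨274, 290, 523, 538⟩ ⟨333, 344, 554, 565⟩ ⟨485, 507, 530, 553⟩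
   ⟨0, 0, 0, 0⟩ ⟨517, 567, 653, 706⟩)
  (by decide +kernel)

theorem qAS8_571 : Cl ⟨0, false, false, false⟩ ⟨0, true, true, true⟩
    ⟨807, 860, 191, 240⟩ ⟨916, 1001, 0, 27⟩ ⟨741, 878, 246, 380⟩ := .mk
  (.L ⟨573, 29, true, false, 5795, 9043⟩ ⟨664, 56, true, false, 14676, 20901⟩
   ⟨271, 290, 523, 539⟩ ⟨296, 324, 546, 574⟩ ⟨467, 506, 504, 545⟩
   ⟨0, 0, 0, 0⟩ ⟨0, 0, 0, 0⟩)
  (by decide +kernel)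

theorem qAS8_572 : Cl ⟨0, false, false, false⟩ ⟨0, true, true, true⟩
    ⟨807, 858, 191, 251⟩ ⟨916, 1001, 0, 27⟩ ⟨765, 881, 353, 499⟩ := .mk
  (.L ⟨576, 33, true, false, 5809, 9482⟩ ⟨656, 70, true, false, 18521, 25576⟩
   ⟨271, 290, 523, 541⟩ ⟨299, 326, 558, 588⟩ ⟨456, 501, 509, 553⟩
   ⟨0, 0, 0, 0⟩ ⟨0, 0, 0, 0⟩)
  (by decide +kernel)

theorem qAS8_573 : Cl ⟨0, false, false, false⟩ ⟨0, true, false, false⟩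
    ⟨807, 850, 191, 218⟩ ⟨916, 1001, 0, 27⟩ ⟨694, 729, 150, 183⟩ := .mk
  (.L ⟨583, 29, true, false, 5867, 8274⟩ ⟨785, 43, true, false, 11127, 13175⟩
   ⟨272, 290, 523, 535⟩ ⟨311, 321, 534, 543⟩ ⟨492, 510, 512, 533⟩
   ⟨0, 0, 0, 0⟩ ⟨0, 0, 0, 0⟩)
  (by decide +kernel)

theorem qAS8_574 : Cl ⟨0, false, false, false⟩ ⟨0, true, true, true⟩
    ⟨807, 862, 191, 225⟩ ⟨916, 1001, 0, 27⟩ ⟨799, 862, 140, 225⟩ := .mk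
  (.L ⟨574, 30, true, false, 5780, 8454⟩ ⟨673, 42, true, false, 10932, 14999⟩
   ⟨270, 290, 523, 536⟩ ⟨293, 312, 536, 555⟩ ⟨480, 507, 501, 532⟩
   ⟨0, 0, 0, 0⟩ ⟨0, 0, 0, 0⟩)
  (by decide +kernel)

theorem qAS8_575 : Cl ⟨0, false, false, false⟩ ⟨0, true, true, true⟩
    ⟨807, 859, 191, 231⟩ ⟨916, 1001, 0, 27⟩ ⟨778, 861, 202, 294⟩ := .mk
  (.L ⟨575, 31, true, false, 5802, 8706⟩ ⟨677, 50, true, false, 13057, 17605⟩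
   ⟨271, 290, 523, 537⟩ ⟨296, 316, 542, 563⟩ ⟨475, 505, 504, 536⟩
   ⟨0, 0, 0, 0⟩ ⟨0, 0, 0, 0⟩)
  (by decide +kernel)

theorem qAS8_576 : Cl ⟨0, false, false, false⟩ ⟨0, true, false, false⟩
    ⟨807, 865, 191, 217⟩ ⟨916, 1001, 0, 27⟩ ⟨794, 814, 73, 92⟩ := .mk
  (.L ⟨573, 28, true, false, 5758, 8128⟩ ⟨701, 33, true, false, 8649, 9991⟩
   ⟨270, 290, 523, 535⟩ ⟨296, 307, 529, 536⟩ ⟨493, 509, 502, 524⟩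
   ⟨0, 0, 0, 0⟩ ⟨0, 0, 0, 0⟩)
  (by decide +kernel)

theorem qAS8_577 : Cl ⟨0, false, false, false⟩ ⟨0, true, false, false⟩
    ⟨807, 865, 191, 217⟩ ⟨916, 1001, 0, 27⟩ ⟨843, 885, 77, 140⟩ := .mk
  (.L ⟨573, 28, true, false, 5758, 8128⟩ ⟨653, 34, true, false, 8972, 11876⟩
   ⟨270, 290, 523, 535⟩ ⟨288, 304, 531, 545⟩ ⟨486, 508, 498, 524⟩
   ⟨0, 0, 0, 0⟩ ⟨0, 0, 0, 0⟩)
  (by decide +kernel)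

theorem qAS8_578 : Cl ⟨0, false, false, false⟩ ⟨0, true, false, false⟩
    ⟨807, 862, 191, 225⟩ ⟨916, 1001, 0, 27⟩ ⟨816, 877, 117, 176⟩ := .mk
  (.L ⟨574, 30, true, false, 5780, 8454⟩ ⟨662, 39, true, false, 10195, 13344⟩
   ⟨270, 290, 523, 536⟩ ⟨291, 308, 535, 550⟩ ⟨483, 507, 500, 528⟩
   ⟨0, 0, 0, 0⟩ ⟨0, 0, 0, 0⟩)
  (by decide +kernel)

theorem qAS8_579 : Cl ⟨0, false, false, false⟩ ⟨0, true, false, false⟩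
    ⟨811, 868, 191, 212⟩ ⟨916, 1001, 0, 27⟩ ⟨846, 873, 29, 56⟩ := .mk
  (.L ⟨572, 27, true, false, 5736, 7917⟩ ⟨654, 28, true, false, 7427, 8861⟩
   ⟨269, 290, 523, 534⟩ ⟨287, 299, 526, 534⟩ ⟨493, 509, 497, 519⟩
   ⟨0, 0, 0, 0⟩ ⟨0, 0, 0, 0⟩)
  (by decide +kernel)

theorem qAS8_580 : Cl ⟨0, false, false, false⟩ ⟨0, true, false, false⟩
    ⟨811, 868, 191, 212⟩ ⟨916, 1001, 0, 27⟩ ⟨867, 914, 38, 90⟩ := .mk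
  (.L ⟨572, 27, true, false, 5736, 7917⟩ ⟨629, 30, true, false, 7823, 10160⟩
   ⟨269, 290, 523, 534⟩ ⟨283, 299, 528, 540⟩ ⟨488, 508, 495, 521⟩
   ⟨0, 0, 0, 0⟩ ⟨0, 0, 0, 0⟩)
  (by decide +kernel)

theorem qAS8_581 : Cl ⟨0, false, false, false⟩ ⟨0, true, false, false⟩
    ⟨807, 865, 191, 217⟩ ⟨916, 1001, 0, 27⟩ ⟨849, 904, 57, 112⟩ := .mk
  (.L ⟨573, 28, true, false, 5758, 8128⟩ ⟨639, 32, true, false, 8356, 11017⟩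
   ⟨270, 290, 523, 535⟩ ⟨285, 302, 529, 543⟩ ⟨487, 508, 496, 522⟩
   ⟨0, 0, 0, 0⟩ ⟨0, 0, 0, 0⟩)
  (by decide +kernel)

theorem qAS8_582 : Cl ⟨0, false, false, false⟩ ⟨0, true, false, false⟩
    ⟨811, 868, 191, 212⟩ ⟨916, 1001, 0, 27⟩ ⟨886, 909, 14, 39⟩ := .mk
  (.L ⟨572, 27, true, false, 5736, 7917⟩ ⟨630, 27, true, false, 7184, 8506⟩
   ⟨269, 290, 523, 534⟩ ⟨282, 294, 526, 534⟩ ⟨492, 508, 494, 516⟩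
   ⟨0, 0, 0, 0⟩ ⟨0, 0, 0, 0⟩)
  (by decide +kernel)

theorem qAS8_583 : Cl ⟨0, false, false, false⟩ ⟨0, true, false, false⟩
    ⟨811, 868, 191, 212⟩ ⟨916, 1001, 0, 27⟩ ⟨897, 934, 22, 62⟩ := .mk
  (.L ⟨572, 27, true, false, 5736, 7917⟩ ⟨616, 28, true, false, 7491, 9367⟩
   ⟨269, 290, 523, 534⟩ ⟨279, 294, 527, 538⟩ ⟨489, 508, 492, 517⟩
   ⟨0, 0, 0, 0⟩ ⟨0, 0, 0, 0⟩)
  (by decide +kernel)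

theorem qAS8_584 : Cl ⟨0, false, false, false⟩ ⟨0, true, false, false⟩
    ⟨811, 868, 191, 212⟩ ⟨916, 1001, 0, 27⟩ ⟨882, 927, 32, 77⟩ := .mk
  (.L ⟨572, 27, true, false, 5736, 7917⟩ ⟨621, 29, true, false, 7715, 9804⟩
   ⟨269, 290, 523, 534⟩ ⟨281, 296, 528, 539⟩ ⟨489, 507, 493, 519⟩
   ⟨0, 0, 0, 0⟩ ⟨0, 0, 0, 0⟩)
  (by decide +kernel)

theorem qAS8_585 : Cl ⟨0, false, false, false⟩ ⟨0, true, false, false⟩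
    ⟨816, 874, 191, 210⟩ ⟨916, 1001, 0, 27⟩ ⟨900, 1001, 0, 29⟩ := .mk
  (.L ⟨568, 27, true, false, 5692, 7799⟩ ⟨574, 27, true, false, 6444, 8638⟩
   ⟨268, 289, 523, 534⟩ ⟨270, 292, 525, 537⟩ ⟨489, 509, 487, 516⟩
   ⟨0, 0, 0, 0⟩ ⟨0, 0, 0, 0⟩)
  (by decide +kernel)

theorem qAS8_586 : Cl ⟨0, false, false, false⟩ ⟨0, true, false, false⟩
    ⟨816, 874, 191, 210⟩ ⟨916, 1001, 0, 27⟩ ⟨908, 1001, 0, 50⟩ := .mk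
  (.L ⟨568, 27, true, false, 5692, 7799⟩ ⟨574, 27, true, false, 6495, 9248⟩
   ⟨268, 289, 523, 534⟩ ⟨270, 292, 525, 540⟩ ⟨487, 509, 487, 517⟩
   ⟨0, 0, 0, 0⟩ ⟨0, 0, 0, 0⟩)
  (by decide +kernel)

theorem qAS8_587 : Cl ⟨0, false, false, false⟩ ⟨0, true, false, false⟩
    ⟨816, 874, 191, 210⟩ ⟨916, 1001, 0, 27⟩ ⟨895, 1001, 0, 61⟩ := .mk
  (.L ⟨568, 27, true, false, 5692, 7799⟩ ⟨574, 27, true, false, 6412, 9568⟩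
   ⟨268, 289, 523, 534⟩ ⟨270, 294, 525, 541⟩ ⟨487, 509, 487, 518⟩
   ⟨0, 0, 0, 0⟩ ⟨0, 0, 0, 0⟩)
  (by decide +kernel)

/-- The pairs of the file. -/
def rAS8 : List Pq := [
  ⟨15, 0, ⟨802, 861, 188, 262⟩, ⟨903, 940, 16, 55⟩, ⟨733, 940, 400, 615⟩⟩,
  ⟨15, 5, ⟨802, 836, 188, 234⟩, ⟨903, 940, 16, 55⟩, ⟨558, 607, 363, 411⟩⟩,
  ⟨15, 3, ⟨802, 860, 188, 240⟩, ⟨903, 940, 16, 55⟩, ⟨741, 878, 246, 380⟩⟩,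
  ⟨15, 4, ⟨802, 858, 188, 251⟩, ⟨903, 940, 16, 55⟩, ⟨765, 881, 353, 499⟩⟩,
  ⟨15, 8, ⟨802, 850, 188, 218⟩, ⟨903, 940, 16, 55⟩, ⟨694, 729, 150, 183⟩⟩,
  ⟨15, 6, ⟨802, 862, 188, 225⟩, ⟨903, 940, 16, 55⟩, ⟨799, 862, 140, 225⟩⟩,
  ⟨15, 7, ⟨802, 859, 188, 231⟩, ⟨903, 940, 16, 55⟩, ⟨778, 861, 202, 294⟩⟩,
  ⟨15, 11, ⟨805, 865, 188, 217⟩, ⟨903, 940, 16, 55⟩, ⟨794, 814, 73, 92⟩⟩,
  ⟨15, 9, ⟨805, 865, 188, 217⟩, ⟨903, 940, 16, 55⟩, ⟨843, 885, 77, 140⟩⟩,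
  ⟨15, 10, ⟨802, 862, 188, 225⟩, ⟨903, 940, 16, 55⟩, ⟨816, 877, 117, 176⟩⟩,
  ⟨15, 14, ⟨811, 868, 188, 212⟩, ⟨903, 940, 16, 55⟩, ⟨846, 873, 29, 56⟩⟩,
  ⟨15, 12, ⟨811, 868, 188, 212⟩, ⟨903, 940, 16, 55⟩, ⟨867, 914, 38, 90⟩⟩,
  ⟨15, 13, ⟨805, 865, 188, 217⟩, ⟨903, 940, 16, 55⟩, ⟨849, 904, 57, 112⟩⟩,
  ⟨15, 17, ⟨811, 868, 188, 212⟩, ⟨903, 940, 16, 55⟩, ⟨886, 909, 14, 39⟩⟩,
  ⟨15, 15, ⟨811, 868, 188, 212⟩, ⟨903, 940, 16, 55⟩, ⟨897, 934, 22, 62⟩⟩,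
  ⟨15, 16, ⟨811, 868, 188, 212⟩, ⟨903, 940, 16, 55⟩, ⟨882, 927, 32, 77⟩⟩,
  ⟨15, 20, ⟨816, 869, 188, 210⟩, ⟨903, 940, 16, 55⟩, ⟨900, 1001, 0, 29⟩⟩,
  ⟨15, 18, ⟨816, 869, 188, 210⟩, ⟨903, 940, 16, 55⟩, ⟨908, 1001, 0, 50⟩⟩,
  ⟨15, 19, ⟨816, 869, 188, 210⟩, ⟨903, 940, 16, 55⟩, ⟨895, 1001, 0, 61⟩⟩,
  ⟨16, 0, ⟨802, 861, 188, 262⟩, ⟨891, 930, 25, 64⟩, ⟨733, 940, 400, 615⟩⟩,
  ⟨16, 5, ⟨802, 836, 188, 234⟩, ⟨891, 930, 25, 64⟩, ⟨558, 607, 363, 411⟩⟩,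
  ⟨16, 3, ⟨802, 860, 188, 240⟩, ⟨891, 930, 25, 64⟩, ⟨741, 878, 246, 380⟩⟩,
  ⟨16, 4, ⟨802, 858, 188, 251⟩, ⟨891, 930, 25, 64⟩, ⟨765, 881, 353, 499⟩⟩,
  ⟨16, 8, ⟨802, 850, 188, 218⟩, ⟨891, 930, 25, 64⟩, ⟨694, 729, 150, 183⟩⟩,
  ⟨16, 6, ⟨802, 862, 188, 225⟩, ⟨891, 930, 25, 64⟩, ⟨799, 862, 140, 225⟩⟩,
  ⟨16, 7, ⟨802, 859, 188, 231⟩, ⟨891, 930, 25, 64⟩, ⟨778, 861, 202, 294⟩⟩,
  ⟨16, 11, ⟨805, 865, 188, 217⟩, ⟨891, 930, 25, 64⟩, ⟨794, 814, 73, 92⟩⟩,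
  ⟨16, 9, ⟨805, 865, 188, 217⟩, ⟨891, 930, 25, 64⟩, ⟨843, 885, 77, 140⟩⟩,
  ⟨16, 10, ⟨802, 862, 188, 225⟩, ⟨891, 930, 25, 64⟩, ⟨816, 877, 117, 176⟩⟩,
  ⟨16, 14, ⟨811, 868, 188, 212⟩, ⟨891, 930, 25, 64⟩, ⟨846, 873, 29, 56⟩⟩,
  ⟨16, 12, ⟨811, 868, 188, 212⟩, ⟨891, 930, 25, 64⟩, ⟨867, 914, 38, 90⟩⟩,
  ⟨16, 13, ⟨805, 865, 188, 217⟩, ⟨891, 930, 25, 64⟩, ⟨849, 904, 57, 112⟩⟩,
  ⟨16, 17, ⟨811, 868, 188, 212⟩, ⟨891, 930, 25, 64⟩, ⟨886, 909, 14, 39⟩⟩,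
  ⟨16, 15, ⟨811, 868, 188, 212⟩, ⟨891, 930, 25, 64⟩, ⟨897, 934, 22, 62⟩⟩,
  ⟨16, 16, ⟨811, 868, 188, 212⟩, ⟨891, 930, 25, 64⟩, ⟨882, 927, 32, 77⟩⟩,
  ⟨16, 20, ⟨816, 869, 188, 210⟩, ⟨891, 930, 25, 64⟩, ⟨900, 1001, 0, 29⟩⟩,
  ⟨16, 18, ⟨816, 869, 188, 210⟩, ⟨891, 930, 25, 64⟩, ⟨908, 1001, 0, 50⟩⟩,
  ⟨16, 19, ⟨816, 869, 188, 210⟩, ⟨891, 930, 25, 64⟩, ⟨895, 1001, 0, 61⟩⟩,
  ⟨20, 0, ⟨807, 861, 191, 264⟩, ⟨916, 1001, 0, 27⟩, ⟨733, 940, 400, 615⟩⟩,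
  ⟨20, 5, ⟨807, 836, 191, 234⟩, ⟨916, 1001, 0, 27⟩, ⟨558, 607, 363, 411⟩⟩,
  ⟨20, 3, ⟨807, 860, 191, 240⟩, ⟨916, 1001, 0, 27⟩, ⟨741, 878, 246, 380⟩⟩,
  ⟨20, 4, ⟨807, 858, 191, 251⟩, ⟨916, 1001, 0, 27⟩, ⟨765, 881, 353, 499⟩⟩,
  ⟨20, 8, ⟨807, 850, 191, 218⟩, ⟨916, 1001, 0, 27⟩, ⟨694, 729, 150, 183⟩⟩,
  ⟨20, 6, ⟨807, 862, 191, 225⟩, ⟨916, 1001, 0, 27⟩, ⟨799, 862, 140, 225⟩⟩,
  ⟨20, 7, ⟨807, 859, 191, 231⟩, ⟨916, 1001, 0, 27⟩, ⟨778, 861, 202, 294⟩⟩,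
  ⟨20, 11, ⟨807, 865, 191, 217⟩, ⟨916, 1001, 0, 27⟩, ⟨794, 814, 73, 92⟩⟩,
  ⟨20, 9, ⟨807, 865, 191, 217⟩, ⟨916, 1001, 0, 27⟩, ⟨843, 885, 77, 140⟩⟩,
  ⟨20, 10, ⟨807, 862, 191, 225⟩, ⟨916, 1001, 0, 27⟩, ⟨816, 877, 117, 176⟩⟩,
  ⟨20, 14, ⟨811, 868, 191, 212⟩, ⟨916, 1001, 0, 27⟩, ⟨846, 873, 29, 56⟩⟩,
  ⟨20, 12, ⟨811, 868, 191, 212⟩, ⟨916, 1001, 0, 27⟩, ⟨867, 914, 38, 90⟩⟩,
  ⟨20, 13, ⟨807, 865, 191, 217⟩, ⟨916, 1001, 0, 27⟩, ⟨849, 904, 57, 112⟩⟩,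
  ⟨20, 17, ⟨811, 868, 191, 212⟩, ⟨916, 1001, 0, 27⟩, ⟨886, 909, 14, 39⟩⟩,
  ⟨20, 15, ⟨811, 868, 191, 212⟩, ⟨916, 1001, 0, 27⟩, ⟨897, 934, 22, 62⟩⟩,
  ⟨20, 16, ⟨811, 868, 191, 212⟩, ⟨916, 1001, 0, 27⟩, ⟨882, 927, 32, 77⟩⟩,
  ⟨20, 20, ⟨816, 874, 191, 210⟩, ⟨916, 1001, 0, 27⟩, ⟨900, 1001, 0, 29⟩⟩,
  ⟨20, 18, ⟨816, 874, 191, 210⟩, ⟨916, 1001, 0, 27⟩, ⟨908, 1001, 0, 50⟩⟩,
  ⟨20, 19, ⟨816, 874, 191, 210⟩, ⟨916, 1001, 0, 27⟩, ⟨895, 1001, 0, 61⟩⟩]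

theorem rAS8_ok : ∀ p ∈ rAS8, Cr false true p :=
  List.forall_mem_cons.2 ⟨qAS8_531,
  List.forall_mem_cons.2 ⟨qAS8_532,
  List.forall_mem_cons.2 ⟨qAS8_533,
  List.forall_mem_cons.2 ⟨qAS8_534,
  List.forall_mem_cons.2 ⟨qAS8_535,
  List.forall_mem_cons.2 ⟨qAS8_536,
  List.forall_mem_cons.2 ⟨qAS8_537,
  List.forall_mem_cons.2 ⟨qAS8_538,
  List.forall_mem_cons.2 ⟨qAS8_539,
  List.forall_mem_cons.2 ⟨qAS8_540,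
  List.forall_mem_cons.2 ⟨qAS8_541,
  List.forall_mem_cons.2 ⟨qAS8_542,
  List.forall_mem_cons.2 ⟨qAS8_543,
  List.forall_mem_cons.2 ⟨qAS8_544,
  List.forall_mem_cons.2 ⟨qAS8_545,
  List.forall_mem_cons.2 ⟨qAS8_546,
  List.forall_mem_cons.2 ⟨qAS8_547,
  List.forall_mem_cons.2 ⟨qAS8_548,
  List.forall_mem_cons.2 ⟨qAS8_549,
  List.forall_mem_cons.2 ⟨qAS8_550,
  List.forall_mem_cons.2 ⟨qAS8_551,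
  List.forall_mem_cons.2 ⟨qAS8_552,
  List.forall_mem_cons.2 ⟨qAS8_553,
  List.forall_mem_cons.2 ⟨qAS8_554,
  List.forall_mem_cons.2 ⟨qAS8_555,
  List.forall_mem_cons.2 ⟨qAS8_556,
  List.forall_mem_cons.2 ⟨qAS8_557,
  List.forall_mem_cons.2 ⟨qAS8_558,
  List.forall_mem_cons.2 ⟨qAS8_559,
  List.forall_mem_cons.2 ⟨qAS8_560,
  List.forall_mem_cons.2 ⟨qAS8_561,
  List.forall_mem_cons.2 ⟨qAS8_562,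
  List.forall_mem_cons.2 ⟨qAS8_563,
  List.forall_mem_cons.2 ⟨qAS8_564,
  List.forall_mem_cons.2 ⟨qAS8_565,
  List.forall_mem_cons.2 ⟨qAS8_566,
  List.forall_mem_cons.2 ⟨qAS8_567,
  List.forall_mem_cons.2 ⟨qAS8_568,
  List.forall_mem_cons.2 ⟨qAS8_569,
  List.forall_mem_cons.2 ⟨qAS8_570,
  List.forall_mem_cons.2 ⟨qAS8_571,
  List.forall_mem_cons.2 ⟨qAS8_572,
  List.forall_mem_cons.2 ⟨qAS8_573,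
  List.forall_mem_cons.2 ⟨qAS8_574,
  List.forall_mem_cons.2 ⟨qAS8_575,
  List.forall_mem_cons.2 ⟨qAS8_576,
  List.forall_mem_cons.2 ⟨qAS8_577,
  List.forall_mem_cons.2 ⟨qAS8_578,
  List.forall_mem_cons.2 ⟨qAS8_579,
  List.forall_mem_cons.2 ⟨qAS8_580,
  List.forall_mem_cons.2 ⟨qAS8_581,
  List.forall_mem_cons.2 ⟨qAS8_582,
  List.forall_mem_cons.2 ⟨qAS8_583,
  List.forall_mem_cons.2 ⟨qAS8_584,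
  List.forall_mem_cons.2 ⟨qAS8_585,
  List.forall_mem_cons.2 ⟨qAS8_586,
  List.forall_mem_cons.2 ⟨qAS8_587,
  List.forall_mem_nil _⟩⟩⟩⟩⟩⟩⟩⟩⟩⟩⟩⟩⟩⟩⟩⟩⟩⟩⟩⟩⟩⟩⟩⟩⟩⟩⟩⟩⟩⟩⟩⟩⟩⟩⟩⟩⟩⟩⟩⟩⟩⟩⟩⟩⟩⟩⟩⟩⟩⟩⟩⟩⟩⟩⟩⟩⟩

end Pool.Agent.S5.Z4
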