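import Pool.Agent.S5.Z4.Tre

/-!
# Inner nodes with four half twists: certificates
-/

set_option autoImplicit false

namespace Pool.Agent.S5.Z4

theorem qAS9_588 : Cl ⟨0, false, false, false⟩ ⟨0, true, true, false⟩
    ⟨807, 861, 191, 264⟩ ⟨920, 1001, 0, 42⟩ ⟨733, 940, 400, 615⟩ := .mk
  (.S 4 836
   (.S 5 507
    (.L ⟨566, 34, true, false, 5352, 9957⟩ ⟨678, 78, true, false, 20512, 26831⟩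
     ⟨269, 290, 521, 543⟩ ⟨305, 330, 563, 588⟩ ⟨457, 500, 514, 557⟩
     ⟨0, 0, 0, 0⟩ ⟨0, 0, 0, 0⟩)
    (.S 4 784
     (.S 1 227
      (.S 0 834
       (.L ⟨590, 29, true, false, 5562, 8741⟩ ⟨714, 95, true, false, 24748, 30152⟩
        ⟨274, 290, 521, 536⟩ ⟨316, 331, 575, 594⟩ ⟨456, 489, 526, 558⟩
        ⟨0, 0, 0, 0⟩ ⟨0, 0, 0, 0⟩)
       (.L ⟨572, 28, true, false, 5352, 8538⟩ ⟨696, 96, true, false, 25076, 30589⟩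
        ⟨270, 286, 521, 537⟩ ⟨314, 329, 577, 597⟩ ⟨453, 488, 527, 560⟩
        ⟨0, 0, 0, 0⟩ ⟨0, 0, 0, 0⟩))
      (.S 4 758
       (.L ⟨566, 34, true, false, 6616, 9957⟩ ⟨724, 102, true, false, 25995, 32329⟩
        ⟨269, 290, 526, 543⟩ ⟨320, 334, 577, 598⟩ ⟨457, 493, 528, 564⟩
        ⟨0, 0, 0, 0⟩ ⟨0, 0, 0, 0⟩)
       (.L ⟨566, 34, true, false, 6616, 9957⟩ ⟨704, 101, true, false, 25723, 31946⟩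
        ⟨269, 290, 526, 543⟩ ⟨317, 331, 578, 599⟩ ⟨455, 491, 527, 562⟩
        ⟨0, 0, 0, 0⟩ ⟨0, 0, 0, 0⟩)))
     (.S 1 227
      (.L ⟨572, 28, true, false, 5352, 8538⟩ ⟨659, 94, true, false, 24127, 29748⟩
       ⟨270, 290, 521, 537⟩ ⟨308, 325, 576, 598⟩ ⟨449, 487, 520, 557⟩
       ⟨0, 0, 0, 0⟩ ⟨0, 0, 0, 0⟩)
      (.L ⟨566, 34, true, false, 6616, 9957⟩ ⟨666, 99, true, false, 25442, 31180⟩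
       ⟨269, 290, 526, 543⟩ ⟨311, 328, 579, 601⟩ ⟨451, 489, 522, 561⟩
       ⟨0, 0, 0, 0⟩ ⟨0, 0, 0, 0⟩))))
   (.S 0 834
    (.S 1 227
     (.L ⟨590, 29, true, false, 5562, 8741⟩ ⟨631, 74, true, false, 19730, 27664⟩
      ⟨274, 290, 521, 536⟩ ⟨296, 319, 565, 598⟩ ⟨445, 491, 509, 551⟩
      ⟨0, 0, 0, 0⟩ ⟨0, 0, 0, 0⟩)
     (.L ⟨584, 35, true, false, 6861, 10196⟩ ⟨635, 80, true, false, 21062, 29280⟩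
      ⟨274, 290, 527, 542⟩ ⟨299, 323, 569, 601⟩ ⟨447, 493, 511, 554⟩
      ⟨0, 0, 0, 0⟩ ⟨0, 0, 0, 0⟩))
    (.S 4 888
     (.L ⟨566, 34, true, false, 5352, 9957⟩ ⟨644, 77, true, false, 19934, 30418⟩
      ⟨269, 286, 521, 543⟩ ⟨299, 321, 567, 602⟩ ⟨443, 495, 513, 557⟩
      ⟨0, 0, 0, 0⟩ ⟨0, 0, 0, 0⟩)
     (.L ⟨566, 34, true, false, 5352, 9957⟩ ⟨613, 75, true, false, 19541, 29666⟩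
      ⟨269, 286, 521, 543⟩ ⟨293, 315, 568, 604⟩ ⟨439, 493, 509, 553⟩
      ⟨0, 0, 0, 0⟩ ⟨0, 0, 0, 0⟩))))
  (by decide +kernel)

theorem qAS9_589 : Cl ⟨0, false, false, false⟩ ⟨2, true, false, true⟩
    ⟨807, 836, 191, 234⟩ ⟨920, 1001, 0, 42⟩ ⟨558, 607, 363, 411⟩ := .mk
  (.L ⟨588, 30, true, false, 5547, 9000⟩ ⟨904, 78, true, false, 20141, 23375⟩
   ⟨274, 290, 521, 538⟩ ⟨333, 344, 554, 565⟩ ⟨484, 507, 530, 553⟩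
   ⟨0, 0, 0, 0⟩ ⟨517, 567, 653, 706⟩)
  (by decide +kernel)

theorem qAS9_590 : Cl ⟨0, false, false, false⟩ ⟨0, true, true, true⟩
    ⟨807, 860, 191, 240⟩ ⟨920, 1001, 0, 42⟩ ⟨741, 878, 246, 380⟩ := .mk
  (.L ⟨571, 30, true, false, 5360, 9043⟩ ⟨664, 56, true, false, 14676, 20901⟩
   ⟨270, 290, 521, 539⟩ ⟨296, 324, 546, 574⟩ ⟨466, 506, 504, 546⟩
   ⟨0, 0, 0, 0⟩ ⟨0, 0, 0, 0⟩)
  (by decide +kernel)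

theorem qAS9_591 : Cl ⟨0, false, false, false⟩ ⟨0, true, true, true⟩
    ⟨807, 858, 191, 251⟩ ⟨920, 1001, 0, 42⟩ ⟨765, 881, 353, 499⟩ := .mk
  (.L ⟨570, 32, true, false, 5375, 9482⟩ ⟨656, 70, true, false, 18521, 25576⟩
   ⟨270, 290, 521, 541⟩ ⟨299, 326, 558, 588⟩ ⟨455, 501, 509, 554⟩
   ⟨0, 0, 0, 0⟩ ⟨0, 0, 0, 0⟩)
  (by decide +kernel)

theorem qAS9_592 : Cl ⟨0, false, false, false⟩ ⟨0, true, false, false⟩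
    ⟨807, 850, 191, 218⟩ ⟨920, 1001, 0, 42⟩ ⟨694, 729, 150, 183⟩ := .mk
  (.L ⟨581, 27, true, false, 5438, 8274⟩ ⟨785, 43, true, false, 11127, 13175⟩
   ⟨271, 290, 521, 535⟩ ⟨311, 321, 534, 543⟩ ⟨491, 510, 512, 533⟩
   ⟨0, 0, 0, 0⟩ ⟨0, 0, 0, 0⟩)
  (by decide +kernel)

theorem qAS9_593 : Cl ⟨0, false, false, false⟩ ⟨0, true, true, true⟩
    ⟨807, 862, 191, 225⟩ ⟨920, 1001, 0, 42⟩ ⟨799, 862, 140, 225⟩ := .mk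
  (.L ⟨572, 28, true, false, 5344, 8454⟩ ⟨673, 42, true, false, 10932, 14999⟩
   ⟨269, 290, 521, 536⟩ ⟨293, 312, 536, 555⟩ ⟨479, 507, 501, 532⟩
   ⟨0, 0, 0, 0⟩ ⟨0, 0, 0, 0⟩)
  (by decide +kernel)

theorem qAS9_594 : Cl ⟨0, false, false, false⟩ ⟨0, true, true, true⟩
    ⟨807, 859, 191, 231⟩ ⟨920, 1001, 0, 42⟩ ⟨778, 861, 202, 294⟩ := .mk
  (.L ⟨573, 29, true, false, 5368, 8706⟩ ⟨677, 50, true, false, 13057, 17605⟩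
   ⟨270, 290, 521, 537⟩ ⟨296, 316, 542, 563⟩ ⟨474, 505, 504, 537⟩
   ⟨0, 0, 0, 0⟩ ⟨0, 0, 0, 0⟩)
  (by decide +kernel)

theorem qAS9_595 : Cl ⟨0, false, false, false⟩ ⟨0, true, false, false⟩
    ⟨807, 865, 191, 217⟩ ⟨920, 1001, 0, 42⟩ ⟨794, 814, 73, 92⟩ := .mk
  (.L ⟨571, 27, true, false, 5321, 8128⟩ ⟨701, 33, true, false, 8649, 9991⟩
   ⟨269, 290, 521, 535⟩ ⟨296, 307, 529, 536⟩ ⟨492, 510, 502, 525⟩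
   ⟨0, 0, 0, 0⟩ ⟨0, 0, 0, 0⟩)
  (by decide +kernel)

theorem qAS9_596 : Cl ⟨0, false, false, false⟩ ⟨0, true, false, false⟩
    ⟨807, 865, 191, 217⟩ ⟨920, 1001, 0, 42⟩ ⟨843, 885, 77, 140⟩ := .mk
  (.L ⟨571, 27, true, false, 5321, 8128⟩ ⟨653, 34, true, false, 8972, 11876⟩
   ⟨269, 290, 521, 535⟩ ⟨288, 304, 531, 545⟩ ⟨485, 508, 498, 525⟩
   ⟨0, 0, 0, 0⟩ ⟨0, 0, 0, 0⟩)
  (by decide +kernel)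

theorem qAS9_597 : Cl ⟨0, false, false, false⟩ ⟨0, true, false, false⟩
    ⟨807, 862, 191, 225⟩ ⟨920, 1001, 0, 42⟩ ⟨816, 877, 117, 176⟩ := .mk
  (.L ⟨572, 28, true, false, 5344, 8454⟩ ⟨662, 39, true, false, 10195, 13344⟩
   ⟨269, 290, 521, 536⟩ ⟨291, 308, 535, 550⟩ ⟨482, 507, 500, 529⟩
   ⟨0, 0, 0, 0⟩ ⟨0, 0, 0, 0⟩)
  (by decide +kernel)

theorem qAS9_598 : Cl ⟨0, false, false, false⟩ ⟨0, true, false, false⟩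
    ⟨811, 868, 191, 212⟩ ⟨920, 1001, 0, 42⟩ ⟨846, 873, 29, 56⟩ := .mk
  (.L ⟨570, 26, true, false, 5297, 7917⟩ ⟨654, 28, true, false, 7427, 8861⟩
   ⟨268, 289, 521, 534⟩ ⟨287, 299, 526, 534⟩ ⟨492, 509, 497, 520⟩
   ⟨0, 0, 0, 0⟩ ⟨0, 0, 0, 0⟩)
  (by decide +kernel)

theorem qAS9_599 : Cl ⟨0, false, false, false⟩ ⟨0, true, false, false⟩
    ⟨811, 868, 191, 212⟩ ⟨920, 1001, 0, 42⟩ ⟨867, 914, 38, 90⟩ := .mk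
  (.L ⟨570, 26, true, false, 5297, 7917⟩ ⟨629, 30, true, false, 7823, 10160⟩
   ⟨268, 289, 521, 534⟩ ⟨283, 299, 528, 540⟩ ⟨487, 508, 495, 521⟩
   ⟨0, 0, 0, 0⟩ ⟨0, 0, 0, 0⟩)
  (by decide +kernel)

theorem qAS9_600 : Cl ⟨0, false, false, false⟩ ⟨0, true, false, false⟩
    ⟨807, 865, 191, 217⟩ ⟨920, 1001, 0, 42⟩ ⟨849, 904, 57, 112⟩ := .mk
  (.L ⟨571, 27, true, false, 5321, 8128⟩ ⟨639, 32, true, false, 8356, 11017⟩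
   ⟨269, 290, 521, 535⟩ ⟨285, 302, 529, 543⟩ ⟨486, 509, 496, 523⟩
   ⟨0, 0, 0, 0⟩ ⟨0, 0, 0, 0⟩)
  (by decide +kernel)

theorem qAS9_601 : Cl ⟨0, false, false, false⟩ ⟨0, true, false, false⟩
    ⟨811, 868, 191, 212⟩ ⟨920, 1001, 0, 42⟩ ⟨886, 909, 14, 39⟩ := .mk
  (.L ⟨570, 26, true, false, 5297, 7917⟩ ⟨630, 27, true, false, 7184, 8506⟩
   ⟨268, 289, 521, 534⟩ ⟨282, 294, 526, 534⟩ ⟨491, 508, 494, 517⟩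
   ⟨0, 0, 0, 0⟩ ⟨0, 0, 0, 0⟩)
  (by decide +kernel)

theorem qAS9_602 : Cl ⟨0, false, false, false⟩ ⟨0, true, false, false⟩
    ⟨811, 868, 191, 212⟩ ⟨920, 1001, 0, 42⟩ ⟨897, 934, 22, 62⟩ := .mk
  (.L ⟨570, 26, true, false, 5297, 7917⟩ ⟨616, 28, true, false, 7491, 9367⟩
   ⟨268, 289, 521, 534⟩ ⟨279, 294, 527, 538⟩ ⟨488, 508, 493, 518⟩
   ⟨0, 0, 0, 0⟩ ⟨0, 0, 0, 0⟩)
  (by decide +kernel)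

theorem qAS9_603 : Cl ⟨0, false, false, false⟩ ⟨0, true, false, false⟩
    ⟨811, 868, 191, 212⟩ ⟨920, 1001, 0, 42⟩ ⟨882, 927, 32, 77⟩ := .mk
  (.L ⟨570, 26, true, false, 5297, 7917⟩ ⟨621, 29, true, false, 7715, 9804⟩
   ⟨268, 289, 521, 534⟩ ⟨281, 296, 528, 539⟩ ⟨488, 507, 494, 519⟩
   ⟨0, 0, 0, 0⟩ ⟨0, 0, 0, 0⟩)
  (by decide +kernel)

theorem qAS9_604 : Cl ⟨0, false, false, false⟩ ⟨0, true, false, false⟩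
    ⟨816, 874, 191, 210⟩ ⟨920, 1001, 0, 42⟩ ⟨900, 1001, 0, 29⟩ := .mk
  (.L ⟨566, 25, true, false, 5251, 7799⟩ ⟨574, 27, true, false, 6444, 8638⟩
   ⟨267, 288, 521, 534⟩ ⟨270, 292, 525, 537⟩ ⟨488, 509, 488, 517⟩
   ⟨0, 0, 0, 0⟩ ⟨0, 0, 0, 0⟩)
  (by decide +kernel)

theorem qAS9_605 : Cl ⟨0, false, false, false⟩ ⟨0, true, false, false⟩
    ⟨816, 874, 191, 210⟩ ⟨920, 1001, 0, 42⟩ ⟨908, 1001, 0, 50⟩ := .mk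
  (.L ⟨566, 25, true, false, 5251, 7799⟩ ⟨574, 27, true, false, 6495, 9248⟩
   ⟨267, 288, 521, 534⟩ ⟨270, 292, 525, 540⟩ ⟨486, 509, 488, 518⟩
   ⟨0, 0, 0, 0⟩ ⟨0, 0, 0, 0⟩)
  (by decide +kernel)

theorem qAS9_606 : Cl ⟨0, false, false, false⟩ ⟨0, true, false, false⟩
    ⟨816, 874, 191, 210⟩ ⟨920, 1001, 0, 42⟩ ⟨895, 1001, 0, 61⟩ := .mk
  (.L ⟨566, 25, true, false, 5251, 7799⟩ ⟨574, 27, true, false, 6412, 9568⟩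
   ⟨267, 288, 521, 534⟩ ⟨270, 294, 525, 541⟩ ⟨486, 509, 488, 519⟩
   ⟨0, 0, 0, 0⟩ ⟨0, 0, 0, 0⟩)
  (by decide +kernel)

theorem qAS9_607 : Cl ⟨0, false, false, false⟩ ⟨0, true, true, false⟩
    ⟨807, 861, 191, 264⟩ ⟨908, 1001, 0, 50⟩ ⟨733, 940, 400, 615⟩ := .mk
  (.S 4 836
   (.S 5 507
    (.L ⟨565, 32, true, false, 5008, 9957⟩ ⟨678, 78, true, false, 20512, 26831⟩
     ⟨269, 291, 520, 543⟩ ⟨305, 330, 563, 588⟩ ⟨456, 500, 513, 557⟩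
     ⟨0, 0, 0, 0⟩ ⟨0, 0, 0, 0⟩)
    (.S 4 784
     (.S 0 834
      (.L ⟨583, 34, true, false, 5226, 10196⟩ ⟨714, 95, true, false, 24748, 31548⟩
       ⟨273, 291, 520, 542⟩ ⟨316, 334, 575, 596⟩ ⟨454, 493, 524, 562⟩
       ⟨0, 0, 0, 0⟩ ⟨0, 0, 0, 0⟩)
      (.S 1 227
       (.L ⟨571, 27, true, false, 5008, 8538⟩ ⟨696, 96, true, false, 25076, 30589⟩
        ⟨269, 287, 520, 537⟩ ⟨314, 329, 577, 597⟩ ⟨453, 488, 527, 560⟩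
        ⟨0, 0, 0, 0⟩ ⟨0, 0, 0, 0⟩)
       (.S 4 758
        (.L ⟨565, 33, true, false, 6256, 9957⟩ ⟨724, 102, true, false, 26287, 32329⟩
         ⟨269, 287, 525, 543⟩ ⟨320, 333, 579, 598⟩ ⟨457, 491, 531, 563⟩
         ⟨0, 0, 0, 0⟩ ⟨0, 0, 0, 0⟩)
        (.L ⟨565, 33, true, false, 6256, 9957⟩ ⟨704, 101, true, false, 26016, 31946⟩
         ⟨269, 287, 525, 543⟩ ⟨317, 330, 580, 599⟩ ⟨455, 490, 529, 561⟩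
         ⟨0, 0, 0, 0⟩ ⟨0, 0, 0, 0⟩))))
     (.S 1 227
      (.L ⟨571, 27, true, false, 5008, 8538⟩ ⟨659, 94, true, false, 24127, 29748⟩
       ⟨269, 291, 520, 537⟩ ⟨308, 325, 576, 598⟩ ⟨449, 487, 520, 558⟩
       ⟨0, 0, 0, 0⟩ ⟨0, 0, 0, 0⟩)
      (.L ⟨565, 33, true, false, 6256, 9957⟩ ⟨666, 99, true, false, 25442, 31180⟩
       ⟨269, 291, 525, 543⟩ ⟨311, 328, 579, 601⟩ ⟨450, 489, 522, 561⟩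
       ⟨0, 0, 0, 0⟩ ⟨0, 0, 0, 0⟩))))
   (.S 4 888
    (.S 0 834
     (.L ⟨583, 34, true, false, 5226, 10196⟩ ⟨662, 76, true, false, 19730, 30026⟩
      ⟨273, 291, 520, 542⟩ ⟨302, 323, 565, 600⟩ ⟨445, 496, 512, 555⟩
      ⟨0, 0, 0, 0⟩ ⟨0, 0, 0, 0⟩)
     (.L ⟨565, 32, true, false, 5008, 9957⟩ ⟨644, 77, true, false, 19934, 30418⟩
      ⟨269, 287, 520, 543⟩ ⟨299, 321, 567, 602⟩ ⟨442, 495, 512, 557⟩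
      ⟨0, 0, 0, 0⟩ ⟨0, 0, 0, 0⟩))
    (.S 0 834
     (.L ⟨583, 34, true, false, 5226, 10196⟩ ⟨631, 74, true, false, 19337, 29280⟩
      ⟨273, 291, 520, 542⟩ ⟨296, 317, 566, 601⟩ ⟨442, 493, 507, 551⟩
      ⟨0, 0, 0, 0⟩ ⟨0, 0, 0, 0⟩)
     (.S 0 847
      (.L ⟨574, 33, true, false, 5121, 10081⟩ ⟨622, 75, true, false, 19541, 29465⟩
       ⟨271, 287, 520, 543⟩ ⟨295, 315, 568, 602⟩ ⟨441, 492, 510, 551⟩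
       ⟨0, 0, 0, 0⟩ ⟨0, 0, 0, 0⟩)
      (.L ⟨565, 32, true, false, 5008, 9957⟩ ⟨613, 75, true, false, 19639, 29666⟩
       ⟨269, 286, 520, 543⟩ ⟨293, 314, 569, 604⟩ ⟨439, 492, 509, 552⟩
       ⟨0, 0, 0, 0⟩ ⟨0, 0, 0, 0⟩)))))
  (by decide +kernel)

theorem qAS9_608 : Cl ⟨0, false, false, false⟩ ⟨2, true, false, true⟩
    ⟨807, 836, 191, 234⟩ ⟨908, 1001, 0, 50⟩ ⟨558, 607, 363, 411⟩ := .mk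
  (.L ⟨587, 29, true, false, 5210, 9000⟩ ⟨904, 78, true, false, 20141, 23375⟩
   ⟨273, 291, 520, 538⟩ ⟨333, 344, 554, 565⟩ ⟨483, 508, 529, 553⟩
   ⟨0, 0, 0, 0⟩ ⟨517, 567, 653, 706⟩)
  (by decide +kernel)

theorem qAS9_609 : Cl ⟨0, false, false, false⟩ ⟨0, true, true, true⟩
    ⟨807, 860, 191, 240⟩ ⟨908, 1001, 0, 50⟩ ⟨741, 878, 246, 380⟩ := .mk
  (.L ⟨569, 29, true, false, 5016, 9043⟩ ⟨664, 56, true, false, 14676, 20901⟩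
   ⟨269, 291, 520, 539⟩ ⟨296, 324, 546, 574⟩ ⟨465, 506, 504, 547⟩
   ⟨0, 0, 0, 0⟩ ⟨0, 0, 0, 0⟩)
  (by decide +kernel)

theorem qAS9_610 : Cl ⟨0, false, false, false⟩ ⟨0, true, true, true⟩
    ⟨807, 858, 191, 251⟩ ⟨908, 1001, 0, 50⟩ ⟨765, 881, 353, 499⟩ := .mk
  (.L ⟨569, 31, true, false, 5032, 9482⟩ ⟨656, 70, true, false, 18521, 25576⟩
   ⟨269, 291, 520, 541⟩ ⟨299, 326, 558, 588⟩ ⟨454, 501, 508, 554⟩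
   ⟨0, 0, 0, 0⟩ ⟨0, 0, 0, 0⟩)
  (by decide +kernel)

theorem qAS9_611 : Cl ⟨0, false, false, false⟩ ⟨0, true, false, false⟩
    ⟨807, 850, 191, 218⟩ ⟨908, 1001, 0, 50⟩ ⟨694, 729, 150, 183⟩ := .mk
  (.L ⟨580, 26, true, false, 5097, 8274⟩ ⟨785, 43, true, false, 11127, 13175⟩
   ⟨271, 291, 520, 535⟩ ⟨311, 321, 534, 543⟩ ⟨490, 510, 511, 533⟩
   ⟨0, 0, 0, 0⟩ ⟨0, 0, 0, 0⟩)
  (by decide +kernel)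

theorem qAS9_612 : Cl ⟨0, false, false, false⟩ ⟨0, true, true, true⟩
    ⟨807, 862, 191, 225⟩ ⟨908, 1001, 0, 50⟩ ⟨799, 862, 140, 225⟩ := .mk
  (.L ⟨571, 27, true, false, 5000, 8454⟩ ⟨673, 42, true, false, 10932, 14999⟩
   ⟨269, 291, 520, 536⟩ ⟨293, 312, 536, 555⟩ ⟨478, 507, 501, 533⟩
   ⟨0, 0, 0, 0⟩ ⟨0, 0, 0, 0⟩)
  (by decide +kernel)

theorem qAS9_613 : Cl ⟨0, false, false, false⟩ ⟨0, true, true, true⟩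
    ⟨807, 859, 191, 231⟩ ⟨908, 1001, 0, 50⟩ ⟨778, 861, 202, 294⟩ := .mk
  (.L ⟨572, 28, true, false, 5024, 8706⟩ ⟨677, 50, true, false, 13057, 17605⟩
   ⟨269, 291, 520, 537⟩ ⟨296, 316, 542, 563⟩ ⟨473, 505, 503, 538⟩
   ⟨0, 0, 0, 0⟩ ⟨0, 0, 0, 0⟩)
  (by decide +kernel)

theorem qAS9_614 : Cl ⟨0, false, false, false⟩ ⟨0, true, false, false⟩
    ⟨807, 865, 191, 217⟩ ⟨908, 1001, 0, 50⟩ ⟨794, 814, 73, 92⟩ := .mk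
  (.L ⟨570, 26, true, false, 4975, 8128⟩ ⟨701, 33, true, false, 8649, 9991⟩
   ⟨268, 291, 520, 535⟩ ⟨296, 307, 529, 536⟩ ⟨491, 510, 501, 525⟩
   ⟨0, 0, 0, 0⟩ ⟨0, 0, 0, 0⟩)
  (by decide +kernel)

theorem qAS9_615 : Cl ⟨0, false, false, false⟩ ⟨0, true, false, false⟩
    ⟨807, 865, 191, 217⟩ ⟨908, 1001, 0, 50⟩ ⟨843, 885, 77, 140⟩ := .mk
  (.L ⟨570, 26, true, false, 4975, 8128⟩ ⟨653, 34, true, false, 8972, 11876⟩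
   ⟨268, 291, 520, 535⟩ ⟨288, 304, 531, 545⟩ ⟨484, 508, 497, 525⟩
   ⟨0, 0, 0, 0⟩ ⟨0, 0, 0, 0⟩)
  (by decide +kernel)

theorem qAS9_616 : Cl ⟨0, false, false, false⟩ ⟨0, true, false, false⟩
    ⟨807, 862, 191, 225⟩ ⟨908, 1001, 0, 50⟩ ⟨816, 877, 117, 176⟩ := .mk
  (.L ⟨571, 27, true, false, 5000, 8454⟩ ⟨662, 39, true, false, 10195, 13344⟩
   ⟨269, 291, 520, 536⟩ ⟨291, 308, 535, 550⟩ ⟨481, 507, 499, 529⟩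
   ⟨0, 0, 0, 0⟩ ⟨0, 0, 0, 0⟩)
  (by decide +kernel)

theorem qAS9_617 : Cl ⟨0, false, false, false⟩ ⟨0, true, false, false⟩
    ⟨811, 868, 191, 212⟩ ⟨908, 1001, 0, 50⟩ ⟨846, 873, 29, 56⟩ := .mk
  (.L ⟨569, 25, true, false, 4951, 7917⟩ ⟨654, 28, true, false, 7427, 8861⟩
   ⟨268, 290, 519, 534⟩ ⟨287, 299, 526, 534⟩ ⟨490, 509, 497, 520⟩
   ⟨0, 0, 0, 0⟩ ⟨0, 0, 0, 0⟩)
  (by decide +kernel)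

theorem qAS9_618 : Cl ⟨0, false, false, false⟩ ⟨0, true, false, false⟩
    ⟨811, 868, 191, 212⟩ ⟨908, 1001, 0, 50⟩ ⟨867, 914, 38, 90⟩ := .mk
  (.L ⟨569, 25, true, false, 4951, 7917⟩ ⟨629, 30, true, false, 7823, 10160⟩
   ⟨268, 290, 519, 534⟩ ⟨283, 299, 528, 540⟩ ⟨486, 508, 495, 521⟩
   ⟨0, 0, 0, 0⟩ ⟨0, 0, 0, 0⟩)
  (by decide +kernel)

theorem qAS9_619 : Cl ⟨0, false, false, false⟩ ⟨0, true, false, false⟩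
    ⟨807, 865, 191, 217⟩ ⟨908, 1001, 0, 50⟩ ⟨849, 904, 57, 112⟩ := .mk
  (.L ⟨570, 26, true, false, 4975, 8128⟩ ⟨639, 32, true, false, 8356, 11017⟩
   ⟨268, 291, 520, 535⟩ ⟨285, 302, 529, 543⟩ ⟨485, 509, 495, 524⟩
   ⟨0, 0, 0, 0⟩ ⟨0, 0, 0, 0⟩)
  (by decide +kernel)

theorem qAS9_620 : Cl ⟨0, false, false, false⟩ ⟨0, true, false, false⟩
    ⟨811, 868, 191, 212⟩ ⟨908, 1001, 0, 50⟩ ⟨886, 909, 14, 39⟩ := .mk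
  (.L ⟨569, 25, true, false, 4951, 7917⟩ ⟨630, 27, true, false, 7184, 8506⟩
   ⟨268, 290, 519, 534⟩ ⟨282, 294, 526, 534⟩ ⟨490, 508, 494, 517⟩
   ⟨0, 0, 0, 0⟩ ⟨0, 0, 0, 0⟩)
  (by decide +kernel)

theorem qAS9_621 : Cl ⟨0, false, false, false⟩ ⟨0, true, false, false⟩
    ⟨811, 868, 191, 212⟩ ⟨908, 1001, 0, 50⟩ ⟨897, 934, 22, 62⟩ := .mk
  (.L ⟨569, 25, true, false, 4951, 7917⟩ ⟨616, 28, true, false, 7491, 9367⟩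
   ⟨268, 290, 519, 534⟩ ⟨279, 294, 527, 538⟩ ⟨487, 508, 492, 518⟩
   ⟨0, 0, 0, 0⟩ ⟨0, 0, 0, 0⟩)
  (by decide +kernel)

theorem qAS9_622 : Cl ⟨0, false, false, false⟩ ⟨0, true, false, false⟩
    ⟨811, 868, 191, 212⟩ ⟨908, 1001, 0, 50⟩ ⟨882, 927, 32, 77⟩ := .mk
  (.L ⟨569, 25, true, false, 4951, 7917⟩ ⟨621, 29, true, false, 7715, 9804⟩
   ⟨268, 290, 519, 534⟩ ⟨281, 296, 528, 539⟩ ⟨487, 507, 493, 519⟩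
   ⟨0, 0, 0, 0⟩ ⟨0, 0, 0, 0⟩)
  (by decide +kernel)

theorem qAS9_623 : Cl ⟨0, false, false, false⟩ ⟨0, true, false, false⟩
    ⟨816, 874, 191, 210⟩ ⟨908, 1001, 0, 50⟩ ⟨900, 1001, 0, 29⟩ := .mk
  (.L ⟨565, 24, true, false, 4903, 7799⟩ ⟨574, 27, true, false, 6444, 8638⟩
   ⟨267, 290, 519, 534⟩ ⟨270, 292, 525, 537⟩ ⟨487, 509, 487, 517⟩
   ⟨0, 0, 0, 0⟩ ⟨0, 0, 0, 0⟩)
  (by decide +kernel)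

theorem qAS9_624 : Cl ⟨0, false, false, false⟩ ⟨0, true, false, false⟩
    ⟨816, 874, 191, 210⟩ ⟨908, 1001, 0, 50⟩ ⟨908, 1001, 0, 50⟩ := .mk
  (.L ⟨565, 24, true, false, 4903, 7799⟩ ⟨574, 27, true, false, 6495, 9248⟩
   ⟨267, 290, 519, 534⟩ ⟨270, 292, 525, 540⟩ ⟨485, 509, 487, 518⟩
   ⟨0, 0, 0, 0⟩ ⟨0, 0, 0, 0⟩)
  (by decide +kernel)

theorem qAS9_625 : Cl ⟨0, false, false, false⟩ ⟨0, true, false, false⟩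
    ⟨816, 874, 191, 210⟩ ⟨908, 1001, 0, 50⟩ ⟨895, 1001, 0, 61⟩ := .mk
  (.L ⟨565, 24, true, false, 4903, 7799⟩ ⟨574, 27, true, false, 6412, 9568⟩
   ⟨267, 290, 519, 534⟩ ⟨270, 294, 525, 541⟩ ⟨484, 509, 487, 519⟩
   ⟨0, 0, 0, 0⟩ ⟨0, 0, 0, 0⟩)
  (by decide +kernel)

/-- The pairs of the file. -/
def rAS9 : List Pq := [
  ⟨18, 0, ⟨807, 861, 191, 264⟩, ⟨920, 1001, 0, 42⟩, ⟨733, 940, 400, 615⟩⟩,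
  ⟨18, 5, ⟨807, 836, 191, 234⟩, ⟨920, 1001, 0, 42⟩, ⟨558, 607, 363, 411⟩⟩,
  ⟨18, 3, ⟨807, 860, 191, 240⟩, ⟨920, 1001, 0, 42⟩, ⟨741, 878, 246, 380⟩⟩,
  ⟨18, 4, ⟨807, 858, 191, 251⟩, ⟨920, 1001, 0, 42⟩, ⟨765, 881, 353, 499⟩⟩,
  ⟨18, 8, ⟨807, 850, 191, 218⟩, ⟨920, 1001, 0, 42⟩, ⟨694, 729, 150, 183⟩⟩,
  ⟨18, 6, ⟨807, 862, 191, 225⟩, ⟨920, 1001, 0, 42⟩, ⟨799, 862, 140, 225⟩⟩,
  ⟨18, 7, ⟨807, 859, 191, 231⟩, ⟨920, 1001, 0, 42⟩, ⟨778, 861, 202, 294⟩⟩,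
  ⟨18, 11, ⟨807, 865, 191, 217⟩, ⟨920, 1001, 0, 42⟩, ⟨794, 814, 73, 92⟩⟩,
  ⟨18, 9, ⟨807, 865, 191, 217⟩, ⟨920, 1001, 0, 42⟩, ⟨843, 885, 77, 140⟩⟩,
  ⟨18, 10, ⟨807, 862, 191, 225⟩, ⟨920, 1001, 0, 42⟩, ⟨816, 877, 117, 176⟩⟩,
  ⟨18, 14, ⟨811, 868, 191, 212⟩, ⟨920, 1001, 0, 42⟩, ⟨846, 873, 29, 56⟩⟩,
  ⟨18, 12, ⟨811, 868, 191, 212⟩, ⟨920, 1001, 0, 42⟩, ⟨867, 914, 38, 90⟩⟩,
  ⟨18, 13, ⟨807, 865, 191, 217⟩, ⟨920, 1001, 0, 42⟩, ⟨849, 904, 57, 112⟩⟩,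
  ⟨18, 17, ⟨811, 868, 191, 212⟩, ⟨920, 1001, 0, 42⟩, ⟨886, 909, 14, 39⟩⟩,
  ⟨18, 15, ⟨811, 868, 191, 212⟩, ⟨920, 1001, 0, 42⟩, ⟨897, 934, 22, 62⟩⟩,
  ⟨18, 16, ⟨811, 868, 191, 212⟩, ⟨920, 1001, 0, 42⟩, ⟨882, 927, 32, 77⟩⟩,
  ⟨18, 20, ⟨816, 874, 191, 210⟩, ⟨920, 1001, 0, 42⟩, ⟨900, 1001, 0, 29⟩⟩,
  ⟨18, 18, ⟨816, 874, 191, 210⟩, ⟨920, 1001, 0, 42⟩, ⟨908, 1001, 0, 50⟩⟩,
  ⟨18, 19, ⟨816, 874, 191, 210⟩, ⟨920, 1001, 0, 42⟩, ⟨895, 1001, 0, 61⟩⟩,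
  ⟨19, 0, ⟨807, 861, 191, 264⟩, ⟨908, 1001, 0, 50⟩, ⟨733, 940, 400, 615⟩⟩,
  ⟨19, 5, ⟨807, 836, 191, 234⟩, ⟨908, 1001, 0, 50⟩, ⟨558, 607, 363, 411⟩⟩,
  ⟨19, 3, ⟨807, 860, 191, 240⟩, ⟨908, 1001, 0, 50⟩, ⟨741, 878, 246, 380⟩⟩,
  ⟨19, 4, ⟨807, 858, 191, 251⟩, ⟨908, 1001, 0, 50⟩, ⟨765, 881, 353, 499⟩⟩,
  ⟨19, 8, ⟨807, 850, 191, 218⟩, ⟨908, 1001, 0, 50⟩, ⟨694, 729, 150, 183⟩⟩,
  ⟨19, 6, ⟨807, 862, 191, 225⟩, ⟨908, 1001, 0, 50⟩, ⟨799, 862, 140, 225⟩⟩,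
  ⟨19, 7, ⟨807, 859, 191, 231⟩, ⟨908, 1001, 0, 50⟩, ⟨778, 861, 202, 294⟩⟩,
  ⟨19, 11, ⟨807, 865, 191, 217⟩, ⟨908, 1001, 0, 50⟩, ⟨794, 814, 73, 92⟩⟩,
  ⟨19, 9, ⟨807, 865, 191, 217⟩, ⟨908, 1001, 0, 50⟩, ⟨843, 885, 77, 140⟩⟩,
  ⟨19, 10, ⟨807, 862, 191, 225⟩, ⟨908, 1001, 0, 50⟩, ⟨816, 877, 117, 176⟩⟩,
  ⟨19, 14, ⟨811, 868, 191, 212⟩, ⟨908, 1001, 0, 50⟩, ⟨846, 873, 29, 56⟩⟩,
  ⟨19, 12, ⟨811, 868, 191, 212⟩, ⟨908, 1001, 0, 50⟩, ⟨867, 914, 38, 90⟩⟩,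
  ⟨19, 13, ⟨807, 865, 191, 217⟩, ⟨908, 1001, 0, 50⟩, ⟨849, 904, 57, 112⟩⟩,
  ⟨19, 17, ⟨811, 868, 191, 212⟩, ⟨908, 1001, 0, 50⟩, ⟨886, 909, 14, 39⟩⟩,
  ⟨19, 15, ⟨811, 868, 191, 212⟩, ⟨908, 1001, 0, 50⟩, ⟨897, 934, 22, 62⟩⟩,
  ⟨19, 16, ⟨811, 868, 191, 212⟩, ⟨908, 1001, 0, 50⟩, ⟨882, 927, 32, 77⟩⟩,
  ⟨19, 20, ⟨816, 874, 191, 210⟩, ⟨908, 1001, 0, 50⟩, ⟨900, 1001, 0, 29⟩⟩,
  ⟨19, 18, ⟨816, 874, 191, 210⟩, ⟨908, 1001, 0, 50⟩, ⟨908, 1001, 0, 50⟩⟩,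
  ⟨19, 19, ⟨816, 874, 191, 210⟩, ⟨908, 1001, 0, 50⟩, ⟨895, 1001, 0, 61⟩⟩]

theorem rAS9_ok : ∀ p ∈ rAS9, Cr false true p :=
  List.forall_mem_cons.2 ⟨qAS9_588,
  List.forall_mem_cons.2 ⟨qAS9_589,
  List.forall_mem_cons.2 ⟨qAS9_590,
  List.forall_mem_cons.2 ⟨qAS9_591,
  List.forall_mem_cons.2 ⟨qAS9_592,
  List.forall_mem_cons.2 ⟨qAS9_593,
  List.forall_mem_cons.2 ⟨qAS9_594,
  List.forall_mem_cons.2 ⟨qAS9_595,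
  List.forall_mem_cons.2 ⟨qAS9_596,
  List.forall_mem_cons.2 ⟨qAS9_597,
  List.forall_mem_cons.2 ⟨qAS9_598,
  List.forall_mem_cons.2 ⟨qAS9_599,
  List.forall_mem_cons.2 ⟨qAS9_600,
  List.forall_mem_cons.2 ⟨qAS9_601,
  List.forall_mem_cons.2 ⟨qAS9_602,
  List.forall_mem_cons.2 ⟨qAS9_603,
  List.forall_mem_cons.2 ⟨qAS9_604,
  List.forall_mem_cons.2 ⟨qAS9_605,
  List.forall_mem_cons.2 ⟨qAS9_606,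
  List.forall_mem_cons.2 ⟨qAS9_607,
  List.forall_mem_cons.2 ⟨qAS9_608,
  List.forall_mem_cons.2 ⟨qAS9_609,
  List.forall_mem_cons.2 ⟨qAS9_610,
  List.forall_mem_cons.2 ⟨qAS9_611,
  List.forall_mem_cons.2 ⟨qAS9_612,
  List.forall_mem_cons.2 ⟨qAS9_613,
  List.forall_mem_cons.2 ⟨qAS9_614,
  List.forall_mem_cons.2 ⟨qAS9_615,
  List.forall_mem_cons.2 ⟨qAS9_616,
  List.forall_mem_cons.2 ⟨qAS9_617,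
  List.forall_mem_cons.2 ⟨qAS9_618,
  List.forall_mem_cons.2 ⟨qAS9_619,
  List.forall_mem_cons.2 ⟨qAS9_620,
  List.forall_mem_cons.2 ⟨qAS9_621,
  List.forall_mem_cons.2 ⟨qAS9_622,
  List.forall_mem_cons.2 ⟨qAS9_623,
  List.forall_mem_cons.2 ⟨qAS9_624,
  List.forall_mem_cons.2 ⟨qAS9_625,
  List.forall_mem_nil _⟩⟩⟩⟩⟩⟩⟩⟩⟩⟩⟩⟩⟩⟩⟩⟩⟩⟩⟩⟩⟩⟩⟩⟩⟩⟩⟩⟩⟩⟩⟩⟩⟩⟩⟩⟩⟩⟩

end Pool.Agent.S5.Z4
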