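import Pool.Agent.S5.Z4.R.ASb0a
import Pool.Agent.S5.Z4.R.ASb0b

/-!
# Inner nodes with four half twists: certificates
-/

set_option autoImplicit false

namespace Pool.Agent.S5.Z4

theorem qASb0 : Cl ⟨0, false, true, true⟩ ⟨0, true, true, false⟩
    ⟨794, 861, 165, 241⟩ ⟨761, 868, 212, 319⟩ ⟨733, 940, 400, 615⟩ :=
  (Cl.s4
   (Cl.s5
    qASb0_0
    (Cl.s0
     qASb0_1
     (Cl.s5
      qASb0_2
      (Cl.s4
       qASb0_3
       qASb0_4))))
   qASb0_5)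

/-- The pair of the file. -/
def rASb0 : List Pq := [⟨3, 0, ⟨794, 861, 165, 241⟩, ⟨761, 868, 212, 319⟩, ⟨733, 940, 400, 615⟩⟩]

theorem rASb0_ok : ∀ p ∈ rASb0, Cr false true p :=
  List.forall_mem_cons.2 ⟨qASb0, List.forall_mem_nil _⟩

end Pool.Agent.S5.Z4
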