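import Pool.Agent.S5.Z4.R.ASb1a
import Pool.Agent.S5.Z4.R.ASb1b
import Pool.Agent.S5.Z4.R.ASb1c
import Pool.Agent.S5.Z4.R.ASb1d
import Pool.Agent.S5.Z4.R.ASb1e
import Pool.Agent.S5.Z4.R.ASb1f
import Pool.Agent.S5.Z4.R.ASb1g
import Pool.Agent.S5.Z4.R.ASb1h

/-!
# Inner nodes with four half twists: certificates
-/

set_option autoImplicit false

namespace Pool.Agent.S5.Z4

theorem qASb1 : Cl ⟨0, false, true, true⟩ ⟨0, true, true, false⟩
    ⟨792, 861, 155, 232⟩ ⟨763, 870, 296, 424⟩ ⟨733, 940, 400, 615⟩ :=
  (Cl.s4
   (Cl.s5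
    qASb1_0
    (Cl.s0
     (Cl.s5
      qASb1_1
      (Cl.s4
       (Cl.s0
        qASb1_2
        (Cl.s1
         qASb1_3
         (Cl.s5
          qASb1_4
          (Cl.s4
           (Cl.s3
            qASb1_5
            (Cl.s5
             qASb1_6
             (Cl.s0
              qASb1_7
              (Cl.s1
               (Cl.s0
                qASb1_8
                (Cl.s2
                 qASb1_9
                 qASb1_10))
               qASb1_11))))
           qASb1_12))))
       qASb1_13))
     (Cl.s5
      qASb1_14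
      (Cl.s4
       (Cl.s0
        (Cl.s5
         qASb1_15
         (Cl.s1
          qASb1_16
          (Cl.s3
           qASb1_17
           (Cl.s0
            (Cl.s4
             (Cl.s5
              qASb1_18
              qASb1_19)
             qASb1_20)
            qASb1_21))))
        qASb1_22)
       (Cl.s5
        qASb1_23
        (Cl.s0
         (Cl.s1
          qASb1_24
          (Cl.s4
           qASb1_25
           qASb1_26))
         qASb1_27))))))
   (Cl.s5
    qASb1_28
    (Cl.s1
     qASb1_29
     (Cl.s4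
      qASb1_30
      qASb1_31))))

/-- The pair of the file. -/
def rASb1 : List Pq := [⟨4, 0, ⟨792, 861, 155, 232⟩, ⟨763, 870, 296, 424⟩, ⟨733, 940, 400, 615⟩⟩]

theorem rASb1_ok : ∀ p ∈ rASb1, Cr false true p :=
  List.forall_mem_cons.2 ⟨qASb1, List.forall_mem_nil _⟩

end Pool.Agent.S5.Z4
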