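import Pool.Agent.S5.Z4.Tre

/-!
# Inner nodes with four half twists: certificates
-/

set_option autoImplicit false

namespace Pool.Agent.S5.Z4

theorem qSS1_635 : Cl ⟨0, true, true, false⟩ ⟨0, true, false, false⟩
    ⟨778, 860, 226, 294⟩ ⟨725, 933, 409, 604⟩ ⟨816, 877, 117, 176⟩ := .mk
  (.S 2 829
   (.S 3 506
    (.L ⟨687, 84, true, false, 21892, 27966⟩ ⟨662, 44, true, false, 11491, 15760⟩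
     ⟨309, 335, 564, 590⟩ ⟨292, 313, 538, 558⟩ ⟨491, 538, 454, 502⟩
     ⟨0, 0, 0, 0⟩ ⟨0, 0, 0, 0⟩)
    (.S 0 819
     (.L ⟨699, 97, true, false, 25691, 31447⟩ ⟨690, 45, true, false, 11491, 15929⟩
      ⟨315, 339, 575, 597⟩ ⟨297, 313, 538, 557⟩ ⟨499, 542, 450, 494⟩
      ⟨0, 0, 0, 0⟩ ⟨0, 0, 0, 0⟩)
     (.S 2 777
      (.L ⟨710, 101, true, false, 26135, 32654⟩ ⟨662, 44, true, false, 11339, 15760⟩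
       ⟨318, 336, 578, 599⟩ ⟨292, 309, 539, 558⟩ ⟨500, 541, 449, 488⟩
       ⟨0, 0, 0, 0⟩ ⟨0, 0, 0, 0⟩)
      (.L ⟨671, 99, true, false, 25572, 31978⟩ ⟨662, 44, true, false, 11339, 15760⟩
       ⟨312, 331, 579, 601⟩ ⟨292, 309, 539, 558⟩ ⟨503, 545, 452, 492⟩
       ⟨0, 0, 0, 0⟩ ⟨0, 0, 0, 0⟩))))
   (.S 0 819
    (.S 1 260
     (.L ⟨649, 81, true, false, 21194, 28614⟩ ⟨690, 45, true, false, 11491, 14685⟩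
      ⟨301, 325, 567, 598⟩ ⟨297, 312, 538, 552⟩ ⟨502, 548, 461, 504⟩
      ⟨0, 0, 0, 0⟩ ⟨0, 0, 0, 0⟩)
     (.S 0 798
      (.L ⟨668, 86, true, false, 22497, 29859⟩ ⟨703, 50, true, false, 12687, 16015⟩
       ⟨306, 328, 571, 598⟩ ⟨300, 313, 542, 556⟩ ⟨502, 544, 461, 501⟩
       ⟨0, 0, 0, 0⟩ ⟨0, 0, 0, 0⟩)
      (.L ⟨653, 86, true, false, 22607, 30121⟩ ⟨687, 49, true, false, 12589, 15929⟩
       ⟨304, 327, 572, 601⟩ ⟨298, 311, 542, 557⟩ ⟨501, 547, 459, 501⟩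
       ⟨0, 0, 0, 0⟩ ⟨0, 0, 0, 0⟩)))
    (.S 2 881
     (.S 0 839
      (.L ⟨666, 83, true, false, 21469, 31035⟩ ⟨676, 44, true, false, 11339, 15846⟩
       ⟨305, 325, 570, 601⟩ ⟨294, 309, 539, 557⟩ ⟨500, 548, 458, 500⟩
       ⟨0, 0, 0, 0⟩ ⟨0, 0, 0, 0⟩)
      (.L ⟨652, 83, true, false, 21603, 31305⟩ ⟨662, 44, true, false, 11266, 15760⟩
       ⟨303, 324, 571, 603⟩ ⟨292, 306, 539, 558⟩ ⟨500, 549, 456, 499⟩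
       ⟨0, 0, 0, 0⟩ ⟨0, 0, 0, 0⟩))
     (.S 0 839
      (.L ⟨635, 81, true, false, 21120, 30373⟩ ⟨676, 44, true, false, 11339, 15846⟩
       ⟨299, 320, 572, 603⟩ ⟨294, 309, 539, 557⟩ ⟨503, 551, 461, 504⟩
       ⟨0, 0, 0, 0⟩ ⟨0, 0, 0, 0⟩)
      (.L ⟨620, 82, true, false, 21254, 30639⟩ ⟨662, 44, true, false, 11266, 15760⟩
       ⟨297, 318, 573, 605⟩ ⟨292, 306, 539, 558⟩ ⟨503, 553, 461, 504⟩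
       ⟨0, 0, 0, 0⟩ ⟨0, 0, 0, 0⟩)))))
  (by decide +kernel)

theorem qSS1_636 : Cl ⟨0, true, true, false⟩ ⟨0, true, false, false⟩
    ⟨792, 860, 226, 273⟩ ⟨725, 933, 409, 604⟩ ⟨832, 870, 31, 62⟩ := .mk
  (.S 2 829
   (.S 3 506
    (.L ⟨687, 84, true, false, 21986, 27182⟩ ⟨658, 33, true, false, 8731, 11153⟩
     ⟨309, 333, 565, 589⟩ ⟨288, 304, 530, 543⟩ ⟨502, 540, 452, 492⟩
     ⟨0, 0, 0, 0⟩ ⟨0, 0, 0, 0⟩)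
    (.S 0 826
     (.L ⟨694, 97, true, false, 25843, 30691⟩ ⟨681, 34, true, false, 8731, 11398⟩
      ⟨315, 336, 576, 596⟩ ⟨293, 304, 530, 542⟩ ⟨509, 544, 449, 484⟩
      ⟨0, 0, 0, 0⟩ ⟨0, 0, 0, 0⟩)
     (.L ⟨671, 99, true, false, 26211, 31159⟩ ⟨658, 33, true, false, 8507, 11153⟩
      ⟨312, 334, 578, 600⟩ ⟨288, 300, 530, 543⟩ ⟨510, 548, 446, 483⟩
      ⟨0, 0, 0, 0⟩ ⟨0, 0, 0, 0⟩)))
   (.S 2 881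
    (.L ⟨652, 83, true, false, 21288, 30445⟩ ⟨658, 33, true, false, 8731, 11153⟩
     ⟨303, 325, 568, 601⟩ ⟨288, 304, 530, 543⟩ ⟨507, 553, 452, 495⟩
     ⟨0, 0, 0, 0⟩ ⟨0, 0, 0, 0⟩)
    (.L ⟨620, 82, true, false, 20941, 29738⟩ ⟨658, 33, true, false, 8731, 11153⟩
     ⟨297, 320, 570, 603⟩ ⟨288, 304, 530, 543⟩ ⟨510, 556, 456, 499⟩
     ⟨0, 0, 0, 0⟩ ⟨0, 0, 0, 0⟩)))
  (by decide +kernel)

theorem qSS1_637 : Cl ⟨0, true, true, false⟩ ⟨0, true, false, false⟩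
    ⟨791, 860, 226, 278⟩ ⟨725, 933, 409, 604⟩ ⟨857, 913, 40, 101⟩ := .mk
  (.S 2 829
   (.S 3 506
    (.L ⟨687, 84, true, false, 21979, 27368⟩ ⟨632, 35, true, false, 9182, 12891⟩
     ⟨309, 333, 565, 589⟩ ⟨284, 304, 532, 550⟩ ⟨497, 539, 450, 493⟩
     ⟨0, 0, 0, 0⟩ ⟨0, 0, 0, 0⟩)
    (.S 0 825
     (.L ⟨695, 97, true, false, 25832, 30879⟩ ⟨656, 36, true, false, 9182, 13104⟩
      ⟨315, 337, 576, 597⟩ ⟨289, 304, 532, 549⟩ ⟨504, 543, 446, 486⟩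
      ⟨0, 0, 0, 0⟩ ⟨0, 0, 0, 0⟩)
     (.L ⟨671, 99, true, false, 26200, 31353⟩ ⟨632, 35, true, false, 8968, 12891⟩
      ⟨312, 335, 578, 600⟩ ⟨284, 299, 532, 550⟩ ⟨505, 546, 443, 484⟩
      ⟨0, 0, 0, 0⟩ ⟨0, 0, 0, 0⟩)))
   (.S 0 825
    (.S 0 808
     (.L ⟨657, 80, true, false, 21281, 29266⟩ ⟨668, 36, true, false, 9182, 13206⟩
      ⟨303, 326, 568, 598⟩ ⟨291, 304, 532, 549⟩ ⟨503, 549, 455, 497⟩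
      ⟨0, 0, 0, 0⟩ ⟨0, 0, 0, 0⟩)
     (.L ⟨645, 81, true, false, 21395, 29488⟩ ⟨656, 36, true, false, 9075, 13104⟩
      ⟨301, 324, 569, 600⟩ ⟨289, 302, 532, 549⟩ ⟨504, 551, 455, 497⟩
      ⟨0, 0, 0, 0⟩ ⟨0, 0, 0, 0⟩))
    (.S 2 881
     (.L ⟨652, 83, true, false, 21509, 30649⟩ ⟨632, 35, true, false, 8968, 12891⟩
      ⟨303, 323, 571, 602⟩ ⟨284, 299, 532, 550⟩ ⟨504, 551, 452, 493⟩
      ⟨0, 0, 0, 0⟩ ⟨0, 0, 0, 0⟩)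
     (.L ⟨620, 82, true, false, 21161, 29951⟩ ⟨632, 35, true, false, 8968, 12891⟩
      ⟨297, 318, 572, 604⟩ ⟨284, 299, 532, 550⟩ ⟨507, 555, 455, 497⟩
      ⟨0, 0, 0, 0⟩ ⟨0, 0, 0, 0⟩))))
  (by decide +kernel)

theorem qSS1_638 : Cl ⟨0, true, true, false⟩ ⟨0, true, false, false⟩
    ⟨791, 860, 226, 278⟩ ⟨725, 933, 409, 604⟩ ⟨837, 904, 60, 127⟩ := .mk
  (.S 2 829
   (.S 3 506
    (.L ⟨687, 84, true, false, 21979, 27368⟩ ⟨640, 37, true, false, 9693, 13684⟩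
     ⟨309, 333, 565, 589⟩ ⟨286, 307, 533, 552⟩ ⟨496, 539, 452, 496⟩
     ⟨0, 0, 0, 0⟩ ⟨0, 0, 0, 0⟩)
    (.S 2 777
     (.L ⟨710, 101, true, false, 25832, 32062⟩ ⟨640, 37, true, false, 9693, 13684⟩
      ⟨318, 337, 576, 598⟩ ⟨286, 307, 533, 552⟩ ⟨501, 543, 444, 486⟩
      ⟨0, 0, 0, 0⟩ ⟨0, 0, 0, 0⟩)
     (.L ⟨671, 99, true, false, 25269, 31353⟩ ⟨640, 37, true, false, 9693, 13684⟩
      ⟨312, 331, 577, 600⟩ ⟨286, 307, 533, 552⟩ ⟨504, 547, 448, 490⟩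
      ⟨0, 0, 0, 0⟩ ⟨0, 0, 0, 0⟩)))
   (.S 0 825
    (.S 0 808
     (.L ⟨657, 80, true, false, 21281, 29266⟩ ⟨676, 38, true, false, 9693, 13953⟩
      ⟨303, 326, 568, 598⟩ ⟨293, 307, 533, 551⟩ ⟨502, 549, 457, 499⟩
      ⟨0, 0, 0, 0⟩ ⟨0, 0, 0, 0⟩)
     (.L ⟨645, 81, true, false, 21395, 29488⟩ ⟨664, 38, true, false, 9598, 13865⟩
      ⟨301, 324, 569, 600⟩ ⟨291, 305, 533, 551⟩ ⟨503, 551, 456, 499⟩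
      ⟨0, 0, 0, 0⟩ ⟨0, 0, 0, 0⟩))
    (.S 2 881
     (.L ⟨652, 83, true, false, 21509, 30649⟩ ⟨640, 37, true, false, 9503, 13684⟩
      ⟨303, 323, 571, 602⟩ ⟨286, 303, 534, 552⟩ ⟨503, 551, 453, 496⟩
      ⟨0, 0, 0, 0⟩ ⟨0, 0, 0, 0⟩)
     (.L ⟨620, 82, true, false, 21161, 29951⟩ ⟨640, 37, true, false, 9503, 13684⟩
      ⟨297, 318, 572, 604⟩ ⟨286, 303, 534, 552⟩ ⟨506, 555, 456, 500⟩
      ⟨0, 0, 0, 0⟩ ⟨0, 0, 0, 0⟩))))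
  (by decide +kernel)

theorem qSS1_639 : Cl ⟨0, true, true, false⟩ ⟨0, true, false, false⟩
    ⟨792, 860, 226, 273⟩ ⟨725, 933, 409, 604⟩ ⟨876, 905, 11, 39⟩ := .mk
  (.S 2 829
   (.S 3 506
    (.L ⟨687, 84, true, false, 21986, 27182⟩ ⟨626, 38, true, false, 7918, 10667⟩
     ⟨309, 333, 565, 589⟩ ⟨283, 298, 530, 542⟩ ⟨502, 539, 449, 488⟩
     ⟨0, 0, 0, 0⟩ ⟨0, 0, 0, 0⟩)
    (.L ⟨671, 99, true, false, 25843, 31159⟩ ⟨626, 38, true, false, 7918, 10667⟩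
     ⟨312, 336, 576, 600⟩ ⟨283, 298, 530, 542⟩ ⟨508, 547, 442, 483⟩
     ⟨0, 0, 0, 0⟩ ⟨0, 0, 0, 0⟩))
   (.S 0 826
    (.L ⟨644, 81, true, false, 21288, 29281⟩ ⟨656, 32, true, false, 8165, 10939⟩
     ⟨301, 325, 568, 600⟩ ⟨288, 298, 530, 542⟩ ⟨507, 551, 453, 493⟩
     ⟨0, 0, 0, 0⟩ ⟨0, 0, 0, 0⟩)
    (.L ⟨620, 82, true, false, 21516, 29738⟩ ⟨626, 38, true, false, 7918, 10667⟩
     ⟨297, 323, 571, 603⟩ ⟨283, 294, 530, 542⟩ ⟨509, 554, 450, 493⟩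
     ⟨0, 0, 0, 0⟩ ⟨0, 0, 0, 0⟩)))
  (by decide +kernel)

theorem qSS1_640 : Cl ⟨0, true, true, false⟩ ⟨0, true, false, false⟩
    ⟨792, 860, 226, 273⟩ ⟨725, 933, 409, 604⟩ ⟨891, 931, 20, 66⟩ := .mk
  (.S 2 829
   (.S 3 506
    (.L ⟨687, 84, true, false, 21986, 27182⟩ ⟨619, 33, true, false, 8788, 11718⟩
     ⟨309, 333, 565, 589⟩ ⟨281, 298, 532, 547⟩ ⟨498, 538, 449, 489⟩
     ⟨0, 0, 0, 0⟩ ⟨0, 0, 0, 0⟩)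
    (.S 0 826
     (.L ⟨694, 97, true, false, 25843, 30691⟩ ⟨642, 34, true, false, 8788, 11958⟩
      ⟨315, 336, 576, 596⟩ ⟨286, 298, 532, 546⟩ ⟨506, 541, 446, 481⟩
      ⟨0, 0, 0, 0⟩ ⟨0, 0, 0, 0⟩)
     (.L ⟨671, 99, true, false, 26211, 31159⟩ ⟨619, 33, true, false, 8553, 11718⟩
      ⟨312, 334, 578, 600⟩ ⟨281, 294, 532, 547⟩ ⟨506, 545, 442, 480⟩
      ⟨0, 0, 0, 0⟩ ⟨0, 0, 0, 0⟩)))
   (.S 0 826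
    (.L ⟨644, 81, true, false, 21288, 29281⟩ ⟨642, 34, true, false, 8788, 11958⟩
     ⟨301, 325, 568, 600⟩ ⟨286, 298, 532, 546⟩ ⟨504, 550, 452, 494⟩
     ⟨0, 0, 0, 0⟩ ⟨0, 0, 0, 0⟩)
    (.L ⟨620, 82, true, false, 21516, 29738⟩ ⟨619, 33, true, false, 8553, 11718⟩
     ⟨297, 323, 571, 603⟩ ⟨281, 294, 532, 547⟩ ⟨506, 553, 449, 493⟩
     ⟨0, 0, 0, 0⟩ ⟨0, 0, 0, 0⟩)))
  (by decide +kernel)

theorem qSS1_641 : Cl ⟨0, true, true, false⟩ ⟨0, true, false, false⟩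
    ⟨792, 860, 226, 273⟩ ⟨725, 933, 409, 604⟩ ⟨882, 927, 32, 77⟩ := .mk
  (.S 2 829
   (.S 3 506
    (.L ⟨687, 84, true, false, 21986, 27182⟩ ⟨623, 34, true, false, 9089, 12036⟩
     ⟨309, 333, 565, 589⟩ ⟨282, 300, 532, 547⟩ ⟨499, 538, 449, 490⟩
     ⟨0, 0, 0, 0⟩ ⟨0, 0, 0, 0⟩)
    (.S 0 826
     (.L ⟨694, 97, true, false, 25843, 30691⟩ ⟨646, 35, true, false, 9089, 12263⟩
      ⟨315, 336, 576, 596⟩ ⟨287, 300, 532, 547⟩ ⟨505, 542, 446, 483⟩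
      ⟨0, 0, 0, 0⟩ ⟨0, 0, 0, 0⟩)
     (.L ⟨671, 99, true, false, 26211, 31159⟩ ⟨623, 34, true, false, 8867, 12036⟩
      ⟨312, 334, 578, 600⟩ ⟨282, 295, 533, 547⟩ ⟨507, 545, 443, 481⟩
      ⟨0, 0, 0, 0⟩ ⟨0, 0, 0, 0⟩)))
   (.S 0 826
    (.L ⟨644, 81, true, false, 21288, 29281⟩ ⟨646, 35, true, false, 9089, 12263⟩
     ⟨301, 325, 568, 600⟩ ⟨287, 300, 532, 547⟩ ⟨504, 550, 453, 495⟩
     ⟨0, 0, 0, 0⟩ ⟨0, 0, 0, 0⟩)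
    (.L ⟨620, 82, true, false, 21516, 29738⟩ ⟨623, 34, true, false, 8867, 12036⟩
     ⟨297, 323, 571, 603⟩ ⟨282, 295, 533, 547⟩ ⟨506, 553, 450, 494⟩
     ⟨0, 0, 0, 0⟩ ⟨0, 0, 0, 0⟩)))
  (by decide +kernel)

theorem qSS1_642 : Cl ⟨0, true, true, false⟩ ⟨0, true, false, false⟩
    ⟨800, 860, 226, 272⟩ ⟨725, 933, 409, 604⟩ ⟨900, 1001, 0, 29⟩ := .mk
  (.S 2 829
   (.S 3 506
    (.L ⟨687, 84, true, false, 22040, 27145⟩ ⟨579, 33, true, false, 7742, 11105⟩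
     ⟨309, 332, 566, 589⟩ ⟨272, 294, 530, 547⟩ ⟨498, 538, 444, 486⟩
     ⟨0, 0, 0, 0⟩ ⟨0, 0, 0, 0⟩)
    (.S 2 777
     (.L ⟨710, 101, true, false, 25930, 31841⟩ ⟨579, 33, true, false, 7742, 11105⟩
      ⟨318, 336, 576, 598⟩ ⟨272, 294, 530, 547⟩ ⟨503, 542, 437, 477⟩
      ⟨0, 0, 0, 0⟩ ⟨0, 0, 0, 0⟩)
     (.L ⟨671, 99, true, false, 25366, 31121⟩ ⟨579, 33, true, false, 7742, 11105⟩
      ⟨312, 330, 578, 600⟩ ⟨272, 294, 530, 547⟩ ⟨507, 546, 440, 480⟩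
      ⟨0, 0, 0, 0⟩ ⟨0, 0, 0, 0⟩)))
   (.S 0 830
    (.S 0 815
     (.L ⟨652, 81, true, false, 21341, 29090⟩ ⟨610, 34, true, false, 8085, 11470⟩
      ⟨302, 324, 569, 598⟩ ⟨279, 294, 530, 546⟩ ⟨504, 548, 450, 490⟩
      ⟨0, 0, 0, 0⟩ ⟨0, 0, 0, 0⟩)
     (.L ⟨641, 81, true, false, 21442, 29291⟩ ⟨599, 34, true, false, 7971, 11349⟩
      ⟨300, 323, 570, 600⟩ ⟨277, 292, 530, 547⟩ ⟨505, 550, 448, 490⟩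
      ⟨0, 0, 0, 0⟩ ⟨0, 0, 0, 0⟩))
    (.S 0 845
     (.L ⟨631, 81, true, false, 21542, 29492⟩ ⟨589, 34, true, false, 7856, 11227⟩
      ⟨299, 322, 571, 601⟩ ⟨275, 290, 530, 547⟩ ⟨505, 551, 447, 489⟩
      ⟨0, 0, 0, 0⟩ ⟨0, 0, 0, 0⟩)
     (.L ⟨620, 82, true, false, 21643, 29695⟩ ⟨579, 33, true, false, 7742, 11105⟩
      ⟨297, 321, 572, 603⟩ ⟨272, 288, 530, 547⟩ ⟨506, 553, 446, 489⟩
      ⟨0, 0, 0, 0⟩ ⟨0, 0, 0, 0⟩))))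
  (by decide +kernel)

theorem qSS1_643 : Cl ⟨0, true, true, false⟩ ⟨0, true, false, false⟩
    ⟨800, 860, 226, 272⟩ ⟨725, 933, 409, 604⟩ ⟨908, 1001, 0, 50⟩ := .mk
  (.S 2 829
   (.S 3 506
    (.L ⟨687, 84, true, false, 22040, 27145⟩ ⟨579, 33, true, false, 7803, 11709⟩
     ⟨309, 332, 566, 589⟩ ⟨272, 295, 530, 549⟩ ⟨497, 538, 444, 487⟩
     ⟨0, 0, 0, 0⟩ ⟨0, 0, 0, 0⟩)
    (.S 2 777
     (.L ⟨710, 101, true, false, 25930, 31841⟩ ⟨579, 33, true, false, 7803, 11709⟩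
      ⟨318, 336, 576, 598⟩ ⟨272, 295, 530, 549⟩ ⟨502, 542, 437, 478⟩
      ⟨0, 0, 0, 0⟩ ⟨0, 0, 0, 0⟩)
     (.L ⟨671, 99, true, false, 25366, 31121⟩ ⟨579, 33, true, false, 7803, 11709⟩
      ⟨312, 330, 578, 600⟩ ⟨272, 295, 530, 549⟩ ⟨506, 547, 440, 481⟩
      ⟨0, 0, 0, 0⟩ ⟨0, 0, 0, 0⟩)))
   (.S 2 881
    (.L ⟨652, 83, true, false, 21341, 30404⟩ ⟨579, 33, true, false, 7803, 11709⟩
     ⟨303, 324, 569, 601⟩ ⟨272, 295, 530, 549⟩ ⟨502, 551, 444, 491⟩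
     ⟨0, 0, 0, 0⟩ ⟨0, 0, 0, 0⟩)
    (.S 0 830
     (.L ⟨641, 81, true, false, 20994, 29291⟩ ⟨599, 34, true, false, 8031, 11932⟩
      ⟨300, 319, 570, 600⟩ ⟨277, 295, 530, 549⟩ ⟨505, 551, 452, 493⟩
      ⟨0, 0, 0, 0⟩ ⟨0, 0, 0, 0⟩)
     (.L ⟨620, 82, true, false, 21194, 29695⟩ ⟨579, 33, true, false, 7803, 11709⟩
      ⟨297, 317, 572, 603⟩ ⟨272, 291, 530, 549⟩ ⟨506, 554, 449, 492⟩
      ⟨0, 0, 0, 0⟩ ⟨0, 0, 0, 0⟩))))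
  (by decide +kernel)

theorem qSS1_644 : Cl ⟨0, true, true, false⟩ ⟨0, true, false, false⟩
    ⟨800, 860, 226, 272⟩ ⟨725, 933, 409, 604⟩ ⟨895, 1001, 0, 61⟩ := .mk
  (.S 2 829
   (.S 3 506
    (.L ⟨687, 84, true, false, 22040, 27145⟩ ⟨579, 33, true, false, 7704, 12026⟩
     ⟨309, 332, 566, 589⟩ ⟨272, 297, 530, 550⟩ ⟨496, 539, 444, 489⟩
     ⟨0, 0, 0, 0⟩ ⟨0, 0, 0, 0⟩)
    (.S 2 777
     (.L ⟨710, 101, true, false, 25930, 31841⟩ ⟨579, 33, true, false, 7704, 12026⟩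
      ⟨318, 336, 576, 598⟩ ⟨272, 297, 530, 550⟩ ⟨501, 543, 437, 479⟩
      ⟨0, 0, 0, 0⟩ ⟨0, 0, 0, 0⟩)
     (.L ⟨671, 99, true, false, 25366, 31121⟩ ⟨579, 33, true, false, 7704, 12026⟩
      ⟨312, 330, 578, 600⟩ ⟨272, 297, 530, 550⟩ ⟨505, 547, 440, 483⟩
      ⟨0, 0, 0, 0⟩ ⟨0, 0, 0, 0⟩)))
   (.S 0 830
    (.S 2 881
     (.L ⟨673, 82, true, false, 21341, 29994⟩ ⟨599, 34, true, false, 7932, 12239⟩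
      ⟨306, 324, 569, 598⟩ ⟨277, 297, 530, 550⟩ ⟨502, 547, 449, 490⟩
      ⟨0, 0, 0, 0⟩ ⟨0, 0, 0, 0⟩)
     (.L ⟨641, 81, true, false, 20994, 29291⟩ ⟨599, 34, true, false, 7932, 12239⟩
      ⟨300, 319, 570, 600⟩ ⟨277, 297, 530, 550⟩ ⟨504, 551, 452, 494⟩
      ⟨0, 0, 0, 0⟩ ⟨0, 0, 0, 0⟩))
    (.S 4 948
     (.L ⟨620, 82, true, false, 21542, 29695⟩ ⟨607, 31, true, false, 7704, 11648⟩
      ⟨297, 322, 571, 603⟩ ⟨278, 293, 530, 547⟩ ⟨506, 554, 448, 493⟩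
      ⟨0, 0, 0, 0⟩ ⟨0, 0, 0, 0⟩)
     (.L ⟨620, 82, true, false, 21542, 29695⟩ ⟨579, 33, true, false, 8334, 12026⟩
      ⟨297, 322, 571, 603⟩ ⟨272, 287, 532, 550⟩ ⟨503, 552, 445, 489⟩
      ⟨0, 0, 0, 0⟩ ⟨0, 0, 0, 0⟩))))
  (by decide +kernel)

theorem qSS1_645 : Cl ⟨2, true, false, true⟩ ⟨2, true, false, true⟩
    ⟨741, 833, 214, 310⟩ ⟨537, 599, 374, 431⟩ ⟨537, 599, 374, 431⟩ := .mk
  (.S 0 787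
   (.L ⟨950, 81, true, false, 21009, 26312⟩ ⟨950, 81, true, false, 21009, 26312⟩
    ⟨338, 354, 553, 569⟩ ⟨338, 354, 553, 569⟩ ⟨483, 517, 483, 517⟩
    ⟨476, 543, 614, 695⟩ ⟨476, 543, 614, 695⟩)
   (.L ⟨917, 82, true, false, 21264, 26516⟩ ⟨917, 82, true, false, 21264, 26516⟩
    ⟨335, 351, 555, 571⟩ ⟨335, 351, 555, 571⟩ ⟨483, 517, 483, 517⟩
    ⟨494, 561, 612, 692⟩ ⟨494, 561, 612, 692⟩))
  (by decide +kernel)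

theorem qSS1_646 : Cl ⟨2, true, false, true⟩ ⟨0, true, true, true⟩
    ⟨764, 833, 214, 310⟩ ⟨537, 599, 374, 431⟩ ⟨732, 879, 252, 393⟩ := .mk
  (.S 4 805
   (.S 1 262
    (.S 5 322
     (.L ⟨917, 82, true, false, 21137, 25125⟩ ⟨735, 60, true, false, 15594, 19759⟩
      ⟨335, 351, 554, 569⟩ ⟨308, 327, 547, 565⟩ ⟨478, 512, 465, 499⟩
      ⟨487, 561, 628, 693⟩ ⟨0, 0, 0, 0⟩)
     (.L ⟨917, 82, true, false, 21137, 25125⟩ ⟨731, 70, true, false, 18118, 22399⟩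
      ⟨335, 351, 554, 569⟩ ⟨310, 330, 554, 573⟩ ⟨472, 508, 468, 504⟩
      ⟨487, 561, 628, 693⟩ ⟨0, 0, 0, 0⟩))
    (.S 1 286
     (.L ⟨922, 87, true, false, 22487, 25817⟩ ⟨735, 67, true, false, 17212, 23256⟩
      ⟨337, 352, 557, 570⟩ ⟨310, 331, 551, 575⟩ ⟨472, 510, 466, 503⟩
      ⟨486, 556, 620, 673⟩ ⟨0, 0, 0, 0⟩)
     (.L ⟨924, 90, true, false, 23171, 26516⟩ ⟨735, 70, true, false, 18028, 24120⟩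
      ⟨338, 352, 558, 571⟩ ⟨311, 332, 554, 577⟩ ⟨471, 509, 467, 504⟩
      ⟨485, 555, 612, 663⟩ ⟨0, 0, 0, 0⟩)))
   (.S 1 262
    (.S 5 322
     (.L ⟨917, 82, true, false, 21137, 25125⟩ ⟨683, 60, true, false, 15498, 19600⟩
      ⟨335, 351, 554, 569⟩ ⟨300, 320, 549, 568⟩ ⟨473, 508, 460, 496⟩
      ⟨487, 561, 628, 693⟩ ⟨0, 0, 0, 0⟩)
     (.L ⟨917, 82, true, false, 21137, 25125⟩ ⟨679, 69, true, false, 17840, 22043⟩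
      ⟨335, 351, 554, 569⟩ ⟨302, 323, 556, 576⟩ ⟨468, 505, 463, 500⟩
      ⟨487, 561, 628, 693⟩ ⟨0, 0, 0, 0⟩))
    (.L ⟨922, 87, true, false, 22487, 26516⟩ ⟨683, 67, true, false, 17237, 23891⟩
     ⟨337, 352, 557, 571⟩ ⟨302, 325, 554, 580⟩ ⟨466, 507, 461, 501⟩
     ⟨485, 556, 612, 673⟩ ⟨0, 0, 0, 0⟩)))
  (by decide +kernel)

theorem qSS1_647 : Cl ⟨2, true, false, true⟩ ⟨0, true, true, true⟩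
    ⟨757, 833, 222, 310⟩ ⟨537, 599, 374, 431⟩ ⟨756, 882, 364, 517⟩ := .mk
  (.S 4 819
   (.S 5 440
    (.S 1 266
     (.L ⟨918, 83, true, false, 21324, 25240⟩ ⟨717, 77, true, false, 19776, 24237⟩
      ⟨335, 351, 554, 569⟩ ⟨311, 330, 559, 579⟩ ⟨468, 505, 469, 507⟩
      ⟨484, 560, 627, 691⟩ ⟨0, 0, 0, 0⟩)
     (.L ⟨923, 88, true, false, 22574, 26516⟩ ⟨721, 83, true, false, 21358, 25866⟩
      ⟨337, 353, 557, 571⟩ ⟨313, 332, 563, 582⟩ ⟨467, 504, 470, 507⟩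
      ⟨482, 556, 612, 672⟩ ⟨0, 0, 0, 0⟩))
    (.S 1 266
     (.S 1 244
      (.S 4 787
       (.L ⟨918, 83, true, false, 21324, 24610⟩ ⟨731, 89, true, false, 22529, 26704⟩
        ⟨335, 350, 554, 568⟩ ⟨316, 330, 567, 584⟩ ⟨466, 499, 476, 509⟩
        ⟨485, 560, 635, 691⟩ ⟨0, 0, 0, 0⟩)
       (.L ⟨918, 83, true, false, 21324, 24610⟩ ⟨708, 88, true, false, 22277, 26363⟩
        ⟨335, 350, 554, 568⟩ ⟨313, 327, 568, 585⟩ ⟨464, 498, 474, 507⟩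
        ⟨485, 560, 635, 691⟩ ⟨0, 0, 0, 0⟩))
      (.L ⟨920, 85, true, false, 21947, 25240⟩ ⟨711, 91, true, false, 23337, 27191⟩
       ⟨336, 351, 555, 569⟩ ⟨314, 332, 569, 587⟩ ⟨463, 499, 474, 511⟩
       ⟨484, 558, 627, 681⟩ ⟨0, 0, 0, 0⟩))
     (.S 0 795
      (.L ⟨951, 87, true, false, 22574, 26348⟩ ⟨742, 93, true, false, 24152, 28560⟩
       ⟨339, 353, 557, 570⟩ ⟨319, 335, 570, 587⟩ ⟨465, 499, 476, 510⟩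
       ⟨482, 541, 614, 672⟩ ⟨0, 0, 0, 0⟩)
      (.L ⟨923, 88, true, false, 22717, 26516⟩ ⟨714, 94, true, false, 24400, 28872⟩
       ⟨337, 351, 558, 571⟩ ⟨316, 332, 573, 590⟩ ⟨463, 497, 476, 510⟩
       ⟨497, 556, 612, 670⟩ ⟨0, 0, 0, 0⟩))))
   (.S 1 266
    (.S 5 440
     (.L ⟨918, 83, true, false, 21324, 25240⟩ ⟨674, 76, true, false, 19455, 23825⟩
      ⟨335, 351, 554, 569⟩ ⟨304, 324, 561, 581⟩ ⟨464, 502, 465, 503⟩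
      ⟨484, 560, 627, 691⟩ ⟨0, 0, 0, 0⟩)
     (.S 4 850
      (.S 1 244
       (.L ⟨918, 83, true, false, 21324, 24610⟩ ⟨686, 87, true, false, 22019, 26033⟩
        ⟨335, 350, 554, 568⟩ ⟨309, 324, 568, 586⟩ ⟨462, 497, 471, 505⟩
        ⟨485, 560, 635, 691⟩ ⟨0, 0, 0, 0⟩)
       (.L ⟨920, 85, true, false, 21947, 25240⟩ ⟨689, 90, true, false, 22877, 26886⟩
        ⟨336, 351, 555, 569⟩ ⟨311, 326, 570, 588⟩ ⟨461, 496, 472, 506⟩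
        ⟨484, 558, 627, 681⟩ ⟨0, 0, 0, 0⟩))
      (.S 1 244
       (.L ⟨918, 83, true, false, 21324, 24610⟩ ⟨665, 86, true, false, 21771, 25694⟩
        ⟨335, 350, 554, 568⟩ ⟨306, 321, 569, 587⟩ ⟨460, 495, 469, 503⟩
        ⟨485, 560, 635, 691⟩ ⟨0, 0, 0, 0⟩)
       (.L ⟨920, 85, true, false, 21947, 25240⟩ ⟨668, 89, true, false, 22652, 26573⟩
        ⟨336, 351, 555, 569⟩ ⟨308, 323, 571, 589⟩ ⟨460, 494, 470, 504⟩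
        ⟨484, 558, 627, 681⟩ ⟨0, 0, 0, 0⟩))))
    (.S 5 440
     (.L ⟨923, 88, true, false, 22574, 26516⟩ ⟨678, 82, true, false, 21134, 25554⟩
      ⟨337, 353, 557, 571⟩ ⟨307, 327, 565, 585⟩ ⟨463, 501, 466, 505⟩
      ⟨482, 556, 612, 672⟩ ⟨0, 0, 0, 0⟩)
     (.S 4 850
      (.L ⟨923, 88, true, false, 22574, 26516⟩ ⟨692, 93, true, false, 23741, 28617⟩
       ⟨337, 353, 557, 571⟩ ⟨313, 329, 572, 591⟩ ⟨460, 497, 472, 509⟩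
       ⟨482, 556, 612, 672⟩ ⟨0, 0, 0, 0⟩)
      (.L ⟨923, 88, true, false, 22574, 26516⟩ ⟨671, 93, true, false, 23540, 28356⟩
       ⟨337, 353, 557, 571⟩ ⟨309, 326, 573, 593⟩ ⟨457, 495, 469, 507⟩
       ⟨482, 556, 612, 672⟩ ⟨0, 0, 0, 0⟩)))))
  (by decide +kernel)

theorem qSS1_648 : Cl ⟨2, true, false, true⟩ ⟨0, true, false, false⟩
    ⟨766, 833, 214, 286⟩ ⟨537, 599, 374, 431⟩ ⟨683, 718, 155, 188⟩ := .mk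
  (.L ⟨917, 82, true, false, 21148, 25817⟩ ⟨806, 46, true, false, 12064, 15439⟩
   ⟨335, 351, 554, 570⟩ ⟨314, 327, 536, 549⟩ ⟨490, 519, 465, 494⟩
   ⟨486, 561, 620, 693⟩ ⟨0, 0, 0, 0⟩)
  (by decide +kernel)

theorem qSS1_649 : Cl ⟨2, true, false, true⟩ ⟨0, true, true, true⟩
    ⟨778, 833, 214, 294⟩ ⟨537, 599, 374, 431⟩ ⟨792, 859, 143, 231⟩ := .mk
  (.L ⟨917, 82, true, false, 21214, 26049⟩ ⟨695, 46, true, false, 11857, 17667⟩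
   ⟨335, 351, 554, 571⟩ ⟨298, 318, 538, 562⟩ ⟨477, 516, 456, 492⟩
   ⟨491, 561, 617, 692⟩ ⟨0, 0, 0, 0⟩)
  (by decide +kernel)

theorem qSS1_650 : Cl ⟨2, true, false, true⟩ ⟨0, true, true, true⟩
    ⟨770, 833, 214, 303⟩ ⟨537, 599, 374, 431⟩ ⟨770, 859, 208, 303⟩ := .mk
  (.S 1 258
   (.L ⟨917, 82, true, false, 21170, 25010⟩ ⟨696, 54, true, false, 14037, 18839⟩
    ⟨335, 350, 554, 569⟩ ⟨300, 322, 544, 565⟩ ⟨476, 512, 460, 496⟩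
    ⟨489, 561, 630, 693⟩ ⟨0, 0, 0, 0⟩)
   (.L ⟨922, 87, true, false, 22398, 26311⟩ ⟨696, 60, true, false, 15552, 20488⟩
    ⟨337, 352, 557, 571⟩ ⟨302, 324, 548, 570⟩ ⟨474, 511, 460, 497⟩
    ⟨487, 557, 614, 675⟩ ⟨0, 0, 0, 0⟩))
  (by decide +kernel)

theorem qSS1_651 : Cl ⟨2, true, false, true⟩ ⟨0, true, false, false⟩
    ⟨783, 833, 214, 275⟩ ⟨537, 599, 374, 431⟩ ⟨781, 809, 72, 97⟩ := .mk
  (.L ⟨917, 82, true, false, 21242, 25499⟩ ⟨725, 36, true, false, 9426, 12185⟩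
   ⟨335, 350, 555, 569⟩ ⟨301, 312, 531, 543⟩ ⟨492, 517, 458, 483⟩
   ⟨493, 561, 624, 692⟩ ⟨0, 0, 0, 0⟩)
  (by decide +kernel)

theorem qSS1_652 : Cl ⟨2, true, false, true⟩ ⟨0, true, false, false⟩
    ⟨786, 833, 214, 283⟩ ⟨537, 599, 374, 431⟩ ⟨843, 885, 77, 140⟩ := .mk
  (.L ⟨917, 82, true, false, 21258, 25730⟩ ⟨673, 38, true, false, 9866, 14327⟩
   ⟨335, 350, 555, 570⟩ ⟨292, 308, 534, 552⟩ ⟨484, 515, 453, 483⟩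
   ⟨494, 561, 621, 692⟩ ⟨0, 0, 0, 0⟩)
  (by decide +kernel)

theorem qSS1_653 : Cl ⟨2, true, false, true⟩ ⟨0, true, false, false⟩
    ⟨778, 833, 214, 294⟩ ⟨537, 599, 374, 431⟩ ⟨816, 877, 117, 176⟩ := .mk
  (.L ⟨917, 82, true, false, 21214, 26049⟩ ⟨681, 43, true, false, 11070, 15871⟩
   ⟨335, 351, 554, 571⟩ ⟨295, 313, 537, 557⟩ ⟨480, 515, 454, 488⟩
   ⟨491, 561, 617, 692⟩ ⟨0, 0, 0, 0⟩)
  (by decide +kernel)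

theorem qSS1_654 : Cl ⟨2, true, false, true⟩ ⟨0, true, false, false⟩
    ⟨792, 833, 214, 273⟩ ⟨537, 599, 374, 431⟩ ⟨832, 870, 31, 62⟩ := .mk
  (.L ⟨917, 82, true, false, 21291, 25441⟩ ⟨678, 32, true, false, 8314, 11348⟩
   ⟨335, 350, 555, 569⟩ ⟨292, 304, 529, 542⟩ ⟨491, 516, 453, 478⟩
   ⟨497, 561, 625, 691⟩ ⟨0, 0, 0, 0⟩)
  (by decide +kernel)

/-- The pairs of the file. -/
def rSS1 : List Pq := [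
  ⟨0, 10, ⟨778, 860, 226, 294⟩, ⟨725, 933, 409, 604⟩, ⟨816, 877, 117, 176⟩⟩,
  ⟨0, 14, ⟨792, 860, 226, 273⟩, ⟨725, 933, 409, 604⟩, ⟨832, 870, 31, 62⟩⟩,
  ⟨0, 12, ⟨791, 860, 226, 278⟩, ⟨725, 933, 409, 604⟩, ⟨857, 913, 40, 101⟩⟩,
  ⟨0, 13, ⟨791, 860, 226, 278⟩, ⟨725, 933, 409, 604⟩, ⟨837, 904, 60, 127⟩⟩,
  ⟨0, 17, ⟨792, 860, 226, 273⟩, ⟨725, 933, 409, 604⟩, ⟨876, 905, 11, 39⟩⟩,
  ⟨0, 15, ⟨792, 860, 226, 273⟩, ⟨725, 933, 409, 604⟩, ⟨891, 931, 20, 66⟩⟩,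
  ⟨0, 16, ⟨792, 860, 226, 273⟩, ⟨725, 933, 409, 604⟩, ⟨882, 927, 32, 77⟩⟩,
  ⟨0, 20, ⟨800, 860, 226, 272⟩, ⟨725, 933, 409, 604⟩, ⟨900, 1001, 0, 29⟩⟩,
  ⟨0, 18, ⟨800, 860, 226, 272⟩, ⟨725, 933, 409, 604⟩, ⟨908, 1001, 0, 50⟩⟩,
  ⟨0, 19, ⟨800, 860, 226, 272⟩, ⟨725, 933, 409, 604⟩, ⟨895, 1001, 0, 61⟩⟩,
  ⟨5, 5, ⟨741, 833, 214, 310⟩, ⟨537, 599, 374, 431⟩, ⟨537, 599, 374, 431⟩⟩,
  ⟨5, 3, ⟨764, 833, 214, 310⟩, ⟨537, 599, 374, 431⟩, ⟨732, 879, 252, 393⟩⟩,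
  ⟨5, 4, ⟨757, 833, 222, 310⟩, ⟨537, 599, 374, 431⟩, ⟨756, 882, 364, 517⟩⟩,
  ⟨5, 8, ⟨766, 833, 214, 286⟩, ⟨537, 599, 374, 431⟩, ⟨683, 718, 155, 188⟩⟩,
  ⟨5, 6, ⟨778, 833, 214, 294⟩, ⟨537, 599, 374, 431⟩, ⟨792, 859, 143, 231⟩⟩,
  ⟨5, 7, ⟨770, 833, 214, 303⟩, ⟨537, 599, 374, 431⟩, ⟨770, 859, 208, 303⟩⟩,
  ⟨5, 11, ⟨783, 833, 214, 275⟩, ⟨537, 599, 374, 431⟩, ⟨781, 809, 72, 97⟩⟩,
  ⟨5, 9, ⟨786, 833, 214, 283⟩, ⟨537, 599, 374, 431⟩, ⟨843, 885, 77, 140⟩⟩,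
  ⟨5, 10, ⟨778, 833, 214, 294⟩, ⟨537, 599, 374, 431⟩, ⟨816, 877, 117, 176⟩⟩,
  ⟨5, 14, ⟨792, 833, 214, 273⟩, ⟨537, 599, 374, 431⟩, ⟨832, 870, 31, 62⟩⟩]

theorem rSS1_ok : ∀ p ∈ rSS1, Cr true true p :=
  List.forall_mem_cons.2 ⟨qSS1_635,
  List.forall_mem_cons.2 ⟨qSS1_636,
  List.forall_mem_cons.2 ⟨qSS1_637,
  List.forall_mem_cons.2 ⟨qSS1_638,
  List.forall_mem_cons.2 ⟨qSS1_639,
  List.forall_mem_cons.2 ⟨qSS1_640,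
  List.forall_mem_cons.2 ⟨qSS1_641,
  List.forall_mem_cons.2 ⟨qSS1_642,
  List.forall_mem_cons.2 ⟨qSS1_643,
  List.forall_mem_cons.2 ⟨qSS1_644,
  List.forall_mem_cons.2 ⟨qSS1_645,
  List.forall_mem_cons.2 ⟨qSS1_646,
  List.forall_mem_cons.2 ⟨qSS1_647,
  List.forall_mem_cons.2 ⟨qSS1_648,
  List.forall_mem_cons.2 ⟨qSS1_649,
  List.forall_mem_cons.2 ⟨qSS1_650,
  List.forall_mem_cons.2 ⟨qSS1_651,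
  List.forall_mem_cons.2 ⟨qSS1_652,
  List.forall_mem_cons.2 ⟨qSS1_653,
  List.forall_mem_cons.2 ⟨qSS1_654,
  List.forall_mem_nil _⟩⟩⟩⟩⟩⟩⟩⟩⟩⟩⟩⟩⟩⟩⟩⟩⟩⟩⟩⟩

end Pool.Agent.S5.Z4
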