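import Pool.Agent.S5.Z4.Tre

/-!
# Inner nodes with four half twists: certificates
-/

set_option autoImplicit false

namespace Pool.Agent.S5.Z4

theorem qSS2_655 : Cl ⟨2, true, false, true⟩ ⟨0, true, false, false⟩
    ⟨791, 833, 214, 278⟩ ⟨537, 599, 374, 431⟩ ⟨857, 913, 40, 101⟩ := .mk
  (.L ⟨917, 82, true, false, 21286, 25585⟩ ⟨652, 34, true, false, 8754, 13055⟩
   ⟨335, 350, 555, 570⟩ ⟨288, 304, 531, 549⟩ ⟨485, 516, 450, 479⟩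
   ⟨496, 561, 623, 691⟩ ⟨0, 0, 0, 0⟩)
  (by decide +kernel)

theorem qSS2_656 : Cl ⟨2, true, false, true⟩ ⟨0, true, false, false⟩
    ⟨791, 833, 214, 278⟩ ⟨537, 599, 374, 431⟩ ⟨837, 904, 60, 127⟩ := .mk
  (.L ⟨917, 82, true, false, 21286, 25585⟩ ⟨659, 36, true, false, 9273, 13824⟩
   ⟨335, 350, 555, 570⟩ ⟨290, 307, 532, 551⟩ ⟨484, 516, 452, 482⟩
   ⟨496, 561, 623, 691⟩ ⟨0, 0, 0, 0⟩)
  (by decide +kernel)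

theorem qSS2_657 : Cl ⟨2, true, false, true⟩ ⟨0, true, false, false⟩
    ⟨792, 833, 214, 273⟩ ⟨537, 599, 374, 431⟩ ⟨876, 905, 11, 39⟩ := .mk
  (.L ⟨917, 82, true, false, 21291, 25441⟩ ⟨653, 30, true, false, 7697, 10883⟩
   ⟨335, 350, 555, 569⟩ ⟨287, 298, 528, 542⟩ ⟨490, 515, 450, 474⟩
   ⟨497, 561, 625, 691⟩ ⟨0, 0, 0, 0⟩)
  (by decide +kernel)

theorem qSS2_658 : Cl ⟨2, true, false, true⟩ ⟨0, true, false, false⟩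
    ⟨792, 833, 214, 273⟩ ⟨537, 599, 374, 431⟩ ⟨891, 931, 20, 66⟩ := .mk
  (.L ⟨917, 82, true, false, 21291, 25441⟩ ⟨639, 32, true, false, 8347, 11909⟩
   ⟨335, 350, 555, 569⟩ ⟨285, 298, 530, 546⟩ ⟨487, 514, 449, 475⟩
   ⟨497, 561, 625, 691⟩ ⟨0, 0, 0, 0⟩)
  (by decide +kernel)

theorem qSS2_659 : Cl ⟨2, true, false, true⟩ ⟨0, true, false, false⟩
    ⟨792, 833, 214, 273⟩ ⟨537, 599, 374, 431⟩ ⟨882, 927, 32, 77⟩ := .mk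
  (.L ⟨917, 82, true, false, 21291, 25441⟩ ⟨643, 33, true, false, 8651, 12217⟩
   ⟨335, 350, 555, 569⟩ ⟨286, 300, 531, 547⟩ ⟨486, 514, 450, 476⟩
   ⟨497, 561, 625, 691⟩ ⟨0, 0, 0, 0⟩)
  (by decide +kernel)

theorem qSS2_660 : Cl ⟨2, true, false, true⟩ ⟨0, true, false, false⟩
    ⟨800, 833, 214, 272⟩ ⟨537, 599, 374, 431⟩ ⟨900, 1001, 0, 29⟩ := .mk
  (.L ⟨917, 82, true, false, 21335, 25412⟩ ⟨599, 32, true, false, 7521, 11325⟩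
   ⟨335, 349, 555, 569⟩ ⟨276, 294, 528, 547⟩ ⟨486, 515, 444, 473⟩
   ⟨500, 561, 625, 691⟩ ⟨0, 0, 0, 0⟩)
  (by decide +kernel)

theorem qSS2_661 : Cl ⟨2, true, false, true⟩ ⟨0, true, false, false⟩
    ⟨800, 833, 214, 272⟩ ⟨537, 599, 374, 431⟩ ⟨908, 1001, 0, 50⟩ := .mk
  (.L ⟨917, 82, true, false, 21335, 25412⟩ ⟨599, 32, true, false, 7578, 11910⟩
   ⟨335, 349, 555, 569⟩ ⟨276, 295, 529, 549⟩ ⟨484, 514, 444, 474⟩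
   ⟨500, 561, 625, 691⟩ ⟨0, 0, 0, 0⟩)
  (by decide +kernel)

theorem qSS2_662 : Cl ⟨2, true, false, true⟩ ⟨0, true, false, false⟩
    ⟨800, 833, 214, 272⟩ ⟨537, 599, 374, 431⟩ ⟨895, 1001, 0, 61⟩ := .mk
  (.L ⟨917, 82, true, false, 21335, 25412⟩ ⟨599, 32, true, false, 7485, 12218⟩
   ⟨335, 349, 555, 569⟩ ⟨276, 297, 528, 550⟩ ⟨484, 515, 444, 475⟩
   ⟨500, 561, 625, 691⟩ ⟨0, 0, 0, 0⟩)
  (by decide +kernel)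

theorem qSS2_663 : Cl ⟨0, true, true, true⟩ ⟨0, true, true, true⟩
    ⟨764, 859, 211, 314⟩ ⟨732, 879, 252, 393⟩ ⟨732, 879, 252, 393⟩ := .mk
  (.S 0 811
   (.S 0 787
    (.L ⟨717, 59, true, false, 15493, 23912⟩ ⟨717, 59, true, false, 15493, 23912⟩
     ⟨305, 332, 547, 578⟩ ⟨305, 332, 547, 578⟩ ⟨470, 530, 471, 529⟩
     ⟨0, 0, 0, 0⟩ ⟨0, 0, 0, 0⟩)
    (.L ⟨699, 59, true, false, 15526, 23982⟩ ⟨699, 59, true, false, 15526, 23982⟩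
     ⟨302, 331, 548, 579⟩ ⟨302, 331, 548, 579⟩ ⟨469, 531, 470, 530⟩
     ⟨0, 0, 0, 0⟩ ⟨0, 0, 0, 0⟩))
   (.S 1 262
    (.S 1 236
     (.S 1 223
      (.L ⟨664, 60, true, false, 15560, 20724⟩ ⟨664, 60, true, false, 15560, 20724⟩
       ⟨297, 324, 548, 573⟩ ⟨297, 324, 548, 573⟩ ⟨475, 525, 474, 526⟩
       ⟨0, 0, 0, 0⟩ ⟨0, 0, 0, 0⟩)
      (.L ⟨665, 61, true, false, 15943, 21203⟩ ⟨665, 61, true, false, 15943, 21203⟩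
       ⟨297, 325, 550, 575⟩ ⟨297, 325, 550, 575⟩ ⟨475, 525, 473, 527⟩
       ⟨0, 0, 0, 0⟩ ⟨0, 0, 0, 0⟩))
     (.L ⟨665, 63, true, false, 16359, 22168⟩ ⟨665, 63, true, false, 16359, 22168⟩
      ⟨298, 326, 551, 577⟩ ⟨298, 326, 551, 577⟩ ⟨473, 527, 473, 527⟩
      ⟨0, 0, 0, 0⟩ ⟨0, 0, 0, 0⟩))
    (.S 4 805
     (.S 2 805
      (.L ⟨717, 67, true, false, 17196, 24341⟩ ⟨717, 67, true, false, 17196, 24341⟩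
       ⟨307, 329, 553, 579⟩ ⟨307, 329, 553, 579⟩ ⟨475, 525, 476, 524⟩
       ⟨0, 0, 0, 0⟩ ⟨0, 0, 0, 0⟩)
      (.L ⟨665, 67, true, false, 17221, 24123⟩ ⟨717, 67, true, false, 17196, 24341⟩
       ⟨299, 321, 556, 582⟩ ⟨307, 329, 553, 579⟩ ⟨479, 530, 481, 529⟩
       ⟨0, 0, 0, 0⟩ ⟨0, 0, 0, 0⟩))
     (.S 0 835
      (.L ⟨682, 67, true, false, 17196, 24053⟩ ⟨682, 67, true, false, 17221, 24053⟩
       ⟨302, 329, 553, 581⟩ ⟨302, 321, 556, 581⟩ ⟨472, 524, 472, 522⟩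
       ⟨0, 0, 0, 0⟩ ⟨0, 0, 0, 0⟩)
      (.L ⟨665, 67, true, false, 17187, 24123⟩ ⟨665, 67, true, false, 17213, 24123⟩
       ⟨299, 327, 554, 582⟩ ⟨299, 319, 557, 582⟩ ⟨471, 524, 472, 523⟩
       ⟨0, 0, 0, 0⟩ ⟨0, 0, 0, 0⟩)))))
  (by decide +kernel)

theorem qSS2_664 : Cl ⟨0, true, true, true⟩ ⟨0, true, true, true⟩
    ⟨764, 858, 222, 314⟩ ⟨732, 879, 252, 393⟩ ⟨756, 882, 364, 517⟩ := .mk
  (.S 0 811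
   (.S 2 805
    (.S 1 268
     (.S 1 245
      (.L ⟨751, 61, true, false, 15862, 21677⟩ ⟨690, 75, true, false, 19811, 25503⟩
       ⟨310, 329, 548, 570⟩ ⟨306, 330, 560, 585⟩ ⟨466, 514, 480, 527⟩
       ⟨0, 0, 0, 0⟩ ⟨0, 0, 0, 0⟩)
      (.L ⟨751, 64, true, false, 16637, 22511⟩ ⟨692, 79, true, false, 20630, 26441⟩
       ⟨311, 330, 550, 572⟩ ⟨307, 332, 562, 587⟩ ⟨466, 514, 480, 528⟩
       ⟨0, 0, 0, 0⟩ ⟨0, 0, 0, 0⟩))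
     (.S 0 787
      (.L ⟨769, 68, true, false, 17416, 24129⟩ ⟨712, 82, true, false, 21455, 28153⟩
       ⟨315, 332, 552, 575⟩ ⟨311, 335, 564, 589⟩ ⟨466, 515, 481, 528⟩
       ⟨0, 0, 0, 0⟩ ⟨0, 0, 0, 0⟩)
      (.L ⟨751, 68, true, false, 17403, 24200⟩ ⟨694, 82, true, false, 21535, 28344⟩
       ⟨312, 331, 553, 576⟩ ⟨309, 333, 565, 591⟩ ⟨465, 515, 480, 529⟩
       ⟨0, 0, 0, 0⟩ ⟨0, 0, 0, 0⟩)))
    (.S 1 268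
     (.S 1 245
      (.L ⟨699, 61, true, false, 15786, 21277⟩ ⟨690, 75, true, false, 19811, 25503⟩
       ⟨303, 322, 550, 572⟩ ⟨306, 330, 560, 585⟩ ⟨470, 517, 485, 531⟩
       ⟨0, 0, 0, 0⟩ ⟨0, 0, 0, 0⟩)
      (.L ⟨699, 64, true, false, 16619, 22172⟩ ⟨692, 79, true, false, 20630, 26441⟩
       ⟨304, 323, 552, 575⟩ ⟨307, 332, 562, 587⟩ ⟨470, 519, 484, 532⟩
       ⟨0, 0, 0, 0⟩ ⟨0, 0, 0, 0⟩))
     (.S 0 787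
      (.L ⟨717, 68, true, false, 17456, 23912⟩ ⟨712, 82, true, false, 21455, 28153⟩
       ⟨308, 326, 555, 578⟩ ⟨311, 335, 564, 589⟩ ⟨470, 520, 484, 532⟩
       ⟨0, 0, 0, 0⟩ ⟨0, 0, 0, 0⟩)
      (.L ⟨699, 68, true, false, 17444, 23982⟩ ⟨694, 82, true, false, 21535, 28344⟩
       ⟨305, 324, 556, 579⟩ ⟨309, 333, 565, 591⟩ ⟨469, 520, 484, 533⟩
       ⟨0, 0, 0, 0⟩ ⟨0, 0, 0, 0⟩))))
   (.S 1 268
    (.S 2 805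
     (.S 5 440
      (.S 0 834
       (.L ⟨734, 61, true, false, 15911, 22617⟩ ⟨674, 76, true, false, 20052, 23910⟩
        ⟨308, 326, 549, 573⟩ ⟨304, 326, 562, 581⟩ ⟨471, 514, 480, 523⟩
        ⟨0, 0, 0, 0⟩ ⟨0, 0, 0, 0⟩)
       (.L ⟨717, 62, true, false, 15935, 22728⟩ ⟨657, 76, true, false, 20169, 24064⟩
        ⟨306, 325, 550, 575⟩ ⟨301, 324, 563, 583⟩ ⟨469, 515, 479, 523⟩
        ⟨0, 0, 0, 0⟩ ⟨0, 0, 0, 0⟩))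
      (.S 3 322
       (.S 4 819
        (.S 1 245
         (.S 0 834
          (.L ⟨734, 61, true, false, 15911, 19173⟩ ⟨707, 88, true, false, 22967, 26411⟩
           ⟨308, 323, 549, 564⟩ ⟨313, 327, 570, 585⟩ ⟨471, 502, 494, 525⟩
           ⟨0, 0, 0, 0⟩ ⟨0, 0, 0, 0⟩)
          (.D ⟨717, 62, true, false, 15935, 19239⟩ ⟨691, 89, true, false, 23154, 26666⟩
           ⟨306, 321, 550, 565⟩ ⟨311, 325, 572, 587⟩ ⟨470, 501, 495, 526⟩))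
         (.L ⟨718, 65, true, false, 16648, 20016⟩ ⟨694, 92, true, false, 23768, 27511⟩
          ⟨307, 324, 551, 567⟩ ⟨312, 328, 572, 589⟩ ⟨469, 504, 493, 528⟩
          ⟨0, 0, 0, 0⟩ ⟨0, 0, 0, 0⟩))
        (.L ⟨717, 62, true, false, 15911, 20016⟩ ⟨648, 87, true, false, 22456, 26896⟩
         ⟨306, 324, 549, 567⟩ ⟨304, 322, 572, 591⟩ ⟨463, 502, 486, 525⟩
         ⟨0, 0, 0, 0⟩ ⟨0, 0, 0, 0⟩))
       (.S 2 768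
        (.S 4 819
         (.S 0 834
          (.L ⟨760, 72, true, false, 18558, 22788⟩ ⟨707, 88, true, false, 22967, 27277⟩
           ⟨315, 326, 557, 572⟩ ⟨313, 328, 570, 587⟩ ⟨474, 506, 490, 520⟩
           ⟨0, 0, 0, 0⟩ ⟨0, 0, 0, 0⟩)
          (.D ⟨743, 72, true, false, 18639, 22898⟩ ⟨691, 89, true, false, 23154, 27511⟩
           ⟨312, 325, 558, 573⟩ ⟨311, 327, 572, 589⟩ ⟨472, 506, 489, 522⟩))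
         (.L ⟨743, 72, true, false, 18558, 22898⟩ ⟨648, 87, true, false, 22456, 26896⟩
          ⟨312, 326, 557, 573⟩ ⟨304, 322, 572, 591⟩ ⟨467, 504, 483, 519⟩
          ⟨0, 0, 0, 0⟩ ⟨0, 0, 0, 0⟩))
        (.S 5 478
         (.L ⟨714, 72, true, false, 18431, 22728⟩ ⟨648, 87, true, false, 22967, 25452⟩
          ⟨308, 323, 558, 575⟩ ⟨304, 327, 570, 587⟩ ⟨472, 510, 484, 524⟩
          ⟨0, 0, 0, 0⟩ ⟨0, 0, 0, 0⟩)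
         (.S 1 245
          (.S 0 834
           (.L ⟨731, 71, true, false, 18431, 21802⟩ ⟨658, 91, true, false, 24457, 25744⟩
            ⟨311, 321, 558, 571⟩ ⟨307, 327, 575, 587⟩ ⟨474, 503, 490, 522⟩
            ⟨0, 0, 0, 0⟩ ⟨0, 0, 0, 0⟩)
           (.D ⟨714, 72, true, false, 18512, 21932⟩ ⟨642, 92, true, false, 24681, 25997⟩
            ⟨308, 319, 559, 573⟩ ⟨305, 325, 576, 589⟩ ⟨473, 504, 490, 523⟩))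
          (.L ⟨716, 75, true, false, 19211, 22728⟩ ⟨646, 95, true, false, 25269, 26896⟩
           ⟨309, 323, 560, 575⟩ ⟨307, 328, 576, 591⟩ ⟨471, 506, 488, 525⟩
           ⟨0, 0, 0, 0⟩ ⟨0, 0, 0, 0⟩))))))
     (.S 5 440
      (.L ⟨665, 61, true, false, 15835, 22387⟩ ⟨657, 76, true, false, 20052, 24064⟩
       ⟨297, 319, 552, 578⟩ ⟨301, 326, 562, 583⟩ ⟨472, 520, 482, 530⟩
       ⟨0, 0, 0, 0⟩ ⟨0, 0, 0, 0⟩)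
      (.S 4 819
       (.S 3 322
        (.S 5 478
         (.L ⟨665, 61, true, false, 15835, 19873⟩ ⟨691, 89, true, false, 22967, 25959⟩
          ⟨297, 316, 552, 570⟩ ⟨311, 327, 570, 585⟩ ⟨474, 509, 496, 532⟩
          ⟨0, 0, 0, 0⟩ ⟨0, 0, 0, 0⟩)
         (.S 0 834
          (.L ⟨682, 61, true, false, 15835, 19827⟩ ⟨700, 94, true, false, 24457, 27277⟩
           ⟨300, 316, 552, 569⟩ ⟨314, 328, 575, 587⟩ ⟨474, 505, 500, 531⟩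
           ⟨0, 0, 0, 0⟩ ⟨0, 0, 0, 0⟩)
          (.S 1 245
           (.D ⟨665, 61, true, false, 15859, 19036⟩ ⟨684, 94, true, false, 24681, 26666⟩
            ⟨297, 313, 553, 568⟩ ⟨312, 325, 576, 587⟩ ⟨475, 503, 501, 531⟩)
           (.S 0 846
            (.L ⟨674, 64, true, false, 16636, 19850⟩ ⟨696, 97, true, false, 25474, 27394⟩
             ⟨300, 314, 555, 570⟩ ⟨315, 327, 578, 588⟩ ⟨476, 503, 503, 530⟩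
             ⟨0, 0, 0, 0⟩ ⟨0, 0, 0, 0⟩)
            (.D ⟨666, 64, true, false, 16639, 19873⟩ ⟨688, 98, true, false, 25581, 27511⟩
             ⟨298, 313, 556, 570⟩ ⟨314, 326, 579, 589⟩ ⟨476, 502, 503, 531⟩)))))
        (.S 1 245
         (.S 0 834
          (.L ⟨679, 70, true, false, 18300, 21401⟩ ⟨707, 88, true, false, 22967, 26411⟩
           ⟨303, 317, 559, 574⟩ ⟨313, 327, 570, 585⟩ ⟨479, 511, 495, 526⟩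
           ⟨0, 0, 0, 0⟩ ⟨0, 0, 0, 0⟩)
          (.D ⟨662, 71, true, false, 18381, 21531⟩ ⟨691, 89, true, false, 23154, 26666⟩
           ⟨300, 315, 560, 576⟩ ⟨311, 325, 572, 587⟩ ⟨478, 511, 495, 527⟩))
         (.S 0 834
          (.L ⟨680, 74, true, false, 19110, 22277⟩ ⟨710, 91, true, false, 23768, 27277⟩
           ⟨304, 319, 561, 576⟩ ⟨314, 328, 572, 587⟩ ⟨479, 511, 495, 526⟩
           ⟨0, 0, 0, 0⟩ ⟨0, 0, 0, 0⟩)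
          (.S 0 846
           (.D ⟨672, 74, true, false, 19173, 22332⟩ ⟨702, 92, true, false, 23936, 27394⟩
            ⟨303, 317, 563, 577⟩ ⟨313, 327, 574, 588⟩ ⟨480, 510, 496, 526⟩)
           (.D ⟨664, 74, true, false, 19206, 22387⟩ ⟨694, 92, true, false, 24023, 27511⟩
            ⟨301, 316, 563, 578⟩ ⟨312, 326, 574, 589⟩ ⟨479, 511, 495, 527⟩)))))
       (.S 5 478
        (.L ⟨665, 61, true, false, 15835, 22387⟩ ⟨648, 87, true, false, 22456, 25452⟩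
         ⟨297, 319, 552, 578⟩ ⟨304, 320, 572, 587⟩ ⟨470, 512, 486, 527⟩
         ⟨0, 0, 0, 0⟩ ⟨0, 0, 0, 0⟩)
        (.S 3 322
         (.S 1 245
          (.L ⟨665, 61, true, false, 15835, 19036⟩ ⟨642, 92, true, false, 23844, 25997⟩
           ⟨297, 315, 552, 568⟩ ⟨305, 320, 576, 589⟩ ⟨470, 501, 494, 528⟩
           ⟨0, 0, 0, 0⟩ ⟨0, 0, 0, 0⟩)
          (.L ⟨666, 64, true, false, 16630, 19873⟩ ⟨646, 95, true, false, 24709, 26896⟩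
           ⟨298, 316, 554, 570⟩ ⟨307, 322, 578, 591⟩ ⟨470, 502, 495, 529⟩
           ⟨0, 0, 0, 0⟩ ⟨0, 0, 0, 0⟩))
         (.S 1 245
          (.S 0 834
           (.D ⟨679, 70, true, false, 18300, 21401⟩ ⟨658, 91, true, false, 23844, 25744⟩
            ⟨303, 317, 559, 574⟩ ⟨307, 320, 576, 587⟩ ⟨476, 504, 493, 522⟩)
           (.D ⟨662, 71, true, false, 18381, 21531⟩ ⟨642, 92, true, false, 24068, 25997⟩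
            ⟨300, 315, 560, 576⟩ ⟨305, 318, 578, 589⟩ ⟨475, 504, 492, 523⟩))
          (.L ⟨664, 74, true, false, 19110, 22387⟩ ⟨646, 95, true, false, 24709, 26896⟩
           ⟨301, 319, 561, 578⟩ ⟨307, 322, 578, 591⟩ ⟨473, 507, 490, 526⟩
           ⟨0, 0, 0, 0⟩ ⟨0, 0, 0, 0⟩)))))))
    (.S 2 805
     (.S 5 440
      (.L ⟨718, 67, true, false, 17389, 24338⟩ ⟨661, 83, true, false, 21619, 25833⟩
       ⟨307, 329, 554, 579⟩ ⟨304, 328, 566, 587⟩ ⟨468, 517, 477, 526⟩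
       ⟨0, 0, 0, 0⟩ ⟨0, 0, 0, 0⟩)
      (.S 3 322
       (.S 2 768
        (.L ⟨747, 67, true, false, 17389, 21598⟩ ⟨654, 94, true, false, 24576, 28720⟩
         ⟨312, 325, 554, 569⟩ ⟨307, 332, 574, 595⟩ ⟨463, 504, 488, 530⟩
         ⟨0, 0, 0, 0⟩ ⟨0, 0, 0, 0⟩)
        (.L ⟨718, 67, true, false, 17409, 21587⟩ ⟨654, 94, true, false, 24576, 28720⟩
         ⟨307, 322, 555, 571⟩ ⟨307, 332, 574, 595⟩ ⟨465, 507, 489, 533⟩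
         ⟨0, 0, 0, 0⟩ ⟨0, 0, 0, 0⟩))
       (.S 0 834
        (.L ⟨733, 78, true, false, 20066, 24268⟩ ⟨670, 93, true, false, 24576, 28527⟩
         ⟨313, 329, 561, 577⟩ ⟨309, 332, 574, 593⟩ ⟨469, 509, 484, 526⟩
         ⟨0, 0, 0, 0⟩ ⟨0, 0, 0, 0⟩)
        (.S 1 291
         (.S 0 846
          (.L ⟨725, 78, true, false, 20111, 23485⟩ ⟨662, 93, true, false, 24724, 27697⟩
           ⟨312, 326, 562, 576⟩ ⟨308, 328, 575, 592⟩ ⟨471, 507, 486, 523⟩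
           ⟨0, 0, 0, 0⟩ ⟨0, 0, 0, 0⟩)
          (.D ⟨717, 78, true, false, 20133, 23530⟩ ⟨654, 94, true, false, 24802, 27804⟩
           ⟨311, 325, 562, 577⟩ ⟨307, 328, 576, 593⟩ ⟨470, 507, 486, 524⟩))
         (.S 1 302
          (.L ⟨717, 81, true, false, 20854, 23916⟩ ⟨656, 97, true, false, 25520, 28241⟩
           ⟨312, 326, 564, 578⟩ ⟨309, 329, 577, 594⟩ ⟨471, 507, 486, 524⟩
           ⟨0, 0, 0, 0⟩ ⟨0, 0, 0, 0⟩)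
          (.D ⟨718, 82, true, false, 21211, 24338⟩ ⟨657, 99, true, false, 25903, 28720⟩
           ⟨312, 327, 565, 579⟩ ⟨310, 330, 578, 595⟩ ⟨471, 508, 486, 525⟩))))))
     (.S 5 440
      (.L ⟨666, 68, true, false, 17430, 24120⟩ ⟨661, 83, true, false, 21619, 25833⟩
       ⟨300, 321, 557, 582⟩ ⟨304, 328, 566, 587⟩ ⟨472, 521, 482, 530⟩
       ⟨0, 0, 0, 0⟩ ⟨0, 0, 0, 0⟩)
      (.S 3 322
       (.S 4 819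
        (.S 2 842
         (.L ⟨691, 68, true, false, 17430, 21577⟩ ⟨697, 95, true, false, 24576, 29228⟩
          ⟨303, 318, 557, 573⟩ ⟨314, 332, 574, 592⟩ ⟨472, 509, 497, 533⟩
          ⟨0, 0, 0, 0⟩ ⟨0, 0, 0, 0⟩)
         (.L ⟨666, 68, true, false, 17451, 21566⟩ ⟨697, 95, true, false, 24576, 29228⟩
          ⟨300, 315, 558, 575⟩ ⟨314, 332, 574, 592⟩ ⟨474, 512, 498, 535⟩
          ⟨0, 0, 0, 0⟩ ⟨0, 0, 0, 0⟩))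
        (.L ⟨666, 68, true, false, 17430, 21566⟩ ⟨654, 94, true, false, 24168, 28720⟩
         ⟨300, 318, 557, 575⟩ ⟨307, 325, 576, 595⟩ ⟨468, 507, 491, 531⟩
         ⟨0, 0, 0, 0⟩ ⟨0, 0, 0, 0⟩))
       (.S 2 842
        (.S 1 291
         (.L ⟨690, 77, true, false, 19925, 23390⟩ ⟨654, 94, true, false, 24576, 27804⟩
          ⟨307, 320, 564, 578⟩ ⟨307, 330, 574, 593⟩ ⟨473, 511, 488, 528⟩
          ⟨0, 0, 0, 0⟩ ⟨0, 0, 0, 0⟩)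
         (.L ⟨690, 81, true, false, 20747, 24229⟩ ⟨656, 97, true, false, 25390, 28720⟩
          ⟨308, 321, 566, 580⟩ ⟨309, 332, 576, 595⟩ ⟨473, 512, 489, 529⟩
          ⟨0, 0, 0, 0⟩ ⟨0, 0, 0, 0⟩))
        (.S 1 291
         (.L ⟨665, 77, true, false, 19854, 23250⟩ ⟨654, 94, true, false, 24576, 27804⟩
          ⟨303, 316, 565, 580⟩ ⟨307, 330, 574, 593⟩ ⟨475, 514, 491, 530⟩
          ⟨0, 0, 0, 0⟩ ⟨0, 0, 0, 0⟩)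
         (.L ⟨665, 80, true, false, 20705, 24120⟩ ⟨656, 97, true, false, 25390, 28720⟩
          ⟨304, 318, 567, 582⟩ ⟨309, 332, 576, 595⟩ ⟨475, 515, 491, 532⟩
          ⟨0, 0, 0, 0⟩ ⟨0, 0, 0, 0⟩))))))))
  (by decide +kernel)

theorem qSS2_665 : Cl ⟨0, true, true, true⟩ ⟨0, true, false, false⟩
    ⟨766, 847, 211, 286⟩ ⟨732, 879, 252, 393⟩ ⟨683, 718, 155, 188⟩ := .mk
  (.L ⟨673, 60, true, false, 15496, 23019⟩ ⟨796, 46, true, false, 11971, 15392⟩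
   ⟨298, 331, 547, 579⟩ ⟨313, 327, 535, 550⟩ ⟨492, 538, 473, 520⟩
   ⟨0, 0, 0, 0⟩ ⟨0, 0, 0, 0⟩)
  (by decide +kernel)

theorem qSS2_666 : Cl ⟨0, true, true, true⟩ ⟨0, true, true, true⟩
    ⟨778, 859, 211, 294⟩ ⟨732, 879, 252, 393⟩ ⟨792, 859, 143, 231⟩ := .mk
  (.L ⟨664, 60, true, false, 15513, 23367⟩ ⟨677, 45, true, false, 11754, 17609⟩
   ⟨297, 330, 547, 580⟩ ⟨295, 318, 538, 563⟩ ⟨480, 535, 464, 519⟩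
   ⟨0, 0, 0, 0⟩ ⟨0, 0, 0, 0⟩)
  (by decide +kernel)

theorem qSS2_667 : Cl ⟨0, true, true, true⟩ ⟨0, true, true, true⟩
    ⟨770, 859, 211, 303⟩ ⟨732, 879, 252, 393⟩ ⟨770, 859, 208, 303⟩ := .mk
  (.S 2 805
   (.L ⟨716, 60, true, false, 15502, 23954⟩ ⟨678, 54, true, false, 13934, 20488⟩
    ⟨305, 331, 547, 578⟩ ⟨297, 324, 544, 571⟩ ⟨474, 529, 466, 520⟩
    ⟨0, 0, 0, 0⟩ ⟨0, 0, 0, 0⟩)
   (.L ⟨664, 60, true, false, 15398, 23707⟩ ⟨678, 54, true, false, 13934, 20488⟩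
    ⟨297, 325, 549, 581⟩ ⟨297, 324, 544, 571⟩ ⟨477, 534, 469, 525⟩
    ⟨0, 0, 0, 0⟩ ⟨0, 0, 0, 0⟩))
  (by decide +kernel)

theorem qSS2_668 : Cl ⟨0, true, true, true⟩ ⟨0, true, false, false⟩
    ⟨783, 857, 211, 275⟩ ⟨732, 879, 252, 393⟩ ⟨781, 809, 72, 97⟩ := .mk
  (.L ⟨666, 60, true, false, 15520, 22645⟩ ⟨708, 35, true, false, 9326, 12039⟩
   ⟨297, 329, 547, 578⟩ ⟨298, 312, 530, 543⟩ ⟨494, 536, 466, 509⟩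
   ⟨0, 0, 0, 0⟩ ⟨0, 0, 0, 0⟩)
  (by decide +kernel)

theorem qSS2_669 : Cl ⟨0, true, true, true⟩ ⟨0, true, false, false⟩
    ⟨786, 859, 211, 283⟩ ⟨732, 879, 252, 393⟩ ⟨843, 885, 77, 140⟩ := .mk
  (.L ⟨664, 60, true, false, 15525, 22953⟩ ⟨655, 37, true, false, 9759, 14199⟩
   ⟨297, 329, 548, 579⟩ ⟨289, 308, 533, 553⟩ ⟨486, 534, 461, 509⟩
   ⟨0, 0, 0, 0⟩ ⟨0, 0, 0, 0⟩)
  (by decide +kernel)

theorem qSS2_670 : Cl ⟨0, true, true, true⟩ ⟨0, true, false, false⟩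
    ⟨778, 859, 211, 294⟩ ⟨732, 879, 252, 393⟩ ⟨816, 877, 117, 176⟩ := .mk
  (.L ⟨664, 60, true, false, 15513, 23367⟩ ⟨663, 42, true, false, 10965, 15764⟩
   ⟨297, 330, 547, 580⟩ ⟨292, 313, 536, 558⟩ ⟨483, 535, 462, 514⟩
   ⟨0, 0, 0, 0⟩ ⟨0, 0, 0, 0⟩)
  (by decide +kernel)

theorem qSS2_671 : Cl ⟨0, true, true, true⟩ ⟨0, true, false, false⟩
    ⟨792, 859, 211, 273⟩ ⟨732, 879, 252, 393⟩ ⟨832, 870, 31, 62⟩ := .mk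
  (.L ⟨664, 60, true, false, 15533, 22579⟩ ⟨660, 34, true, false, 8210, 11160⟩
   ⟨297, 328, 548, 578⟩ ⟨289, 304, 528, 543⟩ ⟨493, 536, 461, 504⟩
   ⟨0, 0, 0, 0⟩ ⟨0, 0, 0, 0⟩)
  (by decide +kernel)

theorem qSS2_672 : Cl ⟨0, true, true, true⟩ ⟨0, true, false, false⟩
    ⟨791, 859, 211, 278⟩ ⟨732, 879, 252, 393⟩ ⟨857, 913, 40, 101⟩ := .mk
  (.L ⟨664, 60, true, false, 15532, 22766⟩ ⟨634, 33, true, false, 8647, 12898⟩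
   ⟨297, 328, 548, 579⟩ ⟨284, 304, 530, 550⟩ ⟨488, 535, 458, 506⟩
   ⟨0, 0, 0, 0⟩ ⟨0, 0, 0, 0⟩)
  (by decide +kernel)

theorem qSS2_673 : Cl ⟨0, true, true, true⟩ ⟨0, true, false, false⟩
    ⟨791, 859, 211, 278⟩ ⟨732, 879, 252, 393⟩ ⟨837, 904, 60, 127⟩ := .mk
  (.L ⟨664, 60, true, false, 15532, 22766⟩ ⟨642, 35, true, false, 9168, 13689⟩
   ⟨297, 328, 548, 579⟩ ⟨286, 307, 531, 552⟩ ⟨487, 535, 459, 508⟩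
   ⟨0, 0, 0, 0⟩ ⟨0, 0, 0, 0⟩)
  (by decide +kernel)

theorem qSS2_674 : Cl ⟨0, true, true, true⟩ ⟨0, true, false, false⟩
    ⟨792, 859, 211, 273⟩ ⟨732, 879, 252, 393⟩ ⟨876, 905, 11, 39⟩ := .mk
  (.L ⟨664, 60, true, false, 15533, 22579⟩ ⟨626, 38, true, false, 7418, 10675⟩
   ⟨297, 328, 548, 578⟩ ⟨283, 298, 528, 542⟩ ⟨493, 534, 457, 500⟩
   ⟨0, 0, 0, 0⟩ ⟨0, 0, 0, 0⟩)
  (by decide +kernel)

theorem qSS2_675 : Cl ⟨0, true, true, true⟩ ⟨0, true, false, false⟩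
    ⟨792, 859, 211, 273⟩ ⟨732, 879, 252, 393⟩ ⟨891, 931, 20, 66⟩ := .mk
  (.L ⟨664, 60, true, false, 15533, 22579⟩ ⟨621, 31, true, false, 8237, 11725⟩
   ⟨297, 328, 548, 578⟩ ⟨281, 298, 530, 547⟩ ⟨490, 533, 457, 501⟩
   ⟨0, 0, 0, 0⟩ ⟨0, 0, 0, 0⟩)
  (by decide +kernel)

theorem qSS2_676 : Cl ⟨0, true, true, true⟩ ⟨0, true, false, false⟩
    ⟨792, 859, 211, 273⟩ ⟨732, 879, 252, 393⟩ ⟨882, 927, 32, 77⟩ := .mk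
  (.L ⟨664, 60, true, false, 15533, 22579⟩ ⟨625, 32, true, false, 8542, 12043⟩
   ⟨297, 328, 548, 578⟩ ⟨282, 300, 530, 547⟩ ⟨490, 534, 457, 502⟩
   ⟨0, 0, 0, 0⟩ ⟨0, 0, 0, 0⟩)
  (by decide +kernel)

theorem qSS2_677 : Cl ⟨0, true, true, true⟩ ⟨0, true, false, false⟩
    ⟨800, 859, 211, 272⟩ ⟨732, 879, 252, 393⟩ ⟨900, 1001, 0, 29⟩ := .mk
  (.L ⟨664, 60, true, false, 15544, 22541⟩ ⟨581, 31, true, false, 7230, 11113⟩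
   ⟨297, 327, 548, 578⟩ ⟨272, 294, 528, 547⟩ ⟨489, 534, 452, 498⟩
   ⟨0, 0, 0, 0⟩ ⟨0, 0, 0, 0⟩)
  (by decide +kernel)

theorem qSS2_678 : Cl ⟨0, true, true, true⟩ ⟨0, true, false, false⟩
    ⟨800, 859, 211, 272⟩ ⟨732, 879, 252, 393⟩ ⟨908, 1001, 0, 50⟩ := .mk
  (.L ⟨664, 60, true, false, 15544, 22541⟩ ⟨581, 31, true, false, 7287, 11716⟩
   ⟨297, 327, 548, 578⟩ ⟨272, 295, 528, 549⟩ ⟨487, 534, 452, 499⟩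
   ⟨0, 0, 0, 0⟩ ⟨0, 0, 0, 0⟩)
  (by decide +kernel)

theorem qSS2_679 : Cl ⟨0, true, true, true⟩ ⟨0, true, false, false⟩
    ⟨800, 859, 211, 272⟩ ⟨732, 879, 252, 393⟩ ⟨895, 1001, 0, 61⟩ := .mk
  (.L ⟨664, 60, true, false, 15544, 22541⟩ ⟨581, 31, true, false, 7195, 12034⟩
   ⟨297, 327, 548, 578⟩ ⟨272, 297, 528, 550⟩ ⟨487, 534, 452, 501⟩
   ⟨0, 0, 0, 0⟩ ⟨0, 0, 0, 0⟩)
  (by decide +kernel)

theorem qSS2_681 : Cl ⟨0, true, true, true⟩ ⟨0, true, false, false⟩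
    ⟨766, 847, 222, 286⟩ ⟨756, 882, 364, 517⟩ ⟨683, 718, 155, 188⟩ := .mk
  (.S 2 819
   (.L ⟨708, 77, true, false, 19822, 28079⟩ ⟨795, 47, true, false, 12313, 15392⟩
    ⟨309, 333, 560, 589⟩ ⟨313, 327, 536, 550⟩ ⟨500, 542, 468, 509⟩
    ⟨0, 0, 0, 0⟩ ⟨0, 0, 0, 0⟩)
   (.L ⟨665, 76, true, false, 19500, 27506⟩ ⟨795, 47, true, false, 12313, 15392⟩
    ⟨302, 327, 561, 592⟩ ⟨313, 327, 536, 550⟩ ⟨502, 547, 471, 514⟩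
    ⟨0, 0, 0, 0⟩ ⟨0, 0, 0, 0⟩))
  (by decide +kernel)

theorem qSS2_682 : Cl ⟨0, true, true, true⟩ ⟨0, true, true, true⟩
    ⟨778, 858, 222, 294⟩ ⟨756, 882, 364, 517⟩ ⟨792, 859, 143, 231⟩ := .mk
  (.S 0 818
   (.L ⟨685, 75, true, false, 19883, 27573⟩ ⟨705, 47, true, false, 12132, 17700⟩
    ⟨305, 332, 560, 590⟩ ⟨300, 318, 539, 561⟩ ⟨489, 540, 461, 510⟩
    ⟨0, 0, 0, 0⟩ ⟨0, 0, 0, 0⟩)
   (.S 1 258
    (.S 2 819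
     (.S 4 825
      (.L ⟨700, 78, true, false, 20087, 27143⟩ ⟨701, 46, true, false, 12025, 16319⟩
       ⟨308, 327, 563, 588⟩ ⟨299, 313, 540, 557⟩ ⟨496, 536, 466, 502⟩
       ⟨0, 0, 0, 0⟩ ⟨0, 0, 0, 0⟩)
      (.L ⟨700, 78, true, false, 20087, 27143⟩ ⟨677, 47, true, false, 12113, 16351⟩
       ⟨308, 327, 563, 588⟩ ⟨295, 309, 541, 559⟩ ⟨493, 534, 463, 500⟩
       ⟨0, 0, 0, 0⟩ ⟨0, 0, 0, 0⟩))
     (.L ⟨657, 76, true, false, 19765, 26504⟩ ⟨677, 47, true, false, 12025, 16351⟩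
      ⟨301, 320, 565, 590⟩ ⟨295, 313, 540, 559⟩ ⟨497, 539, 468, 507⟩
      ⟨0, 0, 0, 0⟩ ⟨0, 0, 0, 0⟩))
    (.S 1 276
     (.L ⟨660, 81, true, false, 21303, 27211⟩ ⟨674, 52, true, false, 13216, 16980⟩
      ⟨304, 328, 566, 592⟩ ⟨296, 313, 544, 561⟩ ⟨494, 538, 462, 506⟩
      ⟨0, 0, 0, 0⟩ ⟨0, 0, 0, 0⟩)
     (.L ⟨661, 84, true, false, 21916, 27923⟩ ⟨673, 54, true, false, 13815, 17611⟩
      ⟨305, 330, 567, 593⟩ ⟨296, 314, 546, 563⟩ ⟨492, 537, 460, 506⟩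
      ⟨0, 0, 0, 0⟩ ⟨0, 0, 0, 0⟩))))
  (by decide +kernel)

/-- The pairs of the file. -/
def rSS2 : List Pq := [
  ⟨5, 12, ⟨791, 833, 214, 278⟩, ⟨537, 599, 374, 431⟩, ⟨857, 913, 40, 101⟩⟩,
  ⟨5, 13, ⟨791, 833, 214, 278⟩, ⟨537, 599, 374, 431⟩, ⟨837, 904, 60, 127⟩⟩,
  ⟨5, 17, ⟨792, 833, 214, 273⟩, ⟨537, 599, 374, 431⟩, ⟨876, 905, 11, 39⟩⟩,
  ⟨5, 15, ⟨792, 833, 214, 273⟩, ⟨537, 599, 374, 431⟩, ⟨891, 931, 20, 66⟩⟩,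
  ⟨5, 16, ⟨792, 833, 214, 273⟩, ⟨537, 599, 374, 431⟩, ⟨882, 927, 32, 77⟩⟩,
  ⟨5, 20, ⟨800, 833, 214, 272⟩, ⟨537, 599, 374, 431⟩, ⟨900, 1001, 0, 29⟩⟩,
  ⟨5, 18, ⟨800, 833, 214, 272⟩, ⟨537, 599, 374, 431⟩, ⟨908, 1001, 0, 50⟩⟩,
  ⟨5, 19, ⟨800, 833, 214, 272⟩, ⟨537, 599, 374, 431⟩, ⟨895, 1001, 0, 61⟩⟩,
  ⟨3, 3, ⟨764, 859, 211, 314⟩, ⟨732, 879, 252, 393⟩, ⟨732, 879, 252, 393⟩⟩,
  ⟨3, 4, ⟨764, 858, 222, 314⟩, ⟨732, 879, 252, 393⟩, ⟨756, 882, 364, 517⟩⟩,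
  ⟨3, 8, ⟨766, 847, 211, 286⟩, ⟨732, 879, 252, 393⟩, ⟨683, 718, 155, 188⟩⟩,
  ⟨3, 6, ⟨778, 859, 211, 294⟩, ⟨732, 879, 252, 393⟩, ⟨792, 859, 143, 231⟩⟩,
  ⟨3, 7, ⟨770, 859, 211, 303⟩, ⟨732, 879, 252, 393⟩, ⟨770, 859, 208, 303⟩⟩,
  ⟨3, 11, ⟨783, 857, 211, 275⟩, ⟨732, 879, 252, 393⟩, ⟨781, 809, 72, 97⟩⟩,
  ⟨3, 9, ⟨786, 859, 211, 283⟩, ⟨732, 879, 252, 393⟩, ⟨843, 885, 77, 140⟩⟩,
  ⟨3, 10, ⟨778, 859, 211, 294⟩, ⟨732, 879, 252, 393⟩, ⟨816, 877, 117, 176⟩⟩,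
  ⟨3, 14, ⟨792, 859, 211, 273⟩, ⟨732, 879, 252, 393⟩, ⟨832, 870, 31, 62⟩⟩,
  ⟨3, 12, ⟨791, 859, 211, 278⟩, ⟨732, 879, 252, 393⟩, ⟨857, 913, 40, 101⟩⟩,
  ⟨3, 13, ⟨791, 859, 211, 278⟩, ⟨732, 879, 252, 393⟩, ⟨837, 904, 60, 127⟩⟩,
  ⟨3, 17, ⟨792, 859, 211, 273⟩, ⟨732, 879, 252, 393⟩, ⟨876, 905, 11, 39⟩⟩,
  ⟨3, 15, ⟨792, 859, 211, 273⟩, ⟨732, 879, 252, 393⟩, ⟨891, 931, 20, 66⟩⟩,
  ⟨3, 16, ⟨792, 859, 211, 273⟩, ⟨732, 879, 252, 393⟩, ⟨882, 927, 32, 77⟩⟩,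
  ⟨3, 20, ⟨800, 859, 211, 272⟩, ⟨732, 879, 252, 393⟩, ⟨900, 1001, 0, 29⟩⟩,
  ⟨3, 18, ⟨800, 859, 211, 272⟩, ⟨732, 879, 252, 393⟩, ⟨908, 1001, 0, 50⟩⟩,
  ⟨3, 19, ⟨800, 859, 211, 272⟩, ⟨732, 879, 252, 393⟩, ⟨895, 1001, 0, 61⟩⟩,
  ⟨4, 8, ⟨766, 847, 222, 286⟩, ⟨756, 882, 364, 517⟩, ⟨683, 718, 155, 188⟩⟩,
  ⟨4, 6, ⟨778, 858, 222, 294⟩, ⟨756, 882, 364, 517⟩, ⟨792, 859, 143, 231⟩⟩]

theorem rSS2_ok : ∀ p ∈ rSS2, Cr true true p :=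
  List.forall_mem_cons.2 ⟨qSS2_655,
  List.forall_mem_cons.2 ⟨qSS2_656,
  List.forall_mem_cons.2 ⟨qSS2_657,
  List.forall_mem_cons.2 ⟨qSS2_658,
  List.forall_mem_cons.2 ⟨qSS2_659,
  List.forall_mem_cons.2 ⟨qSS2_660,
  List.forall_mem_cons.2 ⟨qSS2_661,
  List.forall_mem_cons.2 ⟨qSS2_662,
  List.forall_mem_cons.2 ⟨qSS2_663,
  List.forall_mem_cons.2 ⟨qSS2_664,
  List.forall_mem_cons.2 ⟨qSS2_665,
  List.forall_mem_cons.2 ⟨qSS2_666,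
  List.forall_mem_cons.2 ⟨qSS2_667,
  List.forall_mem_cons.2 ⟨qSS2_668,
  List.forall_mem_cons.2 ⟨qSS2_669,
  List.forall_mem_cons.2 ⟨qSS2_670,
  List.forall_mem_cons.2 ⟨qSS2_671,
  List.forall_mem_cons.2 ⟨qSS2_672,
  List.forall_mem_cons.2 ⟨qSS2_673,
  List.forall_mem_cons.2 ⟨qSS2_674,
  List.forall_mem_cons.2 ⟨qSS2_675,
  List.forall_mem_cons.2 ⟨qSS2_676,
  List.forall_mem_cons.2 ⟨qSS2_677,
  List.forall_mem_cons.2 ⟨qSS2_678,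
  List.forall_mem_cons.2 ⟨qSS2_679,
  List.forall_mem_cons.2 ⟨qSS2_681,
  List.forall_mem_cons.2 ⟨qSS2_682,
  List.forall_mem_nil _⟩⟩⟩⟩⟩⟩⟩⟩⟩⟩⟩⟩⟩⟩⟩⟩⟩⟩⟩⟩⟩⟩⟩⟩⟩⟩⟩

end Pool.Agent.S5.Z4
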