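import Pool.Agent.S5.Z4.Tre

/-!
# Inner nodes with four half twists: certificates
-/

set_option autoImplicit false

namespace Pool.Agent.S5.Z4

theorem qSS3_683 : Cl ⟨0, true, true, true⟩ ⟨0, true, true, true⟩
    ⟨770, 858, 222, 303⟩ ⟨756, 882, 364, 517⟩ ⟨770, 859, 208, 303⟩ := .mk
  (.S 3 440
   (.S 1 262
    (.L ⟨657, 76, true, false, 19842, 23836⟩ ⟨679, 55, true, false, 14311, 19021⟩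
     ⟨301, 328, 560, 582⟩ ⟨298, 322, 545, 567⟩ ⟨486, 532, 468, 517⟩
     ⟨0, 0, 0, 0⟩ ⟨0, 0, 0, 0⟩)
    (.L ⟨660, 82, true, false, 21261, 25407⟩ ⟨678, 61, true, false, 15690, 20488⟩
     ⟨304, 331, 563, 586⟩ ⟨299, 324, 549, 571⟩ ⟨484, 533, 465, 517⟩
     ⟨0, 0, 0, 0⟩ ⟨0, 0, 0, 0⟩))
   (.S 0 814
    (.S 1 262
     (.L ⟨679, 85, true, false, 22634, 26225⟩ ⟨710, 55, true, false, 14311, 18957⟩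
      ⟨308, 331, 568, 587⟩ ⟨303, 322, 545, 564⟩ ⟨494, 534, 467, 509⟩
      ⟨0, 0, 0, 0⟩ ⟨0, 0, 0, 0⟩)
     (.L ⟨684, 91, true, false, 24090, 27911⟩ ⟨709, 61, true, false, 15690, 20488⟩
      ⟨311, 334, 571, 590⟩ ⟨304, 324, 549, 569⟩ ⟨491, 534, 465, 509⟩
      ⟨0, 0, 0, 0⟩ ⟨0, 0, 0, 0⟩))
    (.S 1 262
     (.S 2 819
      (.S 3 478
       (.L ⟨691, 89, true, false, 22992, 25741⟩ ⟨679, 55, true, false, 14290, 19021⟩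
        ⟨311, 326, 571, 584⟩ ⟨298, 318, 546, 567⟩ ⟨494, 529, 469, 504⟩
        ⟨0, 0, 0, 0⟩ ⟨0, 0, 0, 0⟩)
       (.S 1 242
        (.S 0 836
         (.L ⟨699, 94, true, false, 24487, 26320⟩ ⟨694, 55, true, false, 14290, 18264⟩
          ⟨314, 326, 575, 585⟩ ⟨300, 317, 546, 563⟩ ⟨500, 529, 470, 499⟩
          ⟨0, 0, 0, 0⟩ ⟨0, 0, 0, 0⟩)
         (.D ⟨684, 94, true, false, 24701, 26556⟩ ⟨679, 55, true, false, 14279, 18311⟩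
          ⟨312, 325, 576, 587⟩ ⟨298, 315, 547, 565⟩ ⟨499, 530, 469, 499⟩))
        (.S 0 836
         (.L ⟨703, 96, true, false, 25190, 27070⟩ ⟨694, 58, true, false, 14948, 18989⟩
          ⟨315, 328, 576, 587⟩ ⟨301, 318, 548, 566⟩ ⟨498, 529, 468, 499⟩
          ⟨0, 0, 0, 0⟩ ⟨0, 0, 0, 0⟩)
         (.D ⟨688, 97, true, false, 25388, 27290⟩ ⟨679, 58, true, false, 14922, 19021⟩
          ⟨314, 326, 578, 588⟩ ⟨299, 316, 549, 567⟩ ⟨499, 529, 468, 499⟩))))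
      (.S 4 814
       (.L ⟨648, 87, true, false, 22480, 26661⟩ ⟨711, 55, true, false, 14290, 19086⟩
        ⟨304, 321, 572, 591⟩ ⟨303, 318, 546, 565⟩ ⟨499, 537, 473, 509⟩
        ⟨0, 0, 0, 0⟩ ⟨0, 0, 0, 0⟩)
       (.L ⟨648, 87, true, false, 22480, 26661⟩ ⟨679, 55, true, false, 14311, 19021⟩
        ⟨304, 321, 572, 591⟩ ⟨298, 314, 548, 567⟩ ⟨497, 535, 470, 506⟩
        ⟨0, 0, 0, 0⟩ ⟨0, 0, 0, 0⟩)))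
     (.S 4 814
      (.S 1 282
       (.L ⟨653, 93, true, false, 24384, 27448⟩ ⟨710, 60, true, false, 15608, 19768⟩
        ⟨307, 329, 574, 592⟩ ⟨304, 319, 550, 567⟩ ⟨497, 535, 468, 507⟩
        ⟨0, 0, 0, 0⟩ ⟨0, 0, 0, 0⟩)
       (.L ⟨655, 96, true, false, 25088, 28281⟩ ⟨709, 63, true, false, 16272, 20488⟩
        ⟨308, 331, 575, 594⟩ ⟨305, 320, 552, 569⟩ ⟨495, 535, 466, 507⟩
        ⟨0, 0, 0, 0⟩ ⟨0, 0, 0, 0⟩))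
      (.S 5 255
       (.L ⟨653, 93, true, false, 24384, 28281⟩ ⟨678, 61, true, false, 15690, 18775⟩
        ⟨307, 331, 574, 594⟩ ⟨299, 313, 552, 566⟩ ⟨495, 533, 463, 503⟩
        ⟨0, 0, 0, 0⟩ ⟨0, 0, 0, 0⟩)
       (.L ⟨653, 93, true, false, 24384, 28281⟩ ⟨679, 67, true, false, 17328, 20488⟩
        ⟨307, 331, 574, 594⟩ ⟨302, 316, 557, 571⟩ ⟨492, 531, 466, 506⟩
        ⟨0, 0, 0, 0⟩ ⟨0, 0, 0, 0⟩))))))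
  (by decide +kernel)

theorem qSS3_684 : Cl ⟨0, true, true, true⟩ ⟨0, true, false, false⟩
    ⟨783, 857, 222, 275⟩ ⟨756, 882, 364, 517⟩ ⟨781, 809, 72, 97⟩ := .mk
  (.L ⟨658, 76, true, false, 19909, 27162⟩ ⟨707, 36, true, false, 9693, 12039⟩
   ⟨301, 331, 561, 592⟩ ⟨298, 312, 532, 543⟩ ⟨502, 546, 458, 503⟩
   ⟨0, 0, 0, 0⟩ ⟨0, 0, 0, 0⟩)
  (by decide +kernel)

theorem qSS3_685 : Cl ⟨0, true, true, true⟩ ⟨0, true, false, false⟩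
    ⟨786, 858, 222, 283⟩ ⟨756, 882, 364, 517⟩ ⟨843, 885, 77, 140⟩ := .mk
  (.S 1 252
   (.L ⟨657, 76, true, false, 19924, 26270⟩ ⟨655, 39, true, false, 10150, 13115⟩
    ⟨301, 329, 561, 590⟩ ⟨289, 307, 535, 549⟩ ⟨497, 541, 456, 502⟩
    ⟨0, 0, 0, 0⟩ ⟨0, 0, 0, 0⟩)
   (.L ⟨660, 81, true, false, 20970, 27487⟩ ⟨652, 43, true, false, 11218, 14204⟩
    ⟨303, 331, 563, 593⟩ ⟨290, 308, 538, 553⟩ ⟨495, 541, 454, 501⟩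
    ⟨0, 0, 0, 0⟩ ⟨0, 0, 0, 0⟩))
  (by decide +kernel)

theorem qSS3_686 : Cl ⟨0, true, true, true⟩ ⟨0, true, false, false⟩
    ⟨778, 858, 222, 294⟩ ⟨756, 882, 364, 517⟩ ⟨816, 877, 117, 176⟩ := .mk
  (.S 3 440
   (.L ⟨657, 76, true, false, 19883, 25060⟩ ⟨663, 44, true, false, 11351, 15768⟩
    ⟨301, 330, 560, 585⟩ ⟨292, 313, 538, 558⟩ ⟨491, 536, 460, 508⟩
    ⟨0, 0, 0, 0⟩ ⟨0, 0, 0, 0⟩)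
   (.S 1 258
    (.S 1 240
     (.L ⟨648, 87, true, false, 22699, 25803⟩ ⟨663, 44, true, false, 11351, 13873⟩
      ⟨304, 329, 568, 589⟩ ⟨292, 312, 538, 551⟩ ⟨501, 539, 459, 502⟩
      ⟨0, 0, 0, 0⟩ ⟨0, 0, 0, 0⟩)
     (.L ⟨650, 89, true, false, 23347, 26504⟩ ⟨662, 46, true, false, 11982, 14502⟩
      ⟨305, 330, 570, 590⟩ ⟨292, 312, 540, 553⟩ ⟨501, 538, 458, 501⟩
      ⟨0, 0, 0, 0⟩ ⟨0, 0, 0, 0⟩))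
    (.L ⟨653, 92, true, false, 23998, 27923⟩ ⟨660, 48, true, false, 12617, 15768⟩
     ⟨306, 332, 571, 593⟩ ⟨293, 313, 542, 558⟩ ⟨497, 539, 456, 502⟩
     ⟨0, 0, 0, 0⟩ ⟨0, 0, 0, 0⟩)))
  (by decide +kernel)

theorem qSS3_687 : Cl ⟨0, true, true, true⟩ ⟨0, true, false, false⟩
    ⟨792, 858, 222, 273⟩ ⟨756, 882, 364, 517⟩ ⟨832, 870, 31, 62⟩ := .mk
  (.L ⟨657, 76, true, false, 19955, 27093⟩ ⟨659, 33, true, false, 8592, 11167⟩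
   ⟨301, 330, 561, 592⟩ ⟨289, 304, 530, 542⟩ ⟨501, 545, 453, 498⟩
   ⟨0, 0, 0, 0⟩ ⟨0, 0, 0, 0⟩)
  (by decide +kernel)

theorem qSS3_688 : Cl ⟨0, true, true, true⟩ ⟨0, true, false, false⟩
    ⟨791, 858, 222, 278⟩ ⟨756, 882, 364, 517⟩ ⟨857, 913, 40, 101⟩ := .mk
  (.S 1 250
   (.L ⟨657, 76, true, false, 19950, 26192⟩ ⟨634, 35, true, false, 9039, 11900⟩
    ⟨301, 328, 561, 590⟩ ⟨284, 303, 532, 546⟩ ⟨499, 542, 453, 498⟩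
    ⟨0, 0, 0, 0⟩ ⟨0, 0, 0, 0⟩)
   (.L ⟨659, 80, true, false, 20920, 27290⟩ ⟨630, 38, true, false, 10040, 12904⟩
    ⟨303, 330, 564, 592⟩ ⟨285, 304, 535, 550⟩ ⟨497, 542, 452, 498⟩
    ⟨0, 0, 0, 0⟩ ⟨0, 0, 0, 0⟩))
  (by decide +kernel)

theorem qSS3_689 : Cl ⟨0, true, true, true⟩ ⟨0, true, false, false⟩
    ⟨791, 858, 222, 278⟩ ⟨756, 882, 364, 517⟩ ⟨837, 904, 60, 127⟩ := .mk
  (.S 1 250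
   (.L ⟨657, 76, true, false, 19950, 26192⟩ ⟨641, 37, true, false, 9553, 12695⟩
    ⟨301, 328, 561, 590⟩ ⟨286, 306, 533, 548⟩ ⟨498, 542, 455, 501⟩
    ⟨0, 0, 0, 0⟩ ⟨0, 0, 0, 0⟩)
   (.L ⟨659, 80, true, false, 20920, 27290⟩ ⟨638, 41, true, false, 10537, 13694⟩
    ⟨303, 330, 564, 592⟩ ⟨287, 307, 536, 552⟩ ⟨496, 542, 453, 500⟩
    ⟨0, 0, 0, 0⟩ ⟨0, 0, 0, 0⟩))
  (by decide +kernel)

theorem qSS3_690 : Cl ⟨0, true, true, true⟩ ⟨0, true, false, false⟩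
    ⟨792, 858, 222, 273⟩ ⟨756, 882, 364, 517⟩ ⟨876, 905, 11, 39⟩ := .mk
  (.L ⟨657, 76, true, false, 19955, 27093⟩ ⟨627, 37, true, false, 7797, 10683⟩
   ⟨301, 330, 561, 592⟩ ⟨284, 298, 529, 542⟩ ⟨501, 544, 450, 495⟩
   ⟨0, 0, 0, 0⟩ ⟨0, 0, 0, 0⟩)
  (by decide +kernel)

theorem qSS3_691 : Cl ⟨0, true, true, true⟩ ⟨0, true, false, false⟩
    ⟨792, 858, 222, 273⟩ ⟨756, 882, 364, 517⟩ ⟨891, 931, 20, 66⟩ := .mk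
  (.L ⟨657, 76, true, false, 19955, 27093⟩ ⟨621, 33, true, false, 8641, 11732⟩
   ⟨301, 330, 561, 592⟩ ⟨281, 298, 531, 547⟩ ⟨497, 543, 449, 495⟩
   ⟨0, 0, 0, 0⟩ ⟨0, 0, 0, 0⟩)
  (by decide +kernel)

theorem qSS3_692 : Cl ⟨0, true, true, true⟩ ⟨0, true, false, false⟩
    ⟨792, 858, 222, 273⟩ ⟨756, 882, 364, 517⟩ ⟨882, 927, 32, 77⟩ := .mk
  (.L ⟨657, 76, true, false, 19955, 27093⟩ ⟨624, 34, true, false, 8943, 12050⟩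
   ⟨301, 330, 561, 592⟩ ⟨282, 300, 532, 547⟩ ⟨497, 543, 450, 497⟩
   ⟨0, 0, 0, 0⟩ ⟨0, 0, 0, 0⟩)
  (by decide +kernel)

theorem qSS3_693 : Cl ⟨0, true, true, true⟩ ⟨0, true, false, false⟩
    ⟨800, 858, 222, 272⟩ ⟨756, 882, 364, 517⟩ ⟨900, 1001, 0, 29⟩ := .mk
  (.S 1 247
   (.L ⟨657, 76, true, false, 19996, 26075⟩ ⟨581, 32, true, false, 7619, 10154⟩
    ⟨301, 327, 562, 590⟩ ⟨272, 294, 529, 543⟩ ⟨500, 542, 447, 492⟩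
    ⟨0, 0, 0, 0⟩ ⟨0, 0, 0, 0⟩)
   (.L ⟨659, 80, true, false, 20854, 27053⟩ ⟨577, 36, true, false, 8487, 11121⟩
    ⟨303, 329, 564, 592⟩ ⟨273, 294, 533, 547⟩ ⟨498, 541, 446, 491⟩
    ⟨0, 0, 0, 0⟩ ⟨0, 0, 0, 0⟩))
  (by decide +kernel)

theorem qSS3_694 : Cl ⟨0, true, true, true⟩ ⟨0, true, false, false⟩
    ⟨800, 858, 222, 272⟩ ⟨756, 882, 364, 517⟩ ⟨908, 1001, 0, 50⟩ := .mk
  (.S 1 247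
   (.L ⟨657, 76, true, false, 19996, 26075⟩ ⟨581, 32, true, false, 7678, 10755⟩
    ⟨301, 327, 562, 590⟩ ⟨272, 295, 530, 545⟩ ⟨499, 542, 447, 493⟩
    ⟨0, 0, 0, 0⟩ ⟨0, 0, 0, 0⟩)
   (.L ⟨659, 80, true, false, 20854, 27053⟩ ⟨577, 36, true, false, 8554, 11724⟩
    ⟨303, 329, 564, 592⟩ ⟨273, 295, 533, 549⟩ ⟨497, 541, 446, 492⟩
    ⟨0, 0, 0, 0⟩ ⟨0, 0, 0, 0⟩))
  (by decide +kernel)

theorem qSS3_695 : Cl ⟨0, true, true, true⟩ ⟨0, true, false, false⟩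
    ⟨800, 858, 222, 272⟩ ⟨756, 882, 364, 517⟩ ⟨895, 1001, 0, 61⟩ := .mk
  (.S 4 948
   (.L ⟨657, 76, true, false, 19996, 27053⟩ ⟨608, 31, true, false, 7581, 11662⟩
    ⟨301, 329, 562, 592⟩ ⟨278, 297, 529, 547⟩ ⟨498, 544, 448, 495⟩
    ⟨0, 0, 0, 0⟩ ⟨0, 0, 0, 0⟩)
   (.L ⟨657, 76, true, false, 19996, 27053⟩ ⟨581, 32, true, false, 8406, 12041⟩
    ⟨301, 329, 562, 592⟩ ⟨272, 292, 532, 550⟩ ⟨495, 542, 445, 492⟩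
    ⟨0, 0, 0, 0⟩ ⟨0, 0, 0, 0⟩))
  (by decide +kernel)

theorem qSS3_696 : Cl ⟨0, true, false, false⟩ ⟨0, true, false, false⟩
    ⟨766, 847, 202, 286⟩ ⟨683, 718, 155, 188⟩ ⟨683, 718, 155, 188⟩ := .mk
  (.L ⟨796, 45, true, false, 11692, 15392⟩ ⟨796, 45, true, false, 11692, 15392⟩
   ⟨313, 327, 535, 550⟩ ⟨313, 327, 535, 550⟩ ⟨487, 513, 487, 513⟩
   ⟨0, 0, 0, 0⟩ ⟨0, 0, 0, 0⟩)
  (by decide +kernel)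

theorem qSS3_697 : Cl ⟨0, true, false, false⟩ ⟨0, true, true, true⟩
    ⟨778, 847, 202, 286⟩ ⟨683, 718, 155, 188⟩ ⟨792, 859, 143, 231⟩ := .mk
  (.L ⟨796, 45, true, false, 11673, 15392⟩ ⟨685, 44, true, false, 11446, 17351⟩
   ⟨313, 326, 535, 550⟩ ⟨296, 318, 537, 561⟩ ⟨476, 510, 478, 511⟩
   ⟨0, 0, 0, 0⟩ ⟨0, 0, 0, 0⟩)
  (by decide +kernel)

theorem qSS3_698 : Cl ⟨0, true, false, false⟩ ⟨0, true, true, true⟩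
    ⟨770, 847, 208, 286⟩ ⟨683, 718, 155, 188⟩ ⟨770, 859, 208, 303⟩ := .mk
  (.L ⟨796, 46, true, false, 11871, 15392⟩ ⟨687, 54, true, false, 13831, 19871⟩
   ⟨313, 327, 535, 550⟩ ⟨299, 323, 543, 569⟩ ⟨470, 508, 480, 517⟩
   ⟨0, 0, 0, 0⟩ ⟨0, 0, 0, 0⟩)
  (by decide +kernel)

theorem qSS3_699 : Cl ⟨0, true, false, false⟩ ⟨0, true, false, false⟩
    ⟨783, 847, 202, 275⟩ ⟨683, 718, 155, 188⟩ ⟨781, 809, 72, 97⟩ := .mk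
  (.L ⟨796, 45, true, false, 11665, 15062⟩ ⟨716, 34, true, false, 9026, 12100⟩
   ⟨313, 326, 535, 549⟩ ⟨299, 312, 529, 543⟩ ⟨488, 512, 479, 502⟩
   ⟨0, 0, 0, 0⟩ ⟨0, 0, 0, 0⟩)
  (by decide +kernel)

theorem qSS3_700 : Cl ⟨0, true, false, false⟩ ⟨0, true, false, false⟩
    ⟨786, 847, 202, 283⟩ ⟨683, 718, 155, 188⟩ ⟨843, 885, 77, 140⟩ := .mk
  (.L ⟨796, 45, true, false, 11660, 15302⟩ ⟨664, 36, true, false, 9441, 14258⟩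
   ⟨313, 326, 535, 549⟩ ⟨290, 308, 532, 553⟩ ⟨480, 509, 474, 502⟩
   ⟨0, 0, 0, 0⟩ ⟨0, 0, 0, 0⟩)
  (by decide +kernel)

theorem qSS3_701 : Cl ⟨0, true, false, false⟩ ⟨0, true, false, false⟩
    ⟨778, 847, 202, 286⟩ ⟨683, 718, 155, 188⟩ ⟨816, 877, 117, 176⟩ := .mk
  (.L ⟨796, 45, true, false, 11673, 15392⟩ ⟨672, 41, true, false, 10651, 15528⟩
   ⟨313, 326, 535, 550⟩ ⟨293, 313, 535, 556⟩ ⟨478, 510, 476, 506⟩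
   ⟨0, 0, 0, 0⟩ ⟨0, 0, 0, 0⟩)
  (by decide +kernel)

theorem qSS3_702 : Cl ⟨0, true, false, false⟩ ⟨0, true, false, false⟩
    ⟨792, 847, 202, 273⟩ ⟨683, 718, 155, 188⟩ ⟨832, 870, 31, 62⟩ := .mk
  (.L ⟨796, 45, true, false, 11651, 15001⟩ ⟨669, 30, true, false, 7899, 11247⟩
   ⟨313, 325, 535, 548⟩ ⟨290, 304, 527, 542⟩ ⟨487, 511, 474, 497⟩
   ⟨0, 0, 0, 0⟩ ⟨0, 0, 0, 0⟩)
  (by decide +kernel)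

theorem qSS3_703 : Cl ⟨0, true, false, false⟩ ⟨0, true, false, false⟩
    ⟨791, 847, 202, 278⟩ ⟨683, 718, 155, 188⟩ ⟨857, 913, 40, 101⟩ := .mk
  (.L ⟨796, 45, true, false, 11652, 15152⟩ ⟨643, 33, true, false, 8327, 12970⟩
   ⟨313, 325, 535, 549⟩ ⟨286, 304, 529, 550⟩ ⟨482, 510, 472, 499⟩
   ⟨0, 0, 0, 0⟩ ⟨0, 0, 0, 0⟩)
  (by decide +kernel)

theorem qSS3_704 : Cl ⟨0, true, false, false⟩ ⟨0, true, false, false⟩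
    ⟨791, 847, 202, 278⟩ ⟨683, 718, 155, 188⟩ ⟨837, 904, 60, 127⟩ := .mk
  (.L ⟨796, 45, true, false, 11652, 15152⟩ ⟨651, 34, true, false, 8853, 13751⟩
   ⟨313, 325, 535, 549⟩ ⟨288, 307, 530, 552⟩ ⟨481, 510, 473, 501⟩
   ⟨0, 0, 0, 0⟩ ⟨0, 0, 0, 0⟩)
  (by decide +kernel)

theorem qSS3_705 : Cl ⟨0, true, false, false⟩ ⟨0, true, false, false⟩
    ⟨792, 847, 202, 273⟩ ⟨683, 718, 155, 188⟩ ⟨876, 905, 11, 39⟩ := .mk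
  (.L ⟨796, 45, true, false, 11651, 15001⟩ ⟨639, 28, true, false, 7191, 10771⟩
   ⟨313, 325, 535, 548⟩ ⟨285, 298, 527, 542⟩ ⟨487, 510, 471, 493⟩
   ⟨0, 0, 0, 0⟩ ⟨0, 0, 0, 0⟩)
  (by decide +kernel)

theorem qSS3_706 : Cl ⟨0, true, false, false⟩ ⟨0, true, false, false⟩
    ⟨792, 847, 202, 273⟩ ⟨683, 718, 155, 188⟩ ⟨891, 931, 20, 66⟩ := .mk
  (.L ⟨796, 45, true, false, 11651, 15001⟩ ⟨631, 32, true, false, 7907, 11810⟩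
   ⟨313, 325, 535, 548⟩ ⟨283, 298, 528, 546⟩ ⟨484, 509, 470, 494⟩
   ⟨0, 0, 0, 0⟩ ⟨0, 0, 0, 0⟩)
  (by decide +kernel)

theorem qSS3_707 : Cl ⟨0, true, false, false⟩ ⟨0, true, false, false⟩
    ⟨792, 847, 202, 273⟩ ⟨683, 718, 155, 188⟩ ⟨882, 927, 32, 77⟩ := .mk
  (.L ⟨796, 45, true, false, 11651, 15001⟩ ⟨634, 32, true, false, 8215, 12123⟩
   ⟨313, 325, 535, 548⟩ ⟨284, 300, 529, 547⟩ ⟨483, 509, 471, 495⟩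
   ⟨0, 0, 0, 0⟩ ⟨0, 0, 0, 0⟩)
  (by decide +kernel)

theorem qSS3_708 : Cl ⟨0, true, false, false⟩ ⟨0, true, false, false⟩
    ⟨800, 847, 202, 272⟩ ⟨683, 718, 155, 188⟩ ⟨900, 1001, 0, 29⟩ := .mk
  (.L ⟨796, 45, true, false, 11638, 14971⟩ ⟨591, 29, true, false, 7000, 11211⟩
   ⟨313, 324, 535, 548⟩ ⟨274, 294, 527, 547⟩ ⟨482, 509, 465, 491⟩
   ⟨0, 0, 0, 0⟩ ⟨0, 0, 0, 0⟩)
  (by decide +kernel)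

theorem qSS3_709 : Cl ⟨0, true, false, false⟩ ⟨0, true, false, false⟩
    ⟨800, 847, 202, 272⟩ ⟨683, 718, 155, 188⟩ ⟨908, 1001, 0, 50⟩ := .mk
  (.L ⟨796, 45, true, false, 11638, 14971⟩ ⟨591, 29, true, false, 7055, 11806⟩
   ⟨313, 324, 535, 548⟩ ⟨274, 295, 527, 549⟩ ⟨481, 509, 465, 492⟩
   ⟨0, 0, 0, 0⟩ ⟨0, 0, 0, 0⟩)
  (by decide +kernel)

theorem qSS3_710 : Cl ⟨0, true, false, false⟩ ⟨0, true, false, false⟩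
    ⟨800, 847, 202, 272⟩ ⟨683, 718, 155, 188⟩ ⟨895, 1001, 0, 61⟩ := .mk
  (.L ⟨796, 45, true, false, 11638, 14971⟩ ⟨591, 29, true, false, 6967, 12119⟩
   ⟨313, 324, 535, 548⟩ ⟨274, 297, 526, 550⟩ ⟨480, 510, 465, 494⟩
   ⟨0, 0, 0, 0⟩ ⟨0, 0, 0, 0⟩)
  (by decide +kernel)

theorem qSS3_711 : Cl ⟨0, true, true, true⟩ ⟨0, true, true, true⟩
    ⟨778, 861, 202, 294⟩ ⟨792, 859, 143, 231⟩ ⟨792, 859, 143, 231⟩ := .mk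
  (.L ⟨676, 44, true, false, 11446, 17605⟩ ⟨676, 44, true, false, 11446, 17605⟩
   ⟨294, 318, 537, 563⟩ ⟨294, 318, 537, 563⟩ ⟨477, 523, 478, 522⟩
   ⟨0, 0, 0, 0⟩ ⟨0, 0, 0, 0⟩)
  (by decide +kernel)

theorem qSS3_712 : Cl ⟨0, true, true, true⟩ ⟨0, true, true, true⟩
    ⟨778, 859, 208, 294⟩ ⟨792, 859, 143, 231⟩ ⟨770, 859, 208, 303⟩ := .mk
  (.L ⟨677, 45, true, false, 11651, 17609⟩ ⟨678, 54, true, false, 13831, 20164⟩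
   ⟨295, 318, 538, 563⟩ ⟨297, 323, 544, 570⟩ ⟨473, 520, 481, 527⟩
   ⟨0, 0, 0, 0⟩ ⟨0, 0, 0, 0⟩)
  (by decide +kernel)

theorem qSS3_713 : Cl ⟨0, true, true, true⟩ ⟨0, true, false, false⟩
    ⟨783, 857, 202, 275⟩ ⟨792, 859, 143, 231⟩ ⟨781, 809, 72, 97⟩ := .mk
  (.L ⟨678, 44, true, false, 11436, 16946⟩ ⟨709, 34, true, false, 9026, 12039⟩
   ⟨295, 317, 537, 560⟩ ⟨298, 312, 529, 543⟩ ⟨492, 524, 480, 512⟩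
   ⟨0, 0, 0, 0⟩ ⟨0, 0, 0, 0⟩)
  (by decide +kernel)

theorem qSS3_714 : Cl ⟨0, true, true, true⟩ ⟨0, true, false, false⟩
    ⟨786, 861, 202, 283⟩ ⟨792, 859, 143, 231⟩ ⟨843, 885, 77, 140⟩ := .mk
  (.L ⟨676, 44, true, false, 11430, 17219⟩ ⟨655, 36, true, false, 9441, 14189⟩
   ⟨294, 317, 537, 561⟩ ⟨289, 308, 532, 553⟩ ⟨483, 522, 475, 513⟩
   ⟨0, 0, 0, 0⟩ ⟨0, 0, 0, 0⟩)
  (by decide +kernel)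

theorem qSS3_715 : Cl ⟨0, true, true, true⟩ ⟨0, true, false, false⟩
    ⟨778, 861, 202, 294⟩ ⟨792, 859, 143, 231⟩ ⟨816, 877, 117, 176⟩ := .mk
  (.L ⟨676, 44, true, false, 11446, 17605⟩ ⟨663, 41, true, false, 10651, 15756⟩
   ⟨294, 318, 537, 563⟩ ⟨291, 313, 535, 558⟩ ⟨480, 523, 476, 517⟩
   ⟨0, 0, 0, 0⟩ ⟨0, 0, 0, 0⟩)
  (by decide +kernel)

theorem qSS3_716 : Cl ⟨0, true, true, true⟩ ⟨0, true, false, false⟩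
    ⟨792, 861, 202, 273⟩ ⟨792, 859, 143, 231⟩ ⟨832, 870, 31, 62⟩ := .mk
  (.L ⟨676, 44, true, false, 11418, 16870⟩ ⟨660, 30, true, false, 7899, 11146⟩
   ⟨294, 316, 537, 560⟩ ⟨288, 304, 527, 543⟩ ⟨490, 523, 475, 508⟩
   ⟨0, 0, 0, 0⟩ ⟨0, 0, 0, 0⟩)
  (by decide +kernel)

theorem qSS3_717 : Cl ⟨0, true, true, true⟩ ⟨0, true, false, false⟩
    ⟨791, 861, 202, 278⟩ ⟨792, 859, 143, 231⟩ ⟨857, 913, 40, 101⟩ := .mk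
  (.L ⟨676, 44, true, false, 11420, 17045⟩ ⟨628, 32, true, false, 8327, 12885⟩
   ⟨294, 316, 537, 561⟩ ⟨284, 304, 529, 550⟩ ⟨485, 523, 473, 509⟩
   ⟨0, 0, 0, 0⟩ ⟨0, 0, 0, 0⟩)
  (by decide +kernel)

theorem qSS3_718 : Cl ⟨0, true, true, true⟩ ⟨0, true, false, false⟩
    ⟨791, 861, 202, 278⟩ ⟨792, 859, 143, 231⟩ ⟨837, 904, 60, 127⟩ := .mk
  (.L ⟨676, 44, true, false, 11420, 17045⟩ ⟨641, 34, true, false, 8853, 13678⟩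
   ⟨294, 316, 537, 561⟩ ⟨286, 307, 530, 552⟩ ⟨484, 523, 474, 512⟩
   ⟨0, 0, 0, 0⟩ ⟨0, 0, 0, 0⟩)
  (by decide +kernel)

theorem qSS3_719 : Cl ⟨0, true, true, true⟩ ⟨0, true, false, false⟩
    ⟨792, 861, 202, 273⟩ ⟨792, 859, 143, 231⟩ ⟨876, 905, 11, 39⟩ := .mk
  (.L ⟨676, 44, true, false, 11418, 16870⟩ ⟨625, 38, true, false, 7102, 10659⟩
   ⟨294, 316, 537, 560⟩ ⟨283, 298, 527, 542⟩ ⟨490, 522, 472, 504⟩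
   ⟨0, 0, 0, 0⟩ ⟨0, 0, 0, 0⟩)
  (by decide +kernel)

theorem qSS3_720 : Cl ⟨0, true, true, true⟩ ⟨0, true, false, false⟩
    ⟨792, 861, 202, 273⟩ ⟨792, 859, 143, 231⟩ ⟨891, 931, 20, 66⟩ := .mk
  (.L ⟨676, 44, true, false, 11418, 16870⟩ ⟨621, 32, true, false, 7907, 11711⟩
   ⟨294, 316, 537, 560⟩ ⟨281, 298, 528, 547⟩ ⟨486, 522, 471, 505⟩
   ⟨0, 0, 0, 0⟩ ⟨0, 0, 0, 0⟩)
  (by decide +kernel)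

theorem qSS3_721 : Cl ⟨0, true, true, true⟩ ⟨0, true, false, false⟩
    ⟨792, 861, 202, 273⟩ ⟨792, 859, 143, 231⟩ ⟨882, 927, 32, 77⟩ := .mk
  (.L ⟨676, 44, true, false, 11418, 16870⟩ ⟨625, 32, true, false, 8215, 12030⟩
   ⟨294, 316, 537, 560⟩ ⟨282, 300, 529, 548⟩ ⟨486, 521, 472, 506⟩
   ⟨0, 0, 0, 0⟩ ⟨0, 0, 0, 0⟩)
  (by decide +kernel)

theorem qSS3_722 : Cl ⟨0, true, true, true⟩ ⟨0, true, false, false⟩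
    ⟨800, 861, 202, 272⟩ ⟨792, 859, 143, 231⟩ ⟨900, 1001, 0, 29⟩ := .mk
  (.L ⟨676, 44, true, false, 11402, 16835⟩ ⟨578, 30, true, false, 6906, 11096⟩
   ⟨294, 315, 538, 560⟩ ⟨272, 294, 527, 547⟩ ⟨486, 521, 466, 502⟩
   ⟨0, 0, 0, 0⟩ ⟨0, 0, 0, 0⟩)
  (by decide +kernel)

theorem qSS3_723 : Cl ⟨0, true, true, true⟩ ⟨0, true, false, false⟩
    ⟨800, 861, 202, 272⟩ ⟨792, 859, 143, 231⟩ ⟨908, 1001, 0, 50⟩ := .mk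
  (.L ⟨676, 44, true, false, 11402, 16835⟩ ⟨578, 30, true, false, 6960, 11701⟩
   ⟨294, 315, 538, 560⟩ ⟨272, 295, 527, 549⟩ ⟨485, 522, 466, 503⟩
   ⟨0, 0, 0, 0⟩ ⟨0, 0, 0, 0⟩)
  (by decide +kernel)

theorem qSS3_724 : Cl ⟨0, true, true, true⟩ ⟨0, true, false, false⟩
    ⟨800, 861, 202, 272⟩ ⟨792, 859, 143, 231⟩ ⟨895, 1001, 0, 61⟩ := .mk
  (.L ⟨676, 44, true, false, 11402, 16835⟩ ⟨578, 30, true, false, 6872, 12019⟩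
   ⟨294, 315, 538, 560⟩ ⟨272, 297, 526, 550⟩ ⟨484, 523, 466, 505⟩
   ⟨0, 0, 0, 0⟩ ⟨0, 0, 0, 0⟩)
  (by decide +kernel)

theorem qSS3_725 : Cl ⟨0, true, true, true⟩ ⟨0, true, true, true⟩
    ⟨770, 859, 208, 303⟩ ⟨770, 859, 208, 303⟩ ⟨770, 859, 208, 303⟩ := .mk
  (.L ⟨678, 54, true, false, 13831, 20488⟩ ⟨678, 54, true, false, 13831, 20488⟩
   ⟨297, 324, 543, 571⟩ ⟨297, 324, 543, 571⟩ ⟨474, 526, 474, 526⟩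
   ⟨0, 0, 0, 0⟩ ⟨0, 0, 0, 0⟩)
  (by decide +kernel)

theorem qSS3_726 : Cl ⟨0, true, true, true⟩ ⟨0, true, false, false⟩
    ⟨783, 857, 208, 275⟩ ⟨770, 859, 208, 303⟩ ⟨781, 809, 72, 97⟩ := .mk
  (.L ⟨680, 54, true, false, 13831, 19483⟩ ⟨709, 35, true, false, 9226, 12039⟩
   ⟨297, 322, 544, 568⟩ ⟨298, 312, 530, 543⟩ ⟨494, 528, 474, 510⟩
   ⟨0, 0, 0, 0⟩ ⟨0, 0, 0, 0⟩)
  (by decide +kernel)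

theorem qSS3_727 : Cl ⟨0, true, true, true⟩ ⟨0, true, false, false⟩
    ⟨786, 859, 208, 283⟩ ⟨770, 859, 208, 303⟩ ⟨843, 885, 77, 140⟩ := .mk
  (.L ⟨678, 54, true, false, 13831, 19771⟩ ⟨655, 37, true, false, 9653, 14199⟩
   ⟨297, 322, 544, 569⟩ ⟨289, 308, 533, 553⟩ ⟨486, 527, 469, 510⟩
   ⟨0, 0, 0, 0⟩ ⟨0, 0, 0, 0⟩)
  (by decide +kernel)

theorem qSS3_728 : Cl ⟨0, true, true, true⟩ ⟨0, true, false, false⟩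
    ⟨778, 859, 208, 294⟩ ⟨770, 859, 208, 303⟩ ⟨816, 877, 117, 176⟩ := .mk
  (.L ⟨678, 54, true, false, 13831, 20164⟩ ⟨664, 42, true, false, 10860, 15764⟩
   ⟨297, 323, 544, 570⟩ ⟨292, 313, 536, 558⟩ ⟨483, 527, 471, 514⟩
   ⟨0, 0, 0, 0⟩ ⟨0, 0, 0, 0⟩)
  (by decide +kernel)

theorem qSS3_729 : Cl ⟨0, true, true, true⟩ ⟨0, true, false, false⟩
    ⟨792, 859, 208, 273⟩ ⟨770, 859, 208, 303⟩ ⟨832, 870, 31, 62⟩ := .mk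
  (.L ⟨678, 54, true, false, 13831, 19414⟩ ⟨660, 34, true, false, 8106, 11160⟩
   ⟨297, 321, 544, 568⟩ ⟨289, 304, 528, 543⟩ ⟨493, 528, 470, 505⟩
   ⟨0, 0, 0, 0⟩ ⟨0, 0, 0, 0⟩)
  (by decide +kernel)

theorem qSS3_730 : Cl ⟨0, true, true, true⟩ ⟨0, true, false, false⟩
    ⟨791, 859, 208, 278⟩ ⟨770, 859, 208, 303⟩ ⟨857, 913, 40, 101⟩ := .mk
  (.L ⟨678, 54, true, false, 13831, 19592⟩ ⟨635, 33, true, false, 8540, 12898⟩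
   ⟨297, 321, 544, 568⟩ ⟨284, 304, 530, 550⟩ ⟨488, 527, 467, 506⟩
   ⟨0, 0, 0, 0⟩ ⟨0, 0, 0, 0⟩)
  (by decide +kernel)

theorem qSS3_731 : Cl ⟨0, true, true, true⟩ ⟨0, true, false, false⟩
    ⟨791, 859, 208, 278⟩ ⟨770, 859, 208, 303⟩ ⟨837, 904, 60, 127⟩ := .mk
  (.L ⟨678, 54, true, false, 13831, 19592⟩ ⟨642, 35, true, false, 9063, 13689⟩
   ⟨297, 321, 544, 568⟩ ⟨286, 307, 531, 552⟩ ⟨487, 527, 468, 509⟩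
   ⟨0, 0, 0, 0⟩ ⟨0, 0, 0, 0⟩)
  (by decide +kernel)

theorem qSS3_732 : Cl ⟨0, true, true, true⟩ ⟨0, true, false, false⟩
    ⟨792, 859, 208, 273⟩ ⟨770, 859, 208, 303⟩ ⟨876, 905, 11, 39⟩ := .mk
  (.L ⟨678, 54, true, false, 13831, 19414⟩ ⟨626, 38, true, false, 7317, 10675⟩
   ⟨297, 321, 544, 568⟩ ⟨283, 298, 528, 542⟩ ⟨493, 527, 466, 501⟩
   ⟨0, 0, 0, 0⟩ ⟨0, 0, 0, 0⟩)
  (by decide +kernel)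

theorem qSS3_733 : Cl ⟨0, true, true, true⟩ ⟨0, true, false, false⟩
    ⟨792, 859, 208, 273⟩ ⟨770, 859, 208, 303⟩ ⟨891, 931, 20, 66⟩ := .mk
  (.L ⟨678, 54, true, false, 13831, 19414⟩ ⟨622, 31, true, false, 8127, 11725⟩
   ⟨297, 321, 544, 568⟩ ⟨281, 298, 529, 547⟩ ⟨489, 526, 465, 502⟩
   ⟨0, 0, 0, 0⟩ ⟨0, 0, 0, 0⟩)
  (by decide +kernel)

theorem qSS3_734 : Cl ⟨0, true, true, true⟩ ⟨0, true, false, false⟩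
    ⟨792, 859, 208, 273⟩ ⟨770, 859, 208, 303⟩ ⟨882, 927, 32, 77⟩ := .mk
  (.L ⟨678, 54, true, false, 13831, 19414⟩ ⟨625, 32, true, false, 8433, 12043⟩
   ⟨297, 321, 544, 568⟩ ⟨282, 300, 530, 547⟩ ⟨489, 526, 466, 503⟩
   ⟨0, 0, 0, 0⟩ ⟨0, 0, 0, 0⟩)
  (by decide +kernel)

theorem qSS3_735 : Cl ⟨0, true, true, true⟩ ⟨0, true, false, false⟩
    ⟨800, 859, 208, 272⟩ ⟨770, 859, 208, 303⟩ ⟨900, 1001, 0, 29⟩ := .mk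
  (.L ⟨678, 54, true, false, 13831, 19378⟩ ⟨582, 30, true, false, 7127, 11113⟩
   ⟨297, 320, 544, 568⟩ ⟨272, 294, 527, 547⟩ ⟨489, 527, 460, 499⟩
   ⟨0, 0, 0, 0⟩ ⟨0, 0, 0, 0⟩)
  (by decide +kernel)

theorem qSS3_736 : Cl ⟨0, true, true, true⟩ ⟨0, true, false, false⟩
    ⟨800, 859, 208, 272⟩ ⟨770, 859, 208, 303⟩ ⟨908, 1001, 0, 50⟩ := .mk
  (.L ⟨678, 54, true, false, 13831, 19378⟩ ⟨582, 30, true, false, 7182, 11716⟩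
   ⟨297, 320, 544, 568⟩ ⟨272, 295, 528, 549⟩ ⟨487, 526, 461, 500⟩
   ⟨0, 0, 0, 0⟩ ⟨0, 0, 0, 0⟩)
  (by decide +kernel)

theorem qSS3_737 : Cl ⟨0, true, true, true⟩ ⟨0, true, false, false⟩
    ⟨800, 859, 208, 272⟩ ⟨770, 859, 208, 303⟩ ⟨895, 1001, 0, 61⟩ := .mk
  (.L ⟨678, 54, true, false, 13831, 19378⟩ ⟨582, 30, true, false, 7092, 12034⟩
   ⟨297, 320, 544, 568⟩ ⟨272, 297, 527, 550⟩ ⟨487, 527, 460, 502⟩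
   ⟨0, 0, 0, 0⟩ ⟨0, 0, 0, 0⟩)
  (by decide +kernel)

theorem qSS3_738 : Cl ⟨0, true, false, false⟩ ⟨0, true, false, false⟩
    ⟨783, 857, 198, 275⟩ ⟨781, 809, 72, 97⟩ ⟨781, 809, 72, 97⟩ := .mk
  (.L ⟨710, 33, true, false, 8893, 12039⟩ ⟨710, 33, true, false, 8893, 12039⟩
   ⟨298, 312, 529, 543⟩ ⟨298, 312, 529, 543⟩ ⟨488, 512, 488, 512⟩
   ⟨0, 0, 0, 0⟩ ⟨0, 0, 0, 0⟩)
  (by decide +kernel)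

theorem qSS3_739 : Cl ⟨0, true, false, false⟩ ⟨0, true, false, false⟩
    ⟨786, 857, 200, 275⟩ ⟨781, 809, 72, 97⟩ ⟨843, 885, 77, 140⟩ := .mk
  (.L ⟨710, 34, true, false, 8946, 12039⟩ ⟨657, 36, true, false, 9370, 13927⟩
   ⟨298, 311, 529, 543⟩ ⟨289, 307, 532, 552⟩ ⟨481, 509, 484, 511⟩
   ⟨0, 0, 0, 0⟩ ⟨0, 0, 0, 0⟩)
  (by decide +kernel)

theorem qSS3_740 : Cl ⟨0, true, false, false⟩ ⟨0, true, false, false⟩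
    ⟨783, 857, 202, 275⟩ ⟨781, 809, 72, 97⟩ ⟨816, 877, 117, 176⟩ := .mk
  (.L ⟨709, 34, true, false, 9026, 12039⟩ ⟨665, 41, true, false, 10637, 15102⟩
   ⟨298, 312, 529, 543⟩ ⟨292, 312, 535, 555⟩ ⟨479, 508, 486, 515⟩
   ⟨0, 0, 0, 0⟩ ⟨0, 0, 0, 0⟩)
  (by decide +kernel)

theorem qSS3_741 : Cl ⟨0, true, false, false⟩ ⟨0, true, false, false⟩
    ⟨792, 857, 198, 273⟩ ⟨781, 809, 72, 97⟩ ⟨832, 870, 31, 62⟩ := .mk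
  (.L ⟨710, 33, true, false, 8855, 11975⟩ ⟨657, 31, true, false, 7760, 11174⟩
   ⟨298, 311, 529, 543⟩ ⟨289, 304, 527, 542⟩ ⟨488, 511, 483, 507⟩
   ⟨0, 0, 0, 0⟩ ⟨0, 0, 0, 0⟩)
  (by decide +kernel)

theorem qSS3_742 : Cl ⟨0, true, false, false⟩ ⟨0, true, false, false⟩
    ⟨791, 857, 198, 275⟩ ⟨781, 809, 72, 97⟩ ⟨857, 913, 40, 101⟩ := .mk
  (.L ⟨710, 33, true, false, 8859, 12039⟩ ⟨637, 31, true, false, 8185, 12802⟩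
   ⟨298, 311, 529, 543⟩ ⟨284, 304, 529, 549⟩ ⟨482, 510, 481, 508⟩
   ⟨0, 0, 0, 0⟩ ⟨0, 0, 0, 0⟩)
  (by decide +kernel)

theorem qSS3_743 : Cl ⟨0, true, false, false⟩ ⟨0, true, false, false⟩
    ⟨791, 857, 198, 275⟩ ⟨781, 809, 72, 97⟩ ⟨837, 904, 60, 127⟩ := .mk
  (.L ⟨710, 33, true, false, 8859, 12039⟩ ⟨644, 34, true, false, 8714, 13592⟩
   ⟨298, 311, 529, 543⟩ ⟨286, 307, 530, 552⟩ ⟨480, 510, 482, 511⟩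
   ⟨0, 0, 0, 0⟩ ⟨0, 0, 0, 0⟩)
  (by decide +kernel)

theorem qSS3_744 : Cl ⟨0, true, false, false⟩ ⟨0, true, false, false⟩
    ⟨792, 857, 198, 273⟩ ⟨781, 809, 72, 97⟩ ⟨876, 905, 11, 39⟩ := .mk
  (.L ⟨710, 33, true, false, 8855, 11975⟩ ⟨628, 35, true, false, 6992, 10691⟩
   ⟨298, 311, 529, 543⟩ ⟨284, 298, 526, 542⟩ ⟨487, 511, 480, 503⟩
   ⟨0, 0, 0, 0⟩ ⟨0, 0, 0, 0⟩)
  (by decide +kernel)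

theorem qSS3_745 : Cl ⟨0, true, false, false⟩ ⟨0, true, false, false⟩
    ⟨792, 857, 198, 273⟩ ⟨781, 809, 72, 97⟩ ⟨891, 931, 20, 66⟩ := .mk
  (.L ⟨710, 33, true, false, 8855, 11975⟩ ⟨624, 29, true, false, 7761, 11739⟩
   ⟨298, 311, 529, 543⟩ ⟨281, 298, 528, 547⟩ ⟨483, 509, 479, 504⟩
   ⟨0, 0, 0, 0⟩ ⟨0, 0, 0, 0⟩)
  (by decide +kernel)

theorem qSS3_746 : Cl ⟨0, true, false, false⟩ ⟨0, true, false, false⟩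
    ⟨792, 857, 198, 273⟩ ⟨781, 809, 72, 97⟩ ⟨882, 927, 32, 77⟩ := .mk
  (.L ⟨710, 33, true, false, 8855, 11975⟩ ⟨628, 31, true, false, 8069, 12056⟩
   ⟨298, 311, 529, 543⟩ ⟨282, 300, 529, 547⟩ ⟨483, 509, 480, 505⟩
   ⟨0, 0, 0, 0⟩ ⟨0, 0, 0, 0⟩)
  (by decide +kernel)

theorem qSS3_747 : Cl ⟨0, true, false, false⟩ ⟨0, true, false, false⟩
    ⟨800, 857, 198, 272⟩ ⟨781, 809, 72, 97⟩ ⟨900, 1001, 0, 29⟩ := .mk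
  (.L ⟨710, 33, true, false, 8821, 11943⟩ ⟨584, 29, true, false, 6794, 11129⟩
   ⟨298, 310, 529, 543⟩ ⟨272, 294, 526, 547⟩ ⟨482, 510, 474, 501⟩
   ⟨0, 0, 0, 0⟩ ⟨0, 0, 0, 0⟩)
  (by decide +kernel)

theorem qSS3_748 : Cl ⟨0, true, false, false⟩ ⟨0, true, false, false⟩
    ⟨800, 857, 198, 272⟩ ⟨781, 809, 72, 97⟩ ⟨908, 1001, 0, 50⟩ := .mk
  (.L ⟨710, 33, true, false, 8821, 11943⟩ ⟨584, 29, true, false, 6847, 11731⟩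
   ⟨298, 310, 529, 543⟩ ⟨272, 295, 526, 549⟩ ⟨481, 510, 474, 502⟩
   ⟨0, 0, 0, 0⟩ ⟨0, 0, 0, 0⟩)
  (by decide +kernel)

theorem qSS3_749 : Cl ⟨0, true, false, false⟩ ⟨0, true, false, false⟩
    ⟨800, 857, 198, 272⟩ ⟨781, 809, 72, 97⟩ ⟨895, 1001, 0, 61⟩ := .mk
  (.L ⟨710, 33, true, false, 8821, 11943⟩ ⟨584, 29, true, false, 6761, 12048⟩
   ⟨298, 310, 529, 543⟩ ⟨272, 297, 526, 550⟩ ⟨480, 510, 474, 504⟩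
   ⟨0, 0, 0, 0⟩ ⟨0, 0, 0, 0⟩)
  (by decide +kernel)

theorem qSS3_750 : Cl ⟨0, true, false, false⟩ ⟨0, true, false, false⟩
    ⟨786, 862, 200, 283⟩ ⟨843, 885, 77, 140⟩ ⟨843, 885, 77, 140⟩ := .mk
  (.L ⟨654, 36, true, false, 9370, 14184⟩ ⟨654, 36, true, false, 9370, 14184⟩
   ⟨288, 308, 532, 553⟩ ⟨288, 308, 532, 553⟩ ⟨483, 517, 483, 517⟩
   ⟨0, 0, 0, 0⟩ ⟨0, 0, 0, 0⟩)
  (by decide +kernel)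

/-- The pairs of the file. -/
def rSS3 : List Pq := [
  ⟨4, 7, ⟨770, 858, 222, 303⟩, ⟨756, 882, 364, 517⟩, ⟨770, 859, 208, 303⟩⟩,
  ⟨4, 11, ⟨783, 857, 222, 275⟩, ⟨756, 882, 364, 517⟩, ⟨781, 809, 72, 97⟩⟩,
  ⟨4, 9, ⟨786, 858, 222, 283⟩, ⟨756, 882, 364, 517⟩, ⟨843, 885, 77, 140⟩⟩,
  ⟨4, 10, ⟨778, 858, 222, 294⟩, ⟨756, 882, 364, 517⟩, ⟨816, 877, 117, 176⟩⟩,
  ⟨4, 14, ⟨792, 858, 222, 273⟩, ⟨756, 882, 364, 517⟩, ⟨832, 870, 31, 62⟩⟩,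
  ⟨4, 12, ⟨791, 858, 222, 278⟩, ⟨756, 882, 364, 517⟩, ⟨857, 913, 40, 101⟩⟩,
  ⟨4, 13, ⟨791, 858, 222, 278⟩, ⟨756, 882, 364, 517⟩, ⟨837, 904, 60, 127⟩⟩,
  ⟨4, 17, ⟨792, 858, 222, 273⟩, ⟨756, 882, 364, 517⟩, ⟨876, 905, 11, 39⟩⟩,
  ⟨4, 15, ⟨792, 858, 222, 273⟩, ⟨756, 882, 364, 517⟩, ⟨891, 931, 20, 66⟩⟩,
  ⟨4, 16, ⟨792, 858, 222, 273⟩, ⟨756, 882, 364, 517⟩, ⟨882, 927, 32, 77⟩⟩,
  ⟨4, 20, ⟨800, 858, 222, 272⟩, ⟨756, 882, 364, 517⟩, ⟨900, 1001, 0, 29⟩⟩,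
  ⟨4, 18, ⟨800, 858, 222, 272⟩, ⟨756, 882, 364, 517⟩, ⟨908, 1001, 0, 50⟩⟩,
  ⟨4, 19, ⟨800, 858, 222, 272⟩, ⟨756, 882, 364, 517⟩, ⟨895, 1001, 0, 61⟩⟩,
  ⟨8, 8, ⟨766, 847, 202, 286⟩, ⟨683, 718, 155, 188⟩, ⟨683, 718, 155, 188⟩⟩,
  ⟨8, 6, ⟨778, 847, 202, 286⟩, ⟨683, 718, 155, 188⟩, ⟨792, 859, 143, 231⟩⟩,
  ⟨8, 7, ⟨770, 847, 208, 286⟩, ⟨683, 718, 155, 188⟩, ⟨770, 859, 208, 303⟩⟩,
  ⟨8, 11, ⟨783, 847, 202, 275⟩, ⟨683, 718, 155, 188⟩, ⟨781, 809, 72, 97⟩⟩,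
  ⟨8, 9, ⟨786, 847, 202, 283⟩, ⟨683, 718, 155, 188⟩, ⟨843, 885, 77, 140⟩⟩,
  ⟨8, 10, ⟨778, 847, 202, 286⟩, ⟨683, 718, 155, 188⟩, ⟨816, 877, 117, 176⟩⟩,
  ⟨8, 14, ⟨792, 847, 202, 273⟩, ⟨683, 718, 155, 188⟩, ⟨832, 870, 31, 62⟩⟩,
  ⟨8, 12, ⟨791, 847, 202, 278⟩, ⟨683, 718, 155, 188⟩, ⟨857, 913, 40, 101⟩⟩,
  ⟨8, 13, ⟨791, 847, 202, 278⟩, ⟨683, 718, 155, 188⟩, ⟨837, 904, 60, 127⟩⟩,
  ⟨8, 17, ⟨792, 847, 202, 273⟩, ⟨683, 718, 155, 188⟩, ⟨876, 905, 11, 39⟩⟩,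
  ⟨8, 15, ⟨792, 847, 202, 273⟩, ⟨683, 718, 155, 188⟩, ⟨891, 931, 20, 66⟩⟩,
  ⟨8, 16, ⟨792, 847, 202, 273⟩, ⟨683, 718, 155, 188⟩, ⟨882, 927, 32, 77⟩⟩,
  ⟨8, 20, ⟨800, 847, 202, 272⟩, ⟨683, 718, 155, 188⟩, ⟨900, 1001, 0, 29⟩⟩,
  ⟨8, 18, ⟨800, 847, 202, 272⟩, ⟨683, 718, 155, 188⟩, ⟨908, 1001, 0, 50⟩⟩,
  ⟨8, 19, ⟨800, 847, 202, 272⟩, ⟨683, 718, 155, 188⟩, ⟨895, 1001, 0, 61⟩⟩,
  ⟨6, 6, ⟨778, 861, 202, 294⟩, ⟨792, 859, 143, 231⟩, ⟨792, 859, 143, 231⟩⟩,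
  ⟨6, 7, ⟨778, 859, 208, 294⟩, ⟨792, 859, 143, 231⟩, ⟨770, 859, 208, 303⟩⟩,
  ⟨6, 11, ⟨783, 857, 202, 275⟩, ⟨792, 859, 143, 231⟩, ⟨781, 809, 72, 97⟩⟩,
  ⟨6, 9, ⟨786, 861, 202, 283⟩, ⟨792, 859, 143, 231⟩, ⟨843, 885, 77, 140⟩⟩,
  ⟨6, 10, ⟨778, 861, 202, 294⟩, ⟨792, 859, 143, 231⟩, ⟨816, 877, 117, 176⟩⟩,
  ⟨6, 14, ⟨792, 861, 202, 273⟩, ⟨792, 859, 143, 231⟩, ⟨832, 870, 31, 62⟩⟩,
  ⟨6, 12, ⟨791, 861, 202, 278⟩, ⟨792, 859, 143, 231⟩, ⟨857, 913, 40, 101⟩⟩,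
  ⟨6, 13, ⟨791, 861, 202, 278⟩, ⟨792, 859, 143, 231⟩, ⟨837, 904, 60, 127⟩⟩,
  ⟨6, 17, ⟨792, 861, 202, 273⟩, ⟨792, 859, 143, 231⟩, ⟨876, 905, 11, 39⟩⟩,
  ⟨6, 15, ⟨792, 861, 202, 273⟩, ⟨792, 859, 143, 231⟩, ⟨891, 931, 20, 66⟩⟩,
  ⟨6, 16, ⟨792, 861, 202, 273⟩, ⟨792, 859, 143, 231⟩, ⟨882, 927, 32, 77⟩⟩,
  ⟨6, 20, ⟨800, 861, 202, 272⟩, ⟨792, 859, 143, 231⟩, ⟨900, 1001, 0, 29⟩⟩,
  ⟨6, 18, ⟨800, 861, 202, 272⟩, ⟨792, 859, 143, 231⟩, ⟨908, 1001, 0, 50⟩⟩,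
  ⟨6, 19, ⟨800, 861, 202, 272⟩, ⟨792, 859, 143, 231⟩, ⟨895, 1001, 0, 61⟩⟩,
  ⟨7, 7, ⟨770, 859, 208, 303⟩, ⟨770, 859, 208, 303⟩, ⟨770, 859, 208, 303⟩⟩,
  ⟨7, 11, ⟨783, 857, 208, 275⟩, ⟨770, 859, 208, 303⟩, ⟨781, 809, 72, 97⟩⟩,
  ⟨7, 9, ⟨786, 859, 208, 283⟩, ⟨770, 859, 208, 303⟩, ⟨843, 885, 77, 140⟩⟩,
  ⟨7, 10, ⟨778, 859, 208, 294⟩, ⟨770, 859, 208, 303⟩, ⟨816, 877, 117, 176⟩⟩,
  ⟨7, 14, ⟨792, 859, 208, 273⟩, ⟨770, 859, 208, 303⟩, ⟨832, 870, 31, 62⟩⟩,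
  ⟨7, 12, ⟨791, 859, 208, 278⟩, ⟨770, 859, 208, 303⟩, ⟨857, 913, 40, 101⟩⟩,
  ⟨7, 13, ⟨791, 859, 208, 278⟩, ⟨770, 859, 208, 303⟩, ⟨837, 904, 60, 127⟩⟩,
  ⟨7, 17, ⟨792, 859, 208, 273⟩, ⟨770, 859, 208, 303⟩, ⟨876, 905, 11, 39⟩⟩,
  ⟨7, 15, ⟨792, 859, 208, 273⟩, ⟨770, 859, 208, 303⟩, ⟨891, 931, 20, 66⟩⟩,
  ⟨7, 16, ⟨792, 859, 208, 273⟩, ⟨770, 859, 208, 303⟩, ⟨882, 927, 32, 77⟩⟩,
  ⟨7, 20, ⟨800, 859, 208, 272⟩, ⟨770, 859, 208, 303⟩, ⟨900, 1001, 0, 29⟩⟩,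
  ⟨7, 18, ⟨800, 859, 208, 272⟩, ⟨770, 859, 208, 303⟩, ⟨908, 1001, 0, 50⟩⟩,
  ⟨7, 19, ⟨800, 859, 208, 272⟩, ⟨770, 859, 208, 303⟩, ⟨895, 1001, 0, 61⟩⟩,
  ⟨11, 11, ⟨783, 857, 198, 275⟩, ⟨781, 809, 72, 97⟩, ⟨781, 809, 72, 97⟩⟩,
  ⟨11, 9, ⟨786, 857, 200, 275⟩, ⟨781, 809, 72, 97⟩, ⟨843, 885, 77, 140⟩⟩,
  ⟨11, 10, ⟨783, 857, 202, 275⟩, ⟨781, 809, 72, 97⟩, ⟨816, 877, 117, 176⟩⟩,
  ⟨11, 14, ⟨792, 857, 198, 273⟩, ⟨781, 809, 72, 97⟩, ⟨832, 870, 31, 62⟩⟩,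
  ⟨11, 12, ⟨791, 857, 198, 275⟩, ⟨781, 809, 72, 97⟩, ⟨857, 913, 40, 101⟩⟩,
  ⟨11, 13, ⟨791, 857, 198, 275⟩, ⟨781, 809, 72, 97⟩, ⟨837, 904, 60, 127⟩⟩,
  ⟨11, 17, ⟨792, 857, 198, 273⟩, ⟨781, 809, 72, 97⟩, ⟨876, 905, 11, 39⟩⟩,
  ⟨11, 15, ⟨792, 857, 198, 273⟩, ⟨781, 809, 72, 97⟩, ⟨891, 931, 20, 66⟩⟩,
  ⟨11, 16, ⟨792, 857, 198, 273⟩, ⟨781, 809, 72, 97⟩, ⟨882, 927, 32, 77⟩⟩,
  ⟨11, 20, ⟨800, 857, 198, 272⟩, ⟨781, 809, 72, 97⟩, ⟨900, 1001, 0, 29⟩⟩,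
  ⟨11, 18, ⟨800, 857, 198, 272⟩, ⟨781, 809, 72, 97⟩, ⟨908, 1001, 0, 50⟩⟩,
  ⟨11, 19, ⟨800, 857, 198, 272⟩, ⟨781, 809, 72, 97⟩, ⟨895, 1001, 0, 61⟩⟩,
  ⟨9, 9, ⟨786, 862, 200, 283⟩, ⟨843, 885, 77, 140⟩, ⟨843, 885, 77, 140⟩⟩]

theorem rSS3_ok : ∀ p ∈ rSS3, Cr true true p :=
  List.forall_mem_cons.2 ⟨qSS3_683,
  List.forall_mem_cons.2 ⟨qSS3_684,
  List.forall_mem_cons.2 ⟨qSS3_685,
  List.forall_mem_cons.2 ⟨qSS3_686,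
  List.forall_mem_cons.2 ⟨qSS3_687,
  List.forall_mem_cons.2 ⟨qSS3_688,
  List.forall_mem_cons.2 ⟨qSS3_689,
  List.forall_mem_cons.2 ⟨qSS3_690,
  List.forall_mem_cons.2 ⟨qSS3_691,
  List.forall_mem_cons.2 ⟨qSS3_692,
  List.forall_mem_cons.2 ⟨qSS3_693,
  List.forall_mem_cons.2 ⟨qSS3_694,
  List.forall_mem_cons.2 ⟨qSS3_695,
  List.forall_mem_cons.2 ⟨qSS3_696,
  List.forall_mem_cons.2 ⟨qSS3_697,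
  List.forall_mem_cons.2 ⟨qSS3_698,
  List.forall_mem_cons.2 ⟨qSS3_699,
  List.forall_mem_cons.2 ⟨qSS3_700,
  List.forall_mem_cons.2 ⟨qSS3_701,
  List.forall_mem_cons.2 ⟨qSS3_702,
  List.forall_mem_cons.2 ⟨qSS3_703,
  List.forall_mem_cons.2 ⟨qSS3_704,
  List.forall_mem_cons.2 ⟨qSS3_705,
  List.forall_mem_cons.2 ⟨qSS3_706,
  List.forall_mem_cons.2 ⟨qSS3_707,
  List.forall_mem_cons.2 ⟨qSS3_708,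
  List.forall_mem_cons.2 ⟨qSS3_709,
  List.forall_mem_cons.2 ⟨qSS3_710,
  List.forall_mem_cons.2 ⟨qSS3_711,
  List.forall_mem_cons.2 ⟨qSS3_712,
  List.forall_mem_cons.2 ⟨qSS3_713,
  List.forall_mem_cons.2 ⟨qSS3_714,
  List.forall_mem_cons.2 ⟨qSS3_715,
  List.forall_mem_cons.2 ⟨qSS3_716,
  List.forall_mem_cons.2 ⟨qSS3_717,
  List.forall_mem_cons.2 ⟨qSS3_718,
  List.forall_mem_cons.2 ⟨qSS3_719,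
  List.forall_mem_cons.2 ⟨qSS3_720,
  List.forall_mem_cons.2 ⟨qSS3_721,
  List.forall_mem_cons.2 ⟨qSS3_722,
  List.forall_mem_cons.2 ⟨qSS3_723,
  List.forall_mem_cons.2 ⟨qSS3_724,
  List.forall_mem_cons.2 ⟨qSS3_725,
  List.forall_mem_cons.2 ⟨qSS3_726,
  List.forall_mem_cons.2 ⟨qSS3_727,
  List.forall_mem_cons.2 ⟨qSS3_728,
  List.forall_mem_cons.2 ⟨qSS3_729,
  List.forall_mem_cons.2 ⟨qSS3_730,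
  List.forall_mem_cons.2 ⟨qSS3_731,
  List.forall_mem_cons.2 ⟨qSS3_732,
  List.forall_mem_cons.2 ⟨qSS3_733,
  List.forall_mem_cons.2 ⟨qSS3_734,
  List.forall_mem_cons.2 ⟨qSS3_735,
  List.forall_mem_cons.2 ⟨qSS3_736,
  List.forall_mem_cons.2 ⟨qSS3_737,
  List.forall_mem_cons.2 ⟨qSS3_738,
  List.forall_mem_cons.2 ⟨qSS3_739,
  List.forall_mem_cons.2 ⟨qSS3_740,
  List.forall_mem_cons.2 ⟨qSS3_741,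
  List.forall_mem_cons.2 ⟨qSS3_742,
  List.forall_mem_cons.2 ⟨qSS3_743,
  List.forall_mem_cons.2 ⟨qSS3_744,
  List.forall_mem_cons.2 ⟨qSS3_745,
  List.forall_mem_cons.2 ⟨qSS3_746,
  List.forall_mem_cons.2 ⟨qSS3_747,
  List.forall_mem_cons.2 ⟨qSS3_748,
  List.forall_mem_cons.2 ⟨qSS3_749,
  List.forall_mem_cons.2 ⟨qSS3_750,
  List.forall_mem_nil _⟩⟩⟩⟩⟩⟩⟩⟩⟩⟩⟩⟩⟩⟩⟩⟩⟩⟩⟩⟩⟩⟩⟩⟩⟩⟩⟩⟩⟩⟩⟩⟩⟩⟩⟩⟩⟩⟩⟩⟩⟩⟩⟩⟩⟩⟩⟩⟩⟩⟩⟩⟩⟩⟩⟩⟩⟩⟩⟩⟩⟩⟩⟩⟩⟩⟩⟩⟩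

end Pool.Agent.S5.Z4
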