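import Pool.Agent.S5.Z4.Tre

/-!
# Inner nodes with four half twists: certificates
-/

set_option autoImplicit false

namespace Pool.Agent.S5.Z4

theorem qSS4_751 : Cl ⟨0, true, false, false⟩ ⟨0, true, false, false⟩
    ⟨786, 861, 202, 283⟩ ⟨843, 885, 77, 140⟩ ⟨816, 877, 117, 176⟩ := .mk
  (.L ⟨655, 36, true, false, 9441, 14189⟩ ⟨663, 41, true, false, 10628, 15369⟩
   ⟨289, 308, 532, 553⟩ ⟨291, 312, 535, 557⟩ ⟨480, 517, 485, 520⟩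
   ⟨0, 0, 0, 0⟩ ⟨0, 0, 0, 0⟩)
  (by decide +kernel)

theorem qSS4_752 : Cl ⟨0, true, false, false⟩ ⟨0, true, false, false⟩
    ⟨792, 862, 200, 273⟩ ⟨843, 885, 77, 140⟩ ⟨832, 870, 31, 62⟩ := .mk
  (.L ⟨654, 36, true, false, 9345, 13834⟩ ⟨659, 29, true, false, 7829, 11138⟩
   ⟨288, 307, 532, 552⟩ ⟨288, 304, 527, 543⟩ ⟨489, 519, 483, 512⟩
   ⟨0, 0, 0, 0⟩ ⟨0, 0, 0, 0⟩)
  (by decide +kernel)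

theorem qSS4_753 : Cl ⟨0, true, false, false⟩ ⟨0, true, false, false⟩
    ⟨791, 862, 200, 278⟩ ⟨843, 885, 77, 140⟩ ⟨857, 913, 40, 101⟩ := .mk
  (.L ⟨654, 36, true, false, 9349, 14009⟩ ⟨630, 33, true, false, 8256, 12879⟩
   ⟨288, 307, 532, 553⟩ ⟨284, 304, 529, 550⟩ ⟨484, 518, 481, 514⟩
   ⟨0, 0, 0, 0⟩ ⟨0, 0, 0, 0⟩)
  (by decide +kernel)

theorem qSS4_754 : Cl ⟨0, true, false, false⟩ ⟨0, true, false, false⟩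
    ⟨791, 862, 200, 278⟩ ⟨843, 885, 77, 140⟩ ⟨837, 904, 60, 127⟩ := .mk
  (.L ⟨654, 36, true, false, 9349, 14009⟩ ⟨641, 34, true, false, 8783, 13673⟩
   ⟨288, 307, 532, 553⟩ ⟨286, 307, 530, 552⟩ ⟨483, 518, 482, 516⟩
   ⟨0, 0, 0, 0⟩ ⟨0, 0, 0, 0⟩)
  (by decide +kernel)

theorem qSS4_755 : Cl ⟨0, true, false, false⟩ ⟨0, true, false, false⟩
    ⟨792, 862, 200, 273⟩ ⟨843, 885, 77, 140⟩ ⟨876, 905, 11, 39⟩ := .mk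
  (.L ⟨654, 36, true, false, 9345, 13834⟩ ⟨624, 38, true, false, 7028, 10651⟩
   ⟨288, 307, 532, 552⟩ ⟨283, 298, 527, 542⟩ ⟨489, 518, 480, 508⟩
   ⟨0, 0, 0, 0⟩ ⟨0, 0, 0, 0⟩)
  (by decide +kernel)

theorem qSS4_756 : Cl ⟨0, true, false, false⟩ ⟨0, true, false, false⟩
    ⟨792, 862, 200, 273⟩ ⟨843, 885, 77, 140⟩ ⟨891, 931, 20, 66⟩ := .mk
  (.L ⟨654, 36, true, false, 9345, 13834⟩ ⟨621, 33, true, false, 7834, 11704⟩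
   ⟨288, 307, 532, 552⟩ ⟨281, 298, 528, 547⟩ ⟨486, 517, 479, 509⟩
   ⟨0, 0, 0, 0⟩ ⟨0, 0, 0, 0⟩)
  (by decide +kernel)

theorem qSS4_757 : Cl ⟨0, true, false, false⟩ ⟨0, true, false, false⟩
    ⟨792, 862, 200, 273⟩ ⟨843, 885, 77, 140⟩ ⟨882, 927, 32, 77⟩ := .mk
  (.L ⟨654, 36, true, false, 9345, 13834⟩ ⟨624, 33, true, false, 8142, 12023⟩
   ⟨288, 307, 532, 552⟩ ⟨282, 300, 529, 548⟩ ⟨485, 517, 480, 511⟩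
   ⟨0, 0, 0, 0⟩ ⟨0, 0, 0, 0⟩)
  (by decide +kernel)

theorem qSS4_758 : Cl ⟨0, true, false, false⟩ ⟨0, true, false, false⟩
    ⟨800, 862, 200, 272⟩ ⟨843, 885, 77, 140⟩ ⟨900, 1001, 0, 29⟩ := .mk
  (.L ⟨654, 36, true, false, 9312, 13799⟩ ⟨572, 31, true, false, 6830, 11088⟩
   ⟨288, 306, 532, 552⟩ ⟨272, 294, 526, 547⟩ ⟨485, 518, 474, 507⟩
   ⟨0, 0, 0, 0⟩ ⟨0, 0, 0, 0⟩)
  (by decide +kernel)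

theorem qSS4_759 : Cl ⟨0, true, false, false⟩ ⟨0, true, false, false⟩
    ⟨800, 862, 200, 272⟩ ⟨843, 885, 77, 140⟩ ⟨908, 1001, 0, 50⟩ := .mk
  (.L ⟨654, 36, true, false, 9312, 13799⟩ ⟨572, 31, true, false, 6884, 11694⟩
   ⟨288, 306, 532, 552⟩ ⟨272, 295, 527, 549⟩ ⟨484, 517, 474, 508⟩
   ⟨0, 0, 0, 0⟩ ⟨0, 0, 0, 0⟩)
  (by decide +kernel)

theorem qSS4_760 : Cl ⟨0, true, false, false⟩ ⟨0, true, false, false⟩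
    ⟨800, 862, 200, 272⟩ ⟨843, 885, 77, 140⟩ ⟨895, 1001, 0, 61⟩ := .mk
  (.L ⟨654, 36, true, false, 9312, 13799⟩ ⟨572, 31, true, false, 6796, 12012⟩
   ⟨288, 306, 532, 552⟩ ⟨272, 297, 526, 550⟩ ⟨483, 518, 474, 509⟩
   ⟨0, 0, 0, 0⟩ ⟨0, 0, 0, 0⟩)
  (by decide +kernel)

theorem qSS4_761 : Cl ⟨0, true, false, false⟩ ⟨0, true, false, false⟩
    ⟨778, 861, 202, 294⟩ ⟨816, 877, 117, 176⟩ ⟨816, 877, 117, 176⟩ := .mk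
  (.L ⟨663, 41, true, false, 10651, 15756⟩ ⟨663, 41, true, false, 10651, 15756⟩
   ⟨291, 313, 535, 558⟩ ⟨291, 313, 535, 558⟩ ⟨480, 520, 480, 520⟩
   ⟨0, 0, 0, 0⟩ ⟨0, 0, 0, 0⟩)
  (by decide +kernel)

theorem qSS4_762 : Cl ⟨0, true, false, false⟩ ⟨0, true, false, false⟩
    ⟨792, 861, 202, 273⟩ ⟨816, 877, 117, 176⟩ ⟨832, 870, 31, 62⟩ := .mk
  (.L ⟨663, 41, true, false, 10611, 15018⟩ ⟨660, 30, true, false, 7899, 11146⟩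
   ⟨291, 311, 536, 555⟩ ⟨288, 304, 527, 543⟩ ⟨491, 520, 480, 510⟩
   ⟨0, 0, 0, 0⟩ ⟨0, 0, 0, 0⟩)
  (by decide +kernel)

theorem qSS4_763 : Cl ⟨0, true, false, false⟩ ⟨0, true, false, false⟩
    ⟨791, 861, 202, 278⟩ ⟨816, 877, 117, 176⟩ ⟨857, 913, 40, 101⟩ := .mk
  (.L ⟨663, 41, true, false, 10614, 15194⟩ ⟨628, 32, true, false, 8327, 12885⟩
   ⟨291, 311, 535, 556⟩ ⟨284, 304, 529, 550⟩ ⟨485, 520, 477, 512⟩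
   ⟨0, 0, 0, 0⟩ ⟨0, 0, 0, 0⟩)
  (by decide +kernel)

theorem qSS4_764 : Cl ⟨0, true, false, false⟩ ⟨0, true, false, false⟩
    ⟨791, 861, 202, 278⟩ ⟨816, 877, 117, 176⟩ ⟨837, 904, 60, 127⟩ := .mk
  (.L ⟨663, 41, true, false, 10614, 15194⟩ ⟨641, 34, true, false, 8853, 13678⟩
   ⟨291, 311, 535, 556⟩ ⟨286, 307, 530, 552⟩ ⟨484, 520, 479, 514⟩
   ⟨0, 0, 0, 0⟩ ⟨0, 0, 0, 0⟩)
  (by decide +kernel)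

theorem qSS4_765 : Cl ⟨0, true, false, false⟩ ⟨0, true, false, false⟩
    ⟨792, 861, 202, 273⟩ ⟨816, 877, 117, 176⟩ ⟨876, 905, 11, 39⟩ := .mk
  (.L ⟨663, 41, true, false, 10611, 15018⟩ ⟨625, 38, true, false, 7102, 10659⟩
   ⟨291, 311, 536, 555⟩ ⟨283, 298, 527, 542⟩ ⟨491, 519, 477, 506⟩
   ⟨0, 0, 0, 0⟩ ⟨0, 0, 0, 0⟩)
  (by decide +kernel)

theorem qSS4_766 : Cl ⟨0, true, false, false⟩ ⟨0, true, false, false⟩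
    ⟨792, 861, 202, 273⟩ ⟨816, 877, 117, 176⟩ ⟨891, 931, 20, 66⟩ := .mk
  (.L ⟨663, 41, true, false, 10611, 15018⟩ ⟨621, 32, true, false, 7907, 11711⟩
   ⟨291, 311, 536, 555⟩ ⟨281, 298, 528, 547⟩ ⟨487, 519, 476, 507⟩
   ⟨0, 0, 0, 0⟩ ⟨0, 0, 0, 0⟩)
  (by decide +kernel)

theorem qSS4_767 : Cl ⟨0, true, false, false⟩ ⟨0, true, false, false⟩
    ⟨792, 861, 202, 273⟩ ⟨816, 877, 117, 176⟩ ⟨882, 927, 32, 77⟩ := .mk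
  (.L ⟨663, 41, true, false, 10611, 15018⟩ ⟨625, 32, true, false, 8215, 12030⟩
   ⟨291, 311, 536, 555⟩ ⟨282, 300, 529, 548⟩ ⟨487, 518, 476, 508⟩
   ⟨0, 0, 0, 0⟩ ⟨0, 0, 0, 0⟩)
  (by decide +kernel)

theorem qSS4_768 : Cl ⟨0, true, false, false⟩ ⟨0, true, false, false⟩
    ⟨800, 861, 202, 272⟩ ⟨816, 877, 117, 176⟩ ⟨900, 1001, 0, 29⟩ := .mk
  (.L ⟨663, 41, true, false, 10588, 14983⟩ ⟨578, 30, true, false, 6906, 11096⟩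
   ⟨291, 310, 536, 555⟩ ⟨272, 294, 527, 547⟩ ⟨486, 519, 471, 504⟩
   ⟨0, 0, 0, 0⟩ ⟨0, 0, 0, 0⟩)
  (by decide +kernel)

theorem qSS4_769 : Cl ⟨0, true, false, false⟩ ⟨0, true, false, false⟩
    ⟨800, 861, 202, 272⟩ ⟨816, 877, 117, 176⟩ ⟨908, 1001, 0, 50⟩ := .mk
  (.L ⟨663, 41, true, false, 10588, 14983⟩ ⟨578, 30, true, false, 6960, 11701⟩
   ⟨291, 310, 536, 555⟩ ⟨272, 295, 527, 549⟩ ⟨485, 519, 471, 505⟩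
   ⟨0, 0, 0, 0⟩ ⟨0, 0, 0, 0⟩)
  (by decide +kernel)

theorem qSS4_770 : Cl ⟨0, true, false, false⟩ ⟨0, true, false, false⟩
    ⟨800, 861, 202, 272⟩ ⟨816, 877, 117, 176⟩ ⟨895, 1001, 0, 61⟩ := .mk
  (.L ⟨663, 41, true, false, 10588, 14983⟩ ⟨578, 30, true, false, 6872, 12019⟩
   ⟨291, 310, 536, 555⟩ ⟨272, 297, 526, 550⟩ ⟨484, 520, 471, 507⟩
   ⟨0, 0, 0, 0⟩ ⟨0, 0, 0, 0⟩)
  (by decide +kernel)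

theorem qSS4_771 : Cl ⟨0, true, false, false⟩ ⟨0, true, false, false⟩
    ⟨792, 867, 195, 273⟩ ⟨832, 870, 31, 62⟩ ⟨832, 870, 31, 62⟩ := .mk
  (.L ⟨657, 29, true, false, 7656, 11102⟩ ⟨657, 29, true, false, 7656, 11102⟩
   ⟨287, 304, 526, 543⟩ ⟨287, 304, 526, 543⟩ ⟨486, 514, 486, 514⟩
   ⟨0, 0, 0, 0⟩ ⟨0, 0, 0, 0⟩)
  (by decide +kernel)

theorem qSS4_772 : Cl ⟨0, true, false, false⟩ ⟨0, true, false, false⟩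
    ⟨792, 865, 198, 273⟩ ⟨832, 870, 31, 62⟩ ⟨857, 913, 40, 101⟩ := .mk
  (.L ⟨658, 32, true, false, 7760, 11117⟩ ⟨632, 31, true, false, 8179, 12683⟩
   ⟨288, 304, 527, 543⟩ ⟨283, 303, 529, 549⟩ ⟨482, 512, 484, 514⟩
   ⟨0, 0, 0, 0⟩ ⟨0, 0, 0, 0⟩)
  (by decide +kernel)

theorem qSS4_773 : Cl ⟨0, true, false, false⟩ ⟨0, true, false, false⟩
    ⟨792, 865, 198, 273⟩ ⟨832, 870, 31, 62⟩ ⟨837, 904, 60, 127⟩ := .mk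
  (.L ⟨658, 32, true, false, 7760, 11117⟩ ⟨639, 33, true, false, 8709, 13480⟩
   ⟨288, 304, 527, 543⟩ ⟨285, 307, 530, 552⟩ ⟨481, 512, 486, 517⟩
   ⟨0, 0, 0, 0⟩ ⟨0, 0, 0, 0⟩)
  (by decide +kernel)

theorem qSS4_774 : Cl ⟨0, true, false, false⟩ ⟨0, true, false, false⟩
    ⟨792, 867, 195, 273⟩ ⟨832, 870, 31, 62⟩ ⟨876, 905, 11, 39⟩ := .mk
  (.L ⟨657, 29, true, false, 7656, 11102⟩ ⟨621, 37, true, false, 6829, 10611⟩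
   ⟨287, 304, 526, 543⟩ ⟨282, 298, 526, 542⟩ ⟨486, 512, 483, 510⟩
   ⟨0, 0, 0, 0⟩ ⟨0, 0, 0, 0⟩)
  (by decide +kernel)

theorem qSS4_775 : Cl ⟨0, true, false, false⟩ ⟨0, true, false, false⟩
    ⟨792, 867, 195, 273⟩ ⟨832, 870, 31, 62⟩ ⟨891, 931, 20, 66⟩ := .mk
  (.L ⟨657, 29, true, false, 7656, 11102⟩ ⟨618, 31, true, false, 7651, 11669⟩
   ⟨287, 304, 526, 543⟩ ⟨280, 298, 527, 547⟩ ⟨483, 512, 482, 511⟩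
   ⟨0, 0, 0, 0⟩ ⟨0, 0, 0, 0⟩)
  (by decide +kernel)

theorem qSS4_776 : Cl ⟨0, true, false, false⟩ ⟨0, true, false, false⟩
    ⟨792, 867, 195, 273⟩ ⟨832, 870, 31, 62⟩ ⟨882, 927, 32, 77⟩ := .mk
  (.L ⟨657, 29, true, false, 7656, 11102⟩ ⟨609, 30, true, false, 7960, 11989⟩
   ⟨287, 304, 526, 543⟩ ⟨281, 300, 528, 548⟩ ⟨482, 512, 483, 512⟩
   ⟨0, 0, 0, 0⟩ ⟨0, 0, 0, 0⟩)
  (by decide +kernel)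

theorem qSS4_777 : Cl ⟨0, true, false, false⟩ ⟨0, true, false, false⟩
    ⟨800, 867, 195, 272⟩ ⟨832, 870, 31, 62⟩ ⟨900, 1001, 0, 29⟩ := .mk
  (.L ⟨657, 29, true, false, 7613, 11068⟩ ⟨578, 30, true, false, 6625, 11047⟩
   ⟨287, 303, 526, 542⟩ ⟨271, 294, 526, 547⟩ ⟨482, 511, 478, 508⟩
   ⟨0, 0, 0, 0⟩ ⟨0, 0, 0, 0⟩)
  (by decide +kernel)

theorem qSS4_778 : Cl ⟨0, true, false, false⟩ ⟨0, true, false, false⟩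
    ⟨800, 867, 195, 272⟩ ⟨832, 870, 31, 62⟩ ⟨908, 1001, 0, 50⟩ := .mk
  (.L ⟨657, 29, true, false, 7613, 11068⟩ ⟨578, 30, true, false, 6677, 11656⟩
   ⟨287, 303, 526, 542⟩ ⟨271, 295, 526, 549⟩ ⟨481, 511, 478, 509⟩
   ⟨0, 0, 0, 0⟩ ⟨0, 0, 0, 0⟩)
  (by decide +kernel)

theorem qSS4_779 : Cl ⟨0, true, false, false⟩ ⟨0, true, false, false⟩
    ⟨800, 867, 195, 272⟩ ⟨832, 870, 31, 62⟩ ⟨895, 1001, 0, 61⟩ := .mk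
  (.L ⟨657, 29, true, false, 7613, 11068⟩ ⟨578, 30, true, false, 6593, 11977⟩
   ⟨287, 303, 526, 542⟩ ⟨271, 297, 525, 550⟩ ⟨480, 512, 478, 511⟩
   ⟨0, 0, 0, 0⟩ ⟨0, 0, 0, 0⟩)
  (by decide +kernel)

theorem qSS4_780 : Cl ⟨0, true, false, false⟩ ⟨0, true, false, false⟩
    ⟨791, 865, 198, 278⟩ ⟨857, 913, 40, 101⟩ ⟨857, 913, 40, 101⟩ := .mk
  (.L ⟨632, 31, true, false, 8185, 12861⟩ ⟨632, 31, true, false, 8185, 12861⟩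
   ⟨283, 304, 529, 550⟩ ⟨283, 304, 529, 550⟩ ⟨483, 517, 483, 517⟩
   ⟨0, 0, 0, 0⟩ ⟨0, 0, 0, 0⟩)
  (by decide +kernel)

theorem qSS4_781 : Cl ⟨0, true, false, false⟩ ⟨0, true, false, false⟩
    ⟨791, 865, 198, 278⟩ ⟨857, 913, 40, 101⟩ ⟨837, 904, 60, 127⟩ := .mk
  (.L ⟨632, 31, true, false, 8185, 12861⟩ ⟨639, 33, true, false, 8714, 13658⟩
   ⟨283, 304, 529, 550⟩ ⟨285, 307, 530, 552⟩ ⟨482, 517, 484, 520⟩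
   ⟨0, 0, 0, 0⟩ ⟨0, 0, 0, 0⟩)
  (by decide +kernel)

theorem qSS4_782 : Cl ⟨0, true, false, false⟩ ⟨0, true, false, false⟩
    ⟨792, 865, 198, 273⟩ ⟨857, 913, 40, 101⟩ ⟨876, 905, 11, 39⟩ := .mk
  (.L ⟨632, 31, true, false, 8179, 12683⟩ ⟨625, 34, true, false, 6942, 10627⟩
   ⟨283, 303, 529, 549⟩ ⟨283, 298, 526, 542⟩ ⟨488, 517, 483, 512⟩
   ⟨0, 0, 0, 0⟩ ⟨0, 0, 0, 0⟩)
  (by decide +kernel)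

theorem qSS4_783 : Cl ⟨0, true, false, false⟩ ⟨0, true, false, false⟩
    ⟨792, 865, 198, 273⟩ ⟨857, 913, 40, 101⟩ ⟨891, 931, 20, 66⟩ := .mk
  (.L ⟨632, 31, true, false, 8179, 12683⟩ ⟨619, 29, true, false, 7761, 11683⟩
   ⟨283, 303, 529, 549⟩ ⟨280, 298, 528, 547⟩ ⟨485, 516, 482, 513⟩
   ⟨0, 0, 0, 0⟩ ⟨0, 0, 0, 0⟩)
  (by decide +kernel)

theorem qSS4_784 : Cl ⟨0, true, false, false⟩ ⟨0, true, false, false⟩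
    ⟨792, 865, 198, 273⟩ ⟨857, 913, 40, 101⟩ ⟨882, 927, 32, 77⟩ := .mk
  (.L ⟨632, 31, true, false, 8179, 12683⟩ ⟨622, 30, true, false, 8069, 12003⟩
   ⟨283, 303, 529, 549⟩ ⟨281, 300, 529, 548⟩ ⟨484, 516, 483, 514⟩
   ⟨0, 0, 0, 0⟩ ⟨0, 0, 0, 0⟩)
  (by decide +kernel)

theorem qSS4_785 : Cl ⟨0, true, false, false⟩ ⟨0, true, false, false⟩
    ⟨800, 865, 198, 272⟩ ⟨857, 913, 40, 101⟩ ⟨900, 1001, 0, 29⟩ := .mk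
  (.L ⟨632, 31, true, false, 8137, 12647⟩ ⟨576, 28, true, false, 6741, 11064⟩
   ⟨283, 302, 529, 549⟩ ⟨271, 294, 526, 547⟩ ⟨484, 516, 477, 510⟩
   ⟨0, 0, 0, 0⟩ ⟨0, 0, 0, 0⟩)
  (by decide +kernel)

theorem qSS4_786 : Cl ⟨0, true, false, false⟩ ⟨0, true, false, false⟩
    ⟨800, 865, 198, 272⟩ ⟨857, 913, 40, 101⟩ ⟨908, 1001, 0, 50⟩ := .mk
  (.L ⟨632, 31, true, false, 8137, 12647⟩ ⟨576, 28, true, false, 6794, 11671⟩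
   ⟨283, 302, 529, 549⟩ ⟨271, 295, 526, 549⟩ ⟨483, 516, 477, 511⟩
   ⟨0, 0, 0, 0⟩ ⟨0, 0, 0, 0⟩)
  (by decide +kernel)

theorem qSS4_787 : Cl ⟨0, true, false, false⟩ ⟨0, true, false, false⟩
    ⟨800, 865, 198, 272⟩ ⟨857, 913, 40, 101⟩ ⟨895, 1001, 0, 61⟩ := .mk
  (.L ⟨632, 31, true, false, 8137, 12647⟩ ⟨576, 28, true, false, 6708, 11991⟩
   ⟨283, 302, 529, 549⟩ ⟨271, 297, 526, 550⟩ ⟨482, 517, 477, 513⟩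
   ⟨0, 0, 0, 0⟩ ⟨0, 0, 0, 0⟩)
  (by decide +kernel)

theorem qSS4_788 : Cl ⟨0, true, false, false⟩ ⟨0, true, false, false⟩
    ⟨791, 865, 198, 278⟩ ⟨837, 904, 60, 127⟩ ⟨837, 904, 60, 127⟩ := .mk
  (.L ⟨639, 33, true, false, 8714, 13658⟩ ⟨639, 33, true, false, 8714, 13658⟩
   ⟨285, 307, 530, 552⟩ ⟨285, 307, 530, 552⟩ ⟨482, 518, 482, 518⟩
   ⟨0, 0, 0, 0⟩ ⟨0, 0, 0, 0⟩)
  (by decide +kernel)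

theorem qSS4_789 : Cl ⟨0, true, false, false⟩ ⟨0, true, false, false⟩
    ⟨792, 865, 198, 273⟩ ⟨837, 904, 60, 127⟩ ⟨876, 905, 11, 39⟩ := .mk
  (.L ⟨639, 33, true, false, 8709, 13480⟩ ⟨625, 34, true, false, 6942, 10627⟩
   ⟨285, 307, 530, 552⟩ ⟨283, 298, 526, 542⟩ ⟨488, 519, 480, 510⟩
   ⟨0, 0, 0, 0⟩ ⟨0, 0, 0, 0⟩)
  (by decide +kernel)

theorem qSS4_790 : Cl ⟨0, true, false, false⟩ ⟨0, true, false, false⟩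
    ⟨792, 865, 198, 273⟩ ⟨837, 904, 60, 127⟩ ⟨891, 931, 20, 66⟩ := .mk
  (.L ⟨639, 33, true, false, 8709, 13480⟩ ⟨619, 29, true, false, 7761, 11683⟩
   ⟨285, 307, 530, 552⟩ ⟨280, 298, 528, 547⟩ ⟨484, 518, 479, 511⟩
   ⟨0, 0, 0, 0⟩ ⟨0, 0, 0, 0⟩)
  (by decide +kernel)

theorem qSS4_791 : Cl ⟨0, true, false, false⟩ ⟨0, true, false, false⟩
    ⟨792, 865, 198, 273⟩ ⟨837, 904, 60, 127⟩ ⟨882, 927, 32, 77⟩ := .mk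
  (.L ⟨639, 33, true, false, 8709, 13480⟩ ⟨622, 30, true, false, 8069, 12003⟩
   ⟨285, 307, 530, 552⟩ ⟨281, 300, 529, 548⟩ ⟨484, 517, 479, 513⟩
   ⟨0, 0, 0, 0⟩ ⟨0, 0, 0, 0⟩)
  (by decide +kernel)

theorem qSS4_792 : Cl ⟨0, true, false, false⟩ ⟨0, true, false, false⟩
    ⟨800, 865, 198, 272⟩ ⟨837, 904, 60, 127⟩ ⟨900, 1001, 0, 29⟩ := .mk
  (.L ⟨639, 33, true, false, 8672, 13444⟩ ⟨576, 28, true, false, 6741, 11064⟩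
   ⟨285, 306, 530, 552⟩ ⟨271, 294, 526, 547⟩ ⟨484, 518, 474, 509⟩
   ⟨0, 0, 0, 0⟩ ⟨0, 0, 0, 0⟩)
  (by decide +kernel)

theorem qSS4_793 : Cl ⟨0, true, false, false⟩ ⟨0, true, false, false⟩
    ⟨800, 865, 198, 272⟩ ⟨837, 904, 60, 127⟩ ⟨908, 1001, 0, 50⟩ := .mk
  (.L ⟨639, 33, true, false, 8672, 13444⟩ ⟨576, 28, true, false, 6794, 11671⟩
   ⟨285, 306, 530, 552⟩ ⟨271, 295, 526, 549⟩ ⟨482, 518, 474, 510⟩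
   ⟨0, 0, 0, 0⟩ ⟨0, 0, 0, 0⟩)
  (by decide +kernel)

theorem qSS4_794 : Cl ⟨0, true, false, false⟩ ⟨0, true, false, false⟩
    ⟨800, 865, 198, 272⟩ ⟨837, 904, 60, 127⟩ ⟨895, 1001, 0, 61⟩ := .mk
  (.L ⟨639, 33, true, false, 8672, 13444⟩ ⟨576, 28, true, false, 6708, 11991⟩
   ⟨285, 306, 530, 552⟩ ⟨271, 297, 526, 550⟩ ⟨482, 519, 474, 511⟩
   ⟨0, 0, 0, 0⟩ ⟨0, 0, 0, 0⟩)
  (by decide +kernel)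

theorem qSS4_795 : Cl ⟨0, true, false, false⟩ ⟨0, true, false, false⟩
    ⟨792, 867, 195, 273⟩ ⟨876, 905, 11, 39⟩ ⟨876, 905, 11, 39⟩ := .mk
  (.L ⟨621, 37, true, false, 6829, 10611⟩ ⟨621, 37, true, false, 6829, 10611⟩
   ⟨282, 298, 526, 542⟩ ⟨282, 298, 526, 542⟩ ⟨487, 513, 487, 513⟩
   ⟨0, 0, 0, 0⟩ ⟨0, 0, 0, 0⟩)
  (by decide +kernel)

theorem qSS4_796 : Cl ⟨0, true, false, false⟩ ⟨0, true, false, false⟩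
    ⟨792, 867, 195, 273⟩ ⟨876, 905, 11, 39⟩ ⟨891, 931, 20, 66⟩ := .mk
  (.L ⟨621, 37, true, false, 6829, 10611⟩ ⟨618, 31, true, false, 7651, 11669⟩
   ⟨282, 298, 526, 542⟩ ⟨280, 298, 527, 547⟩ ⟨484, 512, 486, 514⟩
   ⟨0, 0, 0, 0⟩ ⟨0, 0, 0, 0⟩)
  (by decide +kernel)

theorem qSS4_797 : Cl ⟨0, true, false, false⟩ ⟨0, true, false, false⟩
    ⟨792, 867, 195, 273⟩ ⟨876, 905, 11, 39⟩ ⟨882, 927, 32, 77⟩ := .mk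
  (.L ⟨621, 37, true, false, 6829, 10611⟩ ⟨609, 30, true, false, 7960, 11989⟩
   ⟨282, 298, 526, 542⟩ ⟨281, 300, 528, 548⟩ ⟨483, 512, 487, 515⟩
   ⟨0, 0, 0, 0⟩ ⟨0, 0, 0, 0⟩)
  (by decide +kernel)

theorem qSS4_798 : Cl ⟨0, true, false, false⟩ ⟨0, true, false, false⟩
    ⟨800, 867, 195, 272⟩ ⟨876, 905, 11, 39⟩ ⟨900, 1001, 0, 29⟩ := .mk
  (.L ⟨621, 37, true, false, 6829, 10576⟩ ⟨578, 30, true, false, 6625, 11047⟩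
   ⟨282, 297, 526, 542⟩ ⟨271, 294, 526, 547⟩ ⟨483, 512, 482, 511⟩
   ⟨0, 0, 0, 0⟩ ⟨0, 0, 0, 0⟩)
  (by decide +kernel)

theorem qSS4_799 : Cl ⟨0, true, false, false⟩ ⟨0, true, false, false⟩
    ⟨800, 867, 195, 272⟩ ⟨876, 905, 11, 39⟩ ⟨908, 1001, 0, 50⟩ := .mk
  (.L ⟨621, 37, true, false, 6829, 10576⟩ ⟨578, 30, true, false, 6677, 11656⟩
   ⟨282, 297, 526, 542⟩ ⟨271, 295, 526, 549⟩ ⟨482, 512, 482, 512⟩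
   ⟨0, 0, 0, 0⟩ ⟨0, 0, 0, 0⟩)
  (by decide +kernel)

theorem qSS4_800 : Cl ⟨0, true, false, false⟩ ⟨0, true, false, false⟩
    ⟨800, 867, 195, 272⟩ ⟨876, 905, 11, 39⟩ ⟨895, 1001, 0, 61⟩ := .mk
  (.L ⟨621, 37, true, false, 6829, 10576⟩ ⟨578, 30, true, false, 6593, 11977⟩
   ⟨282, 297, 526, 542⟩ ⟨271, 297, 525, 550⟩ ⟨481, 513, 482, 514⟩
   ⟨0, 0, 0, 0⟩ ⟨0, 0, 0, 0⟩)
  (by decide +kernel)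

theorem qSS4_801 : Cl ⟨0, true, false, false⟩ ⟨0, true, false, false⟩
    ⟨792, 867, 195, 273⟩ ⟨891, 931, 20, 66⟩ ⟨891, 931, 20, 66⟩ := .mk
  (.L ⟨618, 31, true, false, 7651, 11669⟩ ⟨618, 31, true, false, 7651, 11669⟩
   ⟨280, 298, 527, 547⟩ ⟨280, 298, 527, 547⟩ ⟨484, 516, 485, 515⟩
   ⟨0, 0, 0, 0⟩ ⟨0, 0, 0, 0⟩)
  (by decide +kernel)

theorem qSS4_802 : Cl ⟨0, true, false, false⟩ ⟨0, true, false, false⟩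
    ⟨792, 867, 195, 273⟩ ⟨891, 931, 20, 66⟩ ⟨882, 927, 32, 77⟩ := .mk
  (.L ⟨618, 31, true, false, 7651, 11669⟩ ⟨609, 30, true, false, 7960, 11989⟩
   ⟨280, 298, 527, 547⟩ ⟨281, 300, 528, 548⟩ ⟨484, 515, 486, 516⟩
   ⟨0, 0, 0, 0⟩ ⟨0, 0, 0, 0⟩)
  (by decide +kernel)

theorem qSS4_803 : Cl ⟨0, true, false, false⟩ ⟨0, true, false, false⟩
    ⟨800, 867, 195, 272⟩ ⟨891, 931, 20, 66⟩ ⟨900, 1001, 0, 29⟩ := .mk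
  (.L ⟨618, 31, true, false, 7604, 11633⟩ ⟨578, 30, true, false, 6625, 11047⟩
   ⟨280, 297, 527, 547⟩ ⟨271, 294, 526, 547⟩ ⟨484, 515, 481, 512⟩
   ⟨0, 0, 0, 0⟩ ⟨0, 0, 0, 0⟩)
  (by decide +kernel)

theorem qSS4_804 : Cl ⟨0, true, false, false⟩ ⟨0, true, false, false⟩
    ⟨800, 867, 195, 272⟩ ⟨891, 931, 20, 66⟩ ⟨908, 1001, 0, 50⟩ := .mk
  (.L ⟨618, 31, true, false, 7604, 11633⟩ ⟨578, 30, true, false, 6677, 11656⟩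
   ⟨280, 297, 527, 547⟩ ⟨271, 295, 526, 549⟩ ⟨482, 516, 481, 513⟩
   ⟨0, 0, 0, 0⟩ ⟨0, 0, 0, 0⟩)
  (by decide +kernel)

theorem qSS4_805 : Cl ⟨0, true, false, false⟩ ⟨0, true, false, false⟩
    ⟨800, 867, 195, 272⟩ ⟨891, 931, 20, 66⟩ ⟨895, 1001, 0, 61⟩ := .mk
  (.L ⟨618, 31, true, false, 7604, 11633⟩ ⟨578, 30, true, false, 6593, 11977⟩
   ⟨280, 297, 527, 547⟩ ⟨271, 297, 525, 550⟩ ⟨482, 516, 481, 515⟩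
   ⟨0, 0, 0, 0⟩ ⟨0, 0, 0, 0⟩)
  (by decide +kernel)

theorem qSS4_806 : Cl ⟨0, true, false, false⟩ ⟨0, true, false, false⟩
    ⟨792, 867, 195, 273⟩ ⟨882, 927, 32, 77⟩ ⟨882, 927, 32, 77⟩ := .mk
  (.L ⟨609, 30, true, false, 7960, 11989⟩ ⟨609, 30, true, false, 7960, 11989⟩
   ⟨281, 300, 528, 548⟩ ⟨281, 300, 528, 548⟩ ⟨484, 516, 485, 515⟩
   ⟨0, 0, 0, 0⟩ ⟨0, 0, 0, 0⟩)
  (by decide +kernel)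

theorem qSS4_807 : Cl ⟨0, true, false, false⟩ ⟨0, true, false, false⟩
    ⟨800, 867, 195, 272⟩ ⟨882, 927, 32, 77⟩ ⟨900, 1001, 0, 29⟩ := .mk
  (.L ⟨615, 30, true, false, 7917, 11953⟩ ⟨578, 30, true, false, 6625, 11047⟩
   ⟨281, 299, 528, 547⟩ ⟨271, 294, 526, 547⟩ ⟨484, 515, 479, 511⟩
   ⟨0, 0, 0, 0⟩ ⟨0, 0, 0, 0⟩)
  (by decide +kernel)

theorem qSS4_808 : Cl ⟨0, true, false, false⟩ ⟨0, true, false, false⟩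
    ⟨800, 867, 195, 272⟩ ⟨882, 927, 32, 77⟩ ⟨908, 1001, 0, 50⟩ := .mk
  (.L ⟨615, 30, true, false, 7917, 11953⟩ ⟨578, 30, true, false, 6677, 11656⟩
   ⟨281, 299, 528, 547⟩ ⟨271, 295, 526, 549⟩ ⟨483, 515, 479, 512⟩
   ⟨0, 0, 0, 0⟩ ⟨0, 0, 0, 0⟩)
  (by decide +kernel)

theorem qSS4_809 : Cl ⟨0, true, false, false⟩ ⟨0, true, false, false⟩
    ⟨800, 867, 195, 272⟩ ⟨882, 927, 32, 77⟩ ⟨895, 1001, 0, 61⟩ := .mk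
  (.L ⟨615, 30, true, false, 7917, 11953⟩ ⟨578, 30, true, false, 6593, 11977⟩
   ⟨281, 299, 528, 547⟩ ⟨271, 297, 525, 550⟩ ⟨482, 516, 479, 514⟩
   ⟨0, 0, 0, 0⟩ ⟨0, 0, 0, 0⟩)
  (by decide +kernel)

theorem qSS4_810 : Cl ⟨0, true, false, false⟩ ⟨0, true, false, false⟩
    ⟨800, 874, 195, 272⟩ ⟨900, 1001, 0, 29⟩ ⟨900, 1001, 0, 29⟩ := .mk
  (.L ⟨573, 31, true, false, 6579, 10990⟩ ⟨573, 31, true, false, 6579, 10990⟩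
   ⟨270, 294, 526, 547⟩ ⟨270, 294, 526, 547⟩ ⟨484, 516, 482, 518⟩
   ⟨0, 0, 0, 0⟩ ⟨0, 0, 0, 0⟩)
  (by decide +kernel)

theorem qSS4_811 : Cl ⟨0, true, false, false⟩ ⟨0, true, false, false⟩
    ⟨800, 874, 195, 272⟩ ⟨900, 1001, 0, 29⟩ ⟨908, 1001, 0, 50⟩ := .mk
  (.L ⟨573, 31, true, false, 6579, 10990⟩ ⟨573, 31, true, false, 6632, 11604⟩
   ⟨270, 294, 526, 547⟩ ⟨270, 295, 526, 549⟩ ⟨482, 517, 482, 519⟩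
   ⟨0, 0, 0, 0⟩ ⟨0, 0, 0, 0⟩)
  (by decide +kernel)

theorem qSS4_812 : Cl ⟨0, true, false, false⟩ ⟨0, true, false, false⟩
    ⟨800, 874, 195, 272⟩ ⟨900, 1001, 0, 29⟩ ⟨895, 1001, 0, 61⟩ := .mk
  (.L ⟨573, 31, true, false, 6579, 10990⟩ ⟨573, 31, true, false, 6547, 11927⟩
   ⟨270, 294, 526, 547⟩ ⟨270, 297, 525, 550⟩ ⟨482, 518, 482, 521⟩
   ⟨0, 0, 0, 0⟩ ⟨0, 0, 0, 0⟩)
  (by decide +kernel)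

theorem qSS4_813 : Cl ⟨0, true, false, false⟩ ⟨0, true, false, false⟩
    ⟨800, 874, 195, 272⟩ ⟨908, 1001, 0, 50⟩ ⟨908, 1001, 0, 50⟩ := .mk
  (.L ⟨573, 31, true, false, 6632, 11604⟩ ⟨573, 31, true, false, 6632, 11604⟩
   ⟨270, 295, 526, 549⟩ ⟨270, 295, 526, 549⟩ ⟨482, 518, 481, 519⟩
   ⟨0, 0, 0, 0⟩ ⟨0, 0, 0, 0⟩)
  (by decide +kernel)

theorem qSS4_814 : Cl ⟨0, true, false, false⟩ ⟨0, true, false, false⟩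
    ⟨800, 874, 195, 272⟩ ⟨908, 1001, 0, 50⟩ ⟨895, 1001, 0, 61⟩ := .mk
  (.L ⟨573, 31, true, false, 6632, 11604⟩ ⟨573, 31, true, false, 6547, 11927⟩
   ⟨270, 295, 526, 549⟩ ⟨270, 297, 525, 550⟩ ⟨481, 519, 481, 521⟩
   ⟨0, 0, 0, 0⟩ ⟨0, 0, 0, 0⟩)
  (by decide +kernel)

theorem qSS4_815 : Cl ⟨0, true, false, false⟩ ⟨0, true, false, false⟩
    ⟨800, 874, 195, 272⟩ ⟨895, 1001, 0, 61⟩ ⟨895, 1001, 0, 61⟩ := .mk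
  (.L ⟨573, 31, true, false, 6547, 11927⟩ ⟨573, 31, true, false, 6547, 11927⟩
   ⟨270, 297, 525, 550⟩ ⟨270, 297, 525, 550⟩ ⟨480, 520, 479, 521⟩
   ⟨0, 0, 0, 0⟩ ⟨0, 0, 0, 0⟩)
  (by decide +kernel)

/-- The pairs of the file. -/
def rSS4 : List Pq := [
  ⟨9, 10, ⟨786, 861, 202, 283⟩, ⟨843, 885, 77, 140⟩, ⟨816, 877, 117, 176⟩⟩,
  ⟨9, 14, ⟨792, 862, 200, 273⟩, ⟨843, 885, 77, 140⟩, ⟨832, 870, 31, 62⟩⟩,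
  ⟨9, 12, ⟨791, 862, 200, 278⟩, ⟨843, 885, 77, 140⟩, ⟨857, 913, 40, 101⟩⟩,
  ⟨9, 13, ⟨791, 862, 200, 278⟩, ⟨843, 885, 77, 140⟩, ⟨837, 904, 60, 127⟩⟩,
  ⟨9, 17, ⟨792, 862, 200, 273⟩, ⟨843, 885, 77, 140⟩, ⟨876, 905, 11, 39⟩⟩,
  ⟨9, 15, ⟨792, 862, 200, 273⟩, ⟨843, 885, 77, 140⟩, ⟨891, 931, 20, 66⟩⟩,
  ⟨9, 16, ⟨792, 862, 200, 273⟩, ⟨843, 885, 77, 140⟩, ⟨882, 927, 32, 77⟩⟩,
  ⟨9, 20, ⟨800, 862, 200, 272⟩, ⟨843, 885, 77, 140⟩, ⟨900, 1001, 0, 29⟩⟩,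
  ⟨9, 18, ⟨800, 862, 200, 272⟩, ⟨843, 885, 77, 140⟩, ⟨908, 1001, 0, 50⟩⟩,
  ⟨9, 19, ⟨800, 862, 200, 272⟩, ⟨843, 885, 77, 140⟩, ⟨895, 1001, 0, 61⟩⟩,
  ⟨10, 10, ⟨778, 861, 202, 294⟩, ⟨816, 877, 117, 176⟩, ⟨816, 877, 117, 176⟩⟩,
  ⟨10, 14, ⟨792, 861, 202, 273⟩, ⟨816, 877, 117, 176⟩, ⟨832, 870, 31, 62⟩⟩,
  ⟨10, 12, ⟨791, 861, 202, 278⟩, ⟨816, 877, 117, 176⟩, ⟨857, 913, 40, 101⟩⟩,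
  ⟨10, 13, ⟨791, 861, 202, 278⟩, ⟨816, 877, 117, 176⟩, ⟨837, 904, 60, 127⟩⟩,
  ⟨10, 17, ⟨792, 861, 202, 273⟩, ⟨816, 877, 117, 176⟩, ⟨876, 905, 11, 39⟩⟩,
  ⟨10, 15, ⟨792, 861, 202, 273⟩, ⟨816, 877, 117, 176⟩, ⟨891, 931, 20, 66⟩⟩,
  ⟨10, 16, ⟨792, 861, 202, 273⟩, ⟨816, 877, 117, 176⟩, ⟨882, 927, 32, 77⟩⟩,
  ⟨10, 20, ⟨800, 861, 202, 272⟩, ⟨816, 877, 117, 176⟩, ⟨900, 1001, 0, 29⟩⟩,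
  ⟨10, 18, ⟨800, 861, 202, 272⟩, ⟨816, 877, 117, 176⟩, ⟨908, 1001, 0, 50⟩⟩,
  ⟨10, 19, ⟨800, 861, 202, 272⟩, ⟨816, 877, 117, 176⟩, ⟨895, 1001, 0, 61⟩⟩,
  ⟨14, 14, ⟨792, 867, 195, 273⟩, ⟨832, 870, 31, 62⟩, ⟨832, 870, 31, 62⟩⟩,
  ⟨14, 12, ⟨792, 865, 198, 273⟩, ⟨832, 870, 31, 62⟩, ⟨857, 913, 40, 101⟩⟩,
  ⟨14, 13, ⟨792, 865, 198, 273⟩, ⟨832, 870, 31, 62⟩, ⟨837, 904, 60, 127⟩⟩,
  ⟨14, 17, ⟨792, 867, 195, 273⟩, ⟨832, 870, 31, 62⟩, ⟨876, 905, 11, 39⟩⟩,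
  ⟨14, 15, ⟨792, 867, 195, 273⟩, ⟨832, 870, 31, 62⟩, ⟨891, 931, 20, 66⟩⟩,
  ⟨14, 16, ⟨792, 867, 195, 273⟩, ⟨832, 870, 31, 62⟩, ⟨882, 927, 32, 77⟩⟩,
  ⟨14, 20, ⟨800, 867, 195, 272⟩, ⟨832, 870, 31, 62⟩, ⟨900, 1001, 0, 29⟩⟩,
  ⟨14, 18, ⟨800, 867, 195, 272⟩, ⟨832, 870, 31, 62⟩, ⟨908, 1001, 0, 50⟩⟩,
  ⟨14, 19, ⟨800, 867, 195, 272⟩, ⟨832, 870, 31, 62⟩, ⟨895, 1001, 0, 61⟩⟩,
  ⟨12, 12, ⟨791, 865, 198, 278⟩, ⟨857, 913, 40, 101⟩, ⟨857, 913, 40, 101⟩⟩,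
  ⟨12, 13, ⟨791, 865, 198, 278⟩, ⟨857, 913, 40, 101⟩, ⟨837, 904, 60, 127⟩⟩,
  ⟨12, 17, ⟨792, 865, 198, 273⟩, ⟨857, 913, 40, 101⟩, ⟨876, 905, 11, 39⟩⟩,
  ⟨12, 15, ⟨792, 865, 198, 273⟩, ⟨857, 913, 40, 101⟩, ⟨891, 931, 20, 66⟩⟩,
  ⟨12, 16, ⟨792, 865, 198, 273⟩, ⟨857, 913, 40, 101⟩, ⟨882, 927, 32, 77⟩⟩,
  ⟨12, 20, ⟨800, 865, 198, 272⟩, ⟨857, 913, 40, 101⟩, ⟨900, 1001, 0, 29⟩⟩,
  ⟨12, 18, ⟨800, 865, 198, 272⟩, ⟨857, 913, 40, 101⟩, ⟨908, 1001, 0, 50⟩⟩,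
  ⟨12, 19, ⟨800, 865, 198, 272⟩, ⟨857, 913, 40, 101⟩, ⟨895, 1001, 0, 61⟩⟩,
  ⟨13, 13, ⟨791, 865, 198, 278⟩, ⟨837, 904, 60, 127⟩, ⟨837, 904, 60, 127⟩⟩,
  ⟨13, 17, ⟨792, 865, 198, 273⟩, ⟨837, 904, 60, 127⟩, ⟨876, 905, 11, 39⟩⟩,
  ⟨13, 15, ⟨792, 865, 198, 273⟩, ⟨837, 904, 60, 127⟩, ⟨891, 931, 20, 66⟩⟩,
  ⟨13, 16, ⟨792, 865, 198, 273⟩, ⟨837, 904, 60, 127⟩, ⟨882, 927, 32, 77⟩⟩,
  ⟨13, 20, ⟨800, 865, 198, 272⟩, ⟨837, 904, 60, 127⟩, ⟨900, 1001, 0, 29⟩⟩,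
  ⟨13, 18, ⟨800, 865, 198, 272⟩, ⟨837, 904, 60, 127⟩, ⟨908, 1001, 0, 50⟩⟩,
  ⟨13, 19, ⟨800, 865, 198, 272⟩, ⟨837, 904, 60, 127⟩, ⟨895, 1001, 0, 61⟩⟩,
  ⟨17, 17, ⟨792, 867, 195, 273⟩, ⟨876, 905, 11, 39⟩, ⟨876, 905, 11, 39⟩⟩,
  ⟨17, 15, ⟨792, 867, 195, 273⟩, ⟨876, 905, 11, 39⟩, ⟨891, 931, 20, 66⟩⟩,
  ⟨17, 16, ⟨792, 867, 195, 273⟩, ⟨876, 905, 11, 39⟩, ⟨882, 927, 32, 77⟩⟩,
  ⟨17, 20, ⟨800, 867, 195, 272⟩, ⟨876, 905, 11, 39⟩, ⟨900, 1001, 0, 29⟩⟩,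
  ⟨17, 18, ⟨800, 867, 195, 272⟩, ⟨876, 905, 11, 39⟩, ⟨908, 1001, 0, 50⟩⟩,
  ⟨17, 19, ⟨800, 867, 195, 272⟩, ⟨876, 905, 11, 39⟩, ⟨895, 1001, 0, 61⟩⟩,
  ⟨15, 15, ⟨792, 867, 195, 273⟩, ⟨891, 931, 20, 66⟩, ⟨891, 931, 20, 66⟩⟩,
  ⟨15, 16, ⟨792, 867, 195, 273⟩, ⟨891, 931, 20, 66⟩, ⟨882, 927, 32, 77⟩⟩,
  ⟨15, 20, ⟨800, 867, 195, 272⟩, ⟨891, 931, 20, 66⟩, ⟨900, 1001, 0, 29⟩⟩,
  ⟨15, 18, ⟨800, 867, 195, 272⟩, ⟨891, 931, 20, 66⟩, ⟨908, 1001, 0, 50⟩⟩,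
  ⟨15, 19, ⟨800, 867, 195, 272⟩, ⟨891, 931, 20, 66⟩, ⟨895, 1001, 0, 61⟩⟩,
  ⟨16, 16, ⟨792, 867, 195, 273⟩, ⟨882, 927, 32, 77⟩, ⟨882, 927, 32, 77⟩⟩,
  ⟨16, 20, ⟨800, 867, 195, 272⟩, ⟨882, 927, 32, 77⟩, ⟨900, 1001, 0, 29⟩⟩,
  ⟨16, 18, ⟨800, 867, 195, 272⟩, ⟨882, 927, 32, 77⟩, ⟨908, 1001, 0, 50⟩⟩,
  ⟨16, 19, ⟨800, 867, 195, 272⟩, ⟨882, 927, 32, 77⟩, ⟨895, 1001, 0, 61⟩⟩,
  ⟨20, 20, ⟨800, 874, 195, 272⟩, ⟨900, 1001, 0, 29⟩, ⟨900, 1001, 0, 29⟩⟩,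
  ⟨20, 18, ⟨800, 874, 195, 272⟩, ⟨900, 1001, 0, 29⟩, ⟨908, 1001, 0, 50⟩⟩,
  ⟨20, 19, ⟨800, 874, 195, 272⟩, ⟨900, 1001, 0, 29⟩, ⟨895, 1001, 0, 61⟩⟩,
  ⟨18, 18, ⟨800, 874, 195, 272⟩, ⟨908, 1001, 0, 50⟩, ⟨908, 1001, 0, 50⟩⟩,
  ⟨18, 19, ⟨800, 874, 195, 272⟩, ⟨908, 1001, 0, 50⟩, ⟨895, 1001, 0, 61⟩⟩,
  ⟨19, 19, ⟨800, 874, 195, 272⟩, ⟨895, 1001, 0, 61⟩, ⟨895, 1001, 0, 61⟩⟩]

theorem rSS4_ok : ∀ p ∈ rSS4, Cr true true p :=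
  List.forall_mem_cons.2 ⟨qSS4_751,
  List.forall_mem_cons.2 ⟨qSS4_752,
  List.forall_mem_cons.2 ⟨qSS4_753,
  List.forall_mem_cons.2 ⟨qSS4_754,
  List.forall_mem_cons.2 ⟨qSS4_755,
  List.forall_mem_cons.2 ⟨qSS4_756,
  List.forall_mem_cons.2 ⟨qSS4_757,
  List.forall_mem_cons.2 ⟨qSS4_758,
  List.forall_mem_cons.2 ⟨qSS4_759,
  List.forall_mem_cons.2 ⟨qSS4_760,
  List.forall_mem_cons.2 ⟨qSS4_761,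
  List.forall_mem_cons.2 ⟨qSS4_762,
  List.forall_mem_cons.2 ⟨qSS4_763,
  List.forall_mem_cons.2 ⟨qSS4_764,
  List.forall_mem_cons.2 ⟨qSS4_765,
  List.forall_mem_cons.2 ⟨qSS4_766,
  List.forall_mem_cons.2 ⟨qSS4_767,
  List.forall_mem_cons.2 ⟨qSS4_768,
  List.forall_mem_cons.2 ⟨qSS4_769,
  List.forall_mem_cons.2 ⟨qSS4_770,
  List.forall_mem_cons.2 ⟨qSS4_771,
  List.forall_mem_cons.2 ⟨qSS4_772,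
  List.forall_mem_cons.2 ⟨qSS4_773,
  List.forall_mem_cons.2 ⟨qSS4_774,
  List.forall_mem_cons.2 ⟨qSS4_775,
  List.forall_mem_cons.2 ⟨qSS4_776,
  List.forall_mem_cons.2 ⟨qSS4_777,
  List.forall_mem_cons.2 ⟨qSS4_778,
  List.forall_mem_cons.2 ⟨qSS4_779,
  List.forall_mem_cons.2 ⟨qSS4_780,
  List.forall_mem_cons.2 ⟨qSS4_781,
  List.forall_mem_cons.2 ⟨qSS4_782,
  List.forall_mem_cons.2 ⟨qSS4_783,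
  List.forall_mem_cons.2 ⟨qSS4_784,
  List.forall_mem_cons.2 ⟨qSS4_785,
  List.forall_mem_cons.2 ⟨qSS4_786,
  List.forall_mem_cons.2 ⟨qSS4_787,
  List.forall_mem_cons.2 ⟨qSS4_788,
  List.forall_mem_cons.2 ⟨qSS4_789,
  List.forall_mem_cons.2 ⟨qSS4_790,
  List.forall_mem_cons.2 ⟨qSS4_791,
  List.forall_mem_cons.2 ⟨qSS4_792,
  List.forall_mem_cons.2 ⟨qSS4_793,
  List.forall_mem_cons.2 ⟨qSS4_794,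
  List.forall_mem_cons.2 ⟨qSS4_795,
  List.forall_mem_cons.2 ⟨qSS4_796,
  List.forall_mem_cons.2 ⟨qSS4_797,
  List.forall_mem_cons.2 ⟨qSS4_798,
  List.forall_mem_cons.2 ⟨qSS4_799,
  List.forall_mem_cons.2 ⟨qSS4_800,
  List.forall_mem_cons.2 ⟨qSS4_801,
  List.forall_mem_cons.2 ⟨qSS4_802,
  List.forall_mem_cons.2 ⟨qSS4_803,
  List.forall_mem_cons.2 ⟨qSS4_804,
  List.forall_mem_cons.2 ⟨qSS4_805,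
  List.forall_mem_cons.2 ⟨qSS4_806,
  List.forall_mem_cons.2 ⟨qSS4_807,
  List.forall_mem_cons.2 ⟨qSS4_808,
  List.forall_mem_cons.2 ⟨qSS4_809,
  List.forall_mem_cons.2 ⟨qSS4_810,
  List.forall_mem_cons.2 ⟨qSS4_811,
  List.forall_mem_cons.2 ⟨qSS4_812,
  List.forall_mem_cons.2 ⟨qSS4_813,
  List.forall_mem_cons.2 ⟨qSS4_814,
  List.forall_mem_cons.2 ⟨qSS4_815,
  List.forall_mem_nil _⟩⟩⟩⟩⟩⟩⟩⟩⟩⟩⟩⟩⟩⟩⟩⟩⟩⟩⟩⟩⟩⟩⟩⟩⟩⟩⟩⟩⟩⟩⟩⟩⟩⟩⟩⟩⟩⟩⟩⟩⟩⟩⟩⟩⟩⟩⟩⟩⟩⟩⟩⟩⟩⟩⟩⟩⟩⟩⟩⟩⟩⟩⟩⟩⟩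

end Pool.Agent.S5.Z4
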