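import Pool.Agent.S5.Z4.R.SSb0a
import Pool.Agent.S5.Z4.R.SSb0b
import Pool.Agent.S5.Z4.R.SSb0c
import Pool.Agent.S5.Z4.R.SSb0d
import Pool.Agent.S5.Z4.R.SSb0e
import Pool.Agent.S5.Z4.R.SSb0f
import Pool.Agent.S5.Z4.R.SSb0g
import Pool.Agent.S5.Z4.R.SSb0h
import Pool.Agent.S5.Z4.R.SSb0i
import Pool.Agent.S5.Z4.R.SSb0j
import Pool.Agent.S5.Z4.R.SSb0k
import Pool.Agent.S5.Z4.R.SSb0l
import Pool.Agent.S5.Z4.R.SSb0m
import Pool.Agent.S5.Z4.R.SSb0n
import Pool.Agent.S5.Z4.R.SSb0o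
import Pool.Agent.S5.Z4.R.SSb0p
import Pool.Agent.S5.Z4.R.SSb0q
import Pool.Agent.S5.Z4.R.SSb0r

/-!
# Inner nodes with four half twists: certificates
-/

set_option autoImplicit false

namespace Pool.Agent.S5.Z4

theorem qSSb0 : Cl ⟨0, true, true, false⟩ ⟨0, true, true, false⟩
    ⟨751, 860, 226, 343⟩ ⟨725, 933, 409, 604⟩ ⟨725, 933, 409, 604⟩ :=
  (Cl.s0
   (Cl.s1
    (Cl.s2
     qSSb0_0
     qSSb0_1)
    (Cl.s2
     (Cl.s4
      qSSb0_2
      (Cl.s3
       qSSb0_3
       (Cl.s0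
        qSSb0_4
        qSSb0_5)))
     (Cl.s4
      (Cl.s5
       qSSb0_6
       (Cl.s0
        qSSb0_7
        qSSb0_8))
      (Cl.s0
       qSSb0_9
       (Cl.s3
        qSSb0_10
        (Cl.s5
         qSSb0_11
         (Cl.s2
          qSSb0_12
          qSSb0_13)))))))
   (Cl.s1
    (Cl.s2
     (Cl.s4
      qSSb0_14
      qSSb0_15)
     (Cl.s4
      qSSb0_16
      qSSb0_17))
    (Cl.s2
     (Cl.s4
      (Cl.s3
       qSSb0_18
       (Cl.s5
        qSSb0_19
        qSSb0_20))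
      (Cl.s3
       qSSb0_21
       (Cl.s5
        qSSb0_22
        (Cl.s0
         (Cl.s2
          qSSb0_23
          qSSb0_24)
         qSSb0_25))))
     (Cl.s4
      (Cl.s5
       qSSb0_26
       (Cl.s3
        qSSb0_27
        (Cl.s0
         (Cl.s4
          qSSb0_28
          qSSb0_29)
         qSSb0_30)))
      (Cl.s0
       (Cl.s5
        qSSb0_31
        (Cl.s3
         qSSb0_32
         (Cl.s1
          (Cl.s2
           qSSb0_33
           qSSb0_34)
          (Cl.s2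
           qSSb0_35
           (Cl.s4
            qSSb0_36
            qSSb0_37)))))
       (Cl.s3
        (Cl.s5
         qSSb0_38
         qSSb0_39)
        (Cl.s5
         qSSb0_40
         (Cl.s1
          qSSb0_41
          (Cl.s2
           qSSb0_42
           (Cl.s4
            qSSb0_43
            qSSb0_44))))))))))

/-- The pair of the file. -/
def rSSb0 : List Pq := [⟨0, 0, ⟨751, 860, 226, 343⟩, ⟨725, 933, 409, 604⟩, ⟨725, 933, 409, 604⟩⟩]

theorem rSSb0_ok : ∀ p ∈ rSSb0, Cr true true p :=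
  List.forall_mem_cons.2 ⟨qSSb0, List.forall_mem_nil _⟩

end Pool.Agent.S5.Z4
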