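import Pool.Agent.S5.Z4.R.SSb1a
import Pool.Agent.S5.Z4.R.SSb1b

/-!
# Inner nodes with four half twists: certificates
-/

set_option autoImplicit false

namespace Pool.Agent.S5.Z4

theorem qSSb1 : Cl ⟨0, true, true, false⟩ ⟨0, true, true, true⟩
    ⟨764, 859, 226, 314⟩ ⟨725, 933, 409, 604⟩ ⟨732, 879, 252, 393⟩ :=
  (Cl.s0
   qSSb1_0
   (Cl.s2
    qSSb1_1
    qSSb1_2))

/-- The pair of the file. -/
def rSSb1 : List Pq := [⟨0, 3, ⟨764, 859, 226, 314⟩, ⟨725, 933, 409, 604⟩, ⟨732, 879, 252, 393⟩⟩]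

theorem rSSb1_ok : ∀ p ∈ rSSb1, Cr true true p :=
  List.forall_mem_cons.2 ⟨qSSb1, List.forall_mem_nil _⟩

end Pool.Agent.S5.Z4
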