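import Pool.Agent.S5.Z4.R.SSb2a
import Pool.Agent.S5.Z4.R.SSb2b
import Pool.Agent.S5.Z4.R.SSb2c
import Pool.Agent.S5.Z4.R.SSb2d

/-!
# Inner nodes with four half twists: certificates
-/

set_option autoImplicit false

namespace Pool.Agent.S5.Z4

theorem qSSb2 : Cl ⟨0, true, true, false⟩ ⟨0, true, true, true⟩
    ⟨757, 858, 226, 330⟩ ⟨725, 933, 409, 604⟩ ⟨756, 882, 364, 517⟩ :=
  (Cl.s0
   (Cl.s2
    qSSb2_0
    qSSb2_1)
   (Cl.s2
    (Cl.s1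
     qSSb2_2
     (Cl.s3
      qSSb2_3
      qSSb2_4))
    (Cl.s1
     qSSb2_5
     (Cl.s4
      (Cl.s3
       qSSb2_6
       qSSb2_7)
      (Cl.s0
       qSSb2_8
       qSSb2_9)))))

/-- The pair of the file. -/
def rSSb2 : List Pq := [⟨0, 4, ⟨757, 858, 226, 330⟩, ⟨725, 933, 409, 604⟩, ⟨756, 882, 364, 517⟩⟩]

theorem rSSb2_ok : ∀ p ∈ rSSb2, Cr true true p :=
  List.forall_mem_cons.2 ⟨qSSb2, List.forall_mem_nil _⟩

end Pool.Agent.S5.Z4
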