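import Pool.Agent.S5.Z4.R.SSb3a

/-!
# Inner nodes with four half twists: certificates
-/

set_option autoImplicit false

namespace Pool.Agent.S5.Z4

theorem qSSb3 : Cl ⟨0, true, true, true⟩ ⟨0, true, true, true⟩
    ⟨757, 858, 222, 330⟩ ⟨756, 882, 364, 517⟩ ⟨756, 882, 364, 517⟩ :=
  (Cl.s0
   qSSb3_0
   (Cl.s1
    qSSb3_1
    qSSb3_2))

/-- The pair of the file. -/
def rSSb3 : List Pq := [⟨4, 4, ⟨757, 858, 222, 330⟩, ⟨756, 882, 364, 517⟩, ⟨756, 882, 364, 517⟩⟩]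

theorem rSSb3_ok : ∀ p ∈ rSSb3, Cr true true p :=
  List.forall_mem_cons.2 ⟨qSSb3, List.forall_mem_nil _⟩

end Pool.Agent.S5.Z4
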