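import Pool.Agent.S5.Z4.R.AA0
import Pool.Agent.S5.Z4.R.AA1
import Pool.Agent.S5.Z4.R.AA2
import Pool.Agent.S5.Z4.R.AA3
import Pool.Agent.S5.Z4.R.AA4
import Pool.Agent.S5.Z4.R.AAb0
import Pool.Agent.S5.Z4.R.AS0
import Pool.Agent.S5.Z4.R.AS1
import Pool.Agent.S5.Z4.R.AS2
import Pool.Agent.S5.Z4.R.AS3
import Pool.Agent.S5.Z4.R.AS4
import Pool.Agent.S5.Z4.R.AS5
import Pool.Agent.S5.Z4.R.AS6
import Pool.Agent.S5.Z4.R.AS7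
import Pool.Agent.S5.Z4.R.AS8
import Pool.Agent.S5.Z4.R.AS9
import Pool.Agent.S5.Z4.R.ASb0
import Pool.Agent.S5.Z4.R.ASb1
import Pool.Agent.S5.Z4.R.SS0
import Pool.Agent.S5.Z4.R.SS1
import Pool.Agent.S5.Z4.R.SS2
import Pool.Agent.S5.Z4.R.SS3
import Pool.Agent.S5.Z4.R.SS4
import Pool.Agent.S5.Z4.R.SSb0
import Pool.Agent.S5.Z4.R.SSb1
import Pool.Agent.S5.Z4.R.SSb2
import Pool.Agent.S5.Z4.R.SSb3

/-!
# Inner nodes with four half twists: certificates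
-/

set_option autoImplicit false

namespace Pool.Agent.S5.Z4

/-- The pairs of the class AA. -/
def allAA : List Pq := rAA0 ++ (rAA1 ++ (rAA2 ++ (rAA3 ++ (rAA4 ++ (rAAb0)))))

theorem allAA_ok : ∀ p ∈ allAA, Cr false false p :=
  List.forall_mem_append.2 ⟨rAA0_ok,
  List.forall_mem_append.2 ⟨rAA1_ok,
  List.forall_mem_append.2 ⟨rAA2_ok,
  List.forall_mem_append.2 ⟨rAA3_ok,
  List.forall_mem_append.2 ⟨rAA4_ok,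
  rAAb0_ok⟩⟩⟩⟩⟩

/-- The pairs of the class AS. -/
def allAS : List Pq := rAS0 ++ (rAS1 ++ (rAS2 ++ (rAS3 ++ (rAS4 ++ (rAS5 ++ (rAS6 ++ (rAS7 ++ (rAS8 ++ (rAS9 ++ (rASb0 ++ (rASb1)))))))))))

theorem allAS_ok : ∀ p ∈ allAS, Cr false true p :=
  List.forall_mem_append.2 ⟨rAS0_ok,
  List.forall_mem_append.2 ⟨rAS1_ok,
  List.forall_mem_append.2 ⟨rAS2_ok,
  List.forall_mem_append.2 ⟨rAS3_ok,
  List.forall_mem_append.2 ⟨rAS4_ok,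
  List.forall_mem_append.2 ⟨rAS5_ok,
  List.forall_mem_append.2 ⟨rAS6_ok,
  List.forall_mem_append.2 ⟨rAS7_ok,
  List.forall_mem_append.2 ⟨rAS8_ok,
  List.forall_mem_append.2 ⟨rAS9_ok,
  List.forall_mem_append.2 ⟨rASb0_ok,
  rASb1_ok⟩⟩⟩⟩⟩⟩⟩⟩⟩⟩⟩

/-- The pairs of the class SS. -/
def allSS : List Pq := rSS0 ++ (rSS1 ++ (rSS2 ++ (rSS3 ++ (rSS4 ++ (rSSb0 ++ (rSSb1 ++ (rSSb2 ++ (rSSb3))))))))

theorem allSS_ok : ∀ p ∈ allSS, Cr true true p :=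
  List.forall_mem_append.2 ⟨rSS0_ok,
  List.forall_mem_append.2 ⟨rSS1_ok,
  List.forall_mem_append.2 ⟨rSS2_ok,
  List.forall_mem_append.2 ⟨rSS3_ok,
  List.forall_mem_append.2 ⟨rSS4_ok,
  List.forall_mem_append.2 ⟨rSSb0_ok,
  List.forall_mem_append.2 ⟨rSSb1_ok,
  List.forall_mem_append.2 ⟨rSSb2_ok,
  rSSb3_ok⟩⟩⟩⟩⟩⟩⟩⟩

end Pool.Agent.S5.Z4
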