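import Pool.Agent.S5.Z4.R.TASb0a
import Pool.Agent.S5.Z4.R.TASb0b
import Pool.Agent.S5.Z4.R.TASb0c
import Pool.Agent.S5.Z4.R.TASb0d
import Pool.Agent.S5.Z4.R.TASb0e
import Pool.Agent.S5.Z4.R.TASb0f
import Pool.Agent.S5.Z4.R.TASb0g

/-!
# Inner nodes with four half twists: certificates
-/

set_option autoImplicit false

namespace Pool.Agent.S5.Z4

theorem qTASb0 : Cl ⟨0, false, true, false⟩ ⟨0, true, true, false⟩
    ⟨808, 852, 161, 205⟩ ⟨851, 949, 495, 598⟩ ⟨746, 797, 518, 567⟩ :=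
  (Cl.s0
   (Cl.s5
    qTASb0_0
    (Cl.s4
     (Cl.s2
      qTASb0_1
      (Cl.s0
       qTASb0_2
       qTASb0_3))
     qTASb0_4))
   (Cl.s5
    qTASb0_5
    (Cl.s4
     (Cl.s0
      (Cl.s3
       qTASb0_6
       (Cl.s2
        qTASb0_7
        (Cl.s1
         (Cl.s5
          qTASb0_8
          (Cl.s1
           qTASb0_9
           (Cl.s2
            qTASb0_10
            (Cl.s5
             qTASb0_11
             (Cl.s4
              qTASb0_12
              qTASb0_13)))))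
         qTASb0_14)))
      qTASb0_15)
     (Cl.s0
      (Cl.s3
       qTASb0_16
       (Cl.s2
        qTASb0_17
        (Cl.s1
         qTASb0_18
         qTASb0_19)))
      qTASb0_20))))

/-- The pair of the file. -/
def rTASb0 : List Pq := [⟨1, 0, ⟨808, 852, 161, 205⟩, ⟨851, 949, 495, 598⟩, ⟨746, 797, 518, 567⟩⟩]

theorem rTASb0_ok : ∀ p ∈ rTASb0, Cr false true p :=
  List.forall_mem_cons.2 ⟨qTASb0, List.forall_mem_nil _⟩

end Pool.Agent.S5.Z4
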