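import Pool.Agent.S5.Z4.R.TASb1a

/-!
# Inner nodes with four half twists: certificates
-/

set_option autoImplicit false

namespace Pool.Agent.S5.Z4

theorem qTASb1 : Cl ⟨0, false, true, false⟩ ⟨0, true, true, false⟩
    ⟨808, 852, 161, 205⟩ ⟨851, 949, 495, 598⟩ ⟨816, 921, 461, 565⟩ :=
  (Cl.s5
   qTASb1_0
   (Cl.s0
    qTASb1_1
    (Cl.s4
     qTASb1_2
     qTASb1_3)))

/-- The pair of the file. -/
def rTASb1 : List Pq := [⟨1, 0, ⟨808, 852, 161, 205⟩, ⟨851, 949, 495, 598⟩, ⟨816, 921, 461, 565⟩⟩]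

theorem rTASb1_ok : ∀ p ∈ rTASb1, Cr false true p :=
  List.forall_mem_cons.2 ⟨qTASb1, List.forall_mem_nil _⟩

end Pool.Agent.S5.Z4
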