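import Pool.Agent.S5.Z4.R.TASb2a
import Pool.Agent.S5.Z4.R.TASb2b

/-!
# Inner nodes with four half twists: certificates
-/

set_option autoImplicit false

namespace Pool.Agent.S5.Z4

theorem qTASb2 : Cl ⟨0, false, true, false⟩ ⟨0, true, true, false⟩
    ⟨808, 852, 161, 205⟩ ⟨851, 949, 495, 598⟩ ⟨841, 875, 567, 599⟩ :=
  (Cl.s0
   qTASb2_0
   (Cl.s0
    (Cl.s4
     (Cl.s3
      qTASb2_1
      (Cl.s2
       qTASb2_2
       qTASb2_3))
     qTASb2_4)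
    (Cl.s1
     qTASb2_5
     (Cl.s3
      qTASb2_6
      qTASb2_7))))

/-- The pair of the file. -/
def rTASb2 : List Pq := [⟨1, 0, ⟨808, 852, 161, 205⟩, ⟨851, 949, 495, 598⟩, ⟨841, 875, 567, 599⟩⟩]

theorem rTASb2_ok : ∀ p ∈ rTASb2, Cr false true p :=
  List.forall_mem_cons.2 ⟨qTASb2, List.forall_mem_nil _⟩

end Pool.Agent.S5.Z4
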