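import Pool.Agent.S5.Z4.R.TASb3a
import Pool.Agent.S5.Z4.R.TASb3b
import Pool.Agent.S5.Z4.R.TASb3c

/-!
# Inner nodes with four half twists: certificates
-/

set_option autoImplicit false

namespace Pool.Agent.S5.Z4

theorem qTASb3 : Cl ⟨0, false, true, false⟩ ⟨0, true, true, false⟩
    ⟨795, 853, 169, 223⟩ ⟨729, 942, 354, 525⟩ ⟨742, 797, 519, 571⟩ :=
  (Cl.s0
   qTASb3_0
   (Cl.s2
    (Cl.s5
     qTASb3_1
     qTASb3_2)
    (Cl.s3
     qTASb3_3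
     (Cl.s5
      qTASb3_4
      (Cl.s0
       (Cl.s4
        qTASb3_5
        qTASb3_6)
       qTASb3_7)))))

/-- The pair of the file. -/
def rTASb3 : List Pq := [⟨0, 0, ⟨795, 853, 169, 223⟩, ⟨729, 942, 354, 525⟩, ⟨742, 797, 519, 571⟩⟩]

theorem rTASb3_ok : ∀ p ∈ rTASb3, Cr false true p :=
  List.forall_mem_cons.2 ⟨qTASb3, List.forall_mem_nil _⟩

end Pool.Agent.S5.Z4
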