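import Pool.Agent.S5.Z4.R.TASb4a

/-!
# Inner nodes with four half twists: certificates
-/

set_option autoImplicit false

namespace Pool.Agent.S5.Z4

theorem qTASb4 : Cl ⟨0, false, true, false⟩ ⟨0, true, true, false⟩
    ⟨795, 853, 169, 223⟩ ⟨729, 942, 354, 525⟩ ⟨813, 923, 462, 569⟩ :=
  (Cl.s2
   qTASb4_0
   qTASb4_1)

/-- The pair of the file. -/
def rTASb4 : List Pq := [⟨0, 0, ⟨795, 853, 169, 223⟩, ⟨729, 942, 354, 525⟩, ⟨813, 923, 462, 569⟩⟩]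

theorem rTASb4_ok : ∀ p ∈ rTASb4, Cr false true p :=
  List.forall_mem_cons.2 ⟨qTASb4, List.forall_mem_nil _⟩

end Pool.Agent.S5.Z4
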