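import Pool.Agent.S5.Z4.R.TASb7a

/-!
# Inner nodes with four half twists: certificates
-/

set_option autoImplicit false

namespace Pool.Agent.S5.Z4

theorem qTASb7 : Cl ⟨1, false, false, false⟩ ⟨0, true, true, false⟩
    ⟨773, 812, 155, 192⟩ ⟨539, 560, 689, 708⟩ ⟨880, 923, 545, 587⟩ :=
  (Cl.s0
   qTASb7_0
   qTASb7_1)

/-- The pair of the file. -/
def rTASb7 : List Pq := [⟨2, 0, ⟨773, 812, 155, 192⟩, ⟨539, 560, 689, 708⟩, ⟨880, 923, 545, 587⟩⟩]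

theorem rTASb7_ok : ∀ p ∈ rTASb7, Cr false true p :=
  List.forall_mem_cons.2 ⟨qTASb7, List.forall_mem_nil _⟩

end Pool.Agent.S5.Z4
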