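import Pool.Agent.S5.Z4.R.TAA0
import Pool.Agent.S5.Z4.R.TAS0
import Pool.Agent.S5.Z4.R.TAS1
import Pool.Agent.S5.Z4.R.TAS2
import Pool.Agent.S5.Z4.R.TAS3
import Pool.Agent.S5.Z4.R.TASb0
import Pool.Agent.S5.Z4.R.TASb1
import Pool.Agent.S5.Z4.R.TASb2
import Pool.Agent.S5.Z4.R.TASb3
import Pool.Agent.S5.Z4.R.TASb4
import Pool.Agent.S5.Z4.R.TASb5
import Pool.Agent.S5.Z4.R.TASb6
import Pool.Agent.S5.Z4.R.TASb7

/-!
# Inner nodes with four half twists: certificates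
-/

set_option autoImplicit false

namespace Pool.Agent.S5.Z4

/-- The pairs of the class AA. -/
def TallAA : List Pq := rTAA0

theorem TallAA_ok : ∀ p ∈ TallAA, Cr false false p :=
  rTAA0_ok

/-- The pairs of the class AS. -/
def TallAS : List Pq := rTAS0 ++ (rTAS1 ++ (rTAS2 ++ (rTAS3 ++ (rTASb0 ++ (rTASb1 ++ (rTASb2 ++ (rTASb3 ++ (rTASb4 ++ (rTASb5 ++ (rTASb6 ++ (rTASb7)))))))))))

theorem TallAS_ok : ∀ p ∈ TallAS, Cr false true p :=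
  List.forall_mem_append.2 ⟨rTAS0_ok,
  List.forall_mem_append.2 ⟨rTAS1_ok,
  List.forall_mem_append.2 ⟨rTAS2_ok,
  List.forall_mem_append.2 ⟨rTAS3_ok,
  List.forall_mem_append.2 ⟨rTASb0_ok,
  List.forall_mem_append.2 ⟨rTASb1_ok,
  List.forall_mem_append.2 ⟨rTASb2_ok,
  List.forall_mem_append.2 ⟨rTASb3_ok,
  List.forall_mem_append.2 ⟨rTASb4_ok,
  List.forall_mem_append.2 ⟨rTASb5_ok,
  List.forall_mem_append.2 ⟨rTASb6_ok,
  rTASb7_ok⟩⟩⟩⟩⟩⟩⟩⟩⟩⟩⟩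

end Pool.Agent.S5.Z4
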