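import Pool.Agent.S5.Z4.Tre

/-!
# Inner nodes with four half twists: certificates
-/

set_option autoImplicit false

namespace Pool.Agent.S5.Z4

theorem qAA0_0 : Cl ⟨1, false, false, false⟩ ⟨0, false, true, false⟩
    ⟨820, 850, 96, 149⟩ ⟨556, 579, 710, 745⟩ ⟨736, 958, 360, 539⟩ := .mk
  (.S 4 847
   (.S 5 449
    (.S 0 835
     (.L ⟨650, 112, false, true, 31589, 30720⟩ ⟨581, 37, false, false, 13720, 6441⟩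
      ⟨314, 327, 395, 407⟩ ⟨274, 301, 450, 475⟩ ⟨468, 486, 487, 506⟩
      ⟨683, 749, 1414, 1473⟩ ⟨0, 0, 0, 0⟩)
     (.L ⟨646, 114, false, true, 31930, 31261⟩ ⟨572, 38, false, false, 14026, 6718⟩
      ⟨315, 327, 394, 405⟩ ⟨272, 300, 448, 473⟩ ⟨469, 486, 487, 505⟩
      ⟨687, 752, 1421, 1480⟩ ⟨0, 0, 0, 0⟩))
    (.S 1 122
     (.L ⟨668, 114, false, true, 32079, 30720⟩ ⟨547, 54, false, false, 17660, 10228⟩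
      ⟨318, 327, 395, 407⟩ ⟨271, 299, 434, 459⟩ ⟨475, 491, 486, 502⟩
      ⟨683, 738, 1420, 1480⟩ ⟨0, 0, 0, 0⟩)
     (.D ⟨650, 112, false, true, 31930, 30216⟩ ⟨535, 50, false, false, 16910, 9289⟩
      ⟨314, 324, 394, 406⟩ ⟨267, 296, 435, 462⟩ ⟨474, 490, 485, 502⟩)))
   (.S 5 449
    (.S 0 835
     (.L ⟨650, 112, false, true, 31589, 30720⟩ ⟨526, 27, false, false, 11442, 4418⟩
      ⟨314, 327, 395, 407⟩ ⟨257, 286, 453, 481⟩ ⟨465, 484, 481, 500⟩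
      ⟨683, 749, 1414, 1473⟩ ⟨0, 0, 0, 0⟩)
     (.L ⟨646, 114, false, true, 31930, 31261⟩ ⟨517, 29, false, false, 11750, 4687⟩
      ⟨315, 327, 394, 405⟩ ⟨255, 284, 452, 480⟩ ⟨465, 483, 481, 499⟩
      ⟨687, 752, 1421, 1480⟩ ⟨0, 0, 0, 0⟩))
    (.S 0 835
     (.S 1 122
      (.S 4 902
       (.L ⟨668, 114, false, true, 32063, 30720⟩ ⟨527, 47, false, false, 14454, 9051⟩
        ⟨318, 327, 396, 407⟩ ⟨264, 283, 440, 462⟩ ⟨474, 488, 483, 496⟩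
        ⟨683, 735, 1420, 1473⟩ ⟨0, 0, 0, 0⟩)
       (.L ⟨668, 114, false, true, 32063, 30720⟩ ⟨503, 41, false, false, 13071, 7873⟩
        ⟨318, 327, 396, 407⟩ ⟨255, 275, 442, 465⟩ ⟨472, 486, 480, 493⟩
        ⟨683, 735, 1420, 1473⟩ ⟨0, 0, 0, 0⟩))
      (.S 5 494
       (.L ⟨650, 112, false, true, 31589, 30216⟩ ⟨509, 32, false, false, 12044, 6802⟩
        ⟨314, 324, 395, 406⟩ ⟨254, 280, 449, 469⟩ ⟨471, 484, 481, 497⟩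
        ⟨695, 749, 1414, 1467⟩ ⟨0, 0, 0, 0⟩)
       (.D ⟨650, 112, false, true, 31589, 30216⟩ ⟨492, 37, false, false, 13546, 7989⟩
        ⟨314, 324, 395, 406⟩ ⟨250, 277, 442, 463⟩ ⟨473, 487, 480, 495⟩)))
     (.S 1 122
      (.S 4 902
       (.L ⟨663, 116, false, true, 32079, 31261⟩ ⟨519, 48, false, false, 14834, 9370⟩
        ⟨318, 327, 395, 405⟩ ⟨262, 281, 437, 460⟩ ⟨474, 488, 483, 495⟩
        ⟨687, 738, 1428, 1480⟩ ⟨0, 0, 0, 0⟩)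
       (.S 2 567
        (.L ⟨675, 118, false, true, 31968, 31261⟩ ⟨494, 43, false, false, 13446, 8186⟩
         ⟨320, 327, 395, 405⟩ ⟨253, 273, 440, 463⟩ ⟨473, 486, 480, 492⟩
         ⟨687, 728, 1433, 1480⟩ ⟨0, 0, 0, 0⟩)
        (.L ⟨663, 116, false, true, 32079, 30865⟩ ⟨494, 43, false, false, 13446, 8186⟩
         ⟨318, 325, 395, 405⟩ ⟨253, 273, 440, 463⟩ ⟨473, 486, 480, 493⟩
         ⟨695, 738, 1428, 1474⟩ ⟨0, 0, 0, 0⟩)))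
      (.D ⟨646, 114, false, true, 31930, 30779⟩ ⟨483, 38, false, false, 13945, 7132⟩
       ⟨315, 324, 394, 405⟩ ⟨248, 278, 440, 467⟩ ⟨471, 487, 479, 496⟩)))))
  (by decide +kernel)

theorem qAA0_1 : Cl ⟨1, false, false, false⟩ ⟨0, false, true, false⟩
    ⟨833, 850, 95, 149⟩ ⟨556, 579, 710, 745⟩ ⟨886, 964, 503, 582⟩ := .mk
  (.S 1 122
   (.S 5 542
    (.S 4 925
     (.L ⟨664, 116, false, true, 32079, 31208⟩ ⟨507, 46, false, false, 13981, 10404⟩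
      ⟨318, 327, 395, 405⟩ ⟨258, 273, 439, 454⟩ ⟨476, 487, 482, 492⟩
      ⟨686, 738, 1427, 1480⟩ ⟨0, 0, 0, 0⟩)
     (.S 2 567
      (.L ⟨676, 118, false, true, 31968, 31208⟩ ⟨490, 42, false, false, 13000, 9479⟩
       ⟨320, 327, 395, 405⟩ ⟨252, 267, 441, 456⟩ ⟨476, 486, 480, 489⟩
       ⟨686, 728, 1432, 1480⟩ ⟨0, 0, 0, 0⟩)
      (.L ⟨664, 116, false, true, 32079, 30812⟩ ⟨490, 42, false, false, 13000, 9479⟩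
       ⟨318, 325, 395, 405⟩ ⟨252, 267, 441, 456⟩ ⟨476, 486, 480, 490⟩
       ⟨694, 738, 1427, 1475⟩ ⟨0, 0, 0, 0⟩)))
    (.S 3 727
     (.S 4 925
      (.S 0 841
       (.L ⟨664, 116, false, true, 31181, 31208⟩ ⟨496, 50, false, false, 15029, 11530⟩
        ⟨318, 327, 399, 405⟩ ⟨256, 271, 433, 448⟩ ⟨479, 489, 481, 491⟩
        ⟨686, 727, 1427, 1462⟩ ⟨0, 0, 0, 0⟩)
       (.L ⟨661, 117, false, true, 31534, 31495⟩ ⟨491, 51, false, false, 15278, 11739⟩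
        ⟨318, 327, 398, 405⟩ ⟨255, 271, 432, 446⟩ ⟨480, 489, 481, 491⟩
        ⟨688, 729, 1431, 1466⟩ ⟨0, 0, 0, 0⟩))
      (.S 0 841
       (.L ⟨664, 116, false, true, 31181, 31208⟩ ⟨480, 46, false, false, 13959, 10523⟩
        ⟨318, 327, 399, 405⟩ ⟨250, 265, 436, 450⟩ ⟨479, 487, 479, 488⟩
        ⟨686, 727, 1427, 1462⟩ ⟨0, 0, 0, 0⟩)
       (.S 4 944
        (.L ⟨661, 117, false, true, 31534, 31495⟩ ⟨483, 49, false, false, 14205, 11244⟩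
         ⟨318, 327, 398, 405⟩ ⟨252, 264, 434, 448⟩ ⟨479, 488, 480, 488⟩
         ⟨688, 729, 1431, 1466⟩ ⟨0, 0, 0, 0⟩)
        (.L ⟨661, 117, false, true, 31534, 31495⟩ ⟨475, 47, false, false, 13688, 10728⟩
         ⟨318, 327, 398, 405⟩ ⟨249, 261, 435, 449⟩ ⟨479, 488, 479, 487⟩
         ⟨688, 729, 1431, 1466⟩ ⟨0, 0, 0, 0⟩))))
     (.S 4 925
      (.S 0 841
       (.L ⟨653, 120, false, true, 32160, 32260⟩ ⟨496, 50, false, false, 15029, 11530⟩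
        ⟨318, 327, 396, 402⟩ ⟨256, 271, 433, 448⟩ ⟨479, 488, 481, 491⟩
        ⟨694, 736, 1440, 1476⟩ ⟨0, 0, 0, 0⟩)
       (.S 1 108
        (.L ⟨659, 122, false, true, 32027, 32559⟩ ⟨496, 53, false, false, 15278, 12277⟩
         ⟨320, 327, 395, 401⟩ ⟨258, 271, 432, 445⟩ ⟨480, 488, 482, 490⟩
         ⟨695, 731, 1447, 1480⟩ ⟨0, 0, 0, 0⟩)
        (.D ⟨650, 121, false, true, 32079, 32324⟩ ⟨491, 51, false, false, 14803, 11739⟩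
         ⟨318, 326, 395, 401⟩ ⟨255, 269, 433, 446⟩ ⟨479, 488, 481, 490⟩)))
      (.S 0 841
       (.S 4 944
        (.L ⟨653, 120, false, true, 32160, 32260⟩ ⟨488, 48, false, false, 13959, 11037⟩
         ⟨318, 327, 396, 402⟩ ⟨253, 265, 436, 449⟩ ⟨478, 487, 480, 489⟩
         ⟨694, 736, 1440, 1476⟩ ⟨0, 0, 0, 0⟩)
        (.L ⟨653, 120, false, true, 32160, 32260⟩ ⟨480, 46, false, false, 13445, 10523⟩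
         ⟨318, 327, 396, 402⟩ ⟨250, 262, 437, 450⟩ ⟨478, 486, 479, 488⟩
         ⟨694, 736, 1440, 1476⟩ ⟨0, 0, 0, 0⟩))
       (.S 2 567
        (.S 1 108
         (.S 4 944
          (.L ⟨672, 124, false, true, 32056, 32559⟩ ⟨488, 51, false, false, 14205, 11794⟩
           ⟨322, 327, 395, 401⟩ ⟨255, 264, 434, 446⟩ ⟨479, 487, 481, 487⟩
           ⟨695, 722, 1453, 1480⟩ ⟨0, 0, 0, 0⟩)
          (.L ⟨672, 124, false, true, 32056, 32559⟩ ⟨480, 49, false, false, 13688, 11291⟩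
           ⟨322, 327, 395, 401⟩ ⟨251, 261, 435, 447⟩ ⟨479, 486, 480, 486⟩
           ⟨695, 722, 1453, 1480⟩ ⟨0, 0, 0, 0⟩))
         (.D ⟨663, 123, false, true, 31968, 32324⟩ ⟨475, 47, false, false, 13704, 10728⟩
          ⟨321, 326, 395, 401⟩ ⟨249, 262, 435, 449⟩ ⟨478, 486, 479, 487⟩))
        (.S 1 108
         (.L ⟨659, 122, false, true, 32027, 32148⟩ ⟨480, 49, false, false, 14205, 11291⟩
          ⟨320, 325, 395, 401⟩ ⟨251, 264, 434, 447⟩ ⟨479, 487, 480, 488⟩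
          ⟨704, 731, 1447, 1475⟩ ⟨0, 0, 0, 0⟩)
         (.L ⟨650, 121, false, true, 32079, 31904⟩ ⟨475, 47, false, false, 13704, 10728⟩
          ⟨318, 324, 395, 401⟩ ⟨249, 262, 435, 449⟩ ⟨479, 487, 480, 488⟩
          ⟨710, 738, 1444, 1472⟩ ⟨0, 0, 0, 0⟩)))))))
   (.D ⟨646, 114, false, true, 31930, 30704⟩ ⟨464, 42, false, false, 14292, 8397⟩
    ⟨315, 324, 394, 405⟩ ⟨243, 270, 434, 460⟩ ⟨474, 489, 477, 492⟩))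
  (by decide +kernel)

theorem qAA0_2 : Cl ⟨1, false, false, false⟩ ⟨2, false, false, true⟩
    ⟨808, 850, 105, 149⟩ ⟨556, 579, 710, 745⟩ ⟨605, 647, 291, 329⟩ := .mk
  (.S 1 127
   (.L ⟨669, 112, false, true, 31993, 30100⟩ ⟨779, 38, false, false, 11076, 7728⟩
    ⟨317, 326, 394, 408⟩ ⟨309, 321, 464, 476⟩ ⟨472, 484, 502, 514⟩
    ⟨684, 740, 1413, 1478⟩ ⟨581, 637, 1117, 1168⟩)
   (.D ⟨642, 114, false, true, 31930, 29665⟩ ⟨771, 36, false, false, 10551, 7138⟩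
    ⟨314, 324, 394, 408⟩ ⟨307, 319, 466, 477⟩ ⟨471, 483, 502, 514⟩))
  (by decide +kernel)

theorem qAA0_3 : Cl ⟨1, false, false, false⟩ ⟨0, false, true, true⟩
    ⟨816, 850, 109, 149⟩ ⟨556, 579, 710, 745⟩ ⟨761, 870, 218, 327⟩ := .mk
  (.L ⟨652, 111, false, true, 31930, 30316⟩ ⟨602, 21, false, false, 8545, 1581⟩
   ⟨314, 326, 394, 407⟩ ⟨275, 301, 468, 494⟩ ⟨460, 480, 489, 509⟩
   ⟨688, 752, 1412, 1477⟩ ⟨0, 0, 0, 0⟩)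
  (by decide +kernel)

theorem qAA0_4 : Cl ⟨1, false, false, false⟩ ⟨0, false, true, true⟩
    ⟨819, 850, 102, 149⟩ ⟨556, 579, 710, 745⟩ ⟨771, 876, 304, 435⟩ := .mk
  (.S 4 823
   (.S 5 369
    (.L ⟨651, 112, false, true, 31930, 30564⟩ ⟨617, 30, false, false, 10143, 5025⟩
     ⟨314, 327, 394, 407⟩ ⟨280, 298, 462, 481⟩ ⟨466, 481, 490, 506⟩
     ⟨686, 752, 1413, 1478⟩ ⟨0, 0, 0, 0⟩)
    (.S 1 125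
     (.L ⟨667, 114, false, true, 31877, 30564⟩ ⟨601, 42, false, false, 12600, 7963⟩
      ⟨317, 327, 394, 407⟩ ⟨279, 296, 452, 470⟩ ⟨471, 485, 489, 503⟩
      ⟨686, 739, 1419, 1478⟩ ⟨0, 0, 0, 0⟩)
     (.D ⟨651, 112, false, true, 31930, 30122⟩ ⟨592, 39, false, false, 11904, 7162⟩
      ⟨314, 324, 394, 406⟩ ⟨277, 294, 454, 472⟩ ⟨470, 484, 490, 503⟩)))
   (.S 4 849
    (.L ⟨651, 112, false, true, 31930, 30564⟩ ⟨577, 36, false, false, 11555, 4608⟩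
     ⟨314, 327, 394, 407⟩ ⟨273, 291, 454, 482⟩ ⟨465, 484, 487, 503⟩
     ⟨686, 752, 1413, 1478⟩ ⟨0, 0, 0, 0⟩)
    (.L ⟨651, 112, false, true, 31930, 30564⟩ ⟨562, 34, false, false, 11033, 4176⟩
     ⟨314, 327, 394, 407⟩ ⟨268, 288, 454, 484⟩ ⟨464, 483, 485, 502⟩
     ⟨686, 752, 1413, 1478⟩ ⟨0, 0, 0, 0⟩)))
  (by decide +kernel)

theorem qAA0_5 : Cl ⟨1, false, false, false⟩ ⟨0, false, false, false⟩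
    ⟨812, 850, 119, 149⟩ ⟨556, 579, 710, 745⟩ ⟨728, 756, 126, 152⟩ := .mk
  (.L ⟨653, 111, false, true, 31930, 29972⟩ ⟨728, 4, false, false, 2186, 236⟩
   ⟨314, 325, 394, 407⟩ ⟨298, 308, 492, 501⟩ ⟨459, 471, 502, 513⟩
   ⟨692, 752, 1410, 1475⟩ ⟨0, 0, 0, 0⟩)
  (by decide +kernel)

theorem qAA0_6 : Cl ⟨1, false, false, false⟩ ⟨0, false, true, true⟩
    ⟨816, 850, 119, 149⟩ ⟨556, 579, 710, 745⟩ ⟨816, 868, 119, 196⟩ := .mk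
  (.L ⟨652, 111, false, true, 31930, 30123⟩ ⟨638, 0, true, false, 2887, 1450⟩
   ⟨314, 325, 394, 407⟩ ⟨281, 297, 489, 506⟩ ⟨454, 470, 493, 509⟩
   ⟨693, 752, 1412, 1475⟩ ⟨0, 0, 0, 0⟩)
  (by decide +kernel)

theorem qAA0_7 : Cl ⟨1, false, false, false⟩ ⟨0, false, true, true⟩
    ⟨816, 850, 109, 149⟩ ⟨556, 579, 710, 745⟩ ⟨795, 865, 177, 255⟩ := .mk
  (.L ⟨652, 111, false, true, 31930, 30316⟩ ⟨626, 12, false, false, 5482, 375⟩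
   ⟨314, 326, 394, 407⟩ ⟨279, 298, 479, 499⟩ ⟨458, 475, 491, 508⟩
   ⟨688, 752, 1412, 1477⟩ ⟨0, 0, 0, 0⟩)
  (by decide +kernel)

theorem qAA0_8 : Cl ⟨1, false, false, false⟩ ⟨0, false, false, false⟩
    ⟨814, 850, 124, 149⟩ ⟨556, 579, 710, 745⟩ ⟨812, 833, 57, 77⟩ := .mk
  (.L ⟨652, 111, false, true, 31930, 29952⟩ ⟨685, 8, true, false, 1286, 3147⟩
   ⟨314, 324, 394, 407⟩ ⟨290, 299, 504, 512⟩ ⟨452, 463, 500, 511⟩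
   ⟨695, 752, 1411, 1474⟩ ⟨0, 0, 0, 0⟩)
  (by decide +kernel)

theorem qAA0_9 : Cl ⟨1, false, false, false⟩ ⟨0, false, false, false⟩
    ⟨814, 850, 124, 149⟩ ⟨556, 579, 710, 745⟩ ⟨854, 892, 65, 122⟩ := .mk
  (.L ⟨652, 111, false, true, 31930, 29952⟩ ⟨639, 4, true, false, 0, 3309⟩
   ⟨314, 324, 394, 407⟩ ⟨281, 294, 500, 513⟩ ⟨451, 465, 495, 508⟩
   ⟨695, 752, 1411, 1474⟩ ⟨0, 0, 0, 0⟩)
  (by decide +kernel)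

theorem qAA0_10 : Cl ⟨1, false, false, false⟩ ⟨0, false, false, false⟩
    ⟨816, 850, 119, 149⟩ ⟨556, 579, 710, 745⟩ ⟨835, 885, 103, 149⟩ := .mk
  (.L ⟨652, 111, false, true, 31930, 30123⟩ ⟨638, 1, true, false, 1118, 2089⟩
   ⟨314, 325, 394, 407⟩ ⟨281, 295, 495, 508⟩ ⟨453, 467, 494, 508⟩
   ⟨693, 752, 1412, 1475⟩ ⟨0, 0, 0, 0⟩)
  (by decide +kernel)

theorem qAA0_11 : Cl ⟨1, false, false, false⟩ ⟨0, false, false, false⟩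
    ⟨817, 850, 129, 149⟩ ⟨556, 579, 710, 745⟩ ⟨859, 886, 25, 50⟩ := .mk
  (.L ⟨651, 112, false, true, 31930, 29971⟩ ⟨653, 13, true, false, 2643, 4466⟩
   ⟨314, 324, 394, 407⟩ ⟨285, 294, 510, 517⟩ ⟨449, 459, 498, 509⟩
   ⟨698, 752, 1412, 1473⟩ ⟨0, 0, 0, 0⟩)
  (by decide +kernel)

theorem qAA0_12 : Cl ⟨1, false, false, false⟩ ⟨0, false, false, false⟩
    ⟨817, 850, 129, 149⟩ ⟨556, 579, 710, 745⟩ ⟨877, 920, 36, 83⟩ := .mk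
  (.L ⟨651, 112, false, true, 31930, 29971⟩ ⟨628, 10, true, false, 1698, 4338⟩
   ⟨314, 324, 394, 407⟩ ⟨280, 292, 506, 517⟩ ⟨448, 461, 495, 508⟩
   ⟨698, 752, 1412, 1473⟩ ⟨0, 0, 0, 0⟩)
  (by decide +kernel)

theorem qAA0_13 : Cl ⟨1, false, false, false⟩ ⟨0, false, false, false⟩
    ⟨814, 850, 124, 149⟩ ⟨556, 579, 710, 745⟩ ⟨861, 913, 53, 102⟩ := .mk
  (.L ⟨652, 111, false, true, 31930, 29952⟩ ⟨629, 8, true, false, 803, 3812⟩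
   ⟨314, 324, 394, 407⟩ ⟨280, 294, 503, 515⟩ ⟨449, 463, 495, 509⟩
   ⟨695, 752, 1411, 1474⟩ ⟨0, 0, 0, 0⟩)
  (by decide +kernel)

theorem qAA0_14 : Cl ⟨1, false, false, false⟩ ⟨0, false, false, false⟩
    ⟨817, 850, 129, 149⟩ ⟨556, 579, 710, 745⟩ ⟨893, 917, 13, 36⟩ := .mk
  (.L ⟨651, 112, false, true, 31930, 29971⟩ ⟨636, 16, true, false, 3284, 4999⟩
   ⟨314, 324, 394, 407⟩ ⟨282, 291, 512, 520⟩ ⟨447, 458, 497, 508⟩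
   ⟨698, 752, 1412, 1473⟩ ⟨0, 0, 0, 0⟩)
  (by decide +kernel)

theorem qAA0_15 : Cl ⟨1, false, false, false⟩ ⟨0, false, false, false⟩
    ⟨817, 850, 129, 149⟩ ⟨556, 579, 710, 745⟩ ⟨903, 940, 16, 55⟩ := .mk
  (.L ⟨651, 112, false, true, 31930, 29971⟩ ⟨621, 14, true, false, 2749, 5035⟩
   ⟨314, 324, 394, 407⟩ ⟨278, 290, 510, 520⟩ ⟨446, 459, 494, 507⟩
   ⟨698, 752, 1412, 1473⟩ ⟨0, 0, 0, 0⟩)
  (by decide +kernel)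

theorem qAA0_16 : Cl ⟨1, false, false, false⟩ ⟨0, false, false, false⟩
    ⟨817, 850, 129, 149⟩ ⟨556, 579, 710, 745⟩ ⟨891, 930, 25, 64⟩ := .mk
  (.L ⟨651, 112, false, true, 31930, 29971⟩ ⟨625, 13, true, false, 2393, 4719⟩
   ⟨314, 324, 394, 407⟩ ⟨279, 291, 509, 519⟩ ⟨447, 459, 495, 508⟩
   ⟨698, 752, 1412, 1473⟩ ⟨0, 0, 0, 0⟩)
  (by decide +kernel)

theorem qAA0_17 : Cl ⟨1, false, false, false⟩ ⟨0, false, false, false⟩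
    ⟨820, 850, 134, 149⟩ ⟨556, 579, 710, 745⟩ ⟨916, 1001, 0, 27⟩ := .mk
  (.L ⟨650, 112, false, true, 31930, 29994⟩ ⟨591, 19, true, false, 3861, 5633⟩
   ⟨314, 323, 394, 406⟩ ⟨272, 288, 515, 524⟩ ⟨443, 456, 492, 507⟩
   ⟨701, 752, 1414, 1472⟩ ⟨0, 0, 0, 0⟩)
  (by decide +kernel)

theorem qAA0_18 : Cl ⟨1, false, false, false⟩ ⟨0, false, false, false⟩
    ⟨820, 850, 134, 149⟩ ⟨556, 579, 710, 745⟩ ⟨920, 1001, 0, 42⟩ := .mk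
  (.L ⟨650, 112, false, true, 31930, 29994⟩ ⟨590, 17, true, false, 3425, 5633⟩
   ⟨314, 323, 394, 406⟩ ⟨272, 288, 513, 524⟩ ⟨443, 457, 491, 507⟩
   ⟨701, 752, 1414, 1472⟩ ⟨0, 0, 0, 0⟩)
  (by decide +kernel)

theorem qAA0_19 : Cl ⟨1, false, false, false⟩ ⟨0, false, false, false⟩
    ⟨820, 850, 134, 149⟩ ⟨556, 579, 710, 745⟩ ⟨908, 1001, 0, 50⟩ := .mk
  (.L ⟨650, 112, false, true, 31930, 29994⟩ ⟨589, 16, true, false, 3108, 5633⟩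
   ⟨314, 323, 394, 406⟩ ⟨271, 289, 512, 524⟩ ⟨443, 457, 491, 507⟩
   ⟨701, 752, 1414, 1472⟩ ⟨0, 0, 0, 0⟩)
  (by decide +kernel)

theorem qAA0_20 : Cl ⟨0, false, true, false⟩ ⟨0, false, true, false⟩
    ⟨820, 874, 96, 174⟩ ⟨736, 958, 360, 539⟩ ⟨736, 958, 360, 539⟩ := .mk
  (.S 2 847
   (.L ⟨512, 50, false, false, 18268, 5585⟩ ⟨460, 37, false, false, 18268, 3446⟩
    ⟨261, 301, 431, 478⟩ ⟨240, 301, 431, 485⟩ ⟨476, 521, 473, 520⟩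
    ⟨0, 0, 0, 0⟩ ⟨0, 0, 0, 0⟩)
   (.L ⟨460, 37, false, false, 15444, 3446⟩ ⟨460, 37, false, false, 18268, 3446⟩
    ⟨240, 286, 434, 485⟩ ⟨240, 301, 431, 485⟩ ⟨478, 524, 479, 528⟩
    ⟨0, 0, 0, 0⟩ ⟨0, 0, 0, 0⟩))
  (by decide +kernel)

theorem qAA0_21 : Cl ⟨0, false, true, false⟩ ⟨0, false, true, false⟩
    ⟨833, 874, 96, 160⟩ ⟨736, 958, 360, 539⟩ ⟨886, 964, 503, 582⟩ := .mk
  (.L ⟨466, 39, false, false, 18268, 4230⟩ ⟨447, 43, false, false, 15910, 7956⟩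
   ⟨243, 300, 431, 482⟩ ⟨238, 273, 428, 462⟩ ⟨486, 522, 473, 513⟩
   ⟨0, 0, 0, 0⟩ ⟨0, 0, 0, 0⟩)
  (by decide +kernel)

theorem qAA0_22 : Cl ⟨0, false, true, false⟩ ⟨2, false, false, true⟩
    ⟨820, 853, 105, 174⟩ ⟨736, 958, 360, 539⟩ ⟨605, 647, 291, 329⟩ := .mk
  (.S 2 847
   (.S 2 791
    (.S 3 449
     (.L ⟨595, 41, false, false, 13829, 6679⟩ ⟨760, 34, false, false, 11120, 6665⟩
      ⟨278, 301, 449, 475⟩ ⟨305, 320, 464, 478⟩ ⟨489, 510, 500, 520⟩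
      ⟨0, 0, 0, 0⟩ ⟨585, 650, 1101, 1169⟩)
     (.S 1 139
      (.L ⟨571, 58, false, false, 17476, 10889⟩ ⟨773, 37, false, false, 11120, 7583⟩
       ⟨278, 298, 434, 458⟩ ⟨308, 320, 464, 476⟩ ⟨486, 503, 504, 520⟩
       ⟨0, 0, 0, 0⟩ ⟨585, 641, 1115, 1169⟩)
      (.L ⟨554, 54, false, false, 16508, 9764⟩ ⟨760, 34, false, false, 10315, 6665⟩
       ⟨273, 294, 436, 461⟩ ⟨305, 318, 466, 478⟩ ⟨485, 504, 504, 522⟩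
       ⟨0, 0, 0, 0⟩ ⟨592, 650, 1101, 1157⟩)))
    (.S 3 449
     (.L ⟨561, 35, false, false, 12681, 5585⟩ ⟨760, 34, false, false, 11120, 6665⟩
      ⟨269, 293, 450, 478⟩ ⟨305, 320, 464, 478⟩ ⟨490, 512, 503, 523⟩
      ⟨0, 0, 0, 0⟩ ⟨585, 650, 1101, 1169⟩)
     (.S 1 139
      (.L ⟨538, 52, false, false, 16053, 9637⟩ ⟨773, 37, false, false, 11120, 7583⟩
       ⟨268, 290, 436, 461⟩ ⟨308, 320, 464, 476⟩ ⟨487, 505, 507, 524⟩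
       ⟨0, 0, 0, 0⟩ ⟨585, 641, 1115, 1169⟩)
      (.L ⟨522, 47, false, false, 14993, 8421⟩ ⟨760, 34, false, false, 10315, 6665⟩
       ⟨263, 286, 438, 465⟩ ⟨305, 318, 466, 478⟩ ⟨487, 506, 507, 525⟩
       ⟨0, 0, 0, 0⟩ ⟨592, 650, 1101, 1157⟩))))
   (.S 2 902
    (.S 1 139
     (.L ⟨510, 46, false, false, 14603, 5796⟩ ⟨773, 37, false, false, 11120, 7583⟩
      ⟨259, 285, 438, 476⟩ ⟨308, 320, 464, 476⟩ ⟨488, 511, 507, 527⟩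
      ⟨0, 0, 0, 0⟩ ⟨585, 641, 1115, 1169⟩)
     (.S 3 449
      (.L ⟨532, 30, false, false, 10374, 4517⟩ ⟨760, 34, false, false, 10315, 6665⟩
       ⟨260, 282, 456, 481⟩ ⟨305, 318, 466, 478⟩ ⟨493, 512, 507, 525⟩
       ⟨0, 0, 0, 0⟩ ⟨592, 650, 1101, 1157⟩)
      (.L ⟨495, 41, false, false, 13449, 7115⟩ ⟨760, 34, false, false, 10315, 6665⟩
       ⟨253, 278, 441, 469⟩ ⟨305, 318, 466, 478⟩ ⟨488, 507, 510, 528⟩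
       ⟨0, 0, 0, 0⟩ ⟨592, 650, 1101, 1157⟩)))
    (.S 3 449
     (.S 1 139
      (.L ⟨518, 30, false, false, 10365, 4805⟩ ⟨773, 37, false, false, 11120, 7583⟩
       ⟨256, 278, 455, 480⟩ ⟨308, 320, 464, 476⟩ ⟨495, 513, 510, 527⟩
       ⟨0, 0, 0, 0⟩ ⟨585, 641, 1115, 1169⟩)
      (.L ⟨506, 25, false, false, 9147, 3446⟩ ⟨760, 34, false, false, 10315, 6665⟩
       ⟨251, 275, 459, 485⟩ ⟨305, 318, 466, 478⟩ ⟨495, 514, 510, 529⟩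
       ⟨0, 0, 0, 0⟩ ⟨592, 650, 1101, 1157⟩))
     (.S 1 139
      (.L ⟨486, 40, false, false, 13191, 7199⟩ ⟨773, 37, false, false, 11120, 7583⟩
       ⟨249, 274, 440, 468⟩ ⟨308, 320, 464, 476⟩ ⟨490, 508, 512, 530⟩
       ⟨0, 0, 0, 0⟩ ⟨585, 641, 1115, 1169⟩)
      (.L ⟨472, 35, false, false, 11945, 5808⟩ ⟨760, 34, false, false, 10315, 6665⟩
       ⟨243, 270, 444, 473⟩ ⟨305, 318, 466, 478⟩ ⟨490, 509, 513, 532⟩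
       ⟨0, 0, 0, 0⟩ ⟨592, 650, 1101, 1157⟩)))))
  (by decide +kernel)

theorem qAA0_23 : Cl ⟨0, false, true, false⟩ ⟨0, false, true, true⟩
    ⟨820, 868, 109, 174⟩ ⟨736, 958, 360, 539⟩ ⟨761, 870, 218, 327⟩ := .mk
  (.S 2 847
   (.S 4 815
    (.S 0 844
     (.S 2 791
      (.L ⟨559, 53, false, false, 17127, 6679⟩ ⟨631, 21, false, false, 8453, 1509⟩
       ⟨274, 300, 435, 475⟩ ⟨281, 301, 469, 495⟩ ⟨474, 506, 491, 517⟩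
       ⟨0, 0, 0, 0⟩ ⟨0, 0, 0, 0⟩)
      (.L ⟨527, 46, false, false, 15693, 5585⟩ ⟨631, 21, false, false, 8453, 1509⟩
       ⟨263, 293, 437, 478⟩ ⟨281, 301, 469, 495⟩ ⟨475, 507, 494, 521⟩
       ⟨0, 0, 0, 0⟩ ⟨0, 0, 0, 0⟩))
     (.S 2 791
      (.L ⟨547, 56, false, false, 17751, 7148⟩ ⟨617, 23, false, false, 8822, 1834⟩
       ⟨272, 298, 432, 472⟩ ⟨279, 298, 467, 493⟩ ⟨474, 505, 491, 516⟩
       ⟨0, 0, 0, 0⟩ ⟨0, 0, 0, 0⟩)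
      (.L ⟨515, 49, false, false, 16319, 6053⟩ ⟨617, 23, false, false, 8822, 1834⟩
       ⟨261, 290, 434, 475⟩ ⟨279, 298, 467, 493⟩ ⟨475, 507, 494, 520⟩
       ⟨0, 0, 0, 0⟩ ⟨0, 0, 0, 0⟩)))
    (.S 0 844
     (.L ⟨527, 46, false, false, 17127, 5585⟩ ⟨598, 17, false, false, 7620, 765⟩
      ⟨263, 300, 435, 478⟩ ⟨274, 294, 470, 498⟩ ⟨472, 506, 488, 518⟩
      ⟨0, 0, 0, 0⟩ ⟨0, 0, 0, 0⟩)
     (.L ⟨515, 49, false, false, 17751, 6053⟩ ⟨583, 19, false, false, 7990, 1089⟩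
      ⟨261, 298, 432, 475⟩ ⟨271, 291, 468, 496⟩ ⟨472, 505, 488, 517⟩
      ⟨0, 0, 0, 0⟩ ⟨0, 0, 0, 0⟩)))
   (.S 0 844
    (.S 2 902
     (.L ⟨500, 40, false, false, 14233, 4517⟩ ⟨598, 17, false, false, 8453, 765⟩
      ⟨254, 285, 439, 481⟩ ⟨274, 301, 469, 498⟩ ⟨475, 509, 494, 524⟩
      ⟨0, 0, 0, 0⟩ ⟨0, 0, 0, 0⟩)
     (.S 3 449
      (.L ⟨511, 24, false, false, 10034, 3446⟩ ⟨598, 17, false, false, 8453, 765⟩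
       ⟨252, 278, 456, 485⟩ ⟨274, 301, 469, 498⟩ ⟨481, 511, 497, 525⟩
       ⟨0, 0, 0, 0⟩ ⟨0, 0, 0, 0⟩)
      (.L ⟨477, 34, false, false, 12813, 5808⟩ ⟨598, 17, false, false, 8453, 765⟩
       ⟨244, 273, 442, 473⟩ ⟨274, 301, 469, 498⟩ ⟨476, 506, 500, 528⟩
       ⟨0, 0, 0, 0⟩ ⟨0, 0, 0, 0⟩)))
    (.S 4 815
     (.S 2 902
      (.L ⟨487, 43, false, false, 14858, 4982⟩ ⟨617, 23, false, false, 8822, 1834⟩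
       ⟨251, 282, 436, 479⟩ ⟨279, 298, 467, 493⟩ ⟨477, 508, 497, 523⟩
       ⟨0, 0, 0, 0⟩ ⟨0, 0, 0, 0⟩)
      (.L ⟨464, 37, false, false, 13430, 3903⟩ ⟨617, 23, false, false, 8822, 1834⟩
       ⟨241, 275, 438, 483⟩ ⟨279, 298, 467, 493⟩ ⟨478, 510, 500, 527⟩
       ⟨0, 0, 0, 0⟩ ⟨0, 0, 0, 0⟩))
     (.L ⟨464, 37, false, false, 14858, 3903⟩ ⟨583, 19, false, false, 7990, 1089⟩
      ⟨241, 282, 436, 483⟩ ⟨271, 291, 468, 496⟩ ⟨475, 509, 494, 525⟩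
      ⟨0, 0, 0, 0⟩ ⟨0, 0, 0, 0⟩))))
  (by decide +kernel)

theorem qAA0_25 : Cl ⟨0, false, true, false⟩ ⟨0, false, false, false⟩
    ⟨820, 859, 119, 174⟩ ⟨736, 958, 360, 539⟩ ⟨728, 756, 126, 152⟩ := .mk
  (.L ⟨469, 36, false, false, 17234, 3446⟩ ⟨717, 0, true, false, 2267, 925⟩
   ⟨242, 299, 434, 485⟩ ⟨296, 307, 492, 504⟩ ⟨471, 502, 499, 533⟩
   ⟨0, 0, 0, 0⟩ ⟨0, 0, 0, 0⟩)
  (by decide +kernel)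

theorem qAA0_26 : Cl ⟨0, false, true, false⟩ ⟨0, false, true, true⟩
    ⟨820, 868, 119, 174⟩ ⟨736, 958, 360, 539⟩ ⟨816, 868, 119, 196⟩ := .mk
  (.S 2 847
   (.L ⟨515, 49, false, false, 17472, 5585⟩ ⟨621, 0, true, false, 3080, 2277⟩
    ⟨261, 299, 433, 478⟩ ⟨278, 296, 488, 509⟩ ⟨466, 499, 491, 521⟩
    ⟨0, 0, 0, 0⟩ ⟨0, 0, 0, 0⟩)
   (.L ⟨464, 37, false, false, 14525, 3446⟩ ⟨621, 0, true, false, 3080, 2277⟩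
    ⟨241, 284, 437, 485⟩ ⟨278, 296, 488, 509⟩ ⟨469, 502, 497, 529⟩
    ⟨0, 0, 0, 0⟩ ⟨0, 0, 0, 0⟩))
  (by decide +kernel)

theorem qAA0_27 : Cl ⟨0, false, true, false⟩ ⟨0, false, true, true⟩
    ⟨820, 868, 109, 174⟩ ⟨736, 958, 360, 539⟩ ⟨795, 865, 177, 255⟩ := .mk
  (.S 2 847
   (.L ⟨515, 49, false, false, 17751, 5585⟩ ⟨608, 10, false, false, 5707, 441⟩
    ⟨261, 300, 432, 478⟩ ⟨275, 298, 478, 502⟩ ⟨469, 503, 489, 521⟩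
    ⟨0, 0, 0, 0⟩ ⟨0, 0, 0, 0⟩)
   (.S 0 844
    (.L ⟨477, 34, false, false, 14233, 3446⟩ ⟨623, 0, true, false, 5407, 441⟩
     ⟨244, 285, 439, 485⟩ ⟨278, 298, 479, 502⟩ ⟨473, 506, 496, 527⟩
     ⟨0, 0, 0, 0⟩ ⟨0, 0, 0, 0⟩)
    (.L ⟨464, 37, false, false, 14858, 3903⟩ ⟨608, 10, false, false, 5707, 153⟩
     ⟨241, 282, 436, 483⟩ ⟨275, 295, 478, 501⟩ ⟨472, 505, 496, 527⟩
     ⟨0, 0, 0, 0⟩ ⟨0, 0, 0, 0⟩)))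
  (by decide +kernel)

theorem qAA0_28 : Cl ⟨0, false, true, false⟩ ⟨0, false, false, false⟩
    ⟨820, 869, 124, 174⟩ ⟨736, 958, 360, 539⟩ ⟨812, 833, 57, 77⟩ := .mk
  (.L ⟨463, 37, false, false, 17359, 3446⟩ ⟨668, 11, true, false, 1160, 3938⟩
   ⟨241, 299, 433, 485⟩ ⟨288, 299, 504, 515⟩ ⟨464, 495, 497, 532⟩
   ⟨0, 0, 0, 0⟩ ⟨0, 0, 0, 0⟩)
  (by decide +kernel)

theorem qAA0_29 : Cl ⟨0, false, true, false⟩ ⟨0, false, false, false⟩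
    ⟨820, 869, 124, 174⟩ ⟨736, 958, 360, 539⟩ ⟨854, 892, 65, 122⟩ := .mk
  (.L ⟨463, 37, false, false, 17359, 3446⟩ ⟨622, 7, true, false, 207, 4151⟩
   ⟨241, 299, 433, 485⟩ ⟨278, 293, 499, 516⟩ ⟨462, 497, 491, 529⟩
   ⟨0, 0, 0, 0⟩ ⟨0, 0, 0, 0⟩)
  (by decide +kernel)

theorem qAA0_30 : Cl ⟨0, false, true, false⟩ ⟨0, false, false, false⟩
    ⟨820, 868, 119, 174⟩ ⟨736, 958, 360, 539⟩ ⟨835, 885, 103, 149⟩ := .mk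
  (.L ⟨464, 37, false, false, 17472, 3446⟩ ⟨621, 3, true, false, 1280, 2933⟩
   ⟨241, 299, 433, 485⟩ ⟨278, 295, 495, 512⟩ ⟨465, 499, 491, 529⟩
   ⟨0, 0, 0, 0⟩ ⟨0, 0, 0, 0⟩)
  (by decide +kernel)

theorem qAA0_31 : Cl ⟨0, false, true, false⟩ ⟨0, false, false, false⟩
    ⟨820, 870, 129, 174⟩ ⟨736, 958, 360, 539⟩ ⟨859, 886, 25, 50⟩ := .mk
  (.L ⟨463, 37, false, false, 17248, 3446⟩ ⟨637, 16, true, false, 2524, 5329⟩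
   ⟨240, 299, 433, 485⟩ ⟨282, 294, 509, 521⟩ ⟨460, 492, 494, 531⟩
   ⟨0, 0, 0, 0⟩ ⟨0, 0, 0, 0⟩)
  (by decide +kernel)

theorem qAA0_32 : Cl ⟨0, false, true, false⟩ ⟨0, false, false, false⟩
    ⟨820, 870, 129, 174⟩ ⟨736, 958, 360, 539⟩ ⟨877, 920, 36, 83⟩ := .mk
  (.L ⟨463, 37, false, false, 17248, 3446⟩ ⟨611, 13, true, false, 1556, 5229⟩
   ⟨240, 299, 433, 485⟩ ⟨276, 292, 506, 521⟩ ⟨459, 493, 491, 529⟩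
   ⟨0, 0, 0, 0⟩ ⟨0, 0, 0, 0⟩)
  (by decide +kernel)

theorem qAA0_33 : Cl ⟨0, false, true, false⟩ ⟨0, false, false, false⟩
    ⟨820, 869, 124, 174⟩ ⟨736, 958, 360, 539⟩ ⟨861, 913, 53, 102⟩ := .mk
  (.L ⟨463, 37, false, false, 17359, 3446⟩ ⟨613, 10, true, false, 660, 4674⟩
   ⟨241, 299, 433, 485⟩ ⟨276, 293, 502, 519⟩ ⟨460, 495, 490, 529⟩
   ⟨0, 0, 0, 0⟩ ⟨0, 0, 0, 0⟩)
  (by decide +kernel)

theorem qAA0_34 : Cl ⟨0, false, true, false⟩ ⟨0, false, false, false⟩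
    ⟨820, 870, 129, 174⟩ ⟨736, 958, 360, 539⟩ ⟨893, 917, 13, 36⟩ := .mk
  (.L ⟨463, 37, false, false, 17248, 3446⟩ ⟨620, 18, true, false, 3175, 5890⟩
   ⟨240, 299, 433, 485⟩ ⟨279, 291, 512, 523⟩ ⟨458, 490, 493, 529⟩
   ⟨0, 0, 0, 0⟩ ⟨0, 0, 0, 0⟩)
  (by decide +kernel)

theorem qAA0_35 : Cl ⟨0, false, true, false⟩ ⟨0, false, false, false⟩
    ⟨820, 870, 129, 174⟩ ⟨736, 958, 360, 539⟩ ⟨903, 940, 16, 55⟩ := .mk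
  (.L ⟨463, 37, false, false, 17248, 3446⟩ ⟨604, 17, true, false, 2627, 5946⟩
   ⟨240, 299, 433, 485⟩ ⟨275, 289, 510, 524⟩ ⟨457, 491, 491, 528⟩
   ⟨0, 0, 0, 0⟩ ⟨0, 0, 0, 0⟩)
  (by decide +kernel)

theorem qAA0_36 : Cl ⟨0, false, true, false⟩ ⟨0, false, false, false⟩
    ⟨820, 870, 129, 174⟩ ⟨736, 958, 360, 539⟩ ⟨891, 930, 25, 64⟩ := .mk
  (.L ⟨463, 37, false, false, 17248, 3446⟩ ⟨608, 15, true, false, 2265, 5620⟩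
   ⟨240, 299, 433, 485⟩ ⟨276, 290, 508, 522⟩ ⟨459, 492, 491, 529⟩
   ⟨0, 0, 0, 0⟩ ⟨0, 0, 0, 0⟩)
  (by decide +kernel)

theorem qAA0_37 : Cl ⟨0, false, true, false⟩ ⟨0, false, false, false⟩
    ⟨820, 874, 134, 174⟩ ⟨736, 958, 360, 539⟩ ⟨916, 1001, 0, 27⟩ := .mk
  (.L ⟨460, 37, false, false, 17219, 3446⟩ ⟨573, 22, true, false, 3733, 6449⟩
   ⟨240, 298, 433, 485⟩ ⟨268, 288, 515, 528⟩ ⟨455, 488, 487, 528⟩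
   ⟨0, 0, 0, 0⟩ ⟨0, 0, 0, 0⟩)
  (by decide +kernel)

/-- The pairs of the file. -/
def rAA0 : List Pq := [
  ⟨2, 0, ⟨820, 850, 96, 149⟩, ⟨556, 579, 710, 745⟩, ⟨736, 958, 360, 539⟩⟩,
  ⟨2, 1, ⟨833, 850, 95, 149⟩, ⟨556, 579, 710, 745⟩, ⟨886, 964, 503, 582⟩⟩,
  ⟨2, 5, ⟨808, 850, 105, 149⟩, ⟨556, 579, 710, 745⟩, ⟨605, 647, 291, 329⟩⟩,
  ⟨2, 3, ⟨816, 850, 109, 149⟩, ⟨556, 579, 710, 745⟩, ⟨761, 870, 218, 327⟩⟩,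
  ⟨2, 4, ⟨819, 850, 102, 149⟩, ⟨556, 579, 710, 745⟩, ⟨771, 876, 304, 435⟩⟩,
  ⟨2, 8, ⟨812, 850, 119, 149⟩, ⟨556, 579, 710, 745⟩, ⟨728, 756, 126, 152⟩⟩,
  ⟨2, 6, ⟨816, 850, 119, 149⟩, ⟨556, 579, 710, 745⟩, ⟨816, 868, 119, 196⟩⟩,
  ⟨2, 7, ⟨816, 850, 109, 149⟩, ⟨556, 579, 710, 745⟩, ⟨795, 865, 177, 255⟩⟩,
  ⟨2, 11, ⟨814, 850, 124, 149⟩, ⟨556, 579, 710, 745⟩, ⟨812, 833, 57, 77⟩⟩,
  ⟨2, 9, ⟨814, 850, 124, 149⟩, ⟨556, 579, 710, 745⟩, ⟨854, 892, 65, 122⟩⟩,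
  ⟨2, 10, ⟨816, 850, 119, 149⟩, ⟨556, 579, 710, 745⟩, ⟨835, 885, 103, 149⟩⟩,
  ⟨2, 14, ⟨817, 850, 129, 149⟩, ⟨556, 579, 710, 745⟩, ⟨859, 886, 25, 50⟩⟩,
  ⟨2, 12, ⟨817, 850, 129, 149⟩, ⟨556, 579, 710, 745⟩, ⟨877, 920, 36, 83⟩⟩,
  ⟨2, 13, ⟨814, 850, 124, 149⟩, ⟨556, 579, 710, 745⟩, ⟨861, 913, 53, 102⟩⟩,
  ⟨2, 17, ⟨817, 850, 129, 149⟩, ⟨556, 579, 710, 745⟩, ⟨893, 917, 13, 36⟩⟩,
  ⟨2, 15, ⟨817, 850, 129, 149⟩, ⟨556, 579, 710, 745⟩, ⟨903, 940, 16, 55⟩⟩,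
  ⟨2, 16, ⟨817, 850, 129, 149⟩, ⟨556, 579, 710, 745⟩, ⟨891, 930, 25, 64⟩⟩,
  ⟨2, 20, ⟨820, 850, 134, 149⟩, ⟨556, 579, 710, 745⟩, ⟨916, 1001, 0, 27⟩⟩,
  ⟨2, 18, ⟨820, 850, 134, 149⟩, ⟨556, 579, 710, 745⟩, ⟨920, 1001, 0, 42⟩⟩,
  ⟨2, 19, ⟨820, 850, 134, 149⟩, ⟨556, 579, 710, 745⟩, ⟨908, 1001, 0, 50⟩⟩,
  ⟨0, 0, ⟨820, 874, 96, 174⟩, ⟨736, 958, 360, 539⟩, ⟨736, 958, 360, 539⟩⟩,
  ⟨0, 1, ⟨833, 874, 96, 160⟩, ⟨736, 958, 360, 539⟩, ⟨886, 964, 503, 582⟩⟩,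
  ⟨0, 5, ⟨820, 853, 105, 174⟩, ⟨736, 958, 360, 539⟩, ⟨605, 647, 291, 329⟩⟩,
  ⟨0, 3, ⟨820, 868, 109, 174⟩, ⟨736, 958, 360, 539⟩, ⟨761, 870, 218, 327⟩⟩,
  ⟨0, 8, ⟨820, 859, 119, 174⟩, ⟨736, 958, 360, 539⟩, ⟨728, 756, 126, 152⟩⟩,
  ⟨0, 6, ⟨820, 868, 119, 174⟩, ⟨736, 958, 360, 539⟩, ⟨816, 868, 119, 196⟩⟩,
  ⟨0, 7, ⟨820, 868, 109, 174⟩, ⟨736, 958, 360, 539⟩, ⟨795, 865, 177, 255⟩⟩,
  ⟨0, 11, ⟨820, 869, 124, 174⟩, ⟨736, 958, 360, 539⟩, ⟨812, 833, 57, 77⟩⟩,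
  ⟨0, 9, ⟨820, 869, 124, 174⟩, ⟨736, 958, 360, 539⟩, ⟨854, 892, 65, 122⟩⟩,
  ⟨0, 10, ⟨820, 868, 119, 174⟩, ⟨736, 958, 360, 539⟩, ⟨835, 885, 103, 149⟩⟩,
  ⟨0, 14, ⟨820, 870, 129, 174⟩, ⟨736, 958, 360, 539⟩, ⟨859, 886, 25, 50⟩⟩,
  ⟨0, 12, ⟨820, 870, 129, 174⟩, ⟨736, 958, 360, 539⟩, ⟨877, 920, 36, 83⟩⟩,
  ⟨0, 13, ⟨820, 869, 124, 174⟩, ⟨736, 958, 360, 539⟩, ⟨861, 913, 53, 102⟩⟩,
  ⟨0, 17, ⟨820, 870, 129, 174⟩, ⟨736, 958, 360, 539⟩, ⟨893, 917, 13, 36⟩⟩,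
  ⟨0, 15, ⟨820, 870, 129, 174⟩, ⟨736, 958, 360, 539⟩, ⟨903, 940, 16, 55⟩⟩,
  ⟨0, 16, ⟨820, 870, 129, 174⟩, ⟨736, 958, 360, 539⟩, ⟨891, 930, 25, 64⟩⟩,
  ⟨0, 20, ⟨820, 874, 134, 174⟩, ⟨736, 958, 360, 539⟩, ⟨916, 1001, 0, 27⟩⟩]

theorem rAA0_ok : ∀ p ∈ rAA0, Cr false false p :=
  List.forall_mem_cons.2 ⟨qAA0_0,
  List.forall_mem_cons.2 ⟨qAA0_1,
  List.forall_mem_cons.2 ⟨qAA0_2,
  List.forall_mem_cons.2 ⟨qAA0_3,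
  List.forall_mem_cons.2 ⟨qAA0_4,
  List.forall_mem_cons.2 ⟨qAA0_5,
  List.forall_mem_cons.2 ⟨qAA0_6,
  List.forall_mem_cons.2 ⟨qAA0_7,
  List.forall_mem_cons.2 ⟨qAA0_8,
  List.forall_mem_cons.2 ⟨qAA0_9,
  List.forall_mem_cons.2 ⟨qAA0_10,
  List.forall_mem_cons.2 ⟨qAA0_11,
  List.forall_mem_cons.2 ⟨qAA0_12,
  List.forall_mem_cons.2 ⟨qAA0_13,
  List.forall_mem_cons.2 ⟨qAA0_14,
  List.forall_mem_cons.2 ⟨qAA0_15,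
  List.forall_mem_cons.2 ⟨qAA0_16,
  List.forall_mem_cons.2 ⟨qAA0_17,
  List.forall_mem_cons.2 ⟨qAA0_18,
  List.forall_mem_cons.2 ⟨qAA0_19,
  List.forall_mem_cons.2 ⟨qAA0_20,
  List.forall_mem_cons.2 ⟨qAA0_21,
  List.forall_mem_cons.2 ⟨qAA0_22,
  List.forall_mem_cons.2 ⟨qAA0_23,
  List.forall_mem_cons.2 ⟨qAA0_25,
  List.forall_mem_cons.2 ⟨qAA0_26,
  List.forall_mem_cons.2 ⟨qAA0_27,
  List.forall_mem_cons.2 ⟨qAA0_28,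
  List.forall_mem_cons.2 ⟨qAA0_29,
  List.forall_mem_cons.2 ⟨qAA0_30,
  List.forall_mem_cons.2 ⟨qAA0_31,
  List.forall_mem_cons.2 ⟨qAA0_32,
  List.forall_mem_cons.2 ⟨qAA0_33,
  List.forall_mem_cons.2 ⟨qAA0_34,
  List.forall_mem_cons.2 ⟨qAA0_35,
  List.forall_mem_cons.2 ⟨qAA0_36,
  List.forall_mem_cons.2 ⟨qAA0_37,
  List.forall_mem_nil _⟩⟩⟩⟩⟩⟩⟩⟩⟩⟩⟩⟩⟩⟩⟩⟩⟩⟩⟩⟩⟩⟩⟩⟩⟩⟩⟩⟩⟩⟩⟩⟩⟩⟩⟩⟩⟩

end Pool.Agent.S5.Z4
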