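import Pool.Agent.S5.Z4.Tre

/-!
# Inner nodes with four half twists: certificates
-/

set_option autoImplicit false

namespace Pool.Agent.S5.Z4

theorem qAS7_470 : Cl ⟨0, false, false, false⟩ ⟨0, true, false, false⟩
    ⟨811, 868, 188, 212⟩ ⟨859, 886, 25, 50⟩ ⟨882, 927, 32, 77⟩ := .mk
  (.L ⟨632, 21, true, false, 4457, 6743⟩ ⟨621, 29, true, false, 7608, 9804⟩
   ⟨282, 295, 517, 526⟩ ⟨281, 296, 528, 539⟩ ⟨485, 501, 492, 512⟩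
   ⟨0, 0, 0, 0⟩ ⟨0, 0, 0, 0⟩)
  (by decide +kernel)

theorem qAS7_471 : Cl ⟨0, false, false, false⟩ ⟨0, true, false, false⟩
    ⟨816, 869, 188, 210⟩ ⟨859, 886, 25, 50⟩ ⟨900, 1001, 0, 29⟩ := .mk
  (.L ⟨632, 21, true, false, 4449, 6632⟩ ⟨577, 27, true, false, 6373, 8668⟩
   ⟨281, 294, 517, 525⟩ ⟨271, 292, 525, 537⟩ ⟨485, 502, 486, 510⟩
   ⟨0, 0, 0, 0⟩ ⟨0, 0, 0, 0⟩)
  (by decide +kernel)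

theorem qAS7_472 : Cl ⟨0, false, false, false⟩ ⟨0, true, false, false⟩
    ⟨816, 869, 188, 210⟩ ⟨859, 886, 25, 50⟩ ⟨908, 1001, 0, 50⟩ := .mk
  (.L ⟨632, 21, true, false, 4449, 6632⟩ ⟨577, 27, true, false, 6423, 9274⟩
   ⟨281, 294, 517, 525⟩ ⟨271, 292, 525, 539⟩ ⟨484, 502, 486, 510⟩
   ⟨0, 0, 0, 0⟩ ⟨0, 0, 0, 0⟩)
  (by decide +kernel)

theorem qAS7_473 : Cl ⟨0, false, false, false⟩ ⟨0, true, false, false⟩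
    ⟨816, 869, 188, 210⟩ ⟨859, 886, 25, 50⟩ ⟨895, 1001, 0, 61⟩ := .mk
  (.L ⟨632, 21, true, false, 4449, 6632⟩ ⟨577, 27, true, false, 6342, 9593⟩
   ⟨281, 294, 517, 525⟩ ⟨271, 294, 524, 541⟩ ⟨483, 503, 486, 512⟩
   ⟨0, 0, 0, 0⟩ ⟨0, 0, 0, 0⟩)
  (by decide +kernel)

theorem qAS7_474 : Cl ⟨0, false, false, false⟩ ⟨0, true, true, false⟩
    ⟨802, 861, 188, 262⟩ ⟨876, 924, 27, 79⟩ ⟨733, 940, 400, 615⟩ := .mk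
  (.S 4 836
   (.S 5 507
    (.L ⟨599, 26, true, false, 3710, 8937⟩ ⟨677, 78, true, false, 20374, 26757⟩
     ⟨275, 294, 514, 535⟩ ⟨305, 331, 562, 588⟩ ⟨452, 496, 512, 555⟩
     ⟨0, 0, 0, 0⟩ ⟨0, 0, 0, 0⟩)
    (.S 5 561
     (.L ⟨599, 26, true, false, 3710, 8937⟩ ⟨658, 93, true, false, 24583, 28901⟩
      ⟨275, 294, 514, 535⟩ ⟨308, 332, 574, 594⟩ ⟨448, 489, 518, 559⟩
      ⟨0, 0, 0, 0⟩ ⟨0, 0, 0, 0⟩)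
     (.S 4 784
      (.S 1 225
       (.L ⟨607, 21, true, false, 3710, 7545⟩ ⟨682, 105, true, false, 26783, 30516⟩
        ⟨276, 294, 514, 529⟩ ⟨316, 331, 580, 597⟩ ⟨449, 481, 527, 559⟩
        ⟨0, 0, 0, 0⟩ ⟨0, 0, 0, 0⟩)
       (.S 4 758
        (.L ⟨599, 26, true, false, 4947, 8937⟩ ⟨711, 111, true, false, 28097, 32257⟩
         ⟨275, 294, 519, 535⟩ ⟨322, 334, 583, 598⟩ ⟨454, 484, 531, 561⟩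
         ⟨0, 0, 0, 0⟩ ⟨0, 0, 0, 0⟩)
        (.L ⟨599, 26, true, false, 4947, 8937⟩ ⟨691, 110, true, false, 27760, 31872⟩
         ⟨275, 294, 519, 535⟩ ⟨319, 331, 583, 599⟩ ⟨451, 483, 529, 560⟩
         ⟨0, 0, 0, 0⟩ ⟨0, 0, 0, 0⟩)))
      (.S 1 225
       (.L ⟨607, 21, true, false, 3710, 7545⟩ ⟨645, 102, true, false, 26025, 29671⟩
        ⟨276, 294, 514, 529⟩ ⟨309, 325, 581, 598⟩ ⟨445, 478, 522, 555⟩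
        ⟨0, 0, 0, 0⟩ ⟨0, 0, 0, 0⟩)
       (.L ⟨599, 26, true, false, 4947, 8937⟩ ⟨654, 107, true, false, 27410, 31101⟩
        ⟨275, 294, 519, 535⟩ ⟨313, 329, 584, 601⟩ ⟨447, 481, 525, 560⟩
        ⟨0, 0, 0, 0⟩ ⟨0, 0, 0, 0⟩)))))
   (.S 4 888
    (.S 0 831
     (.L ⟨619, 27, true, false, 3979, 8937⟩ ⟨664, 75, true, false, 19581, 29898⟩
      ⟨280, 294, 515, 535⟩ ⟨302, 323, 565, 599⟩ ⟨442, 491, 511, 552⟩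
      ⟨0, 0, 0, 0⟩ ⟨0, 0, 0, 0⟩)
     (.L ⟨599, 26, true, false, 3710, 8653⟩ ⟨643, 76, true, false, 19804, 30336⟩
      ⟨275, 290, 514, 535⟩ ⟨299, 321, 567, 602⟩ ⟨438, 490, 512, 555⟩
      ⟨0, 0, 0, 0⟩ ⟨0, 0, 0, 0⟩))
    (.S 0 831
     (.L ⟨619, 27, true, false, 3979, 8937⟩ ⟨633, 74, true, false, 19183, 29149⟩
      ⟨280, 294, 515, 535⟩ ⟨296, 317, 566, 601⟩ ⟨438, 488, 507, 548⟩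
      ⟨0, 0, 0, 0⟩ ⟨0, 0, 0, 0⟩)
     (.L ⟨599, 26, true, false, 3710, 8653⟩ ⟨612, 75, true, false, 19405, 29580⟩
      ⟨275, 290, 514, 535⟩ ⟨293, 315, 568, 604⟩ ⟨435, 487, 507, 551⟩
      ⟨0, 0, 0, 0⟩ ⟨0, 0, 0, 0⟩))))
  (by decide +kernel)

theorem qAS7_475 : Cl ⟨0, false, false, false⟩ ⟨2, true, false, true⟩
    ⟨802, 836, 188, 234⟩ ⟨876, 924, 27, 79⟩ ⟨558, 607, 363, 411⟩ := .mk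
  (.L ⟨621, 23, true, false, 3934, 7882⟩ ⟨903, 77, true, false, 20031, 23375⟩
   ⟨280, 294, 515, 531⟩ ⟨332, 344, 553, 565⟩ ⟨480, 503, 528, 550⟩
   ⟨0, 0, 0, 0⟩ ⟨515, 567, 653, 708⟩)
  (by decide +kernel)

theorem qAS7_476 : Cl ⟨0, false, false, false⟩ ⟨0, true, true, true⟩
    ⟨802, 860, 188, 240⟩ ⟨876, 924, 27, 79⟩ ⟨741, 878, 246, 380⟩ := .mk
  (.L ⟨604, 23, true, false, 3719, 8108⟩ ⟨664, 56, true, false, 14570, 20901⟩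
   ⟨276, 294, 514, 532⟩ ⟨295, 324, 546, 574⟩ ⟨461, 502, 503, 544⟩
   ⟨0, 0, 0, 0⟩ ⟨0, 0, 0, 0⟩)
  (by decide +kernel)

theorem qAS7_477 : Cl ⟨0, false, false, false⟩ ⟨0, true, true, true⟩
    ⟨802, 858, 188, 251⟩ ⟨876, 924, 27, 79⟩ ⟨765, 881, 353, 499⟩ := .mk
  (.L ⟨603, 24, true, false, 3737, 8522⟩ ⟨655, 70, true, false, 18390, 25576⟩
   ⟨276, 294, 514, 533⟩ ⟨299, 326, 558, 588⟩ ⟨451, 496, 507, 551⟩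
   ⟨0, 0, 0, 0⟩ ⟨0, 0, 0, 0⟩)
  (by decide +kernel)

theorem qAS7_478 : Cl ⟨0, false, false, false⟩ ⟨0, true, false, false⟩
    ⟨802, 850, 188, 218⟩ ⟨876, 924, 27, 79⟩ ⟨694, 729, 150, 183⟩ := .mk
  (.L ⟨615, 20, true, false, 3808, 7282⟩ ⟨785, 43, true, false, 11044, 13175⟩
   ⟨278, 294, 514, 528⟩ ⟨311, 322, 534, 543⟩ ⟨486, 505, 510, 531⟩
   ⟨0, 0, 0, 0⟩ ⟨0, 0, 0, 0⟩)
  (by decide +kernel)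

theorem qAS7_479 : Cl ⟨0, false, false, false⟩ ⟨0, true, true, true⟩
    ⟨802, 862, 188, 225⟩ ⟨876, 924, 27, 79⟩ ⟨799, 862, 140, 225⟩ := .mk
  (.L ⟨606, 21, true, false, 3701, 7545⟩ ⟨673, 42, true, false, 10840, 14999⟩
   ⟨276, 294, 514, 529⟩ ⟨293, 312, 536, 555⟩ ⟨475, 502, 500, 529⟩
   ⟨0, 0, 0, 0⟩ ⟨0, 0, 0, 0⟩)
  (by decide +kernel)

theorem qAS7_480 : Cl ⟨0, false, false, false⟩ ⟨0, true, true, true⟩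
    ⟨802, 859, 188, 231⟩ ⟨876, 924, 27, 79⟩ ⟨778, 861, 202, 294⟩ := .mk
  (.L ⟨607, 22, true, false, 3728, 7770⟩ ⟨677, 50, true, false, 12955, 17605⟩
   ⟨276, 294, 514, 530⟩ ⟨296, 317, 542, 563⟩ ⟨470, 501, 503, 535⟩
   ⟨0, 0, 0, 0⟩ ⟨0, 0, 0, 0⟩)
  (by decide +kernel)

theorem qAS7_481 : Cl ⟨0, false, false, false⟩ ⟨0, true, false, false⟩
    ⟨805, 865, 188, 217⟩ ⟨876, 924, 27, 79⟩ ⟨794, 814, 73, 92⟩ := .mk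
  (.L ⟨605, 20, true, false, 3674, 7220⟩ ⟨702, 32, true, false, 8558, 9991⟩
   ⟨276, 294, 514, 528⟩ ⟨296, 307, 529, 536⟩ ⟨487, 505, 501, 521⟩
   ⟨0, 0, 0, 0⟩ ⟨0, 0, 0, 0⟩)
  (by decide +kernel)

theorem qAS7_482 : Cl ⟨0, false, false, false⟩ ⟨0, true, false, false⟩
    ⟨805, 865, 188, 217⟩ ⟨876, 924, 27, 79⟩ ⟨843, 885, 77, 140⟩ := .mk
  (.L ⟨605, 20, true, false, 3674, 7220⟩ ⟨653, 34, true, false, 8875, 11876⟩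
   ⟨276, 294, 514, 528⟩ ⟨288, 304, 531, 545⟩ ⟨480, 503, 496, 522⟩
   ⟨0, 0, 0, 0⟩ ⟨0, 0, 0, 0⟩)
  (by decide +kernel)

theorem qAS7_483 : Cl ⟨0, false, false, false⟩ ⟨0, true, false, false⟩
    ⟨802, 862, 188, 225⟩ ⟨876, 924, 27, 79⟩ ⟨816, 877, 117, 176⟩ := .mk
  (.L ⟨606, 21, true, false, 3701, 7545⟩ ⟨663, 39, true, false, 10105, 13344⟩
   ⟨276, 294, 514, 529⟩ ⟨291, 309, 534, 550⟩ ⟨478, 503, 499, 526⟩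
   ⟨0, 0, 0, 0⟩ ⟨0, 0, 0, 0⟩)
  (by decide +kernel)

theorem qAS7_484 : Cl ⟨0, false, false, false⟩ ⟨0, true, false, false⟩
    ⟨811, 868, 188, 212⟩ ⟨876, 924, 27, 79⟩ ⟨846, 873, 29, 56⟩ := .mk
  (.L ⟨604, 19, true, false, 3647, 6986⟩ ⟨655, 27, true, false, 7324, 8861⟩
   ⟨275, 293, 514, 527⟩ ⟨287, 299, 526, 534⟩ ⟨487, 504, 496, 517⟩
   ⟨0, 0, 0, 0⟩ ⟨0, 0, 0, 0⟩)
  (by decide +kernel)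

theorem qAS7_485 : Cl ⟨0, false, false, false⟩ ⟨0, true, false, false⟩
    ⟨811, 868, 188, 212⟩ ⟨876, 924, 27, 79⟩ ⟨867, 914, 38, 90⟩ := .mk
  (.L ⟨604, 19, true, false, 3647, 6986⟩ ⟨630, 29, true, false, 7717, 10160⟩
   ⟨275, 293, 514, 527⟩ ⟨282, 299, 528, 540⟩ ⟨483, 503, 493, 518⟩
   ⟨0, 0, 0, 0⟩ ⟨0, 0, 0, 0⟩)
  (by decide +kernel)

theorem qAS7_486 : Cl ⟨0, false, false, false⟩ ⟨0, true, false, false⟩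
    ⟨805, 865, 188, 217⟩ ⟨876, 924, 27, 79⟩ ⟨849, 904, 57, 112⟩ := .mk
  (.L ⟨605, 20, true, false, 3674, 7220⟩ ⟨640, 32, true, false, 8261, 11017⟩
   ⟨276, 294, 514, 528⟩ ⟨285, 302, 529, 543⟩ ⟨481, 504, 494, 520⟩
   ⟨0, 0, 0, 0⟩ ⟨0, 0, 0, 0⟩)
  (by decide +kernel)

theorem qAS7_487 : Cl ⟨0, false, false, false⟩ ⟨0, true, false, false⟩
    ⟨811, 868, 188, 212⟩ ⟨876, 924, 27, 79⟩ ⟨886, 909, 14, 39⟩ := .mk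
  (.L ⟨604, 19, true, false, 3647, 6986⟩ ⟨630, 26, true, false, 7077, 8506⟩
   ⟨275, 293, 514, 527⟩ ⟨282, 294, 526, 534⟩ ⟨487, 503, 493, 514⟩
   ⟨0, 0, 0, 0⟩ ⟨0, 0, 0, 0⟩)
  (by decide +kernel)

theorem qAS7_488 : Cl ⟨0, false, false, false⟩ ⟨0, true, false, false⟩
    ⟨811, 868, 188, 212⟩ ⟨876, 924, 27, 79⟩ ⟨897, 934, 22, 62⟩ := .mk
  (.L ⟨604, 19, true, false, 3647, 6986⟩ ⟨616, 28, true, false, 7383, 9367⟩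
   ⟨275, 293, 514, 527⟩ ⟨279, 294, 527, 538⟩ ⟨484, 503, 491, 515⟩
   ⟨0, 0, 0, 0⟩ ⟨0, 0, 0, 0⟩)
  (by decide +kernel)

theorem qAS7_489 : Cl ⟨0, false, false, false⟩ ⟨0, true, false, false⟩
    ⟨811, 868, 188, 212⟩ ⟨876, 924, 27, 79⟩ ⟨882, 927, 32, 77⟩ := .mk
  (.L ⟨604, 19, true, false, 3647, 6986⟩ ⟨621, 29, true, false, 7608, 9804⟩
   ⟨275, 293, 514, 527⟩ ⟨281, 296, 528, 539⟩ ⟨483, 503, 493, 516⟩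
   ⟨0, 0, 0, 0⟩ ⟨0, 0, 0, 0⟩)
  (by decide +kernel)

theorem qAS7_490 : Cl ⟨0, false, false, false⟩ ⟨0, true, false, false⟩
    ⟨816, 869, 188, 210⟩ ⟨876, 924, 27, 79⟩ ⟨900, 1001, 0, 29⟩ := .mk
  (.L ⟨604, 18, true, false, 3638, 6872⟩ ⟨577, 27, true, false, 6373, 8668⟩
   ⟨275, 292, 514, 527⟩ ⟨271, 292, 525, 537⟩ ⟨484, 504, 487, 513⟩
   ⟨0, 0, 0, 0⟩ ⟨0, 0, 0, 0⟩)
  (by decide +kernel)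

theorem qAS7_491 : Cl ⟨0, false, false, false⟩ ⟨0, true, false, false⟩
    ⟨816, 869, 188, 210⟩ ⟨876, 924, 27, 79⟩ ⟨908, 1001, 0, 50⟩ := .mk
  (.L ⟨604, 18, true, false, 3638, 6872⟩ ⟨577, 27, true, false, 6423, 9274⟩
   ⟨275, 292, 514, 527⟩ ⟨271, 292, 525, 539⟩ ⟨483, 504, 487, 513⟩
   ⟨0, 0, 0, 0⟩ ⟨0, 0, 0, 0⟩)
  (by decide +kernel)

theorem qAS7_492 : Cl ⟨0, false, false, false⟩ ⟨0, true, false, false⟩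
    ⟨816, 869, 188, 210⟩ ⟨876, 924, 27, 79⟩ ⟨895, 1001, 0, 61⟩ := .mk
  (.L ⟨604, 18, true, false, 3638, 6872⟩ ⟨577, 27, true, false, 6342, 9593⟩
   ⟨275, 292, 514, 527⟩ ⟨271, 294, 524, 541⟩ ⟨481, 505, 487, 515⟩
   ⟨0, 0, 0, 0⟩ ⟨0, 0, 0, 0⟩)
  (by decide +kernel)

theorem qAS7_493 : Cl ⟨0, false, false, false⟩ ⟨0, true, true, false⟩
    ⟨796, 861, 183, 258⟩ ⟨859, 912, 46, 95⟩ ⟨733, 940, 400, 615⟩ := .mk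
  (.S 4 836
   (.S 5 507
    (.L ⟨603, 23, true, false, 2866, 8175⟩ ⟨677, 77, true, false, 20160, 26608⟩
     ⟨276, 296, 511, 532⟩ ⟨305, 331, 561, 588⟩ ⟨450, 495, 511, 555⟩
     ⟨0, 0, 0, 0⟩ ⟨0, 0, 0, 0⟩)
    (.S 4 784
     (.S 1 220
      (.S 4 758
       (.L ⟨611, 18, true, false, 2866, 6756⟩ ⟨714, 97, true, false, 24336, 30763⟩
        ⟨277, 296, 511, 526⟩ ⟨317, 331, 573, 595⟩ ⟨449, 484, 524, 558⟩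
        ⟨0, 0, 0, 0⟩ ⟨0, 0, 0, 0⟩)
       (.L ⟨611, 18, true, false, 2866, 6756⟩ ⟨694, 95, true, false, 24024, 30335⟩
        ⟨277, 296, 511, 526⟩ ⟨314, 328, 574, 596⟩ ⟨447, 482, 522, 556⟩
        ⟨0, 0, 0, 0⟩ ⟨0, 0, 0, 0⟩))
      (.S 4 758
       (.S 1 239
        (.L ⟨607, 20, true, false, 4079, 7464⟩ ⟨722, 101, true, false, 25629, 31435⟩
         ⟨276, 295, 516, 529⟩ ⟨320, 332, 576, 596⟩ ⟨452, 484, 528, 559⟩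
         ⟨0, 0, 0, 0⟩ ⟨0, 0, 0, 0⟩)
        (.L ⟨603, 23, true, false, 4703, 8175⟩ ⟨726, 104, true, false, 26300, 32113⟩
         ⟨276, 295, 518, 532⟩ ⟨321, 334, 577, 597⟩ ⟨453, 486, 528, 561⟩
         ⟨0, 0, 0, 0⟩ ⟨0, 0, 0, 0⟩))
       (.L ⟨603, 23, true, false, 4079, 8175⟩ ⟨702, 100, true, false, 25351, 31724⟩
        ⟨276, 295, 516, 532⟩ ⟨317, 331, 577, 598⟩ ⟨449, 485, 525, 559⟩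
        ⟨0, 0, 0, 0⟩ ⟨0, 0, 0, 0⟩)))
     (.S 1 220
      (.L ⟨611, 18, true, false, 2866, 6756⟩ ⟨657, 93, true, false, 23701, 29479⟩
       ⟨277, 296, 511, 526⟩ ⟨307, 325, 574, 598⟩ ⟨442, 481, 517, 555⟩
       ⟨0, 0, 0, 0⟩ ⟨0, 0, 0, 0⟩)
      (.L ⟨603, 23, true, false, 4079, 8175⟩ ⟨665, 98, true, false, 25063, 30946⟩
       ⟨276, 295, 516, 532⟩ ⟨311, 329, 577, 600⟩ ⟨445, 484, 521, 559⟩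
       ⟨0, 0, 0, 0⟩ ⟨0, 0, 0, 0⟩))))
   (.S 4 888
    (.S 1 220
     (.L ⟨611, 18, true, false, 2866, 6756⟩ ⟨642, 75, true, false, 19349, 28630⟩
      ⟨277, 296, 511, 526⟩ ⟨298, 319, 564, 599⟩ ⟨438, 486, 508, 551⟩
      ⟨0, 0, 0, 0⟩ ⟨0, 0, 0, 0⟩)
     (.L ⟨603, 23, true, false, 4079, 8175⟩ ⟨647, 81, true, false, 20730, 30172⟩
      ⟨276, 295, 516, 532⟩ ⟨301, 323, 567, 602⟩ ⟨439, 489, 511, 555⟩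
      ⟨0, 0, 0, 0⟩ ⟨0, 0, 0, 0⟩))
    (.S 0 828
     (.L ⟨625, 24, true, false, 3175, 8175⟩ ⟨631, 73, true, false, 18943, 28930⟩
      ⟨281, 296, 512, 532⟩ ⟨296, 317, 565, 600⟩ ⟨437, 487, 506, 547⟩
      ⟨0, 0, 0, 0⟩ ⟨0, 0, 0, 0⟩)
     (.L ⟨603, 23, true, false, 2866, 7845⟩ ⟨612, 74, true, false, 19192, 29408⟩
      ⟨276, 292, 511, 531⟩ ⟨292, 315, 567, 604⟩ ⟨432, 485, 506, 551⟩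
      ⟨0, 0, 0, 0⟩ ⟨0, 0, 0, 0⟩))))
  (by decide +kernel)

theorem qAS7_494 : Cl ⟨0, false, false, false⟩ ⟨2, true, false, true⟩
    ⟨796, 836, 183, 234⟩ ⟨859, 912, 46, 95⟩ ⟨558, 607, 363, 411⟩ := .mk
  (.L ⟨625, 21, true, false, 3100, 7277⟩ ⟨903, 77, true, false, 19859, 23375⟩
   ⟨280, 296, 511, 528⟩ ⟨332, 345, 553, 565⟩ ⟨477, 502, 527, 551⟩
   ⟨0, 0, 0, 0⟩ ⟨513, 568, 653, 711⟩)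
  (by decide +kernel)

theorem qAS7_495 : Cl ⟨0, false, false, false⟩ ⟨0, true, true, true⟩
    ⟨796, 860, 183, 240⟩ ⟨859, 912, 46, 95⟩ ⟨741, 878, 246, 380⟩ := .mk
  (.L ⟨608, 20, true, false, 2876, 7501⟩ ⟨664, 55, true, false, 14396, 20901⟩
   ⟨276, 296, 511, 529⟩ ⟨295, 325, 545, 574⟩ ⟨459, 501, 502, 545⟩
   ⟨0, 0, 0, 0⟩ ⟨0, 0, 0, 0⟩)
  (by decide +kernel)

theorem qAS7_496 : Cl ⟨0, false, false, false⟩ ⟨0, true, true, true⟩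
    ⟨796, 858, 183, 251⟩ ⟨859, 912, 46, 95⟩ ⟨765, 881, 353, 499⟩ := .mk
  (.L ⟨607, 22, true, false, 2894, 7913⟩ ⟨655, 69, true, false, 18184, 25576⟩
   ⟨276, 296, 511, 531⟩ ⟨298, 327, 557, 588⟩ ⟨448, 495, 506, 552⟩
   ⟨0, 0, 0, 0⟩ ⟨0, 0, 0, 0⟩)
  (by decide +kernel)

theorem qAS7_497 : Cl ⟨0, false, false, false⟩ ⟨0, true, false, false⟩
    ⟨796, 850, 183, 218⟩ ⟨859, 912, 46, 95⟩ ⟨694, 729, 150, 183⟩ := .mk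
  (.L ⟨619, 18, true, false, 2969, 6681⟩ ⟨785, 42, true, false, 10900, 13175⟩
   ⟨278, 296, 511, 526⟩ ⟨310, 322, 533, 543⟩ ⟨484, 505, 509, 531⟩
   ⟨0, 0, 0, 0⟩ ⟨0, 0, 0, 0⟩)
  (by decide +kernel)

theorem qAS7_498 : Cl ⟨0, false, false, false⟩ ⟨0, true, true, true⟩
    ⟨799, 862, 183, 225⟩ ⟨859, 912, 46, 95⟩ ⟨799, 862, 140, 225⟩ := .mk
  (.L ⟨610, 18, true, false, 2857, 6915⟩ ⟨674, 41, true, false, 10677, 14999⟩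
   ⟨276, 295, 511, 527⟩ ⟨293, 312, 535, 555⟩ ⟨473, 502, 500, 530⟩
   ⟨0, 0, 0, 0⟩ ⟨0, 0, 0, 0⟩)
  (by decide +kernel)

theorem qAS7_499 : Cl ⟨0, false, false, false⟩ ⟨0, true, true, true⟩
    ⟨796, 859, 183, 231⟩ ⟨859, 912, 46, 95⟩ ⟨778, 861, 202, 294⟩ := .mk
  (.L ⟨610, 19, true, false, 2885, 7165⟩ ⟨677, 49, true, false, 12785, 17605⟩
   ⟨277, 296, 511, 528⟩ ⟨296, 317, 541, 563⟩ ⟨468, 500, 502, 535⟩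
   ⟨0, 0, 0, 0⟩ ⟨0, 0, 0, 0⟩)
  (by decide +kernel)

theorem qAS7_500 : Cl ⟨0, false, false, false⟩ ⟨0, true, false, false⟩
    ⟨805, 865, 183, 217⟩ ⟨859, 912, 46, 95⟩ ⟨794, 814, 73, 92⟩ := .mk
  (.L ⟨609, 17, true, false, 2829, 6565⟩ ⟨702, 32, true, false, 8394, 9991⟩
   ⟨276, 295, 511, 526⟩ ⟨296, 307, 528, 536⟩ ⟨486, 504, 500, 522⟩
   ⟨0, 0, 0, 0⟩ ⟨0, 0, 0, 0⟩)
  (by decide +kernel)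

theorem qAS7_501 : Cl ⟨0, false, false, false⟩ ⟨0, true, false, false⟩
    ⟨805, 865, 183, 217⟩ ⟨859, 912, 46, 95⟩ ⟨843, 885, 77, 140⟩ := .mk
  (.L ⟨609, 17, true, false, 2829, 6565⟩ ⟨653, 33, true, false, 8702, 11876⟩
   ⟨276, 295, 511, 526⟩ ⟨288, 304, 530, 545⟩ ⟨479, 502, 496, 522⟩
   ⟨0, 0, 0, 0⟩ ⟨0, 0, 0, 0⟩)
  (by decide +kernel)

theorem qAS7_502 : Cl ⟨0, false, false, false⟩ ⟨0, true, false, false⟩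
    ⟨799, 862, 183, 225⟩ ⟨859, 912, 46, 95⟩ ⟨816, 877, 117, 176⟩ := .mk
  (.L ⟨610, 18, true, false, 2857, 6915⟩ ⟨663, 38, true, false, 9942, 13344⟩
   ⟨276, 295, 511, 527⟩ ⟨291, 309, 533, 550⟩ ⟨476, 502, 498, 526⟩
   ⟨0, 0, 0, 0⟩ ⟨0, 0, 0, 0⟩)
  (by decide +kernel)

theorem qAS7_503 : Cl ⟨0, false, false, false⟩ ⟨0, true, false, false⟩
    ⟨811, 867, 183, 212⟩ ⟨859, 912, 46, 95⟩ ⟨846, 873, 29, 56⟩ := .mk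
  (.L ⟨609, 16, true, false, 2810, 6329⟩ ⟨656, 27, true, false, 7152, 8866⟩
   ⟨276, 294, 511, 525⟩ ⟨287, 299, 525, 534⟩ ⟨486, 504, 496, 517⟩
   ⟨0, 0, 0, 0⟩ ⟨0, 0, 0, 0⟩)
  (by decide +kernel)

theorem qAS7_504 : Cl ⟨0, false, false, false⟩ ⟨0, true, false, false⟩
    ⟨811, 867, 183, 212⟩ ⟨859, 912, 46, 95⟩ ⟨867, 914, 38, 90⟩ := .mk
  (.L ⟨609, 16, true, false, 2810, 6329⟩ ⟨631, 29, true, false, 7542, 10164⟩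
   ⟨276, 294, 511, 525⟩ ⟨283, 299, 527, 540⟩ ⟨481, 503, 493, 518⟩
   ⟨0, 0, 0, 0⟩ ⟨0, 0, 0, 0⟩)
  (by decide +kernel)

theorem qAS7_505 : Cl ⟨0, false, false, false⟩ ⟨0, true, false, false⟩
    ⟨805, 865, 183, 217⟩ ⟨859, 912, 46, 95⟩ ⟨849, 904, 57, 112⟩ := .mk
  (.L ⟨609, 17, true, false, 2829, 6565⟩ ⟨640, 31, true, false, 8087, 11017⟩
   ⟨276, 295, 511, 526⟩ ⟨285, 302, 528, 543⟩ ⟨480, 503, 494, 520⟩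
   ⟨0, 0, 0, 0⟩ ⟨0, 0, 0, 0⟩)
  (by decide +kernel)

theorem qAS7_506 : Cl ⟨0, false, false, false⟩ ⟨0, true, false, false⟩
    ⟨811, 867, 183, 212⟩ ⟨859, 912, 46, 95⟩ ⟨886, 909, 14, 39⟩ := .mk
  (.L ⟨609, 16, true, false, 2810, 6329⟩ ⟨631, 26, true, false, 6899, 8512⟩
   ⟨276, 294, 511, 525⟩ ⟨282, 294, 525, 534⟩ ⟨485, 503, 493, 514⟩
   ⟨0, 0, 0, 0⟩ ⟨0, 0, 0, 0⟩)
  (by decide +kernel)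

theorem qAS7_507 : Cl ⟨0, false, false, false⟩ ⟨0, true, false, false⟩
    ⟨811, 867, 183, 212⟩ ⟨859, 912, 46, 95⟩ ⟨897, 934, 22, 62⟩ := .mk
  (.L ⟨609, 16, true, false, 2810, 6329⟩ ⟨618, 27, true, false, 7202, 9372⟩
   ⟨276, 294, 511, 525⟩ ⟨280, 294, 526, 538⟩ ⟨482, 502, 492, 514⟩
   ⟨0, 0, 0, 0⟩ ⟨0, 0, 0, 0⟩)
  (by decide +kernel)

theorem qAS7_508 : Cl ⟨0, false, false, false⟩ ⟨0, true, false, false⟩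
    ⟨811, 867, 183, 212⟩ ⟨859, 912, 46, 95⟩ ⟨882, 927, 32, 77⟩ := .mk
  (.L ⟨609, 16, true, false, 2810, 6329⟩ ⟨623, 28, true, false, 7430, 9808⟩
   ⟨276, 294, 511, 525⟩ ⟨281, 296, 527, 539⟩ ⟨482, 502, 492, 516⟩
   ⟨0, 0, 0, 0⟩ ⟨0, 0, 0, 0⟩)
  (by decide +kernel)

theorem qAS7_509 : Cl ⟨0, false, false, false⟩ ⟨0, true, false, false⟩
    ⟨816, 867, 183, 210⟩ ⟨859, 912, 46, 95⟩ ⟨900, 1001, 0, 29⟩ := .mk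
  (.L ⟨609, 16, true, false, 2810, 6213⟩ ⟨579, 26, true, false, 6215, 8680⟩
   ⟨276, 293, 511, 524⟩ ⟨271, 292, 524, 537⟩ ⟨482, 502, 487, 513⟩
   ⟨0, 0, 0, 0⟩ ⟨0, 0, 0, 0⟩)
  (by decide +kernel)

theorem qAS7_510 : Cl ⟨0, false, false, false⟩ ⟨0, true, false, false⟩
    ⟨816, 867, 183, 210⟩ ⟨859, 912, 46, 95⟩ ⟨908, 1001, 0, 50⟩ := .mk
  (.L ⟨609, 16, true, false, 2810, 6213⟩ ⟨579, 26, true, false, 6264, 9285⟩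
   ⟨276, 293, 511, 524⟩ ⟨271, 292, 524, 539⟩ ⟨481, 502, 487, 513⟩
   ⟨0, 0, 0, 0⟩ ⟨0, 0, 0, 0⟩)
  (by decide +kernel)

theorem qAS7_511 : Cl ⟨0, false, false, false⟩ ⟨0, true, false, false⟩
    ⟨816, 867, 183, 210⟩ ⟨859, 912, 46, 95⟩ ⟨895, 1001, 0, 61⟩ := .mk
  (.L ⟨609, 16, true, false, 2810, 6213⟩ ⟨579, 26, true, false, 6184, 9603⟩
   ⟨276, 293, 511, 524⟩ ⟨271, 294, 524, 541⟩ ⟨480, 503, 487, 515⟩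
   ⟨0, 0, 0, 0⟩ ⟨0, 0, 0, 0⟩)
  (by decide +kernel)

theorem qAS7_512 : Cl ⟨0, false, false, false⟩ ⟨0, true, true, false⟩
    ⟨802, 861, 188, 262⟩ ⟨893, 917, 13, 36⟩ ⟨733, 940, 400, 615⟩ := .mk
  (.S 4 836
   (.S 5 507
    (.L ⟨612, 31, true, false, 5230, 9278⟩ ⟨677, 78, true, false, 20374, 26757⟩
     ⟨279, 293, 520, 536⟩ ⟨305, 331, 562, 588⟩ ⟨456, 496, 513, 552⟩
     ⟨0, 0, 0, 0⟩ ⟨0, 0, 0, 0⟩)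
    (.S 4 784
     (.S 1 225
      (.L ⟨618, 26, true, false, 5230, 7894⟩ ⟨695, 96, true, false, 24583, 30516⟩
       ⟨279, 293, 520, 530⟩ ⟨314, 331, 574, 597⟩ ⟨452, 485, 523, 557⟩
       ⟨0, 0, 0, 0⟩ ⟨0, 0, 0, 0⟩)
      (.L ⟨612, 31, true, false, 6494, 9278⟩ ⟨703, 101, true, false, 25870, 31872⟩
       ⟨279, 293, 525, 536⟩ ⟨317, 334, 577, 599⟩ ⟨454, 488, 526, 559⟩
       ⟨0, 0, 0, 0⟩ ⟨0, 0, 0, 0⟩))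
     (.L ⟨612, 31, true, false, 5230, 9278⟩ ⟨658, 93, true, false, 23957, 31101⟩
      ⟨279, 293, 520, 536⟩ ⟨308, 329, 575, 601⟩ ⟨446, 487, 518, 557⟩
      ⟨0, 0, 0, 0⟩ ⟨0, 0, 0, 0⟩)))
   (.S 4 888
    (.L ⟨612, 31, true, false, 5230, 9278⟩ ⟨643, 76, true, false, 19581, 30336⟩
     ⟨279, 293, 520, 536⟩ ⟨299, 323, 565, 602⟩ ⟨441, 492, 509, 553⟩
     ⟨0, 0, 0, 0⟩ ⟨0, 0, 0, 0⟩)
    (.L ⟨612, 31, true, false, 5230, 9278⟩ ⟨612, 75, true, false, 19183, 29580⟩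
     ⟨279, 293, 520, 536⟩ ⟨293, 317, 566, 604⟩ ⟨438, 489, 505, 549⟩
     ⟨0, 0, 0, 0⟩ ⟨0, 0, 0, 0⟩)))
  (by decide +kernel)

theorem qAS7_513 : Cl ⟨0, false, false, false⟩ ⟨2, true, false, true⟩
    ⟨802, 836, 188, 234⟩ ⟨893, 917, 13, 36⟩ ⟨558, 607, 363, 411⟩ := .mk
  (.L ⟨633, 28, true, false, 5418, 8230⟩ ⟨903, 77, true, false, 20031, 23375⟩
   ⟨283, 293, 520, 532⟩ ⟨332, 344, 553, 565⟩ ⟨483, 503, 528, 548⟩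
   ⟨0, 0, 0, 0⟩ ⟨515, 567, 653, 708⟩)
  (by decide +kernel)

theorem qAS7_514 : Cl ⟨0, false, false, false⟩ ⟨0, true, true, true⟩
    ⟨802, 860, 188, 240⟩ ⟨893, 917, 13, 36⟩ ⟨741, 878, 246, 380⟩ := .mk
  (.L ⟨616, 28, true, false, 5238, 8454⟩ ⟨664, 56, true, false, 14570, 20901⟩
   ⟨279, 293, 520, 533⟩ ⟨295, 324, 546, 574⟩ ⟨465, 502, 503, 541⟩
   ⟨0, 0, 0, 0⟩ ⟨0, 0, 0, 0⟩)
  (by decide +kernel)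

theorem qAS7_515 : Cl ⟨0, false, false, false⟩ ⟨0, true, true, true⟩
    ⟨802, 858, 188, 251⟩ ⟨893, 917, 13, 36⟩ ⟨765, 881, 353, 499⟩ := .mk
  (.L ⟨616, 29, true, false, 5253, 8866⟩ ⟨655, 70, true, false, 18390, 25576⟩
   ⟨280, 293, 520, 534⟩ ⟨299, 326, 558, 588⟩ ⟨454, 496, 508, 548⟩
   ⟨0, 0, 0, 0⟩ ⟨0, 0, 0, 0⟩)
  (by decide +kernel)

theorem qAS7_516 : Cl ⟨0, false, false, false⟩ ⟨0, true, false, false⟩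
    ⟨802, 850, 188, 218⟩ ⟨893, 917, 13, 36⟩ ⟨694, 729, 150, 183⟩ := .mk
  (.L ⟨627, 25, true, false, 5313, 7633⟩ ⟨785, 43, true, false, 11044, 13175⟩
   ⟨281, 293, 520, 529⟩ ⟨311, 322, 534, 543⟩ ⟨490, 506, 511, 529⟩
   ⟨0, 0, 0, 0⟩ ⟨0, 0, 0, 0⟩)
  (by decide +kernel)

theorem qAS7_517 : Cl ⟨0, false, false, false⟩ ⟨0, true, true, true⟩
    ⟨802, 862, 188, 225⟩ ⟨893, 917, 13, 36⟩ ⟨799, 862, 140, 225⟩ := .mk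
  (.L ⟨618, 26, true, false, 5223, 7894⟩ ⟨673, 42, true, false, 10840, 14999⟩
   ⟨279, 293, 520, 530⟩ ⟨293, 312, 536, 555⟩ ⟨478, 503, 500, 527⟩
   ⟨0, 0, 0, 0⟩ ⟨0, 0, 0, 0⟩)
  (by decide +kernel)

theorem qAS7_518 : Cl ⟨0, false, false, false⟩ ⟨0, true, true, true⟩
    ⟨802, 859, 188, 231⟩ ⟨893, 917, 13, 36⟩ ⟨778, 861, 202, 294⟩ := .mk
  (.L ⟨618, 27, true, false, 5245, 8118⟩ ⟨677, 50, true, false, 12955, 17605⟩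
   ⟨280, 293, 520, 531⟩ ⟨296, 317, 542, 563⟩ ⟨473, 501, 503, 532⟩
   ⟨0, 0, 0, 0⟩ ⟨0, 0, 0, 0⟩)
  (by decide +kernel)

theorem qAS7_519 : Cl ⟨0, false, false, false⟩ ⟨0, true, false, false⟩
    ⟨805, 865, 188, 217⟩ ⟨893, 917, 13, 36⟩ ⟨794, 814, 73, 92⟩ := .mk
  (.L ⟨617, 24, true, false, 5200, 7573⟩ ⟨702, 32, true, false, 8558, 9991⟩
   ⟨279, 292, 520, 529⟩ ⟨296, 307, 529, 536⟩ ⟨491, 505, 502, 519⟩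
   ⟨0, 0, 0, 0⟩ ⟨0, 0, 0, 0⟩)
  (by decide +kernel)

theorem qAS7_520 : Cl ⟨0, false, false, false⟩ ⟨0, true, false, false⟩
    ⟨805, 865, 188, 217⟩ ⟨893, 917, 13, 36⟩ ⟨843, 885, 77, 140⟩ := .mk
  (.L ⟨617, 24, true, false, 5200, 7573⟩ ⟨653, 34, true, false, 8875, 11876⟩
   ⟨279, 292, 520, 529⟩ ⟨288, 304, 531, 545⟩ ⟨484, 503, 497, 519⟩
   ⟨0, 0, 0, 0⟩ ⟨0, 0, 0, 0⟩)
  (by decide +kernel)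

theorem qAS7_521 : Cl ⟨0, false, false, false⟩ ⟨0, true, false, false⟩
    ⟨802, 862, 188, 225⟩ ⟨893, 917, 13, 36⟩ ⟨816, 877, 117, 176⟩ := .mk
  (.L ⟨618, 26, true, false, 5223, 7894⟩ ⟨663, 39, true, false, 10105, 13344⟩
   ⟨279, 293, 520, 530⟩ ⟨291, 309, 534, 550⟩ ⟨481, 503, 499, 524⟩
   ⟨0, 0, 0, 0⟩ ⟨0, 0, 0, 0⟩)
  (by decide +kernel)

theorem qAS7_522 : Cl ⟨0, false, false, false⟩ ⟨0, true, false, false⟩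
    ⟨811, 868, 188, 212⟩ ⟨893, 917, 13, 36⟩ ⟨846, 873, 29, 56⟩ := .mk
  (.L ⟨616, 24, true, false, 5178, 7343⟩ ⟨655, 27, true, false, 7324, 8861⟩
   ⟨279, 291, 520, 529⟩ ⟨287, 299, 526, 534⟩ ⟨491, 505, 497, 514⟩
   ⟨0, 0, 0, 0⟩ ⟨0, 0, 0, 0⟩)
  (by decide +kernel)

theorem qAS7_523 : Cl ⟨0, false, false, false⟩ ⟨0, true, false, false⟩
    ⟨811, 868, 188, 212⟩ ⟨893, 917, 13, 36⟩ ⟨867, 914, 38, 90⟩ := .mk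
  (.L ⟨616, 24, true, false, 5178, 7343⟩ ⟨630, 29, true, false, 7717, 10160⟩
   ⟨279, 291, 520, 529⟩ ⟨282, 299, 528, 540⟩ ⟨486, 504, 494, 515⟩
   ⟨0, 0, 0, 0⟩ ⟨0, 0, 0, 0⟩)
  (by decide +kernel)

theorem qAS7_524 : Cl ⟨0, false, false, false⟩ ⟨0, true, false, false⟩
    ⟨805, 865, 188, 217⟩ ⟨893, 917, 13, 36⟩ ⟨849, 904, 57, 112⟩ := .mk
  (.L ⟨617, 24, true, false, 5200, 7573⟩ ⟨640, 32, true, false, 8261, 11017⟩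
   ⟨279, 292, 520, 529⟩ ⟨285, 302, 529, 543⟩ ⟨485, 504, 495, 518⟩
   ⟨0, 0, 0, 0⟩ ⟨0, 0, 0, 0⟩)
  (by decide +kernel)

theorem qAS7_525 : Cl ⟨0, false, false, false⟩ ⟨0, true, false, false⟩
    ⟨811, 868, 188, 212⟩ ⟨893, 917, 13, 36⟩ ⟨886, 909, 14, 39⟩ := .mk
  (.L ⟨616, 24, true, false, 5178, 7343⟩ ⟨630, 26, true, false, 7077, 8506⟩
   ⟨279, 291, 520, 529⟩ ⟨282, 294, 526, 534⟩ ⟨490, 504, 494, 511⟩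
   ⟨0, 0, 0, 0⟩ ⟨0, 0, 0, 0⟩)
  (by decide +kernel)

theorem qAS7_526 : Cl ⟨0, false, false, false⟩ ⟨0, true, false, false⟩
    ⟨811, 868, 188, 212⟩ ⟨893, 917, 13, 36⟩ ⟨897, 934, 22, 62⟩ := .mk
  (.L ⟨616, 24, true, false, 5178, 7343⟩ ⟨616, 28, true, false, 7383, 9367⟩
   ⟨279, 291, 520, 529⟩ ⟨279, 294, 527, 538⟩ ⟨487, 504, 492, 512⟩
   ⟨0, 0, 0, 0⟩ ⟨0, 0, 0, 0⟩)
  (by decide +kernel)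

theorem qAS7_527 : Cl ⟨0, false, false, false⟩ ⟨0, true, false, false⟩
    ⟨811, 868, 188, 212⟩ ⟨893, 917, 13, 36⟩ ⟨882, 927, 32, 77⟩ := .mk
  (.L ⟨616, 24, true, false, 5178, 7343⟩ ⟨621, 29, true, false, 7608, 9804⟩
   ⟨279, 291, 520, 529⟩ ⟨281, 296, 528, 539⟩ ⟨487, 503, 494, 513⟩
   ⟨0, 0, 0, 0⟩ ⟨0, 0, 0, 0⟩)
  (by decide +kernel)

theorem qAS7_528 : Cl ⟨0, false, false, false⟩ ⟨0, true, false, false⟩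
    ⟨816, 869, 188, 210⟩ ⟨893, 917, 13, 36⟩ ⟨900, 1001, 0, 29⟩ := .mk
  (.L ⟨615, 23, true, false, 5170, 7232⟩ ⟨577, 27, true, false, 6373, 8668⟩
   ⟨278, 291, 520, 528⟩ ⟨271, 292, 525, 537⟩ ⟨487, 504, 488, 511⟩
   ⟨0, 0, 0, 0⟩ ⟨0, 0, 0, 0⟩)
  (by decide +kernel)

theorem qAS7_529 : Cl ⟨0, false, false, false⟩ ⟨0, true, false, false⟩
    ⟨816, 869, 188, 210⟩ ⟨893, 917, 13, 36⟩ ⟨908, 1001, 0, 50⟩ := .mk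
  (.L ⟨615, 23, true, false, 5170, 7232⟩ ⟨577, 27, true, false, 6423, 9274⟩
   ⟨278, 291, 520, 528⟩ ⟨271, 292, 525, 539⟩ ⟨486, 504, 488, 511⟩
   ⟨0, 0, 0, 0⟩ ⟨0, 0, 0, 0⟩)
  (by decide +kernel)

theorem qAS7_530 : Cl ⟨0, false, false, false⟩ ⟨0, true, false, false⟩
    ⟨816, 869, 188, 210⟩ ⟨893, 917, 13, 36⟩ ⟨895, 1001, 0, 61⟩ := .mk
  (.L ⟨615, 23, true, false, 5170, 7232⟩ ⟨577, 27, true, false, 6342, 9593⟩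
   ⟨278, 291, 520, 528⟩ ⟨271, 294, 524, 541⟩ ⟨485, 505, 487, 513⟩
   ⟨0, 0, 0, 0⟩ ⟨0, 0, 0, 0⟩)
  (by decide +kernel)

/-- The pairs of the file. -/
def rAS7 : List Pq := [
  ⟨14, 16, ⟨811, 868, 188, 212⟩, ⟨859, 886, 25, 50⟩, ⟨882, 927, 32, 77⟩⟩,
  ⟨14, 20, ⟨816, 869, 188, 210⟩, ⟨859, 886, 25, 50⟩, ⟨900, 1001, 0, 29⟩⟩,
  ⟨14, 18, ⟨816, 869, 188, 210⟩, ⟨859, 886, 25, 50⟩, ⟨908, 1001, 0, 50⟩⟩,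
  ⟨14, 19, ⟨816, 869, 188, 210⟩, ⟨859, 886, 25, 50⟩, ⟨895, 1001, 0, 61⟩⟩,
  ⟨12, 0, ⟨802, 861, 188, 262⟩, ⟨876, 924, 27, 79⟩, ⟨733, 940, 400, 615⟩⟩,
  ⟨12, 5, ⟨802, 836, 188, 234⟩, ⟨876, 924, 27, 79⟩, ⟨558, 607, 363, 411⟩⟩,
  ⟨12, 3, ⟨802, 860, 188, 240⟩, ⟨876, 924, 27, 79⟩, ⟨741, 878, 246, 380⟩⟩,
  ⟨12, 4, ⟨802, 858, 188, 251⟩, ⟨876, 924, 27, 79⟩, ⟨765, 881, 353, 499⟩⟩,
  ⟨12, 8, ⟨802, 850, 188, 218⟩, ⟨876, 924, 27, 79⟩, ⟨694, 729, 150, 183⟩⟩,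
  ⟨12, 6, ⟨802, 862, 188, 225⟩, ⟨876, 924, 27, 79⟩, ⟨799, 862, 140, 225⟩⟩,
  ⟨12, 7, ⟨802, 859, 188, 231⟩, ⟨876, 924, 27, 79⟩, ⟨778, 861, 202, 294⟩⟩,
  ⟨12, 11, ⟨805, 865, 188, 217⟩, ⟨876, 924, 27, 79⟩, ⟨794, 814, 73, 92⟩⟩,
  ⟨12, 9, ⟨805, 865, 188, 217⟩, ⟨876, 924, 27, 79⟩, ⟨843, 885, 77, 140⟩⟩,
  ⟨12, 10, ⟨802, 862, 188, 225⟩, ⟨876, 924, 27, 79⟩, ⟨816, 877, 117, 176⟩⟩,
  ⟨12, 14, ⟨811, 868, 188, 212⟩, ⟨876, 924, 27, 79⟩, ⟨846, 873, 29, 56⟩⟩,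
  ⟨12, 12, ⟨811, 868, 188, 212⟩, ⟨876, 924, 27, 79⟩, ⟨867, 914, 38, 90⟩⟩,
  ⟨12, 13, ⟨805, 865, 188, 217⟩, ⟨876, 924, 27, 79⟩, ⟨849, 904, 57, 112⟩⟩,
  ⟨12, 17, ⟨811, 868, 188, 212⟩, ⟨876, 924, 27, 79⟩, ⟨886, 909, 14, 39⟩⟩,
  ⟨12, 15, ⟨811, 868, 188, 212⟩, ⟨876, 924, 27, 79⟩, ⟨897, 934, 22, 62⟩⟩,
  ⟨12, 16, ⟨811, 868, 188, 212⟩, ⟨876, 924, 27, 79⟩, ⟨882, 927, 32, 77⟩⟩,
  ⟨12, 20, ⟨816, 869, 188, 210⟩, ⟨876, 924, 27, 79⟩, ⟨900, 1001, 0, 29⟩⟩,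
  ⟨12, 18, ⟨816, 869, 188, 210⟩, ⟨876, 924, 27, 79⟩, ⟨908, 1001, 0, 50⟩⟩,
  ⟨12, 19, ⟨816, 869, 188, 210⟩, ⟨876, 924, 27, 79⟩, ⟨895, 1001, 0, 61⟩⟩,
  ⟨13, 0, ⟨796, 861, 183, 258⟩, ⟨859, 912, 46, 95⟩, ⟨733, 940, 400, 615⟩⟩,
  ⟨13, 5, ⟨796, 836, 183, 234⟩, ⟨859, 912, 46, 95⟩, ⟨558, 607, 363, 411⟩⟩,
  ⟨13, 3, ⟨796, 860, 183, 240⟩, ⟨859, 912, 46, 95⟩, ⟨741, 878, 246, 380⟩⟩,
  ⟨13, 4, ⟨796, 858, 183, 251⟩, ⟨859, 912, 46, 95⟩, ⟨765, 881, 353, 499⟩⟩,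
  ⟨13, 8, ⟨796, 850, 183, 218⟩, ⟨859, 912, 46, 95⟩, ⟨694, 729, 150, 183⟩⟩,
  ⟨13, 6, ⟨799, 862, 183, 225⟩, ⟨859, 912, 46, 95⟩, ⟨799, 862, 140, 225⟩⟩,
  ⟨13, 7, ⟨796, 859, 183, 231⟩, ⟨859, 912, 46, 95⟩, ⟨778, 861, 202, 294⟩⟩,
  ⟨13, 11, ⟨805, 865, 183, 217⟩, ⟨859, 912, 46, 95⟩, ⟨794, 814, 73, 92⟩⟩,
  ⟨13, 9, ⟨805, 865, 183, 217⟩, ⟨859, 912, 46, 95⟩, ⟨843, 885, 77, 140⟩⟩,
  ⟨13, 10, ⟨799, 862, 183, 225⟩, ⟨859, 912, 46, 95⟩, ⟨816, 877, 117, 176⟩⟩,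
  ⟨13, 14, ⟨811, 867, 183, 212⟩, ⟨859, 912, 46, 95⟩, ⟨846, 873, 29, 56⟩⟩,
  ⟨13, 12, ⟨811, 867, 183, 212⟩, ⟨859, 912, 46, 95⟩, ⟨867, 914, 38, 90⟩⟩,
  ⟨13, 13, ⟨805, 865, 183, 217⟩, ⟨859, 912, 46, 95⟩, ⟨849, 904, 57, 112⟩⟩,
  ⟨13, 17, ⟨811, 867, 183, 212⟩, ⟨859, 912, 46, 95⟩, ⟨886, 909, 14, 39⟩⟩,
  ⟨13, 15, ⟨811, 867, 183, 212⟩, ⟨859, 912, 46, 95⟩, ⟨897, 934, 22, 62⟩⟩,
  ⟨13, 16, ⟨811, 867, 183, 212⟩, ⟨859, 912, 46, 95⟩, ⟨882, 927, 32, 77⟩⟩,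
  ⟨13, 20, ⟨816, 867, 183, 210⟩, ⟨859, 912, 46, 95⟩, ⟨900, 1001, 0, 29⟩⟩,
  ⟨13, 18, ⟨816, 867, 183, 210⟩, ⟨859, 912, 46, 95⟩, ⟨908, 1001, 0, 50⟩⟩,
  ⟨13, 19, ⟨816, 867, 183, 210⟩, ⟨859, 912, 46, 95⟩, ⟨895, 1001, 0, 61⟩⟩,
  ⟨17, 0, ⟨802, 861, 188, 262⟩, ⟨893, 917, 13, 36⟩, ⟨733, 940, 400, 615⟩⟩,
  ⟨17, 5, ⟨802, 836, 188, 234⟩, ⟨893, 917, 13, 36⟩, ⟨558, 607, 363, 411⟩⟩,
  ⟨17, 3, ⟨802, 860, 188, 240⟩, ⟨893, 917, 13, 36⟩, ⟨741, 878, 246, 380⟩⟩,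
  ⟨17, 4, ⟨802, 858, 188, 251⟩, ⟨893, 917, 13, 36⟩, ⟨765, 881, 353, 499⟩⟩,
  ⟨17, 8, ⟨802, 850, 188, 218⟩, ⟨893, 917, 13, 36⟩, ⟨694, 729, 150, 183⟩⟩,
  ⟨17, 6, ⟨802, 862, 188, 225⟩, ⟨893, 917, 13, 36⟩, ⟨799, 862, 140, 225⟩⟩,
  ⟨17, 7, ⟨802, 859, 188, 231⟩, ⟨893, 917, 13, 36⟩, ⟨778, 861, 202, 294⟩⟩,
  ⟨17, 11, ⟨805, 865, 188, 217⟩, ⟨893, 917, 13, 36⟩, ⟨794, 814, 73, 92⟩⟩,
  ⟨17, 9, ⟨805, 865, 188, 217⟩, ⟨893, 917, 13, 36⟩, ⟨843, 885, 77, 140⟩⟩,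
  ⟨17, 10, ⟨802, 862, 188, 225⟩, ⟨893, 917, 13, 36⟩, ⟨816, 877, 117, 176⟩⟩,
  ⟨17, 14, ⟨811, 868, 188, 212⟩, ⟨893, 917, 13, 36⟩, ⟨846, 873, 29, 56⟩⟩,
  ⟨17, 12, ⟨811, 868, 188, 212⟩, ⟨893, 917, 13, 36⟩, ⟨867, 914, 38, 90⟩⟩,
  ⟨17, 13, ⟨805, 865, 188, 217⟩, ⟨893, 917, 13, 36⟩, ⟨849, 904, 57, 112⟩⟩,
  ⟨17, 17, ⟨811, 868, 188, 212⟩, ⟨893, 917, 13, 36⟩, ⟨886, 909, 14, 39⟩⟩,
  ⟨17, 15, ⟨811, 868, 188, 212⟩, ⟨893, 917, 13, 36⟩, ⟨897, 934, 22, 62⟩⟩,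
  ⟨17, 16, ⟨811, 868, 188, 212⟩, ⟨893, 917, 13, 36⟩, ⟨882, 927, 32, 77⟩⟩,
  ⟨17, 20, ⟨816, 869, 188, 210⟩, ⟨893, 917, 13, 36⟩, ⟨900, 1001, 0, 29⟩⟩,
  ⟨17, 18, ⟨816, 869, 188, 210⟩, ⟨893, 917, 13, 36⟩, ⟨908, 1001, 0, 50⟩⟩,
  ⟨17, 19, ⟨816, 869, 188, 210⟩, ⟨893, 917, 13, 36⟩, ⟨895, 1001, 0, 61⟩⟩]

theorem rAS7_ok : ∀ p ∈ rAS7, Cr false true p :=
  List.forall_mem_cons.2 ⟨qAS7_470,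
  List.forall_mem_cons.2 ⟨qAS7_471,
  List.forall_mem_cons.2 ⟨qAS7_472,
  List.forall_mem_cons.2 ⟨qAS7_473,
  List.forall_mem_cons.2 ⟨qAS7_474,
  List.forall_mem_cons.2 ⟨qAS7_475,
  List.forall_mem_cons.2 ⟨qAS7_476,
  List.forall_mem_cons.2 ⟨qAS7_477,
  List.forall_mem_cons.2 ⟨qAS7_478,
  List.forall_mem_cons.2 ⟨qAS7_479,
  List.forall_mem_cons.2 ⟨qAS7_480,
  List.forall_mem_cons.2 ⟨qAS7_481,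
  List.forall_mem_cons.2 ⟨qAS7_482,
  List.forall_mem_cons.2 ⟨qAS7_483,
  List.forall_mem_cons.2 ⟨qAS7_484,
  List.forall_mem_cons.2 ⟨qAS7_485,
  List.forall_mem_cons.2 ⟨qAS7_486,
  List.forall_mem_cons.2 ⟨qAS7_487,
  List.forall_mem_cons.2 ⟨qAS7_488,
  List.forall_mem_cons.2 ⟨qAS7_489,
  List.forall_mem_cons.2 ⟨qAS7_490,
  List.forall_mem_cons.2 ⟨qAS7_491,
  List.forall_mem_cons.2 ⟨qAS7_492,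
  List.forall_mem_cons.2 ⟨qAS7_493,
  List.forall_mem_cons.2 ⟨qAS7_494,
  List.forall_mem_cons.2 ⟨qAS7_495,
  List.forall_mem_cons.2 ⟨qAS7_496,
  List.forall_mem_cons.2 ⟨qAS7_497,
  List.forall_mem_cons.2 ⟨qAS7_498,
  List.forall_mem_cons.2 ⟨qAS7_499,
  List.forall_mem_cons.2 ⟨qAS7_500,
  List.forall_mem_cons.2 ⟨qAS7_501,
  List.forall_mem_cons.2 ⟨qAS7_502,
  List.forall_mem_cons.2 ⟨qAS7_503,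
  List.forall_mem_cons.2 ⟨qAS7_504,
  List.forall_mem_cons.2 ⟨qAS7_505,
  List.forall_mem_cons.2 ⟨qAS7_506,
  List.forall_mem_cons.2 ⟨qAS7_507,
  List.forall_mem_cons.2 ⟨qAS7_508,
  List.forall_mem_cons.2 ⟨qAS7_509,
  List.forall_mem_cons.2 ⟨qAS7_510,
  List.forall_mem_cons.2 ⟨qAS7_511,
  List.forall_mem_cons.2 ⟨qAS7_512,
  List.forall_mem_cons.2 ⟨qAS7_513,
  List.forall_mem_cons.2 ⟨qAS7_514,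
  List.forall_mem_cons.2 ⟨qAS7_515,
  List.forall_mem_cons.2 ⟨qAS7_516,
  List.forall_mem_cons.2 ⟨qAS7_517,
  List.forall_mem_cons.2 ⟨qAS7_518,
  List.forall_mem_cons.2 ⟨qAS7_519,
  List.forall_mem_cons.2 ⟨qAS7_520,
  List.forall_mem_cons.2 ⟨qAS7_521,
  List.forall_mem_cons.2 ⟨qAS7_522,
  List.forall_mem_cons.2 ⟨qAS7_523,
  List.forall_mem_cons.2 ⟨qAS7_524,
  List.forall_mem_cons.2 ⟨qAS7_525,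
  List.forall_mem_cons.2 ⟨qAS7_526,
  List.forall_mem_cons.2 ⟨qAS7_527,
  List.forall_mem_cons.2 ⟨qAS7_528,
  List.forall_mem_cons.2 ⟨qAS7_529,
  List.forall_mem_cons.2 ⟨qAS7_530,
  List.forall_mem_nil _⟩⟩⟩⟩⟩⟩⟩⟩⟩⟩⟩⟩⟩⟩⟩⟩⟩⟩⟩⟩⟩⟩⟩⟩⟩⟩⟩⟩⟩⟩⟩⟩⟩⟩⟩⟩⟩⟩⟩⟩⟩⟩⟩⟩⟩⟩⟩⟩⟩⟩⟩⟩⟩⟩⟩⟩⟩⟩⟩⟩⟩

end Pool.Agent.S5.Z4
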