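import Pool.Agent.S5.Z4.Tre

/-!
# Inner nodes with four half twists: certificates
-/

set_option autoImplicit false

namespace Pool.Agent.S5.Z4

theorem qTAA0_21 : Cl ⟨1, false, false, false⟩ ⟨1, false, false, false⟩
    ⟨816, 826, 82, 92⟩ ⟨559, 568, 739, 745⟩ ⟨559, 568, 739, 745⟩ := .mk
  (.L ⟨681, 124, false, true, 32412, 32501⟩ ⟨681, 124, false, true, 32412, 32501⟩
   ⟨323, 328, 398, 402⟩ ⟨323, 328, 398, 402⟩ ⟨498, 502, 498, 502⟩
   ⟨691, 709, 1453, 1470⟩ ⟨691, 709, 1453, 1470⟩)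
  (by decide +kernel)

/-- The pairs of the file. -/
def rTAA0 : List Pq := [
  ⟨2, 2, ⟨816, 826, 82, 92⟩, ⟨559, 568, 739, 745⟩, ⟨559, 568, 739, 745⟩⟩]

theorem rTAA0_ok : ∀ p ∈ rTAA0, Cr false false p :=
  List.forall_mem_cons.2 ⟨qTAA0_21,
  List.forall_mem_nil _⟩

end Pool.Agent.S5.Z4
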